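import Mathlib

set_option autoImplicit false
open MeasureTheory Set Filter Topology Metric
open scoped ENNReal NNReal

namespace Pool.Agent.Helper265.Br


/-- Bloch type lemma -/
lemma koebe_bloch (G g : ℂ → ℂ) (z : ℂ) (r : ℝ) (hr : 0 < r)
    (hG : ∀ w ∈ ball z r, HasDerivAt G (g w) w) (hg : DifferentiableOn ℂ g (ball z r)) (hgz : g z ≠ 0) :
    ∃ ζ : ℂ, ball ζ (3 * r * ‖g z‖ / 512) ⊆ G '' ball z r := by
  have hsub : closedBall z (r / 2) ⊆ ball z r := closedBall_subset_ball (by linarith)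
  have hcont : ContinuousOn (fun w => (r / 2 - dist w z) * ‖g w‖) (closedBall z (r / 2)) := by
    apply ContinuousOn.mul
    · exact continuousOn_const.sub (continuous_id.dist continuous_const).continuousOn
    · exact (hg.continuousOn.mono hsub).norm
  obtain ⟨w0, hw0, hmax⟩ := (isCompact_closedBall z (r / 2)).exists_isMaxOn
    ⟨z, mem_closedBall_self (by linarith)⟩ hcont
  have hmaxz : r / 2 * ‖g z‖ ≤ (r / 2 - dist w0 z) * ‖g w0‖ := by
    have := hmax (mem_closedBall_self (by linarith) : z ∈ closedBall z (r / 2))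
    simpa using this
  have hgzpos : 0 < ‖g z‖ := norm_pos_iff.mpr hgz
  have hpos : 0 < (r / 2 - dist w0 z) * ‖g w0‖ := lt_of_lt_of_le (by positivity) hmaxz
  rw [mem_closedBall] at hw0
  have hD : 0 < ‖g w0‖ := by
    rcases (norm_nonneg (g w0)).eq_or_lt with h | h
    · rw [← h, mul_zero] at hpos
      exact absurd hpos (lt_irrefl _)
    · exact h
  have hd : 0 < r / 2 - dist w0 z := pos_of_mul_pos_left hpos hD.le
  obtain ⟨t, ht⟩ : ∃ t : ℝ, t = (r / 2 - dist w0 z) / 2 := ⟨_, rfl⟩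
  have ht0 : 0 < t := by rw [ht]; linarith
  obtain ⟨D, hDD⟩ : ∃ D : ℝ, D = ‖g w0‖ := ⟨_, rfl⟩
  rw [← hDD] at hD
  have hDt : r / 4 * ‖g z‖ ≤ D * t := by
    rw [ht, hDD]; nlinarith
  have hball : ∀ w ∈ closedBall w0 t, dist w z ≤ r / 2 - t := by
    intro w hw
    rw [mem_closedBall] at hw
    have := dist_triangle w w0 z
    linarith
  have hb2 : ∀ w ∈ closedBall w0 t, ‖g w‖ ≤ 2 * D := by
    intro w hw
    have h1 := hball w hw
    have h2 : (r / 2 - dist w z) * ‖g w‖ ≤ (r / 2 - dist w0 z) * ‖g w0‖ :=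
      hmax (mem_closedBall.mpr (by linarith) : w ∈ closedBall z (r / 2))
    have h3 : r / 2 - dist w0 z = 2 * t := by rw [ht]; ring
    rw [h3, ← hDD] at h2
    have h4 : t * ‖g w‖ ≤ (r / 2 - dist w z) * ‖g w‖ :=
      mul_le_mul_of_nonneg_right (by linarith) (norm_nonneg _)
    have h5 : t * ‖g w‖ ≤ t * (2 * D) := by linarith
    exact le_of_mul_le_mul_left h5 ht0
  have hsubt : closedBall w0 t ⊆ ball z r := by
    intro w hw
    rw [mem_ball]
    have := hball w hw
    linarith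
  have hschw : ∀ w ∈ ball w0 t, ‖g w - g w0‖ ≤ 3 * D / t * ‖w - w0‖ := by
    intro w hw
    have := Complex.dist_le_div_mul_dist_of_mapsTo_ball (f := g) (c := w0) (R₁ := t) (R₂ := 3 * D)
      (hg.mono (ball_subset_closedBall.trans hsubt)) (by
        intro v hv
        rw [mem_closedBall, dist_eq_norm]
        have h1 := hb2 v (ball_subset_closedBall hv)
        have h2 := norm_sub_le (g v) (g w0)
        rw [← hDD] at h2
        linarith) hw
    rwa [dist_eq_norm, dist_eq_norm] at this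
  obtain ⟨s, hs⟩ : ∃ s : ℝ, s = t / 12 := ⟨_, rfl⟩
  have hs0 : 0 < s := by rw [hs]; linarith
  have hst : closedBall w0 s ⊆ ball w0 t := closedBall_subset_ball (by rw [hs]; linarith)
  have hsr : closedBall w0 s ⊆ ball z r := hst.trans (ball_subset_closedBall.trans hsubt)
  have hcirc : ∀ w ∈ sphere w0 s, 3 / 4 * D * s ≤ ‖G w - G w0‖ := by
    intro w hw
    have hb : ∀ v ∈ closedBall w0 s, ‖g v - g w0‖ ≤ D / 4 := by
      intro v hv
      have h1 := hschw v (hst hv)
      rw [mem_closedBall, dist_eq_norm, hs] at hv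
      have h2 : 3 * D / t * ‖v - w0‖ ≤ 3 * D / t * (t / 12) :=
        mul_le_mul_of_nonneg_left hv (by positivity)
      have h3 : 3 * D / t * (t / 12) = D / 4 := by field_simp; ring
      linarith
    have hmv := Convex.norm_image_sub_le_of_norm_hasDerivWithin_le
      (f := fun v => G v - g w0 * v) (f' := fun v => g v - g w0) (s := closedBall w0 s) (C := D / 4)
      (fun v hv => by
        have h1 := (hG v (hsr hv))
        have h2 : HasDerivAt (fun v => G v - g w0 * v) (g v - g w0 * 1) v :=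
          h1.sub ((hasDerivAt_id v).const_mul (g w0))
        rw [mul_one] at h2
        exact h2.hasDerivWithinAt) hb (convex_closedBall w0 s)
      (mem_closedBall_self hs0.le) (sphere_subset_closedBall hw)
    rw [mem_sphere, dist_eq_norm] at hw
    rw [hw] at hmv
    have h4 : ‖g w0 * (w - w0)‖ = D * s := by rw [norm_mul, hw, hDD]
    have h5 : g w0 * (w - w0) = (G w - G w0) - ((G w - g w0 * w) - (G w0 - g w0 * w0)) := by ring
    have h6 := norm_sub_le (G w - G w0) ((G w - g w0 * w) - (G w0 - g w0 * w0))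
    rw [← h5, h4] at h6
    linarith
  have hGd : DifferentiableOn ℂ G (ball z r) := fun w hw => (hG w hw).differentiableAt.differentiableWithinAt
  have hdc : DiffContOnCl ℂ G (ball w0 s) := by
    apply DifferentiableOn.diffContOnCl
    rw [closure_ball _ hs0.ne']
    exact hGd.mono hsr
  have hfreq : ∃ᶠ w in 𝓝 w0, G w ≠ G w0 := by
    have h1 : HasDerivAt G (g w0) w0 := hG w0 (hsr (mem_closedBall_self hs0.le))
    have h2 : g w0 ≠ 0 := by
      intro h
      rw [h, norm_zero] at hDD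
      linarith
    have h3 := (h1.eventually_ne h2 (c := G w0)).frequently
    exact h3.filter_mono nhdsWithin_le_nhds
  have hfin := hdc.ball_subset_image_closedBall hs0 hcirc hfreq
  refine ⟨G w0, ?_⟩
  refine Subset.trans (ball_subset_ball ?_) (hfin.trans (image_mono hsr))
  rw [hs]
  nlinarith

/-- D1 : Koebe (non sharp) -/
theorem koebe_omit : ∃ c : ℝ, 0 < c ∧ ∀ (φ : ℂ → ℂ) (z : ℂ) (r : ℝ), 0 < r →
    DifferentiableOn ℂ φ (ball z r) → InjOn φ (ball z r) → ∀ a : ℂ, a ∉ φ '' ball z r →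
    c * r * ‖deriv φ z‖ ≤ ‖φ z - a‖ := by
  refine ⟨3 / 512 / Real.pi / 2, by positivity, ?_⟩
  intro φ z r hr hφ hinj a ha
  have hne : ∀ w ∈ ball z r, φ w - a ≠ 0 := by
    intro w hw h
    exact ha ⟨w, hw, sub_eq_zero.mp h⟩
  have hzb : z ∈ ball z r := mem_ball_self hr
  by_cases hdz : deriv φ z = 0
  · rw [hdz]; simp
  obtain ⟨g, hg⟩ : ∃ g : ℂ → ℂ, g = fun w => deriv φ w / (φ w - a) := ⟨_, rfl⟩
  have hgd : DifferentiableOn ℂ g (ball z r) := by
    rw [hg]
    exact (hφ.deriv isOpen_ball).div (hφ.sub_const a) hne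
  obtain ⟨G, hG⟩ := hgd.isExactOn_ball
  have hgz : g z ≠ 0 := by
    rw [hg]
    exact div_ne_zero hdz (hne z hzb)
  obtain ⟨ζ, hζ⟩ := koebe_bloch G g z r hr hG hgd hgz
  -- exponential
  have hconst : ∀ w ∈ ball z r, (φ w - a) * Complex.exp (-(G w)) = (φ z - a) * Complex.exp (-(G z)) := by
    intro w hw
    have hmv := Convex.norm_image_sub_le_of_norm_hasDerivWithin_le
      (f := fun v => (φ v - a) * Complex.exp (-(G v))) (f' := fun _ => 0) (s := ball z r) (C := 0)
      (fun v hv => by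
        have h1 : HasDerivAt φ (deriv φ v) v := (hφ.differentiableAt (isOpen_ball.mem_nhds hv)).hasDerivAt
        have h2 := (hG v hv).neg.cexp
        have h3 := (h1.sub_const a).mul h2
        have h4 : deriv φ v * Complex.exp (-(G v)) + (φ v - a) * (Complex.exp (-(G v)) * -(g v)) = 0 := by
          rw [hg]
          have := hne v hv
          field_simp
          ring
        have h5 : HasDerivAt (fun v => (φ v - a) * Complex.exp (-(G v))) 0 v := by
          rw [← h4]
          exact h3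
        exact h5.hasDerivWithinAt) (fun v _ => by simp) (convex_ball z r) hzb hw
    rw [zero_mul] at hmv
    exact sub_eq_zero.mp (norm_le_zero_iff.mp hmv)
  by_contra hcon
  push Not at hcon
  have hnz : 0 < ‖φ z - a‖ := norm_pos_iff.mpr (hne z hzb)
  have hbig : Real.pi < 3 * r * ‖g z‖ / 512 := by
    have h1 : ‖g z‖ = ‖deriv φ z‖ / ‖φ z - a‖ := by rw [hg]; exact norm_div _ _
    rw [h1]
    have hpi := Real.pi_pos
    have h2 : ‖φ z - a‖ * Real.pi < 3 * r * ‖deriv φ z‖ / 512 := by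
      calc ‖φ z - a‖ * Real.pi < (3 / 512 / Real.pi / 2 * r * ‖deriv φ z‖) * Real.pi :=
            mul_lt_mul_of_pos_right hcon hpi
        _ = 3 * r * ‖deriv φ z‖ / 512 / 2 := by field_simp
        _ ≤ 3 * r * ‖deriv φ z‖ / 512 := by
            have : 0 ≤ 3 * r * ‖deriv φ z‖ / 512 := by positivity
            linarith
    rw [show 3 * r * (‖deriv φ z‖ / ‖φ z - a‖) / 512 = (3 * r * ‖deriv φ z‖ / 512) / ‖φ z - a‖ by ring]
    rw [lt_div_iff₀ hnz]
    linarith
  have hpi := Real.pi_pos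
  have h1 : ζ + Real.pi * Complex.I ∈ ball ζ (3 * r * ‖g z‖ / 512) := by
    rw [mem_ball, dist_eq_norm, add_sub_cancel_left, norm_mul, Complex.norm_I, mul_one,
      Complex.norm_real, Real.norm_of_nonneg hpi.le]
    exact hbig
  have h2 : ζ - Real.pi * Complex.I ∈ ball ζ (3 * r * ‖g z‖ / 512) := by
    rw [mem_ball, dist_eq_norm, sub_sub_cancel_left, norm_neg, norm_mul, Complex.norm_I, mul_one,
      Complex.norm_real, Real.norm_of_nonneg hpi.le]
    exact hbig
  obtain ⟨w1, hw1, hGw1⟩ := hζ h1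
  obtain ⟨w2, hw2, hGw2⟩ := hζ h2
  have h3 := (hconst w1 hw1).trans (hconst w2 hw2).symm
  have hexp : Complex.exp (-(G w1)) = Complex.exp (-(G w2)) := by
    rw [hGw1, hGw2, Complex.exp_eq_exp_iff_exists_int]
    exact ⟨-1, by push_cast; ring⟩
  rw [hexp] at h3
  have h4 := mul_right_cancel₀ (Complex.exp_ne_zero _) h3
  have h5 : w1 = w2 := hinj hw1 hw2 (sub_left_injective h4)
  rw [h5, hGw2] at hGw1
  have h6 : (2 * Real.pi * Complex.I : ℂ) = 0 := by linear_combination -hGw1
  exact Complex.two_pi_I_ne_zero h6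



section Univ

variable {f : ℂ → ℂ} {U : Set ℂ}

/-- An injective holomorphic map is open, local form. -/
theorem nhds_le_map (hU : IsOpen U) (hf : DifferentiableOn ℂ f U) (hi : InjOn f U)
    {z : ℂ} (hz : z ∈ U) : 𝓝 (f z) ≤ map f (𝓝 z) := by
  have ha : AnalyticAt ℂ f z := hf.analyticAt (hU.mem_nhds hz)
  rcases ha.eventually_constant_or_nhds_le_map_nhds with h | h
  · exfalso
    have h1 : ∀ᶠ w in 𝓝[≠] z, f w = f z ∧ w ∈ U :=
      (h.and (hU.mem_nhds hz)).filter_mono nhdsWithin_le_nhds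
    have h2 : ∀ᶠ w in 𝓝[≠] z, w ≠ z := eventually_mem_nhdsWithin
    obtain ⟨w, hw, hw2⟩ := (h1.and h2).exists
    exact hw2 (hi hw.2 hz hw.1)
  · exact h

theorem map_nhds (hU : IsOpen U) (hf : DifferentiableOn ℂ f U) (hi : InjOn f U)
    {z : ℂ} (hz : z ∈ U) : map f (𝓝 z) = 𝓝 (f z) := by
  apply le_antisymm
  · exact (hf.analyticAt (hU.mem_nhds hz)).continuousAt
  · exact nhds_le_map hU hf hi hz

theorem isOpen_image (hU : IsOpen U) (hf : DifferentiableOn ℂ f U) (hi : InjOn f U)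
    {s : Set ℂ} (hs : IsOpen s) (hsU : s ⊆ U) : IsOpen (f '' s) := by
  rw [isOpen_iff_mem_nhds]
  rintro _ ⟨z, hz, rfl⟩
  rw [← map_nhds hU hf hi (hsU hz)]
  exact image_mem_map (hs.mem_nhds hz)

theorem invFunOn_left (hi : InjOn f U) {z : ℂ} (hz : z ∈ U) :
    Function.invFunOn f U (f z) = z :=
  hi.leftInvOn_invFunOn hz

theorem invFunOn_mem {w : ℂ} (hw : w ∈ f '' U) :
    Function.invFunOn f U w ∈ U :=
  Function.invFunOn_mem (by simpa using hw)

theorem invFunOn_right {w : ℂ} (hw : w ∈ f '' U) :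
    f (Function.invFunOn f U w) = w :=
  Function.invFunOn_eq (by simpa using hw)

theorem continuousAt_inv (hU : IsOpen U) (hf : DifferentiableOn ℂ f U) (hi : InjOn f U)
    {w : ℂ} (hw : w ∈ f '' U) : ContinuousAt (Function.invFunOn f U) w := by
  obtain ⟨z, hz, rfl⟩ := hw
  rw [ContinuousAt, invFunOn_left hi hz]
  intro V hV
  rw [mem_map]
  have h1 : V ∩ U ∈ 𝓝 z := inter_mem hV (hU.mem_nhds hz)
  have h2 : f '' (V ∩ U) ∈ 𝓝 (f z) := by
    rw [← map_nhds hU hf hi hz]
    exact image_mem_map h1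
  refine mem_of_superset h2 ?_
  rintro _ ⟨y, hy, rfl⟩
  simp only [mem_preimage]
  rw [invFunOn_left hi hy.2]
  exact hy.1

/-- the inverse is differentiable where the derivative does not vanish -/
theorem hasDerivAt_inv_of_ne (hU : IsOpen U) (hf : DifferentiableOn ℂ f U) (hi : InjOn f U)
    {z : ℂ} (hz : z ∈ U) (hd : deriv f z ≠ 0) :
    HasDerivAt (Function.invFunOn f U) (deriv f z)⁻¹ (f z) := by
  have hzz : Function.invFunOn f U (f z) = z := invFunOn_left hi hz
  apply HasDerivAt.of_local_left_inverse (f := f)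
  · exact continuousAt_inv hU hf hi (mem_image_of_mem f hz)
  · rw [hzz]
    exact (hf.differentiableAt (hU.mem_nhds hz)).hasDerivAt
  · exact hd
  · have : f '' U ∈ 𝓝 (f z) := (isOpen_image hU hf hi hU subset_rfl).mem_nhds (mem_image_of_mem f hz)
    filter_upwards [this] with w hw using invFunOn_right hw

/-- zeros of the derivative are isolated -/
theorem eventually_deriv_ne_zero (hU : IsOpen U) (hf : DifferentiableOn ℂ f U) (hi : InjOn f U)
    {z : ℂ} (hz : z ∈ U) : ∀ᶠ y in 𝓝[≠] z, deriv f y ≠ 0 := by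
  have ha : AnalyticAt ℂ f z := hf.analyticAt (hU.mem_nhds hz)
  rcases ha.deriv.eventually_eq_zero_or_eventually_ne_zero with h | h
  · exfalso
    obtain ⟨r, hr, hrs⟩ := Metric.eventually_nhds_iff_ball.mp (h.and (hU.mem_nhds hz))
    have hconst : ∀ y ∈ ball z r, f y = f z := by
      intro y hy
      have hdiff : DifferentiableOn ℂ f (ball z r) := hf.mono (fun x hx => (hrs x hx).2)
      refine (convex_ball z r).is_const_of_fderivWithin_eq_zero (𝕜 := ℂ) hdiff ?_ hy (mem_ball_self hr)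
      intro x hx
      rw [fderivWithin_of_isOpen isOpen_ball hx]
      ext
      simp [(hrs x hx).1]
    have h1 : z + (r/2 : ℝ) ∈ ball z r := by
      simp [abs_of_pos hr]
      linarith
    have h2 := hi (hrs _ h1).2 hz (hconst _ h1)
    have : ((r/2 : ℝ) : ℂ) = 0 := by
      simpa using h2
    have : r / 2 = 0 := by exact_mod_cast this
    linarith
  · exact h

theorem differentiableAt_inv (hU : IsOpen U) (hf : DifferentiableOn ℂ f U) (hi : InjOn f U)
    {w : ℂ} (hw : w ∈ f '' U) : DifferentiableAt ℂ (Function.invFunOn f U) w := by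
  obtain ⟨z, hz, rfl⟩ := hw
  refine (Complex.analyticAt_of_differentiable_on_punctured_nhds_of_continuousAt ?_
    (continuousAt_inv hU hf hi (mem_image_of_mem f hz))).differentiableAt
  have h1 : ∀ᶠ y in 𝓝 z, y ∈ U ∧ (y ≠ z → deriv f y ≠ 0) := by
    have := eventually_deriv_ne_zero hU hf hi hz
    rw [eventually_nhdsWithin_iff] at this
    exact (hU.mem_nhds hz |> fun h => (show ∀ᶠ y in 𝓝 z, y ∈ U from h)).and this
  have h2 : ∀ᶠ w in 𝓝 (f z), w ≠ f z → DifferentiableAt ℂ (Function.invFunOn f U) w := by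
    rw [← map_nhds hU hf hi hz, eventually_map]
    filter_upwards [h1] with y hy hne
    have hyz : y ≠ z := fun h => hne (by rw [h])
    exact (hasDerivAt_inv_of_ne hU hf hi hy.1 (hy.2 hyz)).differentiableAt
  rw [eventually_nhdsWithin_iff]
  exact h2

theorem deriv_ne_zero (hU : IsOpen U) (hf : DifferentiableOn ℂ f U) (hi : InjOn f U)
    {z : ℂ} (hz : z ∈ U) : deriv f z ≠ 0 := by
  have hzz : Function.invFunOn f U (f z) = z := invFunOn_left hi hz
  have hg := (differentiableAt_inv hU hf hi (mem_image_of_mem f hz)).hasDerivAt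
  have hf' : HasDerivAt f (deriv f z) z := (hf.differentiableAt (hU.mem_nhds hz)).hasDerivAt
  have hcomp : HasDerivAt (Function.invFunOn f U ∘ f)
      (deriv (Function.invFunOn f U) (f z) * deriv f z) z := HasDerivAt.comp z hg hf'
  have hid : HasDerivAt (Function.invFunOn f U ∘ f) 1 z := by
    refine (hasDerivAt_id z).congr_of_eventuallyEq ?_
    filter_upwards [hU.mem_nhds hz] with y hy
    simp [invFunOn_left hi hy]
  have := hcomp.unique hid
  intro h
  rw [h] at this
  simp at this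

theorem hasDerivAt_inv (hU : IsOpen U) (hf : DifferentiableOn ℂ f U) (hi : InjOn f U)
    {z : ℂ} (hz : z ∈ U) :
    HasDerivAt (Function.invFunOn f U) (deriv f z)⁻¹ (f z) :=
  hasDerivAt_inv_of_ne hU hf hi hz (deriv_ne_zero hU hf hi hz)

end Univ

/-- one-sided distortion on half the ball -/
theorem distortion_half (c : ℝ) (hc : 0 < c)
    (hyp : ∀ (φ : ℂ → ℂ) (z : ℂ) (r : ℝ), 0 < r →
    DifferentiableOn ℂ φ (ball z r) → InjOn φ (ball z r) → ∀ a : ℂ, a ∉ φ '' ball z r →
    c * r * ‖deriv φ z‖ ≤ ‖φ z - a‖) (φ : ℂ → ℂ) (z : ℂ) (r : ℝ) (hr : 0 < r)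
    (hd : DifferentiableOn ℂ φ (ball z r)) (hi : InjOn φ (ball z r)) (w : ℂ)
    (hw : ‖w - z‖ < r / 2) :
    ‖deriv φ w‖ ≤ max 1 (Real.exp (2 + 1 / c) / c) * ‖deriv φ z‖ := by
  have hzr : z ∈ ball z r := mem_ball_self hr
  have hnhds : ball z r ∈ 𝓝 z := isOpen_ball.mem_nhds hzr
  by_cases hwz : w = z
  · subst hwz
    exact le_mul_of_one_le_left (norm_nonneg _) (le_max_left _ _)
  set g := dslope φ z with hg
  have hgd : DifferentiableOn ℂ g (ball z r) := (Complex.differentiableOn_dslope hnhds).mpr hd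
  have hgne : ∀ x ∈ ball z r, g x ≠ 0 := by
    intro x hx
    by_cases hxz : x = z
    · rw [hxz, hg, dslope_same]
      exact deriv_ne_zero isOpen_ball hd hi hzr
    · rw [hg, dslope_of_ne _ hxz, slope_def_field]
      apply div_ne_zero
      · intro h
        exact hxz (hi hx hzr (sub_eq_zero.mp h))
      · exact sub_ne_zero.mpr hxz
  have hgat : ∀ x ∈ ball z r, DifferentiableAt ℂ g x := fun x hx =>
    hgd.differentiableAt (isOpen_ball.mem_nhds hx)
  have hφat : ∀ x ∈ ball z r, DifferentiableAt ℂ φ x := fun x hx =>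
    hd.differentiableAt (isOpen_ball.mem_nhds hx)
  -- `φ x = φ z + (x - z) g x`
  have hφg : ∀ x, φ x = φ z + (x - z) * g x := by
    intro x
    by_cases hxz : x = z
    · rw [hxz]; ring
    · rw [hg, dslope_of_ne _ hxz, slope_def_field]
      have : x - z ≠ 0 := sub_ne_zero.mpr hxz
      field_simp
      ring
  have hderiv : ∀ x ∈ ball z r, deriv φ x = g x + (x - z) * deriv g x := by
    intro x hx
    have h1 : HasDerivAt (fun y => φ z + (y - z) * g y) (1 * g x + (x - z) * deriv g x) x :=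
      (((hasDerivAt_id x).sub_const z).mul (hgat x hx).hasDerivAt).const_add (φ z)
    rw [one_mul] at h1
    have h2 : φ = fun y => φ z + (y - z) * g y := funext hφg
    rw [h2]
    exact h1.deriv
  -- logarithmic derivative
  set u : ℂ → ℂ := fun x => deriv g x / g x with hu
  have hderg : DifferentiableOn ℂ (deriv g) (ball z r) := hgd.deriv isOpen_ball
  have hud : DifferentiableOn ℂ u (ball z r) := hderg.div hgd hgne
  set v : ℂ → ℂ := fun x => (x - z) * u x with hv
  have hvd : DifferentiableOn ℂ v (ball z r) :=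
    (differentiableOn_id.sub (differentiableOn_const z)).mul hud
  have hv0 : v z = 0 := by rw [hv]; simp
  have hv1 : ∀ x ∈ ball z r, deriv φ x = g x * (1 + v x) := by
    intro x hx
    rw [hderiv x hx, hv, hu]
    have := hgne x hx
    field_simp
  have hbound : ∀ x, x ≠ z → ‖x - z‖ < r / 2 → ‖1 + v x‖ ≤ 1 / c := by
    intro x hxz hxr
    have hx : x ∈ ball z r := by
      rw [mem_ball, dist_eq_norm]; linarith
    have hpos : 0 < ‖x - z‖ := norm_pos_iff.mpr (sub_ne_zero.mpr hxz)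
    have hsub : ball x ‖x - z‖ ⊆ ball z r := by
      intro y hy
      rw [mem_ball, dist_eq_norm] at hy ⊢
      calc ‖y - z‖ = ‖(y - x) + (x - z)‖ := by congr 1; ring
        _ ≤ ‖y - x‖ + ‖x - z‖ := norm_add_le _ _
        _ < r := by linarith
    have h1 := hyp φ x ‖x - z‖ hpos (hd.mono hsub) (hi.mono hsub) (φ z) (by
      rintro ⟨y, hy, hyz⟩
      have h2 := hi (hsub hy) hzr hyz
      rw [h2, mem_ball, dist_eq_norm, norm_sub_rev] at hy
      exact lt_irrefl _ hy)
    have h2 : φ x - φ z = (x - z) * g x := by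
      have := hφg x
      rw [this]; ring
    rw [h2, hv1 x hx, norm_mul, norm_mul] at h1
    have hgpos : 0 < ‖g x‖ := norm_pos_iff.mpr (hgne x hx)
    rw [le_div_iff₀ hc]
    have h3 : (‖x - z‖ * ‖g x‖) * (‖1 + v x‖ * c) ≤ (‖x - z‖ * ‖g x‖) * 1 := by
      nlinarith [h1]
    exact le_of_mul_le_mul_left h3 (mul_pos hpos hgpos)
  set M := 2 + 1 / c with hM
  have hMpos : 0 < M := by positivity
  have hmaps : MapsTo v (ball z (r / 2)) (closedBall (v z) M) := by
    intro x hx
    rw [mem_ball, dist_eq_norm] at hx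
    rw [hv0, mem_closedBall, dist_zero_right]
    by_cases hxz : x = z
    · rw [hxz, hv0, norm_zero]; exact hMpos.le
    · have h1 := hbound x hxz hx
      calc ‖v x‖ = ‖(1 + v x) - 1‖ := by congr 1; ring
        _ ≤ ‖1 + v x‖ + ‖(1 : ℂ)‖ := norm_sub_le _ _
        _ ≤ M := by rw [norm_one, hM]; linarith
  have hhalf : ball z (r / 2) ⊆ ball z r := ball_subset_ball (by linarith)
  have hub : ∀ x ∈ ball z (r / 2), ‖u x‖ ≤ M / (r / 2) := by
    intro x hx
    have h1 := Complex.norm_dslope_le_div_of_mapsTo_ball (hvd.mono hhalf) hmaps hx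
    have h2 : dslope v z x = u x := by
      by_cases hxz : x = z
      · rw [hxz, dslope_same]
        have hut : DifferentiableAt ℂ u z := hud.differentiableAt hnhds
        have h3 : HasDerivAt v (1 * u z + (z - z) * deriv u z) z :=
          ((hasDerivAt_id z).sub_const z).mul hut.hasDerivAt
        rw [sub_self, zero_mul, add_zero, one_mul] at h3
        exact h3.deriv
      · rw [dslope_of_ne _ hxz, slope_def_field, hv0, sub_zero, hv]
        have : x - z ≠ 0 := sub_ne_zero.mpr hxz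
        field_simp
    rwa [h2] at h1
  -- Gronwall along the segment
  have hseg : ∀ t : ℝ, t ∈ Icc (0 : ℝ) 1 → z + (t : ℂ) * (w - z) ∈ ball z (r / 2) := by
    intro t ht
    rw [mem_ball, dist_eq_norm, add_sub_cancel_left, norm_mul, Complex.norm_real, Real.norm_eq_abs,
      abs_of_nonneg ht.1]
    calc t * ‖w - z‖ ≤ 1 * ‖w - z‖ := by gcongr; exact ht.2
      _ < r / 2 := by rw [one_mul]; exact hw
  have hder : ∀ t ∈ Icc (0 : ℝ) 1, HasDerivAt (fun s : ℝ => g (z + (s : ℂ) * (w - z)))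
      (deriv g (z + (t : ℂ) * (w - z)) * (w - z)) t := by
    intro t ht
    have h1 : HasDerivAt (fun s : ℝ => z + (s : ℂ) * (w - z)) (w - z) t := by
      have h2 : HasDerivAt (fun s : ℝ => (s : ℂ)) 1 t := Complex.ofRealCLM.hasDerivAt
      have h3 := (h2.mul_const (w - z)).const_add z
      rwa [one_mul] at h3
    exact (hgat _ (hhalf (hseg t ht))).hasDerivAt.comp_of_eq t h1 rfl
  have hgron := norm_le_gronwallBound_of_norm_deriv_right_le
    (f := fun s : ℝ => g (z + (s : ℂ) * (w - z)))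
    (f' := fun t : ℝ => deriv g (z + (t : ℂ) * (w - z)) * (w - z)) (δ := ‖g z‖) (K := M) (ε := 0)
    (a := 0) (b := 1)
    (fun t ht => (hder t ht).continuousAt.continuousWithinAt)
    (fun t ht => (hder t (Ico_subset_Icc_self ht)).hasDerivWithinAt)
    (by simp)
    (by
      intro t ht
      have h1 := hub _ (hseg t (Ico_subset_Icc_self ht))
      have h2 := hgne _ (hhalf (hseg t (Ico_subset_Icc_self ht)))
      rw [hu] at h1
      simp only at h1
      rw [norm_div, div_le_iff₀ (norm_pos_iff.mpr h2)] at h1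
      rw [norm_mul, add_zero]
      calc ‖deriv g (z + (t : ℂ) * (w - z))‖ * ‖w - z‖
          ≤ (M / (r / 2) * ‖g (z + (t : ℂ) * (w - z))‖) * (r / 2) := by gcongr
        _ = M * ‖g (z + (t : ℂ) * (w - z))‖ := by field_simp)
    1 (right_mem_Icc.mpr zero_le_one)
  rw [gronwallBound_ε0] at hgron
  have e1 : z + ((1 : ℝ) : ℂ) * (w - z) = w := by push_cast; ring
  simp only [e1, sub_zero, mul_one] at hgron
  have hgz : g z = deriv φ z := by rw [hg, dslope_same]
  rw [hgz] at hgron
  have hwr : w ∈ ball z r := by rw [mem_ball, dist_eq_norm]; linarith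
  rw [hv1 w hwr, norm_mul]
  calc ‖g w‖ * ‖1 + v w‖ ≤ (‖deriv φ z‖ * Real.exp M) * (1 / c) := by
        gcongr
        exact hbound w hwz hw
    _ = (Real.exp M / c) * ‖deriv φ z‖ := by ring
    _ ≤ _ := by
        gcongr
        exact le_max_right _ _

/-- D2 : distortion -/
theorem distortion0 (c : ℝ) (hc : 0 < c)
    (hyp : ∀ (φ : ℂ → ℂ) (z : ℂ) (r : ℝ), 0 < r →
    DifferentiableOn ℂ φ (ball z r) → InjOn φ (ball z r) → ∀ a : ℂ, a ∉ φ '' ball z r →
    c * r * ‖deriv φ z‖ ≤ ‖φ z - a‖) :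
    ∃ C : ℝ, 1 ≤ C ∧ ∀ (φ : ℂ → ℂ) (z : ℂ) (r : ℝ), 0 < r →
      DifferentiableOn ℂ φ (ball z r) → InjOn φ (ball z r) → ∀ w : ℂ, ‖w - z‖ ≤ r / 4 →
      ‖deriv φ w‖ ≤ C * ‖deriv φ z‖ ∧ ‖deriv φ z‖ ≤ C * ‖deriv φ w‖ := by
  refine ⟨max 1 (Real.exp (2 + 1 / c) / c), le_max_left _ _, ?_⟩
  intro φ z r hr hd hi w hw
  refine ⟨distortion_half c hc hyp φ z r hr hd hi w (by linarith), ?_⟩
  have hsub : ball w (3 * r / 4) ⊆ ball z r := by
    intro y hy
    rw [mem_ball, dist_eq_norm] at hy ⊢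
    calc ‖y - z‖ = ‖(y - w) + (w - z)‖ := by congr 1; ring
      _ ≤ ‖y - w‖ + ‖w - z‖ := norm_add_le _ _
      _ < r := by linarith
  refine distortion_half c hc hyp φ w (3 * r / 4) (by positivity) (hd.mono hsub) (hi.mono hsub) z ?_
  rw [norm_sub_rev]
  linarith


theorem distortion : ∃ C : ℝ, 1 ≤ C ∧ ∀ (φ : ℂ → ℂ) (z : ℂ) (r : ℝ), 0 < r →
      DifferentiableOn ℂ φ (ball z r) → InjOn φ (ball z r) → ∀ w : ℂ, ‖w - z‖ ≤ r / 4 →
      ‖deriv φ w‖ ≤ C * ‖deriv φ z‖ ∧ ‖deriv φ z‖ ≤ C * ‖deriv φ w‖ := by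
  obtain ⟨c, hc, h⟩ := koebe_omit
  exact distortion0 c hc h

end Pool.Agent.Helper265.Br
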