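import Mathlib
import Pool.Agent.Helper265.BrK

set_option autoImplicit false
open Complex Set Filter Metric Topology MeasureTheory
open scoped ENNReal

namespace Pool.Agent.Helper265.Br

/-- the target -/
theorem pkg {ψ : ℂ → ℂ} (hd : DifferentiableOn ℂ ψ (ball 0 1)) (hi : InjOn ψ (ball 0 1)) :
    ∃ (g : ℂ → ℂ) (B : ℝ), 1 ≤ B ∧ DifferentiableOn ℂ g (ball 0 1) ∧
      (∀ ξ ∈ ball (0 : ℂ) 1, deriv ψ ξ = exp (g ξ)) ∧
      (∀ ξ ∈ ball (0 : ℂ) 1, ‖deriv g ξ‖ * (1 - ‖ξ‖) ≤ B) := by
  have hd1 : DifferentiableOn ℂ (deriv ψ) (ball 0 1) := hd.deriv isOpen_ball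
  have hd2 : DifferentiableOn ℂ (deriv (deriv ψ)) (ball 0 1) := hd1.deriv isOpen_ball
  have hne : ∀ z ∈ ball (0 : ℂ) 1, deriv ψ z ≠ 0 := fun z hz => deriv_ne_zero isOpen_ball hd hi hz
  have hh : DifferentiableOn ℂ (fun z => deriv (deriv ψ) z / deriv ψ z) (ball 0 1) :=
    hd2.div hd1 hne
  obtain ⟨G, hG0, hG⟩ := hh.isExactOn_ball.with_val_at 0 (Complex.log (deriv ψ 0))
  have h0 : (0 : ℂ) ∈ ball (0 : ℂ) 1 := mem_ball_self one_pos
  have hF : ∀ z ∈ ball (0 : ℂ) 1,
      HasDerivAt (fun z => deriv ψ z * Complex.exp (-G z)) 0 z := by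
    intro z hz
    have k1 : HasDerivAt (deriv ψ) (deriv (deriv ψ) z) z :=
      (hd1.differentiableAt (isOpen_ball.mem_nhds hz)).hasDerivAt
    have k2 : HasDerivAt (fun z => Complex.exp (-G z))
        (Complex.exp (-G z) * (-(deriv (deriv ψ) z / deriv ψ z))) z := (hG z hz).neg.cexp
    have k3 := k1.mul k2
    have hnz := hne z hz
    have e : deriv (deriv ψ) z * Complex.exp (-G z) + deriv ψ z *
        (Complex.exp (-G z) * (-(deriv (deriv ψ) z / deriv ψ z))) = 0 := by
      field_simp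
      ring
    rw [e] at k3
    exact k3
  have hconst : ∀ z ∈ ball (0 : ℂ) 1, deriv ψ z * Complex.exp (-G z) = 1 := by
    intro z hz
    have h1 : deriv ψ z * Complex.exp (-G z) = deriv ψ 0 * Complex.exp (-G 0) := by
      refine IsOpen.is_const_of_deriv_eq_zero (𝕜 := ℂ)
        (f := fun z => deriv ψ z * Complex.exp (-G z)) isOpen_ball
        (convex_ball (0 : ℂ) 1).isPreconnected ?_ ?_ hz h0
      · exact fun w hw => (hF w hw).differentiableAt.differentiableWithinAt
      · intro w hw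
        exact (hF w hw).deriv
    rw [h1, hG0, Complex.exp_neg, Complex.exp_log (hne 0 h0)]
    exact mul_inv_cancel₀ (hne 0 h0)
  obtain ⟨C, hC1, hC⟩ := distortion
  refine ⟨G, 4 * C, by linarith, fun z hz => (hG z hz).differentiableAt.differentiableWithinAt,
    ?_, ?_⟩
  · intro z hz
    have h1 := hconst z hz
    rw [Complex.exp_neg] at h1
    have h2 := Complex.exp_ne_zero (G z)
    field_simp at h1
    exact h1
  · intro ξ hξ
    have hξ1 : ‖ξ‖ < 1 := by simpa using hξ
    set r : ℝ := 1 - ‖ξ‖ with hr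
    have hr0 : 0 < r := by rw [hr]; linarith
    have hsub : ball ξ r ⊆ ball (0 : ℂ) 1 := by
      apply ball_subset_ball'
      rw [dist_zero_right, hr]; linarith
    have hdist := hC ψ ξ r hr0 (hd.mono hsub) (hi.mono hsub)
    have hcau : ‖deriv (deriv ψ) ξ‖ ≤ C * ‖deriv ψ ξ‖ / (r / 4) := by
      apply Complex.norm_deriv_le_of_forall_mem_sphere_norm_le (by positivity)
      · apply DifferentiableOn.diffContOnCl
        refine hd1.mono ?_
        refine (closure_ball_subset_closedBall).trans ?_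
        refine (closedBall_subset_ball (by linarith : r / 4 < r)).trans hsub
      · intro w hw
        rw [mem_sphere, dist_eq_norm] at hw
        exact (hdist w hw.le).1
    rw [(hG ξ hξ).deriv, norm_div]
    have hpos : 0 < ‖deriv ψ ξ‖ := norm_pos_iff.mpr (hne ξ hξ)
    rw [div_mul_eq_mul_div, div_le_iff₀ hpos]
    calc ‖deriv (deriv ψ) ξ‖ * r ≤ C * ‖deriv ψ ξ‖ / (r / 4) * r :=
          mul_le_mul_of_nonneg_right hcau hr0.le
      _ = 4 * C * ‖deriv ψ ξ‖ := by field_simp

/-- the target -/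
theorem radial {g : ℂ → ℂ} {B : ℝ} (hg : DifferentiableOn ℂ g (ball 0 1))
    (hb : ∀ ξ ∈ ball (0 : ℂ) 1, ‖deriv g ξ‖ * (1 - ‖ξ‖) ≤ B) {u : ℂ} (hu : ‖u‖ = 1) {s t : ℝ}
    (hs : 0 ≤ s) (hst : s ≤ t) (ht : t < 1) :
    ‖g (t * u) - g (s * u)‖ ≤ B * Real.log ((1 - s) / (1 - t)) := by
  have hmem : ∀ x ∈ Icc s t, (x : ℂ) * u ∈ ball (0 : ℂ) 1 := by
    intro x hx
    rw [mem_ball_zero_iff, norm_mul, hu, mul_one, Complex.norm_real, Real.norm_eq_abs,
      abs_of_nonneg (hs.trans hx.1)]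
    exact lt_of_le_of_lt hx.2 ht
  have hder : ∀ x ∈ Icc s t, HasDerivAt (fun x : ℝ => g (x * u) - g (s * u))
      (deriv g (x * u) * u) x := by
    intro x hx
    have k1 : HasDerivAt g (deriv g (x * u)) (x * u) :=
      (hg.differentiableAt (isOpen_ball.mem_nhds (hmem x hx))).hasDerivAt
    have k2 : HasDerivAt (fun x : ℝ => (x : ℂ) * u) u x := by
      have := (Complex.ofRealCLM.hasDerivAt (x := x)).mul_const u
      simpa using this
    exact (k1.comp x k2).sub_const _
  have hbd : ∀ x ∈ Icc s t, HasDerivAt (fun x : ℝ => B * (Real.log (1 - s) - Real.log (1 - x)))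
      (B / (1 - x)) x := by
    intro x hx
    have h1 : (1 - x) ≠ 0 := (by linarith [hx.2] : (0:ℝ) < 1 - x).ne'
    have k1 : HasDerivAt (fun x : ℝ => 1 - x) (-1) x := by
      simpa using (hasDerivAt_id x).const_sub 1
    have k2 := ((k1.log h1).const_sub (Real.log (1 - s))).const_mul B
    have e : B * -(-1 / (1 - x)) = B / (1 - x) := by
      field_simp
    rw [e] at k2
    exact k2
  have key := image_norm_le_of_norm_deriv_right_le_deriv_boundary'
    (f := fun x : ℝ => g (x * u) - g (s * u)) (f' := fun x : ℝ => deriv g (x * u) * u)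
    (a := s) (b := t) (B := fun x : ℝ => B * (Real.log (1 - s) - Real.log (1 - x)))
    (B' := fun x => B / (1 - x))
    (fun x hx => (hder x hx).continuousAt.continuousWithinAt)
    (fun x hx => (hder x ⟨hx.1, hx.2.le⟩).hasDerivWithinAt)
    (by simp)
    (fun x hx => (hbd x hx).continuousAt.continuousWithinAt)
    (fun x hx => (hbd x ⟨hx.1, hx.2.le⟩).hasDerivWithinAt)
    (by
      intro x hx
      have hx' : x ∈ Icc s t := ⟨hx.1, hx.2.le⟩
      have h1 : 0 < 1 - x := by linarith [hx.2]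
      have h2 := hb _ (hmem x hx')
      have h3 : ‖(x : ℂ) * u‖ = x := by
        rw [norm_mul, hu, mul_one, Complex.norm_real, Real.norm_eq_abs,
          abs_of_nonneg (hs.trans hx.1)]
      rw [h3] at h2
      rw [norm_mul, hu, mul_one, le_div_iff₀ h1]
      exact h2)
  have hfin := key ⟨hst, le_refl t⟩
  rw [Real.log_div (by linarith) (by linarith)]
  exact hfin


end Pool.Agent.Helper265.Br
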