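import Mathlib

set_option autoImplicit false
open Complex Set Filter Metric Topology MeasureTheory
open scoped ENNReal

namespace Pool.Agent.Helper265.Br

theorem clark_pt {p : ℝ} (hp : 2 ≤ p) (a b : ℂ) :
    ‖(2:ℂ)⁻¹ * (a + b)‖ ^ p + ‖(2:ℂ)⁻¹ * (a - b)‖ ^ p ≤ (‖a‖ ^ p + ‖b‖ ^ p) / 2 := by
  have hs : (1:ℝ) ≤ p / 2 := by linarith
  have key : ∀ z : ℂ, ‖z‖ ^ p = (‖z‖ ^ 2) ^ (p / 2) := by
    intro z
    rw [← Real.rpow_natCast, ← Real.rpow_mul (norm_nonneg _)]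
    congr 1; push_cast; ring
  rw [key, key, key a, key b]
  have hpar : ‖(2:ℂ)⁻¹ * (a + b)‖ ^ 2 + ‖(2:ℂ)⁻¹ * (a - b)‖ ^ 2 = (‖a‖ ^ 2 + ‖b‖ ^ 2) / 2 := by
    have := parallelogram_law_with_norm ℝ a b
    rw [norm_mul, norm_mul, mul_pow, mul_pow]
    have e : ‖(2:ℂ)⁻¹‖ = 2⁻¹ := by norm_num
    rw [e]
    nlinarith [this]
  set x := ‖(2:ℂ)⁻¹ * (a + b)‖ ^ 2
  set y := ‖(2:ℂ)⁻¹ * (a - b)‖ ^ 2
  have hx : 0 ≤ x := by positivity
  have hy : 0 ≤ y := by positivity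
  have h1 : x ^ (p / 2) + y ^ (p / 2) ≤ (x + y) ^ (p / 2) := by
    have := NNReal.add_rpow_le_rpow_add (p := p / 2) ⟨x, hx⟩ ⟨y, hy⟩ hs
    exact_mod_cast this
  have h2 : ((‖a‖ ^ 2 + ‖b‖ ^ 2) / 2) ^ (p / 2) ≤ ((‖a‖ ^ 2) ^ (p / 2) + (‖b‖ ^ 2) ^ (p / 2)) / 2 := by
    have hu : 0 ≤ ‖a‖ ^ 2 := by positivity
    have hv : 0 ≤ ‖b‖ ^ 2 := by positivity
    have := NNReal.rpow_arith_mean_le_arith_mean2_rpow (1/2) (1/2) ⟨‖a‖ ^ 2, hu⟩ ⟨‖b‖ ^ 2, hv⟩ (by
      rw [← NNReal.coe_inj]; push_cast; norm_num) hs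
    have h := (NNReal.coe_le_coe.2 this)
    push_cast at h
    have e1 : (1 / 2 * ‖a‖ ^ 2 + 1 / 2 * ‖b‖ ^ 2) = (‖a‖ ^ 2 + ‖b‖ ^ 2) / 2 := by ring
    have e2 : (1 / 2 * (‖a‖ ^ 2) ^ (p / 2) + 1 / 2 * (‖b‖ ^ 2) ^ (p / 2)) = ((‖a‖ ^ 2) ^ (p / 2) + (‖b‖ ^ 2) ^ (p / 2)) / 2 := by ring
    rw [← e1, ← e2]
    exact h
  calc _ ≤ (x + y) ^ (p / 2) := h1
    _ = ((‖a‖ ^ 2 + ‖b‖ ^ 2) / 2) ^ (p / 2) := by rw [hpar]
    _ ≤ _ := h2

theorem norm_deriv {p : ℝ} (hp : 2 ≤ p) (F Q : ℂ) (s : ℝ) :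
    HasDerivAt (fun t : ℝ => ‖F + (t : ℂ) * Q‖ ^ p)
      (p * (‖F + (s : ℂ) * Q‖ ^ (p - 2) * ((starRingEnd ℂ (F + (s : ℂ) * Q)) * Q).re)) s := by
  have key : ∀ t : ℝ, ‖F + (t : ℂ) * Q‖ ^ p = (‖F‖ ^ 2 + 2 * t * ((starRingEnd ℂ F) * Q).re + t ^ 2 * ‖Q‖ ^ 2) ^ (p / 2) := by
    intro t
    have h1 : ‖F + (t : ℂ) * Q‖ ^ 2 = ‖F‖ ^ 2 + 2 * t * ((starRingEnd ℂ F) * Q).re + t ^ 2 * ‖Q‖ ^ 2 := by
      rw [Complex.sq_norm, Complex.sq_norm, Complex.sq_norm, Complex.normSq_apply, Complex.normSq_apply, Complex.normSq_apply]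
      simp
      ring
    rw [← h1, ← Real.rpow_natCast, ← Real.rpow_mul (norm_nonneg _)]
    congr 1; push_cast; ring
  have hg : HasDerivAt (fun t : ℝ => ‖F‖ ^ 2 + 2 * t * ((starRingEnd ℂ F) * Q).re + t ^ 2 * ‖Q‖ ^ 2)
      (2 * ((starRingEnd ℂ F) * Q).re + 2 * s * ‖Q‖ ^ 2) s := by
    have h1 : HasDerivAt (fun t : ℝ => 2 * t * ((starRingEnd ℂ F) * Q).re) (2 * ((starRingEnd ℂ F) * Q).re) s := by
      have := ((hasDerivAt_id s).const_mul 2).mul_const (((starRingEnd ℂ F) * Q).re)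
      simpa using this
    have h2 : HasDerivAt (fun t : ℝ => t ^ 2 * ‖Q‖ ^ 2) (2 * s * ‖Q‖ ^ 2) s := by
      have := (hasDerivAt_pow 2 s).mul_const (‖Q‖ ^ 2)
      simpa using this
    have := (h1.const_add (‖F‖ ^ 2)).add h2
    exact this
  have h := hg.rpow_const (p := p / 2) (Or.inr (by linarith))
  have hfun : (fun t : ℝ => ‖F + (t : ℂ) * Q‖ ^ p) = fun t : ℝ => (‖F‖ ^ 2 + 2 * t * ((starRingEnd ℂ F) * Q).re + t ^ 2 * ‖Q‖ ^ 2) ^ (p / 2) := funext key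
  rw [hfun]
  refine h.congr_deriv ?_
  have h1 : ‖F + (s : ℂ) * Q‖ ^ 2 = ‖F‖ ^ 2 + 2 * s * ((starRingEnd ℂ F) * Q).re + s ^ 2 * ‖Q‖ ^ 2 := by
      rw [Complex.sq_norm, Complex.sq_norm, Complex.sq_norm, Complex.normSq_apply, Complex.normSq_apply, Complex.normSq_apply]
      simp
      ring
  rw [← h1]
  have h3 : (‖F + (s : ℂ) * Q‖ ^ 2) ^ (p / 2 - 1) = ‖F + (s : ℂ) * Q‖ ^ (p - 2) := by
    rw [← Real.rpow_natCast, ← Real.rpow_mul (norm_nonneg _)]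
    congr 1; push_cast; ring
  rw [h3]
  have h4 : ((starRingEnd ℂ (F + (s : ℂ) * Q)) * Q).re = ((starRingEnd ℂ F) * Q).re + s * ‖Q‖ ^ 2 := by
    rw [Complex.sq_norm, Complex.normSq_apply]
    simp
    ring
  rw [h4]
  ring

theorem deriv_bound {p : ℝ} (hp : 2 ≤ p) (F Q : ℂ) (s : ℝ) (hs : |s| ≤ 1) :
    ‖p * (‖F + (s : ℂ) * Q‖ ^ (p - 2) * ((starRingEnd ℂ (F + (s : ℂ) * Q)) * Q).re)‖ ≤ p * (‖F‖ + ‖Q‖) ^ p := by
  have hp0 : 0 ≤ p := by linarith
  set w := F + (s : ℂ) * Q with hw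
  have hwn : ‖w‖ ≤ ‖F‖ + ‖Q‖ := by
    refine (norm_add_le _ _).trans ?_
    rw [norm_mul, Complex.norm_real, Real.norm_eq_abs]
    have := mul_le_mul_of_nonneg_right hs (norm_nonneg Q)
    linarith
  have hA : 0 ≤ ‖F‖ + ‖Q‖ := by positivity
  rw [norm_mul, norm_mul, Real.norm_eq_abs, abs_of_nonneg hp0]
  refine mul_le_mul_of_nonneg_left ?_ hp0
  have h1 : ‖(‖w‖ ^ (p - 2) : ℝ)‖ ≤ (‖F‖ + ‖Q‖) ^ (p - 2) := by
    rw [Real.norm_eq_abs, abs_of_nonneg (by positivity)]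
    exact Real.rpow_le_rpow (norm_nonneg _) hwn (by linarith)
  have h2 : ‖(((starRingEnd ℂ w) * Q).re : ℝ)‖ ≤ (‖F‖ + ‖Q‖) ^ (2:ℝ) := by
    rw [Real.norm_eq_abs]
    refine (Complex.abs_re_le_norm _).trans ?_
    rw [norm_mul, Complex.norm_conj, Real.rpow_two, pow_two]
    exact mul_le_mul hwn (by linarith [norm_nonneg F]) (norm_nonneg _) hA
  calc _ ≤ (‖F‖ + ‖Q‖) ^ (p - 2) * (‖F‖ + ‖Q‖) ^ (2:ℝ) := mul_le_mul h1 h2 (norm_nonneg _) (by positivity)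
    _ ≤ (‖F‖ + ‖Q‖) ^ p := by
      rcases hA.eq_or_lt with h0 | h0
      · rw [← h0]
        rw [Real.zero_rpow (by norm_num : (2:ℝ) ≠ 0), mul_zero]
        positivity
      · rw [← Real.rpow_add h0]
        apply le_of_eq; congr 1; ring

section main

variable {μ : Measure ℂ} {p : ℝ}

theorem norm_rpow_toLp (hp : 2 ≤ p) {g : ℂ → ℂ} (hg : MemLp g (ENNReal.ofReal p) μ)
    [Fact (1 ≤ ENNReal.ofReal p)] :
    ‖hg.toLp g‖ ^ p = ∫ z, ‖g z‖ ^ p ∂μ := by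
  have hp0 : 0 < p := by linarith
  have h0 : ENNReal.ofReal p ≠ 0 := by simpa using hp0
  rw [Lp.norm_toLp, hg.eLpNorm_eq_integral_rpow_norm h0 ENNReal.ofReal_ne_top, ENNReal.toReal_ofReal hp0.le]
  have hI : 0 ≤ ∫ z, ‖g z‖ ^ p ∂μ := integral_nonneg fun z => by positivity
  rw [ENNReal.toReal_ofReal (by positivity), ← Real.rpow_mul hI, inv_mul_cancel₀ hp0.ne', Real.rpow_one]

theorem norm_rpow_Lp (hp : 2 ≤ p) [Fact (1 ≤ ENNReal.ofReal p)] (g : Lp ℂ (ENNReal.ofReal p) μ) :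
    ‖g‖ ^ p = ∫ z, ‖g z‖ ^ p ∂μ := by
  rw [← norm_rpow_toLp hp (Lp.memLp g), Lp.toLp_coeFn]

theorem integrable_rpow (hp : 2 ≤ p) {g : ℂ → ℂ} (hg : MemLp g (ENNReal.ofReal p) μ) :
    Integrable (fun z => ‖g z‖ ^ p) μ := by
  have hp0 : 0 < p := by linarith
  have h := hg.integrable_norm_rpow (by simpa using hp0) ENNReal.ofReal_ne_top
  rwa [ENNReal.toReal_ofReal hp0.le] at h

theorem clark_Lp (hp : 2 ≤ p) [Fact (1 ≤ ENNReal.ofReal p)] (g h : Lp ℂ (ENNReal.ofReal p) μ) :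
    ‖(2:ℂ)⁻¹ • (g + h)‖ ^ p + ‖(2:ℂ)⁻¹ • (g - h)‖ ^ p ≤ (‖g‖ ^ p + ‖h‖ ^ p) / 2 := by
  rw [norm_rpow_Lp hp, norm_rpow_Lp hp, norm_rpow_Lp hp g, norm_rpow_Lp hp h,
    ← integral_add (integrable_rpow hp (Lp.memLp _)) (integrable_rpow hp (Lp.memLp _)),
    ← integral_add (integrable_rpow hp (Lp.memLp _)) (integrable_rpow hp (Lp.memLp _)), ← integral_div]
  apply integral_mono_ae
  · exact (integrable_rpow hp (Lp.memLp _)).add (integrable_rpow hp (Lp.memLp _))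
  · exact ((integrable_rpow hp (Lp.memLp _)).add (integrable_rpow hp (Lp.memLp _))).div_const 2
  · filter_upwards [Lp.coeFn_smul (2:ℂ)⁻¹ (g + h), Lp.coeFn_smul (2:ℂ)⁻¹ (g - h), Lp.coeFn_add g h, Lp.coeFn_sub g h]
      with z h1 h2 h3 h4
    simp only [h1, h2, Pi.smul_apply, smul_eq_mul, h3, h4, Pi.add_apply, Pi.sub_apply]
    exact clark_pt hp (g z) (h z)

/-- the conjugate function -/
noncomputable def kk (p : ℝ) (F : ℂ → ℂ) (z : ℂ) : ℂ := ((‖F z‖ ^ (p - 2) : ℝ) : ℂ) * starRingEnd ℂ (F z)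

theorem kk_integrable (hp : 2 ≤ p) [Fact (1 ≤ ENNReal.ofReal p)] {F G : ℂ → ℂ} (hF : MemLp F (ENNReal.ofReal p) μ)
    (hG : MemLp G (ENNReal.ofReal p) μ) : Integrable (fun z => kk p F z * G z) μ := by
  have hb : Integrable (fun z => (‖F z‖ + ‖G z‖) ^ p) μ := by
    have h1 : MemLp (fun z => ‖F z‖ + ‖G z‖) (ENNReal.ofReal p) μ := hF.norm.add hG.norm
    have hp0 : 0 < p := by linarith
    have h := h1.integrable_norm_rpow (by simpa using hp0) ENNReal.ofReal_ne_top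
    rw [ENNReal.toReal_ofReal hp0.le] at h
    refine h.congr (Filter.Eventually.of_forall fun z => ?_)
    simp only [Real.norm_eq_abs]
    rw [abs_of_nonneg (by positivity)]
  refine hb.mono' ?_ (Filter.Eventually.of_forall fun z => ?_)
  · unfold kk
    have hFm := hF.aestronglyMeasurable
    have h1 : AEMeasurable (fun z => ‖F z‖ ^ (p - 2)) μ := (hFm.norm.aemeasurable.pow_const _)
    have h2 : AEMeasurable (fun z => ((‖F z‖ ^ (p - 2) : ℝ) : ℂ)) μ := Complex.measurable_ofReal.comp_aemeasurable h1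
    have h3 : AEMeasurable (fun z => starRingEnd ℂ (F z)) μ :=
      Complex.continuous_conj.measurable.comp_aemeasurable hFm.aemeasurable
    exact ((h2.mul h3).mul hG.aestronglyMeasurable.aemeasurable).aestronglyMeasurable
  · have hA : 0 ≤ ‖F z‖ + ‖G z‖ := by positivity
    unfold kk
    rw [norm_mul, norm_mul, Complex.norm_real, Complex.norm_conj, Real.norm_eq_abs, abs_of_nonneg (by positivity)]
    calc ‖F z‖ ^ (p - 2) * ‖F z‖ * ‖G z‖ ≤ (‖F z‖ + ‖G z‖) ^ (p - 2) * (‖F z‖ + ‖G z‖) * (‖F z‖ + ‖G z‖) := by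
          have h1 : ‖F z‖ ^ (p - 2) ≤ (‖F z‖ + ‖G z‖) ^ (p - 2) :=
            Real.rpow_le_rpow (norm_nonneg _) (by linarith [norm_nonneg (G z)]) (by linarith)
          gcongr
          · linarith [norm_nonneg (G z)]
          · linarith [norm_nonneg (F z)]
      _ = (‖F z‖ + ‖G z‖) ^ p := by
        rcases hA.eq_or_lt with h0 | h0
        · rw [← h0, mul_zero]
          rw [Real.zero_rpow (by linarith : p ≠ 0)]
        · rw [mul_assoc, ← pow_two, ← Real.rpow_natCast, ← Real.rpow_add h0]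
          congr 1; push_cast; ring

theorem orth_re (hp : 2 ≤ p) [Fact (1 ≤ ENNReal.ofReal p)] (F G : Lp ℂ (ENNReal.ofReal p) μ)
    (h : ∀ c : ℂ, ‖F‖ ≤ ‖F + c • G‖) : (∫ z, kk p F z * G z ∂μ).re = 0 := by
  have hp0 : 0 < p := by linarith
  have hFm := Lp.memLp F
  have hGm := Lp.memLp G
  have hphi : ∀ t : ℝ, ∫ z, ‖F z + (t : ℂ) * G z‖ ^ p ∂μ = ‖F + (t : ℂ) • G‖ ^ p := by
    intro t
    rw [norm_rpow_Lp hp]
    apply integral_congr_ae
    filter_upwards [Lp.coeFn_add F ((t:ℂ) • G), Lp.coeFn_smul (t:ℂ) G] with z h1 h2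
    rw [h1, Pi.add_apply, h2, Pi.smul_apply, smul_eq_mul]
  have hb : Integrable (fun z => p * (‖F z‖ + ‖G z‖) ^ p) μ := by
    have h1 : MemLp (fun z => ‖F z‖ + ‖G z‖) (ENNReal.ofReal p) μ := hFm.norm.add hGm.norm
    have h := h1.integrable_norm_rpow (by simpa using hp0) ENNReal.ofReal_ne_top
    rw [ENNReal.toReal_ofReal hp0.le] at h
    refine (h.congr (Filter.Eventually.of_forall fun z => ?_)).const_mul p
    simp only [Real.norm_eq_abs]
    rw [abs_of_nonneg (by positivity)]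
  have hmeas : ∀ t : ℝ, AEStronglyMeasurable (fun z => ‖F z + (t : ℂ) * G z‖ ^ p) μ := by
    intro t
    have h1 : AEMeasurable (fun z => F z + (t:ℂ) * G z) μ :=
      hFm.aestronglyMeasurable.aemeasurable.add (hGm.aestronglyMeasurable.aemeasurable.const_mul _)
    exact (h1.norm.pow_const _).aestronglyMeasurable
  have hder := hasDerivAt_integral_of_dominated_loc_of_deriv_le (μ := μ) (𝕜 := ℝ) (E := ℝ)
    (F := fun t z => ‖F z + (t : ℂ) * G z‖ ^ p) (x₀ := (0:ℝ)) (s := Metric.ball 0 1)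
    (F' := fun t z => p * (‖F z + (t : ℂ) * G z‖ ^ (p - 2) * ((starRingEnd ℂ (F z + (t : ℂ) * G z)) * G z).re))
    (bound := fun z => p * (‖F z‖ + ‖G z‖) ^ p) (Metric.ball_mem_nhds _ one_pos)
    (Filter.Eventually.of_forall hmeas) ?_ ?_ ?_ hb ?_
  · obtain ⟨hint, hd⟩ := hder
    have hmin : IsLocalMin (fun t : ℝ => ∫ z, ‖F z + (t : ℂ) * G z‖ ^ p ∂μ) 0 := by
      apply Filter.Eventually.of_forall
      intro t
      simp only [hphi]
      have h0 : F + ((0:ℝ):ℂ) • G = F := by simp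
      rw [h0]
      exact Real.rpow_le_rpow (norm_nonneg _) (h _) hp0.le
    have hz := hmin.hasDerivAt_eq_zero hd
    have e : ∀ z, p * (‖F z + ((0:ℝ) : ℂ) * G z‖ ^ (p - 2) * ((starRingEnd ℂ (F z + ((0:ℝ) : ℂ) * G z)) * G z).re) =
        p * (kk p F z * G z).re := by
      intro z
      unfold kk
      simp only [Complex.ofReal_zero, zero_mul, add_zero]
      rw [mul_assoc ((‖F z‖ ^ (p - 2) : ℝ) : ℂ), Complex.re_ofReal_mul]
    simp only [e] at hz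
    rw [integral_const_mul] at hz
    have h2 := (mul_eq_zero.1 hz).resolve_left hp0.ne'
    rw [← h2]
    exact (integral_re (kk_integrable hp hFm hGm)).symm
  · simpa using integrable_rpow hp hFm
  · have h1 := (Complex.measurable_re.comp_aemeasurable (kk_integrable hp hFm hGm).aestronglyMeasurable.aemeasurable)
    refine (AEMeasurable.congr (h1.const_mul p) (Filter.Eventually.of_forall fun z => ?_)).aestronglyMeasurable
    unfold kk
    simp only [Function.comp, Complex.ofReal_zero, zero_mul, add_zero]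
    rw [mul_assoc ((‖F z‖ ^ (p - 2) : ℝ) : ℂ), Complex.re_ofReal_mul]
  · refine Filter.Eventually.of_forall fun z t ht => ?_
    apply deriv_bound hp
    have := Metric.mem_ball.1 ht
    rw [dist_zero_right, Real.norm_eq_abs] at this
    exact this.le
  · exact Filter.Eventually.of_forall fun z t _ => norm_deriv hp (F z) (G z) t

theorem orth (hp : 2 ≤ p) [Fact (1 ≤ ENNReal.ofReal p)] (F G : Lp ℂ (ENNReal.ofReal p) μ)
    (h : ∀ c : ℂ, ‖F‖ ≤ ‖F + c • G‖) : ∫ z, kk p F z * G z ∂μ = 0 := by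
  apply Complex.ext
  · simpa using orth_re hp F G h
  · have h1 := orth_re hp F (Complex.I • G) (fun c => by
      have := h (c * Complex.I)
      rwa [mul_smul] at this)
    have h2 : ∫ z, kk p F z * (Complex.I • G : Lp ℂ (ENNReal.ofReal p) μ) z ∂μ = Complex.I * ∫ z, kk p F z * G z ∂μ := by
      rw [← integral_const_mul]
      apply integral_congr_ae
      filter_upwards [Lp.coeFn_smul Complex.I G] with z hz
      rw [hz, Pi.smul_apply, smul_eq_mul]; ring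
    rw [h2] at h1
    simpa using h1

end main

theorem annih {μ : Measure ℂ} [IsFiniteMeasure μ] {p : ℝ} (hp : 2 ≤ p) {f : ℂ → ℂ}
    (hf : MemLp f (ENNReal.ofReal p) μ)
    (hP : ∀ P : Polynomial ℂ, MemLp (fun z => P.eval z) (ENNReal.ofReal p) μ)
    {δ : ℝ≥0∞} (hδ : δ ≠ 0)
    (hdist : ∀ P : Polynomial ℂ, δ ≤ ∫⁻ z, ‖f z - P.eval z‖ₑ ^ p ∂μ) :
    ∃ k : ℂ → ℂ, Measurable k ∧ (∫⁻ z, ‖k z‖ₑ ^ (p / (p - 1)) ∂μ ≠ ∞) ∧
      (∀ P : Polynomial ℂ, ∫ z, k z * P.eval z ∂μ = 0) ∧ ∫ z, k z * f z ∂μ ≠ 0 := by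
  have hp0 : 0 < p := by linarith
  have : Fact (1 ≤ ENNReal.ofReal p) := ⟨by
    rw [← ENNReal.ofReal_one]; exact ENNReal.ofReal_le_ofReal (by linarith)⟩
  set E := Lp ℂ (ENNReal.ofReal p) μ with hE
  set f0 : E := hf.toLp f with hf0
  set pol : Polynomial ℂ → E := fun P => (hP P).toLp _ with hpol
  have hadd : ∀ P Q, pol (P + Q) = pol P + pol Q := by
    intro P Q
    simp only [hpol]
    rw [← MemLp.toLp_add]
    congr 1
    funext z; simp
  have hsmul : ∀ (c : ℂ) P, pol (Polynomial.C c * P) = c • pol P := by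
    intro c P
    simp only [hpol]
    rw [← MemLp.toLp_const_smul]
    congr 1
    funext z; simp
  set u : Polynomial ℂ → E := fun P => f0 - pol P with hu
  have hune : ∀ P, ‖u P‖ ^ p = ∫ z, ‖f z - P.eval z‖ ^ p ∂μ := by
    intro P
    simp only [hu, hf0, hpol]
    rw [← MemLp.toLp_sub, norm_rpow_toLp hp]
    rfl
  have hδtop : δ ≠ ∞ := by
    intro h
    have h1 := hdist 0
    rw [h, top_le_iff] at h1
    have h2 : ∫⁻ z, ‖f z - (0 : Polynomial ℂ).eval z‖ₑ ^ p ∂μ < ∞ := by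
      have h3 := lintegral_rpow_enorm_lt_top_of_eLpNorm_lt_top (by simpa using hp0) ENNReal.ofReal_ne_top (hf.sub (hP 0)).2
      rw [ENNReal.toReal_ofReal hp0.le] at h3
      exact h3
    exact h2.ne h1
  have hδ0 : 0 < δ.toReal := ENNReal.toReal_pos hδ hδtop
  have hlow : ∀ P, δ.toReal ≤ ‖u P‖ ^ p := by
    intro P
    rw [hune]
    have h1 := hdist P
    have h2 : ∫⁻ z, ‖f z - P.eval z‖ₑ ^ p ∂μ = ENNReal.ofReal (∫ z, ‖f z - P.eval z‖ ^ p ∂μ) := by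
      have hI : Integrable (fun z => ‖f z - P.eval z‖ ^ p) μ := integrable_rpow hp (hf.sub (hP P))
      rw [ofReal_integral_eq_lintegral_ofReal hI
        (Filter.Eventually.of_forall fun z => by positivity)]
      apply lintegral_congr
      intro z
      rw [← ENNReal.ofReal_rpow_of_nonneg (norm_nonneg _) hp0.le, ofReal_norm]
    rw [h2] at h1
    have h3 := ENNReal.toReal_mono ENNReal.ofReal_ne_top h1
    rwa [ENNReal.toReal_ofReal (integral_nonneg fun z => by positivity)] at h3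
  set d : ℝ := ⨅ P, ‖u P‖ ^ p with hd
  have hbdd : BddBelow (Set.range fun P => ‖u P‖ ^ p) := ⟨0, by rintro _ ⟨P, rfl⟩; positivity⟩
  have hdle : ∀ P, d ≤ ‖u P‖ ^ p := fun P => ciInf_le hbdd P
  have hdpos : 0 < d := lt_of_lt_of_le hδ0 (le_ciInf hlow)
  have hex : ∀ n : ℕ, ∃ P, ‖u P‖ ^ p < d + 1 / ((n:ℝ) + 1) := fun n =>
    exists_lt_of_ciInf_lt (lt_add_of_pos_right _ (by positivity))
  choose Ps hPs using hex
  have hmid : ∀ P Q, (2:ℂ)⁻¹ • (u P + u Q) = u (Polynomial.C (2:ℂ)⁻¹ * (P + Q)) := by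
    intro P Q
    simp only [hu]
    rw [hsmul, hadd]
    have : f0 = (2:ℂ)⁻¹ • (f0 + f0) := by
      rw [← two_smul ℂ f0, smul_smul]; norm_num
    nth_rewrite 3 [this]
    rw [← smul_sub]
    congr 1; abel
  have hclose : ∀ n m : ℕ, (2⁻¹ : ℝ) ^ p * ‖u (Ps n) - u (Ps m)‖ ^ p ≤ (1 / ((n:ℝ) + 1) + 1 / ((m:ℝ) + 1)) / 2 := by
    intro n m
    have h1 := clark_Lp hp (u (Ps n)) (u (Ps m))
    rw [hmid] at h1
    have h2 := hdle (Polynomial.C (2:ℂ)⁻¹ * (Ps n + Ps m))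
    have h3 : ‖(2:ℂ)⁻¹ • (u (Ps n) - u (Ps m))‖ ^ p = (2⁻¹ : ℝ) ^ p * ‖u (Ps n) - u (Ps m)‖ ^ p := by
      rw [norm_smul, Real.mul_rpow (norm_nonneg _) (norm_nonneg _)]
      norm_num
    rw [h3] at h1
    have h4 := hPs n
    have h5 := hPs m
    linarith
  have hcau : CauchySeq (fun n => u (Ps n)) := by
    rw [Metric.cauchySeq_iff']
    intro ε hε
    have hc : 0 < (2⁻¹ : ℝ) ^ p * ε ^ p := by positivity
    obtain ⟨N, hN⟩ := exists_nat_gt (1 / ((2⁻¹ : ℝ) ^ p * ε ^ p))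
    refine ⟨N, fun n hn => ?_⟩
    rw [dist_eq_norm]
    have h1 := hclose n N
    have hNn : (N:ℝ) ≤ n := by exact_mod_cast hn
    have hNpos : (0:ℝ) < N + 1 := by positivity
    have h2 : 1 / ((n:ℝ) + 1) ≤ 1 / ((N:ℝ) + 1) := one_div_le_one_div_of_le hNpos (by linarith)
    have h3 : 1 / ((N:ℝ) + 1) < (2⁻¹ : ℝ) ^ p * ε ^ p := by
      rw [div_lt_iff₀ hNpos]
      rw [div_lt_iff₀ hc] at hN
      nlinarith
    have h4 : (2⁻¹ : ℝ) ^ p * ‖u (Ps n) - u (Ps N)‖ ^ p < (2⁻¹ : ℝ) ^ p * ε ^ p := by linarith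
    have h5 : ‖u (Ps n) - u (Ps N)‖ ^ p < ε ^ p := lt_of_mul_lt_mul_left h4 (by positivity)
    exact (Real.rpow_lt_rpow_iff (norm_nonneg _) hε.le hp0).1 h5
  obtain ⟨F, hF⟩ := cauchySeq_tendsto_of_complete hcau
  have hcont : ∀ G : E, ∀ v : ℕ → E, Tendsto v atTop (𝓝 G) → Tendsto (fun n => ‖v n‖ ^ p) atTop (𝓝 (‖G‖ ^ p)) :=
    fun G v hv => (hv.norm).rpow_const (Or.inr hp0.le)
  have hFd : ‖F‖ ^ p = d := by
    have h1 := hcont F _ hF
    have h2 : Tendsto (fun n => ‖u (Ps n)‖ ^ p) atTop (𝓝 d) := by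
      have h3 : Tendsto (fun n : ℕ => d + 1 / ((n:ℝ) + 1)) atTop (𝓝 d) := by
        simpa using (tendsto_const_nhds (x := d)).add (tendsto_one_div_add_atTop_nhds_zero_nat (𝕜 := ℝ))
      exact tendsto_of_tendsto_of_tendsto_of_le_of_le tendsto_const_nhds h3 (fun n => hdle _) (fun n => (hPs n).le)
    exact tendsto_nhds_unique h1 h2
  have hle_of : ∀ G : E, d ≤ ‖G‖ ^ p → ‖F‖ ≤ ‖G‖ := by
    intro G h
    rw [← hFd] at h
    exact (Real.rpow_le_rpow_iff (norm_nonneg _) (norm_nonneg _) hp0).1 h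
  have h1 : ∀ Q : Polynomial ℂ, ∫ z, kk p F z * pol Q z ∂μ = 0 := by
    intro Q
    apply orth hp F (pol Q)
    intro c
    apply hle_of
    have ht : Tendsto (fun n => u (Ps n) + c • pol Q) atTop (𝓝 (F + c • pol Q)) := hF.add tendsto_const_nhds
    refine ge_of_tendsto' (hcont _ _ ht) (fun n => ?_)
    have : u (Ps n) + c • pol Q = u (Ps n + Polynomial.C (-c) * Q) := by
      simp only [hu]; rw [hadd, hsmul, neg_smul]; abel
    rw [this]; exact hdle _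
  have h2 : ∫ z, kk p F z * (f0 - F : E) z ∂μ = 0 := by
    apply orth hp F (f0 - F)
    intro c
    apply hle_of
    have ht : Tendsto (fun n => u (Ps n) + c • (f0 - u (Ps n))) atTop (𝓝 (F + c • (f0 - F))) :=
      hF.add ((tendsto_const_nhds.sub hF).const_smul c)
    refine ge_of_tendsto' (hcont _ _ ht) (fun n => ?_)
    have : u (Ps n) + c • (f0 - u (Ps n)) = u (Polynomial.C (1 - c) * Ps n) := by
      simp only [hu]; rw [hsmul, sub_sub_cancel, sub_smul, one_smul]; abel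
    rw [this]; exact hdle _
  have hFm := Lp.memLp F
  refine ⟨kk p F, ?_, ?_, ?_, ?_⟩
  · unfold kk
    have hm : Measurable F := (Lp.stronglyMeasurable F).measurable
    exact (Complex.measurable_ofReal.comp (hm.norm.pow_const _)).mul (Complex.continuous_conj.measurable.comp hm)
  · have h3 := lintegral_rpow_enorm_lt_top_of_eLpNorm_lt_top (by simpa using hp0) ENNReal.ofReal_ne_top hFm.2
    rw [ENNReal.toReal_ofReal hp0.le] at h3
    refine ne_of_lt (lt_of_le_of_lt (le_of_eq ?_) h3)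
    apply lintegral_congr
    intro z
    have hq : 0 ≤ p / (p - 1) := by apply div_nonneg hp0.le; linarith
    rw [← ofReal_norm, ← ofReal_norm, ENNReal.ofReal_rpow_of_nonneg (norm_nonneg _) hq,
      ENNReal.ofReal_rpow_of_nonneg (norm_nonneg _) hp0.le]
    congr 1
    unfold kk
    rw [norm_mul, Complex.norm_real, Complex.norm_conj, Real.norm_eq_abs, abs_of_nonneg (by positivity)]
    rcases (norm_nonneg (F z)).eq_or_lt with h0 | h0
    · rw [← h0, mul_zero, Real.zero_rpow hp0.ne', Real.zero_rpow]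
      exact (div_pos hp0 (by linarith)).ne'
    · have e : ‖F z‖ ^ (p - 2) * ‖F z‖ = ‖F z‖ ^ (p - 1) := by
        nth_rewrite 2 [← Real.rpow_one ‖F z‖]
        rw [← Real.rpow_add h0]; congr 1; ring
      rw [e, ← Real.rpow_mul h0.le]
      congr 1
      have : p - 1 ≠ 0 := by linarith
      field_simp
  · intro P
    rw [← h1 P]
    apply integral_congr_ae
    filter_upwards [(hP P).coeFn_toLp] with z hz
    simp only [hpol]
    rw [hz]
  · have h3 : ∫ z, kk p F z * f z ∂μ = ∫ z, kk p F z * F z ∂μ := by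
      have h4 : ∫ z, kk p F z * (f0 - F : E) z ∂μ = ∫ z, (kk p F z * f z - kk p F z * F z) ∂μ := by
        apply integral_congr_ae
        filter_upwards [Lp.coeFn_sub f0 F, hf.coeFn_toLp] with z h5 h6
        rw [h5, Pi.sub_apply, hf0, h6]; ring
      rw [h4, integral_sub (kk_integrable hp hFm hf) (kk_integrable hp hFm hFm), sub_eq_zero] at h2
      exact h2
    have h5 : ∫ z, kk p F z * F z ∂μ = ((‖F‖ ^ p : ℝ) : ℂ) := by
      rw [norm_rpow_Lp hp, ← integral_complex_ofReal]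
      apply integral_congr_ae
      refine Filter.Eventually.of_forall fun z => ?_
      unfold kk
      simp only
      rw [mul_assoc, mul_comm (starRingEnd ℂ (F z)), Complex.mul_conj, Complex.normSq_eq_norm_sq, ← Complex.ofReal_mul]
      congr 1
      rcases (norm_nonneg (F z)).eq_or_lt with h0 | h0
      · rw [← h0, Real.zero_rpow hp0.ne']; simp
      · rw [← Real.rpow_natCast, ← Real.rpow_add h0]; congr 1; push_cast; ring
    rw [h3, h5, hFd]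
    exact_mod_cast hdpos.ne'


end Pool.Agent.Helper265.Br
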