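import Mathlib

set_option autoImplicit false
open Complex Set Filter Metric Topology MeasureTheory
open scoped ENNReal

namespace Pool.Agent.Helper265.Br

theorem scales {W : ℝ → ℝ} (hWpos : ∀ t ∈ Ioc (0 : ℝ) 1, 0 < W t) (hWm : MonotoneOn W (Ioc 0 1))
    (hW0 : Tendsto W (𝓝[>] 0) (𝓝 0))
    (hdiv : ∃ a ∈ Ioc (0 : ℝ) 1, W a < 1 ∧
      ∫⁻ t in Ioo 0 a, ENNReal.ofReal (Real.log (Real.log (1 / W t))) = ∞)
    {Λ c2 H0 t0 : ℝ} (hΛ : 1 < Λ) (hc2 : 0 < c2) (hH0 : 0 < H0) (ht0 : 0 < t0) :
    ∃ τ H : ℕ → ℝ, (∀ n, 0 < τ n) ∧ (∀ n, τ n < t0) ∧ (∀ n, τ n ≤ 1) ∧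
      (∀ n, τ (n + 1) = τ n ∨ τ (n + 1) ≤ τ n / 2) ∧ (∀ n, H0 ≤ H n) ∧
      (∀ n, Λ * H n ≤ H (n + 1)) ∧ (∀ n, W (τ n) ≤ Real.exp (-(H n))) ∧
      (∀ n, Real.exp (-(c2 * H n)) ≤ τ n) ∧ Tendsto τ atTop (𝓝 0) ∧ ¬ Summable τ := by
  classical
  obtain ⟨a, ha, hWa, hinf⟩ := hdiv
  -- dyadic points
  set p : ℕ → ℝ := fun i => (1 / 2 : ℝ) ^ (i + 1) with hp
  have hp_pos : ∀ i, 0 < p i := fun i => by positivity
  have hp_le1 : ∀ i, p i ≤ 1 := fun i => pow_le_one₀ (by norm_num) (by norm_num)
  have hp_mem : ∀ i, p i ∈ Ioc (0 : ℝ) 1 := fun i => ⟨hp_pos i, hp_le1 i⟩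
  have hp_anti : Antitone p := by
    intro i j hij
    exact pow_le_pow_of_le_one (by norm_num) (by norm_num) (by omega)
  have hp_tend : Tendsto p atTop (𝓝 0) :=
    (tendsto_pow_atTop_nhds_zero_of_lt_one (by norm_num) (by norm_num)).comp (tendsto_add_atTop_nat 1)
  -- heights
  set h : ℕ → ℝ := fun m => H0 * Λ ^ m with hh
  have hh_pos : ∀ m, 0 < h m := fun m => by positivity
  have hh_mono : Monotone h := by
    intro m n hmn
    exact mul_le_mul_of_nonneg_left (pow_le_pow_right₀ hΛ.le hmn) hH0.le
  have hh_tend : Tendsto h atTop atTop := by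
    exact (tendsto_pow_atTop_atTop_of_one_lt hΛ).const_mul_atTop hH0
  have hexp_tend : Tendsto (fun m => Real.exp (-(h m))) atTop (𝓝 0) :=
    Real.tendsto_exp_neg_atTop_nhds_zero.comp hh_tend
  -- existence of i
  have hex : ∀ m, ∃ i, W (p i) ≤ Real.exp (-(h m)) := by
    intro m
    have h1 : Tendsto (fun i => W (p i)) atTop (𝓝 0) := by
      refine hW0.comp ?_
      rw [tendsto_nhdsWithin_iff]
      exact ⟨hp_tend, Eventually.of_forall fun i => hp_pos i⟩
    exact ((h1.eventually (gt_mem_nhds (Real.exp_pos (-(h m))))).exists).imp fun i hi => le_of_lt hi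
  set I : ℕ → ℕ := fun m => Nat.find (hex m) with hI
  have hI_spec : ∀ m, W (p (I m)) ≤ Real.exp (-(h m)) := fun m => Nat.find_spec (hex m)
  have hI_min : ∀ m i, W (p i) ≤ Real.exp (-(h m)) → I m ≤ i := fun m i hi => Nat.find_min' (hex m) hi
  have hI_mono : Monotone I := by
    intro m n hmn
    apply hI_min
    exact (hI_spec n).trans (Real.exp_le_exp.2 (neg_le_neg (hh_mono hmn)))
  have hI_tend : Tendsto I atTop atTop := by
    rw [Filter.tendsto_atTop]
    intro j
    have h1 : ∀ᶠ m in atTop, Real.exp (-(h m)) < W (p j) :=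
      hexp_tend.eventually (gt_mem_nhds (hWpos _ (hp_mem j)))
    filter_upwards [h1] with m hm
    by_contra hlt
    push Not at hlt
    have h2 : W (p j) ≤ W (p (I m)) := hWm (hp_mem _) (hp_mem _) (hp_anti hlt.le)
    linarith [hI_spec m]
  set T : ℕ → ℝ := fun m => p (I m) with hT
  have hT_tend : Tendsto T atTop (𝓝 0) := hp_tend.comp hI_tend
  -- the sum diverges
  have hsum : ∑' m, ENNReal.ofReal (T m) = ∞ := by
    by_contra hne
    set c : ℕ → ℝ≥0∞ := fun i => ENNReal.ofReal (p i) *
      (ENNReal.ofReal |Real.log H0| + ENNReal.ofReal (Real.log Λ) *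
        ∑' m, (if W (p i) ≤ Real.exp (-(h m)) then (1 : ℝ≥0∞) else 0)) with hc
    have hcover : Ioo 0 a ⊆ ⋃ i, (Ioc (p i) (2 * p i) ∩ Ioo 0 a) := by
      intro t ht
      -- least i with p i < t
      have hex2 : ∃ i, p i < t := (hp_tend.eventually (gt_mem_nhds ht.1)).exists
      refine mem_iUnion.2 ⟨Nat.find hex2, ⟨Nat.find_spec hex2, ?_⟩, ht⟩
      rcases Nat.eq_zero_or_pos (Nat.find hex2) with h0 | h0
      · rw [h0]
        simp only [hp]
        norm_num
        exact (ht.2.le.trans ha.2)
      · obtain ⟨k, hk⟩ := Nat.exists_eq_succ_of_ne_zero h0.ne'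
        have := Nat.find_min hex2 (m := k) (by omega)
        push Not at this
        rw [hk]
        have e : 2 * p (k + 1) = p k := by simp only [hp]; ring
        rw [Nat.succ_eq_add_one, e]
        exact this
    have hle : ∫⁻ t in Ioo 0 a, ENNReal.ofReal (Real.log (Real.log (1 / W t))) ≤ ∑' i, c i := by
      refine (lintegral_mono_set hcover).trans ?_
      refine (lintegral_iUnion_le _ _).trans ?_
      refine ENNReal.tsum_le_tsum fun i => ?_
      set K : ℝ≥0∞ := (ENNReal.ofReal |Real.log H0| + ENNReal.ofReal (Real.log Λ) *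
        ∑' m, (if W (p i) ≤ Real.exp (-(h m)) then (1 : ℝ≥0∞) else 0)) with hK
      have hbound : ∀ t ∈ Ioc (p i) (2 * p i) ∩ Ioo 0 a,
          ENNReal.ofReal (Real.log (Real.log (1 / W t))) ≤ K := by
        rintro t ⟨⟨ht1, ht2⟩, ht3, ht4⟩
        have htm : t ∈ Ioc (0 : ℝ) 1 := ⟨ht3, ht4.le.trans ha.2⟩
        have hW1 : W (p i) ≤ W t := hWm (hp_mem i) htm ht1.le
        have hW2 : W t ≤ W a := hWm htm ha ht4.le
        have hWt : 0 < W t := hWpos t htm
        have hWp : 0 < W (p i) := hWpos _ (hp_mem i)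
        have hL : 0 < Real.log (1 / W t) := by
          apply Real.log_pos
          rw [lt_div_iff₀ hWt]; linarith
        have hL2 : Real.log (1 / W t) ≤ Real.log (1 / W (p i)) := by
          apply Real.log_le_log (by positivity)
          exact one_div_le_one_div_of_le hWp hW1
        have hexN : ∃ N, Real.log (1 / W (p i)) < h N :=
          (hh_tend.eventually (eventually_gt_atTop _)).exists
        set N := Nat.find hexN with hN
        have hN1 : Real.log (1 / W (p i)) < h N := Nat.find_spec hexN
        have hN2 : ∀ m < N, W (p i) ≤ Real.exp (-(h m)) := by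
          intro m hm
          have := Nat.find_min hexN hm
          push Not at this
          rw [Real.log_div one_ne_zero hWp.ne', Real.log_one, zero_sub] at this
          rw [← Real.log_le_iff_le_exp hWp]
          linarith
        have hN3 : (N : ℝ≥0∞) ≤ ∑' m, (if W (p i) ≤ Real.exp (-(h m)) then (1 : ℝ≥0∞) else 0) := by
          calc (N : ℝ≥0∞) = ∑ m ∈ Finset.range N, (1 : ℝ≥0∞) := by simp
            _ = ∑ m ∈ Finset.range N, (if W (p i) ≤ Real.exp (-(h m)) then (1 : ℝ≥0∞) else 0) := by
                refine Finset.sum_congr rfl fun m hm => ?_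
                rw [if_pos (hN2 m (Finset.mem_range.1 hm))]
            _ ≤ _ := ENNReal.sum_le_tsum _
        have hlog : Real.log (Real.log (1 / W t)) ≤ |Real.log H0| + Real.log Λ * N := by
          calc Real.log (Real.log (1 / W t)) ≤ Real.log (h N) :=
                Real.log_le_log hL (hL2.trans hN1.le)
            _ = Real.log H0 + N * Real.log Λ := by
                simp only [hh]
                rw [Real.log_mul hH0.ne' (by positivity), Real.log_pow]
            _ ≤ _ := by
                have := le_abs_self (Real.log H0)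
                linarith [mul_comm (N : ℝ) (Real.log Λ)]
        calc ENNReal.ofReal (Real.log (Real.log (1 / W t)))
            ≤ ENNReal.ofReal (|Real.log H0| + Real.log Λ * N) := ENNReal.ofReal_le_ofReal hlog
          _ = ENNReal.ofReal |Real.log H0| + ENNReal.ofReal (Real.log Λ) * N := by
              rw [ENNReal.ofReal_add (abs_nonneg _)
                (mul_nonneg (Real.log_pos hΛ).le (Nat.cast_nonneg _)),
                ENNReal.ofReal_mul (Real.log_pos hΛ).le, ENNReal.ofReal_natCast]
          _ ≤ K := by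
              rw [hK]
              gcongr
      calc ∫⁻ t in Ioc (p i) (2 * p i) ∩ Ioo 0 a, ENNReal.ofReal (Real.log (Real.log (1 / W t)))
          ≤ ∫⁻ t in Ioc (p i) (2 * p i) ∩ Ioo 0 a, K :=
            setLIntegral_mono' (measurableSet_Ioc.inter measurableSet_Ioo) hbound
        _ = K * volume (Ioc (p i) (2 * p i) ∩ Ioo 0 a) := setLIntegral_const _ _
        _ ≤ K * volume (Ioc (p i) (2 * p i)) := by
            gcongr
            exact inter_subset_left
        _ = c i := by
            rw [Real.volume_Ioc, hc]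
            simp only
            rw [mul_comm]
            congr 2
            ring
    have hfin : ∑' i, c i < ∞ := by
      have e1 : ∑' i, c i = (∑' i, ENNReal.ofReal (p i)) * ENNReal.ofReal |Real.log H0|
          + ENNReal.ofReal (Real.log Λ) * ∑' m, ∑' i,
            (ENNReal.ofReal (p i) * (if W (p i) ≤ Real.exp (-(h m)) then (1 : ℝ≥0∞) else 0)) := by
        rw [ENNReal.tsum_comm, ← ENNReal.tsum_mul_left, ← ENNReal.tsum_mul_right, ← ENNReal.tsum_add]
        refine tsum_congr fun i => ?_
        simp only [hc]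
        rw [ENNReal.tsum_mul_left]
        ring
      have hgeo : ∀ k, ∑' i, ENNReal.ofReal (p (i + k)) = ENNReal.ofReal (2 * p k) := by
        intro k
        have hs : HasSum (fun i => p (i + k)) (2 * p k) := by
          have h2 := (hasSum_geometric_two).mul_left (p k)
          rw [mul_comm] at h2
          refine h2.congr_fun ?_
          intro i
          simp only [hp]
          ring
        rw [← ENNReal.ofReal_tsum_of_nonneg (fun i => (hp_pos _).le) hs.summable, hs.tsum_eq]
      have hin : ∀ m, ∑' i,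
            (ENNReal.ofReal (p i) * (if W (p i) ≤ Real.exp (-(h m)) then (1 : ℝ≥0∞) else 0))
            ≤ 2 * ENNReal.ofReal (T m) := by
        intro m
        rw [← Summable.sum_add_tsum_nat_add' (f := fun i => (ENNReal.ofReal (p i) *
          (if W (p i) ≤ Real.exp (-(h m)) then (1 : ℝ≥0∞) else 0))) (k := I m) ENNReal.summable]
        rw [Finset.sum_eq_zero, zero_add]
        · calc _ ≤ ∑' i, ENNReal.ofReal (p (i + I m)) := by
                refine ENNReal.tsum_le_tsum fun i => ?_
                split_ifs <;> simp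
            _ = ENNReal.ofReal (2 * p (I m)) := hgeo _
            _ = _ := by
                rw [ENNReal.ofReal_mul (by norm_num)]
                simp [hT]
        · intro i hi
          rw [if_neg, mul_zero]
          intro hcon
          have := hI_min m i hcon
          exact absurd (Finset.mem_range.1 hi) (by omega)
      rw [e1]
      refine ENNReal.add_lt_top.2 ⟨ENNReal.mul_lt_top ?_ ENNReal.ofReal_lt_top,
        ENNReal.mul_lt_top ENNReal.ofReal_lt_top ?_⟩
      · have := hgeo 0
        simp only [add_zero] at this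
        rw [this]
        exact ENNReal.ofReal_lt_top
      · refine (ENNReal.tsum_le_tsum hin).trans_lt ?_
        rw [ENNReal.tsum_mul_left]
        exact ENNReal.mul_lt_top (by simp) (lt_top_iff_ne_top.2 hne)
    rw [hinf] at hle
    exact absurd (hle.trans_lt hfin) (lt_irrefl _)
  set S : Set ℕ := {m | T m < t0 ∧ Real.exp (-(c2 * h m)) ≤ T m} with hS
  obtain ⟨M0, hM0⟩ := (hT_tend.eventually (gt_mem_nhds ht0)).exists_forall_of_atTop
  have hexpsum : Summable (fun m => Real.exp (-(c2 * h m))) := by
    have hr : Real.exp (-(c2 * H0 * (Λ - 1))) < 1 := by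
      rw [Real.exp_lt_one_iff]
      have : 0 < c2 * H0 * (Λ - 1) := mul_pos (mul_pos hc2 hH0) (by linarith)
      linarith
    have hgs := (summable_geometric_of_lt_one (Real.exp_pos _).le hr).mul_left
      (Real.exp (-(c2 * H0)))
    refine Summable.of_nonneg_of_le (fun m => (Real.exp_pos _).le) (fun m => ?_) hgs
    rw [← Real.exp_nat_mul, ← Real.exp_add]
    apply Real.exp_le_exp.2
    have h1 : 1 + (m : ℝ) * (Λ - 1) ≤ Λ ^ m := by
      have := one_add_mul_le_pow (a := Λ - 1) (by linarith) m
      simpa using this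
    have h2 : c2 * H0 * (1 + (m : ℝ) * (Λ - 1)) ≤ c2 * H0 * Λ ^ m :=
      mul_le_mul_of_nonneg_left h1 (mul_pos hc2 hH0).le
    simp only [hh]
    nlinarith
  have hSsum : ∑' m, S.indicator (fun m => ENNReal.ofReal (T m)) m = ∞ := by
    by_contra hne
    have hle : ∑' m, ENNReal.ofReal (T m) ≤ ∑' m, (S.indicator (fun m => ENNReal.ofReal (T m)) m
        + ((if m < M0 then (1 : ℝ≥0∞) else 0) + ENNReal.ofReal (Real.exp (-(c2 * h m))))) := by
      refine ENNReal.tsum_le_tsum fun m => ?_
      by_cases hm : m ∈ S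
      · rw [indicator_of_mem hm]; exact le_self_add
      · rw [indicator_of_notMem hm, zero_add]
        by_cases hm2 : m < M0
        · rw [if_pos hm2]
          refine le_trans ?_ le_self_add
          exact ENNReal.ofReal_le_one.2 (hp_le1 _)
        · rw [if_neg hm2, zero_add]
          apply ENNReal.ofReal_le_ofReal
          by_contra hcon
          push Not at hcon
          exact hm ⟨hM0 m (by omega), hcon.le⟩
    rw [hsum, ENNReal.tsum_add, ENNReal.tsum_add] at hle
    have hfin : ∑' m, S.indicator (fun m => ENNReal.ofReal (T m)) m +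
        (∑' m, (if m < M0 then (1 : ℝ≥0∞) else 0) + ∑' m, ENNReal.ofReal (Real.exp (-(c2 * h m)))) < ∞ := by
      refine ENNReal.add_lt_top.2 ⟨lt_top_iff_ne_top.2 hne, ENNReal.add_lt_top.2 ⟨?_, ?_⟩⟩
      · rw [tsum_eq_sum (s := Finset.range M0)]
        · refine ENNReal.sum_lt_top.2 fun m _ => ?_
          split_ifs <;> simp
        · intro m hm
          rw [if_neg]
          simpa using hm
      · rw [← ENNReal.ofReal_tsum_of_nonneg (fun i => (Real.exp_pos _).le) hexpsum]
        exact ENNReal.ofReal_lt_top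
    exact absurd (hle.trans_lt hfin) (lt_irrefl _)
  have hSinf : S.Infinite := by
    intro hfin
    rw [tsum_eq_sum (s := hfin.toFinset)] at hSsum
    · have : ∑ m ∈ hfin.toFinset, S.indicator (fun m => ENNReal.ofReal (T m)) m < ∞ := by
        refine ENNReal.sum_lt_top.2 fun m _ => ?_
        by_cases hm : m ∈ S
        · rw [indicator_of_mem hm]; exact ENNReal.ofReal_lt_top
        · rw [indicator_of_notMem hm]; simp
      rw [hSsum] at this
      exact lt_irrefl _ this
    · intro m hm
      exact indicator_of_notMem (fun hh => hm (hfin.mem_toFinset.2 hh)) _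
  set σ : ℕ → ℕ := Nat.nth (· ∈ S) with hσ
  have hσm : StrictMono σ := Nat.nth_strictMono hSinf
  have hσS : ∀ n, σ n ∈ S := fun n => Nat.nth_mem_of_infinite hSinf n
  have hσr : Set.range σ = S := Nat.range_nth_of_infinite hSinf
  refine ⟨fun n => T (σ n), fun n => h (σ n), fun n => hp_pos _, fun n => (hσS n).1,
    fun n => hp_le1 _, ?_, ?_, ?_, fun n => hI_spec _, fun n => (hσS n).2,
    hT_tend.comp hσm.tendsto_atTop, ?_⟩
  · intro n
    have h1 : I (σ n) ≤ I (σ (n + 1)) := hI_mono (hσm (Nat.lt_succ_self n)).le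
    rcases h1.eq_or_lt with h2 | h2
    · left
      simp only [hT, h2]
    · right
      simp only [hT]
      have h3 : p (I (σ (n + 1))) ≤ p (I (σ n) + 1) := hp_anti h2
      have h4 : p (I (σ n) + 1) = p (I (σ n)) / 2 := by simp only [hp]; ring
      linarith
  · intro n
    have : h 0 ≤ h (σ n) := hh_mono (Nat.zero_le _)
    simpa [hh] using this
  · intro n
    have h1 : h (σ n + 1) ≤ h (σ (n + 1)) := hh_mono (hσm (Nat.lt_succ_self n))
    have h2 : h (σ n + 1) = Λ * h (σ n) := by simp only [hh]; ring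
    simp only
    linarith
  · intro hsm
    have h1 : ∑' n, S.indicator (fun m => ENNReal.ofReal (T m)) (σ n)
        = ∑' m, S.indicator (fun m => ENNReal.ofReal (T m)) m := by
      apply hσm.injective.tsum_eq
      rw [hσr]
      intro m hm
      by_contra hmS
      exact hm (indicator_of_notMem hmS _)
    rw [hSsum] at h1
    have h2 : ∑' n, S.indicator (fun m => ENNReal.ofReal (T m)) (σ n)
        = ∑' n, ENNReal.ofReal (T (σ n)) := by
      refine tsum_congr fun n => ?_
      rw [indicator_of_mem (hσS n)]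
    rw [h2, ← ENNReal.ofReal_tsum_of_nonneg (fun i => (hp_pos _).le) hsm] at h1
    exact ENNReal.ofReal_ne_top h1


end Pool.Agent.Helper265.Br
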