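import Mathlib
import Pool.Agent.Helper265.BrK

set_option autoImplicit false
open Complex Set Filter Metric Topology MeasureTheory
open scoped ENNReal

namespace Pool.Agent.Helper265.Br

theorem contour_residue {ψ f : ℂ → ℂ} (hd : DifferentiableOn ℂ ψ (ball 0 1))
    (hi : InjOn ψ (ball 0 1)) (hf : DifferentiableOn ℂ f (ψ '' ball 0 1)) {ρ : ℝ}
    (hρ1 : ρ < 1) {η : ℂ} (hη : η ∈ ball (0:ℂ) ρ) :
    (∮ ξ in C(0, ρ), f (ψ ξ) * deriv ψ ξ / (ψ ξ - ψ η)) = (2 * Real.pi * I : ℂ) * f (ψ η) := by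
  have hρ0 : 0 < ρ := lt_of_le_of_lt dist_nonneg hη
  have hη1 : η ∈ ball (0:ℂ) 1 := ball_subset_ball hρ1.le hη
  have hsub : closedBall (0:ℂ) ρ ⊆ ball 0 1 := closedBall_subset_ball hρ1
  have hfψ : DifferentiableOn ℂ (fun ξ => f (ψ ξ)) (ball 0 1) :=
    hf.comp hd (mapsTo_image ψ _)
  have hdψ : DifferentiableOn ℂ (deriv ψ) (ball 0 1) := hd.deriv isOpen_ball
  have hds : DifferentiableOn ℂ (dslope ψ η) (ball 0 1) :=
    (Complex.differentiableOn_dslope (isOpen_ball.mem_nhds hη1)).2 hd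
  have hne : ∀ ξ ∈ ball (0:ℂ) 1, dslope ψ η ξ ≠ 0 := by
    intro ξ hξ
    by_cases h : ξ = η
    · rw [h, dslope_same]
      exact deriv_ne_zero isOpen_ball hd hi hη1
    · rw [dslope_of_ne _ h, slope_def_field]
      refine div_ne_zero ?_ (sub_ne_zero.2 h)
      exact sub_ne_zero.2 (fun h' => h (hi hξ hη1 h'))
  have hm : DifferentiableOn ℂ (fun ξ => f (ψ ξ) * deriv ψ ξ / dslope ψ η ξ) (ball 0 1) :=
    (hfψ.mul hdψ).div hds hne
  have hC := (hm.mono hsub).circleIntegral_sub_inv_smul hη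
  have hval : f (ψ η) * deriv ψ η / dslope ψ η η = f (ψ η) := by
    rw [dslope_same, mul_div_assoc, div_self (deriv_ne_zero isOpen_ball hd hi hη1), mul_one]
  simp only [smul_eq_mul, hval] at hC
  rw [← hC]
  refine circleIntegral.integral_congr hρ0.le ?_
  intro ξ hξ
  have hξρ : ‖ξ‖ = ρ := by simpa using hξ
  have hne' : ξ ≠ η := by
    rintro rfl
    have : ‖ξ‖ < ρ := by simpa using hη
    linarith
  have hξ1 : ξ ∈ ball (0:ℂ) 1 := by
    simp [hξρ, hρ1]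
  have h1 : ψ ξ - ψ η ≠ 0 := sub_ne_zero.2 (fun h' => hne' (hi hξ1 hη1 h'))
  have h2 : ξ - η ≠ 0 := sub_ne_zero.2 hne'
  show f (ψ ξ) * deriv ψ ξ / (ψ ξ - ψ η) = (ξ - η)⁻¹ * (f (ψ ξ) * deriv ψ ξ / dslope ψ η ξ)
  rw [dslope_of_ne _ hne', slope_def_field]
  field_simp

theorem contour_bound {ψ f g : ℂ → ℂ} (hd : DifferentiableOn ℂ ψ (ball 0 1))
    (hi : InjOn ψ (ball 0 1)) {t : ℝ} (ht : 0 < t) (hf : DifferentiableOn ℂ f (ψ '' ball 0 1))
    (hg : IntegrableOn g (ψ '' ball 0 (Real.exp (-t)))) {K δ : ℝ}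
    (hK : ∀ ξ : ℂ, ‖ξ‖ = Real.exp (-(t / 4)) → ‖f (ψ ξ) * deriv ψ ξ‖ ≤ K)
    (hδ : ∀ ξ : ℂ, ‖ξ‖ = Real.exp (-(t / 4)) →
      ‖∫ ζ in ψ '' ball 0 (Real.exp (-t)), g ζ / (ζ - ψ ξ)‖ ≤ δ) :
    ‖∫ ζ in ψ '' ball 0 (Real.exp (-t)), f ζ * g ζ‖ ≤ K * δ := by
  set ρ : ℝ := Real.exp (-(t / 4)) with hρdef
  set r0 : ℝ := Real.exp (-t) with hr0def
  have hρ1 : ρ < 1 := by
    rw [hρdef, Real.exp_lt_one_iff]; linarith
  have hρ0 : 0 < ρ := Real.exp_pos _
  have hr00 : 0 < r0 := Real.exp_pos _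
  have hr0ρ : r0 < ρ := Real.exp_lt_exp.2 (by linarith)
  set A : Set ℂ := ψ '' ball 0 r0 with hA
  have hr0sub : ball (0:ℂ) r0 ⊆ ball 0 1 := ball_subset_ball (by linarith)
  have hAo : IsOpen A := isOpen_image isOpen_ball hd hi isOpen_ball hr0sub
  have hAm : MeasurableSet A := hAo.measurableSet
  -- the point on the circle
  have hcm : ∀ θ : ℝ, ‖circleMap 0 ρ θ‖ = ρ := by
    intro θ; simp [abs_of_pos hρ0]
  have hK0 : 0 ≤ K := le_trans (norm_nonneg _) (hK _ (hcm 0))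
  have hδ0 : 0 ≤ δ := le_trans (norm_nonneg _) (hδ _ (hcm 0))
  -- the positive distance
  obtain ⟨c, hc0, hc⟩ : ∃ c : ℝ, 0 < c ∧ ∀ ξ : ℂ, ‖ξ‖ = ρ → ∀ ζ ∈ A, c ≤ ‖ψ ξ - ζ‖ := by
    have hcomp : IsCompact ((sphere (0:ℂ) ρ) ×ˢ (closedBall (0:ℂ) r0)) :=
      (isCompact_sphere 0 ρ).prod (isCompact_closedBall 0 r0)
    have hs1 : sphere (0:ℂ) ρ ⊆ ball 0 1 := by
      intro x hx
      have : ‖x‖ = ρ := by simpa using hx
      simp [this, hρ1]
    have hs2 : closedBall (0:ℂ) r0 ⊆ ball 0 1 := closedBall_subset_ball (by linarith)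
    have hcont : ContinuousOn (fun p : ℂ × ℂ => ‖ψ p.1 - ψ p.2‖)
        ((sphere (0:ℂ) ρ) ×ˢ (closedBall (0:ℂ) r0)) := by
      refine ContinuousOn.norm (ContinuousOn.sub ?_ ?_)
      · exact (hd.continuousOn.mono hs1).comp continuousOn_fst (fun p hp => hp.1)
      · exact (hd.continuousOn.mono hs2).comp continuousOn_snd (fun p hp => hp.2)
    have hne : ((sphere (0:ℂ) ρ) ×ˢ (closedBall (0:ℂ) r0)).Nonempty := by
      refine ⟨(circleMap 0 ρ 0, 0), ?_, ?_⟩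
      · simp [abs_of_pos hρ0]
      · simp [hr00.le]
    obtain ⟨p, hp, hmin⟩ := hcomp.exists_isMinOn hne hcont
    refine ⟨‖ψ p.1 - ψ p.2‖, ?_, ?_⟩
    · rw [norm_pos_iff, sub_ne_zero]
      intro h
      have h12 := hi (hs1 hp.1) (hs2 hp.2) h
      have h1 : ‖p.1‖ = ρ := by simpa using hp.1
      have h2 : ‖p.2‖ ≤ r0 := by simpa using hp.2
      rw [h12] at h1
      linarith
    · rintro ξ hξ ζ ⟨η, hη, rfl⟩
      have : (ξ, η) ∈ (sphere (0:ℂ) ρ) ×ˢ (closedBall (0:ℂ) r0) :=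
        ⟨by simp [hξ], ball_subset_closedBall hη⟩
      exact hmin this
  -- the kernel
  let k : ℂ → ℝ → ℂ := fun ζ θ => deriv (circleMap 0 ρ) θ *
    (f (ψ (circleMap 0 ρ θ)) * deriv ψ (circleMap 0 ρ θ) / (ψ (circleMap 0 ρ θ) - ζ))
  have hrep : ∀ ζ ∈ A, f ζ = (2 * Real.pi * I : ℂ)⁻¹ * ∫ θ in (0:ℝ)..2 * Real.pi, k ζ θ := by
    rintro ζ ⟨η, hη, rfl⟩
    have h := contour_residue hd hi hf hρ1 (ball_subset_ball hr0ρ.le hη)
    have h2 : (∫ θ in (0:ℝ)..2 * Real.pi, k (ψ η) θ) = (2 * Real.pi * I : ℂ) * f (ψ η) := by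
      rw [← h]
      rfl
    rw [h2, ← mul_assoc, inv_mul_cancel₀, one_mul]
    simp [Real.pi_ne_zero, I_ne_zero]
  have hmap : ∀ θ : ℝ, circleMap 0 ρ θ ∈ ball (0:ℂ) 1 := by
    intro θ
    have := hcm θ
    rw [mem_ball_zero_iff, this]; exact hρ1
  have hcψ : Continuous (fun θ : ℝ => ψ (circleMap 0 ρ θ)) := by
    rw [← continuousOn_univ]
    exact hd.continuousOn.comp (continuous_circleMap 0 ρ).continuousOn (fun θ _ => hmap θ)
  have hcf : Continuous (fun θ : ℝ => f (ψ (circleMap 0 ρ θ))) := by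
    rw [← continuousOn_univ]
    exact hf.continuousOn.comp hcψ.continuousOn (fun θ _ => mem_image_of_mem ψ (hmap θ))
  have hcd : Continuous (fun θ : ℝ => deriv ψ (circleMap 0 ρ θ)) := by
    rw [← continuousOn_univ]
    exact (hd.deriv isOpen_ball).continuousOn.comp (continuous_circleMap 0 ρ).continuousOn
      (fun θ _ => hmap θ)
  have hcc : Continuous (fun θ : ℝ => deriv (circleMap 0 ρ) θ) := by
    have : (fun θ : ℝ => deriv (circleMap 0 ρ) θ) = fun θ => circleMap 0 ρ θ * I := by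
      funext θ; rw [deriv_circleMap]
    rw [this]
    exact (continuous_circleMap 0 ρ).mul continuous_const
  have hkbound : ∀ ζ ∈ A, ∀ θ : ℝ, ‖k ζ θ‖ ≤ ρ * (K / c) := by
    intro ζ hζ θ
    simp only [k]
    rw [norm_mul, norm_div]
    have h1 : ‖deriv (circleMap 0 ρ) θ‖ = ρ := by
      rw [deriv_circleMap, norm_mul, hcm θ]; simp
    rw [h1]
    gcongr
    · exact hK _ (hcm θ)
    · exact hc _ (hcm θ) ζ hζ
  have hkcont : ContinuousOn (fun p : ℂ × ℝ => k p.1 p.2) (A ×ˢ (univ : Set ℝ)) := by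
    refine ContinuousOn.mul (hcc.comp continuous_snd).continuousOn ?_
    refine ContinuousOn.div ((hcf.comp continuous_snd).mul (hcd.comp continuous_snd)).continuousOn
      (((hcψ.comp continuous_snd).sub continuous_fst).continuousOn) ?_
    rintro ⟨ζ, θ⟩ hp
    have h1 := hc _ (hcm θ) ζ hp.1
    have : 0 < ‖ψ (circleMap 0 ρ θ) - ζ‖ := lt_of_lt_of_le hc0 h1
    exact norm_pos_iff.1 this
  -- integrability on the product
  have hint : Integrable (Function.uncurry (fun (θ : ℝ) (ζ : ℂ) => g ζ * k ζ θ))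
      ((volume.restrict (Set.uIoc 0 (2 * Real.pi))).prod (volume.restrict A)) := by
    have hb : Integrable (fun p : ℝ × ℂ => (1:ℝ) * ‖g p.2‖)
        ((volume.restrict (Set.uIoc 0 (2 * Real.pi))).prod (volume.restrict A)) := by
      refine Integrable.mul_prod (f := fun _ : ℝ => (1:ℝ)) (g := fun z => ‖g z‖) ?_ hg.norm
      have : IsFiniteMeasure (volume.restrict (Set.uIoc 0 (2 * Real.pi)) : Measure ℝ) := by
        refine ⟨?_⟩
        rw [Measure.restrict_apply_univ]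
        simp [Set.uIoc, Real.volume_Ioc]
      exact integrable_const _
    refine (hb.const_mul (ρ * (K / c))).mono' ?_ ?_
    · refine AEStronglyMeasurable.mul ?_ ?_
      · exact hg.aestronglyMeasurable.comp_snd
      · rw [Measure.prod_restrict]
        have hco : ContinuousOn (fun p : ℝ × ℂ => k p.2 p.1)
            (Set.uIoc 0 (2 * Real.pi) ×ˢ A) := by
          have := hkcont.comp (continuous_swap.continuousOn (s := Set.uIoc 0 (2 * Real.pi) ×ˢ A))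
            (fun p hp => ⟨hp.2, mem_univ _⟩)
          exact this
        exact hco.aestronglyMeasurable (measurableSet_uIoc.prod hAm)
    · rw [Measure.prod_restrict]
      refine (ae_restrict_iff' (measurableSet_uIoc.prod hAm)).2 (ae_of_all _ ?_)
      rintro ⟨θ, ζ⟩ hp
      simp only [Function.uncurry_apply_pair, one_mul]
      rw [norm_mul, mul_comm]
      exact mul_le_mul_of_nonneg_right (hkbound ζ hp.2 θ) (norm_nonneg _)
  have hswap := intervalIntegral_integral_swap (μ := volume.restrict A) (a := 0)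
    (b := 2 * Real.pi) (f := fun (θ : ℝ) (ζ : ℂ) => g ζ * k ζ θ) hint
  have hmain : (∫ ζ in A, f ζ * g ζ) =
      (2 * Real.pi * I : ℂ)⁻¹ * ∫ θ in (0:ℝ)..2 * Real.pi, ∫ ζ in A, g ζ * k ζ θ := by
    rw [hswap, ← integral_const_mul]
    refine setIntegral_congr_fun hAm ?_
    intro ζ hζ
    show f ζ * g ζ = (2 * Real.pi * I : ℂ)⁻¹ * ∫ θ in (0:ℝ)..2 * Real.pi, g ζ * k ζ θ
    rw [hrep ζ hζ, intervalIntegral.integral_const_mul]
    ring
  rw [hmain, norm_mul]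
  have hinner : ∀ θ : ℝ, ‖∫ ζ in A, g ζ * k ζ θ‖ ≤ ρ * (K * δ) := by
    intro θ
    have hre : (∫ ζ in A, g ζ * k ζ θ) = -(deriv (circleMap 0 ρ) θ *
        (f (ψ (circleMap 0 ρ θ)) * deriv ψ (circleMap 0 ρ θ))) *
          ∫ ζ in A, g ζ / (ζ - ψ (circleMap 0 ρ θ)) := by
      rw [← integral_const_mul]
      congr 1
      funext ζ
      simp only [k]
      rw [← neg_sub ζ (ψ (circleMap 0 ρ θ)), div_neg]
      ring
    rw [hre, norm_mul, norm_neg, norm_mul]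
    have h1 : ‖deriv (circleMap 0 ρ) θ‖ = ρ := by
      rw [deriv_circleMap, norm_mul, hcm θ]; simp
    rw [h1, mul_assoc]
    gcongr
    · exact hK _ (hcm θ)
    · exact hδ _ (hcm θ)
  have hout := intervalIntegral.norm_integral_le_of_norm_le_const (a := 0) (b := 2 * Real.pi)
    (f := fun θ => ∫ ζ in A, g ζ * k ζ θ) (C := ρ * (K * δ)) (fun θ _ => hinner θ)
  have hπ : 0 < Real.pi := Real.pi_pos
  have hn : ‖(2 * Real.pi * I : ℂ)⁻¹‖ = (2 * Real.pi)⁻¹ := by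
    simp [abs_of_pos hπ]
  rw [hn]
  rw [sub_zero, abs_of_pos (by positivity)] at hout
  calc (2 * Real.pi)⁻¹ * ‖∫ θ in (0:ℝ)..2 * Real.pi, ∫ ζ in A, g ζ * k ζ θ‖
      ≤ (2 * Real.pi)⁻¹ * (ρ * (K * δ) * (2 * Real.pi)) := by gcongr
    _ = ρ * (K * δ) := by field_simp
    _ ≤ 1 * (K * δ) := by gcongr
    _ = K * δ := one_mul _


end Pool.Agent.Helper265.Br
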