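import Mathlib

set_option autoImplicit false
open Complex Set Filter Metric Topology MeasureTheory
open scoped ENNReal

namespace Pool.Agent.Helper265.Br

theorem jensen_le {F : ℂ → ℂ} {s : ℝ} (hs : 0 < s) (hF : AnalyticOnNhd ℂ F (closedBall 0 s))
    (h0 : F 0 ≠ 0) :
    Real.log ‖F 0‖ ≤ (2 * Real.pi)⁻¹ * ∫ θ in (0)..(2 * Real.pi),
      Real.log ‖F ((s : ℂ) * exp (θ * I))‖ := by
  have hF' : AnalyticOnNhd ℂ F (closedBall 0 |s|) := by rwa [abs_of_pos hs]
  have jensen := hF'.circleAverage_log_norm hs.ne' h0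
  have hnn : 0 ≤ ∑ᶠ u, (MeromorphicOn.divisor F (closedBall 0 |s|) u : ℝ) *
      Real.log (s * ‖0 - u‖⁻¹) := by
    refine finsum_nonneg fun u => ?_
    by_cases h1 : u ∈ closedBall (0:ℂ) |s|
    · refine mul_nonneg (mod_cast MeromorphicOn.AnalyticOnNhd.divisor_nonneg hF' ..) ?_
      by_cases hu : u = 0
      · simp [hu]
      · apply Real.log_nonneg
        have hu' : 0 < ‖0 - u‖ := by simpa using hu
        have h2 : ‖0 - u‖ ≤ s := by
          rw [abs_of_pos hs] at h1
          simpa using h1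
        rw [← div_eq_mul_inv, one_le_div hu']
        exact h2
    · simp [h1]
  have h2 : Real.circleAverage (fun z => Real.log ‖F z‖) 0 s
      = (2 * Real.pi)⁻¹ * ∫ θ in (0)..(2 * Real.pi),
      Real.log ‖F ((s : ℂ) * exp (θ * I))‖ := by
    simp [Real.circleAverage, circleMap]
  rw [← h2, jensen]
  linarith

theorem circ_cont {F : ℂ → ℂ} (hF : DifferentiableOn ℂ F (ball 0 1)) {s : ℝ} (hs : 0 < s)
    (hs1 : s < 1) : Continuous (fun θ : ℝ => F ((s : ℂ) * exp (θ * I))) := by
  refine hF.continuousOn.comp_continuous (by fun_prop) ?_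
  intro θ
  rw [mem_ball_zero_iff, norm_mul, Complex.norm_exp_ofReal_mul_I, mul_one]
  simpa [abs_of_pos hs] using hs1

theorem two_const {F : ℂ → ℂ} {M ε : ℝ} (hε : 0 < ε) (hεM : ε ≤ M)
    (hF : DifferentiableOn ℂ F (ball 0 1)) (hb : ∀ z ∈ ball (0 : ℂ) 1, ‖F z‖ ≤ M)
    {J : Set ℝ} (hJ : MeasurableSet J) (hJs : J ⊆ Ioo 0 (2 * Real.pi))
    (hlim : ∀ θ ∈ J, ∀ ε' : ℝ, ε < ε' → ∀ᶠ s : ℝ in 𝓝[<] (1 : ℝ), ‖F ((s : ℂ) * exp (θ * I))‖ ≤ ε') :
    ‖F 0‖ ≤ M * (ε / M) ^ ((volume J).toReal / (2 * Real.pi)) := by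
  classical
  have hM : 0 < M := lt_of_lt_of_le hε hεM
  have hpi : 0 < 2 * Real.pi := by positivity
  by_cases h0 : F 0 = 0
  · rw [h0, norm_zero]; positivity
  -- scaled function
  set K : ℝ := ε⁻¹ with hK
  have hKpos : 0 < K := by positivity
  have hKε : K * ε = 1 := by rw [hK]; field_simp
  set G : ℂ → ℂ := fun z => (K : ℂ) * F z with hG
  have hGd : DifferentiableOn ℂ G (ball 0 1) := hF.const_mul _
  have hGn : ∀ z, ‖G z‖ = K * ‖F z‖ := by
    intro z; simp [hG, abs_of_pos hKpos]
  have hG0 : G 0 ≠ 0 := by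
    simp only [hG]
    exact mul_ne_zero (by exact_mod_cast hKpos.ne') h0
  have hlogle : ∀ z : ℂ, ∀ c : ℝ, 1 ≤ K * c → ‖F z‖ ≤ c → Real.log ‖G z‖ ≤ Real.log (K * c) := by
    intro z c hc hz
    by_cases hz0 : G z = 0
    · rw [hz0, norm_zero, Real.log_zero]; exact Real.log_nonneg hc
    · apply Real.log_le_log (norm_pos_iff.mpr hz0)
      rw [hGn]; gcongr
  have hKM : 1 ≤ K * M := by
    rw [← hKε]; gcongr
  -- sequence
  set s : ℕ → ℝ := fun n => 1 - 1 / ((n : ℝ) + 2) with hs
  have hs0 : ∀ n, 0 < s n := by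
    intro n
    have : 1 / ((n : ℝ) + 2) < 1 := by
      rw [div_lt_one (by positivity)]; have : (0:ℝ) ≤ n := n.cast_nonneg; linarith
    simp only [hs]; linarith
  have hs1 : ∀ n, s n < 1 := by
    intro n
    have : 0 < 1 / ((n : ℝ) + 2) := by positivity
    simp only [hs]; linarith
  have hst : Tendsto s atTop (𝓝[<] 1) := by
    rw [tendsto_nhdsWithin_iff]
    refine ⟨?_, Eventually.of_forall fun n => hs1 n⟩
    have h1 : Tendsto (fun n : ℕ => 1 / ((n : ℝ) + 2)) atTop (𝓝 0) := by
      have := tendsto_one_div_add_atTop_nhds_zero_nat (𝕜 := ℝ)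
      have h2 := (tendsto_add_atTop_iff_nat 1).mpr this
      refine h2.congr fun n => ?_
      push_cast; ring
    have := (tendsto_const_nhds (x := (1:ℝ))).sub h1
    simpa [hs] using this
  -- key estimate
  have key : ∀ ε' : ℝ, ε < ε' → Real.log ‖G 0‖ ≤ (2 * Real.pi)⁻¹ *
      (2 * Real.pi * Real.log (K * M) + (volume J).toReal * (Real.log (K * ε') - Real.log (K * M))) := by
    intro ε' hε'
    have hKε' : 1 ≤ K * ε' := by rw [← hKε]; gcongr
    set g : ℕ → ℝ → ℝ := fun n θ => if θ ∈ J then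
      max (Real.log (K * ε')) (Real.log ‖G ((s n : ℂ) * exp (θ * I))‖) else Real.log (K * M) with hg
    set g' : ℝ → ℝ := fun θ => if θ ∈ J then Real.log (K * ε') else Real.log (K * M) with hg'
    have hcont : ∀ n, Continuous (fun θ : ℝ => G ((s n : ℂ) * exp (θ * I))) :=
      fun n => circ_cont hGd (hs0 n) (hs1 n)
    have hmem : ∀ n (θ : ℝ), ((s n : ℂ) * exp (θ * I)) ∈ ball (0:ℂ) 1 := by
      intro n θ
      rw [mem_ball_zero_iff, norm_mul, Complex.norm_exp_ofReal_mul_I, mul_one]
      simpa [abs_of_pos (hs0 n)] using hs1 n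
    have hle : ∀ n (θ : ℝ), Real.log ‖G ((s n : ℂ) * exp (θ * I))‖ ≤ Real.log (K * M) :=
      fun n θ => hlogle _ _ hKM (hb _ (hmem n θ))
    have hgm : ∀ n, Measurable (g n) := by
      intro n
      refine Measurable.ite hJ ?_ measurable_const
      exact measurable_const.max (Real.measurable_log.comp (hcont n).norm.measurable)
    have hgb : ∀ n θ, ‖g n θ‖ ≤ max (Real.log (K * ε')) (Real.log (K * M)) := by
      intro n θ
      have h1 : 0 ≤ Real.log (K * ε') := Real.log_nonneg hKε'
      have h2 : 0 ≤ Real.log (K * M) := Real.log_nonneg hKM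
      simp only [hg]
      split_ifs
      · rw [Real.norm_eq_abs, abs_of_nonneg (le_max_of_le_left h1)]
        exact max_le_max le_rfl (hle n θ)
      · rw [Real.norm_eq_abs, abs_of_nonneg h2]
        exact le_max_right _ _
    have hlimg : ∀ θ, Tendsto (fun n => g n θ) atTop (𝓝 (g' θ)) := by
      intro θ
      simp only [hg, hg']
      by_cases hθ : θ ∈ J
      · simp only [hθ, if_true]
        refine tendsto_const_nhds.congr' ?_
        have := hst.eventually (hlim θ hθ ε' hε')
        filter_upwards [this] with n hn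
        exact (max_eq_left (hlogle _ _ hKε' hn)).symm
      · simp only [hθ, if_false]
        exact tendsto_const_nhds
    have hfin : IsFiniteMeasure (volume.restrict (Ioc (0:ℝ) (2 * Real.pi))) := by
      constructor; rw [Measure.restrict_apply_univ, Real.volume_Ioc]; exact ENNReal.ofReal_lt_top
    have hDCT : Tendsto (fun n => ∫ θ in Ioc (0:ℝ) (2 * Real.pi), g n θ) atTop
        (𝓝 (∫ θ in Ioc (0:ℝ) (2 * Real.pi), g' θ)) := by
      refine tendsto_integral_of_dominated_convergence
        (fun _ => max (Real.log (K * ε')) (Real.log (K * M)))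
        (fun n => (hgm n).aestronglyMeasurable) (integrable_const _) ?_ ?_
      · exact fun n => Eventually.of_forall fun θ => hgb n θ
      · exact Eventually.of_forall fun θ => hlimg θ
    have hint : ∀ n, IntegrableOn (g n) (Ioc (0:ℝ) (2 * Real.pi)) := by
      intro n
      refine Integrable.of_bound (hgm n).aestronglyMeasurable _
        (Eventually.of_forall fun θ => hgb n θ)
    have hval : ∫ θ in Ioc (0:ℝ) (2 * Real.pi), g' θ =
        2 * Real.pi * Real.log (K * M) + (volume J).toReal * (Real.log (K * ε') - Real.log (K * M)) := by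
      have e1 : g' = fun θ => Real.log (K * M) +
          J.indicator (fun _ => Real.log (K * ε') - Real.log (K * M)) θ := by
        funext θ
        simp only [hg', Set.indicator]
        split_ifs <;> ring
      rw [e1, integral_add (integrable_const _) ((integrable_const _).indicator hJ)]
      congr 1
      · simp [Real.pi_pos.le]
      · rw [integral_indicator hJ, Measure.restrict_restrict hJ,
          inter_eq_left.mpr (hJs.trans Ioo_subset_Ioc_self)]
        simp [Measure.real]
    rw [← hval]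
    have hstep : ∀ n, Real.log ‖G 0‖ ≤ (2 * Real.pi)⁻¹ * ∫ θ in Ioc (0:ℝ) (2 * Real.pi), g n θ := by
      intro n
      have hGan : AnalyticOnNhd ℂ G (closedBall 0 (s n)) := by
        intro z hz
        have hz1 : z ∈ ball (0:ℂ) 1 := closedBall_subset_ball (hs1 n) hz
        exact hGd.analyticAt (isOpen_ball.mem_nhds hz1)
      have h1 := jensen_le (hs0 n) hGan hG0
      refine h1.trans ?_
      gcongr
      rw [intervalIntegral.integral_of_le hpi.le]
      have hci : CircleIntegrable (fun z => Real.log ‖G z‖) 0 (s n) := by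
        apply MeromorphicOn.circleIntegrable_log_norm
        intro z hz
        apply AnalyticAt.meromorphicAt
        apply hGan
        rw [abs_of_pos (hs0 n)] at hz
        exact sphere_subset_closedBall hz
      have hii : IntegrableOn (fun θ : ℝ => Real.log ‖G ((s n : ℂ) * exp (θ * I))‖)
          (Ioc (0:ℝ) (2 * Real.pi)) := by
        have := hci
        rw [CircleIntegrable, intervalIntegrable_iff_integrableOn_Ioc_of_le hpi.le] at this
        simpa [circleMap] using this
      refine integral_mono hii (hint n) ?_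
      intro θ
      simp only [hg]
      split_ifs
      · exact le_max_right _ _
      · exact hle n θ
    exact ge_of_tendsto' (hDCT.const_mul _) hstep
  -- let ε' → ε
  have key2 : Real.log ‖G 0‖ ≤ (2 * Real.pi)⁻¹ *
      (2 * Real.pi * Real.log (K * M) + (volume J).toReal * (Real.log (K * ε) - Real.log (K * M))) := by
    have hc : ContinuousAt (fun ε' : ℝ => (2 * Real.pi)⁻¹ *
      (2 * Real.pi * Real.log (K * M) + (volume J).toReal * (Real.log (K * ε') - Real.log (K * M)))) ε := by
      have : ContinuousAt (fun ε' : ℝ => Real.log (K * ε')) ε := by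
        apply ContinuousAt.log
        · fun_prop
        · rw [hKε]; norm_num
      fun_prop
    have h1 : Tendsto (fun ε' : ℝ => (2 * Real.pi)⁻¹ *
      (2 * Real.pi * Real.log (K * M) + (volume J).toReal * (Real.log (K * ε') - Real.log (K * M))))
      (𝓝[>] ε) (𝓝 ((2 * Real.pi)⁻¹ *
      (2 * Real.pi * Real.log (K * M) + (volume J).toReal * (Real.log (K * ε) - Real.log (K * M))))) :=
      hc.tendsto.mono_left nhdsWithin_le_nhds
    refine ge_of_tendsto h1 ?_
    filter_upwards [self_mem_nhdsWithin] with ε' hε'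
    exact key ε' hε'
  rw [hKε, Real.log_one, zero_sub] at key2
  have hF0 : 0 < ‖F 0‖ := norm_pos_iff.mpr h0
  have hR : 0 < M * (ε / M) ^ ((volume J).toReal / (2 * Real.pi)) := by positivity
  rw [← Real.log_le_log_iff hF0 hR, Real.log_mul hM.ne' (by positivity), Real.log_rpow (by positivity),
    Real.log_div hε.ne' hM.ne']
  rw [hGn, Real.log_mul hKpos.ne' hF0.ne', Real.log_mul hKpos.ne' hM.ne', hK, Real.log_inv] at key2
  have e2 : (2 * Real.pi)⁻¹ * (2 * Real.pi * (-Real.log ε + Real.log M) +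
      (volume J).toReal * -(-Real.log ε + Real.log M)) =
      -Real.log ε + Real.log M + (volume J).toReal / (2 * Real.pi) * (Real.log ε - Real.log M) := by
    field_simp; ring
  rw [e2] at key2
  linarith


/-- conformal map of the disc onto the strip -/
noncomputable def Smap (a : ℝ) (z : ℂ) : ℂ :=
  ((a / Real.pi : ℝ) : ℂ) * Complex.log ((1 + z) / (1 - z)) + ((a / 2 : ℝ) : ℂ) * I

theorem cayley_re_pos {z : ℂ} (hz : z ∈ ball (0 : ℂ) 1) : 0 < ((1 + z) / (1 - z)).re := by
  have hz1 : ‖z‖ < 1 := by simpa using hz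
  have hne : (1 : ℂ) - z ≠ 0 := by
    intro h
    have : z = 1 := (sub_eq_zero.1 h).symm
    rw [this] at hz1
    simp at hz1
  have hns : 0 < Complex.normSq (1 - z) := Complex.normSq_pos.2 hne
  rw [Complex.div_re]
  have h2 : Complex.normSq z < 1 := by
    rw [Complex.normSq_eq_norm_sq]
    nlinarith [norm_nonneg z]
  rw [Complex.normSq_apply] at h2
  have : (1 + z).re * (1 - z).re / Complex.normSq (1 - z) +
      (1 + z).im * (1 - z).im / Complex.normSq (1 - z) =
      (1 - (z.re * z.re + z.im * z.im)) / Complex.normSq (1 - z) := by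
    rw [← add_div]
    congr 1
    simp
    ring
  rw [this]
  apply div_pos _ hns
  linarith

theorem Smap_im {a : ℝ} (ha : 0 < a) {z : ℂ} (hz : z ∈ ball (0 : ℂ) 1) :
    0 < (Smap a z).im ∧ (Smap a z).im < a := by
  have h := cayley_re_pos hz
  have h1 : |Complex.arg ((1 + z) / (1 - z))| < Real.pi / 2 := by
    rw [Complex.abs_arg_lt_pi_div_two_iff]
    exact Or.inl h
  rw [abs_lt] at h1
  have him : (Smap a z).im = a / Real.pi * Complex.arg ((1 + z) / (1 - z)) + a / 2 := by
    simp [Smap, Complex.log_im]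
  have hpi := Real.pi_pos
  have hc : 0 < a / Real.pi := div_pos ha hpi
  have hh : a / 2 = a / Real.pi * (Real.pi / 2) := by
    field_simp
  rw [him]
  constructor
  · nlinarith [h1.1, h1.2]
  · have : a / Real.pi * Complex.arg ((1 + z) / (1 - z)) < a / Real.pi * (Real.pi / 2) :=
      mul_lt_mul_of_pos_left h1.2 hc
    linarith

theorem Smap_diff (a : ℝ) {z : ℂ} (hz : z ∈ ball (0 : ℂ) 1) : DifferentiableAt ℂ (Smap a) z := by
  have h := cayley_re_pos hz
  have hz1 : ‖z‖ < 1 := by simpa using hz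
  have hne : (1 : ℂ) - z ≠ 0 := by
    intro h
    have : z = 1 := (sub_eq_zero.1 h).symm
    rw [this] at hz1
    simp at hz1
  unfold Smap
  apply DifferentiableAt.add_const
  apply DifferentiableAt.const_mul
  apply DifferentiableAt.clog
  · exact ((differentiableAt_const _).add differentiableAt_id).div
      ((differentiableAt_const _).sub differentiableAt_id) hne
  · exact Or.inl h

theorem exp_theta (u : ℝ) : exp (((2 * Real.pi - 2 * Real.arctan u : ℝ) : ℂ) * I) =
    (1 - u * I) / (1 + u * I) := by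
  have h1 : exp (((2 * Real.pi - 2 * Real.arctan u : ℝ) : ℂ) * I) =
      (exp (((-Real.arctan u : ℝ) : ℂ) * I)) ^ 2 := by
    rw [← Complex.exp_nat_mul]
    have : ((2 * Real.pi - 2 * Real.arctan u : ℝ) : ℂ) * I =
      ((2 : ℕ) : ℂ) * (((-Real.arctan u : ℝ) : ℂ) * I) + 2 * Real.pi * I := by
      push_cast
      ring
    rw [this, Complex.exp_add, Complex.exp_two_pi_mul_I, mul_one]
  have hpos : 0 < 1 + u ^ 2 := by positivity
  have hsq : (((Real.sqrt (1 + u ^ 2) : ℝ) : ℂ)) ^ 2 = 1 + (u : ℂ) ^ 2 := by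
    rw [← Complex.ofReal_pow, Real.sq_sqrt hpos.le]
    push_cast
    ring
  have hsne : ((Real.sqrt (1 + u ^ 2) : ℝ) : ℂ) ≠ 0 := by
    rw [Complex.ofReal_ne_zero]
    exact (Real.sqrt_pos.2 hpos).ne'
  have hfac : (1 : ℂ) + (u : ℂ) ^ 2 = (1 - u * I) * (1 + u * I) := by
    ring_nf
    rw [Complex.I_sq]
    ring
  have hne0 : (1 : ℂ) + (u : ℂ) ^ 2 ≠ 0 := by
    rw [← hsq]
    exact pow_ne_zero 2 hsne
  have hne : (1 : ℂ) + u * I ≠ 0 := by
    intro h
    apply hne0
    rw [hfac, h, mul_zero]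
  have hne' : (1 : ℂ) - u * I ≠ 0 := by
    intro h
    apply hne0
    rw [hfac, h, zero_mul]
  have h2 : exp (((-Real.arctan u : ℝ) : ℂ) * I) =
      (1 - u * I) / ((Real.sqrt (1 + u ^ 2) : ℝ) : ℂ) := by
    rw [Complex.exp_mul_I, ← Complex.ofReal_cos, ← Complex.ofReal_sin, Real.cos_neg, Real.sin_neg,
      Real.cos_arctan, Real.sin_arctan]
    push_cast
    field_simp
    ring
  rw [h1, h2, div_pow, hsq, hfac]
  field_simp

theorem exp_theta_ne (u : ℝ) (hu : 0 < u) :
    exp (((2 * Real.pi - 2 * Real.arctan u : ℝ) : ℂ) * I) ≠ 1 := by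
  rw [exp_theta]
  have hne : (1 : ℂ) + u * I ≠ 0 := by
    intro h
    have := congrArg Complex.re h
    simp at this
  intro h
  rw [div_eq_one_iff_eq hne] at h
  have := congrArg Complex.im h
  simp at this
  linarith

theorem cayley_theta (u : ℝ) (hu : 0 < u) :
    (1 + exp (((2 * Real.pi - 2 * Real.arctan u : ℝ) : ℂ) * I)) /
      (1 - exp (((2 * Real.pi - 2 * Real.arctan u : ℝ) : ℂ) * I)) = ((1 / u : ℝ) : ℂ) * (-I) := by
  have hne : (1 : ℂ) + u * I ≠ 0 := by
    intro h
    have := congrArg Complex.re h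
    simp at this
  have hu' : (u : ℂ) ≠ 0 := by exact_mod_cast hu.ne'
  rw [exp_theta]
  have h1 : (1 : ℂ) + (1 - u * I) / (1 + u * I) = 2 / (1 + u * I) := by
    field_simp
    ring
  have h2 : (1 : ℂ) - (1 - u * I) / (1 + u * I) = 2 * u * I / (1 + u * I) := by
    field_simp
    ring
  rw [h1, h2]
  have hI : (I : ℂ) ≠ 0 := Complex.I_ne_zero
  rw [div_div_div_cancel_right₀ hne]
  push_cast
  field_simp
  rw [Complex.I_sq]
  norm_num

/-- the boundary parametrisation -/
noncomputable def th (a x : ℝ) : ℝ := 2 * Real.pi - 2 * Real.arctan (Real.exp (-(Real.pi * x / a)))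

theorem Smap_th {a : ℝ} (ha : 0 < a) (x : ℝ) : Smap a (exp ((th a x : ℝ) * I)) = x := by
  unfold Smap th
  rw [cayley_theta _ (Real.exp_pos _)]
  have hpi := Real.pi_pos
  have h1 : (1 / Real.exp (-(Real.pi * x / a)) : ℝ) = Real.exp (Real.pi * x / a) := by
    rw [Real.exp_neg]
    simp
  rw [h1, Complex.log_ofReal_mul (Real.exp_pos _) (neg_ne_zero.2 Complex.I_ne_zero),
    Real.log_exp, Complex.log_neg_I]
  have hpi' : (Real.pi : ℂ) ≠ 0 := by exact_mod_cast hpi.ne'
  have ha' : (a : ℂ) ≠ 0 := by exact_mod_cast ha.ne'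
  push_cast
  field_simp
  ring

theorem Smap_cont_th {a : ℝ} (x : ℝ) :
    ContinuousAt (Smap a) (exp ((th a x : ℝ) * I)) := by
  have hne : (1 : ℂ) - exp ((th a x : ℝ) * I) ≠ 0 := by
    intro h
    exact exp_theta_ne _ (Real.exp_pos (-(Real.pi * x / a))) (sub_eq_zero.1 h).symm
  unfold Smap
  apply ContinuousAt.add _ continuousAt_const
  apply ContinuousAt.mul continuousAt_const
  apply ContinuousAt.clog
  · exact (continuousAt_const.add continuousAt_id).div (continuousAt_const.sub continuousAt_id) hne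
  · unfold th
    rw [cayley_theta _ (Real.exp_pos _)]
    right
    have := Real.exp_pos (-(Real.pi * x / a))
    rw [Complex.im_ofReal_mul, Complex.neg_im, Complex.I_im]
    have h2 : 0 < 1 / Real.exp (-(Real.pi * x / a)) := by positivity
    linarith

theorem th_mem (a x : ℝ) : th a x ∈ Ioo 0 (2 * Real.pi) := by
  unfold th
  have h1 := Real.arctan_lt_pi_div_two (Real.exp (-(Real.pi * x / a)))
  have h2 : 0 < Real.arctan (Real.exp (-(Real.pi * x / a))) :=
    Real.arctan_pos.2 (Real.exp_pos _)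
  have := Real.pi_pos
  constructor <;> linarith

theorem th_deriv {a : ℝ} (ha : 0 < a) (x : ℝ) :
    HasDerivAt (th a) ((Real.pi / a) / Real.cosh (Real.pi * x / a)) x := by
  unfold th
  have h0 : HasDerivAt (fun y : ℝ => -(Real.pi * y / a)) (-(Real.pi / a)) x := by
    have h := (hasDerivAt_id' x).const_mul (-(Real.pi / a))
    have e : (fun y : ℝ => -(Real.pi * y / a)) = fun y => -(Real.pi / a) * y := by
      funext y
      ring
    rw [e]
    simpa using h
  have h1 := ((h0.exp.arctan).const_mul 2).const_sub (2 * Real.pi)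
  refine h1.congr_deriv ?_
  have hc := Real.cosh_pos (Real.pi * x / a)
  have he := Real.exp_pos (-(Real.pi * x / a))
  have h2 : Real.cosh (Real.pi * x / a) = (1 + Real.exp (-(Real.pi * x / a)) ^ 2) /
      (2 * Real.exp (-(Real.pi * x / a))) := by
    rw [Real.cosh_eq]
    have : Real.exp (Real.pi * x / a) = 1 / Real.exp (-(Real.pi * x / a)) := by
      rw [Real.exp_neg]; simp
    rw [this]
    field_simp
  rw [h2]
  field_simp

theorem th_inj {a : ℝ} (ha : 0 < a) : Function.Injective (th a) := by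
  have : StrictMono (th a) := by
    apply strictMono_of_hasDerivAt_pos (f' := fun x => (Real.pi / a) / Real.cosh (Real.pi * x / a))
    · intro x; exact th_deriv ha x
    · intro x
      have := Real.pi_pos
      have := Real.cosh_pos (Real.pi * x / a)
      positivity
  exact this.injective

theorem strip_closed {f : ℂ → ℂ} {a M ε L : ℝ} (ha : 0 < a) (hε : 0 < ε) (hεM : ε ≤ M)
    (hL : 0 ≤ L) (hf : DifferentiableOn ℂ f {z : ℂ | 0 < z.im ∧ z.im < a})
    (hc : ContinuousOn f {z : ℂ | 0 ≤ z.im ∧ z.im < a})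
    (hb : ∀ z : ℂ, 0 < z.im → z.im < a → ‖f z‖ ≤ M)
    {J : Set ℝ} (hJ : MeasurableSet J) (hJs : J ⊆ Icc (-L) L) (hs : ∀ x ∈ J, ‖f (x : ℂ)‖ ≤ ε) :
    ‖f (((a / 2 : ℝ) : ℂ) * I)‖ ≤
      M * (ε / M) ^ ((volume J).toReal / (2 * a * Real.cosh (Real.pi * L / a))) := by
  have hpi := Real.pi_pos
  have hM : 0 < M := lt_of_lt_of_le hε hεM
  have hthc : Continuous (th a) := continuous_iff_continuousAt.2 fun x => (th_deriv ha x).continuousAt
  have hJ' : MeasurableSet (th a '' J) :=
    hJ.image_of_continuousOn_injOn hthc.continuousOn (th_inj ha).injOn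
  have hJ's : th a '' J ⊆ Ioo 0 (2 * Real.pi) := by
    rintro _ ⟨x, _, rfl⟩
    exact th_mem a x
  have hF : DifferentiableOn ℂ (f ∘ Smap a) (ball 0 1) := by
    intro z hz
    have hz' := Smap_im ha hz
    have h1 : DifferentiableWithinAt ℂ f {z : ℂ | 0 < z.im ∧ z.im < a} (Smap a z) := hf _ hz'
    have h2 : DifferentiableWithinAt ℂ (Smap a) (ball 0 1) z :=
      (Smap_diff a hz).differentiableWithinAt
    exact h1.comp z h2 (fun y hy => Smap_im ha hy)
  have hFb : ∀ z ∈ ball (0 : ℂ) 1, ‖(f ∘ Smap a) z‖ ≤ M := by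
    intro z hz
    have hz' := Smap_im ha hz
    exact hb _ hz'.1 hz'.2
  have hlim : ∀ θ ∈ th a '' J, ∀ ε' : ℝ, ε < ε' →
      ∀ᶠ s : ℝ in 𝓝[<] (1 : ℝ), ‖(f ∘ Smap a) ((s : ℂ) * exp (θ * I))‖ ≤ ε' := by
    rintro _ ⟨x, hx, rfl⟩ ε' hε'
    have hmap : Tendsto (fun s : ℝ => Smap a ((s : ℂ) * exp ((th a x : ℝ) * I))) (𝓝[<] (1 : ℝ))
        (𝓝[{z : ℂ | 0 ≤ z.im ∧ z.im < a}] (x : ℂ)) := by
      rw [tendsto_nhdsWithin_iff]
      constructor
      · have h1 : Tendsto (fun s : ℝ => (s : ℂ) * exp ((th a x : ℝ) * I)) (𝓝[<] (1 : ℝ))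
            (𝓝 (exp ((th a x : ℝ) * I))) := by
          have hcont : Continuous (fun s : ℝ => (s : ℂ) * exp ((th a x : ℝ) * I)) := by fun_prop
          have := (hcont.tendsto 1).mono_left (nhdsWithin_le_nhds (s := Iio (1 : ℝ)))
          simpa using this
        have h2 := (Smap_cont_th (a := a) x).tendsto
        rw [Smap_th ha] at h2
        exact h2.comp h1
      · have hpos : ∀ᶠ s : ℝ in 𝓝[<] (1 : ℝ), 0 < s :=
          nhdsWithin_le_nhds (lt_mem_nhds zero_lt_one)
        filter_upwards [self_mem_nhdsWithin, hpos] with s hs1 hs0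
        have hs1 : s < 1 := hs1
        have : (s : ℂ) * exp ((th a x : ℝ) * I) ∈ ball (0 : ℂ) 1 := by
          rw [mem_ball_zero_iff, norm_mul, Complex.norm_exp_ofReal_mul_I, mul_one,
            Complex.norm_real, Real.norm_eq_abs, abs_of_pos hs0]
          exact hs1
        have := Smap_im ha this
        exact ⟨this.1.le, this.2⟩
    have hfx : ContinuousWithinAt f {z : ℂ | 0 ≤ z.im ∧ z.im < a} (x : ℂ) :=
      hc _ (by simp [ha])
    have h3 : Tendsto (fun s : ℝ => ‖f (Smap a ((s : ℂ) * exp ((th a x : ℝ) * I)))‖)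
        (𝓝[<] (1 : ℝ)) (𝓝 ‖f x‖) := (hfx.tendsto.comp hmap).norm
    have h4 : ‖f x‖ < ε' := lt_of_le_of_lt (hs x hx) hε'
    filter_upwards [h3.eventually (gt_mem_nhds h4)] with s hs
    exact le_of_lt hs
  have hmain := two_const hε hεM hF hFb hJ' hJ's hlim
  have hS0 : Smap a 0 = ((a / 2 : ℝ) : ℂ) * I := by
    simp [Smap]
  rw [Function.comp_apply, hS0] at hmain
  refine hmain.trans ?_
  apply mul_le_mul_of_nonneg_left _ hM.le
  apply Real.rpow_le_rpow_of_exponent_ge (div_pos hε hM) ((div_le_one hM).2 hεM)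
  -- measure estimate
  set c : ℝ := (Real.pi / a) / Real.cosh (Real.pi * L / a) with hcdef
  have hcosh := Real.cosh_pos (Real.pi * L / a)
  have hcpos : 0 < c := by positivity
  have hvol : ENNReal.ofReal c * volume J ≤ volume (th a '' J) := by
    have h1 := lintegral_image_eq_lintegral_abs_deriv_mul hJ
      (fun x _ => (th_deriv ha x).hasDerivWithinAt) (th_inj ha).injOn (fun _ => 1)
    simp only [lintegral_const, one_mul, mul_one, Measure.restrict_apply MeasurableSet.univ,
      univ_inter] at h1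
    rw [h1, ← setLIntegral_const]
    apply setLIntegral_mono' hJ
    intro x hx
    apply ENNReal.ofReal_le_ofReal
    have hcx := Real.cosh_pos (Real.pi * x / a)
    rw [abs_of_pos (by positivity), hcdef]
    apply div_le_div_of_nonneg_left (by positivity) hcx
    rw [Real.cosh_le_cosh]
    have hxL : |x| ≤ L := abs_le.2 (hJs hx)
    rw [abs_div, abs_div, abs_mul, abs_mul, abs_of_nonneg hL]
    gcongr
  have hfinJ' : volume (th a '' J) ≠ ⊤ := by
    apply ne_top_of_le_ne_top _ (measure_mono hJ's)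
    rw [Real.volume_Ioo]
    exact ENNReal.ofReal_ne_top
  have hreal : c * (volume J).toReal ≤ (volume (th a '' J)).toReal := by
    have := ENNReal.toReal_mono hfinJ' hvol
    rwa [ENNReal.toReal_mul, ENNReal.toReal_ofReal hcpos.le] at this
  have heq : (volume J).toReal / (2 * a * Real.cosh (Real.pi * L / a)) =
      c * (volume J).toReal / (2 * Real.pi) := by
    rw [hcdef]
    field_simp
  rw [heq]
  gcongr


theorem strip_bot {f : ℂ → ℂ} {y0 a M ε L x1 : ℝ} (ha : 0 < a) (hε : 0 < ε) (hεM : ε ≤ M)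
    (hL : 0 ≤ L) (hf : DifferentiableOn ℂ f {z : ℂ | y0 < z.im ∧ z.im < y0 + a})
    (hb : ∀ z : ℂ, y0 < z.im → z.im < y0 + a → ‖f z‖ ≤ M)
    {J : Set ℝ} (hJ : MeasurableSet J) (hJs : J ⊆ Icc (x1 - L) (x1 + L))
    (hs : ∀ x ∈ J, ∀ ε' : ℝ, ε < ε' → ∃ δ > 0, ∀ y ∈ Ioo y0 (y0 + δ), ‖f ((x : ℂ) + y * I)‖ ≤ ε') :
    ‖f ((x1 : ℂ) + ((y0 + a / 2 : ℝ) : ℂ) * I)‖ ≤
      M * (ε / M) ^ ((volume J).toReal / (2 * a * Real.cosh (Real.pi * L / a))) := by
  have hM : 0 < M := hε.trans_le hεM
  have hopen : IsOpen {z : ℂ | y0 < z.im ∧ z.im < y0 + a} :=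
    (isOpen_lt continuous_const Complex.continuous_im).inter
      (isOpen_lt Complex.continuous_im continuous_const)
  have hmid : (x1 : ℂ) + ((y0 + a / 2 : ℝ) : ℂ) * I ∈ {z : ℂ | y0 < z.im ∧ z.im < y0 + a} := by
    simp only [mem_setOf_eq, add_im, ofReal_im, mul_im, ofReal_re, I_im, I_re]
    constructor <;> linarith
  rcases hεM.eq_or_lt with heq | hlt
  · subst heq
    rw [div_self hε.ne', Real.one_rpow, mul_one]
    exact hb _ hmid.1 hmid.2
  have hJfin : volume J < ∞ := lt_of_le_of_lt (measure_mono hJs) (by simp)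
  set E : ℝ := (volume J).toReal / (2 * a * Real.cosh (Real.pi * L / a)) with hE
  -- claim for ε'
  have key : ∀ ε' ∈ Ioc ε M, ‖f ((x1 : ℂ) + ((y0 + a / 2 : ℝ) : ℂ) * I)‖ ≤ M * (ε' / M) ^ E := by
    intro ε' hε'
    obtain ⟨hε'1, hε'2⟩ := hε'
    have hε'0 : 0 < ε' := hε.trans hε'1
    set d : ℕ → ℝ := fun m => a / (m + 2) with hd
    have hd0 : ∀ m, 0 < d m := fun m => by simp only [hd]; positivity
    have hda : ∀ m, d m ≤ a / 2 := by
      intro m
      simp only [hd]
      apply div_le_div_of_nonneg_left ha.le (by norm_num)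
      have : (0:ℝ) ≤ m := Nat.cast_nonneg m
      linarith
    have hdlim : Tendsto d atTop (𝓝 0) := by
      simp only [hd]
      apply Tendsto.div_atTop tendsto_const_nhds
      exact tendsto_atTop_add_const_right _ _ tendsto_natCast_atTop_atTop
    set F : ℕ → Set ℝ := fun m => {x : ℝ | ‖f ((x : ℂ) + ((y0 + d m : ℝ) : ℂ) * I)‖ ≤ ε'} with hF
    have hFm : ∀ m, MeasurableSet (F m) := by
      intro m
      apply IsClosed.measurableSet
      have hcont : Continuous fun x : ℝ => f ((x : ℂ) + ((y0 + d m : ℝ) : ℂ) * I) := by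
        rw [continuous_iff_continuousAt]
        intro x
        have hx : (x : ℂ) + ((y0 + d m : ℝ) : ℂ) * I ∈ {z : ℂ | y0 < z.im ∧ z.im < y0 + a} := by
          simp only [mem_setOf_eq, add_im, ofReal_im, mul_im, ofReal_re, I_im, I_re]
          constructor <;> linarith [hd0 m, hda m]
        have h1 : ContinuousAt f ((x : ℂ) + ((y0 + d m : ℝ) : ℂ) * I) :=
          (hf.differentiableAt (hopen.mem_nhds hx)).continuousAt
        have h2 : ContinuousAt (fun x : ℝ => (x : ℂ) + ((y0 + d m : ℝ) : ℂ) * I) x := by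
          fun_prop
        exact ContinuousAt.comp (f := fun x : ℝ => (x : ℂ) + ((y0 + d m : ℝ) : ℂ) * I) h1 h2
      exact isClosed_le hcont.norm continuous_const
    set Jm : ℕ → Set ℝ := fun m => J ∩ ⋂ m' ≥ m, F m' with hJmdef
    have hJmm : ∀ m, MeasurableSet (Jm m) := fun m =>
      hJ.inter (MeasurableSet.iInter fun m' => MeasurableSet.iInter fun _ => hFm m')
    have hmono : Monotone Jm := by
      intro m n hmn x hx
      refine ⟨hx.1, ?_⟩
      have := hx.2
      simp only [mem_iInter] at this ⊢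
      intro m' hm'
      exact this m' (hmn.trans hm')
    have hunion : ⋃ m, Jm m = J := by
      apply Subset.antisymm
      · exact iUnion_subset fun m x hx => hx.1
      · intro x hx
        obtain ⟨δ, hδ, hδ'⟩ := hs x hx ε' hε'1
        have h1 : ∀ᶠ m in atTop, d m < δ := hdlim.eventually (gt_mem_nhds hδ)
        obtain ⟨m, hm⟩ := eventually_atTop.mp h1
        refine mem_iUnion.mpr ⟨m, hx, ?_⟩
        simp only [mem_iInter]
        intro m' hm'
        exact hδ' (y0 + d m') ⟨by linarith [hd0 m'], by linarith [hm m' hm']⟩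
    have hvol : Tendsto (fun m => (volume (Jm m)).toReal) atTop (𝓝 (volume J).toReal) := by
      have h1 := tendsto_measure_iUnion_atTop (μ := volume) hmono
      rw [hunion] at h1
      exact (ENNReal.tendsto_toReal hJfin.ne).comp h1
    -- the bound for each m
    have hbd : ∀ m, ‖f ((x1 : ℂ) + ((y0 + d m + (a - d m) / 2 : ℝ) : ℂ) * I)‖ ≤
        M * (ε' / M) ^ ((volume (Jm m)).toReal /
          (2 * (a - d m) * Real.cosh (Real.pi * L / (a - d m)))) := by
      intro m
      have hdm := hd0 m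
      have hdam := hda m
      have ha' : 0 < a - d m := by linarith
      have h1 := strip_closed (f := fun z => f (z + ((x1 : ℂ) + ((y0 + d m : ℝ) : ℂ) * I)))
        (a := a - d m) (M := M) (ε := ε') (L := L) ha' hε'0 hε'2 hL
        (by
          apply hf.comp (by fun_prop)
          intro z hz
          simp only [mem_setOf_eq, add_im, ofReal_im, mul_im, ofReal_re, I_im, I_re] at hz ⊢
          constructor <;> linarith [hz.1, hz.2])
        (by
          apply hf.continuousOn.comp (by fun_prop)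
          intro z hz
          simp only [mem_setOf_eq, add_im, ofReal_im, mul_im, ofReal_re, I_im, I_re] at hz ⊢
          constructor <;> linarith [hz.1, hz.2])
        (by
          intro z hz1 hz2
          apply hb
          · simp only [add_im, ofReal_im, mul_im, ofReal_re, I_im, I_re]
            linarith
          · simp only [add_im, ofReal_im, mul_im, ofReal_re, I_im, I_re]
            linarith)
        (J := (fun x => x + x1) ⁻¹' (Jm m))
        ((measurable_add_const x1) (hJmm m))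
        (by
          intro x hx
          have h2 := hJs hx.1
          simp only [mem_Icc] at h2 ⊢
          constructor <;> linarith [h2.1, h2.2])
        (by
          intro x hx
          have h2 := hx.2
          simp only [mem_iInter] at h2
          have h3 := h2 m le_rfl
          simp only [hF, mem_setOf_eq] at h3
          have h4 : (x : ℂ) + ((x1 : ℂ) + ((y0 + d m : ℝ) : ℂ) * I)
              = ((x + x1 : ℝ) : ℂ) + ((y0 + d m : ℝ) : ℂ) * I := by push_cast; ring
          rw [h4]
          exact h3)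
      rw [measure_preimage_add_right] at h1
      have h5 : ((((a - d m) / 2 : ℝ) : ℂ) * I) + ((x1 : ℂ) + ((y0 + d m : ℝ) : ℂ) * I)
          = (x1 : ℂ) + ((y0 + d m + (a - d m) / 2 : ℝ) : ℂ) * I := by push_cast; ring
      rw [← h5]
      exact h1
    have hlim1 : Tendsto (fun m => ‖f ((x1 : ℂ) + ((y0 + d m + (a - d m) / 2 : ℝ) : ℂ) * I)‖) atTop
        (𝓝 ‖f ((x1 : ℂ) + ((y0 + a / 2 : ℝ) : ℂ) * I)‖) := by
      apply Tendsto.norm
      have hcont : ContinuousAt f ((x1 : ℂ) + ((y0 + a / 2 : ℝ) : ℂ) * I) :=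
        (hf.differentiableAt (hopen.mem_nhds hmid)).continuousAt
      apply hcont.tendsto.comp
      apply tendsto_const_nhds.add
      apply Tendsto.mul_const
      apply (Complex.continuous_ofReal.tendsto _).comp
      have h1 : Tendsto (fun m => y0 + d m + (a - d m) / 2) atTop (𝓝 (y0 + 0 + (a - 0) / 2)) :=
        (tendsto_const_nhds.add hdlim).add ((tendsto_const_nhds.sub hdlim).div_const 2)
      simpa using h1
    have hlim2 : Tendsto (fun m => M * (ε' / M) ^ ((volume (Jm m)).toReal /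
          (2 * (a - d m) * Real.cosh (Real.pi * L / (a - d m))))) atTop
        (𝓝 (M * (ε' / M) ^ E)) := by
      apply Tendsto.const_mul
      have h1 : Tendsto (fun m => a - d m) atTop (𝓝 a) := by
        have := (tendsto_const_nhds (x := a)).sub hdlim
        simpa using this
      have h2 : Tendsto (fun m => (volume (Jm m)).toReal /
          (2 * (a - d m) * Real.cosh (Real.pi * L / (a - d m)))) atTop (𝓝 E) := by
        rw [hE]
        apply Tendsto.div hvol
        · apply Tendsto.mul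
          · exact h1.const_mul 2
          · apply (Real.continuous_cosh.tendsto _).comp
            exact tendsto_const_nhds.div h1 ha.ne'
        · have := Real.cosh_pos (Real.pi * L / a)
          positivity
      have h3 : ContinuousAt (fun t : ℝ => (ε' / M) ^ t) E :=
        Real.continuousAt_const_rpow (by positivity)
      exact h3.tendsto.comp h2
    exact le_of_tendsto_of_tendsto' hlim1 hlim2 hbd
  have hlim : Tendsto (fun ε' : ℝ => M * (ε' / M) ^ E) (𝓝[>] ε) (𝓝 (M * (ε / M) ^ E)) := by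
    apply Tendsto.const_mul
    have h1 : ContinuousAt (fun t : ℝ => (t / M) ^ E) ε := by
      have h2 : ContinuousAt (fun s : ℝ => s ^ E) (ε / M) :=
        Real.continuousAt_rpow_const _ _ (Or.inl (by positivity))
      exact ContinuousAt.comp (f := fun t : ℝ => t / M) h2 (by fun_prop)
    exact h1.tendsto.mono_left nhdsWithin_le_nhds
  apply ge_of_tendsto hlim
  filter_upwards [Ioc_mem_nhdsGT hlt] with ε' hε'
  exact key ε' hε'

theorem strip_top {f : ℂ → ℂ} {y0 a M ε L x1 : ℝ} (ha : 0 < a) (hε : 0 < ε) (hεM : ε ≤ M)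
    (hL : 0 ≤ L) (hf : DifferentiableOn ℂ f {z : ℂ | y0 < z.im ∧ z.im < y0 + a})
    (hb : ∀ z : ℂ, y0 < z.im → z.im < y0 + a → ‖f z‖ ≤ M)
    {J : Set ℝ} (hJ : MeasurableSet J) (hJs : J ⊆ Icc (x1 - L) (x1 + L))
    (hs : ∀ x ∈ J, ∀ ε' : ℝ, ε < ε' →
      ∃ δ > 0, ∀ y ∈ Ioo (y0 + a - δ) (y0 + a), ‖f ((x : ℂ) + y * I)‖ ≤ ε') :
    ‖f ((x1 : ℂ) + ((y0 + a / 2 : ℝ) : ℂ) * I)‖ ≤
      M * (ε / M) ^ ((volume J).toReal / (2 * a * Real.cosh (Real.pi * L / a))) := by
  have hopen : IsOpen {z : ℂ | y0 < z.im ∧ z.im < y0 + a} :=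
    (isOpen_lt continuous_const Complex.continuous_im).inter
      (isOpen_lt Complex.continuous_im continuous_const)
  set G : ℂ → ℂ := fun w => f (w + ((2 * y0 + a : ℝ) : ℂ) * I) with hG
  set fs : ℂ → ℂ := (starRingEnd ℂ) ∘ G ∘ (starRingEnd ℂ) with hfs
  have hfsv : ∀ z, ‖fs z‖ = ‖f ((starRingEnd ℂ) z + ((2 * y0 + a : ℝ) : ℂ) * I)‖ := by
    intro z
    simp only [hfs, hG, Function.comp, RCLike.norm_conj]
  have hpt : ∀ x y : ℝ, (starRingEnd ℂ) ((x : ℂ) + (y : ℂ) * I) + ((2 * y0 + a : ℝ) : ℂ) * I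
      = (x : ℂ) + ((2 * y0 + a - y : ℝ) : ℂ) * I := by
    intro x y
    simp only [map_add, map_mul, Complex.conj_ofReal, Complex.conj_I]
    push_cast
    ring
  have h1 := strip_bot (f := fs) (y0 := y0) (a := a) (M := M) (ε := ε) (L := L) (x1 := x1) ha hε hεM hL
    (by
      intro z hz
      apply DifferentiableAt.differentiableWithinAt
      have h2 : DifferentiableAt ℂ G ((starRingEnd ℂ) z) := by
        have h3 : (starRingEnd ℂ) z + ((2 * y0 + a : ℝ) : ℂ) * I ∈
            {z : ℂ | y0 < z.im ∧ z.im < y0 + a} := by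
          simp only [mem_setOf_eq, add_im, conj_im, ofReal_im, mul_im, ofReal_re, I_im, I_re] at hz ⊢
          constructor <;> linarith [hz.1, hz.2]
        have h4 : DifferentiableAt ℂ f ((starRingEnd ℂ) z + ((2 * y0 + a : ℝ) : ℂ) * I) :=
          hf.differentiableAt (hopen.mem_nhds h3)
        exact DifferentiableAt.comp (f := fun w => w + ((2 * y0 + a : ℝ) : ℂ) * I)
          _ h4 (by fun_prop)
      have h5 := h2.conj_conj
      rw [Complex.conj_conj] at h5
      exact h5)
    (by
      intro z hz1 hz2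
      rw [hfsv]
      apply hb
      · simp only [add_im, conj_im, ofReal_im, mul_im, ofReal_re, I_im, I_re]
        linarith
      · simp only [add_im, conj_im, ofReal_im, mul_im, ofReal_re, I_im, I_re]
        linarith)
    hJ hJs
    (by
      intro x hx ε' hε'
      obtain ⟨δ, hδ, hδ'⟩ := hs x hx ε' hε'
      refine ⟨δ, hδ, ?_⟩
      intro y hy
      rw [hfsv, hpt]
      exact hδ' (2 * y0 + a - y) ⟨by linarith [hy.1, hy.2], by linarith [hy.1, hy.2]⟩)
  rw [hfsv, hpt] at h1
  have h2 : (2 * y0 + a - (y0 + a / 2) : ℝ) = y0 + a / 2 := by ring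
  rw [h2] at h1
  exact h1


end Pool.Agent.Helper265.Br
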