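import Mathlib
import Pool.Agent.Helper265.BrP

set_option autoImplicit false
open Complex Set Filter Metric Topology MeasureTheory
open scoped ENNReal

namespace Pool.Agent.Helper265.Br

/-- data produced by `scales` (proved elsewhere) -/
structure Sc (W : ℝ → ℝ) (Λ c2 H0 t0 : ℝ) (τ H : ℕ → ℝ) : Prop where
  pos : ∀ n, 0 < τ n
  lt : ∀ n, τ n < t0
  le1 : ∀ n, τ n ≤ 1
  dy : ∀ n, τ (n + 1) = τ n ∨ τ (n + 1) ≤ τ n / 2
  H0le : ∀ n, H0 ≤ H n
  Hmul : ∀ n, Λ * H n ≤ H (n + 1)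
  W : ∀ n, W (τ n) ≤ Real.exp (-(H n))
  low : ∀ n, Real.exp (-(c2 * H n)) ≤ τ n
  lim : Tendsto τ atTop (𝓝 0)
  div : ¬ Summable τ

theorem density {s : Set ℝ} (hs : MeasurableSet s) (hpos : 0 < volume s) :
    ∃ x0 ∈ s, ∃ r0 : ℝ, 0 < r0 ∧ ∀ r : ℝ, 0 < r → r < r0 →
      volume (Icc (x0 - r) (x0 + r) \ s) ≤ ENNReal.ofReal (r / 4) := by
  have h := Besicovitch.ae_tendsto_measure_inter_div_of_measurableSet (volume : Measure ℝ) hs
  obtain ⟨x0, hx0, hlim⟩ : ∃ x0 ∈ s, Tendsto (fun r => volume (s ∩ closedBall x0 r) /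
      volume (closedBall x0 r)) (𝓝[>] 0) (𝓝 (s.indicator 1 x0)) := by
    by_contra hcon
    push Not at hcon
    have h0 : volume s = 0 := measure_mono_null (fun x hx => hcon x hx) (ae_iff.1 h)
    exact hpos.ne' h0
  rw [Set.indicator_of_mem hx0, Pi.one_apply] at hlim
  have hev : ∀ᶠ r in 𝓝[>] (0 : ℝ), ENNReal.ofReal (7 / 8) <
      volume (s ∩ closedBall x0 r) / volume (closedBall x0 r) := by
    refine hlim.eventually_const_lt ?_
    rw [← ENNReal.ofReal_one]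
    exact (ENNReal.ofReal_lt_ofReal_iff one_pos).2 (by norm_num)
  obtain ⟨r0, hr0, hr⟩ := mem_nhdsGT_iff_exists_Ioo_subset.1 hev
  refine ⟨x0, hx0, r0, hr0, fun r hr1 hr2 => ?_⟩
  have h1 : ENNReal.ofReal (7 / 8) <
      volume (s ∩ closedBall x0 r) / volume (closedBall x0 r) := hr ⟨hr1, hr2⟩
  rw [Real.volume_closedBall, ENNReal.lt_div_iff_mul_lt (Or.inl (by simpa using hr1))
    (Or.inl ENNReal.ofReal_ne_top), ← ENNReal.ofReal_mul (by norm_num)] at h1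
  have h2 := measure_inter_add_sdiff (μ := (volume : Measure ℝ)) (closedBall x0 r) hs
  rw [Real.volume_closedBall, inter_comm] at h2
  rw [← Real.closedBall_eq_Icc]
  have h3 : volume (s ∩ closedBall x0 r) ≠ ⊤ := by
    intro h
    rw [h, top_add] at h2
    exact ENNReal.ofReal_ne_top h2.symm
  refine (ENNReal.add_le_add_iff_left h3).1 ?_
  rw [h2]
  calc ENNReal.ofReal (2 * r) = ENNReal.ofReal (7 / 8 * (2 * r)) + ENNReal.ofReal (r / 4) := by
        rw [← ENNReal.ofReal_add (by positivity) (by positivity)]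
        congr 1; ring
    _ ≤ _ := add_le_add h1.le le_rfl

theorem meas_hat {G : ℕ → ℂ → ℂ} {τ : ℕ → ℝ}
    (hG : ∀ n, DifferentiableOn ℂ (G n) {z : ℂ | 0 < z.im ∧ z.im < τ n}) (e : ℕ → ℝ) :
    MeasurableSet {x : ℝ | x ∈ Ioo (-Real.pi) Real.pi ∧ ∀ n k : ℕ, ∃ j : ℕ,
      ∀ y ∈ Ioo (0 : ℝ) (min (1 / ((j : ℝ) + 1)) (τ n)),
        ‖G n ((x : ℂ) + (y : ℂ) * I)‖ ≤ e n + 1 / ((k : ℝ) + 1)} := by
  have : {x : ℝ | x ∈ Ioo (-Real.pi) Real.pi ∧ ∀ n k : ℕ, ∃ j : ℕ,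
      ∀ y ∈ Ioo (0 : ℝ) (min (1 / ((j : ℝ) + 1)) (τ n)),
        ‖G n ((x : ℂ) + (y : ℂ) * I)‖ ≤ e n + 1 / ((k : ℝ) + 1)} =
      Ioo (-Real.pi) Real.pi ∩ ⋂ n : ℕ, ⋂ k : ℕ, ⋃ j : ℕ,
        ⋂ y ∈ Ioo (0 : ℝ) (min (1 / ((j : ℝ) + 1)) (τ n)),
        {x : ℝ | ‖G n ((x : ℂ) + (y : ℂ) * I)‖ ≤ e n + 1 / ((k : ℝ) + 1)} := by
    ext x
    simp only [mem_inter_iff, mem_iInter, mem_iUnion]
    rfl
  rw [this]
  refine measurableSet_Ioo.inter (MeasurableSet.iInter fun n => MeasurableSet.iInter fun k =>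
    MeasurableSet.iUnion fun j => ?_)
  apply IsClosed.measurableSet
  refine isClosed_biInter fun y hy => ?_
  have hcont : Continuous (fun x : ℝ => G n ((x : ℂ) + (y : ℂ) * I)) := by
    refine (hG n).continuousOn.comp_continuous (by fun_prop) (fun x => ?_)
    have h1 : ((x : ℂ) + (y : ℂ) * I).im = y := by simp
    show 0 < ((x : ℂ) + (y : ℂ) * I).im ∧ ((x : ℂ) + (y : ℂ) * I).im < τ n
    rw [h1]
    exact ⟨hy.1, hy.2.trans_le (min_le_right _ _)⟩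
  exact isClosed_le hcont.norm continuous_const

theorem vol_bad {f g : ℂ → ℂ} (hf : ∀ z, f (z + 2 * Real.pi) = f z)
    (hg : ∀ z, g (z + 2 * Real.pi) = g z) {y a V e x0 s : ℝ}
    (hx0 : x0 ∈ Ioo (-Real.pi) Real.pi) (hs : s ≤ Real.pi)
    (hg' : ∀ x : ℝ, |x - x0| ≤ s → ‖g ((x : ℂ) + (y : ℂ) * I)‖ ≤ a)
    (hV : volume {x : ℝ | x ∈ Ioo (-Real.pi) Real.pi ∧
      e < ‖f ((x : ℂ) + (y : ℂ) * I) - g ((x : ℂ) + (y : ℂ) * I)‖} ≤ ENNReal.ofReal V)
    (hV0 : 0 ≤ V) :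
    volume {x : ℝ | |x - x0| ≤ s ∧ a + e < ‖f ((x : ℂ) + (y : ℂ) * I)‖} ≤
      ENNReal.ofReal (3 * V) := by
  obtain ⟨G, hG⟩ : ∃ G : Set ℝ, G = {x : ℝ | x ∈ Ioo (-Real.pi) Real.pi ∧
      e < ‖f ((x : ℂ) + (y : ℂ) * I) - g ((x : ℂ) + (y : ℂ) * I)‖} := ⟨_, rfl⟩
  rw [← hG] at hV
  have hpi := Real.pi_pos
  have hshift : ∀ (h : ℂ → ℂ), (∀ z, h (z + 2 * Real.pi) = h z) → ∀ x : ℝ,
      h (((x + 2 * Real.pi : ℝ) : ℂ) + (y : ℂ) * I) = h ((x : ℂ) + (y : ℂ) * I) := by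
    intro h hh x
    rw [← hh ((x : ℂ) + (y : ℂ) * I)]
    congr 1
    push_cast
    ring
  have hshift' : ∀ (h : ℂ → ℂ), (∀ z, h (z + 2 * Real.pi) = h z) → ∀ x : ℝ,
      h (((x + -(2 * Real.pi) : ℝ) : ℂ) + (y : ℂ) * I) = h ((x : ℂ) + (y : ℂ) * I) := by
    intro h hh x
    rw [← hh (((x + -(2 * Real.pi) : ℝ) : ℂ) + (y : ℂ) * I)]
    congr 1
    push_cast
    ring
  have hsub : {x : ℝ | |x - x0| ≤ s ∧ a + e < ‖f ((x : ℂ) + (y : ℂ) * I)‖} ⊆
      (G ∪ ((fun x => x + 2 * Real.pi) ⁻¹' G)) ∪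
        (((fun x => x + -(2 * Real.pi)) ⁻¹' G) ∪ {Real.pi, -Real.pi}) := by
    rintro x ⟨h1, h2⟩
    have h3 : e < ‖f ((x : ℂ) + (y : ℂ) * I) - g ((x : ℂ) + (y : ℂ) * I)‖ := by
      have h4 := hg' x h1
      have h5 : ‖f ((x : ℂ) + (y : ℂ) * I)‖ ≤
          ‖f ((x : ℂ) + (y : ℂ) * I) - g ((x : ℂ) + (y : ℂ) * I)‖ +
            ‖g ((x : ℂ) + (y : ℂ) * I)‖ := by
        simpa using norm_add_le (f ((x : ℂ) + (y : ℂ) * I) - g ((x : ℂ) + (y : ℂ) * I))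
          (g ((x : ℂ) + (y : ℂ) * I))
      linarith
    rw [abs_le] at h1
    rcases lt_trichotomy x (-Real.pi) with hx | hx | hx
    · left; right
      rw [hG]
      refine ⟨⟨by linarith [hx0.1, hx0.2], by linarith⟩, ?_⟩
      rw [hshift f hf, hshift g hg]
      exact h3
    · right; right; right; exact hx
    · rcases lt_trichotomy x Real.pi with hx' | hx' | hx'
      · left; left
        rw [hG]
        exact ⟨⟨hx, hx'⟩, h3⟩
      · right; right; left; exact hx'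
      · right; left
        rw [hG]
        refine ⟨⟨by linarith, by linarith [hx0.1, hx0.2]⟩, ?_⟩
        rw [hshift' f hf, hshift' g hg]
        exact h3
  have hfin : volume ({Real.pi, -Real.pi} : Set ℝ) = 0 :=
    (Set.toFinite _).measure_zero _
  calc _ ≤ volume ((G ∪ ((fun x => x + 2 * Real.pi) ⁻¹' G)) ∪
        (((fun x => x + -(2 * Real.pi)) ⁻¹' G) ∪ {Real.pi, -Real.pi})) := measure_mono hsub
    _ ≤ (volume G + volume G) + (volume G + 0) := by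
        refine (measure_union_le _ _).trans (add_le_add ?_ ?_)
        · refine (measure_union_le _ _).trans (add_le_add le_rfl ?_)
          rw [measure_preimage_add_right]
        · refine (measure_union_le _ _).trans (add_le_add ?_ hfin.le)
          rw [measure_preimage_add_right]
    _ ≤ (ENNReal.ofReal V + ENNReal.ofReal V) + (ENNReal.ofReal V + 0) := by gcongr
    _ = ENNReal.ofReal (3 * V) := by
        rw [add_zero, ← ENNReal.ofReal_add hV0 hV0, ← ENNReal.ofReal_add (by positivity) hV0]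
        congr 1; ring

theorem pow_aux {M e m : ℝ} (hM : 1 ≤ M) (he : 0 < e) (hm : 0 < m) :
    M * (e / M) ^ m ≤ M * e ^ m := by
  refine mul_le_mul_of_nonneg_left ?_ (by linarith)
  exact Real.rpow_le_rpow (by positivity) (div_le_self he.le hM) hm.le

theorem final_est {C D κ c m H M e : ℝ} (hC : 1 ≤ C) (hD : 1 ≤ D) (hκ : 0 < κ)
    (hcm : c * m = 4 * κ) (hm : 0 < m) (hm1 : m ≤ 1) (hH : 0 < H)
    (hM' : M ≤ C * Real.exp (κ / 2 * H)) (he : 0 < e) (he' : e ≤ D * Real.exp (-(c * H)))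
    (hCD : C * D ≤ Real.exp (κ * H)) : M * e ^ m ≤ Real.exp (-(κ * H)) := by
  have h1 : e ^ m ≤ D * Real.exp (-(4 * κ * H)) := by
    calc e ^ m ≤ (D * Real.exp (-(c * H))) ^ m := Real.rpow_le_rpow he.le he' hm.le
      _ = D ^ m * Real.exp (-(4 * κ * H)) := by
          rw [Real.mul_rpow (by positivity) (Real.exp_pos _).le, ← Real.exp_mul]
          congr 2
          rw [← hcm]; ring
      _ ≤ D * Real.exp (-(4 * κ * H)) := by
          refine mul_le_mul_of_nonneg_right ?_ (Real.exp_pos _).le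
          calc D ^ m ≤ D ^ (1 : ℝ) := Real.rpow_le_rpow_of_exponent_le hD hm1
            _ = D := Real.rpow_one D
  calc M * e ^ m ≤ (C * Real.exp (κ / 2 * H)) * (D * Real.exp (-(4 * κ * H))) :=
        mul_le_mul hM' h1 (by positivity) (by positivity)
    _ = (C * D) * (Real.exp (κ / 2 * H) * Real.exp (-(4 * κ * H))) := by ring
    _ ≤ Real.exp (κ * H) * (Real.exp (κ / 2 * H) * Real.exp (-(4 * κ * H))) :=
        mul_le_mul_of_nonneg_right hCD (by positivity)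
    _ = Real.exp (κ * H + (κ / 2 * H + -(4 * κ * H))) := by
        rw [Real.exp_add, Real.exp_add]
    _ ≤ Real.exp (-(κ * H)) := by
        apply Real.exp_le_exp.2
        nlinarith [mul_pos hκ hH]

set_option maxHeartbeats 4000000 in
theorem chain {W : ℝ → ℝ} (hWpos : ∀ t ∈ Ioc (0 : ℝ) 1, 0 < W t)
    (hscales : ∀ Λ c2 H0 t0 : ℝ, 1 < Λ → 0 < c2 → 0 < H0 → 0 < t0 →
      ∃ τ H : ℕ → ℝ, Sc W Λ c2 H0 t0 τ H)
    {F : ℝ → ℂ → ℂ} {C c t0 : ℝ} {N : ℕ} (hC : 1 ≤ C) (hc : 0 < c) (ht0 : 0 < t0) (ht1 : t0 ≤ 1)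
    (hF : ∀ t ∈ Ioo 0 t0, DifferentiableOn ℂ (F t) {z : ℂ | 0 < z.im ∧ z.im < t})
    (hper : ∀ (t : ℝ) (z : ℂ), F t (z + 2 * Real.pi) = F t z)
    (hbd : ∀ t ∈ Ioo 0 t0, ∀ z : ℂ, 0 < z.im → z.im ≤ t / 2 → ‖F t z‖ * t ^ N ≤ C)
    (hcmp : ∀ t ∈ Ioo 0 t0, ∀ t' : ℝ, 0 < t' → t' < t →
      volume {x : ℝ | x ∈ Ioo (-Real.pi) Real.pi ∧ C * W t ^ c <
        ‖F t ((x : ℂ) + ((t' / 4 : ℝ) : ℂ) * I) - F t' ((x : ℂ) + ((t' / 4 : ℝ) : ℂ) * I)‖}
        ≤ ENNReal.ofReal (C * W t ^ c))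
    {E : Set ℝ} (hE : E ⊆ Ioo (-Real.pi) Real.pi) (hEpos : 0 < volume E)
    (hstart : ∀ x ∈ E, ∀ t ∈ Ioo 0 t0, ∀ ε : ℝ, C * W t ^ c < ε * t ^ N →
      ∃ δ : ℝ, 0 < δ ∧ ∀ y : ℝ, y ∈ Ioo 0 δ → ‖F t ((x : ℂ) + (y : ℂ) * I)‖ ≤ ε) :
    ∀ (A : ℕ) (ε : ℝ), 0 < ε → ∃ t ∈ Ioo 0 (min ε t0),
      ∀ x : ℝ, ‖F t ((x : ℂ) + ((t / 4 : ℝ) : ℂ) * I)‖ ≤ ε * t ^ A := by
  intro A ε hε
  obtain ⟨m, hm, hm1, stepA, stepB, stepC⟩ := steps
  obtain ⟨κ, hκe⟩ : ∃ κ : ℝ, κ = c * m / 4 := ⟨_, rfl⟩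
  have hκ : 0 < κ := by rw [hκe]; positivity
  have hcm : c * m = 4 * κ := by rw [hκe]; ring
  obtain ⟨c2, hc2e⟩ : ∃ c2 : ℝ, c2 = min (κ / (2 * ((N : ℝ) + A + 1))) (c / 2) := ⟨_, rfl⟩
  have hc2 : 0 < c2 := by rw [hc2e]; positivity
  have hc2' : c2 ≤ c / 2 := by rw [hc2e]; exact min_le_right _ _
  have hNA : ((N : ℝ) + A) * c2 ≤ κ / 2 := by
    have h1 : c2 ≤ κ / (2 * ((N : ℝ) + A + 1)) := by rw [hc2e]; exact min_le_left _ _
    rw [le_div_iff₀ (by positivity)] at h1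
    nlinarith
  have hNc2 : (N : ℝ) * c2 ≤ κ / 2 := by
    have : 0 ≤ (A : ℝ) * c2 := by positivity
    nlinarith
  have hAc2 : (A : ℝ) * c2 ≤ κ / 2 := by
    have : 0 ≤ (N : ℝ) * c2 := by positivity
    nlinarith
  obtain ⟨Λ, hΛe⟩ : ∃ Λ : ℝ, Λ = 4 / m := ⟨_, rfl⟩
  have hΛ : 1 < Λ := by
    rw [hΛe, lt_div_iff₀ hm]; linarith
  have hκΛ : κ * Λ = c := by rw [hκe, hΛe]; field_simp
  -- the threshold
  obtain ⟨H0, hH0, hH1, hH2, hH3⟩ : ∃ H0 : ℝ, 0 < H0 ∧ 12 * C ≤ Real.exp (c / 2 * H0) ∧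
      2 * C ^ 2 ≤ Real.exp (κ * H0) ∧ Real.exp (-(κ / 2 * H0)) ≤ ε := by
    have e1 : ∀ᶠ H0 : ℝ in atTop, 12 * C ≤ Real.exp (c / 2 * H0) :=
      (Real.tendsto_exp_atTop.comp (tendsto_id.const_mul_atTop (by positivity))).eventually_ge_atTop _
    have e2 : ∀ᶠ H0 : ℝ in atTop, 2 * C ^ 2 ≤ Real.exp (κ * H0) :=
      (Real.tendsto_exp_atTop.comp (tendsto_id.const_mul_atTop hκ)).eventually_ge_atTop _
    have e3 : ∀ᶠ H0 : ℝ in atTop, Real.exp (-(κ / 2 * H0)) ≤ ε := by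
      have : Tendsto (fun H0 : ℝ => Real.exp (-(κ / 2 * H0))) atTop (𝓝 0) :=
        Real.tendsto_exp_neg_atTop_nhds_zero.comp (tendsto_id.const_mul_atTop (by positivity))
      exact this.eventually_le_const hε
    exact ((eventually_gt_atTop 0).and (e1.and (e2.and e3))).exists
  obtain ⟨τ, H, hS⟩ := hscales Λ c2 H0 (min ε t0) hΛ hc2 hH0 (lt_min hε ht0)
  have hτ : ∀ n, τ n ∈ Ioo 0 t0 := fun n => ⟨hS.pos n, (hS.lt n).trans_le (min_le_right _ _)⟩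
  have hHpos : ∀ n, 0 < H n := fun n => hH0.trans_le (hS.H0le n)
  have hWp : ∀ n, 0 < W (τ n) := fun n => hWpos _ ⟨hS.pos n, hS.le1 n⟩
  have hWc0 : ∀ n, 0 < W (τ n) ^ c := fun n => Real.rpow_pos_of_pos (hWp n) c
  have hWc : ∀ n, W (τ n) ^ c ≤ Real.exp (-(c * H n)) := by
    intro n
    calc W (τ n) ^ c ≤ (Real.exp (-(H n))) ^ c := Real.rpow_le_rpow (hWp n).le (hS.W n) hc.le
      _ = Real.exp (-(c * H n)) := by rw [← Real.exp_mul]; congr 1; ring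
  obtain ⟨M, hMe⟩ : ∃ M : ℕ → ℝ, ∀ n, M n = C / τ n ^ N := ⟨_, fun _ => rfl⟩
  have hτN : ∀ n, 0 < τ n ^ N := fun n => pow_pos (hS.pos n) N
  have hM1 : ∀ n, 1 ≤ M n := by
    intro n
    rw [hMe, le_div_iff₀ (hτN n), one_mul]
    exact (pow_le_one₀ (hS.pos n).le (hS.le1 n)).trans hC
  have hM2 : ∀ n, M n ≤ C * Real.exp (κ / 2 * H n) := by
    intro n
    rw [hMe, div_le_iff₀ (hτN n)]
    have h1 : Real.exp (-(κ / 2 * H n)) ≤ τ n ^ N := by
      calc Real.exp (-(κ / 2 * H n)) ≤ Real.exp (N * (-(c2 * H n))) := by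
            apply Real.exp_le_exp.2
            nlinarith [mul_le_mul_of_nonneg_right hNc2 (hHpos n).le]
        _ = Real.exp (-(c2 * H n)) ^ N := by rw [Real.exp_nat_mul]
        _ ≤ τ n ^ N := pow_le_pow_left₀ (Real.exp_pos _).le (hS.low n) N
    calc C = C * (Real.exp (κ / 2 * H n) * Real.exp (-(κ / 2 * H n))) := by
          rw [← Real.exp_add]; simp
      _ ≤ C * (Real.exp (κ / 2 * H n) * τ n ^ N) := by gcongr
      _ = C * Real.exp (κ / 2 * H n) * τ n ^ N := by ring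
  have hSB : ∀ n, SB (F (τ n)) (τ n) (M n) := by
    intro n
    refine ⟨hF _ (hτ n), fun z h1 h2 => ?_⟩
    rw [hMe, le_div_iff₀ (hτN n)]
    exact hbd _ (hτ n) z h1 h2
  have hexpH1 : ∀ n, 12 * C ≤ Real.exp (c / 2 * H n) := fun n =>
    hH1.trans (Real.exp_le_exp.2 (by nlinarith [hS.H0le n]))
  have hexpH2 : ∀ n, 2 * C ^ 2 ≤ Real.exp (κ * H n) := fun n =>
    hH2.trans (Real.exp_le_exp.2 (by nlinarith [hS.H0le n]))
  have hCD1 : ∀ n, C * 1 ≤ Real.exp (κ * H n) := fun n => by nlinarith [hexpH2 n]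
  have hCD2 : ∀ n, C * (2 * C) ≤ Real.exp (κ * H n) := fun n => by nlinarith [hexpH2 n]
  -- the good set
  obtain ⟨e, hee⟩ : ∃ e : ℕ → ℝ, ∀ n, e n = M n * W (τ n) ^ c := ⟨_, fun _ => rfl⟩
  obtain ⟨Eh, hEh⟩ : ∃ Eh : Set ℝ, Eh = {x : ℝ | x ∈ Ioo (-Real.pi) Real.pi ∧ ∀ n k : ℕ, ∃ j : ℕ,
      ∀ y ∈ Ioo (0 : ℝ) (min (1 / ((j : ℝ) + 1)) (τ n)),
        ‖F (τ n) ((x : ℂ) + (y : ℂ) * I)‖ ≤ e n + 1 / ((k : ℝ) + 1)} := ⟨_, rfl⟩
  have hEhm : MeasurableSet Eh := by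
    rw [hEh]
    exact meas_hat (G := fun n => F (τ n)) (fun n => hF _ (hτ n)) e
  have hEEh : E ⊆ Eh := by
    intro x hx
    rw [hEh]
    refine ⟨hE hx, fun n k => ?_⟩
    obtain ⟨δ, hδ, h⟩ := hstart x hx (τ n) (hτ n) (e n + 1 / ((k : ℝ) + 1)) (by
      rw [hee, hMe, add_mul, div_mul_eq_mul_div, div_mul_cancel₀ _ (hτN n).ne']
      have : 0 < 1 / ((k : ℝ) + 1) * τ n ^ N := mul_pos (by positivity) (hτN n)
      linarith)
    obtain ⟨j, hj⟩ := exists_nat_one_div_lt hδ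
    exact ⟨j, fun y hy => h y ⟨hy.1, (hy.2.trans_le (min_le_left _ _)).trans hj⟩⟩
  have hEhpos : 0 < volume Eh := hEpos.trans_le (measure_mono hEEh)
  obtain ⟨x0, hx0, r0, hr0, hdens⟩ := density hEhm hEhpos
  have hx0' : x0 ∈ Ioo (-Real.pi) Real.pi := by rw [hEh] at hx0; exact hx0.1
  obtain ⟨n0, hn0⟩ : ∃ n0, ∀ n ≥ n0, 4 * τ n < r0 := by
    have h1 : ∀ᶠ n in atTop, τ n < r0 / 4 := hS.lim.eventually_lt_const (by positivity)
    obtain ⟨n0, h2⟩ := eventually_atTop.1 h1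
    exact ⟨n0, fun n hn => by linarith [h2 n hn]⟩
  -- C step
  have hCstep : ∀ n ≥ n0, ∀ x : ℝ, |x - x0| ≤ 2 * τ n →
      ‖F (τ n) ((x : ℂ) + ((τ n / 4 : ℝ) : ℂ) * I)‖ ≤ Real.exp (-(κ * H n)) := by
    intro n hn x hx
    have hexp1 : Real.exp (-(c * H n)) ≤ 1 := by
      rw [Real.exp_le_one_iff]
      nlinarith [hHpos n]
    have hM0 : 0 < M n := by linarith [hM1 n]
    have h1 := stepC (F (τ n)) (τ n) (M n) (e n) x0 Eh hEhm (hS.pos n)
      (by rw [hee]; exact mul_pos hM0 (hWc0 n))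
      (by
        rw [hee]
        calc M n * W (τ n) ^ c ≤ M n * 1 :=
              mul_le_mul_of_nonneg_left ((hWc n).trans hexp1) hM0.le
          _ = M n := mul_one _)
      (hSB n)
      (by
        have h2 := hdens (4 * τ n) (by linarith [hS.pos n]) (hn0 n hn)
        rwa [show 4 * τ n / 4 = τ n by ring] at h2)
      (by
        intro x hx ε' hε'
        rw [hEh] at hx
        obtain ⟨k, hk⟩ := exists_nat_one_div_lt (sub_pos.2 hε')
        obtain ⟨j, hj⟩ := hx.2 n k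
        refine ⟨min (1 / ((j : ℝ) + 1)) (τ n), lt_min (by positivity) (hS.pos n), fun y hy => ?_⟩
        exact (hj y hy).trans (by linarith))
      x hx
    refine h1.trans ?_
    rw [hee, mul_div_cancel_left₀ _ hM0.ne']
    exact final_est hC le_rfl hκ hcm hm hm1 (hHpos n) (hM2 n) (hWc0 n)
      (by rw [one_mul]; exact hWc n) (hCD1 n)
  -- exponent comparison
  have hexpn : ∀ n, Real.exp (-(κ * H (n + 1))) ≤ Real.exp (-(c * H n)) := by
    intro n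
    apply Real.exp_le_exp.2
    have h1 := mul_le_mul_of_nonneg_left (hS.Hmul n) hκ.le
    rw [← mul_assoc, hκΛ] at h1
    linarith
  -- A/B step
  have hABstep : ∀ n s, τ n ≤ s → s ≤ Real.pi →
      (∀ x : ℝ, |x - x0| ≤ s → ‖F (τ (n + 1)) ((x : ℂ) + ((τ (n + 1) / 4 : ℝ) : ℂ) * I)‖ ≤
        Real.exp (-(κ * H (n + 1)))) →
      ∀ x : ℝ, |x - x0| ≤ s + τ n / 2 →
        ‖F (τ n) ((x : ℂ) + ((τ n / 4 : ℝ) : ℂ) * I)‖ ≤ Real.exp (-(κ * H n)) := by
    intro n s hs1 hs2 hsm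
    have hexp1 : Real.exp (-(c * H n)) ≤ 1 := by
      rw [Real.exp_le_one_iff]
      nlinarith [hHpos n]
    have hexpc : 2 * C * Real.exp (-(c * H n)) ≤ 1 := by
      have h1 : 2 * C ≤ Real.exp (c * H n) := by
        calc 2 * C ≤ 12 * C := by linarith
          _ ≤ Real.exp (c / 2 * H n) := hexpH1 n
          _ ≤ Real.exp (c * H n) := Real.exp_le_exp.2 (by nlinarith [hHpos n])
      calc 2 * C * Real.exp (-(c * H n)) ≤ Real.exp (c * H n) * Real.exp (-(c * H n)) := by gcongr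
        _ = 1 := by rw [← Real.exp_add]; simp
    rcases hS.dy n with hdy | hdy
    · intro x hx
      rw [hdy] at hsm
      have h1 := stepA (F (τ n)) (τ n) (M n) (Real.exp (-(κ * H (n + 1)))) x0 s (hS.pos n)
        (Real.exp_pos _) (((hexpn n).trans hexp1).trans (hM1 n)) (hSB n) hs1 hsm x hx
      refine h1.trans ((pow_aux (hM1 n) (Real.exp_pos _) hm).trans ?_)
      exact final_est hC le_rfl hκ hcm hm hm1 (hHpos n) (hM2 n) (Real.exp_pos _)
        (by rw [one_mul]; exact hexpn n) (hCD1 n)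
    · intro x hx
      have hepos : 0 < Real.exp (-(κ * H (n + 1))) + C * W (τ n) ^ c := by
        have := hWc0 n
        positivity
      have hele : Real.exp (-(κ * H (n + 1))) + C * W (τ n) ^ c ≤
          2 * C * Real.exp (-(c * H n)) := by
        have h1 := hexpn n
        have h2 : C * W (τ n) ^ c ≤ C * Real.exp (-(c * H n)) :=
          mul_le_mul_of_nonneg_left (hWc n) (by linarith)
        nlinarith [Real.exp_pos (-(c * H n))]
      have hlt : τ (n + 1) < τ n := by linarith [hS.pos n]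
      have hvol := vol_bad (f := F (τ n)) (g := F (τ (n + 1))) (hper _) (hper _)
        (y := τ (n + 1) / 4) (V := C * W (τ n) ^ c) hx0' hs2 hsm
        (hcmp (τ n) (hτ n) (τ (n + 1)) (hS.pos _) hlt)
        (mul_nonneg (by linarith) (hWc0 n).le)
      have h3 : 3 * (C * W (τ n) ^ c) ≤ τ n / 4 := by
        have h4 : W (τ n) ^ c ≤ Real.exp (-(c / 2 * H n)) * Real.exp (-(c / 2 * H n)) := by
          rw [← Real.exp_add]
          refine (hWc n).trans (le_of_eq ?_)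
          congr 1; ring
        have h5 : Real.exp (-(c / 2 * H n)) ≤ τ n :=
          (Real.exp_le_exp.2 (by nlinarith [hHpos n])).trans (hS.low n)
        have h6 : 12 * C * Real.exp (-(c / 2 * H n)) ≤ 1 := by
          calc 12 * C * Real.exp (-(c / 2 * H n)) ≤
              Real.exp (c / 2 * H n) * Real.exp (-(c / 2 * H n)) := by
                gcongr; exact hexpH1 n
            _ = 1 := by rw [← Real.exp_add]; simp
        have h7 : 12 * (C * W (τ n) ^ c) ≤ τ n := by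
          calc 12 * (C * W (τ n) ^ c) ≤
              12 * (C * (Real.exp (-(c / 2 * H n)) * Real.exp (-(c / 2 * H n)))) := by gcongr
            _ = (12 * C * Real.exp (-(c / 2 * H n))) * Real.exp (-(c / 2 * H n)) := by ring
            _ ≤ 1 * Real.exp (-(c / 2 * H n)) := by gcongr
            _ = Real.exp (-(c / 2 * H n)) := one_mul _
            _ ≤ τ n := h5
        linarith
      have h1 := stepB (F (τ n)) (τ n) (M n) (Real.exp (-(κ * H (n + 1))) + C * W (τ n) ^ c)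
        x0 s (τ (n + 1) / 4) (hS.pos n) hepos ((hele.trans hexpc).trans (hM1 n)) (hSB n) hs1
        (by linarith [hS.pos (n + 1)]) (by linarith)
        (hvol.trans (ENNReal.ofReal_le_ofReal h3)) x hx
      refine h1.trans ((pow_aux (hM1 n) hepos hm).trans ?_)
      exact final_est hC (by linarith) hκ hcm hm hm1 (hHpos n) (hM2 n) hepos hele (hCD2 n)
  -- the sum
  obtain ⟨K, hK0, hK⟩ : ∃ K ≥ n0, Real.pi ≤ ∑ j ∈ Finset.Ico n0 (K + 1), τ j / 2 := by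
    have h1 := (not_summable_iff_tendsto_nat_atTop_of_nonneg (fun n => (hS.pos n).le)).1 hS.div
    have h2 := (tendsto_add_atTop_nat 1).eventually (h1.eventually_ge_atTop
      (∑ i ∈ Finset.range n0, τ i + 2 * Real.pi))
    obtain ⟨K, hK1, hK2⟩ := (h2.and (eventually_ge_atTop n0)).exists
    refine ⟨K, hK2, ?_⟩
    rw [← Finset.sum_div, Finset.sum_Ico_eq_sub _ (by omega : n0 ≤ K + 1)]
    linarith
  have hmain : ∀ d n, n + d = K → n0 ≤ n → ∀ x : ℝ,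
      |x - x0| ≤ min Real.pi (∑ j ∈ Finset.Ico n (K + 1), τ j / 2) →
        ‖F (τ n) ((x : ℂ) + ((τ n / 4 : ℝ) : ℂ) * I)‖ ≤ Real.exp (-(κ * H n)) := by
    intro d
    induction d with
    | zero =>
      intro n hn hn0' x hx
      obtain rfl : n = K := by omega
      refine hCstep n hn0' x (hx.trans ((min_le_right _ _).trans ?_))
      rw [Finset.sum_Ico_succ_top le_rfl, Finset.Ico_self, Finset.sum_empty]
      linarith [hS.pos n]
    | succ d ih =>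
      intro n hn hn0' x hx
      have ih' := ih (n + 1) (by omega) (by omega)
      obtain ⟨s, hs⟩ : ∃ s, s = min Real.pi (∑ j ∈ Finset.Ico (n + 1) (K + 1), τ j / 2) := ⟨_, rfl⟩
      rw [← hs] at ih'
      have h1 : min Real.pi (∑ j ∈ Finset.Ico n (K + 1), τ j / 2) ≤ s + τ n / 2 := by
        rw [Finset.sum_eq_sum_Ico_succ_bot (by omega : n < K + 1)]
        rcases min_choice Real.pi (∑ j ∈ Finset.Ico (n + 1) (K + 1), τ j / 2) with h | h
        · rw [hs, h]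
          exact (min_le_left _ _).trans (by linarith [hS.pos n])
        · rw [hs, h]
          exact (min_le_right _ _).trans (by linarith)
      rcases le_or_gt (τ n) s with hle | hlt
      · exact hABstep n s hle (by rw [hs]; exact min_le_left _ _) ih' x (hx.trans h1)
      · exact hCstep n hn0' x (by linarith [hx.trans h1, hS.pos n])
  have hfin := hmain (K - n0) n0 (by omega) le_rfl
  rw [min_eq_left hK] at hfin
  refine ⟨τ n0, ⟨hS.pos n0, hS.lt n0⟩, fun x => ?_⟩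
  -- periodicity
  have hpi := Real.pi_pos
  have hperi : Function.Periodic (F (τ n0)) (2 * Real.pi) := hper (τ n0)
  obtain ⟨k, hk⟩ : ∃ k : ℤ, |x - k * (2 * Real.pi) - x0| ≤ Real.pi := by
    refine ⟨round ((x - x0) / (2 * Real.pi)), ?_⟩
    have h1 := abs_sub_round ((x - x0) / (2 * Real.pi))
    have h2 : x - (round ((x - x0) / (2 * Real.pi)) : ℝ) * (2 * Real.pi) - x0 =
        ((x - x0) / (2 * Real.pi) - round ((x - x0) / (2 * Real.pi))) * (2 * Real.pi) := by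
      field_simp
      ring
    rw [h2, abs_mul, abs_of_pos (by positivity : (0 : ℝ) < 2 * Real.pi)]
    nlinarith
  have h1 : F (τ n0) ((x : ℂ) + ((τ n0 / 4 : ℝ) : ℂ) * I) =
      F (τ n0) (((x - k * (2 * Real.pi) : ℝ) : ℂ) + ((τ n0 / 4 : ℝ) : ℂ) * I) := by
    have h2 := hperi.int_mul k (((x - k * (2 * Real.pi) : ℝ) : ℂ) + ((τ n0 / 4 : ℝ) : ℂ) * I)
    rw [← h2]
    congr 1
    push_cast
    ring
  rw [h1]
  refine (hfin _ hk).trans ?_
  have h2 : Real.exp (-(κ / 2 * H n0)) ≤ ε :=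
    (Real.exp_le_exp.2 (by nlinarith [hS.H0le n0])).trans hH3
  have h3 : Real.exp (-(κ / 2 * H n0)) ≤ τ n0 ^ A := by
    calc Real.exp (-(κ / 2 * H n0)) ≤ Real.exp (A * (-(c2 * H n0))) := by
          apply Real.exp_le_exp.2
          nlinarith [mul_le_mul_of_nonneg_right hAc2 (hHpos n0).le]
      _ = Real.exp (-(c2 * H n0)) ^ A := by rw [Real.exp_nat_mul]
      _ ≤ τ n0 ^ A := pow_le_pow_left₀ (Real.exp_pos _).le (hS.low n0) A
  calc Real.exp (-(κ * H n0)) = Real.exp (-(κ / 2 * H n0)) * Real.exp (-(κ / 2 * H n0)) := by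
        rw [← Real.exp_add]; congr 1; ring
    _ ≤ ε * τ n0 ^ A := mul_le_mul h2 h3 (Real.exp_pos _).le hε.le


end Pool.Agent.Helper265.Br
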