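import Mathlib

set_option autoImplicit false
open Complex Set Filter Metric Topology MeasureTheory
open scoped ENNReal

namespace Pool.Agent.Helper265.Br

theorem CT_diff {g : ℂ → ℂ} {A : Set ℂ} (hA : MeasurableSet A) (hg : IntegrableOn g A) :
    DifferentiableOn ℂ (fun z => ∫ ζ in A, g ζ / (ζ - z)) (closure A)ᶜ := by
  intro z0 hz0
  obtain ⟨ε, hε, hball⟩ := Metric.isOpen_iff.mp isClosed_closure.isOpen_compl z0 hz0
  set r := ε / 2 with hr
  have hr0 : 0 < r := by positivity
  have hgm : AEStronglyMeasurable g (volume.restrict A) := hg.aestronglyMeasurable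
  have hlow : ∀ ζ ∈ A, ∀ z ∈ ball z0 r, r ≤ ‖ζ - z‖ := by
    intro ζ hζ z hz
    by_contra hcon
    push Not at hcon
    have h1 : ζ ∈ ball z0 ε := by
      rw [mem_ball, dist_eq_norm] at hz ⊢
      calc ‖ζ - z0‖ = ‖(ζ - z) + (z - z0)‖ := by ring_nf
        _ ≤ ‖ζ - z‖ + ‖z - z0‖ := norm_add_le _ _
        _ < r + r := by linarith
        _ = ε := by rw [hr]; ring
    exact hball h1 (subset_closure hζ)
  have hmeas1 : ∀ z : ℂ, AEStronglyMeasurable (fun ζ => g ζ / (ζ - z)) (volume.restrict A) := by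
    intro z
    have : AEStronglyMeasurable (fun ζ : ℂ => (ζ - z)⁻¹) (volume.restrict A) :=
      ((measurable_id.sub_const z).inv).aestronglyMeasurable
    simp only [div_eq_mul_inv]
    exact hgm.mul this
  have hmeas2 : AEStronglyMeasurable (fun ζ => g ζ / (ζ - z0) ^ 2) (volume.restrict A) := by
    have : AEStronglyMeasurable (fun ζ : ℂ => ((ζ - z0) ^ 2)⁻¹) (volume.restrict A) :=
      (((measurable_id.sub_const z0).pow_const 2).inv).aestronglyMeasurable
    simp only [div_eq_mul_inv]
    exact hgm.mul this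
  have hint : Integrable (fun ζ => g ζ / (ζ - z0)) (volume.restrict A) := by
    refine Integrable.mono' (hg.norm.mul_const (r⁻¹)) (hmeas1 z0) ?_
    refine (ae_restrict_iff' hA).mpr (Eventually.of_forall ?_)
    intro ζ hζ
    have h1 := hlow ζ hζ z0 (mem_ball_self hr0)
    rw [norm_div, div_eq_mul_inv]
    gcongr
  have key := hasDerivAt_integral_of_dominated_loc_of_deriv_le (μ := volume.restrict A)
    (F := fun z ζ => g ζ / (ζ - z)) (F' := fun z ζ => g ζ / (ζ - z) ^ 2) (x₀ := z0)
    (s := ball z0 r) (bound := fun ζ => ‖g ζ‖ * (r ^ 2)⁻¹) (ball_mem_nhds z0 hr0)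
    (Eventually.of_forall hmeas1) hint hmeas2 ?_ (hg.norm.mul_const _) ?_
  · exact key.2.differentiableAt.differentiableWithinAt
  · refine (ae_restrict_iff' hA).mpr (Eventually.of_forall ?_)
    intro ζ hζ z hz
    have h1 := hlow ζ hζ z hz
    rw [norm_div, norm_pow, div_eq_mul_inv]
    gcongr
  · refine (ae_restrict_iff' hA).mpr (Eventually.of_forall ?_)
    intro ζ hζ z hz
    have h1 := hlow ζ hζ z hz
    have hne : ζ - z ≠ 0 := by
      intro h
      rw [h, norm_zero] at h1
      linarith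
    have h2 : HasDerivAt (fun x : ℂ => ζ - x) (-1) z := by
      simpa using (hasDerivAt_id z).const_sub ζ
    have h3 := (h2.inv hne).const_mul (g ζ)
    have e1 : (fun x : ℂ => g ζ / (ζ - x)) = fun x : ℂ => g ζ * (ζ - x)⁻¹ := by
      funext x; rw [div_eq_mul_inv]
    rw [e1]
    have e2 : g ζ / (ζ - z) ^ 2 = g ζ * (- -1 / (ζ - z) ^ 2) := by
      rw [neg_neg]; ring
    rw [e2]
    exact h3

theorem vanish {g : ℂ → ℂ} {K V : Set ℂ} (hK : IsCompact K) (hg : IntegrableOn g K)
    (hpoly : ∀ P : Polynomial ℂ, ∫ ζ in K, g ζ * P.eval ζ = 0) (hVo : IsOpen V)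
    (hV : IsConnected V) (hVK : Disjoint V K) (hVu : ¬ Bornology.IsBounded V) :
    ∀ w ∈ V, ∫ ζ in K, g ζ / (ζ - w) = 0 := by
  have hKm : MeasurableSet K := hK.isClosed.measurableSet
  have hcl : closure K = K := hK.isClosed.closure_eq
  have hdiff := CT_diff hKm hg
  rw [hcl] at hdiff
  have hVsub : V ⊆ Kᶜ := fun x hx hxK => hVK.le_bot ⟨hx, hxK⟩
  have han : AnalyticOnNhd ℂ (fun z => ∫ ζ in K, g ζ / (ζ - z)) V :=
    (hdiff.mono hVsub).analyticOnNhd hVo
  obtain ⟨R, hR⟩ := hK.isBounded.subset_closedBall 0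
  have hfar : ∀ w : ℂ, 2 * |R| + 1 < ‖w‖ → ∫ ζ in K, g ζ / (ζ - w) = 0 := by
    intro w hw
    have hR0 : 0 ≤ |R| := abs_nonneg R
    have hwpos : 0 < ‖w‖ := by linarith
    have hw0 : w ≠ 0 := norm_pos_iff.mp hwpos
    let P : ℕ → Polynomial ℂ := fun n =>
      ∑ j ∈ Finset.range n, Polynomial.C (-(w⁻¹) ^ (j + 1)) * Polynomial.X ^ j
    have hPev : ∀ n ζ, (P n).eval ζ = -w⁻¹ * ∑ j ∈ Finset.range n, (ζ * w⁻¹) ^ j := by
      intro n ζ
      simp only [P, Polynomial.eval_finsetSum, Polynomial.eval_mul, Polynomial.eval_C,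
        Polynomial.eval_pow, Polynomial.eval_X, Finset.mul_sum]
      refine Finset.sum_congr rfl ?_
      intro j _
      rw [mul_pow]; ring
    have hhalf : ∀ ζ ∈ K, ‖ζ * w⁻¹‖ ≤ 1 / 2 := by
      intro ζ hζ
      have h1 : ‖ζ‖ ≤ |R| := by
        have := hR hζ
        rw [mem_closedBall, dist_zero_right] at this
        exact this.trans (le_abs_self R)
      rw [norm_mul, norm_inv, ← div_eq_mul_inv, div_le_iff₀ hwpos]
      linarith
    have hmeasg : AEStronglyMeasurable g (volume.restrict K) := hg.aestronglyMeasurable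
    have hlim := tendsto_integral_of_dominated_convergence (μ := volume.restrict K)
      (F := fun n ζ => g ζ * (P n).eval ζ) (f := fun ζ => g ζ / (ζ - w))
      (fun ζ => ‖g ζ‖ * (‖w⁻¹‖ * 2)) ?_ (hg.norm.mul_const _) ?_ ?_
    · have h0 : (fun n => ∫ ζ in K, g ζ * (P n).eval ζ) = fun _ => (0 : ℂ) := by
        funext n; exact hpoly (P n)
      rw [h0] at hlim
      exact (tendsto_nhds_unique tendsto_const_nhds hlim).symm
    · intro n
      exact hmeasg.mul (P n).continuous.aestronglyMeasurable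
    · intro n
      refine (ae_restrict_iff' hKm).mpr (Eventually.of_forall ?_)
      intro ζ hζ
      have hh := hhalf ζ hζ
      rw [norm_mul, hPev, norm_mul, norm_neg]
      gcongr
      calc ‖∑ j ∈ Finset.range n, (ζ * w⁻¹) ^ j‖ ≤ ∑ j ∈ Finset.range n, ‖(ζ * w⁻¹) ^ j‖ :=
            norm_sum_le _ _
        _ ≤ ∑ j ∈ Finset.range n, (1 / 2 : ℝ) ^ j := by
            refine Finset.sum_le_sum ?_
            intro j _
            rw [norm_pow]
            exact pow_le_pow_left₀ (norm_nonneg _) hh j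
        _ ≤ 2 := by
            have := Summable.sum_le_tsum (Finset.range n) (fun j _ => by positivity)
              (summable_geometric_two)
            rwa [tsum_geometric_two] at this
    · refine (ae_restrict_iff' hKm).mpr (Eventually.of_forall ?_)
      intro ζ hζ
      have hh := hhalf ζ hζ
      have hlt : ‖ζ * w⁻¹‖ < 1 := by linarith
      have hs := (hasSum_geometric_of_norm_lt_one hlt).tendsto_sum_nat
      have h2 := (hs.const_mul (-w⁻¹)).const_mul (g ζ)
      have e : g ζ / (ζ - w) = g ζ * (-w⁻¹ * (1 - ζ * w⁻¹)⁻¹) := by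
        have hne : (1 - ζ * w⁻¹) ≠ 0 := by
          intro h
          have : ζ * w⁻¹ = 1 := (sub_eq_zero.mp h).symm
          rw [this] at hlt
          simp at hlt
        have hne2 : ζ - w ≠ 0 := by
          intro h
          apply hne
          have : ζ = w := sub_eq_zero.mp h
          rw [this, mul_inv_cancel₀ hw0, sub_self]
        have e3 : ζ - w = -w * (1 - ζ * w⁻¹) := by
          field_simp
          ring
        rw [div_eq_mul_inv, e3, mul_inv, neg_inv]
      rw [e]
      have e4 : (fun n => g ζ * (P n).eval ζ) =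
          fun n => g ζ * (-w⁻¹ * ∑ j ∈ Finset.range n, (ζ * w⁻¹) ^ j) := by
        funext n; rw [hPev]
      rw [e4]
      exact h2
  have hex : ∃ w0 ∈ V, 2 * |R| + 1 < ‖w0‖ := by
    by_contra hcon
    push Not at hcon
    apply hVu
    refine (isBounded_closedBall (x := (0 : ℂ)) (r := 2 * |R| + 1)).subset ?_
    intro x hx
    rw [mem_closedBall, dist_zero_right]
    exact hcon x hx
  obtain ⟨w0, hw0V, hw0⟩ := hex
  have hev : (fun z => ∫ ζ in K, g ζ / (ζ - z)) =ᶠ[𝓝 w0] 0 := by
    have hopen : IsOpen {z : ℂ | 2 * |R| + 1 < ‖z‖} := isOpen_lt continuous_const continuous_norm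
    filter_upwards [hopen.mem_nhds hw0] with z hz
    exact hfar z hz
  exact han.eqOn_zero_of_preconnected_of_eventuallyEq_zero hV.isPreconnected hw0V hev


end Pool.Agent.Helper265.Br
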