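import Mathlib
import Pool.Agent.Helper265.BrK
import Pool.Agent.Helper265.BrN

set_option autoImplicit false
open Complex Set Filter Metric Topology MeasureTheory
open scoped ENNReal

namespace Pool.Agent.Helper265.Br

/-- image of the disc of radius `e^{-t}` -/
def Om (ψ : ℂ → ℂ) (t : ℝ) : Set ℂ := ψ '' ball 0 (Real.exp (-t))

/-- Cauchy transform of `g` restricted to `Om ψ t`, in logarithmic disc coordinates -/
noncomputable def FF (ψ g : ℂ → ℂ) (t : ℝ) (z : ℂ) : ℂ :=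
  ∫ ζ in Om ψ t, g ζ / (ζ - ψ (exp (z * I)))


lemma norm_exp_mul_I (z : ℂ) : ‖exp (z * I)‖ = Real.exp (-z.im) := by
  rw [Complex.norm_exp]
  simp

theorem isOpen_Om {ψ : ℂ → ℂ} (hd : DifferentiableOn ℂ ψ (ball 0 1)) (hi : InjOn ψ (ball 0 1))
    {t : ℝ} (ht : 0 ≤ t) : IsOpen (Om ψ t) := by
  apply isOpen_image isOpen_ball hd hi isOpen_ball
  apply ball_subset_ball
  rw [← Real.exp_zero]
  exact Real.exp_le_exp.mpr (by linarith)

theorem Om_mono {ψ : ℂ → ℂ} {s t : ℝ} (h : s ≤ t) : Om ψ t ⊆ Om ψ s := by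
  apply image_mono
  apply ball_subset_ball
  exact Real.exp_le_exp.mpr (by linarith)

theorem FF_diff {ψ g : ℂ → ℂ} (hd : DifferentiableOn ℂ ψ (ball 0 1)) (hi : InjOn ψ (ball 0 1))
    (hg : Integrable g) {t : ℝ} (ht : 0 < t) :
    DifferentiableOn ℂ (FF ψ g t) {z : ℂ | 0 < z.im ∧ z.im < t} := by
  have hO : IsOpen (Om ψ t) := isOpen_Om hd hi ht.le
  have h1 := CT_diff (g := g) hO.measurableSet hg.integrableOn
  have het : Real.exp (-t) < 1 := by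
    rw [← Real.exp_zero]; exact Real.exp_lt_exp.mpr (by linarith)
  have hsub : closedBall (0 : ℂ) (Real.exp (-t)) ⊆ ball 0 1 := closedBall_subset_ball het
  have hcl : closure (Om ψ t) ⊆ ψ '' closedBall 0 (Real.exp (-t)) := by
    apply closure_minimal (image_mono ball_subset_closedBall)
    exact ((isCompact_closedBall _ _).image_of_continuousOn (hd.continuousOn.mono hsub)).isClosed
  have hexp : Differentiable ℂ (fun z : ℂ => exp (z * I)) := by fun_prop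
  have hmem : ∀ z ∈ {z : ℂ | 0 < z.im ∧ z.im < t}, exp (z * I) ∈ ball (0 : ℂ) 1 := by
    intro z hz
    rw [mem_ball_zero_iff, norm_exp_mul_I, ← Real.exp_zero]
    exact Real.exp_lt_exp.mpr (by linarith [hz.1])
  have h2 : DifferentiableOn ℂ (fun z : ℂ => ψ (exp (z * I))) {z : ℂ | 0 < z.im ∧ z.im < t} :=
    hd.comp hexp.differentiableOn hmem
  have h3 : MapsTo (fun z : ℂ => ψ (exp (z * I))) {z : ℂ | 0 < z.im ∧ z.im < t} (closure (Om ψ t))ᶜ := by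
    intro z hz hzc
    obtain ⟨ξ, hξ, hξz⟩ := hcl hzc
    have heq : ξ = exp (z * I) := hi (hsub hξ) (hmem z hz) hξz
    rw [heq, mem_closedBall_zero_iff, norm_exp_mul_I, Real.exp_le_exp] at hξ
    linarith [hz.2]
  exact h1.comp h2 h3

theorem FF_per {ψ g : ℂ → ℂ} (t : ℝ) (z : ℂ) : FF ψ g t (z + 2 * Real.pi) = FF ψ g t z := by
  unfold FF
  have : exp ((z + 2 * Real.pi) * I) = exp (z * I) := by
    rw [add_mul, Complex.exp_add, Complex.exp_two_pi_mul_I, mul_one]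
  rw [this]

theorem FF_bound {ψ g : ℂ → ℂ} (hi : InjOn ψ (ball 0 1))
    (hsep : ∃ (c : ℝ) (N : ℕ), 0 < c ∧ ∀ t ∈ Ioc (0 : ℝ) 1, ∀ ξ : ℂ, ‖ξ‖ ≤ Real.exp (-t) →
      ∀ a : ℂ, a ∉ ψ '' ball 0 (Real.exp (-(t / 2))) → c * t ^ N ≤ ‖ψ ξ - a‖)
    (hg : Integrable g) :
    ∃ (C : ℝ) (N : ℕ), 0 < C ∧ ∀ t ∈ Ioc (0 : ℝ) 1, ∀ z : ℂ, 0 < z.im → z.im ≤ t / 2 →
      ‖FF ψ g t z‖ * t ^ N ≤ C := by
  obtain ⟨c, N, hc, hsep⟩ := hsep
  have hG0 : 0 ≤ ∫ ζ, ‖g ζ‖ := integral_nonneg (fun _ => norm_nonneg _)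
  refine ⟨(∫ ζ, ‖g ζ‖) / c + 1, N, by positivity, fun t ht z hz hzt => ?_⟩
  have ht0 : 0 < t := ht.1
  set a : ℂ := ψ (exp (z * I)) with ha
  have hanot : a ∉ ψ '' ball 0 (Real.exp (-(t / 2))) := by
    rintro ⟨ξ, hξ, hξz⟩
    have h1 : ξ ∈ ball (0 : ℂ) 1 := by
      apply ball_subset_ball _ hξ
      rw [← Real.exp_zero]
      exact Real.exp_le_exp.mpr (by linarith)
    have h2 : exp (z * I) ∈ ball (0 : ℂ) 1 := by
      rw [mem_ball_zero_iff, norm_exp_mul_I, ← Real.exp_zero]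
      exact Real.exp_lt_exp.mpr (by linarith)
    have heq : ξ = exp (z * I) := hi h1 h2 hξz
    rw [heq, mem_ball_zero_iff, norm_exp_mul_I, Real.exp_lt_exp] at hξ
    linarith
  have hclosed : MeasurableSet {ζ : ℂ | c * t ^ N ≤ ‖ζ - a‖} :=
    (isClosed_le continuous_const (by fun_prop)).measurableSet
  have hae : ∀ᵐ ζ ∂(volume.restrict (Om ψ t)), c * t ^ N ≤ ‖ζ - a‖ := by
    rw [ae_restrict_iff hclosed]
    apply Filter.Eventually.of_forall
    rintro ζ ⟨ξ, hξ, rfl⟩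
    rw [mem_ball_zero_iff] at hξ
    exact hsep t ht ξ hξ.le a hanot
  have hct : 0 < c * t ^ N := by positivity
  have hb : ‖FF ψ g t z‖ ≤ ∫ ζ in Om ψ t, ‖g ζ‖ / (c * t ^ N) := by
    unfold FF
    apply norm_integral_le_of_norm_le
    · exact (hg.norm.div_const _).integrableOn
    · filter_upwards [hae] with ζ hζ
      rw [norm_div]
      exact div_le_div_of_nonneg_left (norm_nonneg _) hct hζ
  have hb2 : ∫ ζ in Om ψ t, ‖g ζ‖ / (c * t ^ N) ≤ (∫ ζ, ‖g ζ‖) / (c * t ^ N) := by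
    rw [integral_div]
    apply div_le_div_of_nonneg_right _ hct.le
    exact setIntegral_le_integral hg.norm (Filter.Eventually.of_forall fun _ => norm_nonneg _)
  have hb3 : ‖FF ψ g t z‖ ≤ (∫ ζ, ‖g ζ‖) / (c * t ^ N) := hb.trans hb2
  have htN : 0 < t ^ N := by positivity
  calc ‖FF ψ g t z‖ * t ^ N ≤ (∫ ζ, ‖g ζ‖) / (c * t ^ N) * t ^ N :=
        mul_le_mul_of_nonneg_right hb3 htN.le
    _ = (∫ ζ, ‖g ζ‖) / c := by field_simp
    _ ≤ (∫ ζ, ‖g ζ‖) / c + 1 := by linarith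


end Pool.Agent.Helper265.Br
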