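import Mathlib

set_option autoImplicit false
open Complex Set Filter Metric Topology MeasureTheory
open scoped ENNReal

namespace Pool.Agent.Helper265.Br

/-- local integrability of negative powers of the norm -/
theorem gr_fin {E : Type*} [NormedAddCommGroup E] [NormedSpace ℝ E] [Nontrivial E]
    [FiniteDimensional ℝ E] [MeasurableSpace E] [BorelSpace E] (μ : Measure E)
    [μ.IsAddHaarMeasure] {s : ℝ} (hs : s < Module.finrank ℝ E) :
    ∫⁻ x in ball (0:E) 1, ‖x‖ₑ ^ (-s) ∂μ < ⊤ := by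
  have h1 : IntegrableOn (fun x : E => ‖x‖ ^ (-s)) (ball 0 1) μ := by
    rw [integrableOn_fun_norm_addHaar μ (f := fun y : ℝ => y ^ (-s))]
    have h2 : IntegrableOn (fun y : ℝ => y ^ ((Module.finrank ℝ E : ℝ) - 1 - s)) (Ioo 0 1) := by
      have h3 := (intervalIntegral.intervalIntegrable_rpow' (a := 0) (b := 1)
        (r := (Module.finrank ℝ E : ℝ) - 1 - s) (by linarith))
      rw [intervalIntegrable_iff_integrableOn_Ioo_of_le zero_le_one] at h3
      exact h3
    refine h2.congr_fun ?_ measurableSet_Ioo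
    intro y hy
    have hpos : 0 < Module.finrank ℝ E := Module.finrank_pos
    show y ^ ((Module.finrank ℝ E : ℝ) - 1 - s) = y ^ (Module.finrank ℝ E - 1) • y ^ (-s)
    rw [smul_eq_mul, ← Real.rpow_natCast, ← Real.rpow_add hy.1]
    congr 1
    rw [Nat.cast_sub (by omega)]
    push_cast
    ring
  have h2 := h1.2
  rw [hasFiniteIntegral_iff_enorm] at h2
  refine lt_of_le_of_lt (le_of_eq ?_) h2
  apply lintegral_congr_ae
  have h0 : ∀ᵐ x ∂(μ.restrict (ball (0:E) 1)), x ≠ 0 := by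
    apply ae_restrict_of_ae
    rw [ae_iff]
    simp
  filter_upwards [h0] with x hx
  have hx' : 0 < ‖x‖ := norm_pos_iff.2 hx
  rw [← ofReal_norm, ENNReal.ofReal_rpow_of_pos hx', ← ofReal_norm,
    Real.norm_of_nonneg (Real.rpow_nonneg hx'.le _)]

theorem gr_meas {α : Type*} [MeasurableSpace α] {f : α → ℂ} (hf : Measurable f) (s : ℝ) :
    Measurable (fun x => ‖f x‖ₑ ^ s) := hf.enorm.pow_const s

/-- one-dimensional bound, uniform in the centre -/
theorem gr_one {a : ℝ} (ha0 : 0 < a) (d : ℝ) (hd1 : d ≤ 1) (x : ℝ) :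
    ∫⁻ r in Ioo 0 d, ‖x - r‖ₑ ^ (-a) ≤ (∫⁻ t in ball (0:ℝ) 1, ‖t‖ₑ ^ (-a)) + 1 := by
  calc ∫⁻ r in Ioo 0 d, ‖x - r‖ₑ ^ (-a)
      ≤ ∫⁻ r in Ioo 0 d, ((ball x 1).indicator (fun r => ‖x - r‖ₑ ^ (-a)) r + 1) := by
        apply lintegral_mono
        intro r
        beta_reduce
        by_cases h : r ∈ ball x 1
        · rw [indicator_of_mem h]
          exact le_self_add
        · rw [indicator_of_notMem h, zero_add]
          rw [mem_ball, not_lt, dist_comm, dist_eq_norm] at h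
          show ‖x - r‖ₑ ^ (-a) ≤ 1
          apply ENNReal.rpow_le_one_of_one_le_of_neg
          · rw [← ofReal_norm, ← ENNReal.ofReal_one]
            exact ENNReal.ofReal_le_ofReal h
          · linarith
    _ = (∫⁻ r in Ioo 0 d, (ball x 1).indicator (fun r => ‖x - r‖ₑ ^ (-a)) r) +
          volume (Ioo 0 d) := by
        rw [lintegral_add_right _ measurable_const, setLIntegral_one]
    _ ≤ _ := by
        apply add_le_add
        · calc ∫⁻ r in Ioo 0 d, (ball x 1).indicator (fun r => ‖x - r‖ₑ ^ (-a)) r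
              ≤ ∫⁻ r, (ball x 1).indicator (fun r => ‖x - r‖ₑ ^ (-a)) r :=
                setLIntegral_le_lintegral _ _
            _ = ∫⁻ r, (ball (0:ℝ) 1).indicator (fun t => ‖t‖ₑ ^ (-a)) (x - r) := by
                apply lintegral_congr
                intro r
                by_cases h : r ∈ ball x 1
                · rw [indicator_of_mem h, indicator_of_mem]
                  rw [mem_ball, dist_comm, dist_eq_norm] at h
                  rwa [mem_ball, dist_zero_right]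
                · rw [indicator_of_notMem h, indicator_of_notMem]
                  rw [mem_ball, dist_comm, dist_eq_norm] at h
                  rwa [mem_ball, dist_zero_right]
            _ = ∫⁻ r, (ball (0:ℝ) 1).indicator (fun t => ‖t‖ₑ ^ (-a)) r :=
                lintegral_sub_left_eq_self _ x
            _ = _ := lintegral_indicator measurableSet_ball _
        · rw [Real.volume_Ioo, sub_zero, ← ENNReal.ofReal_one]
          exact ENNReal.ofReal_le_ofReal hd1

/-- two-dimensional bound, uniform in the centre -/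
theorem gr_two {s : ℝ} (hs0 : 0 < s) (R : ℝ) (w : ℂ) :
    ∫⁻ ζ in ball (0:ℂ) R, ‖ζ - w‖ₑ ^ (-s) ≤
      (∫⁻ t in ball (0:ℂ) 1, ‖t‖ₑ ^ (-s)) + volume (ball (0:ℂ) R) := by
  calc ∫⁻ r in ball (0:ℂ) R, ‖r - w‖ₑ ^ (-s)
      ≤ ∫⁻ r in ball (0:ℂ) R, ((ball w 1).indicator (fun r => ‖r - w‖ₑ ^ (-s)) r + 1) := by
        apply lintegral_mono
        intro r
        beta_reduce
        by_cases h : r ∈ ball w 1
        · rw [indicator_of_mem h]
          exact le_self_add
        · rw [indicator_of_notMem h, zero_add]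
          rw [mem_ball, not_lt, dist_eq_norm] at h
          show ‖r - w‖ₑ ^ (-s) ≤ 1
          apply ENNReal.rpow_le_one_of_one_le_of_neg
          · rw [← ofReal_norm, ← ENNReal.ofReal_one]
            exact ENNReal.ofReal_le_ofReal h
          · linarith
    _ = (∫⁻ r in ball (0:ℂ) R, (ball w 1).indicator (fun r => ‖r - w‖ₑ ^ (-s)) r) +
          volume (ball (0:ℂ) R) := by
        rw [lintegral_add_right _ measurable_const, setLIntegral_one]
    _ ≤ _ := by
        refine add_le_add ?_ le_rfl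
        calc ∫⁻ r in ball (0:ℂ) R, (ball w 1).indicator (fun r => ‖r - w‖ₑ ^ (-s)) r
              ≤ ∫⁻ r, (ball w 1).indicator (fun r => ‖r - w‖ₑ ^ (-s)) r :=
                setLIntegral_le_lintegral _ _
            _ = ∫⁻ r, (ball (0:ℂ) 1).indicator (fun t => ‖t‖ₑ ^ (-s)) (r - w) := by
                apply lintegral_congr
                intro r
                by_cases h : r ∈ ball w 1
                · rw [indicator_of_mem h, indicator_of_mem]
                  rw [mem_ball, dist_eq_norm] at h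
                  rwa [mem_ball, dist_zero_right]
                · rw [indicator_of_notMem h, indicator_of_notMem]
                  rw [mem_ball, dist_eq_norm] at h
                  rwa [mem_ball, dist_zero_right]
            _ = ∫⁻ r, (ball (0:ℂ) 1).indicator (fun t => ‖t‖ₑ ^ (-s)) r :=
                lintegral_sub_right_eq_self _ w
            _ = _ := lintegral_indicator measurableSet_ball _

/-- pointwise step of the Hoelder argument -/
theorem gr_holder {q a R : ℝ} (hq1 : 1 < q) (ha0 : 0 < a) (haq : a < q) {G : ℂ → ℝ≥0∞}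
    (hG : Measurable G) (hsupp : ∀ ζ, ζ ∉ ball (0 : ℂ) R → G ζ = 0) (z w : ℂ) {r : ℝ}
    (hw : ‖w - z‖ = r) :
    ∫⁻ ζ, G ζ * ‖ζ - w‖ₑ⁻¹ ≤
      (∫⁻ ζ, G ζ ^ q * ‖‖ζ - z‖ - r‖ₑ ^ (-a)) ^ (1 / q) *
      (∫⁻ ζ in ball (0:ℂ) R, ‖ζ - w‖ₑ ^ (-((q - a) / (q - 1)))) ^ (1 / (q / (q - 1))) := by
  have hq0 : 0 < q := by linarith
  have hpq : q.HolderConjugate (q / (q - 1)) := by
    rw [Real.holderConjugate_iff]
    refine ⟨hq1, ?_⟩
    have : q - 1 ≠ 0 := by linarith
    field_simp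
    ring
  have hp0 : 0 < q / (q - 1) := hpq.symm.pos
  have hsub : Measurable (fun ζ : ℂ => ζ - w) := measurable_id.sub_const w
  have hf : Measurable (fun ζ => G ζ * ‖ζ - w‖ₑ ^ (-(a / q))) := hG.mul (gr_meas hsub _)
  have hg : Measurable ((ball (0:ℂ) R).indicator (fun ζ => ‖ζ - w‖ₑ ^ (-(1 - a / q)))) :=
    (gr_meas hsub _).indicator measurableSet_ball
  have h1 := ENNReal.lintegral_mul_le_Lp_mul_Lq volume hpq hf.aemeasurable hg.aemeasurable
  have haq' : a / q < 1 := by rw [div_lt_one hq0]; exact haq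
  refine le_trans ?_ (h1.trans ?_)
  · apply lintegral_mono
    intro ζ
    simp only [Pi.mul_apply]
    by_cases hζ : ζ ∈ ball (0:ℂ) R
    · rw [indicator_of_mem hζ]
      by_cases h0 : ‖ζ - w‖ₑ = 0
      · rw [h0, ENNReal.inv_zero, ENNReal.zero_rpow_of_neg (by
            rw [neg_lt_zero]; positivity), ENNReal.zero_rpow_of_neg (by linarith)]
        rw [mul_assoc, ENNReal.top_mul_top]
      · rw [mul_assoc, ← ENNReal.rpow_add _ _ h0 enorm_ne_top]
        have : -(a / q) + -(1 - a / q) = -1 := by ring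
        rw [this, ENNReal.rpow_neg_one]
    · rw [hsupp ζ hζ, zero_mul]
      exact zero_le
  · apply mul_le_mul'
    · apply ENNReal.rpow_le_rpow _ (by positivity)
      apply lintegral_mono
      intro ζ
      show (G ζ * ‖ζ - w‖ₑ ^ (-(a / q))) ^ q ≤ _
      rw [ENNReal.mul_rpow_of_nonneg _ _ hq0.le, ← ENNReal.rpow_mul]
      have h2 : -(a / q) * q = -a := by field_simp
      rw [h2]
      apply mul_le_mul' le_rfl
      rw [ENNReal.rpow_neg, ENNReal.rpow_neg, ENNReal.inv_le_inv]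
      apply ENNReal.rpow_le_rpow _ ha0.le
      rw [← ofReal_norm, ← ofReal_norm]
      apply ENNReal.ofReal_le_ofReal
      rw [Real.norm_eq_abs, ← hw]
      have h3 := abs_norm_sub_norm_le (ζ - z) (w - z)
      rwa [sub_sub_sub_cancel_right] at h3
    · apply ENNReal.rpow_le_rpow _ (by positivity)
      rw [← lintegral_indicator measurableSet_ball]
      apply lintegral_mono
      intro ζ
      show ((ball (0:ℂ) R).indicator (fun ζ => ‖ζ - w‖ₑ ^ (-(1 - a / q))) ζ) ^ (q / (q - 1)) ≤ _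
      by_cases hζ : ζ ∈ ball (0:ℂ) R
      · rw [indicator_of_mem hζ, indicator_of_mem hζ, ← ENNReal.rpow_mul]
        apply le_of_eq
        congr 1
        have : q - 1 ≠ 0 := by linarith
        field_simp
      · rw [indicator_of_notMem hζ, indicator_of_notMem hζ, ENNReal.zero_rpow_of_pos hp0]

theorem good_radii {q R : ℝ} (hq1 : 1 < q) (hq2 : q < 2) (hR : 0 < R) :
    ∃ C : ℝ, 0 < C ∧ ∀ (z : ℂ) (d ε : ℝ), 0 < d → d ≤ 1 → 0 < ε →
      ∀ G : ℂ → ℝ≥0∞, Measurable G → (∀ ζ, ζ ∉ ball (0 : ℂ) R → G ζ = 0) →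
      ∫⁻ ζ, G ζ ^ q ≤ ENNReal.ofReal (ε ^ q) →
      ∃ T : Set ℝ, MeasurableSet T ∧ T ⊆ Ioo 0 d ∧ ENNReal.ofReal (d / 2) ≤ volume T ∧
        ∀ r ∈ T, ∀ w : ℂ, ‖w - z‖ = r →
          ∫⁻ ζ, G ζ * ‖ζ - w‖ₑ⁻¹ ≤ ENNReal.ofReal (C * ε / d) := by
  have hq0 : 0 < q := by linarith
  obtain ⟨a, ha⟩ : ∃ a, a = (3 - q) / 2 := ⟨_, rfl⟩
  have ha0 : 0 < a := by rw [ha]; linarith
  have ha1 : a < 1 := by rw [ha]; linarith
  have hβ : (q - a) / (q - 1) = 3 / 2 := by
    have : q - 1 ≠ 0 := by linarith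
    rw [ha]; field_simp; ring
  have hJ1 : ∫⁻ t in ball (0:ℝ) 1, ‖t‖ₑ ^ (-a) < ⊤ :=
    gr_fin (E := ℝ) volume (by rw [Module.finrank_self]; exact_mod_cast ha1)
  have hJ2 : ∫⁻ t in ball (0:ℂ) 1, ‖t‖ₑ ^ (-(3 / 2 : ℝ)) < ⊤ :=
    gr_fin (E := ℂ) volume (by rw [Complex.finrank_real_complex]; norm_num)
  have hvol : volume (ball (0:ℂ) R) < ⊤ := measure_ball_lt_top
  obtain ⟨K, hK⟩ : ∃ K, K = (∫⁻ t in ball (0:ℝ) 1, ‖t‖ₑ ^ (-a)).toReal + 1 := ⟨_, rfl⟩
  obtain ⟨K2, hK2⟩ : ∃ K2, K2 = (∫⁻ t in ball (0:ℂ) 1, ‖t‖ₑ ^ (-(3 / 2 : ℝ))).toReal +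
    (volume (ball (0:ℂ) R)).toReal + 1 := ⟨_, rfl⟩
  have hK0 : 0 < K := by rw [hK]; positivity
  have hK20 : 0 < K2 := by rw [hK2]; positivity
  have hKe : (∫⁻ t in ball (0:ℝ) 1, ‖t‖ₑ ^ (-a)) + 1 = ENNReal.ofReal K := by
    rw [hK, ENNReal.ofReal_add ENNReal.toReal_nonneg zero_le_one, ENNReal.ofReal_toReal hJ1.ne,
      ENNReal.ofReal_one]
  have hK2e : (∫⁻ t in ball (0:ℂ) 1, ‖t‖ₑ ^ (-(3 / 2 : ℝ))) + volume (ball (0:ℂ) R) ≤
      ENNReal.ofReal K2 := by
    rw [hK2, ENNReal.ofReal_add (by positivity) zero_le_one,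
      ENNReal.ofReal_add ENNReal.toReal_nonneg ENNReal.toReal_nonneg,
      ENNReal.ofReal_toReal hJ2.ne, ENNReal.ofReal_toReal hvol.ne]
    exact le_self_add
  refine ⟨(2 * K) ^ (1 / q) * K2 ^ (1 / (q / (q - 1))), by positivity, ?_⟩
  intro z d ε hd hd1 hε G hG hsupp hGint
  -- H
  let H : ℝ → ℝ≥0∞ := fun r => ∫⁻ ζ, G ζ ^ q * ‖‖ζ - z‖ - r‖ₑ ^ (-a)
  have hmeas2 : Measurable (fun p : ℝ × ℂ => G p.2 ^ q * ‖‖p.2 - z‖ - p.1‖ₑ ^ (-a)) := by
    apply Measurable.mul
    · exact (hG.comp measurable_snd).pow_const q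
    · apply Measurable.pow_const
      apply Measurable.enorm
      exact ((measurable_snd.sub_const z).norm).sub measurable_fst
  have hH : Measurable H := Measurable.lintegral_prod_right' hmeas2
  have hHint : ∫⁻ r in Ioo 0 d, H r ≤ ENNReal.ofReal K * ENNReal.ofReal (ε ^ q) := by
    have h1 : ∫⁻ r in Ioo 0 d, H r =
        ∫⁻ ζ, ∫⁻ r in Ioo 0 d, G ζ ^ q * ‖‖ζ - z‖ - r‖ₑ ^ (-a) := by
      exact lintegral_lintegral_swap hmeas2.aemeasurable
    rw [h1]
    calc ∫⁻ ζ, ∫⁻ r in Ioo 0 d, G ζ ^ q * ‖‖ζ - z‖ - r‖ₑ ^ (-a)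
        ≤ ∫⁻ ζ, G ζ ^ q * ENNReal.ofReal K := by
          apply lintegral_mono
          intro ζ
          show ∫⁻ r in Ioo 0 d, G ζ ^ q * ‖‖ζ - z‖ - r‖ₑ ^ (-a) ≤ _
          rw [lintegral_const_mul]
          · apply mul_le_mul' le_rfl
            rw [← hKe]
            exact gr_one ha0 d hd1 _
          · apply Measurable.pow_const
            apply Measurable.enorm
            exact measurable_const.sub measurable_id
      _ = (∫⁻ ζ, G ζ ^ q) * ENNReal.ofReal K := lintegral_mul_const _ (hG.pow_const q)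
      _ ≤ ENNReal.ofReal (ε ^ q) * ENNReal.ofReal K := mul_le_mul' hGint le_rfl
      _ = _ := mul_comm _ _
  obtain ⟨A, hA⟩ : ∃ A, A = 2 * K * ε ^ q / d := ⟨_, rfl⟩
  have hεq : 0 < ε ^ q := Real.rpow_pos_of_pos hε q
  have hA0 : 0 < A := by rw [hA]; positivity
  refine ⟨Ioo 0 d ∩ {r | H r ≤ ENNReal.ofReal A},
    measurableSet_Ioo.inter (measurableSet_le hH measurable_const), inter_subset_left, ?_, ?_⟩
  · have hM := mul_meas_ge_le_lintegral (μ := volume.restrict (Ioo 0 d)) hH (ENNReal.ofReal A)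
    have h1 : ENNReal.ofReal A * (volume.restrict (Ioo 0 d)) {r | ENNReal.ofReal A ≤ H r} ≤
        ENNReal.ofReal A * ENNReal.ofReal (d / 2) := by
      refine hM.trans (hHint.trans (le_of_eq ?_))
      rw [← ENNReal.ofReal_mul hK0.le, ← ENNReal.ofReal_mul hA0.le]
      congr 1
      rw [hA]; field_simp
    have h2 := (ENNReal.mul_le_mul_iff_right (ENNReal.ofReal_pos.2 hA0).ne' ENNReal.ofReal_ne_top).1 h1
    rw [Measure.restrict_apply (measurableSet_le measurable_const hH)] at h2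
    have h3 : Ioo 0 d ⊆ (Ioo 0 d ∩ {r | H r ≤ ENNReal.ofReal A}) ∪
        ({r | ENNReal.ofReal A ≤ H r} ∩ Ioo 0 d) := by
      intro r hr
      rcases le_total (H r) (ENNReal.ofReal A) with h | h
      · left; exact ⟨hr, h⟩
      · right; exact ⟨h, hr⟩
    have h4 := (measure_mono h3).trans (measure_union_le (μ := volume) _ _)
    rw [Real.volume_Ioo, sub_zero] at h4
    have h5 : ENNReal.ofReal d = ENNReal.ofReal (d / 2) + ENNReal.ofReal (d / 2) := by
      rw [← ENNReal.ofReal_add (by linarith) (by linarith), add_halves]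
    rw [h5] at h4
    have h6 := h4.trans (add_le_add le_rfl h2)
    exact (ENNReal.add_le_add_iff_right ENNReal.ofReal_ne_top).1 h6
  · rintro r ⟨hr, hHr⟩ w hw
    refine (gr_holder hq1 ha0 (by linarith) hG hsupp z w hw).trans ?_
    rw [hβ]
    have h1 : (∫⁻ ζ, G ζ ^ q * ‖‖ζ - z‖ - r‖ₑ ^ (-a)) ^ (1 / q) ≤
        ENNReal.ofReal (A ^ (1 / q)) := by
      rw [← ENNReal.ofReal_rpow_of_pos hA0]
      exact ENNReal.rpow_le_rpow hHr (by positivity)
    have h2 : (∫⁻ ζ in ball (0:ℂ) R, ‖ζ - w‖ₑ ^ (-(3 / 2 : ℝ))) ^ (1 / (q / (q - 1))) ≤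
        ENNReal.ofReal (K2 ^ (1 / (q / (q - 1)))) := by
      rw [← ENNReal.ofReal_rpow_of_pos hK20]
      apply ENNReal.rpow_le_rpow ((gr_two (by norm_num) R w).trans hK2e)
      have : 0 < q - 1 := by linarith
      positivity
    refine (mul_le_mul' h1 h2).trans ?_
    rw [← ENNReal.ofReal_mul (by positivity)]
    apply ENNReal.ofReal_le_ofReal
    have h3 : A ^ (1 / q) ≤ (2 * K) ^ (1 / q) * ε / d := by
      have h4 : A = (2 * K) * ε ^ q * d⁻¹ := by rw [hA]; field_simp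
      rw [h4, Real.mul_rpow (by positivity) (by positivity), Real.mul_rpow (by positivity)
        (by positivity), ← Real.rpow_mul hε.le, mul_one_div_cancel hq0.ne', Real.rpow_one, div_eq_mul_inv]
      apply mul_le_mul_of_nonneg_left _ (by positivity)
      have h5 : 1 ≤ d⁻¹ := by rw [one_le_inv₀ hd]; exact hd1
      calc d⁻¹ ^ (1 / q) ≤ d⁻¹ ^ (1:ℝ) :=
            Real.rpow_le_rpow_of_exponent_le h5 (by rw [div_le_one hq0]; linarith)
        _ = d⁻¹ := Real.rpow_one _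
    have hpos : 0 ≤ K2 ^ (1 / (q / (q - 1))) := by positivity
    calc A ^ (1 / q) * K2 ^ (1 / (q / (q - 1))) ≤
        ((2 * K) ^ (1 / q) * ε / d) * K2 ^ (1 / (q / (q - 1))) := mul_le_mul_of_nonneg_right h3 hpos
      _ = (2 * K) ^ (1 / q) * K2 ^ (1 / (q / (q - 1))) * ε / d := by ring


end Pool.Agent.Helper265.Br
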