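import Mathlib

set_option autoImplicit false
open Complex Set Filter Metric Topology MeasureTheory
open scoped ENNReal

namespace Pool.Agent.Helper265.Br

theorem nodes {a b δ : ℝ} (hδ : 0 < δ) : ∀ (n : ℕ) (T : Set ℝ), MeasurableSet T →
    T ⊆ Ioo a b → ENNReal.ofReal (2 * δ * n) < volume T →
    ∃ x : ℕ → ℝ, (∀ i, i ≤ n → x i ∈ T) ∧ ∀ i j, i < j → j ≤ n → δ * ((j : ℝ) - i) ≤ x j - x i := by
  intro n
  induction n with
  | zero =>
    intro T _ _ hT
    have hne : T.Nonempty := by
      rw [Set.nonempty_iff_ne_empty]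
      rintro rfl
      simp at hT
    obtain ⟨t, ht⟩ := hne
    refine ⟨fun _ => t, fun i _ => ht, fun i j hij hj => ?_⟩
    omega
  | succ n ih =>
    intro T hTm hTab hT
    have hne : T.Nonempty := by
      rw [Set.nonempty_iff_ne_empty]
      rintro rfl
      simp at hT
    have hbdd : BddBelow T := ⟨a, fun t ht => (hTab ht).1.le⟩
    obtain ⟨t0, ht0, hlt⟩ : ∃ t0 ∈ T, t0 < sInf T + δ :=
      exists_lt_of_csInf_lt hne (by linarith)
    set T' : Set ℝ := T ∩ Ici (t0 + δ) with hT'
    have hsub : T ⊆ T' ∪ Ico (sInf T) (sInf T + 2 * δ) := by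
      intro t ht
      by_cases h : t0 + δ ≤ t
      · exact Or.inl ⟨ht, h⟩
      · exact Or.inr ⟨csInf_le hbdd ht, by push Not at h; linarith⟩
    have hvol : volume T ≤ volume T' + ENNReal.ofReal (2 * δ) := by
      calc volume T ≤ volume (T' ∪ Ico (sInf T) (sInf T + 2 * δ)) := measure_mono hsub
        _ ≤ volume T' + volume (Ico (sInf T) (sInf T + 2 * δ)) := measure_union_le _ _
        _ = volume T' + ENNReal.ofReal (2 * δ) := by rw [Real.volume_Ico]; congr 2; ring
    have hT'vol : ENNReal.ofReal (2 * δ * n) < volume T' := by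
      have h1 : ENNReal.ofReal (2 * δ * ((n + 1 : ℕ) : ℝ)) =
          ENNReal.ofReal (2 * δ * n) + ENNReal.ofReal (2 * δ) := by
        rw [← ENNReal.ofReal_add (by positivity) (by positivity)]
        congr 1
        push_cast
        ring
      rw [h1] at hT
      exact lt_of_add_lt_add_right (hT.trans_le hvol)
    obtain ⟨x', hx', hd⟩ := ih T' (hTm.inter measurableSet_Ici)
      (inter_subset_left.trans hTab) hT'vol
    refine ⟨fun i => Nat.casesOn i t0 x', ?_, ?_⟩
    · intro i hi
      cases i with
      | zero => exact ht0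
      | succ i => exact (hx' i (by omega)).1
    · intro i j hij hj
      cases j with
      | zero => omega
      | succ j =>
        cases i with
        | zero =>
          change δ * (((j + 1 : ℕ) : ℝ) - ((0 : ℕ) : ℝ)) ≤ x' j - t0
          have h0 : t0 + δ ≤ x' 0 := (hx' 0 (by omega)).2
          rcases Nat.eq_zero_or_pos j with hj0 | hj0
          · subst hj0
            push_cast
            linarith
          · have h1 := hd 0 j hj0 (by omega)
            push_cast at h1 ⊢
            linarith
        | succ i =>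
          change δ * (((j + 1 : ℕ) : ℝ) - ((i + 1 : ℕ) : ℝ)) ≤ x' j - x' i
          have h1 := hd i j (by omega) (by omega)
          push_cast
          linarith


theorem interp_factor {z : ℂ} {d : ℝ} (W : ℕ → ℂ) (s : Finset ℕ) :
    ∀ (f : ℂ → ℂ), DifferentiableOn ℂ f (ball z d) → (∀ i ∈ s, W i ∈ ball z d) →
      (∀ i ∈ s, ∀ j ∈ s, i ≠ j → W i ≠ W j) → (∀ i ∈ s, f (W i) = 0) →
      ∃ h : ℂ → ℂ, DifferentiableOn ℂ h (ball z d) ∧
        ∀ w ∈ ball z d, f w = (∏ i ∈ s, (w - W i)) * h w := by
  induction s using Finset.induction_on with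
  | empty => intro f hf _ _ _; exact ⟨f, hf, fun w _ => by simp⟩
  | insert a s ha ih =>
    intro f hf hW hinj hz
    obtain ⟨h, hh, hfac⟩ := ih f hf (fun i hi => hW i (Finset.mem_insert_of_mem hi))
      (fun i hi j hj => hinj i (Finset.mem_insert_of_mem hi) j (Finset.mem_insert_of_mem hj))
      (fun i hi => hz i (Finset.mem_insert_of_mem hi))
    have haW := hW a (Finset.mem_insert_self a s)
    have h0 : h (W a) = 0 := by
      have h1 := hfac (W a) haW
      rw [hz a (Finset.mem_insert_self a s)] at h1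
      have h2 : (∏ i ∈ s, (W a - W i)) ≠ 0 := by
        rw [Finset.prod_ne_zero_iff]
        intro i hi
        have hne : a ≠ i := fun h => ha (h ▸ hi)
        exact sub_ne_zero.mpr (hinj a (Finset.mem_insert_self a s) i
          (Finset.mem_insert_of_mem hi) hne)
      rcases mul_eq_zero.mp h1.symm with h3 | h3
      · exact absurd h3 h2
      · exact h3
    refine ⟨dslope h (W a), (Complex.differentiableOn_dslope (isOpen_ball.mem_nhds haW)).mpr hh, ?_⟩
    intro w hw
    rw [hfac w hw, Finset.prod_insert ha]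
    have h3 := sub_smul_dslope h (W a) w
    rw [h0, sub_zero, smul_eq_mul] at h3
    rw [← h3]; ring

theorem interp_prod (j k : ℕ) (δ : ℝ) :
    ∏ i ∈ (Finset.range (j + (1 + k))).erase j, (δ * |(j : ℝ) - i|)
      = δ ^ (j + k) * (j.factorial * k.factorial) := by
  classical
  have h1 : ∏ i ∈ (Finset.range (j + (1 + k))).erase j, (δ * |(j : ℝ) - i|)
      = ∏ i ∈ (Finset.range (j + (1 + k))).erase j,
        (if i = j then (1:ℝ) else δ * |(j : ℝ) - i|) := by
    apply Finset.prod_congr rfl
    intro i hi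
    rw [if_neg (Finset.ne_of_mem_erase hi)]
  rw [h1, Finset.prod_erase _ (by simp), Finset.prod_range_add, Finset.prod_range_add]
  have h2 : ∏ x ∈ Finset.range j, (if x = j then (1:ℝ) else δ * |(j : ℝ) - x|)
      = δ ^ j * j.factorial := by
    have h3 : ∀ x ∈ Finset.range j, (if x = j then (1:ℝ) else δ * |(j : ℝ) - x|)
        = δ * ((j - x : ℕ) : ℝ) := by
      intro x hx
      have hx' := Finset.mem_range.mp hx
      rw [if_neg (by omega), Nat.cast_sub hx'.le, abs_of_nonneg]
      have : (x : ℝ) ≤ j := by exact_mod_cast hx'.le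
      linarith
    rw [Finset.prod_congr rfl h3, Finset.prod_mul_distrib, Finset.prod_const, Finset.card_range]
    congr 1
    rw [← Nat.cast_prod, ← Nat.descFactorial_eq_prod_range, Nat.descFactorial_self]
  have h4 : ∏ x ∈ Finset.range k, (if j + (1 + x) = j then (1:ℝ) else δ * |(j : ℝ) - ((j + (1 + x) : ℕ) : ℝ)|)
      = δ ^ k * k.factorial := by
    have h3 : ∀ x ∈ Finset.range k, (if j + (1 + x) = j then (1:ℝ) else δ * |(j : ℝ) - ((j + (1 + x) : ℕ) : ℝ)|)
        = δ * ((x + 1 : ℕ) : ℝ) := by
      intro x hx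
      rw [if_neg (by omega)]
      congr 1
      push_cast
      have : (j : ℝ) - (j + (1 + x)) = -(x + 1) := by ring
      rw [this, abs_neg, abs_of_nonneg (by positivity)]
    rw [Finset.prod_congr rfl h3, Finset.prod_mul_distrib, Finset.prod_const, Finset.card_range]
    congr 1
    rw [← Nat.cast_prod, Finset.prod_range_add_one_eq_factorial]
  rw [h2, h4]
  simp
  ring

theorem interp : ∃ C c : ℝ, 0 < C ∧ 0 < c ∧ c ≤ 1 ∧ ∀ (u : ℂ → ℂ) (z : ℂ) (d M ε : ℝ), 0 < d → 0 < ε →
    ε ≤ M → DifferentiableOn ℂ u (ball z d) → (∀ w ∈ ball z d, ‖u w‖ ≤ M) →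
    ∀ T : Set ℝ, MeasurableSet T → T ⊆ Ioo 0 (d / 16) → ENNReal.ofReal (d / 32) ≤ volume T →
    (∀ r ∈ T, ∃ w : ℂ, ‖w - z‖ = r ∧ ‖u w‖ ≤ ε) →
    ∀ w ∈ ball z (d / 16), ‖u w‖ ≤ C * M * (ε / M) ^ c := by
  have hl1 : 0 < Real.log (11/2) := Real.log_pos (by norm_num)
  have hl2 : 0 < Real.log 800 := Real.log_pos (by norm_num)
  set c : ℝ := Real.log (11/2) / Real.log 800 with hc
  have hc0 : 0 < c := div_pos hl1 hl2
  have hc1 : c ≤ 1 := by
    rw [hc, div_le_one hl2]
    exact Real.log_le_log (by norm_num) (by norm_num)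
  have h800c : (800:ℝ) ^ c = 11/2 := by
    rw [Real.rpow_def_of_pos (by norm_num), hc, mul_div_cancel₀ _ hl2.ne',
      Real.exp_log (by norm_num)]
  refine ⟨800, c, by norm_num, hc0, hc1, ?_⟩
  intro u z d M ε hd hε hεM hu huM T hT hTsub hTvol hTw w hw
  have hM : 0 < M := hε.trans_le hεM
  have hwd : w ∈ ball z d := ball_subset_ball (by linarith) hw
  by_cases hcase : M / ε < 800
  · have h1 : 1 / 800 < ε / M := by
      rw [div_lt_iff₀ hε] at hcase
      rw [div_lt_div_iff₀ (by norm_num) hM]
      linarith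
    have h2 : ε / M ≤ (ε / M) ^ c := by
      have := Real.rpow_le_rpow_of_exponent_ge (div_pos hε hM) ((div_le_one hM).mpr hεM) hc1
      rwa [Real.rpow_one] at this
    have h3 : 1 / 800 ≤ (ε / M) ^ c := (h1.le).trans h2
    calc ‖u w‖ ≤ M := huM w hwd
      _ = 800 * M * (1 / 800) := by ring
      _ ≤ 800 * M * (ε / M) ^ c := mul_le_mul_of_nonneg_left h3 (by positivity)
  · push Not at hcase
    obtain ⟨N, hN1, hN2⟩ := exists_nat_pow_near (x := M / ε) (y := 800)
      (le_trans (by norm_num) hcase) (by norm_num)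
    have hNpos : N ≠ 0 := by
      rintro rfl
      simp at hN2
      linarith
    obtain ⟨m, rfl⟩ := Nat.exists_eq_succ_of_ne_zero hNpos
    rw [Nat.succ_eq_add_one] at *
    clear hNpos
    have hN1' : (800:ℝ) ^ (m+1) * ε ≤ M := by rwa [le_div_iff₀ hε] at hN1
    set NR : ℝ := ((m + 1 : ℕ) : ℝ) with hNR
    have hNR0 : 0 < NR := by rw [hNR]; positivity
    set δ : ℝ := d / (64 * NR) with hδ
    have hδ0 : 0 < δ := by positivity
    obtain ⟨x, hxT, hxsep⟩ := nodes (a := 0) (b := d / 16) hδ0 m T hT hTsub (by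
      refine lt_of_lt_of_le ?_ hTvol
      rw [ENNReal.ofReal_lt_ofReal_iff (by positivity)]
      rw [hδ, div_eq_mul_inv, div_eq_mul_inv]
      have : (m : ℝ) < NR := by rw [hNR]; push_cast; linarith
      rw [mul_inv]
      have h1 : (m:ℝ) * NR⁻¹ < 1 := by
        rw [← div_eq_mul_inv, div_lt_one hNR0]; exact this
      nlinarith)
    have hex : ∀ i, i ≤ m → ∃ w : ℂ, ‖w - z‖ = x i ∧ ‖u w‖ ≤ ε := fun i hi => hTw _ (hxT i hi)
    choose! W hW using hex
    have hxpos : ∀ i, i ≤ m → x i < d / 16 := fun i hi => (hTsub (hxT i hi)).2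
    have hsep : ∀ i, i ≤ m → ∀ j, j ≤ m → δ * |(j : ℝ) - i| ≤ ‖W j - W i‖ := by
      intro i hi j hj
      have h1 : |x j - x i| ≤ ‖W j - W i‖ := by
        rw [← (hW i hi).1, ← (hW j hj).1]
        have := abs_norm_sub_norm_le (W j - z) (W i - z)
        simpa using this
      refine le_trans ?_ h1
      rcases lt_trichotomy i j with h | h | h
      · have h2 := hxsep i j h hj
        have h3 : (i:ℝ) < j := by exact_mod_cast h
        rw [abs_of_pos (by linarith)]
        exact h2.trans (le_abs_self _)
      · subst h; simp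
      · have h2 := hxsep j i h hi
        have h3 : (j:ℝ) < i := by exact_mod_cast h
        rw [abs_sub_comm, abs_of_pos (a := (i:ℝ) - j) (by linarith), abs_sub_comm]
        exact h2.trans (le_abs_self _)
    have hne : ∀ i, i ≤ m → ∀ j, j ≤ m → i ≠ j → W i ≠ W j := by
      intro i hi j hj hij h
      have h1 := hsep i hi j hj
      rw [h, sub_self, norm_zero] at h1
      have h2 : 0 < |(j:ℝ) - i| := abs_pos.mpr (sub_ne_zero.mpr (by exact_mod_cast hij.symm))
      have := mul_pos hδ0 h2
      linarith
    -- lower bound of the denominators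
    have hden : ∀ j ∈ Finset.range (m+1), (d/128)^m * Real.exp (-NR)
        ≤ ∏ i ∈ (Finset.range (m+1)).erase j, ‖W j - W i‖ := by
      intro j hj
      have hjm : j ≤ m := by simpa [Nat.lt_succ_iff] using hj
      obtain ⟨k, hk⟩ := Nat.exists_eq_add_of_le hjm
      have h1 : ∏ i ∈ (Finset.range (m+1)).erase j, (δ * |(j : ℝ) - i|)
          ≤ ∏ i ∈ (Finset.range (m+1)).erase j, ‖W j - W i‖ := by
        apply Finset.prod_le_prod
        · intro i _; positivity
        · intro i hi
          have hi' : i ≤ m := by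
            have := Finset.mem_of_mem_erase hi
            simpa [Nat.lt_succ_iff] using this
          exact hsep i hi' j hjm
      refine le_trans ?_ h1
      have h2 : m + 1 = j + (1 + k) := by omega
      rw [h2, interp_prod, ← hk]
      have h3 : (m.factorial : ℝ) ≤ 2 ^ m * (j.factorial * k.factorial) := by
        have h4 := Nat.choose_mul_factorial_mul_factorial hjm
        have h5 : m - j = k := by omega
        rw [h5] at h4
        have h6 : m.choose j ≤ 2 ^ m := Nat.choose_le_two_pow m j
        have h7 : m.factorial ≤ 2 ^ m * (j.factorial * k.factorial) := by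
          rw [← h4, mul_assoc]
          exact Nat.mul_le_mul_right _ h6
        exact_mod_cast h7
      have h8 : NR ^ m / m.factorial ≤ Real.exp NR := Real.pow_div_factorial_le_exp NR hNR0.le m
      have hmf : (0:ℝ) < m.factorial := by exact_mod_cast m.factorial_pos
      rw [div_le_iff₀ hmf] at h8
      rw [Real.exp_neg]
      have hE : 0 < Real.exp NR := Real.exp_pos _
      rw [← div_eq_mul_inv, div_le_iff₀ hE]
      have h9 : δ ^ m = (d/128)^m * 2^m / NR^m := by
        rw [hδ, ← mul_pow, ← div_pow]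
        congr 1
        field_simp
        norm_num
      rw [h9]
      have h10 : (0:ℝ) < NR ^ m := by positivity
      have h11 : (0:ℝ) < (d/128)^m := by positivity
      rw [div_mul_eq_mul_div, div_mul_eq_mul_div, le_div_iff₀ h10]
      have h12 : NR ^ m ≤ 2 ^ m * (↑j.factorial * ↑k.factorial) * Real.exp NR := by
        calc NR ^ m ≤ Real.exp NR * m.factorial := h8
          _ ≤ Real.exp NR * (2 ^ m * (j.factorial * k.factorial)) :=
            mul_le_mul_of_nonneg_left h3 hE.le
          _ = _ := by ring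
      calc (d/128)^m * NR^m ≤ (d/128)^m * (2 ^ m * (↑j.factorial * ↑k.factorial) * Real.exp NR) :=
            mul_le_mul_of_nonneg_left h12 h11.le
        _ = _ := by ring
    -- interpolation polynomial
    set P : ℂ → ℂ := fun v => ∑ j ∈ Finset.range (m+1), u (W j) *
      ∏ i ∈ (Finset.range (m+1)).erase j, ((v - W i) / (W j - W i)) with hP
    have hPdiff : Differentiable ℂ P := by
      rw [hP]
      fun_prop
    have hPval : ∀ k ∈ Finset.range (m+1), P (W k) = u (W k) := by
      intro k hk
      simp only [hP]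
      rw [Finset.sum_eq_single k]
      · have : ∏ i ∈ (Finset.range (m+1)).erase k, ((W k - W i) / (W k - W i)) = 1 := by
          apply Finset.prod_eq_one
          intro i hi
          have h1 := Finset.ne_of_mem_erase hi
          have h2 := Finset.mem_of_mem_erase hi
          rw [Finset.mem_range, Nat.lt_succ_iff] at h2 hk
          exact div_self (sub_ne_zero.mpr (hne k hk i h2 h1.symm))
        rw [this, mul_one]
      · intro j hj hjk
        have : ∏ i ∈ (Finset.range (m+1)).erase j, ((W k - W i) / (W j - W i)) = 0 := by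
          apply Finset.prod_eq_zero (Finset.mem_erase.mpr ⟨hjk.symm, hk⟩)
          simp
        rw [this, mul_zero]
      · intro h; exact absurd hk h
    have he2 : Real.exp NR * NR ≤ (7.4:ℝ) ^ (m+1) := by
      have h1 : NR ≤ Real.exp NR := (by linarith [Real.add_one_le_exp NR])
      have h2 : Real.exp NR * NR ≤ Real.exp NR * Real.exp NR :=
        mul_le_mul_of_nonneg_left h1 (Real.exp_pos _).le
      refine h2.trans ?_
      have h3 : Real.exp NR = (Real.exp 1) ^ (m+1) := by
        rw [← Real.exp_nat_mul, mul_one]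
      rw [h3, ← mul_pow]
      apply pow_le_pow_left₀ (by positivity)
      have := Real.exp_one_lt_d9
      have h4 := Real.exp_pos 1
      nlinarith
    have hPbd : ∀ (v : ℂ) (R : ℝ), 0 ≤ R → (∀ i, i ≤ m → ‖v - W i‖ ≤ R) →
        ‖P v‖ ≤ ε * ((128 * R / d) ^ m * (7.4:ℝ)^(m+1)) := by
      intro v R hR hv
      have h1 : ‖P v‖ ≤ ∑ j ∈ Finset.range (m+1), ε * ((128 * R / d) ^ m * Real.exp NR) := by
        refine (norm_sum_le _ _).trans ?_
        apply Finset.sum_le_sum
        intro j hj
        have hjm : j ≤ m := by simpa [Nat.lt_succ_iff] using hj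
        rw [norm_mul, norm_prod]
        apply mul_le_mul (hW j hjm).2 _ (Finset.prod_nonneg (fun _ _ => norm_nonneg _)) hε.le
        have h2 : ∏ i ∈ (Finset.range (m+1)).erase j, ‖(v - W i) / (W j - W i)‖
            = (∏ i ∈ (Finset.range (m+1)).erase j, ‖v - W i‖) /
              ∏ i ∈ (Finset.range (m+1)).erase j, ‖W j - W i‖ := by
          rw [← Finset.prod_div_distrib]
          apply Finset.prod_congr rfl
          intro i _
          rw [norm_div]
        rw [h2]
        have h3 : ∏ i ∈ (Finset.range (m+1)).erase j, ‖v - W i‖ ≤ R ^ m := by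
          have : ∏ i ∈ (Finset.range (m+1)).erase j, ‖v - W i‖
              ≤ ∏ i ∈ (Finset.range (m+1)).erase j, R := by
            apply Finset.prod_le_prod (fun _ _ => norm_nonneg _)
            intro i hi
            have hi' : i ≤ m := by
              have := Finset.mem_of_mem_erase hi
              simpa [Nat.lt_succ_iff] using this
            exact hv i hi'
          rw [Finset.prod_const, Finset.card_erase_of_mem hj, Finset.card_range,
            Nat.add_sub_cancel] at this
          exact this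
        have h4 := hden j hj
        have h5 : 0 < (d/128)^m * Real.exp (-NR) := by positivity
        rw [div_le_iff₀ (h5.trans_le h4)]
        have h6 : 0 ≤ (128 * R / d) ^ m * Real.exp NR := by positivity
        refine h3.trans ?_
        have h7 : R ^ m = (128 * R / d) ^ m * Real.exp NR * ((d/128)^m * Real.exp (-NR)) := by
          have h8 : Real.exp NR * Real.exp (-NR) = 1 := by
            rw [← Real.exp_add]; simp
          have h9 : (128 * R / d) ^ m * (d/128)^m = R ^ m := by
            rw [← mul_pow]; congr 1; field_simp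
          calc R ^ m = ((128 * R / d) ^ m * (d/128)^m) * (Real.exp NR * Real.exp (-NR)) := by
                rw [h8, h9, mul_one]
            _ = _ := by ring
        rw [h7]
        exact mul_le_mul_of_nonneg_left h4 h6
      rw [Finset.sum_const, Finset.card_range, nsmul_eq_mul] at h1
      refine h1.trans ?_
      have h10 : 0 ≤ ε * (128 * R / d) ^ m := by positivity
      calc NR * (ε * ((128 * R / d) ^ m * Real.exp NR))
          = ε * (128 * R / d) ^ m * (Real.exp NR * NR) := by ring
        _ ≤ ε * (128 * R / d) ^ m * (7.4:ℝ)^(m+1) := mul_le_mul_of_nonneg_left he2 h10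
        _ = _ := by ring
    have hWball : ∀ i ∈ Finset.range (m+1), W i ∈ ball z d := by
      intro i hi
      have him : i ≤ m := by simpa [Nat.lt_succ_iff] using hi
      rw [mem_ball, dist_eq_norm, (hW i him).1]
      linarith [hxpos i him]
    obtain ⟨h, hh, hfac⟩ := interp_factor (z := z) (d := d) W (Finset.range (m+1))
      (fun v => u v - P v) (hu.sub hPdiff.differentiableOn) hWball
      (fun i hi j hj hij => hne i (by simpa [Nat.lt_succ_iff] using hi) j
        (by simpa [Nat.lt_succ_iff] using hj) hij)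
      (fun i hi => by simp [hPval i hi])
    -- bound of h on the sphere
    have hhbd : ∀ v ∈ closure (ball z (3 * d / 4)), ‖h v‖ ≤ 2 * M / (11 * d / 16) ^ (m+1) := by
      intro v hv
      apply Complex.norm_le_of_forall_mem_frontier_norm_le (U := ball z (3 * d / 4))
        isBounded_ball (DifferentiableOn.diffContOnCl_ball hh (U := ball z d)
          (closedBall_subset_ball (by linarith))) _ hv
      intro v hv
      rw [frontier_ball _ (by positivity), mem_sphere, dist_eq_norm] at hv
      have hvd : v ∈ ball z d := by rw [mem_ball, dist_eq_norm, hv]; linarith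
      have h1 := hfac v hvd
      have h2 : (11 * d / 16) ^ (m+1) ≤ ‖∏ i ∈ Finset.range (m+1), (v - W i)‖ := by
        rw [norm_prod]
        have : ∏ i ∈ Finset.range (m+1), (11 * d / 16) ≤ ∏ i ∈ Finset.range (m+1), ‖v - W i‖ := by
          apply Finset.prod_le_prod (fun _ _ => by positivity)
          intro i hi
          have him : i ≤ m := by simpa [Nat.lt_succ_iff] using hi
          have h3 : ‖v - z‖ ≤ ‖v - W i‖ + ‖W i - z‖ := norm_sub_le_norm_sub_add_norm_sub _ _ _
          rw [hv, (hW i him).1] at h3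
          linarith [hxpos i him]
        rwa [Finset.prod_const, Finset.card_range] at this
      have h4 : ‖u v - P v‖ ≤ 2 * M := by
        have h5 := hPbd v (13 * d / 16) (by positivity) (by
          intro i him
          have h3 : ‖v - W i‖ ≤ ‖v - z‖ + ‖z - W i‖ := norm_sub_le_norm_sub_add_norm_sub _ _ _
          rw [hv, norm_sub_rev z, (hW i him).1] at h3
          linarith [hxpos i him])
        have h6 : (128 * (13 * d / 16) / d) ^ m * (7.4:ℝ)^(m+1) ≤ 800 ^ (m+1) := by
          have h7 : 128 * (13 * d / 16) / d = 104 := by field_simp; norm_num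
          rw [h7]
          calc (104:ℝ) ^ m * 7.4 ^ (m+1) ≤ 104 ^ (m+1) * 7.4 ^ (m+1) :=
                mul_le_mul_of_nonneg_right (pow_le_pow_right₀ (by norm_num) (by omega))
                  (by positivity)
            _ = (104 * 7.4) ^ (m+1) := by rw [mul_pow]
            _ ≤ 800 ^ (m+1) := pow_le_pow_left₀ (by norm_num) (by norm_num) _
        have h8 : ‖P v‖ ≤ M := by
          refine h5.trans (le_trans ?_ hN1')
          rw [mul_comm ((800:ℝ)^(m+1))]
          exact mul_le_mul_of_nonneg_left h6 hε.le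
        calc ‖u v - P v‖ ≤ ‖u v‖ + ‖P v‖ := norm_sub_le _ _
          _ ≤ M + M := add_le_add (huM v hvd) h8
          _ = 2 * M := by ring
      try simp only at h1
      rw [h1, norm_mul] at h4
      rw [le_div_iff₀ (by positivity)]
      calc ‖h v‖ * (11 * d / 16) ^ (m+1) ≤ ‖h v‖ * ‖∏ i ∈ Finset.range (m+1), (v - W i)‖ :=
            mul_le_mul_of_nonneg_left h2 (norm_nonneg _)
        _ = ‖∏ i ∈ Finset.range (m+1), (v - W i)‖ * ‖h v‖ := mul_comm _ _
        _ ≤ 2 * M := h4
    have hwz : ‖w - z‖ < d / 16 := by rwa [mem_ball, dist_eq_norm] at hw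
    have hwW : ∀ i, i ≤ m → ‖w - W i‖ ≤ d / 8 := by
      intro i him
      have h3 : ‖w - W i‖ ≤ ‖w - z‖ + ‖z - W i‖ := norm_sub_le_norm_sub_add_norm_sub _ _ _
      rw [norm_sub_rev z, (hW i him).1] at h3
      linarith [hxpos i him]
    have hf1 : ‖P w‖ ≤ M * (2/11)^(m+1) := by
      have h5 := hPbd w (d / 8) (by positivity) hwW
      have h7 : 128 * (d / 8) / d = 16 := by field_simp; norm_num
      rw [h7] at h5
      have h6 : (16:ℝ) ^ m * (7.4:ℝ)^(m+1) ≤ 800 ^ (m+1) * (2/11)^(m+1) := by
        calc (16:ℝ) ^ m * 7.4 ^ (m+1) ≤ 16 ^ (m+1) * 7.4 ^ (m+1) :=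
              mul_le_mul_of_nonneg_right (pow_le_pow_right₀ (by norm_num) (by omega))
                (by positivity)
          _ = (16 * 7.4) ^ (m+1) := by rw [mul_pow]
          _ ≤ (800 * (2/11)) ^ (m+1) := pow_le_pow_left₀ (by norm_num) (by norm_num) _
          _ = _ := by rw [mul_pow]
      calc ‖P w‖ ≤ ε * ((16:ℝ) ^ m * (7.4:ℝ)^(m+1)) := h5
        _ ≤ ε * (800 ^ (m+1) * (2/11)^(m+1)) := mul_le_mul_of_nonneg_left h6 hε.le
        _ = (800 ^ (m+1) * ε) * (2/11)^(m+1) := by ring
        _ ≤ M * (2/11)^(m+1) := mul_le_mul_of_nonneg_right hN1' (by positivity)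
    have hf2 : ‖u w - P w‖ ≤ 2 * M * (2/11)^(m+1) := by
      have h1 := hfac w hwd
      try simp only at h1
      rw [h1, norm_mul, norm_prod]
      have h2 : ∏ i ∈ Finset.range (m+1), ‖w - W i‖ ≤ (d/8)^(m+1) := by
        have : ∏ i ∈ Finset.range (m+1), ‖w - W i‖ ≤ ∏ i ∈ Finset.range (m+1), (d/8) := by
          apply Finset.prod_le_prod (fun _ _ => norm_nonneg _)
          intro i hi
          exact hwW i (by simpa [Nat.lt_succ_iff] using hi)
        rwa [Finset.prod_const, Finset.card_range] at this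
      have h3 := hhbd w (subset_closure (ball_subset_ball (by linarith) hw))
      calc (∏ i ∈ Finset.range (m+1), ‖w - W i‖) * ‖h w‖
          ≤ (d/8)^(m+1) * (2 * M / (11 * d / 16) ^ (m+1)) :=
            mul_le_mul h2 h3 (norm_nonneg _) (by positivity)
        _ = 2 * M * ((d/8) ^(m+1) / (11 * d / 16)^(m+1)) := by ring
        _ = 2 * M * ((d/8) / (11 * d / 16))^(m+1) := by rw [div_pow (d/8) (11 * d / 16)]
        _ = 2 * M * (2/11)^(m+1) := by
            have h20 : (d/8) / (11 * d / 16) = 2/11 := by
              field_simp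
              norm_num
            rw [h20]
    have hf3 : ‖u w‖ ≤ 3 * M * (2/11)^(m+1) := by
      calc ‖u w‖ = ‖(u w - P w) + P w‖ := by ring_nf
        _ ≤ ‖u w - P w‖ + ‖P w‖ := norm_add_le _ _
        _ ≤ 2 * M * (2/11)^(m+1) + M * (2/11)^(m+1) := add_le_add hf2 hf1
        _ = _ := by ring
    have hf4 : (2/11:ℝ)^(m+1) ≤ (11/2) * (ε / M) ^ c := by
      have h1 : (M / ε) ^ c ≤ (11/2:ℝ)^(m+1+1) := by
        have h2 : (M / ε) ^ c ≤ ((800:ℝ)^(m+1+1)) ^ c :=
          Real.rpow_le_rpow (by positivity) hN2.le hc0.le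
        refine h2.trans ?_
        rw [← Real.rpow_natCast_mul (by norm_num), mul_comm, Real.rpow_mul_natCast (by norm_num), h800c]
      have h3 : (ε / M) ^ c = ((M / ε) ^ c)⁻¹ := by
        rw [← Real.inv_rpow (by positivity), inv_div]
      rw [h3]
      have h4 : 0 < (M / ε) ^ c := Real.rpow_pos_of_pos (by positivity) _
      have h5 : ((11/2:ℝ)^(m+1+1))⁻¹ ≤ ((M / ε) ^ c)⁻¹ := inv_anti₀ h4 h1
      calc (2/11:ℝ)^(m+1) = (11/2) * ((11/2:ℝ)^(m+1+1))⁻¹ := by
            rw [pow_succ ((11:ℝ)/2) (m+1), mul_inv, ← inv_pow]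
            norm_num
            ring
        _ ≤ _ := mul_le_mul_of_nonneg_left h5 (by norm_num)
    have h9 : 0 < (ε / M) ^ c := Real.rpow_pos_of_pos (by positivity) _
    calc ‖u w‖ ≤ 3 * M * (2/11)^(m+1) := hf3
      _ ≤ 3 * M * ((11/2) * (ε / M) ^ c) := mul_le_mul_of_nonneg_left hf4 (by positivity)
      _ = (33/2) * (M * (ε / M) ^ c) := by ring
      _ ≤ 800 * (M * (ε / M) ^ c) := mul_le_mul_of_nonneg_right (by norm_num) (by positivity)
      _ = 800 * M * (ε / M) ^ c := by ring


end Pool.Agent.Helper265.Br
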