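import Mathlib
import Pool.Agent.Helper265.BrA

set_option autoImplicit false
open Complex Set Filter Metric Topology MeasureTheory
open scoped ENNReal

namespace Pool.Agent.Helper265.Br

theorem der_bd {ψ : ℂ → ℂ} (hd : DifferentiableOn ℂ ψ (ball 0 1)) (hi : InjOn ψ (ball 0 1)) :
    ∃ (C : ℝ) (N : ℕ), 0 < C ∧ ∀ ξ ∈ ball (0 : ℂ) 1,
      ‖deriv ψ ξ‖ * (1 - ‖ξ‖) ^ N ≤ C ∧ (1 - ‖ξ‖) ^ N ≤ C * ‖deriv ψ ξ‖ := by
  obtain ⟨g, B, hB, hg, hge, hgb⟩ := pkg hd hi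
  refine ⟨Real.exp |(g 0).re|, ⌈B⌉₊, Real.exp_pos _, ?_⟩
  intro ξ hξ
  have hξ1 : ‖ξ‖ < 1 := by simpa using hξ
  have hd0 : 0 < 1 - ‖ξ‖ := by linarith
  have hd1 : 1 - ‖ξ‖ ≤ 1 := by linarith [norm_nonneg ξ]
  obtain ⟨L, hL⟩ : ∃ L, L = - Real.log (1 - ‖ξ‖) := ⟨_, rfl⟩
  have hL0 : 0 ≤ L := by
    rw [hL]
    have := Real.log_nonpos hd0.le hd1
    linarith
  have hdL : (1 - ‖ξ‖) ^ ⌈B⌉₊ = Real.exp (-(⌈B⌉₊ * L)) := by
    have : 1 - ‖ξ‖ = Real.exp (-L) := by rw [hL, neg_neg, Real.exp_log hd0]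
    rw [this, ← Real.exp_nat_mul]
    congr 1
    ring
  have hdiff : ‖g ξ - g 0‖ ≤ B * L := by
    by_cases h0 : ξ = 0
    · rw [h0, sub_self, norm_zero]
      exact mul_nonneg (by linarith) hL0
    · have hn : ‖ξ‖ ≠ 0 := norm_ne_zero_iff.2 h0
      have hu : ‖ξ / (‖ξ‖ : ℂ)‖ = 1 := by
        rw [norm_div, Complex.norm_real, norm_norm, div_self hn]
      have h1 := radial hg hgb hu (le_refl (0:ℝ)) (norm_nonneg ξ) hξ1
      have h2 : ((‖ξ‖ : ℝ) : ℂ) * (ξ / (‖ξ‖ : ℂ)) = ξ := by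
        have : (‖ξ‖ : ℂ) ≠ 0 := by exact_mod_cast hn
        field_simp
      rw [h2, Complex.ofReal_zero, zero_mul, sub_zero, one_div, Real.log_inv, ← hL] at h1
      exact h1
  have hre : |(g ξ).re - (g 0).re| ≤ B * L := by
    rw [← Complex.sub_re]
    exact (Complex.abs_re_le_norm _).trans hdiff
  have hnorm : ‖deriv ψ ξ‖ = Real.exp (g ξ).re := by
    rw [hge ξ hξ, Complex.norm_exp]
  have hBN : B * L ≤ ⌈B⌉₊ * L := mul_le_mul_of_nonneg_right (Nat.le_ceil B) hL0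
  have h3 := abs_le.1 hre
  have h4 := neg_abs_le (g 0).re
  have h5 := le_abs_self (g 0).re
  rw [hdL, hnorm, ← Real.exp_add, ← Real.exp_add, Real.exp_le_exp, Real.exp_le_exp]
  constructor
  · linarith [h3.1, h3.2]
  · linarith [h3.1, h3.2]

theorem sep {ψ : ℂ → ℂ} (hd : DifferentiableOn ℂ ψ (ball 0 1)) (hi : InjOn ψ (ball 0 1)) :
    ∃ (c : ℝ) (N : ℕ), 0 < c ∧ ∀ t ∈ Ioc (0 : ℝ) 1, ∀ ξ : ℂ, ‖ξ‖ ≤ Real.exp (-t) →
      ∀ a : ℂ, a ∉ ψ '' ball 0 (Real.exp (-(t / 2))) → c * t ^ N ≤ ‖ψ ξ - a‖ := by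
  obtain ⟨c, hc, hk⟩ := koebe_omit
  obtain ⟨C, N, hC, hder⟩ := der_bd hd hi
  refine ⟨c / 8 / C / 2 ^ N, N + 1, by positivity, ?_⟩
  rintro t ⟨ht0, ht1⟩ ξ hξ a ha
  have e1 : Real.exp (-t) * Real.exp (t / 2) = Real.exp (-(t / 2)) := by
    rw [← Real.exp_add]
    congr 1
    ring
  have e2 : Real.exp (-1) ≤ Real.exp (-t) := Real.exp_le_exp.2 (by linarith)
  have e3 : (1:ℝ) / 4 ≤ Real.exp (-1) := by
    rw [Real.exp_neg, one_div]
    apply inv_anti₀ (Real.exp_pos _)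
    have := Real.exp_one_lt_d9
    linarith
  have e4 : t / 2 ≤ Real.exp (t / 2) - 1 := by linarith [Real.add_one_le_exp (t / 2)]
  have e5 : t / 8 ≤ Real.exp (-(t / 2)) - Real.exp (-t) := by
    rw [← e1]
    have : t / 8 = (1 / 4) * (t / 2) := by ring
    rw [this]
    calc (1:ℝ) / 4 * (t / 2) ≤ Real.exp (-t) * (Real.exp (t / 2) - 1) :=
          mul_le_mul (e3.trans e2) e4 (by positivity) (Real.exp_pos _).le
      _ = _ := by ring
  have e6 : Real.exp (-(t / 2)) < 1 := Real.exp_lt_one_iff.2 (by linarith)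
  have e7 : t / 2 ≤ 1 - Real.exp (-t) := by
    have h1 : 1 + t ≤ Real.exp t := by linarith [Real.add_one_le_exp t]
    have h2 : Real.exp (-t) * Real.exp t = 1 := by rw [← Real.exp_add]; simp
    have h3 := Real.exp_pos (-t)
    nlinarith
  have hsub : ball ξ (t / 8) ⊆ ball 0 (Real.exp (-(t / 2))) := by
    intro w hw
    rw [mem_ball_zero_iff]
    rw [mem_ball, dist_eq_norm] at hw
    have h1 : ‖w‖ ≤ ‖w - ξ‖ + ‖ξ‖ := by
      have := norm_add_le (w - ξ) ξ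
      rwa [sub_add_cancel] at this
    linarith
  have hsub1 : ball ξ (t / 8) ⊆ ball 0 1 := hsub.trans (ball_subset_ball e6.le)
  have h1 := hk ψ ξ (t / 8) (by positivity) (hd.mono hsub1) (hi.mono hsub1) a
    (fun h => ha (image_mono hsub h))
  have hξ1 : ξ ∈ ball (0:ℂ) 1 := by
    rw [mem_ball_zero_iff]
    linarith
  have h2 := (hder ξ hξ1).2
  have h3 : (t / 2) ^ N ≤ (1 - ‖ξ‖) ^ N := pow_le_pow_left₀ (by positivity) (by linarith) N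
  have h4 : (t / 2) ^ N / C ≤ ‖deriv ψ ξ‖ := by
    rw [div_le_iff₀ hC]
    linarith
  calc c / 8 / C / 2 ^ N * t ^ (N + 1) = c * (t / 8) * ((t / 2) ^ N / C) := by
        rw [div_pow, pow_succ]; field_simp
    _ ≤ c * (t / 8) * ‖deriv ψ ξ‖ := mul_le_mul_of_nonneg_left h4 (by positivity)
    _ ≤ _ := h1


end Pool.Agent.Helper265.Br
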