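import Mathlib

set_option autoImplicit false
open Complex Set Filter Metric Topology MeasureTheory
open scoped ENNReal

namespace Pool.Agent.Helper265.Br

theorem ode_bound {J J1 J2 : ℝ → ℝ} {κ : ℝ} (hκ : 0 ≤ κ)
    (h1 : ∀ y, 0 < y → HasDerivAt J (J1 y) y) (h2 : ∀ y, 0 < y → HasDerivAt J1 (J2 y) y)
    (hpos : ∀ y, 0 < y → 0 < J y) (hle : ∀ y, 0 < y → J2 y ≤ κ / y ^ 2 * J y) :
    ∃ C : ℝ, 0 < C ∧ ∀ y ∈ Ioc (0 : ℝ) 2, J y ≤ C * y ^ (-κ) := by
  obtain ⟨L, hL⟩ : ∃ L : ℝ → ℝ, L = fun y => Real.log (J y) + κ * Real.log y := ⟨_, rfl⟩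
  obtain ⟨M, hM⟩ : ∃ M : ℝ → ℝ, M = fun y => J1 y / J y + κ * y⁻¹ := ⟨_, rfl⟩
  have hLd : ∀ y, 0 < y → HasDerivAt L (M y) y := by
    intro y hy
    rw [hL, hM]
    exact ((h1 y hy).log (hpos y hy).ne').add ((Real.hasDerivAt_log hy.ne').const_mul κ)
  have hMd : ∀ y, 0 < y → HasDerivAt M ((J2 y * J y - J1 y * J1 y) / J y ^ 2 +
      κ * (-(y ^ 2)⁻¹)) y := by
    intro y hy
    rw [hM]
    exact ((h2 y hy).div (h1 y hy) (hpos y hy).ne').add ((hasDerivAt_inv hy.ne').const_mul κ)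
  have hMn : ∀ y, 0 < y → (J2 y * J y - J1 y * J1 y) / J y ^ 2 + κ * (-(y ^ 2)⁻¹) ≤ 0 := by
    intro y hy
    have hJ := hpos y hy
    have h3 : (J2 y * J y - J1 y * J1 y) / J y ^ 2 ≤ κ / y ^ 2 := by
      rw [div_le_iff₀ (by positivity)]
      have h4 := mul_le_mul_of_nonneg_right (hle y hy) hJ.le
      nlinarith [mul_self_nonneg (J1 y)]
    have h5 : κ * (-(y ^ 2)⁻¹) = -(κ / y ^ 2) := by ring
    rw [h5]
    linarith
  have hanti : ∀ x, 0 < x → x < 2 → M 2 ≤ M x := by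
    intro x hx hx2
    obtain ⟨c, hc, he⟩ := exists_hasDerivAt_eq_slope M
      (fun y => (J2 y * J y - J1 y * J1 y) / J y ^ 2 + κ * (-(y ^ 2)⁻¹)) hx2
      (fun z hz => (hMd z (lt_of_lt_of_le hx hz.1)).continuousAt.continuousWithinAt)
      (fun z hz => hMd z (hx.trans hz.1))
    have h3 := hMn c (hx.trans hc.1)
    rw [he, div_le_iff₀ (by linarith)] at h3
    linarith
  have hmain : ∀ y ∈ Ioc (0 : ℝ) 2, L y ≤ L 2 + 2 * |M 2| := by
    intro y hy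
    rcases hy.2.eq_or_lt with rfl | hlt
    · have := abs_nonneg (M 2)
      linarith
    · obtain ⟨c, hc, he⟩ := exists_hasDerivAt_eq_slope L M hlt
        (fun z hz => (hLd z (lt_of_lt_of_le hy.1 hz.1)).continuousAt.continuousWithinAt)
        (fun z hz => hLd z (hy.1.trans hz.1))
      have h3 := hanti c (hy.1.trans hc.1) hc.2
      rw [eq_div_iff (by linarith)] at he
      have h4 : M 2 * (2 - y) ≤ M c * (2 - y) := mul_le_mul_of_nonneg_right h3 (by linarith)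
      have h5 : -(M 2 * (2 - y)) ≤ |M 2| * 2 := by
        calc -(M 2 * (2 - y)) ≤ |M 2 * (2 - y)| := neg_le_abs _
          _ = |M 2| * |2 - y| := abs_mul _ _
          _ ≤ |M 2| * 2 := by
              apply mul_le_mul_of_nonneg_left _ (abs_nonneg _)
              rw [abs_of_nonneg (by linarith)]
              linarith [hy.1]
      linarith
  refine ⟨Real.exp (L 2 + 2 * |M 2|), Real.exp_pos _, ?_⟩
  intro y hy
  have hy0 := hy.1
  have hJ := hpos y hy0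
  have h3 := hmain y hy
  have h4 : Real.exp (L y) ≤ Real.exp (L 2 + 2 * |M 2|) := Real.exp_le_exp.2 h3
  have h5 : Real.exp (L y) = J y * y ^ κ := by
    rw [hL]
    simp only
    rw [Real.exp_add, Real.exp_log hJ, Real.rpow_def_of_pos hy0, mul_comm κ]
  rw [h5] at h4
  rw [Real.rpow_neg hy0.le, ← div_eq_mul_inv, le_div_iff₀ (Real.rpow_pos_of_pos hy0 _)]
  exact h4


/-- differentiation under the integral sign for continuous integrands -/
theorem mo_diff {F F' : ℝ → ℝ → ℝ}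
    (hF : ContinuousOn (fun p : ℝ × ℝ => F p.1 p.2) (Ioi 0 ×ˢ univ))
    (hF' : ContinuousOn (fun p : ℝ × ℝ => F' p.1 p.2) (Ioi 0 ×ˢ univ))
    (hd : ∀ y, 0 < y → ∀ θ, HasDerivAt (fun y => F y θ) (F' y θ) y) (y : ℝ) (hy : 0 < y) :
    HasDerivAt (fun y => ∫ θ in (-Real.pi)..Real.pi, F y θ)
      (∫ θ in (-Real.pi)..Real.pi, F' y θ) y := by
  have hcy : ∀ G : ℝ → ℝ → ℝ, ContinuousOn (fun p : ℝ × ℝ => G p.1 p.2) (Ioi 0 ×ˢ univ) →
      ∀ x, 0 < x → Continuous (G x) := by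
    intro G hG x hx
    have h1 : ContinuousOn (fun θ : ℝ => (fun p : ℝ × ℝ => G p.1 p.2) (x, θ)) univ :=
      hG.comp (by fun_prop) (fun θ _ => ⟨hx, mem_univ _⟩)
    exact continuousOn_univ.1 h1
  set s : Set ℝ := Icc (y / 2) (2 * y) with hs
  have hsn : s ∈ 𝓝 y := Icc_mem_nhds (by linarith) (by linarith)
  have hs0 : ∀ x ∈ s, 0 < x := fun x hx => by
    have := hx.1
    linarith
  have hK : IsCompact (s ×ˢ Icc (-Real.pi) Real.pi) := isCompact_Icc.prod isCompact_Icc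
  obtain ⟨C, hC⟩ := hK.exists_bound_of_continuousOn
    (hF'.mono (fun p hp => ⟨hs0 _ hp.1, mem_univ _⟩))
  refine (intervalIntegral.hasDerivAt_integral_of_dominated_loc_of_deriv_le (s := s)
    (bound := fun _ => C) hsn ?_ ?_ ?_ ?_ ?_ ?_).2
  · filter_upwards [Ioi_mem_nhds hy] with x hx
    exact (hcy F hF x hx).aestronglyMeasurable
  · exact (hcy F hF y hy).intervalIntegrable _ _
  · exact (hcy F' hF' y hy).aestronglyMeasurable
  · refine Filter.Eventually.of_forall fun t ht x hx => ?_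
    have hpi := Real.pi_pos
    rw [uIoc_of_le (by linarith)] at ht
    exact hC (x, t) ⟨hx, ⟨ht.1.le, ht.2⟩⟩
  · exact intervalIntegrable_const
  · exact Filter.Eventually.of_forall fun t _ x hx => hd x (hs0 x hx) t

theorem means_ode {g : ℂ → ℂ} {B : ℝ} (hB : 0 ≤ B) (hg : DifferentiableOn ℂ g (ball 0 1))
    (hb : ∀ ξ ∈ ball (0 : ℂ) 1, ‖deriv g ξ‖ * (1 - ‖ξ‖) ≤ B) (σ : ℝ) :
    ∃ J1 J2 : ℝ → ℝ,
      (∀ y : ℝ, 0 < y → HasDerivAt (fun y : ℝ => ∫ θ in (-Real.pi)..Real.pi,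
        Real.exp (σ * (g (exp (-(y : ℂ) + θ * I))).re)) (J1 y) y) ∧
      (∀ y : ℝ, 0 < y → HasDerivAt J1 (J2 y) y) ∧
      (∀ y : ℝ, 0 < y → 0 < ∫ θ in (-Real.pi)..Real.pi,
        Real.exp (σ * (g (exp (-(y : ℂ) + θ * I))).re)) ∧
      (∀ y : ℝ, 0 < y → J2 y ≤ (σ ^ 2 * B ^ 2) / y ^ 2 * ∫ θ in (-Real.pi)..Real.pi,
        Real.exp (σ * (g (exp (-(y : ℂ) + θ * I))).re)) := by
  set HP : Set ℂ := {z | z.re < 0} with hHP
  have hHPo : IsOpen HP := isOpen_lt continuous_re continuous_const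
  set G : ℂ → ℂ := fun z => g (exp z) with hG
  have hexp : ∀ z ∈ HP, exp z ∈ ball (0 : ℂ) 1 := by
    intro z hz
    rw [mem_ball_zero_iff, norm_exp]
    have := Real.exp_lt_exp.2 hz
    rwa [Real.exp_zero] at this
  have hGd : DifferentiableOn ℂ G HP :=
    hg.comp (differentiable_exp.differentiableOn) hexp
  set H1 := deriv G with hH1
  set H2 := deriv H1 with hH2
  have hH1d : DifferentiableOn ℂ H1 HP := hGd.deriv hHPo
  have hH2d : DifferentiableOn ℂ H2 HP := hH1d.deriv hHPo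
  have hG1 : ∀ z ∈ HP, HasDerivAt G (H1 z) z := fun z hz =>
    ((hGd z hz).differentiableAt (hHPo.mem_nhds hz)).hasDerivAt
  have hG2 : ∀ z ∈ HP, HasDerivAt H1 (H2 z) z := fun z hz =>
    ((hH1d z hz).differentiableAt (hHPo.mem_nhds hz)).hasDerivAt
  have hH1eq : ∀ z ∈ HP, H1 z = exp z * deriv g (exp z) := by
    intro z hz
    have h1 : HasDerivAt g (deriv g (exp z)) (exp z) :=
      ((hg _ (hexp z hz)).differentiableAt (isOpen_ball.mem_nhds (hexp z hz))).hasDerivAt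
    have h2 : HasDerivAt G (deriv g (exp z) * exp z) z := h1.comp z (hasDerivAt_exp z)
    rw [hH1, h2.deriv, mul_comm]
  set zz : ℝ → ℝ → ℂ := fun y θ => -(y : ℂ) + θ * I with hzz
  have hzre : ∀ y θ, (zz y θ).re = -y := by intro y θ; simp [hzz]
  have hzHP : ∀ y θ, 0 < y → zz y θ ∈ HP := by
    intro y θ hy
    show (zz y θ).re < 0
    rw [hzre]; linarith
  have hzc : Continuous (fun p : ℝ × ℝ => zz p.1 p.2) := by
    show Continuous (fun p : ℝ × ℝ => -(p.1 : ℂ) + p.2 * I)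
    fun_prop
  have hzy : ∀ y θ, HasDerivAt (fun y : ℝ => zz y θ) (-1) y := by
    intro y θ
    show HasDerivAt (fun y : ℝ => -(y : ℂ) + θ * I) (-1) y
    exact (hasDerivAt_id y).ofReal_comp.neg.add_const _
  have hzθ : ∀ y θ, HasDerivAt (fun θ : ℝ => zz y θ) I θ := by
    intro y θ
    show HasDerivAt (fun θ : ℝ => -(y : ℂ) + θ * I) I θ
    have h := ((hasDerivAt_id θ).ofReal_comp.mul_const I).const_add (-(y : ℂ))
    simpa using h
  have hre : ∀ (f : ℝ → ℂ) (f' : ℂ) (x : ℝ), HasDerivAt f f' x →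
      HasDerivAt (fun x => (f x).re) f'.re x := fun f f' x h =>
    (Complex.reCLM.hasFDerivAt.comp_hasDerivAt x h)
  have him : ∀ (f : ℝ → ℂ) (f' : ℂ) (x : ℝ), HasDerivAt f f' x →
      HasDerivAt (fun x => (f x).im) f'.im x := fun f f' x h =>
    (Complex.imCLM.hasFDerivAt.comp_hasDerivAt x h)
  have hcomp : ∀ f : ℂ → ℂ, DifferentiableOn ℂ f HP →
      ContinuousOn (fun p : ℝ × ℝ => f (zz p.1 p.2)) (Ioi 0 ×ˢ univ) := by
    intro f hf
    exact hf.continuousOn.comp hzc.continuousOn (fun p hp => hzHP _ _ hp.1)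
  have cG := hcomp G hGd
  have c1 := hcomp H1 hH1d
  have c2 := hcomp H2 hH2d
  set Φ : ℝ → ℝ → ℝ := fun y θ => Real.exp (σ * (G (zz y θ)).re) with hΦ
  set Φ1 : ℝ → ℝ → ℝ := fun y θ => -(σ * (H1 (zz y θ)).re) * Φ y θ with hΦ1
  set Φ2 : ℝ → ℝ → ℝ := fun y θ =>
    (σ * (H2 (zz y θ)).re + σ ^ 2 * (H1 (zz y θ)).re ^ 2) * Φ y θ with hΦ2
  set Ψ1 : ℝ → ℝ → ℝ := fun y θ => -(σ * (H1 (zz y θ)).im) * Φ y θ with hΨ1
  set Ψ2 : ℝ → ℝ → ℝ := fun y θ =>
    (-(σ * (H2 (zz y θ)).re) + σ ^ 2 * (H1 (zz y θ)).im ^ 2) * Φ y θ with hΨ2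
  have cre : ∀ f : ℝ × ℝ → ℂ, ContinuousOn f (Ioi 0 ×ˢ univ) →
      ContinuousOn (fun p => (f p).re) (Ioi 0 ×ˢ univ) := fun f hf =>
    continuous_re.comp_continuousOn hf
  have cim : ∀ f : ℝ × ℝ → ℂ, ContinuousOn f (Ioi 0 ×ˢ univ) →
      ContinuousOn (fun p => (f p).im) (Ioi 0 ×ˢ univ) := fun f hf =>
    continuous_im.comp_continuousOn hf
  have cΦ : ContinuousOn (fun p : ℝ × ℝ => Φ p.1 p.2) (Ioi 0 ×ˢ univ) :=
    Real.continuous_exp.comp_continuousOn ((cre _ cG).const_smul σ)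
  have cΦ1 : ContinuousOn (fun p : ℝ × ℝ => Φ1 p.1 p.2) (Ioi 0 ×ˢ univ) :=
    (((cre _ c1).const_smul σ).neg).mul cΦ
  have cΦ2 : ContinuousOn (fun p : ℝ × ℝ => Φ2 p.1 p.2) (Ioi 0 ×ˢ univ) :=
    (((cre _ c2).const_smul σ).add (((cre _ c1).pow 2).const_smul (σ ^ 2))).mul cΦ
  have cΨ2 : ContinuousOn (fun p : ℝ × ℝ => Ψ2 p.1 p.2) (Ioi 0 ×ˢ univ) :=
    ((((cre _ c2).const_smul σ).neg).add (((cim _ c1).pow 2).const_smul (σ ^ 2))).mul cΦ
  -- derivatives in y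
  have dΦ : ∀ y, 0 < y → ∀ θ, HasDerivAt (fun y => Φ y θ) (Φ1 y θ) y := by
    intro y hy θ
    have h1 : HasDerivAt (fun y : ℝ => G (zz y θ)) (H1 (zz y θ) * (-1)) y :=
      HasDerivAt.comp (h₂ := G) (h := fun y : ℝ => zz y θ) y (hG1 _ (hzHP y θ hy)) (hzy y θ)
    have h2 := ((hre _ _ _ h1).const_mul σ).exp
    refine h2.congr_deriv ?_
    show Real.exp (σ * (G (zz y θ)).re) * (σ * (H1 (zz y θ) * -1).re) =
      -(σ * (H1 (zz y θ)).re) * Real.exp (σ * (G (zz y θ)).re)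
    simp only [mul_neg, mul_one, neg_re]
    ring
  have dΦ1 : ∀ y, 0 < y → ∀ θ, HasDerivAt (fun y => Φ1 y θ) (Φ2 y θ) y := by
    intro y hy θ
    have h1 : HasDerivAt (fun y : ℝ => H1 (zz y θ)) (H2 (zz y θ) * (-1)) y :=
      HasDerivAt.comp (h₂ := H1) (h := fun y : ℝ => zz y θ) y (hG2 _ (hzHP y θ hy)) (hzy y θ)
    have h2 := (((hre _ _ _ h1).const_mul σ).neg).mul (dΦ y hy θ)
    refine h2.congr_deriv ?_
    show -(σ * (H2 (zz y θ) * -1).re) * Φ y θ +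
      -(σ * (H1 (zz y θ)).re) * (-(σ * (H1 (zz y θ)).re) * Φ y θ) =
      (σ * (H2 (zz y θ)).re + σ ^ 2 * (H1 (zz y θ)).re ^ 2) * Φ y θ
    simp only [mul_neg, mul_one, neg_re]
    ring
  -- derivative in θ
  have dΨ : ∀ y, 0 < y → ∀ θ, HasDerivAt (fun θ => Ψ1 y θ) (Ψ2 y θ) θ := by
    intro y hy θ
    have h0 : HasDerivAt (fun θ : ℝ => G (zz y θ)) (H1 (zz y θ) * I) θ :=
      HasDerivAt.comp (h₂ := G) (h := fun θ : ℝ => zz y θ) θ (hG1 _ (hzHP y θ hy)) (hzθ y θ)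
    have h1 : HasDerivAt (fun θ : ℝ => H1 (zz y θ)) (H2 (zz y θ) * I) θ :=
      HasDerivAt.comp (h₂ := H1) (h := fun θ : ℝ => zz y θ) θ (hG2 _ (hzHP y θ hy)) (hzθ y θ)
    have h2 := ((hre _ _ _ h0).const_mul σ).exp
    have h3 := (((him _ _ _ h1).const_mul σ).neg).mul h2
    refine h3.congr_deriv ?_
    show -(σ * (H2 (zz y θ) * I).im) * Real.exp (σ * (G (zz y θ)).re) +
      -(σ * (H1 (zz y θ)).im) * (Real.exp (σ * (G (zz y θ)).re) * (σ * (H1 (zz y θ) * I).re)) =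
      (-(σ * (H2 (zz y θ)).re) + σ ^ 2 * (H1 (zz y θ)).im ^ 2) * Real.exp (σ * (G (zz y θ)).re)
    simp only [mul_I_re, mul_I_im]
    ring
  have hcy : ∀ K : ℝ → ℝ → ℝ, ContinuousOn (fun p : ℝ × ℝ => K p.1 p.2) (Ioi 0 ×ˢ univ) →
      ∀ x, 0 < x → Continuous (K x) := by
    intro K hK x hx
    have h1 : ContinuousOn (fun θ : ℝ => (fun p : ℝ × ℝ => K p.1 p.2) (x, θ)) univ :=
      hK.comp (by fun_prop) (fun θ _ => ⟨hx, mem_univ _⟩)
    exact continuousOn_univ.1 h1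
  have hpi := Real.pi_pos
  refine ⟨fun y => ∫ θ in (-Real.pi)..Real.pi, Φ1 y θ, fun y => ∫ θ in (-Real.pi)..Real.pi, Φ2 y θ,
    fun y hy => mo_diff cΦ cΦ1 dΦ y hy, fun y hy => mo_diff cΦ1 cΦ2 dΦ1 y hy, ?_, ?_⟩
  · intro y hy
    exact intervalIntegral.intervalIntegral_pos_of_pos ((hcy Φ cΦ y hy).intervalIntegrable _ _)
      (fun θ => Real.exp_pos _) (by linarith)
  · intro y hy
    have e1 : ∫ θ in (-Real.pi)..Real.pi, Ψ2 y θ = 0 := by
      rw [intervalIntegral.integral_eq_sub_of_hasDerivAt (fun θ _ => dΨ y hy θ)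
        ((hcy Ψ2 cΨ2 y hy).intervalIntegrable _ _)]
      have hper : exp (zz y Real.pi) = exp (zz y (-Real.pi)) := by
        have : zz y Real.pi = zz y (-Real.pi) + 2 * Real.pi * I := by
          simp only [hzz]; push_cast; ring
        rw [this, exp_periodic (zz y (-Real.pi))]
      have h1 : G (zz y Real.pi) = G (zz y (-Real.pi)) := by
        show g (exp _) = g (exp _)
        rw [hper]
      have h2 : H1 (zz y Real.pi) = H1 (zz y (-Real.pi)) := by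
        rw [hH1eq _ (hzHP y _ hy), hH1eq _ (hzHP y _ hy), hper]
      show -(σ * (H1 (zz y Real.pi)).im) * Real.exp (σ * (G (zz y Real.pi)).re) -
        -(σ * (H1 (zz y (-Real.pi))).im) * Real.exp (σ * (G (zz y (-Real.pi))).re) = 0
      rw [h1, h2, sub_self]
    have e2 : ∫ θ in (-Real.pi)..Real.pi, Φ2 y θ =
        ∫ θ in (-Real.pi)..Real.pi, (Φ2 y θ + Ψ2 y θ) := by
      rw [intervalIntegral.integral_add ((hcy Φ2 cΦ2 y hy).intervalIntegrable _ _)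
        ((hcy Ψ2 cΨ2 y hy).intervalIntegrable _ _), e1, add_zero]
    show ∫ θ in (-Real.pi)..Real.pi, Φ2 y θ ≤
      (σ ^ 2 * B ^ 2) / y ^ 2 * ∫ θ in (-Real.pi)..Real.pi, Φ y θ
    rw [e2, ← intervalIntegral.integral_const_mul]
    have i1 : Continuous (fun θ => Φ2 y θ + Ψ2 y θ) := (hcy Φ2 cΦ2 y hy).add (hcy Ψ2 cΨ2 y hy)
    have i2 : Continuous (fun θ => (σ ^ 2 * B ^ 2) / y ^ 2 * Φ y θ) :=
      continuous_const.mul (hcy Φ cΦ y hy)
    apply intervalIntegral.integral_mono_on (by linarith)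
      (i1.intervalIntegrable _ _) (i2.intervalIntegrable _ _)
    intro θ _
    have hz := hzHP y θ hy
    have hn : y * ‖H1 (zz y θ)‖ ≤ B := by
      have h1 := hb _ (hexp _ hz)
      have h2 : ‖exp (zz y θ)‖ = Real.exp (-y) := by rw [norm_exp, hzre]
      rw [h2] at h1
      rw [hH1eq _ hz, norm_mul, h2]
      have h3 : y * Real.exp (-y) ≤ 1 - Real.exp (-y) := by
        have h4 := Real.add_one_le_exp y
        have h5 : Real.exp y * Real.exp (-y) = 1 := by rw [← Real.exp_add]; simp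
        have h6 := Real.exp_pos (-y)
        nlinarith
      calc y * (Real.exp (-y) * ‖deriv g (exp (zz y θ))‖)
          = (y * Real.exp (-y)) * ‖deriv g (exp (zz y θ))‖ := by ring
        _ ≤ (1 - Real.exp (-y)) * ‖deriv g (exp (zz y θ))‖ :=
            mul_le_mul_of_nonneg_right h3 (norm_nonneg _)
        _ ≤ B := by rw [mul_comm]; exact h1
    have hsum : Φ2 y θ + Ψ2 y θ = σ ^ 2 * ‖H1 (zz y θ)‖ ^ 2 * Φ y θ := by
      have h1 : ‖H1 (zz y θ)‖ ^ 2 = (H1 (zz y θ)).re ^ 2 + (H1 (zz y θ)).im ^ 2 := by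
        rw [← normSq_eq_norm_sq, normSq_apply]; ring
      show (σ * (H2 (zz y θ)).re + σ ^ 2 * (H1 (zz y θ)).re ^ 2) * Φ y θ +
        (-(σ * (H2 (zz y θ)).re) + σ ^ 2 * (H1 (zz y θ)).im ^ 2) * Φ y θ = _
      rw [h1]; ring
    rw [hsum]
    apply mul_le_mul_of_nonneg_right _ (Real.exp_pos _).le
    rw [mul_div_assoc]
    apply mul_le_mul_of_nonneg_left _ (sq_nonneg σ)
    rw [le_div_iff₀ (by positivity)]
    calc ‖H1 (zz y θ)‖ ^ 2 * y ^ 2 = (y * ‖H1 (zz y θ)‖) ^ 2 := by ring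
      _ ≤ B ^ 2 := pow_le_pow_left₀ (by positivity) hn 2


theorem ld_one {g : ℂ → ℂ} {B : ℝ} (hB : 1 ≤ B) (hg : DifferentiableOn ℂ g (ball 0 1))
    {σ s e C : ℝ} (hs : 0 < s) (he : 0 < e) (hse : s = e / (2 * B ^ 2)) (hσ : σ ^ 2 = s ^ 2)
    (hC : 0 < C) (hm : ∀ y ∈ Ioc (0 : ℝ) 2,
      ∫ θ in (-Real.pi)..Real.pi, Real.exp (σ * (g (exp (-(y : ℂ) + θ * I))).re)
        ≤ C * y ^ (-(σ ^ 2 * B ^ 2))) (r : ℝ) (hr : r ∈ Ioo (1 / 2 : ℝ) 1) (k : ℕ) (hk : 1 ≤ k) :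
    volume {θ : ℝ | θ ∈ Ioo (-Real.pi) Real.pi ∧
          s * e * k < σ * (g (((r * (1 - (1 / 2) ^ k) : ℝ) : ℂ) * exp (θ * I))).re}
        ≤ ENNReal.ofReal (C * Real.exp (-(e ^ 2 / (4 * B ^ 2) * k))) := by
  obtain ⟨hr1, hr2⟩ := hr
  set x : ℝ := r * (1 - (1 / 2) ^ k) with hx
  have hpow : ((1 : ℝ) / 2) ^ k ≤ 1 / 2 := by
    calc ((1 : ℝ) / 2) ^ k ≤ (1 / 2) ^ 1 := pow_le_pow_of_le_one (by norm_num) (by norm_num) hk
      _ = 1 / 2 := pow_one _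
  have hpow0 : 0 < ((1 : ℝ) / 2) ^ k := by positivity
  have hx4 : 1 / 4 ≤ x := by rw [hx]; nlinarith
  have hx0 : 0 < x := by linarith
  have hxle : x ≤ 1 - (1 / 2) ^ k := by rw [hx]; nlinarith
  have hx1 : x < 1 := by linarith
  set y : ℝ := -Real.log x with hy
  have hyge : (1 / 2) ^ k ≤ y := by
    have := Real.log_le_sub_one_of_pos hx0
    rw [hy]; linarith
  have hy0 : 0 < y := by linarith
  have hy2 : y ≤ 2 := by
    have h1 : Real.log (1 / 4) ≤ Real.log x := Real.log_le_log (by norm_num) hx4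
    have h2 : Real.log (1 / 4) = -(2 * Real.log 2) := by
      rw [show (1 / 4 : ℝ) = (2 ^ 2)⁻¹ by norm_num, Real.log_inv, Real.log_pow]
      push_cast; ring
    have h3 := Real.log_two_lt_d9
    rw [hy]; linarith
  have hexp : ∀ θ : ℝ, exp (-(y : ℂ) + θ * I) = (x : ℂ) * exp (θ * I) := by
    intro θ
    rw [Complex.exp_add]
    congr 1
    rw [← Complex.ofReal_neg, ← Complex.ofReal_exp, hy, neg_neg, Real.exp_log hx0]
  set f : ℝ → ℝ := fun θ => Real.exp (σ * (g ((x : ℂ) * exp (θ * I))).re) with hf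
  have hfc : Continuous f := by
    have h1 : ∀ θ : ℝ, (x : ℂ) * exp (θ * I) ∈ ball (0 : ℂ) 1 := by
      intro θ
      rw [mem_ball_zero_iff, norm_mul, Complex.norm_exp_ofReal_mul_I, mul_one, Complex.norm_real,
        Real.norm_of_nonneg hx0.le]
      exact hx1
    have h2 : Continuous fun θ : ℝ => g ((x : ℂ) * exp (θ * I)) :=
      hg.continuousOn.comp_continuous (by fun_prop) h1
    exact Real.continuous_exp.comp (continuous_const.mul (Complex.continuous_re.comp h2))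
  have hm1 := hm y ⟨hy0, hy2⟩
  simp only [hexp] at hm1
  rw [intervalIntegral.integral_of_le (by linarith [Real.pi_pos])] at hm1
  have hint : IntegrableOn f (Ioc (-Real.pi) Real.pi) :=
    (hfc.integrableOn_Icc).mono_set Ioc_subset_Icc_self
  have hmark := mul_meas_ge_le_lintegral₀ (μ := volume.restrict (Ioc (-Real.pi) Real.pi))
    (f := fun θ => ENNReal.ofReal (f θ)) (hfc.measurable.ennreal_ofReal.aemeasurable)
    (ENNReal.ofReal (Real.exp (s * e * k)))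
  rw [← ofReal_integral_eq_lintegral_ofReal hint
    (Filter.Eventually.of_forall fun θ => (Real.exp_pos _).le)] at hmark
  have hsub : volume {θ : ℝ | θ ∈ Ioo (-Real.pi) Real.pi ∧
          s * e * k < σ * (g ((x : ℂ) * exp (θ * I))).re} ≤
      (volume.restrict (Ioc (-Real.pi) Real.pi)) {θ | ENNReal.ofReal (Real.exp (s * e * k)) ≤
        ENNReal.ofReal (f θ)} := by
    have h1 : MeasurableSet {θ : ℝ | ENNReal.ofReal (Real.exp (s * e * k)) ≤
        ENNReal.ofReal (f θ)} := measurableSet_le measurable_const hfc.measurable.ennreal_ofReal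
    rw [Measure.restrict_apply h1]
    apply measure_mono
    rintro θ ⟨h2, h3⟩
    refine ⟨?_, Ioo_subset_Ioc_self h2⟩
    exact ENNReal.ofReal_le_ofReal (Real.exp_le_exp.2 h3.le)
  refine hsub.trans ?_
  have hE0 : ENNReal.ofReal (Real.exp (s * e * k)) ≠ 0 := by
    rw [ENNReal.ofReal_ne_zero_iff]; exact Real.exp_pos _
  rw [mul_comm] at hmark
  have h5 := (ENNReal.le_div_iff_mul_le (Or.inl hE0) (Or.inl ENNReal.ofReal_ne_top)).2 hmark
  refine h5.trans ?_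
  rw [← ENNReal.ofReal_div_of_pos (Real.exp_pos _)]
  apply ENNReal.ofReal_le_ofReal
  rw [div_le_iff₀ (Real.exp_pos _)]
  refine hm1.trans ?_
  rw [mul_assoc, ← Real.exp_add]
  apply mul_le_mul_of_nonneg_left _ hC.le
  have ha : -(σ ^ 2 * B ^ 2) ≤ 0 := by
    have : 0 ≤ σ ^ 2 * B ^ 2 := by positivity
    linarith
  have h6 : y ^ (-(σ ^ 2 * B ^ 2)) ≤ ((1 / 2 : ℝ) ^ k) ^ (-(σ ^ 2 * B ^ 2)) :=
    Real.rpow_le_rpow_of_nonpos hpow0 hyge ha
  refine h6.trans ?_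
  rw [Real.rpow_def_of_pos hpow0, Real.log_pow, show (1 / 2 : ℝ) = 2⁻¹ by norm_num, Real.log_inv]
  apply Real.exp_le_exp.2
  have hB0 : 0 < B := by linarith
  have e1 : σ ^ 2 * B ^ 2 = e ^ 2 / (4 * B ^ 2) := by
    rw [hσ, hse]; field_simp; ring
  have e2 : s * e = 2 * (e ^ 2 / (4 * B ^ 2)) := by
    rw [hse]; field_simp; ring
  rw [e1, e2]
  have h7 : 0 < e ^ 2 / (4 * B ^ 2) := by positivity
  have h8 : (1 : ℝ) ≤ k := by exact_mod_cast hk
  have h9 := Real.log_two_lt_d9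
  have h10 : 0 < e ^ 2 / (4 * B ^ 2) * k := by positivity
  nlinarith

theorem bloch_ld {g : ℂ → ℂ} {B : ℝ} (hB : 1 ≤ B) (hg : DifferentiableOn ℂ g (ball 0 1))
    (hmeans : ∀ σ : ℝ, ∃ C : ℝ, 0 < C ∧ ∀ y ∈ Ioc (0 : ℝ) 2,
      ∫ θ in (-Real.pi)..Real.pi, Real.exp (σ * (g (exp (-(y : ℂ) + θ * I))).re)
        ≤ C * y ^ (-(σ ^ 2 * B ^ 2))) {η : ℝ} (hη : 0 < η) :
    ∃ C c : ℝ, 0 < C ∧ 0 < c ∧ ∀ r ∈ Ioo (1 / 2 : ℝ) 1, ∀ k : ℕ, 1 ≤ k →
      volume {θ : ℝ | θ ∈ Ioo (-Real.pi) Real.pi ∧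
          η * k < |(g (((r * (1 - (1 / 2) ^ k) : ℝ) : ℂ) * exp (θ * I))).re|}
        ≤ ENNReal.ofReal (C * Real.exp (-(c * k))) := by
  have hB0 : 0 < B := by linarith
  set s : ℝ := η / (2 * B ^ 2) with hs
  have hs0 : 0 < s := by positivity
  obtain ⟨C1, hC1, h1⟩ := hmeans s
  obtain ⟨C2, hC2, h2⟩ := hmeans (-s)
  refine ⟨C1 + C2, η ^ 2 / (4 * B ^ 2), by positivity, by positivity, ?_⟩
  intro r hr k hk
  have hA := ld_one hB hg hs0 hη hs rfl hC1 h1 r hr k hk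
  have hB' := ld_one hB hg hs0 hη hs (by ring) hC2 h2 r hr k hk
  rw [add_mul, ENNReal.ofReal_add (by positivity) (by positivity)]
  refine le_trans ?_ (add_le_add hA hB')
  refine (measure_mono ?_).trans (measure_union_le _ _)
  rintro θ ⟨h3, h4⟩
  rcases abs_choice (g (((r * (1 - (1 / 2) ^ k) : ℝ) : ℂ) * exp (θ * I))).re with h5 | h5
  · left
    refine ⟨h3, ?_⟩
    rw [h5] at h4
    rw [mul_assoc]
    exact mul_lt_mul_of_pos_left h4 hs0
  · right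
    refine ⟨h3, ?_⟩
    rw [h5] at h4
    have h6 := mul_lt_mul_of_pos_left h4 hs0
    rw [mul_assoc]
    linarith


end Pool.Agent.Helper265.Br
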