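import Mathlib

set_option autoImplicit false
open Complex Set Filter Metric Topology MeasureTheory
open scoped ENNReal

namespace Pool.Agent.Helper265.Br

theorem tail {ψ g : ℂ → ℂ} {B : ℝ} (hB : 0 ≤ B) (hd : DifferentiableOn ℂ ψ (ball 0 1))
    (hg : DifferentiableOn ℂ g (ball 0 1))
    (hexp : ∀ ξ ∈ ball (0 : ℂ) 1, deriv ψ ξ = exp (g ξ))
    (hrad : ∀ u : ℂ, ‖u‖ = 1 → ∀ s t : ℝ, 0 ≤ s → s ≤ t → t < 1 →
      ‖g (t * u) - g (s * u)‖ ≤ B * Real.log ((1 - s) / (1 - t)))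
    {η : ℝ} (hη0 : 0 < η) (hη : η ≤ 1 / 4) :
    ∃ C : ℝ, 0 < C ∧ ∀ r ∈ Ioo (1 / 2 : ℝ) 1, ∀ θ : ℝ, ∀ k : ℕ, 1 ≤ k →
      (∀ j : ℕ, k ≤ j → |(g (((r * (1 - (1 / 2) ^ j) : ℝ) : ℂ) * exp (θ * I))).re| ≤ η * j) →
      ∀ s ∈ Icc ((1 / 2 : ℝ) ^ (k + 1)) ((1 / 2 : ℝ) ^ k),
        ‖ψ (((r * (1 - s) : ℝ) : ℂ) * exp (θ * I)) - ψ ((r : ℂ) * exp (θ * I))‖
          ≤ C * Real.exp (-((Real.log 2 - η) * k)) ∧
        Real.exp (-(η * k)) ≤ C * ‖deriv ψ (((r * (1 - s) : ℝ) : ℂ) * exp (θ * I))‖ := by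
  set K : ℝ := Real.exp (B * Real.log 2) with hK
  have hK0 : 0 < K := Real.exp_pos _
  have hK1 : 1 ≤ K := by
    rw [hK]; apply Real.one_le_exp; exact mul_nonneg hB (Real.log_nonneg (by norm_num))
  refine ⟨3 * K, by positivity, ?_⟩
  intro r hr θ k hk hj s hs
  obtain ⟨hr1, hr2⟩ := hr
  have hr0 : 0 < r := by linarith
  set u : ℂ := exp (θ * I) with hu
  have hun : ‖u‖ = 1 := norm_exp_ofReal_mul_I θ
  -- membership
  have hmem : ∀ a : ℝ, 0 ≤ a → a ≤ 1 → (((r * (1 - a) : ℝ) : ℂ) * u) ∈ ball (0 : ℂ) 1 := by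
    intro a ha ha1
    rw [mem_ball_zero_iff, norm_mul, hun, mul_one, Complex.norm_real, Real.norm_eq_abs,
      abs_of_nonneg (mul_nonneg hr0.le (by linarith))]
    nlinarith
  -- Lemma A
  have hA : ∀ j : ℕ, k ≤ j → ∀ a ∈ Icc ((1 / 2 : ℝ) ^ (j + 1)) ((1 / 2 : ℝ) ^ j),
      |(g (((r * (1 - a) : ℝ) : ℂ) * u)).re| ≤ η * j + B * Real.log 2 := by
    intro j hkj a ha
    obtain ⟨ha1, ha2⟩ := ha
    have hpj : (0:ℝ) < (1/2:ℝ)^j := by positivity
    have hpj1 : (1/2:ℝ)^j ≤ 1 := pow_le_one₀ (by norm_num) (by norm_num)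
    have hpow : (1/2:ℝ)^(j+1) = (1/2:ℝ)^j / 2 := by rw [pow_succ]; ring
    rw [hpow] at ha1
    have ha0 : 0 < a := by linarith
    have h1 := hrad u hun (r * (1 - (1/2)^j)) (r * (1 - a)) (mul_nonneg hr0.le (by linarith))
      (by nlinarith) (by nlinarith)
    have h2 : Real.log ((1 - r * (1 - (1/2)^j)) / (1 - r * (1 - a))) ≤ Real.log 2 := by
      apply Real.log_le_log
      · apply div_pos <;> nlinarith
      · rw [div_le_iff₀ (by nlinarith)]
        nlinarith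
    have h3 : ‖g (((r * (1 - a) : ℝ) : ℂ) * u) - g (((r * (1 - (1 / 2) ^ j) : ℝ) : ℂ) * u)‖
        ≤ B * Real.log 2 := h1.trans (mul_le_mul_of_nonneg_left h2 hB)
    have h4 := (Complex.abs_re_le_norm _).trans h3
    rw [Complex.sub_re] at h4
    have h5 := hj j hkj
    have h6 := abs_le.mp h4
    have h7 := abs_le.mp h5
    rw [abs_le]
    constructor <;> linarith [h6.1, h6.2, h7.1, h7.2]
  have hnorm : ∀ a : ℝ, 0 ≤ a → a ≤ 1 → ‖deriv ψ (((r * (1 - a) : ℝ) : ℂ) * u)‖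
      = Real.exp (g (((r * (1 - a) : ℝ) : ℂ) * u)).re := by
    intro a ha ha1
    rw [hexp _ (hmem a ha ha1), Complex.norm_exp]
  -- Lemma C
  have hC : ∀ j : ℕ, k ≤ j → ∀ a ∈ Icc ((1 / 2 : ℝ) ^ (j + 1)) ((1 / 2 : ℝ) ^ j),
      ‖ψ (((r * (1 - a) : ℝ) : ℂ) * u) - ψ (((r * (1 - (1/2)^(j+1)) : ℝ) : ℂ) * u)‖
        ≤ K * (Real.exp η / 2) ^ j := by
    intro j hkj a ha
    have ha' := ha
    obtain ⟨ha1, ha2⟩ := ha
    have hpj : (0:ℝ) < (1/2:ℝ)^j := by positivity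
    have hpj1 : (1/2:ℝ)^j ≤ 1 := pow_le_one₀ (by norm_num) (by norm_num)
    have hpow : (1/2:ℝ)^(j+1) = (1/2:ℝ)^j / 2 := by rw [pow_succ]; ring
    have hseg : ∀ x ∈ segment ℝ (((r * (1 - (1/2)^(j+1)) : ℝ) : ℂ) * u) (((r * (1 - a) : ℝ) : ℂ) * u),
        ∃ c ∈ Icc ((1 / 2 : ℝ) ^ (j + 1)) ((1 / 2 : ℝ) ^ j), x = (((r * (1 - c) : ℝ) : ℂ) * u) := by
      intro x hx
      obtain ⟨α, β, hα, hβ, hαβ, rfl⟩ := hx
      refine ⟨α * (1/2)^(j+1) + β * a, ⟨?_, ?_⟩, ?_⟩
      · nlinarith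
      · have hq : (1/2:ℝ)^(j+1) ≤ (1/2:ℝ)^j := by rw [hpow]; linarith
        nlinarith
      · rw [Complex.real_smul, Complex.real_smul]
        have : α = 1 - β := by linarith
        subst this
        push_cast
        ring
    have hmv := Convex.norm_image_sub_le_of_norm_deriv_le (𝕜 := ℂ) (f := ψ)
      (C := Real.exp (η * j + B * Real.log 2))
      (s := segment ℝ (((r * (1 - (1/2)^(j+1)) : ℝ) : ℂ) * u) (((r * (1 - a) : ℝ) : ℂ) * u))
      (x := (((r * (1 - (1/2)^(j+1)) : ℝ) : ℂ) * u)) (y := (((r * (1 - a) : ℝ) : ℂ) * u))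
      ?_ ?_ (convex_segment _ _) (left_mem_segment _ _ _) (right_mem_segment _ _ _)
    · refine hmv.trans ?_
      have h1 : ‖(((r * (1 - a) : ℝ) : ℂ) * u) - (((r * (1 - (1/2)^(j+1)) : ℝ) : ℂ) * u)‖
          ≤ (1/2:ℝ)^j := by
        rw [← sub_mul, norm_mul, hun, mul_one, ← Complex.ofReal_sub, Complex.norm_real,
          Real.norm_eq_abs, abs_le]
        rw [hpow] at ha1 ⊢
        constructor <;> nlinarith
      calc Real.exp (η * j + B * Real.log 2) * _ ≤ Real.exp (η * j + B * Real.log 2) * (1/2:ℝ)^j :=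
            mul_le_mul_of_nonneg_left h1 (Real.exp_pos _).le
        _ = K * (Real.exp η / 2) ^ j := by
            have h8 : Real.exp (η * j) = Real.exp η ^ j := by rw [mul_comm, Real.exp_nat_mul]
            rw [Real.exp_add, h8, hK, div_pow, div_pow, one_pow]
            ring
    · intro x hx
      obtain ⟨c, hc, rfl⟩ := hseg x hx
      have hc0 : 0 ≤ c := le_trans (by positivity) hc.1
      exact (hd _ (hmem c hc0 (hc.2.trans hpj1))).differentiableAt
        (isOpen_ball.mem_nhds (hmem c hc0 (hc.2.trans hpj1)))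
    · intro x hx
      obtain ⟨c, hc, rfl⟩ := hseg x hx
      have hc0 : 0 ≤ c := le_trans (by positivity) hc.1
      rw [hnorm c hc0 (hc.2.trans hpj1)]
      apply Real.exp_le_exp.mpr
      exact (le_abs_self _).trans (hA j hkj c hc)
  -- q
  set q : ℝ := Real.exp η / 2 with hq
  have hq0 : 0 < q := by positivity
  have hq1 : q ≤ 2 / 3 := by
    have h1 : Real.exp η ≤ Real.exp (1/4) := Real.exp_le_exp.mpr hη
    have h2 : Real.exp (1/4 : ℝ) ≤ 1 / (1 - 1/4) := by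
      have := Real.add_one_le_exp (-(1/4) : ℝ)
      rw [Real.exp_neg] at this
      rw [le_div_iff₀ (by norm_num)]
      have h3 : (0:ℝ) < Real.exp (1/4) := Real.exp_pos _
      have h4 : Real.exp (1/4:ℝ) * (-(1/4) + 1) ≤ Real.exp (1/4:ℝ) * (Real.exp (1/4))⁻¹ :=
        mul_le_mul_of_nonneg_left this h3.le
      rw [mul_inv_cancel₀ h3.ne'] at h4
      linarith
    rw [hq]
    norm_num at h2
    linarith
  have hD : ∀ n : ℕ, ‖ψ (((r * (1 - s) : ℝ) : ℂ) * u) - ψ (((r * (1 - (1/2)^(k+1+n)) : ℝ) : ℂ) * u)‖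
      ≤ 3 * K * (q ^ k - q ^ (k + n + 1)) := by
    intro n
    induction n with
    | zero =>
      have h1 := hC k le_rfl s hs
      have h2 : 0 < q ^ k := by positivity
      have h3 : q ^ (k + 0 + 1) = q ^ k * q := by rw [add_zero, pow_succ]
      have h4 : K * q ^ k ≤ 3 * K * (q ^ k - q ^ (k + 0 + 1)) := by
        rw [h3]
        have : 0 < K * q ^ k := by positivity
        nlinarith
      simpa using h1.trans h4
    | succ n ih =>
      have h1 := hC (k + 1 + n) (by omega) ((1/2)^(k+1+n)) ⟨?_, le_rfl⟩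
      · have h2 : 0 < q ^ (k + n + 1) := by positivity
        have h3 : q ^ (k + (n + 1) + 1) = q ^ (k + n + 1) * q := by rw [← pow_succ]; congr 1
        have h4 : q ^ (k + 1 + n) = q ^ (k + n + 1) := by congr 1; ring
        have h5 : K * q ^ (k + n + 1) ≤ 3 * K * (q ^ (k + n + 1) - q ^ (k + (n + 1) + 1)) := by
          rw [h3]
          have : 0 < K * q ^ (k + n + 1) := by positivity
          nlinarith
        rw [h4] at h1
        have h6 : k + 1 + n + 1 = k + 1 + (n + 1) := by ring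
        rw [h6] at h1
        have h7 := norm_sub_le_norm_sub_add_norm_sub (ψ (((r * (1 - s) : ℝ) : ℂ) * u))
          (ψ (((r * (1 - (1/2)^(k+1+n)) : ℝ) : ℂ) * u))
          (ψ (((r * (1 - (1/2)^(k+1+(n+1))) : ℝ) : ℂ) * u))
        nlinarith
      · apply pow_le_pow_of_le_one (by norm_num) (by norm_num); omega
  have hexpq : Real.exp (-((Real.log 2 - η) * k)) = q ^ k := by
    rw [hq, div_pow, ← Real.exp_nat_mul]
    have : -((Real.log 2 - η) * k) = (k:ℝ) * η - (k:ℝ) * Real.log 2 := by ring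
    rw [this, Real.exp_sub, Real.exp_nat_mul (Real.log 2) k, Real.exp_log (by norm_num)]
  have hs0 : 0 ≤ s := le_trans (by positivity) hs.1
  have hs1 : s ≤ 1 := hs.2.trans (pow_le_one₀ (by norm_num) (by norm_num))
  constructor
  · rw [hexpq]
    have hlim : Tendsto (fun n : ℕ => ‖ψ (((r * (1 - s) : ℝ) : ℂ) * u)
        - ψ (((r * (1 - (1/2)^(k+1+n)) : ℝ) : ℂ) * u)‖) atTop
        (𝓝 ‖ψ (((r * (1 - s) : ℝ) : ℂ) * u) - ψ ((r : ℂ) * u)‖) := by
      apply Tendsto.norm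
      apply Tendsto.sub tendsto_const_nhds
      have hru : (r : ℂ) * u ∈ ball (0 : ℂ) 1 := by
        have := hmem 0 le_rfl zero_le_one
        simpa using this
      have hcont : ContinuousAt ψ ((r : ℂ) * u) :=
        ((hd _ hru).differentiableAt (isOpen_ball.mem_nhds hru)).continuousAt
      apply hcont.tendsto.comp
      have h1 : Tendsto (fun n : ℕ => (1/2:ℝ)^(k+1+n)) atTop (𝓝 0) := by
        have := tendsto_pow_atTop_nhds_zero_of_lt_one (r := (1/2:ℝ)) (by norm_num) (by norm_num)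
        have h2 := (tendsto_add_atTop_iff_nat (k+1)).mpr this
        refine h2.congr (fun n => ?_)
        congr 1; ring
      have h2 : Tendsto (fun n : ℕ => (r * (1 - (1/2:ℝ)^(k+1+n)) : ℝ)) atTop (𝓝 (r * (1 - 0))) :=
        (tendsto_const_nhds.sub h1).const_mul r
      rw [sub_zero, mul_one] at h2
      have h3 := (Complex.continuous_ofReal.tendsto r).comp h2
      exact h3.mul tendsto_const_nhds
    apply le_of_tendsto hlim
    filter_upwards with n
    refine (hD n).trans ?_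
    have h2 : 0 < q ^ (k + n + 1) := by positivity
    nlinarith
  · rw [hnorm s hs0 hs1]
    have h1 := (abs_le.mp (hA k le_rfl s hs)).1
    have h2 : Real.exp (-(η * k)) ≤ K * Real.exp (g (((r * (1 - s) : ℝ) : ℂ) * u)).re := by
      rw [hK, ← Real.exp_add]
      apply Real.exp_le_exp.mpr
      linarith
    have h3 : 0 < K * Real.exp (g (((r * (1 - s) : ℝ) : ℂ) * u)).re := by positivity
    linarith


end Pool.Agent.Helper265.Br
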