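import Mathlib

set_option autoImplicit false
open Complex Set Filter Metric Topology MeasureTheory
open scoped ENNReal

namespace Pool.Agent.Helper265.Hg

theorem scheffe {α : Type*} [MeasurableSpace α] (μ : Measure α) {p : ℝ} (hp : 1 ≤ p)
    (f : ℕ → α → ℂ) (g : α → ℂ) (hf : ∀ n, AEMeasurable (f n) μ) (hg : AEMeasurable g μ)
    (hlim : ∀ᵐ x ∂μ, Tendsto (fun n => f n x) atTop (𝓝 (g x)))
    (hfin : ∫⁻ x, ‖g x‖ₑ ^ p ∂μ ≠ ∞) (c : ℕ → ℝ≥0∞) (hc : Tendsto c atTop (𝓝 1))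
    (hle : ∀ n, ∫⁻ x, ‖f n x‖ₑ ^ p ∂μ ≤ c n * ∫⁻ x, ‖g x‖ₑ ^ p ∂μ) :
    Tendsto (fun n => ∫⁻ x, ‖f n x - g x‖ₑ ^ p ∂μ) atTop (𝓝 0) := by
  have hp0 : 0 < p := by linarith
  set I : ℝ≥0∞ := ∫⁻ x, ‖g x‖ₑ ^ p ∂μ with hI
  set K : ℝ≥0∞ := 2 ^ (p - 1) with hK
  have hKt : K ≠ ∞ := ENNReal.rpow_ne_top_of_nonneg (by linarith) (by norm_num)
  set D : ℕ → ℝ≥0∞ := fun n => ∫⁻ x, ‖f n x - g x‖ₑ ^ p ∂μ with hD
  let F : ℕ → α → ℝ≥0∞ := fun n x => K * (‖f n x‖ₑ ^ p + ‖g x‖ₑ ^ p) - ‖f n x - g x‖ₑ ^ p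
  have hpt : ∀ n x, ‖f n x - g x‖ₑ ^ p ≤ K * (‖f n x‖ₑ ^ p + ‖g x‖ₑ ^ p) := by
    intro n x
    calc ‖f n x - g x‖ₑ ^ p ≤ (‖f n x‖ₑ + ‖g x‖ₑ) ^ p :=
          ENNReal.rpow_le_rpow enorm_sub_le hp0.le
      _ ≤ K * (‖f n x‖ₑ ^ p + ‖g x‖ₑ ^ p) := ENNReal.rpow_add_le_mul_rpow_add_rpow _ _ hp
  have hFm : ∀ n, AEMeasurable (F n) μ := by
    intro n
    exact ((((hf n).enorm.pow_const p).add (hg.enorm.pow_const p)).const_mul K).sub
      (((hf n).sub hg).enorm.pow_const p)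
  have hDm : ∀ n, AEMeasurable (fun x => ‖f n x - g x‖ₑ ^ p) μ := fun n =>
    ((hf n).sub hg).enorm.pow_const p
  -- Fatou
  have hFat : K * (2 * I) ≤ liminf (fun n => ∫⁻ x, F n x ∂μ) atTop := by
    have h1 : ∫⁻ x, K * (‖g x‖ₑ ^ p + ‖g x‖ₑ ^ p) ∂μ ≤ ∫⁻ x, liminf (fun n => F n x) atTop ∂μ := by
      apply lintegral_mono_ae
      filter_upwards [hlim] with x hx
      have h2 : Tendsto (fun n => F n x) atTop (𝓝 (K * (‖g x‖ₑ ^ p + ‖g x‖ₑ ^ p) - 0)) := by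
        have h3 : Tendsto (fun n => ‖f n x‖ₑ ^ p) atTop (𝓝 (‖g x‖ₑ ^ p)) :=
          (ENNReal.continuous_rpow_const.tendsto _).comp ((continuous_enorm.tendsto _).comp hx)
        have h4 : Tendsto (fun n => ‖f n x - g x‖ₑ ^ p) atTop (𝓝 0) := by
          have h5 : Tendsto (fun n => f n x - g x) atTop (𝓝 0) := by
            have := hx.sub_const (g x)
            simpa using this
          have h6 : Tendsto (fun n => ‖f n x - g x‖ₑ) atTop (𝓝 0) := by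
            have := (continuous_enorm.tendsto _).comp h5
            rw [enorm_zero] at this
            exact this
          have h7 := (ENNReal.continuous_rpow_const (y := p)).tendsto (0:ℝ≥0∞)
          rw [ENNReal.zero_rpow_of_pos hp0] at h7
          exact h7.comp h6
        refine ENNReal.Tendsto.sub ?_ h4 (Or.inr (by simp))
        refine ENNReal.Tendsto.const_mul ?_ (Or.inr hKt)
        exact h3.add tendsto_const_nhds
      rw [tsub_zero] at h2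
      exact h2.liminf_eq.ge
    have h8 : ∫⁻ x, K * (‖g x‖ₑ ^ p + ‖g x‖ₑ ^ p) ∂μ = K * (2 * I) := by
      rw [lintegral_const_mul' _ _ hKt, lintegral_add_left' (hg.enorm.pow_const p), two_mul]
    rw [← h8]
    exact h1.trans (lintegral_liminf_le' hFm)
  have hsum : ∀ n, D n + ∫⁻ x, F n x ∂μ ≤ K * ((c n + 1) * I) := by
    intro n
    have h1 : D n + ∫⁻ x, F n x ∂μ = ∫⁻ x, K * (‖f n x‖ₑ ^ p + ‖g x‖ₑ ^ p) ∂μ := by
      rw [hD, ← lintegral_add_left' (hDm n)]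
      apply lintegral_congr
      intro x
      exact add_tsub_cancel_of_le (hpt n x)
    rw [h1, lintegral_const_mul' _ _ hKt, lintegral_add_left' ((hf n).enorm.pow_const p),
      add_mul, one_mul]
    gcongr
    exact hle n
  have hLt : K * (2 * I) ≠ ∞ := ENNReal.mul_ne_top hKt (ENNReal.mul_ne_top (by simp) hfin)
  have hub : Tendsto (fun n => K * ((c n + 1) * I)) atTop (𝓝 (K * (2 * I))) := by
    refine ENNReal.Tendsto.const_mul ?_ (Or.inr hKt)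
    refine ENNReal.Tendsto.mul_const ?_ (Or.inr hfin)
    have := hc.add_const 1
    rw [show (1:ℝ≥0∞) + 1 = 2 by norm_num] at this
    exact this
  rw [ENNReal.tendsto_nhds_zero]
  intro ε hε
  have hε2 : 0 < ε / 2 := ENNReal.half_pos hε.ne'
  have hev1 : ∀ᶠ n in atTop, K * (2 * I) ≤ ∫⁻ x, F n x ∂μ + ε / 2 := by
    by_cases hL0 : K * (2 * I) = 0
    · exact Eventually.of_forall (fun n => by rw [hL0]; exact bot_le)
    · have h1 : K * (2 * I) - ε / 2 < liminf (fun n => ∫⁻ x, F n x ∂μ) atTop :=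
        (ENNReal.sub_lt_self hLt hL0 hε2.ne').trans_le hFat
      filter_upwards [eventually_lt_of_lt_liminf h1] with n hn
      exact tsub_le_iff_right.mp hn.le
  have hev2 : ∀ᶠ n in atTop, K * ((c n + 1) * I) ≤ K * (2 * I) + ε / 2 := by
    have h1 : K * (2 * I) < K * (2 * I) + ε / 2 := ENNReal.lt_add_right hLt hε2.ne'
    filter_upwards [hub.eventually_lt_const h1] with n hn
    exact hn.le
  filter_upwards [hev1, hev2] with n h1 h2
  have h3 : K * (2 * I) + D n ≤ K * (2 * I) + ε := by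
    calc K * (2 * I) + D n ≤ (∫⁻ x, F n x ∂μ + ε / 2) + D n := by gcongr
      _ = (D n + ∫⁻ x, F n x ∂μ) + ε / 2 := by ring
      _ ≤ (K * (2 * I) + ε / 2) + ε / 2 := add_le_add_left ((hsum n).trans h2) _
      _ = K * (2 * I) + ε := by rw [add_assoc, ENNReal.add_halves]
  exact (ENNReal.add_le_add_iff_left hLt).mp h3


end Pool.Agent.Helper265.Hg
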