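import Mathlib
import Pool.Agent.Helper265.HgB

set_option autoImplicit false
open Complex Set Filter Metric Topology MeasureTheory
open scoped ENNReal

namespace Pool.Agent.Helper265.Hg









theorem det_mul_real (c : ℂ) :
    ((ContinuousLinearMap.toSpanSingleton ℂ c).restrictScalars ℝ).det = ‖c‖^2 := by
  have h : Algebra.norm ℝ c = Complex.normSq c := Algebra.norm_complex_apply c
  rw [Algebra.norm_apply] at h
  rw [← Complex.normSq_eq_norm_sq, ← h]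
  unfold ContinuousLinearMap.det
  congr 1
  ext z <;> simp [mul_comm]

/-- change of variables -/
theorem cov {O B : Set ℂ} {ψ : ℂ → ℂ} {d : ℂ → ℂ} (hB : MeasurableSet B)
    (hψ : ∀ w ∈ B, HasDerivAt ψ (d w) w) (hinj : InjOn ψ B) (him : ψ '' B = O) (H : ℂ → ℝ≥0∞) :
    ∫⁻ z in O, H z = ∫⁻ w in B, ENNReal.ofReal (‖d w‖^2) * H (ψ w) := by
  rw [← him, lintegral_image_eq_lintegral_abs_det_fderiv_mul volume hB
    (f' := fun w => (ContinuousLinearMap.toSpanSingleton ℂ (d w)).restrictScalars ℝ)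
    (fun w hw => ((hψ w hw).hasFDerivAt.restrictScalars ℝ).hasFDerivWithinAt) hinj]
  refine lintegral_congr fun w => ?_
  rw [det_mul_real, abs_of_nonneg (by positivity)]

theorem enorm_exp_rpow {p : ℝ} (hp : 0 < p) (c : ℝ) (l : ℂ) :
    ‖exp ((((c / p : ℝ)) : ℂ) * l)‖ₑ ^ p = ENNReal.ofReal (Real.exp (c * l.re)) := by
  rw [← ofReal_norm, ENNReal.ofReal_rpow_of_nonneg (norm_nonneg _) hp.le, Complex.norm_exp,
    Complex.re_ofReal_mul, ← Real.exp_mul]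
  congr 2
  field_simp

/-- measurability of the weight -/
theorem weight_aemeas {W : ℝ → ℝ} (hWpos : ∀ t ∈ Ioc (0 : ℝ) 1, 0 < W t)
    (hWmono : MonotoneOn W (Ioc 0 1)) :
    AEMeasurable (fun w : ℂ => ENNReal.ofReal (W (1 - ‖w‖))) (volume.restrict (ball 0 1)) := by
  let W' : ℝ → ℝ := fun t => if t ≤ 0 then 0 else W (min t 1)
  have hmono : Monotone W' := by
    intro t s hts
    simp only [W']
    by_cases ht : t ≤ 0
    · rw [if_pos ht]
      by_cases hs : s ≤ 0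
      · rw [if_pos hs]
      · rw [if_neg hs]
        exact (hWpos _ ⟨lt_min (not_le.1 hs) one_pos, min_le_right _ _⟩).le
    · have hs : ¬ s ≤ 0 := fun h => ht (hts.trans h)
      rw [if_neg ht, if_neg hs]
      exact hWmono ⟨lt_min (not_le.1 ht) one_pos, min_le_right _ _⟩
        ⟨lt_min (not_le.1 hs) one_pos, min_le_right _ _⟩ (min_le_min_right _ hts)
  have hm : Measurable (fun w : ℂ => ENNReal.ofReal (W' (1 - ‖w‖))) :=
    ENNReal.measurable_ofReal.comp (hmono.measurable.comp (measurable_const.sub measurable_norm))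
  refine hm.aemeasurable.congr ?_
  rw [Filter.EventuallyEq, ae_restrict_iff' isOpen_ball.measurableSet]
  refine Eventually.of_forall fun w hw => ?_
  rw [mem_ball_zero_iff] at hw
  simp only [W']
  rw [if_neg (by linarith), min_eq_left (by linarith [norm_nonneg w])]

/-- the target -/
theorem transfer {O : Set ℂ} (hO : IsOpen O) (hsc : IsSimplyConnected O) {φ : ℂ → ℂ}
    (hd : DifferentiableOn ℂ φ O) (hb : BijOn φ O (ball 0 1)) (hd0 : ∀ z ∈ O, deriv φ z ≠ 0)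
    {W : ℝ → ℝ} (hWpos : ∀ t ∈ Ioc (0 : ℝ) 1, 0 < W t) (hWmono : MonotoneOn W (Ioc 0 1))
    {p : ℝ} (hp : 1 ≤ p) {f : ℂ → ℂ} (hf : DifferentiableOn ℂ f O)
    (hfin : ∫⁻ z in O, ‖f z‖ₑ ^ p * ENNReal.ofReal (W (1 - ‖φ z‖)) ≠ ∞) {ε : ℝ≥0∞} (hε : 0 < ε) :
    ∃ g : ℂ → ℂ, DifferentiableOn ℂ g O ∧ ∫⁻ z in O, ‖g z‖ₑ ^ p ≠ ∞ ∧
      ∫⁻ z in O, ‖f z - g z‖ₑ ^ p * ENNReal.ofReal (W (1 - ‖φ z‖)) < ε := by
  have hp0 : 0 < p := by linarith
  have hBopen : IsOpen (ball (0:ℂ) 1) := isOpen_ball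
  obtain ⟨ψ, hψdef⟩ : ∃ ψ, ψ = Function.invFunOn φ O := ⟨_, rfl⟩
  have hinv := hb.invOn_invFunOn
  rw [← hψdef] at hinv
  have hψm : ∀ w ∈ ball (0:ℂ) 1, ψ w ∈ O := fun w hw => by
    rw [hψdef]; exact hb.surjOn.mapsTo_invFunOn hw
  have hφm : ∀ z ∈ O, φ z ∈ ball (0:ℂ) 1 := hb.mapsTo
  have hφψ : ∀ w ∈ ball (0:ℂ) 1, φ (ψ w) = w := fun w hw => hinv.2 hw
  have hψφ : ∀ z ∈ O, ψ (φ z) = z := fun z hz => hinv.1 hz
  have him : ψ '' ball 0 1 = O := by
    ext z; constructor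
    · rintro ⟨w, hw, rfl⟩; exact hψm w hw
    · intro hz; exact ⟨φ z, hφm z hz, hψφ z hz⟩
  have hinj : InjOn ψ (ball 0 1) := by
    intro a ha b hb' hab
    rw [← hφψ a ha, ← hφψ b hb', hab]
  have han : AnalyticOnNhd ℂ φ O := hd.analyticOnNhd hO
  have hψd : ∀ w ∈ ball (0:ℂ) 1, HasDerivAt ψ ((deriv φ (ψ w))⁻¹) w := by
    intro w hw
    have h1 : HasStrictDerivAt φ (deriv φ (ψ w)) (ψ w) := (han _ (hψm w hw)).hasStrictDerivAt
    have h2 : ∀ᶠ x in 𝓝 (ψ w), ψ (φ x) = x := by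
      filter_upwards [hO.mem_nhds (hψm w hw)] with x hx using hψφ x hx
    have h3 := h1.to_local_left_inverse (hd0 _ (hψm w hw)) h2
    rw [hφψ w hw] at h3
    exact h3.hasDerivAt
  have hψD : DifferentiableOn ℂ ψ (ball 0 1) :=
    fun w hw => (hψd w hw).differentiableAt.differentiableWithinAt
  have hcov : ∀ H : ℂ → ℝ≥0∞, ∫⁻ z in O, H z =
      ∫⁻ w in ball 0 1, ENNReal.ofReal (‖(deriv φ (ψ w))⁻¹‖^2) * H (ψ w) :=
    fun H => cov hBopen.measurableSet hψd hinj him H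
  have hdan : AnalyticOnNhd ℂ (deriv φ) O := han.deriv
  obtain ⟨ℓ, hℓc, hℓ⟩ := Complex.exists_continuousOn_eqOn_exp_comp hsc hO hdan.continuousOn
    (by rintro ⟨z, hz, h⟩; exact hd0 z hz h)
  have hℓe : ∀ z ∈ O, exp (ℓ z) = deriv φ z := fun z hz => hℓ hz
  have hℓd : DifferentiableOn ℂ ℓ O := by
    intro z hz
    have h1 : HasDerivAt exp (exp (ℓ z)) (ℓ z) := Complex.hasDerivAt_exp _
    have h2 := h1.hasFDerivAt_equiv (Complex.exp_ne_zero _)
    have h3 : HasDerivAt (deriv φ) (deriv (deriv φ) z) z := (hdan z hz).differentiableAt.hasDerivAt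
    have h4 : (exp ∘ ℓ) =ᶠ[𝓝 z] deriv φ := by
      filter_upwards [hO.mem_nhds hz] with x hx using hℓ hx
    have h5 := HasFDerivAt.of_comp_of_leftInverse (hℓc.continuousAt (hO.mem_nhds hz)) h2
      h3.hasFDerivAt h4 (f'symm := ((ContinuousLinearEquiv.unitsEquivAut ℂ
        (Units.mk0 (exp (ℓ z)) (Complex.exp_ne_zero _))).symm : ℂ →L[ℂ] ℂ))
      (ContinuousLinearEquiv.symm_apply_apply _)
    exact h5.differentiableAt.differentiableWithinAt
  let ep : ℂ → ℂ := fun z => exp (((2 / p : ℝ) : ℂ) * ℓ z)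
  let em : ℂ → ℂ := fun z => exp (((-2 / p : ℝ) : ℂ) * ℓ z)
  have hepem : ∀ z, em z * ep z = 1 := by
    intro z
    simp only [ep, em]
    rw [← Complex.exp_add, ← add_mul]
    have : (((-2 / p : ℝ) : ℂ) + ((2 / p : ℝ) : ℂ)) = 0 := by
      rw [← Complex.ofReal_add]
      have : (-2 / p + 2 / p : ℝ) = 0 := by ring
      rw [this]; simp
    rw [this, zero_mul, Complex.exp_zero]
  have hre : ∀ z ∈ O, Real.exp ((ℓ z).re) = ‖deriv φ z‖ := by
    intro z hz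
    rw [← hℓe z hz, Complex.norm_exp]
  have hep : ∀ z ∈ O, ‖ep z‖ₑ ^ p = ENNReal.ofReal (‖deriv φ z‖^2) := by
    intro z hz
    simp only [ep]
    rw [enorm_exp_rpow hp0, ← hre z hz, ← Real.exp_nat_mul]
    norm_num
  have hem : ∀ z ∈ O, ‖em z‖ₑ ^ p = ENNReal.ofReal (‖(deriv φ z)⁻¹‖^2) := by
    intro z hz
    simp only [em]
    rw [enorm_exp_rpow hp0, norm_inv, ← hre z hz, ← Real.exp_neg, ← Real.exp_nat_mul]
    congr 2
    push_cast
    ring
  have hone : ∀ z ∈ O, ENNReal.ofReal (‖(deriv φ z)⁻¹‖^2) * ENNReal.ofReal (‖deriv φ z‖^2) = 1 := by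
    intro z hz
    rw [← ENNReal.ofReal_mul (by positivity), norm_inv, ← mul_pow, inv_mul_cancel₀
      (norm_ne_zero_iff.2 (hd0 z hz))]
    simp
  have hepd : DifferentiableOn ℂ ep O := (hℓd.const_mul _).cexp
  have hemd : DifferentiableOn ℂ em O := (hℓd.const_mul _).cexp
  let G : ℂ → ℂ := fun w => f (ψ w) * em (ψ w)
  have hGd : DifferentiableOn ℂ G (ball 0 1) :=
    (hf.comp hψD hψm).mul (hemd.comp hψD hψm)
  let v : ℂ → ℝ≥0∞ := fun w => ENNReal.ofReal (W (1 - ‖w‖))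
  have hfin' : ∫⁻ w in ball (0:ℂ) 1, ‖G w‖ₑ ^ p * v w ≠ ∞ := by
    rw [hcov] at hfin
    refine ne_of_eq_of_ne ?_ hfin
    refine setLIntegral_congr_fun hBopen.measurableSet fun w hw => ?_
    simp only [G, v]
    rw [enorm_mul, ENNReal.mul_rpow_of_nonneg _ _ hp0.le, hem _ (hψm w hw), hφψ w hw]
    ring
  have hstar : ∀ z ∈ ball (0:ℂ) 1, ∀ c : ℝ, 0 < c → c ≤ 1 → (c : ℂ) * z ∈ ball (0:ℂ) 1 := by
    intro z hz c hc0 hc1
    rw [mem_ball_zero_iff] at hz ⊢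
    rw [norm_mul, Complex.norm_real, Real.norm_of_nonneg hc0.le]
    nlinarith [norm_nonneg z]
  let r : ℕ → ℝ := fun n => 1 - 1 / ((n:ℝ) + 2)
  have hr1 : ∀ n, r n < 1 := by
    intro n
    have : 0 < 1 / ((n:ℝ) + 2) := by positivity
    simp only [r]; linarith
  have hr0 : ∀ n, 0 < r n := by
    intro n
    have : 1 / ((n:ℝ) + 2) < 1 := by
      rw [div_lt_one (by positivity)]
      have : (0:ℝ) ≤ n := Nat.cast_nonneg n
      linarith
    simp only [r]; linarith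
  have hrt : Tendsto r atTop (𝓝 1) := by
    have h1 : Tendsto (fun n : ℕ => (n:ℝ) + 2) atTop atTop :=
      tendsto_atTop_add_const_right _ _ tendsto_natCast_atTop_atTop
    have h2 : Tendsto (fun n : ℕ => 1 / ((n:ℝ) + 2)) atTop (𝓝 0) := h1.const_div_atTop _
    have h3 := h2.const_sub 1
    rw [sub_zero] at h3
    exact h3
  have hlim := dil_tendsto hBopen hstar (weight_aemeas hWpos hWmono) (v := v)
    (fun z _ => ENNReal.ofReal_ne_top)
    (by
      intro z hz c hc0 hc1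
      have hz' := hz
      have hcz := hstar z hz c hc0 hc1
      rw [mem_ball_zero_iff] at hz' hcz
      apply ENNReal.ofReal_le_ofReal
      have hn : ‖(c:ℂ) * z‖ ≤ ‖z‖ := by
        rw [norm_mul, Complex.norm_real, Real.norm_of_nonneg hc0.le]
        nlinarith [norm_nonneg z]
      exact hWmono ⟨by linarith, by linarith [norm_nonneg z]⟩
        ⟨by linarith, by linarith [norm_nonneg ((c:ℂ) * z)]⟩ (by linarith))
    hp hGd.continuousOn hfin' r hr0 hr1 hrt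
  obtain ⟨n, hn⟩ := ((tendsto_order.1 hlim).2 ε hε).exists
  obtain ⟨ρ, hρ⟩ : ∃ ρ : ℝ, ρ = r n := ⟨_, rfl⟩
  have hρ0 : 0 < ρ := hρ ▸ hr0 n
  have hρ1 : ρ < 1 := hρ ▸ hr1 n
  rw [← hρ] at hn
  have hρm : ∀ z ∈ O, (ρ : ℂ) * φ z ∈ ball (0:ℂ) 1 := fun z hz =>
    hstar _ (hφm z hz) ρ hρ0 hρ1.le
  refine ⟨fun z => G ((ρ : ℂ) * φ z) * ep z, ?_, ?_, ?_⟩
  · exact (hGd.comp (hd.const_mul _) hρm).mul hepd
  · rw [hcov]
    have hb1 : ∀ w ∈ ball (0:ℂ) 1, ENNReal.ofReal (‖(deriv φ (ψ w))⁻¹‖^2) *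
        ‖G ((ρ : ℂ) * φ (ψ w)) * ep (ψ w)‖ₑ ^ p = ‖G ((ρ : ℂ) * w)‖ₑ ^ p := by
      intro w hw
      rw [enorm_mul, ENNReal.mul_rpow_of_nonneg _ _ hp0.le, hep _ (hψm w hw), hφψ w hw]
      have := hone _ (hψm w hw)
      calc _ = (ENNReal.ofReal (‖(deriv φ (ψ w))⁻¹‖^2) * ENNReal.ofReal (‖deriv φ (ψ w)‖^2)) *
          ‖G ((ρ : ℂ) * w)‖ₑ ^ p := by ring
        _ = _ := by rw [this, one_mul]
    rw [setLIntegral_congr_fun hBopen.measurableSet hb1]
    have hsub : closedBall (0:ℂ) ρ ⊆ ball 0 1 := closedBall_subset_ball hρ1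
    obtain ⟨C, hC⟩ := (isCompact_closedBall (0:ℂ) ρ).exists_bound_of_continuousOn
      (hGd.continuousOn.mono hsub)
    have hle : ∫⁻ w in ball (0:ℂ) 1, ‖G ((ρ : ℂ) * w)‖ₑ ^ p ≤
        ∫⁻ _ in ball (0:ℂ) 1, ENNReal.ofReal C ^ p := by
      refine setLIntegral_mono' hBopen.measurableSet fun w hw => ?_
      apply ENNReal.rpow_le_rpow _ hp0.le
      rw [← ofReal_norm]
      apply ENNReal.ofReal_le_ofReal
      apply hC
      rw [mem_ball_zero_iff] at hw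
      rw [mem_closedBall_zero_iff, norm_mul, Complex.norm_real, Real.norm_of_nonneg hρ0.le]
      nlinarith [norm_nonneg w]
    refine ne_top_of_le_ne_top ?_ hle
    rw [setLIntegral_const]
    exact ENNReal.mul_ne_top (ENNReal.rpow_ne_top_of_nonneg hp0.le ENNReal.ofReal_ne_top)
      measure_ball_lt_top.ne
  · rw [hcov]
    refine lt_of_eq_of_lt ?_ hn
    refine setLIntegral_congr_fun hBopen.measurableSet fun w hw => ?_
    simp only [v]
    have h1 : f (ψ w) - G ((ρ : ℂ) * φ (ψ w)) * ep (ψ w) = (G w - G ((ρ:ℂ) * w)) * ep (ψ w) := by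
      rw [hφψ w hw, sub_mul]
      congr 1
      simp only [G]
      rw [mul_assoc, hepem, mul_one]
    rw [h1, hφψ w hw, enorm_mul, ENNReal.mul_rpow_of_nonneg _ _ hp0.le, hep _ (hψm w hw),
      enorm_sub_rev]
    have := hone _ (hψm w hw)
    calc _ = (ENNReal.ofReal (‖(deriv φ (ψ w))⁻¹‖^2) * ENNReal.ofReal (‖deriv φ (ψ w)‖^2)) *
          (‖G ((ρ : ℂ) * w) - G w‖ₑ ^ p * ENNReal.ofReal (W (1 - ‖w‖))) := by ring
      _ = _ := by rw [this, one_mul]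


end Pool.Agent.Helper265.Hg
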