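import Mathlib
import Pool.Agent.Helper265.BrR
import Pool.Agent.Helper265.BrH
import Pool.Agent.Helper265.BrI
import Pool.Agent.Helper265.BrS

set_option autoImplicit false
open Complex Set Filter Metric Topology MeasureTheory
open scoped ENNReal

namespace Pool.Agent.Helper265.Br

theorem fs_int {g : ℂ → ℂ} (hgm : Measurable g) (hg : Integrable g) {A : Set ℂ}
    (hA : MeasurableSet A) {w : ℂ} {δ : ℝ} (hδ : 0 < δ) (h : ∀ ζ ∈ A, δ ≤ ‖ζ - w‖) :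
    IntegrableOn (fun ζ => g ζ / (ζ - w)) A := by
  apply Integrable.mono' (g := fun ζ => ‖g ζ‖ / δ)
  · exact (hg.norm.div_const δ).integrableOn
  · exact (hgm.div (measurable_id.sub measurable_const)).aestronglyMeasurable
  · rw [ae_restrict_iff' hA]
    refine Eventually.of_forall (fun ζ hζ => ?_)
    rw [norm_div]
    exact div_le_div_of_nonneg_left (norm_nonneg _) hδ (h ζ hζ)

theorem fs_bd {g : ℂ → ℂ} (hg : Integrable g) {A : Set ℂ}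
    (hA : MeasurableSet A) {w : ℂ} {δ : ℝ} (hδ : 0 < δ) (h : ∀ ζ ∈ A, δ ≤ ‖ζ - w‖) :
    ‖∫ ζ in A, g ζ / (ζ - w)‖ ≤ (∫ ζ, ‖g ζ‖) / δ := by
  have h1 : ‖∫ ζ in A, g ζ / (ζ - w)‖ ≤ ∫ ζ in A, ‖g ζ‖ / δ := by
    apply norm_integral_le_of_norm_le (hg.norm.div_const δ).integrableOn
    rw [ae_restrict_iff' hA]
    refine Eventually.of_forall (fun ζ hζ => ?_)
    rw [norm_div]
    exact div_le_div_of_nonneg_left (norm_nonneg _) hδ (h ζ hζ)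
  refine le_trans h1 ?_
  rw [integral_div]
  apply div_le_div_of_nonneg_right _ hδ.le
  exact setIntegral_le_integral hg.norm (Eventually.of_forall (fun _ => norm_nonneg _))

theorem fs_diff {g : ℂ → ℂ} (hg : Integrable g) {A : Set ℂ}
    (hA : MeasurableSet A) {z : ℂ} {d : ℝ} (h : ∀ ζ ∈ A, d ≤ ‖ζ - z‖) :
    DifferentiableOn ℂ (fun w => ∫ ζ in A, g ζ / (ζ - w)) (ball z d) := by
  refine (CT_diff hA hg.integrableOn).mono ?_
  intro w hw hwc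
  have h1 := mem_closure_iff_nhds.1 hwc (ball z d) (isOpen_ball.mem_nhds hw)
  obtain ⟨ζ, hζ1, hζ2⟩ := h1
  rw [mem_ball, dist_eq_norm] at hζ1
  exact absurd (h ζ hζ2) (not_le.2 hζ1)

theorem fs_pow {M e c : ℝ} (hM : 1 ≤ M) (he : 0 < e) (hc : 0 < c) :
    M * (e / M) ^ c ≤ M * e ^ c := by
  have hM0 : 0 < M := by linarith
  apply mul_le_mul_of_nonneg_left _ hM0.le
  apply Real.rpow_le_rpow (by positivity) _ hc.le
  exact div_le_self he.le hM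

/-- the bound of `u` near `z`, before simplification -/
theorem fs_core {ψ g : ℂ → ℂ} {R q : ℝ} (hd : DifferentiableOn ℂ ψ (ball 0 1))
    (hi : InjOn ψ (ball 0 1)) (hR : ∀ ξ ∈ ball (0 : ℂ) 1, ‖ψ ξ‖ < R) (hq1 : 1 < q)
    (hgm : Measurable g) (hg : Integrable g)
    {V : Set ℂ} (hV : IsConnected V) (hVu : ¬ Bornology.IsBounded V)
    (hvan : ∀ w ∈ V, ∫ ζ in ψ '' ball 0 1, g ζ / (ζ - w) = 0)
    (hVc : ∀ w ∈ V, w ∉ closure (ψ '' ball 0 1))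
    {C2 : ℝ} (hC2 : 0 < C2) (hgr : ∀ (z : ℂ) (d ε : ℝ), 0 < d → d ≤ 1 → 0 < ε →
      ∀ G : ℂ → ℝ≥0∞, Measurable G → (∀ ζ, ζ ∉ ball (0 : ℂ) R → G ζ = 0) →
      ∫⁻ ζ, G ζ ^ q ≤ ENNReal.ofReal (ε ^ q) →
      ∃ T : Set ℝ, MeasurableSet T ∧ T ⊆ Ioo 0 d ∧ ENNReal.ofReal (d / 2) ≤ volume T ∧
        ∀ r ∈ T, ∀ w : ℂ, ‖w - z‖ = r →
          ∫⁻ ζ, G ζ * ‖ζ - w‖ₑ⁻¹ ≤ ENNReal.ofReal (C2 * ε / d))
    {C3 c3 : ℝ} (hC3 : 0 < C3) (hc3 : 0 < c3)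
    (hin : ∀ (u : ℂ → ℂ) (z : ℂ) (d M ε : ℝ), 0 < d → 0 < ε →
    ε ≤ M → DifferentiableOn ℂ u (ball z d) → (∀ w ∈ ball z d, ‖u w‖ ≤ M) →
    ∀ T : Set ℝ, MeasurableSet T → T ⊆ Ioo 0 (d / 16) → ENNReal.ofReal (d / 32) ≤ volume T →
    (∀ r ∈ T, ∃ w : ℂ, ‖w - z‖ = r ∧ ‖u w‖ ≤ ε) →
    ∀ w ∈ ball z (d / 16), ‖u w‖ ≤ C3 * M * (ε / M) ^ c3)
    {t : ℝ} (ht : t ∈ Ioo (0 : ℝ) 1) {E : ℝ} (hE : 0 < E)
    (htail : ∫⁻ ζ in ψ '' ball 0 1 \ Om ψ t, ‖g ζ‖ₑ ^ q ≤ ENNReal.ofReal (E ^ q))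
    {z : ℂ} (hz : z ∈ frontier V) {d : ℝ} (hd0 : 0 < d) (hd1 : d ≤ 1)
    (hsep : ∀ ζ ∈ Om ψ t, 2 * d ≤ ‖ζ - z‖) :
    ∀ w ∈ ball z (d / 16), ‖∫ ζ in Om ψ t, g ζ / (ζ - w)‖ ≤
      max C3 1 * (((∫ ζ, ‖g ζ‖) + 1) / d) * (16 * C2 * E / d) ^ c3 := by
  have hI : 0 ≤ ∫ ζ, ‖g ζ‖ := integral_nonneg (fun _ => norm_nonneg _)
  obtain ⟨I, hIdef⟩ : ∃ I, I = ∫ ζ, ‖g ζ‖ := ⟨_, rfl⟩
  rw [← hIdef] at hI ⊢
  have hOt : IsOpen (Om ψ t) := isOpen_Om hd hi ht.1.le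
  have hO0 : IsOpen (ψ '' ball 0 1) := by
    have := isOpen_Om hd hi (le_refl 0)
    unfold Om at this
    rwa [neg_zero, Real.exp_zero] at this
  have hsub : Om ψ t ⊆ ψ '' ball 0 1 := by
    unfold Om
    apply image_mono
    apply ball_subset_ball
    rw [← Real.exp_zero]
    exact Real.exp_le_exp.2 (by linarith [ht.1])
  have hM1 : 1 ≤ (I + 1) / d := by
    rw [one_le_div hd0]
    linarith
  have hM0 : 0 < (I + 1) / d := by linarith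
  have he0 : 0 < 16 * C2 * E / d := by positivity
  have hbd : ∀ w ∈ ball z d, ‖∫ ζ in Om ψ t, g ζ / (ζ - w)‖ ≤ (I + 1) / d := by
    intro w hw
    rw [mem_ball, dist_eq_norm] at hw
    have h1 : ∀ ζ ∈ Om ψ t, d ≤ ‖ζ - w‖ := by
      intro ζ hζ
      have h2 := hsep ζ hζ
      have h3 : ‖ζ - z‖ ≤ ‖ζ - w‖ + ‖w - z‖ := by
        have : ζ - z = (ζ - w) + (w - z) := by ring
        rw [this]
        exact norm_add_le _ _
      linarith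
    refine le_trans (fs_bd hg hOt.measurableSet hd0 h1) ?_
    rw [← hIdef]
    exact div_le_div_of_nonneg_right (by linarith) hd0.le
  have hdiff : DifferentiableOn ℂ (fun w => ∫ ζ in Om ψ t, g ζ / (ζ - w)) (ball z d) :=
    fs_diff hg hOt.measurableSet (fun ζ hζ => by linarith [hsep ζ hζ])
  -- the good radii
  obtain ⟨G, hG⟩ : ∃ G : ℂ → ℝ≥0∞, G = indicator (ψ '' ball 0 1 \ Om ψ t) (fun ζ => ‖g ζ‖ₑ) :=
    ⟨_, rfl⟩
  have hms : MeasurableSet (ψ '' ball 0 1 \ Om ψ t) := hO0.measurableSet.diff hOt.measurableSet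
  have hGm : Measurable G := by
    rw [hG]
    exact hgm.enorm.indicator hms
  have hG0 : ∀ ζ, ζ ∉ ball (0 : ℂ) R → G ζ = 0 := by
    intro ζ hζ
    rw [hG]
    apply indicator_of_notMem
    rintro ⟨⟨ξ, hξ, rfl⟩, -⟩
    apply hζ
    rw [mem_ball_zero_iff]
    exact hR ξ hξ
  have hGq : ∫⁻ ζ, G ζ ^ q ≤ ENNReal.ofReal (E ^ q) := by
    refine le_trans (le_of_eq ?_) htail
    rw [← lintegral_indicator hms]
    apply lintegral_congr
    intro ζ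
    rw [hG]
    by_cases hζ : ζ ∈ ψ '' ball 0 1 \ Om ψ t
    · rw [indicator_of_mem hζ, indicator_of_mem hζ]
    · rw [indicator_of_notMem hζ, indicator_of_notMem hζ,
        ENNReal.zero_rpow_of_pos (by linarith)]
  obtain ⟨T, hTm, hTs, hTv, hTr⟩ := hgr z (d / 16) E (by positivity) (by linarith) hE G hGm hG0 hGq
  have hTgood : ∀ r ∈ T, ∃ w : ℂ, ‖w - z‖ = r ∧ ‖∫ ζ in Om ψ t, g ζ / (ζ - w)‖ ≤
      16 * C2 * E / d := by
    intro r hr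
    have hr0 : 0 < r := (hTs hr).1
    obtain ⟨w, hwV, hwr⟩ := crossing hV hVu hz hr0
    refine ⟨w, hwr, ?_⟩
    have h1 := hTr r hr w hwr
    have h2 := hVc w hwV
    obtain ⟨δ, hδ, hδw⟩ : ∃ δ > 0, ∀ ζ ∈ ψ '' ball 0 1, δ ≤ ‖ζ - w‖ := by
      rw [Metric.mem_closure_iff] at h2
      push Not at h2
      obtain ⟨δ, hδ, h3⟩ := h2
      refine ⟨δ, hδ, fun ζ hζ => ?_⟩
      have := h3 ζ hζ
      rwa [dist_comm, dist_eq_norm] at this
    have hint := fs_int hgm hg hO0.measurableSet hδ hδw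
    have h3 := setIntegral_sdiff hOt.measurableSet hint hsub
    rw [hvan w hwV, zero_sub] at h3
    have h4 : ‖∫ ζ in Om ψ t, g ζ / (ζ - w)‖ =
        ‖∫ ζ in ψ '' ball 0 1 \ Om ψ t, g ζ / (ζ - w)‖ := by
      rw [h3, norm_neg]
    rw [h4]
    have h5 : ‖∫ ζ in ψ '' ball 0 1 \ Om ψ t, g ζ / (ζ - w)‖ₑ ≤
        ENNReal.ofReal (C2 * E / (d / 16)) := by
      refine le_trans (enorm_integral_le_lintegral_enorm _) ?_
      refine le_trans (le_of_eq ?_) h1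
      rw [← lintegral_indicator hms]
      apply lintegral_congr
      intro ζ
      rw [hG]
      by_cases hζ : ζ ∈ ψ '' ball 0 1 \ Om ψ t
      · rw [indicator_of_mem hζ, indicator_of_mem hζ, div_eq_mul_inv, enorm_mul, enorm_inv]
        intro h0
        have := hδw ζ hζ.1
        rw [h0, norm_zero] at this
        linarith
      · rw [indicator_of_notMem hζ, indicator_of_notMem hζ, zero_mul]
    rw [← ofReal_norm_eq_enorm, ENNReal.ofReal_le_ofReal_iff (by positivity)] at h5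
    refine le_trans h5 (le_of_eq ?_)
    field_simp
  intro w hw
  have hwd : w ∈ ball z d := ball_subset_ball (by linarith) hw
  have hmax : C3 ≤ max C3 1 := le_max_left _ _
  have hmax1 : 1 ≤ max C3 1 := le_max_right _ _
  have key : ‖∫ ζ in Om ψ t, g ζ / (ζ - w)‖ ≤
      max C3 1 * (((I + 1) / d) * ((16 * C2 * E / d) / ((I + 1) / d)) ^ c3) := by
    by_cases hle : 16 * C2 * E / d ≤ (I + 1) / d
    · have h1 := hin (fun w => ∫ ζ in Om ψ t, g ζ / (ζ - w)) z d ((I + 1) / d) (16 * C2 * E / d)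
        hd0 he0 hle hdiff hbd T hTm hTs (by
          have : d / 32 = d / 16 / 2 := by ring
          rw [this]
          exact hTv) hTgood w hw
      refine le_trans h1 ?_
      rw [mul_assoc]
      exact mul_le_mul_of_nonneg_right hmax (by positivity)
    · have h1 := hbd w hwd
      have h2 : 1 ≤ ((16 * C2 * E / d) / ((I + 1) / d)) ^ c3 := by
        apply Real.one_le_rpow _ hc3.le
        rw [one_le_div hM0]
        exact (not_le.1 hle).le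
      have h3 : (I + 1) / d ≤ (I + 1) / d * ((16 * C2 * E / d) / ((I + 1) / d)) ^ c3 :=
        le_mul_of_one_le_right hM0.le h2
      have h4 : (I + 1) / d * ((16 * C2 * E / d) / ((I + 1) / d)) ^ c3 ≤
          max C3 1 * ((I + 1) / d * ((16 * C2 * E / d) / ((I + 1) / d)) ^ c3) :=
        le_mul_of_one_le_left (by positivity) hmax1
      linarith
  refine le_trans key ?_
  have h9 : max C3 1 * ((I + 1) / d) * (16 * C2 * E / d) ^ c3 =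
      max C3 1 * (((I + 1) / d) * (16 * C2 * E / d) ^ c3) := mul_assoc _ _ _
  rw [h9]
  exact mul_le_mul_of_nonneg_left (fs_pow hM1 he0 hc3) (by positivity)

/-- simplification of the bound -/
theorem fs_simp {C3' I C2 C0 W c0 c3 m t d : ℝ} {N : ℕ} (h3 : 0 < C3') (hI : 0 ≤ I)
    (hC2 : 0 < C2) (hC0 : 0 < C0) (hW : 0 < W) (hc3 : 0 < c3) (hc31 : c3 ≤ 1)
    (hm : 0 < m) (hm1 : m ≤ 1) (ht : 0 < t) (ht1 : t < 1) (hd : d = m * t ^ N / 2) :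
    C3' * ((I + 1) / d) * (16 * C2 * (C0 * W ^ c0) / d) ^ c3 ≤
      (C3' * (I + 1) * (16 * C2 * C0) ^ c3 * (4 / m ^ 2)) * W ^ (c0 * c3) / t ^ (2 * N) := by
  have htN : 0 < t ^ N := pow_pos ht N
  have htN1 : t ^ N ≤ 1 := pow_le_one₀ ht.le ht1.le
  have hd0 : 0 < d := by
    rw [hd]
    positivity
  have hd1 : d ≤ 1 := by
    rw [hd]
    have : m * t ^ N ≤ 1 := mul_le_one₀ hm1 htN.le htN1
    linarith
  have hWc : 0 < W ^ c0 := Real.rpow_pos_of_pos hW _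
  have e1 : (16 * C2 * (C0 * W ^ c0) / d) ^ c3 =
      (16 * C2 * C0) ^ c3 * W ^ (c0 * c3) * (1 / d) ^ c3 := by
    have : 16 * C2 * (C0 * W ^ c0) / d = (16 * C2 * C0) * W ^ c0 * (1 / d) := by ring
    rw [this, Real.mul_rpow (by positivity) (by positivity),
      Real.mul_rpow (by positivity) hWc.le, ← Real.rpow_mul hW.le]
  have e2 : (1 / d) ^ c3 ≤ 1 / d := by
    have h1 : 1 ≤ 1 / d := by
      rw [le_div_iff₀ hd0]
      linarith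
    calc (1 / d) ^ c3 ≤ (1 / d) ^ (1 : ℝ) := Real.rpow_le_rpow_of_exponent_le h1 hc31
      _ = 1 / d := Real.rpow_one _
  rw [e1]
  have hA : 0 < (16 * C2 * C0) ^ c3 := Real.rpow_pos_of_pos (by positivity) _
  have hB : 0 < W ^ (c0 * c3) := Real.rpow_pos_of_pos hW _
  calc C3' * ((I + 1) / d) * ((16 * C2 * C0) ^ c3 * W ^ (c0 * c3) * (1 / d) ^ c3)
      ≤ C3' * ((I + 1) / d) * ((16 * C2 * C0) ^ c3 * W ^ (c0 * c3) * (1 / d)) := by
        apply mul_le_mul_of_nonneg_left _ (by positivity)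
        exact mul_le_mul_of_nonneg_left e2 (by positivity)
    _ = (C3' * (I + 1) * (16 * C2 * C0) ^ c3 * (4 / m ^ 2)) * W ^ (c0 * c3) / t ^ (2 * N) := by
        have e3 : t ^ (2 * N) = (t ^ N) ^ 2 := by
          rw [← pow_mul, mul_comm]
        rw [e3, hd]
        field_simp
        ring

theorem FF_start {ψ g : ℂ → ℂ} {R q : ℝ} (hd : DifferentiableOn ℂ ψ (ball 0 1))
    (hi : InjOn ψ (ball 0 1)) (hR0 : 0 < R) (hR : ∀ ξ ∈ ball (0 : ℂ) 1, ‖ψ ξ‖ < R) (hq1 : 1 < q)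
    (hq2 : q < 2)
    (hsep : ∃ (c : ℝ) (N : ℕ), 0 < c ∧ ∀ t ∈ Ioc (0 : ℝ) 1, ∀ ξ : ℂ, ‖ξ‖ ≤ Real.exp (-t) →
      ∀ a : ℂ, a ∉ ψ '' ball 0 (Real.exp (-(t / 2))) → c * t ^ N ≤ ‖ψ ξ - a‖)
    (hgm : Measurable g) (hg : Integrable g) {W : ℝ → ℝ} (hWpos : ∀ t ∈ Ioc (0 : ℝ) 1, 0 < W t)
    {C0 c0 : ℝ} (hC0 : 0 < C0) (hc0 : 0 < c0)
    (htail : ∀ t ∈ Ioc (0 : ℝ) 1, ∫⁻ ζ in ψ '' ball 0 1 \ Om ψ t, ‖g ζ‖ₑ ^ q ≤
      ENNReal.ofReal ((C0 * W t ^ c0) ^ q))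
    {V : Set ℂ} (hVo : IsOpen V) (hV : IsConnected V) (hVu : ¬ Bornology.IsBounded V)
    (hVd : Disjoint V (ψ '' ball 0 1)) (hvan : ∀ w ∈ V, ∫ ζ in ψ '' ball 0 1, g ζ / (ζ - w) = 0)
    (hVc : ∀ w ∈ V, w ∉ closure (ψ '' ball 0 1)) :
    ∃ (C c : ℝ) (N : ℕ), 0 < C ∧ 0 < c ∧ ∀ t ∈ Ioo (0 : ℝ) 1, ∀ x : ℝ, ∀ z ∈ frontier V,
      Tendsto (fun r : ℝ => ψ ((r : ℂ) * exp (x * I))) (𝓝[<] (1 : ℝ)) (𝓝 z) →
      ∀ ε : ℝ, C * W t ^ c < ε * t ^ N →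
        ∃ δ : ℝ, 0 < δ ∧ ∀ y : ℝ, y ∈ Ioo 0 δ → ‖FF ψ g t ((x : ℂ) + (y : ℂ) * I)‖ ≤ ε := by
  obtain ⟨c1, N1, hc1, hsep⟩ := hsep
  obtain ⟨C2, hC2, hgr⟩ := good_radii hq1 hq2 hR0
  obtain ⟨C3, c3, hC3, hc3, hc31, hin⟩ := interp
  have hI : 0 ≤ ∫ ζ, ‖g ζ‖ := integral_nonneg (fun _ => norm_nonneg _)
  have hm0 : 0 < min c1 1 := lt_min hc1 one_pos
  refine ⟨max C3 1 * ((∫ ζ, ‖g ζ‖) + 1) * (16 * C2 * C0) ^ c3 * (4 / (min c1 1) ^ 2), c0 * c3,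
    2 * N1, ?_, by positivity, ?_⟩
  · have h1 : 0 < max C3 1 := lt_max_of_lt_left hC3
    have h2 : 0 < (16 * C2 * C0) ^ c3 := Real.rpow_pos_of_pos (by positivity) _
    positivity
  intro t ht x z hz hlim ε hε
  have ht' : t ∈ Ioc (0 : ℝ) 1 := ⟨ht.1, ht.2.le⟩
  have hO0 : IsOpen (ψ '' ball 0 1) := by
    have := isOpen_Om hd hi (le_refl 0)
    unfold Om at this
    rwa [neg_zero, Real.exp_zero] at this
  have hz0 : z ∉ ψ '' ball 0 1 := by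
    intro hzO
    have h1 : z ∈ closure V := frontier_subset_closure hz
    obtain ⟨w, hw1, hw2⟩ := mem_closure_iff_nhds.1 h1 _ (hO0.mem_nhds hzO)
    exact Set.disjoint_left.1 hVd hw2 hw1
  have htN : 0 < t ^ N1 := pow_pos ht.1 N1
  have htN1 : t ^ N1 ≤ 1 := pow_le_one₀ ht.1.le ht.2.le
  obtain ⟨d, hdd⟩ : ∃ d, d = min c1 1 * t ^ N1 / 2 := ⟨_, rfl⟩
  have hd0 : 0 < d := by
    rw [hdd]
    positivity
  have hm1 : min c1 1 ≤ 1 := min_le_right _ _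
  have hd1 : d ≤ 1 := by
    rw [hdd]
    have : min c1 1 * t ^ N1 ≤ 1 := mul_le_one₀ hm1 htN.le htN1
    linarith
  have hsep' : ∀ ζ ∈ Om ψ t, 2 * d ≤ ‖ζ - z‖ := by
    rintro ζ ⟨ξ, hξ, rfl⟩
    rw [mem_ball_zero_iff] at hξ
    have h1 := hsep t ht' ξ hξ.le z (by
      intro hzz
      apply hz0
      refine image_mono ?_ hzz
      apply ball_subset_ball
      rw [← Real.exp_zero]
      exact Real.exp_le_exp.2 (by linarith [ht.1]))
    refine le_trans ?_ h1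
    rw [hdd]
    have : min c1 1 * t ^ N1 ≤ c1 * t ^ N1 :=
      mul_le_mul_of_nonneg_right (min_le_left _ _) htN.le
    linarith
  have hW := hWpos t ht'
  have hcore := fs_core hd hi hR hq1 hgm hg hV hVu hvan hVc hC2 hgr hC3 hc3 hin ht
    (E := C0 * W t ^ c0) (mul_pos hC0 (Real.rpow_pos_of_pos hW _)) (htail t ht') hz hd0 hd1 hsep'
  have hsimp := fs_simp (c0 := c0) (lt_max_of_lt_left (b := C3) (c := 1) hC3) hI hC2 hC0 hW hc3 hc31 hm0 hm1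
    ht.1 ht.2 hdd
  have hfin : ∀ w ∈ ball z (d / 16), ‖∫ ζ in Om ψ t, g ζ / (ζ - w)‖ ≤ ε := by
    intro w hw
    refine le_trans (hcore w hw) (le_trans hsimp ?_)
    rw [div_le_iff₀ (pow_pos ht.1 _)]
    exact hε.le
  have hlim2 : Tendsto (fun y : ℝ => Real.exp (-y)) (𝓝[>] (0 : ℝ)) (𝓝[<] (1 : ℝ)) := by
    apply tendsto_nhdsWithin_of_tendsto_nhds_of_eventually_within
    · have : Tendsto (fun y : ℝ => Real.exp (-y)) (𝓝 (0 : ℝ)) (𝓝 (Real.exp (-0))) :=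
        (Real.continuous_exp.comp continuous_neg).tendsto 0
      rw [neg_zero, Real.exp_zero] at this
      exact this.mono_left nhdsWithin_le_nhds
    · filter_upwards [self_mem_nhdsWithin] with y hy
      (rw [mem_Iio, Real.exp_lt_one_iff]; simpa using hy)
  have hev := (hlim.comp hlim2).eventually (ball_mem_nhds z (show 0 < d / 16 by positivity))
  obtain ⟨δ, hδ, hδs⟩ := mem_nhdsGT_iff_exists_Ioo_subset.1 hev
  refine ⟨δ, hδ, ?_⟩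
  intro y hy
  have h1 : ψ ((Real.exp (-y) : ℂ) * exp (x * I)) ∈ ball z (d / 16) := hδs hy
  have h2 : exp (((x : ℂ) + (y : ℂ) * I) * I) = (Real.exp (-y) : ℂ) * exp (x * I) := by
    rw [Complex.ofReal_exp, ← Complex.exp_add]
    congr 1
    push_cast
    have : I * I = -1 := I_mul_I
    linear_combination (y : ℂ) * this
  unfold FF
  rw [h2]
  exact hfin _ h1


end Pool.Agent.Helper265.Br
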