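import Mathlib
import Pool.Agent.Helper265.BrL
import Pool.Agent.Helper265.BrO
import Pool.Agent.Helper265.BrQ
import Pool.Agent.Helper265.BrT
import Pool.Agent.Helper265.BrW

set_option autoImplicit false
open Complex Set Filter Metric Topology MeasureTheory
open scoped ENNReal

namespace Pool.Agent.Helper265.Br

theorem small_univ {ψ g : ℂ → ℂ} {R q : ℝ} (hd : DifferentiableOn ℂ ψ (ball 0 1))
    (hi : InjOn ψ (ball 0 1)) (hR0 : 0 < R) (hR : ∀ ξ ∈ ball (0 : ℂ) 1, ‖ψ ξ‖ < R) (hq1 : 1 < q)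
    (hq2 : q < 2) (hgm : Measurable g) (hg : Integrable g)
    (hg0 : ∀ ζ, ζ ∉ ψ '' ball 0 1 → g ζ = 0)
    {W : ℝ → ℝ} (hWpos : ∀ t ∈ Ioc (0 : ℝ) 1, 0 < W t)
    (hWm : MonotoneOn W (Ioc 0 1)) (hW0 : Tendsto W (𝓝[>] 0) (𝓝 0))
    (hdiv : ∃ a ∈ Ioc (0 : ℝ) 1, W a < 1 ∧
      ∫⁻ t in Ioo 0 a, ENNReal.ofReal (Real.log (Real.log (1 / W t))) = ∞)
    {C0 c0 : ℝ} (hC0 : 0 < C0) (hc0 : 0 < c0)
    (htail : ∀ t ∈ Ioc (0 : ℝ) 1, ∫⁻ ζ in ψ '' ball 0 1 \ Om ψ t, ‖g ζ‖ₑ ^ q ≤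
      ENNReal.ofReal ((C0 * W t ^ c0) ^ q))
    (hpoly : ∀ P : Polynomial ℂ, ∫ ζ in ψ '' ball 0 1, g ζ * P.eval ζ = 0)
    {V : Set ℂ} (hVo : IsOpen V) (hV : IsConnected V) (hVu : ¬ Bornology.IsBounded V)
    (hVc : ∀ w ∈ V, w ∉ closure (ψ '' ball 0 1))
    (hE : 0 < volume {θ : ℝ | θ ∈ Ioo (-Real.pi) Real.pi ∧ ∃ z ∈ frontier V,
      Tendsto (fun r : ℝ => ψ ((r : ℂ) * exp (θ * I))) (𝓝[<] (1 : ℝ)) (𝓝 z)}) :
    ∀ (A : ℕ) (ε : ℝ), 0 < ε → ∃ t ∈ Ioo 0 ε, ∀ x : ℝ,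
      ‖FF ψ g t ((x : ℂ) + ((t / 4 : ℝ) : ℂ) * I)‖ ≤ ε * t ^ A := by
  have hΩo : IsOpen (ψ '' ball 0 1) := isOpen_image isOpen_ball hd hi isOpen_ball subset_rfl
  have hVd : Disjoint V (ψ '' ball 0 1) :=
    Set.disjoint_left.2 fun w hw h => hVc w hw (subset_closure h)
  have hbdd : Bornology.IsBounded (ψ '' ball 0 1) := by
    refine (isBounded_ball (x := (0 : ℂ)) (r := R)).subset ?_
    rintro _ ⟨ξ, hξ, rfl⟩
    rw [mem_ball_zero_iff]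
    exact hR ξ hξ
  have hcomp : IsCompact (closure (ψ '' ball 0 1)) := hbdd.isCompact_closure
  -- vanishing of the transform on `V`
  have hres : ∀ h : ℂ → ℂ, ∫ ζ in closure (ψ '' ball 0 1), g ζ * h ζ =
      ∫ ζ in ψ '' ball 0 1, g ζ * h ζ := by
    intro h
    refine setIntegral_eq_of_subset_of_forall_sdiff_eq_zero isClosed_closure.measurableSet
      subset_closure (fun x hx => ?_)
    show g x * h x = 0
    rw [hg0 x hx.2, zero_mul]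
  have hvan : ∀ w ∈ V, ∫ ζ in ψ '' ball 0 1, g ζ / (ζ - w) = 0 := by
    intro w hw
    have h1 := vanish hcomp hg.integrableOn (fun P => by rw [hres]; exact hpoly P) hVo hV
      (Set.disjoint_left.2 fun w hw h => hVc w hw h) hVu w hw
    have h2 := hres (fun ζ => (ζ - w)⁻¹)
    simp only [← div_eq_mul_inv] at h2
    rw [← h2, h1]
  have hsep := sep hd hi
  obtain ⟨C1, N1, hC1, hb1⟩ := FF_bound hi hsep hg
  obtain ⟨C2, c2, t2, hC2, hc2, ht2, ht21, hW1, hb2⟩ := FF_cmp hd hi hR hq1 hq2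
    (kp_univ hd hi hq1 hq2 hR0) hgm hg hWpos hW0 hC0 hc0 htail
  obtain ⟨C3, c3, N3, hC3, hc3, hb3⟩ := FF_start hd hi hR0 hR hq1 hq2 hsep hgm hg hWpos hC0 hc0
    htail hVo hV hVu hVd hvan hVc
  set C : ℝ := max 1 (max C1 (max C2 C3)) with hC
  have hCge1 : 1 ≤ C := le_max_left _ _
  have hCC1 : C1 ≤ C := (le_max_left _ _).trans (le_max_right _ _)
  have hCC2 : C2 ≤ C := (le_max_left _ _).trans ((le_max_right _ _).trans (le_max_right _ _))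
  have hCC3 : C3 ≤ C := (le_max_right _ _).trans ((le_max_right _ _).trans (le_max_right _ _))
  set c : ℝ := min c2 c3 with hc
  have hcpos : 0 < c := lt_min hc2 hc3
  set N : ℕ := max N1 N3 with hN
  have hWc : ∀ t ∈ Ioo 0 t2, ∀ c' : ℝ, c ≤ c' → W t ^ c' ≤ W t ^ c := by
    intro t ht c' hcc
    exact Real.rpow_le_rpow_of_exponent_ge (hWpos t ⟨ht.1, ht.2.le.trans ht21⟩) (hW1 t ht) hcc
  have hWn : ∀ t ∈ Ioo 0 t2, 0 < W t ^ c := fun t ht =>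
    Real.rpow_pos_of_pos (hWpos t ⟨ht.1, ht.2.le.trans ht21⟩) _
  have hscales : ∀ Λ c2 H0 t0 : ℝ, 1 < Λ → 0 < c2 → 0 < H0 → 0 < t0 →
      ∃ τ H : ℕ → ℝ, Sc W Λ c2 H0 t0 τ H := by
    intro Λ c2 H0 t0 h1 h2 h3 h4
    obtain ⟨τ, H, a1, a2, a3, a4, a5, a6, a7, a8, a9, a10⟩ :=
      scales hWpos hWm hW0 hdiv h1 h2 h3 h4
    exact ⟨τ, H, ⟨a1, a2, a3, a4, a5, a6, a7, a8, a9, a10⟩⟩
  intro A ε hε
  obtain ⟨t, ht, hx⟩ := chain (F := FF ψ g) (C := C) (c := c) (t0 := t2) (N := N)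
    hWpos hscales hCge1 hcpos ht2 ht21
    (fun t ht => FF_diff hd hi hg ht.1)
    (fun t z => FF_per t z)
    (by
      intro t ht z hz1 hz2
      have h1 := hb1 t ⟨ht.1, ht.2.le.trans ht21⟩ z hz1 hz2
      have h2 : t ^ N ≤ t ^ N1 := pow_le_pow_of_le_one ht.1.le (ht.2.le.trans ht21) (le_max_left _ _)
      calc ‖FF ψ g t z‖ * t ^ N ≤ ‖FF ψ g t z‖ * t ^ N1 := by gcongr
        _ ≤ C1 := h1
        _ ≤ C := hCC1)
    (by
      intro t ht t' ht' htt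
      have hle : C2 * W t ^ c2 ≤ C * W t ^ c :=
        mul_le_mul hCC2 (hWc t ht c2 (min_le_left _ _))
          (Real.rpow_nonneg (hWpos t ⟨ht.1, ht.2.le.trans ht21⟩).le _) (by linarith)
      refine (measure_mono ?_).trans ((hb2 t ht t' ht' htt).trans (ENNReal.ofReal_le_ofReal hle))
      rintro x ⟨hx1, hx2⟩
      exact ⟨hx1, lt_of_le_of_lt hle hx2⟩)
    (E := {θ : ℝ | θ ∈ Ioo (-Real.pi) Real.pi ∧ ∃ z ∈ frontier V,
      Tendsto (fun r : ℝ => ψ ((r : ℂ) * exp (θ * I))) (𝓝[<] (1 : ℝ)) (𝓝 z)})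
    (fun x hx => hx.1) hE
    (by
      rintro x ⟨_, z, hz, hlim⟩ t ht ε hε
      have htpos : 0 < t ^ N := pow_pos ht.1 _
      have hεpos : 0 < ε := by
        have h0 : 0 < ε * t ^ N := lt_trans (mul_pos (by linarith) (hWn t ht)) hε
        exact pos_of_mul_pos_left h0 htpos.le
      apply hb3 t ⟨ht.1, ht.2.trans_le ht21⟩ x z hz hlim ε
      have hle : C3 * W t ^ c3 ≤ C * W t ^ c :=
        mul_le_mul hCC3 (hWc t ht c3 (min_le_right _ _))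
          (Real.rpow_nonneg (hWpos t ⟨ht.1, ht.2.le.trans ht21⟩).le _) (by linarith)
      have h2 : t ^ N ≤ t ^ N3 := pow_le_pow_of_le_one ht.1.le (ht.2.le.trans ht21) (le_max_right _ _)
      calc C3 * W t ^ c3 ≤ C * W t ^ c := hle
        _ < ε * t ^ N := hε
        _ ≤ ε * t ^ N3 := by gcongr)
    A ε hε
  exact ⟨t, ⟨ht.1, lt_of_lt_of_le ht.2 (min_le_left _ _)⟩, hx⟩

end Pool.Agent.Helper265.Br
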