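import Mathlib
import Pool.Agent.Helper265.BrO
import Pool.Agent.Helper265.BrS

set_option autoImplicit false
open Complex Set Filter Metric Topology MeasureTheory
open scoped ENNReal

namespace Pool.Agent.Helper265.Br

theorem pair_zero {ψ g f : ℂ → ℂ} (hd : DifferentiableOn ℂ ψ (ball 0 1))
    (hi : InjOn ψ (ball 0 1)) (hf : DifferentiableOn ℂ f (ψ '' ball 0 1)) (hg : Integrable g)
    (hfg : IntegrableOn (fun ζ => f ζ * g ζ) (ψ '' ball 0 1)) {C : ℝ} {N : ℕ}
    (hfb : ∀ ξ ∈ ball (0 : ℂ) 1, ‖f (ψ ξ) * deriv ψ ξ‖ * (1 - ‖ξ‖) ^ N ≤ C)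
    (hsmall : ∀ (A : ℕ) (ε : ℝ), 0 < ε → ∃ t ∈ Ioo 0 ε, ∀ x : ℝ,
      ‖FF ψ g t ((x : ℂ) + ((t / 4 : ℝ) : ℂ) * I)‖ ≤ ε * t ^ A) :
    ∫ ζ in ψ '' ball 0 1, f ζ * g ζ = 0 := by
  classical
  have hU0 : ψ '' ball 0 1 = Om ψ 0 := by
    unfold Om
    rw [neg_zero, Real.exp_zero]
  have hUo : IsOpen (ψ '' ball 0 1) := by
    rw [hU0]
    exact isOpen_Om hd hi le_rfl
  have hC : 0 ≤ C := by
    have := hfb 0 (by simp)
    simp only [norm_zero, sub_zero, one_pow, mul_one] at this
    exact (norm_nonneg _).trans this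
  have hfin : ∀ n : ℕ, ∃ t : ℝ, 0 < t ∧ t < 1 / ((n : ℝ) + 2) ∧
      ‖∫ ζ in Om ψ t, f ζ * g ζ‖ ≤ C * 8 ^ N * (1 / ((n : ℝ) + 2)) := by
    intro n
    have hε : 0 < 1 / ((n : ℝ) + 2) := by positivity
    have hε1 : 1 / ((n : ℝ) + 2) < 1 := by
      rw [div_lt_one (by positivity)]
      have : (0:ℝ) ≤ n := Nat.cast_nonneg n
      linarith
    obtain ⟨t, ht, hb⟩ := hsmall N _ hε
    refine ⟨t, ht.1, ht.2, ?_⟩
    have ht0 := ht.1
    have ht1 : t < 1 := lt_trans ht.2 hε1
    have hmain := contour_bound (K := C * 8 ^ N / t ^ N) (δ := 1 / ((n : ℝ) + 2) * t ^ N)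
      hd hi ht0 hf hg.integrableOn ?_ ?_
    · refine hmain.trans (le_of_eq ?_)
      have : t ^ N ≠ 0 := by positivity
      field_simp
    · intro ξ hξ
      have hlt : Real.exp (-(t / 4)) < 1 := by
        rw [Real.exp_lt_one_iff]
        linarith
      have hξ1 : ξ ∈ ball (0:ℂ) 1 := by
        rw [mem_ball_zero_iff, hξ]
        exact hlt
      have h1 := hfb ξ hξ1
      rw [hξ] at h1
      have h2 : t / 8 ≤ 1 - Real.exp (-(t / 4)) := by
        have h3 : t / 4 + 1 ≤ Real.exp (t / 4) := Real.add_one_le_exp _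
        have h4 : Real.exp (-(t / 4)) ≤ 1 / (t / 4 + 1) := by
          rw [Real.exp_neg, ← one_div]
          exact one_div_le_one_div_of_le (by positivity) h3
        have h5 : 1 / (t / 4 + 1) ≤ 1 - t / 8 := by
          rw [div_le_iff₀ (by positivity)]
          nlinarith
        linarith
      have h3 : (t / 8) ^ N ≤ (1 - Real.exp (-(t / 4))) ^ N := by
        gcongr
      have h4 : ‖f (ψ ξ) * deriv ψ ξ‖ * (t / 8) ^ N ≤ C := by
        refine le_trans ?_ h1
        gcongr
      rw [div_pow] at h4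
      rw [le_div_iff₀ (by positivity)]
      have h5 : ‖f (ψ ξ) * deriv ψ ξ‖ * (t ^ N / 8 ^ N) * 8 ^ N ≤ C * 8 ^ N := by
        gcongr
      refine le_trans (le_of_eq ?_) h5
      field_simp
    · intro ξ hξ
      have h1 : Complex.exp ((((arg ξ : ℝ) : ℂ) + ((t / 4 : ℝ) : ℂ) * I) * I) = ξ := by
        have h2 := Complex.norm_mul_exp_arg_mul_I ξ
        rw [hξ] at h2
        refine Eq.trans ?_ h2
        rw [Complex.ofReal_exp, ← Complex.exp_add]
        congr 1
        have h3 : I * I = -1 := Complex.I_mul_I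
        push_cast
        linear_combination (t / 4 : ℂ) * h3
      have h2 := hb (arg ξ)
      unfold FF at h2
      rw [h1] at h2
      exact h2
  choose t ht0 ht1 htb using hfin
  have htlim : Tendsto t atTop (𝓝 0) := by
    refine squeeze_zero (fun n => (ht0 n).le) (fun n => (ht1 n).le) ?_
    have h1 : Tendsto (fun n : ℕ => (n : ℝ) + 2) atTop atTop :=
      tendsto_atTop_add_const_right _ _ tendsto_natCast_atTop_atTop
    simpa only [one_div] using! h1.inv_tendsto_atTop
  have hsub : ∀ n, Om ψ (t n) ⊆ ψ '' ball 0 1 := by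
    intro n
    rw [hU0]
    exact Om_mono (ht0 n).le
  have hlim : Tendsto (fun n => ∫ ζ in Om ψ (t n), f ζ * g ζ) atTop
      (𝓝 (∫ ζ in ψ '' ball 0 1, f ζ * g ζ)) := by
    have e1 : ∀ n, ∫ ζ in Om ψ (t n), f ζ * g ζ =
        ∫ ζ, (Om ψ (t n)).indicator (fun ζ => f ζ * g ζ) ζ := fun n =>
      (integral_indicator (isOpen_Om hd hi (ht0 n).le).measurableSet).symm
    have e2 : ∫ ζ in ψ '' ball 0 1, f ζ * g ζ =
        ∫ ζ, (ψ '' ball 0 1).indicator (fun ζ => f ζ * g ζ) ζ :=
      (integral_indicator hUo.measurableSet).symm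
    simp_rw [e1]
    rw [e2]
    refine tendsto_integral_of_dominated_convergence
      (fun ζ => ‖(ψ '' ball 0 1).indicator (fun ζ => f ζ * g ζ) ζ‖) ?_ ?_ ?_ ?_
    · intro n
      exact ((integrable_indicator_iff (isOpen_Om hd hi (ht0 n).le).measurableSet).2
        (hfg.mono_set (hsub n))).aestronglyMeasurable
    · exact ((integrable_indicator_iff hUo.measurableSet).2 hfg).norm
    · intro n
      refine Eventually.of_forall fun ζ => ?_
      by_cases h : ζ ∈ Om ψ (t n)
      · rw [indicator_of_mem h, indicator_of_mem (hsub n h)]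
      · rw [indicator_of_notMem h, norm_zero]
        exact norm_nonneg _
    · refine Eventually.of_forall fun ζ => ?_
      by_cases h : ζ ∈ ψ '' ball 0 1
      · obtain ⟨ξ, hξ, rfl⟩ := h
        have hξ' : ‖ξ‖ < 1 := by simpa using hξ
        have h1 : Tendsto (fun n => Real.exp (-(t n))) atTop (𝓝 1) := by
          have h3 := (Real.continuous_exp.tendsto (-0)).comp htlim.neg
          rw [neg_zero, Real.exp_zero] at h3
          exact h3
        have h2 : ∀ᶠ n in atTop, ‖ξ‖ < Real.exp (-(t n)) := h1.eventually_const_lt hξ'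
        refine tendsto_const_nhds.congr' ?_
        filter_upwards [h2] with n hn
        have m1 : ψ ξ ∈ ψ '' ball 0 1 := ⟨ξ, hξ, rfl⟩
        have m2 : ψ ξ ∈ Om ψ (t n) := ⟨ξ, by simpa using hn, rfl⟩
        rw [indicator_of_mem m1, indicator_of_mem m2]
      · refine tendsto_const_nhds.congr' ?_
        refine Eventually.of_forall fun n => ?_
        have h' : ζ ∉ Om ψ (t n) := fun h'' => h (hsub n h'')
        show _ = (Om ψ (t n)).indicator (fun ζ => f ζ * g ζ) ζ
        rw [indicator_of_notMem h, indicator_of_notMem h']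
  have hlim0 : Tendsto (fun n : ℕ => C * 8 ^ N * (1 / ((n : ℝ) + 2))) atTop (𝓝 0) := by
    have h1 : Tendsto (fun n : ℕ => (n : ℝ) + 2) atTop atTop :=
      tendsto_atTop_add_const_right _ _ tendsto_natCast_atTop_atTop
    have h2 := h1.inv_tendsto_atTop.const_mul (C * 8 ^ N)
    simpa only [one_div, mul_zero] using! h2
  have h0 : ‖∫ ζ in ψ '' ball 0 1, f ζ * g ζ‖ ≤ 0 :=
    le_of_tendsto_of_tendsto' hlim.norm hlim0 htb
  exact norm_le_zero_iff.1 h0


end Pool.Agent.Helper265.Br
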