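import Mathlib

set_option autoImplicit false
open Complex Set Filter Metric Topology MeasureTheory
open scoped ENNReal

namespace Pool.Agent.Helper265.Br

theorem disk_int : ∫⁻ ξ in ball (0 : ℂ) 1, ENNReal.ofReal ((1 - ‖ξ‖) ^ (-(1 / 2) : ℝ)) ≠ ∞ := by
  have h0 : IntervalIntegrable (fun x : ℝ => x ^ (-(1 / 2) : ℝ)) volume (1 - 0) (1 - 1) :=
    intervalIntegral.intervalIntegrable_rpow' (by norm_num)
  have h1 : IntervalIntegrable (fun x : ℝ => (1 - x) ^ (-(1 / 2) : ℝ)) volume 0 1 := by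
    have := h0.comp_sub_left 1
    simpa using this
  have h2 : IntervalIntegrable (fun x : ℝ => x * (1 - x) ^ (-(1 / 2) : ℝ)) volume 0 1 :=
    h1.continuousOn_mul continuousOn_id
  have h3 : IntegrableOn (fun y : ℝ => y ^ (Module.finrank ℝ ℂ - 1) •
      (fun t : ℝ => (1 - t) ^ (-(1 / 2) : ℝ)) y) (Ioo 0 1) := by
    rw [intervalIntegrable_iff_integrableOn_Ioo_of_le zero_le_one] at h2
    simpa [Complex.finrank_real_complex] using h2
  have h4 := (integrableOn_fun_norm_addHaar (E := ℂ) volume (r := 1)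
    (f := fun t : ℝ => (1 - t) ^ (-(1 / 2) : ℝ))).2 h3
  exact (Integrable.lintegral_lt_top h4).ne


end Pool.Agent.Helper265.Br
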