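import Mathlib
import Pool.Agent.Helper265.BrAC

set_option autoImplicit false
open Complex Set Filter Metric Topology MeasureTheory
open scoped ENNReal

namespace Pool.Agent.Helper265.Br

variable {Ω : Set ℂ} {φ ψ : ℂ → ℂ} {W : ℝ → ℝ} {V : Set ℂ} {R : ℝ}

theorem two_pow_ne {p : ℝ} (hp : 1 ≤ p) : (2 : ℝ≥0∞) ^ p ≠ ∞ ∧ (2 : ℝ≥0∞) ^ p ≠ 0 := by
  refine ⟨ENNReal.rpow_ne_top_of_nonneg (by linarith) (by norm_num), ?_⟩
  exact (ENNReal.rpow_pos (by norm_num) (by norm_num)).ne'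

/-- reduction of density to good approximants -/
theorem Data.red (h : Data Ω φ ψ W V R) {p : ℝ} (hp : 1 ≤ p)
    (hgood : ∀ (g : ℂ → ℂ) (M : ℝ≥0∞), DifferentiableOn ℂ g Ω → M ≠ ∞ →
      (∀ z ∈ Ω, ‖g z‖ₑ ^ p ≤ M * ENNReal.ofReal (‖deriv φ z‖ ^ 2)) →
      ∫⁻ z in Ω, ‖g z‖ₑ ^ p * ENNReal.ofReal (W (1 - ‖φ z‖)) ≠ ∞ → ∀ ε : ℝ≥0∞, 0 < ε →
      ∃ P : Polynomial ℂ, ∫⁻ z in Ω, ‖g z - P.eval z‖ₑ ^ p *
        ENNReal.ofReal (W (1 - ‖φ z‖)) < ε) : Dp Ω φ W p := by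
  intro f hf hfin ε hε
  obtain ⟨h2t, h20⟩ := two_pow_ne hp
  -- tolerance
  obtain ⟨δ, hδ0, hδt, hδ⟩ : ∃ δ : ℝ≥0∞, 0 < δ ∧ δ ≠ ∞ ∧ 2 ^ p * (δ + δ) ≤ ε := by
    refine ⟨min 1 (ε / 2 ^ p / 2), ?_, ?_, ?_⟩
    · refine lt_min one_pos (ENNReal.half_pos ?_)
      exact (ENNReal.div_pos hε.ne' h2t).ne'
    · exact ne_top_of_le_ne_top ENNReal.one_ne_top (min_le_left _ _)
    · calc (2 : ℝ≥0∞) ^ p * (min 1 (ε / 2 ^ p / 2) + min 1 (ε / 2 ^ p / 2))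
          ≤ 2 ^ p * (ε / 2 ^ p / 2 + ε / 2 ^ p / 2) := by
            gcongr <;> exact min_le_right _ _
        _ = 2 ^ p * (ε / 2 ^ p) := by rw [ENNReal.add_halves]
        _ = ε := ENNReal.mul_div_cancel h20 h2t
  obtain ⟨g, hg, ⟨M, hMt, hM⟩, hfg⟩ := transfer2 h.op h.sc h.dφ h.bij h.ne h.Wpos h.Wm hp hf hfin hδ0
  have hw := h.wmeas
  have hgfin : ∫⁻ z in Ω, ‖g z‖ₑ ^ p * ENNReal.ofReal (W (1 - ‖φ z‖)) ≠ ∞ := by
    have h1 := comb h.op hp (f := g) (g := f) (h := fun _ => 0) hg.continuousOn hf.continuousOn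
      continuousOn_const hw
    simp only [sub_zero] at h1
    refine ne_top_of_le_ne_top ?_ h1
    apply ENNReal.mul_ne_top h2t
    apply ENNReal.add_ne_top.2
    refine ⟨?_, hfin⟩
    have : ∀ z, ‖g z - f z‖ₑ = ‖f z - g z‖ₑ := fun z => enorm_sub_rev _ _
    simp only [this]
    exact hfg.ne_top
  obtain ⟨P, hP⟩ := hgood g M hg hMt hM hgfin δ hδ0
  refine ⟨P, lt_of_le_of_lt (comb h.op hp hf.continuousOn hg.continuousOn
    (Polynomial.continuous P).continuousOn hw) (lt_of_lt_of_le ?_ hδ)⟩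
  rw [ENNReal.mul_lt_mul_iff_right h20 h2t]
  exact ENNReal.add_lt_add hfg hP

theorem Data.gt2 (h : Data Ω φ ψ W V R) {p : ℝ} (hp : 2 < p) : Dp Ω φ W p := by
  apply h.red (by linarith)
  intro g M hg hMt hM hfin ε hε
  obtain ⟨C, N, hb⟩ := h.growth (by linarith : 1 ≤ p) hMt hM
  exact dens_gt2 h.diff h.inj h.im h.φψ h.dφ.continuousOn h.R0 h.bd h.Wpos h.Wm h.W0 h.div h.Vo h.Vc
    h.Vu h.Vd h.E hp hg hb hfin hε

theorem Data.step (h : Data Ω φ ψ W V R) : ∃ s0 : ℝ, 1 < s0 ∧ ∀ p : ℝ, 1 ≤ p →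
    Dp Ω φ W (s0 * p) → Dp Ω φ W p := by
  obtain ⟨s0, hs0, hgain⟩ := h.gain
  refine ⟨s0, hs0, fun p hp hD => h.red hp fun g M hg hMt hM hfin ε hε => ?_⟩
  have hw := h.wmeas
  have hp0 : 0 < p := by linarith
  have hpp : p < s0 * p := by nlinarith
  have hfin1 : ∫⁻ z in Ω, ‖g z‖ₑ ^ (s0 * p) * ENNReal.ofReal (W (1 - ‖φ z‖)) ≠ ∞ := by
    have h1 := hgain p g M hp hMt hM
    refine ne_top_of_le_ne_top (ENNReal.mul_ne_top h1 (ENNReal.ofReal_ne_top (r := W 1))) ?_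
    rw [← lintegral_mul_const' _ _ ENNReal.ofReal_ne_top]
    exact setLIntegral_mono' h.op.measurableSet fun z hz =>
      mul_le_mul' le_rfl (h.wle hz)
  -- choose tolerance
  set B : ℝ≥0∞ := (∫⁻ z in Ω, ENNReal.ofReal (W (1 - ‖φ z‖))) ^ (1 - p / (s0 * p)) with hB
  have hr : 0 < p / (s0 * p) := by positivity
  have hr1 : p / (s0 * p) < 1 := by rw [div_lt_one (by positivity)]; exact hpp
  have hBt : B ≠ ∞ := ENNReal.rpow_ne_top_of_nonneg (by linarith) h.wfin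
  obtain ⟨η, hη0, hη⟩ : ∃ η : ℝ≥0∞, 0 < η ∧ ∀ x < η, x ^ (p / (s0 * p)) * B < ε := by
    have hcont : Tendsto (fun x : ℝ≥0∞ => x ^ (p / (s0 * p)) * B) (𝓝 0) (𝓝 0) := by
      have h1 : Tendsto (fun x : ℝ≥0∞ => x ^ (p / (s0 * p))) (𝓝 0) (𝓝 (0 ^ (p / (s0 * p)))) :=
        ENNReal.continuous_rpow_const.continuousAt
      rw [ENNReal.zero_rpow_of_pos hr] at h1
      have h2 := ENNReal.Tendsto.mul_const (b := B) h1 (Or.inr hBt)
      rwa [zero_mul] at h2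
    have h3 := hcont.eventually_lt_const hε
    rw [ENNReal.nhds_zero_basis.eventually_iff] at h3
    obtain ⟨η, hη0, hη⟩ := h3
    exact ⟨η, hη0, fun x hx => hη hx⟩
  obtain ⟨P, hP⟩ := hD g hg hfin1 η hη0
  refine ⟨P, lt_of_le_of_lt (holder_low (F := fun z => ‖g z - P.eval z‖ₑ) hp0 hpp
    ?_ hw h.op.measurableSet) (hη _ hP)⟩
  exact ((hg.continuousOn.sub (Polynomial.continuous P).continuousOn).aemeasurable
    h.op.measurableSet).enorm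

theorem Data.all (h : Data Ω φ ψ W V R) {p : ℝ} (hp : 1 ≤ p) : Dp Ω φ W p := by
  obtain ⟨s0, hs0, hstep⟩ := h.step
  obtain ⟨n, hn⟩ : ∃ n : ℕ, 2 < s0 ^ n := pow_unbounded_of_one_lt 2 hs0
  have key : ∀ n : ℕ, ∀ p : ℝ, 1 ≤ p → 2 < s0 ^ n * p → Dp Ω φ W p := by
    intro n
    induction n with
    | zero => intro p hp h2; rw [pow_zero, one_mul] at h2; exact h.gt2 h2
    | succ n ih =>
      intro p hp h2
      apply hstep p hp
      apply ih (s0 * p) (by nlinarith)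
      rw [pow_succ] at h2
      linarith
  exact key n p hp (by nlinarith)

end Pool.Agent.Helper265.Br
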