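import Mathlib
import Pool.Agent.Helper265.BrH

set_option autoImplicit false
open Complex Set Filter Metric Topology MeasureTheory
open scoped ENNReal

namespace Pool.Agent.Helper265.Br

/-- scaling of the plane integral -/
theorem lintegral_scale (z : ℂ) {d : ℝ} (hd : 0 < d) {F : ℂ → ℝ≥0∞} (hF : Measurable F) :
    ∫⁻ ζ, F ζ = ENNReal.ofReal (d ^ 2) * ∫⁻ x, F (z + d • x) := by
  have h1 : ∫⁻ x, F (z + d • x) = ENNReal.ofReal ((d ^ 2)⁻¹) * ∫⁻ ζ, F ζ := by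
    have hm : Measurable (fun y : ℂ => F (z + y)) := hF.comp (measurable_const_add z)
    have h2 : ∫⁻ x, F (z + d • x) = ∫⁻ y, F (z + y) ∂(Measure.map (d • ·) (volume : Measure ℂ)) := by
      rw [lintegral_map hm (measurable_const_smul d)]
    rw [h2, Measure.map_addHaar_smul volume hd.ne', lintegral_smul_measure,
      lintegral_add_left_eq_self F z, Complex.finrank_real_complex, abs_of_pos (by positivity),
      smul_eq_mul]
  rw [h1, ← mul_assoc, ← ENNReal.ofReal_mul (by positivity), mul_inv_cancel₀ (by positivity),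
    ENNReal.ofReal_one, one_mul]

theorem gr_scaled {q : ℝ} (hq1 : 1 < q) (hq2 : q < 2) :
    ∃ C : ℝ, 0 < C ∧ ∀ (z : ℂ) (d ε : ℝ), 0 < d → 0 < ε →
      ∀ G : ℂ → ℝ≥0∞, Measurable G → (∀ ζ, ζ ∉ ball z (16 * d) → G ζ = 0) →
      ∫⁻ ζ, G ζ ^ q ≤ ENNReal.ofReal (ε ^ q) →
      ∃ r ∈ Ioo 0 d, ∀ w : ℂ, ‖w - z‖ = r →
          ∫⁻ ζ, G ζ * ‖ζ - w‖ₑ⁻¹ ≤ ENNReal.ofReal (C * ε * d ^ (1 - 2 / q)) := by
  obtain ⟨C, hC, H⟩ := good_radii (R := 16) hq1 hq2 (by norm_num)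
  refine ⟨C, hC, fun z d ε hd hε G hG hsupp hint => ?_⟩
  have hq0 : 0 < q := by linarith
  have hG' : Measurable (fun x : ℂ => G (z + d • x)) :=
    hG.comp ((measurable_const_add z).comp (measurable_const_smul d))
  have hsupp' : ∀ x : ℂ, x ∉ ball (0 : ℂ) 16 → G (z + d • x) = 0 := by
    intro x hx
    apply hsupp
    rw [mem_ball, not_lt, dist_zero_right] at hx
    rw [mem_ball, not_lt, dist_eq_norm, add_sub_cancel_left, norm_smul, Real.norm_eq_abs,
      abs_of_pos hd]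
    nlinarith
  have hεpos : 0 < ε * d ^ (-2 / q) := by positivity
  have hpow : (ε * d ^ (-2 / q)) ^ q = ε ^ q * (d ^ 2)⁻¹ := by
    rw [Real.mul_rpow hε.le (by positivity), ← Real.rpow_mul hd.le, div_mul_cancel₀ _ hq0.ne',
      Real.rpow_neg hd.le]
    norm_num
  have hint' : ∫⁻ x, G (z + d • x) ^ q ≤ ENNReal.ofReal ((ε * d ^ (-2 / q)) ^ q) := by
    have h1 := lintegral_scale z hd (F := fun ζ => G ζ ^ q) (hG.pow_const q)
    have h2 : ∫⁻ x, G (z + d • x) ^ q = ENNReal.ofReal ((d ^ 2)⁻¹) * ∫⁻ ζ, G ζ ^ q := by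
      rw [h1, ← mul_assoc, ← ENNReal.ofReal_mul (by positivity), inv_mul_cancel₀ (by positivity),
        ENNReal.ofReal_one, one_mul]
    rw [h2, hpow, mul_comm (ε ^ q), ENNReal.ofReal_mul (by positivity)]
    gcongr
  obtain ⟨T, hTm, hTsub, hTvol, hT⟩ := H 0 1 (ε * d ^ (-2 / q)) one_pos le_rfl hεpos _ hG' hsupp' hint'
  have hTne : T.Nonempty := by
    rw [Set.nonempty_iff_ne_empty]
    rintro rfl
    simp at hTvol
  obtain ⟨r', hr'⟩ := hTne
  have hr01 := hTsub hr'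
  refine ⟨d * r', ⟨mul_pos hd hr01.1, by nlinarith [hr01.2]⟩, fun w hw => ?_⟩
  set w' : ℂ := d⁻¹ • (w - z) with hw'
  have hww : w = z + d • w' := by
    rw [hw', smul_smul, mul_inv_cancel₀ hd.ne', one_smul]; ring
  have hnw : ‖w' - 0‖ = r' := by
    rw [sub_zero, hw', norm_smul, hw, norm_inv, Real.norm_eq_abs, abs_of_pos hd]
    field_simp
  have key := hT r' hr' w' hnw
  have hF : Measurable (fun ζ : ℂ => G ζ * ‖ζ - w‖ₑ⁻¹) :=
    hG.mul ((measurable_id.sub_const w).enorm.inv)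
  have e1 : ∀ x : ℂ, G (z + d • x) * ‖z + d • x - w‖ₑ⁻¹ =
      (ENNReal.ofReal d)⁻¹ * (G (z + d • x) * ‖x - w'‖ₑ⁻¹) := by
    intro x
    have : z + d • x - w = d • (x - w') := by rw [hww, smul_sub]; ring
    rw [this, enorm_smul, ENNReal.mul_inv (Or.inl (by simpa using hd.ne')) (Or.inl (by simp))]
    have h2 : ‖d‖ₑ = ENNReal.ofReal d := Real.enorm_of_nonneg hd.le
    rw [h2]
    ring
  rw [lintegral_scale z hd hF]
  simp_rw [e1]
  have hm2 : Measurable (fun x : ℂ => G (z + d • x) * ‖x - w'‖ₑ⁻¹) :=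
    hG'.mul ((measurable_id.sub_const w').enorm.inv)
  rw [lintegral_const_mul _ hm2, ← mul_assoc]
  have e2 : ENNReal.ofReal (d ^ 2) * (ENNReal.ofReal d)⁻¹ = ENNReal.ofReal d := by
    rw [← ENNReal.ofReal_inv_of_pos hd, ← ENNReal.ofReal_mul (by positivity)]
    congr 1
    field_simp
  rw [e2]
  calc ENNReal.ofReal d * ∫⁻ x, G (z + d • x) * ‖x - w'‖ₑ⁻¹
      ≤ ENNReal.ofReal d * ENNReal.ofReal (C * (ε * d ^ (-2 / q)) / 1) := by gcongr
    _ = ENNReal.ofReal (C * ε * d ^ (1 - 2 / q)) := by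
        rw [← ENNReal.ofReal_mul hd.le]
        congr 1
        have : (1 - 2 / q : ℝ) = 1 + -2 / q := by ring
        rw [this, Real.rpow_add hd, Real.rpow_one]
        ring


end Pool.Agent.Helper265.Br
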