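import Mathlib
import Pool.Agent.Helper265.BrG

set_option autoImplicit false
open Complex Set Filter Metric Topology MeasureTheory
open scoped ENNReal

namespace Pool.Agent.Helper265.Br

theorem excep {ψ : ℂ → ℂ} (hd : DifferentiableOn ℂ ψ (ball 0 1))
    (hcore : ∀ b : ℝ, 0 < b → b < 1 → ∃ C c : ℝ, 0 < C ∧ 0 < c ∧
      ∀ r ∈ Ioo (1 / 2 : ℝ) 1, ∀ ρ ∈ Ioo (0 : ℝ) 1,
      ∃ Bad : Set ℝ, MeasurableSet Bad ∧ Bad ⊆ Ioo (-Real.pi) Real.pi ∧
        volume Bad ≤ ENNReal.ofReal (C * ρ ^ c) ∧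
        ∀ ζ : ℂ, volume {θ : ℝ | θ ∈ Ioo (-Real.pi) Real.pi ∧ θ ∉ Bad ∧
          ‖ψ ((r : ℂ) * exp (θ * I)) - ζ‖ < ρ} ≤ ENNReal.ofReal (C * ρ ^ b))
    {b' : ℝ} (hb0 : 0 < b') (hb1 : b' < 1) :
    ∃ C c : ℝ, 0 < C ∧ 0 < c ∧ ∀ r ∈ Ioo (1 / 2 : ℝ) 1, ∀ H : ℂ → ℝ≥0∞, Measurable H →
      ∫⁻ ζ, H ζ ≤ 1 → ∃ X : ℕ → Set ℝ, (∀ m, MeasurableSet (X m)) ∧ Antitone X ∧
        (∀ m, volume (X m) ≤ ENNReal.ofReal (C * Real.exp (-(c * m)))) ∧
        ∀ (m : ℕ) (θ : ℝ), θ ∈ Ioo (-Real.pi) Real.pi → θ ∉ X m → ∀ j : ℕ, m ≤ j → 1 ≤ j →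
          ∫⁻ ζ in ball (ψ ((r : ℂ) * exp (θ * I))) ((1 / 2 : ℝ) ^ j), H ζ ≤
            ENNReal.ofReal (((1 / 2 : ℝ) ^ j) ^ b') := by
  classical
  set b : ℝ := (1 + b') / 2 with hb
  have hbb : b' < b := by rw [hb]; linarith
  have hb1' : b < 1 := by rw [hb]; linarith
  have hb0' : 0 < b := hb0.trans hbb
  obtain ⟨C1, c1, hC1, hc1, hcc⟩ := hcore b hb0' hb1'
  set c' : ℝ := min c1 (b - b') with hc'
  have hc'0 : 0 < c' := lt_min hc1 (sub_pos.2 hbb)
  set q : ℝ := (1 / 2 : ℝ) ^ c' with hq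
  have hq0 : 0 < q := Real.rpow_pos_of_pos (by norm_num) _
  have hq1 : q < 1 := Real.rpow_lt_one (by norm_num) (by norm_num) hc'0
  have hqexp : ∀ m : ℕ, q ^ m = Real.exp (-(c' * Real.log 2 * m)) := by
    intro m
    have h1 : q = Real.exp (-(c' * Real.log 2)) := by
      rw [hq, Real.rpow_def_of_pos (by norm_num)]
      congr 1
      rw [one_div, Real.log_inv]; ring
    rw [h1, ← Real.exp_nat_mul]
    congr 1; ring
  refine ⟨2 * C1 * (1 - q)⁻¹, c' * Real.log 2, ?_, ?_, ?_⟩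
  · have : 0 < 1 - q := by linarith
    positivity
  · have : 0 < Real.log 2 := Real.log_pos (by norm_num)
    positivity
  intro r hr H hH hHi
  set z : ℝ → ℂ := fun θ => ψ ((r : ℂ) * exp (θ * I)) with hz
  have hzc : Continuous z := by
    refine hd.continuousOn.comp_continuous ?_ ?_
    · exact continuous_const.mul (Complex.continuous_exp.comp
        (Complex.continuous_ofReal.mul continuous_const))
    · intro θ
      rw [mem_ball_zero_iff, norm_mul, Complex.norm_exp_ofReal_mul_I, mul_one, Complex.norm_real,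
        Real.norm_eq_abs, abs_of_pos (by linarith [hr.1])]
      exact hr.2
  have hbad : ∀ j : ℕ, 1 ≤ j → ∃ Bad : Set ℝ, MeasurableSet Bad ∧ Bad ⊆ Ioo (-Real.pi) Real.pi ∧
        volume Bad ≤ ENNReal.ofReal (C1 * ((1 / 2 : ℝ) ^ j) ^ c1) ∧
        ∀ ζ : ℂ, volume {θ : ℝ | θ ∈ Ioo (-Real.pi) Real.pi ∧ θ ∉ Bad ∧
          ‖ψ ((r : ℂ) * exp (θ * I)) - ζ‖ < (1 / 2 : ℝ) ^ j} ≤
            ENNReal.ofReal (C1 * ((1 / 2 : ℝ) ^ j) ^ b) := by
    intro j hj
    exact hcc r hr _ ⟨by positivity, pow_lt_one₀ (by norm_num) (by norm_num) (by omega)⟩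
  choose! Bad hBad using hbad
  let A : ℕ → Set ℝ := fun j => {θ : ℝ | θ ∈ Ioo (-Real.pi) Real.pi \ Bad j ∧
    ENNReal.ofReal (((1 / 2 : ℝ) ^ j) ^ b' * 1 ^ (1:ℝ)) < ∫⁻ ζ in ball (z θ) ((1 / 2 : ℝ) ^ j), H ζ}
  have hA : ∀ j, 1 ≤ j → volume (A j) ≤ ENNReal.ofReal (C1 * ((1 / 2 : ℝ) ^ j) ^ (b - b')) := by
    intro j hj
    refine kp_scale (z := z) (G := H) (B := Ioo (-Real.pi) Real.pi \ Bad j) hzc.measurable hH
      (measurableSet_Ioo.diff (hBad j hj).1) (by positivity) hC1 one_pos ?_ ?_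
    · intro ζ
      refine le_trans (measure_mono ?_) ((hBad j hj).2.2.2 ζ)
      rintro θ ⟨⟨h1, h2⟩, h3⟩
      exact ⟨h1, h2, h3⟩
    · simpa using hHi
  let T : ℕ → Set ℝ := fun j => if 1 ≤ j then toMeasurable volume (Bad j ∪ A j) else ∅
  have hTm : ∀ j, MeasurableSet (T j) := by
    intro j
    simp only [T]
    split_ifs
    · exact measurableSet_toMeasurable _ _
    · exact MeasurableSet.empty
  have hpow : ∀ (j : ℕ) (e : ℝ), c' ≤ e → ((1 / 2 : ℝ) ^ j) ^ e ≤ q ^ j := by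
    intro j e he
    have h1 : ((1 / 2 : ℝ) ^ j) ^ e ≤ ((1 / 2 : ℝ) ^ j) ^ c' :=
      Real.rpow_le_rpow_of_exponent_ge (by positivity)
        (pow_le_one₀ (by norm_num) (by norm_num)) he
    have h2 : ((1 / 2 : ℝ) ^ j) ^ c' = q ^ j := by
      rw [hq, ← Real.rpow_natCast, ← Real.rpow_mul (by norm_num), mul_comm,
        Real.rpow_mul (by norm_num), Real.rpow_natCast]
    rw [← h2]; exact h1
  have hTv : ∀ j, volume (T j) ≤ ENNReal.ofReal (2 * C1 * q ^ j) := by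
    intro j
    simp only [T]
    split_ifs with hj
    · rw [measure_toMeasurable]
      refine (measure_union_le _ _).trans ?_
      have e1 : volume (Bad j) ≤ ENNReal.ofReal (C1 * q ^ j) :=
        (hBad j hj).2.2.1.trans (ENNReal.ofReal_le_ofReal
          (mul_le_mul_of_nonneg_left (hpow j c1 (min_le_left _ _)) hC1.le))
      have e2 : volume (A j) ≤ ENNReal.ofReal (C1 * q ^ j) :=
        (hA j hj).trans (ENNReal.ofReal_le_ofReal
          (mul_le_mul_of_nonneg_left (hpow j _ (min_le_right _ _)) hC1.le))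
      calc volume (Bad j) + volume (A j) ≤ ENNReal.ofReal (C1 * q ^ j) + ENNReal.ofReal (C1 * q ^ j) :=
            add_le_add e1 e2
        _ = ENNReal.ofReal (2 * C1 * q ^ j) := by
            rw [← ENNReal.ofReal_add (by positivity) (by positivity)]
            congr 1; ring
    · simp
  refine ⟨fun m => ⋃ i : ℕ, T (m + i), ?_, ?_, ?_, ?_⟩
  · intro m
    exact MeasurableSet.iUnion fun i => hTm _
  · intro m m' hmm θ hθ
    obtain ⟨i, hi⟩ := mem_iUnion.1 hθ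
    refine mem_iUnion.2 ⟨m' - m + i, ?_⟩
    have : m + (m' - m + i) = m' + i := by omega
    rw [this]; exact hi
  · intro m
    refine (measure_iUnion_le _).trans ?_
    have hsum : Summable fun i : ℕ => 2 * C1 * q ^ (m + i) := by
      have := (summable_geometric_of_lt_one hq0.le hq1).mul_left (2 * C1 * q ^ m)
      refine this.congr fun i => ?_
      rw [pow_add]; ring
    calc ∑' i, volume (T (m + i)) ≤ ∑' i : ℕ, ENNReal.ofReal (2 * C1 * q ^ (m + i)) :=
          ENNReal.tsum_le_tsum fun i => hTv _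
      _ = ENNReal.ofReal (∑' i : ℕ, 2 * C1 * q ^ (m + i)) :=
          (ENNReal.ofReal_tsum_of_nonneg (fun i => by positivity) hsum).symm
      _ = ENNReal.ofReal (2 * C1 * (1 - q)⁻¹ * Real.exp (-(c' * Real.log 2 * m))) := by
          congr 1
          rw [← hqexp]
          have : ∀ i : ℕ, 2 * C1 * q ^ (m + i) = 2 * C1 * q ^ m * q ^ i := fun i => by
            rw [pow_add]; ring
          simp only [this]
          rw [tsum_mul_left, tsum_geometric_of_lt_one hq0.le hq1]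
          ring
  · intro m θ hθ hX j hmj hj
    have h1 : θ ∉ T j := by
      intro h
      apply hX
      refine mem_iUnion.2 ⟨j - m, ?_⟩
      have : m + (j - m) = j := by omega
      rw [this]; exact h
    have h2 : θ ∉ Bad j ∪ A j := by
      intro h
      apply h1
      simp only [T, if_pos hj]
      exact subset_toMeasurable _ _ h
    have h3 : θ ∉ Bad j := fun h => h2 (Or.inl h)
    have h4 : θ ∉ A j := fun h => h2 (Or.inr h)
    by_contra hcon
    push Not at hcon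
    apply h4
    refine ⟨⟨hθ, h3⟩, ?_⟩
    rw [Real.one_rpow, mul_one]
    exact hcon


end Pool.Agent.Helper265.Br
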