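import Mathlib
import Pool.Agent.Helper265.CrA
import Pool.Agent.Helper265.BrG

set_option autoImplicit false
open Complex Set Filter Metric Topology MeasureTheory
open scoped ENNReal

namespace Pool.Agent.Helper265.Br

/-- the measure `H` is small on all small discs about `z` -/
def Reg (H : ℂ → ℝ≥0∞) (b : ℝ) (z : ℂ) (m : ℕ) : Prop :=
  ∀ j : ℕ, m ≤ j → 1 ≤ j → ∫⁻ ζ in ball z ((1 / 2 : ℝ) ^ j), H ζ ≤
    ENNReal.ofReal (((1 / 2 : ℝ) ^ j) ^ b)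

theorem pt_be {q b : ℝ} (hq1 : 1 < q) {G : ℂ → ℝ≥0∞} (hG : Measurable G)
    {z : ℂ} {m : ℕ} (h : Reg (fun ζ => G ζ ^ q) b z m) {j : ℕ} (hj : m ≤ j) (hj1 : 1 ≤ j) :
    ∫⁻ ζ in ball z ((1 / 2 : ℝ) ^ j), G ζ ≤
      ENNReal.ofReal (4 * ((1 / 2 : ℝ) ^ j) ^ (1 + (q - 2 + b) / q)) := by
  have h2 := h j hj hj1
  have hρ : (0 : ℝ) < (1 / 2 : ℝ) ^ j := by positivity
  set ρ : ℝ := (1 / 2 : ℝ) ^ j with hρd
  have h1 := kp_holder hG hq1 (ball z ρ)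
  have hq0 : 0 < q := by linarith
  have hq1' : 0 ≤ 1 - 1 / q := by
    rw [sub_nonneg, div_le_one hq0]; exact hq1.le
  have hq1'' : 1 - 1 / q ≤ 1 := by
    have : 0 < 1 / q := by positivity
    linarith
  rw [kp_vol z hρ hq1'] at h1
  calc ∫⁻ ζ in ball z ρ, G ζ ≤ _ := h1
    _ ≤ (ENNReal.ofReal (ρ ^ b)) ^ (1 / q) * ENNReal.ofReal ((Real.pi * ρ ^ 2) ^ (1 - 1 / q)) := by
        gcongr
    _ = ENNReal.ofReal ((ρ ^ b) ^ (1 / q) * (Real.pi * ρ ^ 2) ^ (1 - 1 / q)) := by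
        rw [ENNReal.ofReal_rpow_of_nonneg (by positivity) (by positivity),
          ← ENNReal.ofReal_mul (by positivity)]
    _ ≤ _ := by
        apply ENNReal.ofReal_le_ofReal
        rw [Real.mul_rpow Real.pi_pos.le (by positivity), ← Real.rpow_natCast ρ 2,
          ← Real.rpow_mul hρ.le, ← Real.rpow_mul hρ.le]
        have hpi : Real.pi ^ (1 - 1 / q) ≤ 4 := by
          calc Real.pi ^ (1 - 1 / q) ≤ Real.pi ^ (1 : ℝ) :=
                Real.rpow_le_rpow_of_exponent_le (by linarith [Real.pi_gt_three]) hq1''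
            _ = Real.pi := Real.rpow_one _
            _ ≤ 4 := Real.pi_le_four
        have he : ρ ^ (b * (1 / q)) * ρ ^ (((2 : ℕ) : ℝ) * (1 - 1 / q)) =
            ρ ^ (1 + (q - 2 + b) / q) := by
          rw [← Real.rpow_add hρ]
          congr 1
          push_cast
          field_simp
          ring
        calc ρ ^ (b * (1 / q)) * (Real.pi ^ (1 - 1 / q) * ρ ^ (((2 : ℕ) : ℝ) * (1 - 1 / q)))
            = Real.pi ^ (1 - 1 / q) * (ρ ^ (b * (1 / q)) * ρ ^ (((2 : ℕ) : ℝ) * (1 - 1 / q))) := by ring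
          _ = Real.pi ^ (1 - 1 / q) * ρ ^ (1 + (q - 2 + b) / q) := by rw [he]
          _ ≤ _ := by gcongr

theorem pt_tot {q R : ℝ} (hq1 : 1 < q) (hR : 0 < R) {G : ℂ → ℝ≥0∞} (hG : Measurable G)
    (hs : ∀ ζ, ζ ∉ ball (0 : ℂ) R → G ζ = 0) (h1 : ∫⁻ ζ, G ζ ^ q ≤ 1) :
    ∫⁻ ζ, G ζ ≤ ENNReal.ofReal ((Real.pi * R ^ 2) ^ (1 - 1 / q)) := by
  have hq0 : 0 < q := by linarith
  have hq1' : 0 ≤ 1 - 1 / q := by
    rw [sub_nonneg, div_le_one hq0]; exact hq1.le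
  have e : ∫⁻ ζ, G ζ = ∫⁻ ζ in ball (0 : ℂ) R, G ζ := by
    rw [← lintegral_indicator measurableSet_ball]
    apply lintegral_congr
    intro ζ
    by_cases h : ζ ∈ ball (0 : ℂ) R
    · rw [indicator_of_mem h]
    · rw [indicator_of_notMem h, hs ζ h]
  rw [e]
  have h2 := kp_holder hG hq1 (ball (0 : ℂ) R)
  rw [kp_vol 0 hR hq1'] at h2
  refine h2.trans ?_
  have h3 : (∫⁻ ζ in ball (0 : ℂ) R, G ζ ^ q) ^ (1 / q) ≤ 1 := by
    have h4 : ∫⁻ ζ in ball (0 : ℂ) R, G ζ ^ q ≤ 1 := (setLIntegral_le_lintegral _ _).trans h1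
    calc _ ≤ (1 : ℝ≥0∞) ^ (1 / q) := by gcongr
      _ = 1 := ENNReal.one_rpow _
  calc _ ≤ 1 * ENNReal.ofReal ((Real.pi * R ^ 2) ^ (1 - 1 / q)) := by gcongr
    _ = _ := one_mul _

/-- dyadic summation against a power kernel -/
theorem pt_dy {G : ℂ → ℝ≥0∞} (hG : Measurable G) (z : ℂ) (n : ℕ) {κ : ℝ} (hκ : 0 < κ) :
    ∫⁻ ζ, (ball z ((1 / 2 : ℝ) ^ n)).indicator G ζ * ENNReal.ofReal (‖ζ - z‖ ^ (-κ)) ≤
      ∑' j : ℕ, ENNReal.ofReal (((1 / 2 : ℝ) ^ (n + j + 1)) ^ (-κ)) *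
        ∫⁻ ζ in ball z ((1 / 2 : ℝ) ^ (n + j)), G ζ := by
  have e : ∑' j : ℕ, ENNReal.ofReal (((1 / 2 : ℝ) ^ (n + j + 1)) ^ (-κ)) *
        ∫⁻ ζ in ball z ((1 / 2 : ℝ) ^ (n + j)), G ζ =
      ∫⁻ ζ, ∑' j : ℕ, ENNReal.ofReal (((1 / 2 : ℝ) ^ (n + j + 1)) ^ (-κ)) *
        (ball z ((1 / 2 : ℝ) ^ (n + j))).indicator G ζ := by
    rw [lintegral_tsum]
    · congr 1
      ext j
      rw [lintegral_const_mul _ (hG.indicator measurableSet_ball),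
        lintegral_indicator measurableSet_ball]
    · intro j
      exact ((hG.indicator measurableSet_ball).const_mul _).aemeasurable
  rw [e]
  apply lintegral_mono
  intro ζ
  dsimp only
  by_cases hζ : ζ ∈ ball z ((1 / 2 : ℝ) ^ n)
  swap
  · rw [indicator_of_notMem hζ, zero_mul]; exact zero_le
  by_cases hz : ζ = z
  · rw [hz, sub_self, norm_zero, Real.zero_rpow (neg_ne_zero.2 hκ.ne'), ENNReal.ofReal_zero, mul_zero]
    exact zero_le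
  have hρ : 0 < ‖ζ - z‖ := norm_pos_iff.2 (sub_ne_zero.2 hz)
  have hex : ∃ j : ℕ, (1 / 2 : ℝ) ^ (n + j + 1) ≤ ‖ζ - z‖ := by
    obtain ⟨k, hk⟩ := exists_pow_lt_of_lt_one hρ (by norm_num : (1 / 2 : ℝ) < 1)
    refine ⟨k, le_trans (pow_le_pow_of_le_one (by norm_num) (by norm_num) (by omega)) hk.le⟩
  classical
  obtain ⟨j, hj1, hj2⟩ : ∃ j : ℕ, (1 / 2 : ℝ) ^ (n + j + 1) ≤ ‖ζ - z‖ ∧
      ‖ζ - z‖ < (1 / 2 : ℝ) ^ (n + j) := by
    refine ⟨Nat.find hex, Nat.find_spec hex, ?_⟩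
    rcases hfe : Nat.find hex with _ | i
    · rw [mem_ball, dist_eq_norm] at hζ
      exact hζ
    · have := Nat.find_min hex (m := i) (by omega)
      push Not at this
      exact this
  have hmem : ζ ∈ ball z ((1 / 2 : ℝ) ^ (n + j)) := by
    rw [mem_ball, dist_eq_norm]; exact hj2
  refine le_trans ?_ (ENNReal.le_tsum j)
  rw [indicator_of_mem hζ, indicator_of_mem hmem, mul_comm]
  exact mul_le_mul' (ENNReal.ofReal_le_ofReal
    (Real.rpow_le_rpow_of_nonpos (by positivity) hj1 (neg_nonpos.2 hκ.le))) le_rfl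

theorem ptE1 {q b R : ℝ} (hq1 : 1 < q) (hq2 : q < 2) (hb : 2 - q < b) (hb1 : b < 1) (hR : 0 < R) :
    ∃ C : ℝ, 0 < C ∧ ∀ G : ℂ → ℝ≥0∞, Measurable G → (∀ ζ, ζ ∉ ball (0 : ℂ) R → G ζ = 0) →
      ∫⁻ ζ, G ζ ^ q ≤ 1 → ∀ (z : ℂ) (m : ℕ), Reg (fun ζ => G ζ ^ q) b z m →
        ∫⁻ ζ, G ζ * ‖ζ - z‖ₑ⁻¹ ≤ ENNReal.ofReal (C * 2 ^ m) := by
  have hq0 : 0 < q := by linarith
  set s : ℝ := (q - 2 + b) / q with hs
  have hs0 : 0 < s := div_pos (by linarith) hq0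
  set A : ℝ := (Real.pi * R ^ 2) ^ (1 - 1 / q) with hA
  have hA0 : 0 < A := by
    have := Real.pi_pos
    positivity
  set σ : ℝ := (1 / 2 : ℝ) ^ s with hσ
  have hσ0 : 0 < σ := by positivity
  have hσ1 : σ < 1 := Real.rpow_lt_one (by norm_num) (by norm_num) hs0
  refine ⟨2 * A + 8 / (1 - σ), by
    have : 0 < 1 - σ := by linarith
    positivity, ?_⟩
  intro G hG hsupp h1 z m hreg
  refine (kp_int hG z (m + 1)).trans ?_
  have ht : ∀ j : ℕ, (2 : ℝ≥0∞) ^ (m + 1 + j + 1) * ∫⁻ ζ in ball z ((1 / 2 : ℝ) ^ (m + 1 + j)), G ζ ≤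
      ENNReal.ofReal (8 * σ ^ j) := by
    intro j
    have h3 := pt_be hq1 hG hreg (j := m + 1 + j) (by omega) (by omega)
    have h4 : (2 : ℝ≥0∞) ^ (m + 1 + j + 1) = ENNReal.ofReal (2 ^ (m + 1 + j + 1)) := by
      rw [ENNReal.ofReal_pow (by norm_num)]
      simp
    rw [h4]
    calc _ ≤ ENNReal.ofReal (2 ^ (m + 1 + j + 1)) *
          ENNReal.ofReal (4 * ((1 / 2 : ℝ) ^ (m + 1 + j)) ^ (1 + (q - 2 + b) / q)) := by gcongr
      _ = ENNReal.ofReal (2 ^ (m + 1 + j + 1) * (4 * ((1 / 2 : ℝ) ^ (m + 1 + j)) ^ (1 + s))) := by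
          rw [← ENNReal.ofReal_mul (by positivity)]
      _ ≤ _ := by
          apply ENNReal.ofReal_le_ofReal
          have hk : (0 : ℝ) < (1 / 2 : ℝ) ^ (m + 1 + j) := by positivity
          rw [Real.rpow_add hk, Real.rpow_one]
          have h5 : ((1 / 2 : ℝ) ^ (m + 1 + j)) ^ s = σ ^ (m + 1 + j) := by
            rw [hσ, ← Real.rpow_natCast, ← Real.rpow_natCast, ← Real.rpow_mul (by norm_num),
              ← Real.rpow_mul (by norm_num), mul_comm]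
          rw [h5]
          have h6 : (2 : ℝ) ^ (m + 1 + j + 1) * (1 / 2 : ℝ) ^ (m + 1 + j) = 2 := by
            rw [pow_succ, mul_right_comm, ← mul_pow]
            norm_num
          have h7 : σ ^ (m + 1 + j) ≤ σ ^ j :=
            pow_le_pow_of_le_one hσ0.le hσ1.le (by omega)
          calc (2 : ℝ) ^ (m + 1 + j + 1) * (4 * ((1 / 2 : ℝ) ^ (m + 1 + j) * σ ^ (m + 1 + j)))
              = 4 * ((2 : ℝ) ^ (m + 1 + j + 1) * (1 / 2 : ℝ) ^ (m + 1 + j)) * σ ^ (m + 1 + j) := by ring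
            _ = 8 * σ ^ (m + 1 + j) := by rw [h6]; ring
            _ ≤ _ := by gcongr
  have hsum : ∑' j : ℕ, (2 : ℝ≥0∞) ^ (m + 1 + j + 1) *
      ∫⁻ ζ in ball z ((1 / 2 : ℝ) ^ (m + 1 + j)), G ζ ≤ ENNReal.ofReal (8 / (1 - σ)) := by
    calc _ ≤ ∑' j : ℕ, ENNReal.ofReal (8 * σ ^ j) := ENNReal.tsum_le_tsum ht
      _ = _ := kp_geom (by norm_num) hσ0.le hσ1
  have htot := pt_tot hq1 hR hG hsupp h1
  have h4 : (2 : ℝ≥0∞) ^ (m + 1) = ENNReal.ofReal (2 ^ (m + 1)) := by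
    rw [ENNReal.ofReal_pow (by norm_num)]
    simp
  rw [h4]
  have h1σ : 0 < 1 - σ := by linarith
  calc _ ≤ ENNReal.ofReal (2 ^ (m + 1)) * ENNReal.ofReal A + ENNReal.ofReal (8 / (1 - σ)) := by gcongr
    _ = ENNReal.ofReal (2 ^ (m + 1) * A + 8 / (1 - σ)) := by
        rw [← ENNReal.ofReal_mul (by positivity), ← ENNReal.ofReal_add (by positivity) (by positivity)]
    _ ≤ _ := by
        apply ENNReal.ofReal_le_ofReal
        have h8 : (1 : ℝ) ≤ 2 ^ m := one_le_pow₀ (by norm_num)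
        have h9 : 0 < 8 / (1 - σ) := by positivity
        calc (2 : ℝ) ^ (m + 1) * A + 8 / (1 - σ) ≤ 2 ^ (m + 1) * A + 8 / (1 - σ) * 2 ^ m := by
              gcongr
              exact le_mul_of_one_le_right h9.le h8
          _ = _ := by ring

theorem pt_J {q b : ℝ} (hq1 : 1 < q) (hb : 2 - q < b) (hb1 : b < 1)
    {G : ℂ → ℝ≥0∞} (hG : Measurable G) {z : ℂ} {m : ℕ} (hreg : Reg (fun ζ => G ζ ^ q) b z m)
    {s : ℝ} (hs : s = (q - 2 + b) / q) {τ : ℝ} (hτ : τ = (1 / 2 : ℝ) ^ (s / 2)) :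
    ∫⁻ ζ, (ball z ((1 / 2 : ℝ) ^ (m + 1))).indicator G ζ *
      ENNReal.ofReal (‖ζ - z‖ ^ (-(1 + s / 2))) ≤ ENNReal.ofReal (16 / (1 - τ)) := by
  have hq0 : 0 < q := by linarith
  have hs0 : 0 < s := by rw [hs]; exact div_pos (by linarith) hq0
  have hs1 : s < 1 := by rw [hs, div_lt_one hq0]; linarith
  have hτ0 : 0 < τ := by rw [hτ]; positivity
  have hτ1 : τ < 1 := by rw [hτ]; exact Real.rpow_lt_one (by norm_num) (by norm_num) (by linarith)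
  refine (pt_dy hG z (m + 1) (κ := 1 + s / 2) (by linarith)).trans ?_
  rw [← kp_geom (D := 16) (by norm_num) hτ0.le hτ1]
  refine ENNReal.tsum_le_tsum fun j => ?_
  have h3 := pt_be hq1 hG hreg (j := m + 1 + j) (by omega) (by omega)
  rw [← hs] at h3
  set x : ℝ := (1 / 2 : ℝ) ^ (m + 1 + j) with hx
  have hx0 : 0 < x := by positivity
  calc _ ≤ ENNReal.ofReal (((1 / 2 : ℝ) ^ (m + 1 + j + 1)) ^ (-(1 + s / 2))) *
        ENNReal.ofReal (4 * x ^ (1 + s)) := by gcongr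
    _ = ENNReal.ofReal (((1 / 2 : ℝ) ^ (m + 1 + j + 1)) ^ (-(1 + s / 2)) * (4 * x ^ (1 + s))) := by
        rw [← ENNReal.ofReal_mul (by positivity)]
    _ ≤ _ := by
        apply ENNReal.ofReal_le_ofReal
        rw [pow_succ, ← hx, Real.mul_rpow hx0.le (by norm_num)]
        have h5 : (1 / 2 : ℝ) ^ (-(1 + s / 2)) ≤ 4 := by
          rw [one_div, Real.inv_rpow (by norm_num), ← Real.rpow_neg (by norm_num), neg_neg]
          calc (2 : ℝ) ^ (1 + s / 2) ≤ (2 : ℝ) ^ (2 : ℝ) :=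
                Real.rpow_le_rpow_of_exponent_le (by norm_num) (by linarith)
            _ = 4 := by norm_num
        have h6 : x ^ (-(1 + s / 2)) * x ^ (1 + s) = τ ^ (m + 1 + j) := by
          rw [← Real.rpow_add hx0, hτ, hx, ← Real.rpow_natCast, ← Real.rpow_natCast,
            ← Real.rpow_mul (by norm_num), ← Real.rpow_mul (by norm_num)]
          congr 1
          ring
        have h7 : τ ^ (m + 1 + j) ≤ τ ^ j :=
          pow_le_pow_of_le_one hτ0.le hτ1.le (by omega)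
        calc x ^ (-(1 + s / 2)) * (1 / 2 : ℝ) ^ (-(1 + s / 2)) * (4 * x ^ (1 + s))
            = 4 * (1 / 2 : ℝ) ^ (-(1 + s / 2)) * (x ^ (-(1 + s / 2)) * x ^ (1 + s)) := by ring
          _ = 4 * (1 / 2 : ℝ) ^ (-(1 + s / 2)) * τ ^ (m + 1 + j) := by rw [h6]
          _ ≤ 4 * 4 * τ ^ j := by gcongr
          _ = _ := by ring

/-- pointwise kernel bound -/
theorem pt_ker {s : ℝ} (hs0 : 0 < s) (hs1 : s < 1) (z w : ℂ) {δ : ℝ} (hδ : 0 < δ)
    (hzw : ‖z - w‖ ≤ 2 * δ) (n : ℕ) (hδn : δ ≤ (1 / 2) ^ (4 * n)) (hn : 1 ≤ n)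
    (G : ℂ → ℝ≥0∞) (ζ : ℂ) :
    G ζ * ‖(ζ - z)⁻¹ - (ζ - w)⁻¹‖ₑ ≤ G ζ * ENNReal.ofReal (4 * δ ^ (1 / 2 : ℝ)) +
      (ENNReal.ofReal ((4 * δ) ^ (s / 2)) * ((ball z ((1 / 2 : ℝ) ^ n)).indicator G ζ *
        ENNReal.ofReal (‖ζ - z‖ ^ (-(1 + s / 2)))) +
      (ball z (4 * δ)).indicator G ζ * ‖ζ - w‖ₑ⁻¹) := by
  have hδ4 : 4 * δ ≤ (1 / 2 : ℝ) ^ n := by
    have h1 : (1 / 2 : ℝ) ^ (4 * n) ≤ (1 / 2 : ℝ) ^ (n + 2) :=
      pow_le_pow_of_le_one (by norm_num) (by norm_num) (by omega)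
    have h2 : (1 / 2 : ℝ) ^ (n + 2) = (1 / 2 : ℝ) ^ n / 4 := by rw [pow_add]; norm_num; ring
    linarith
  by_cases hfar : 4 * δ ≤ ‖ζ - z‖
  · have hρ : 0 < ‖ζ - z‖ := by linarith
    have hw : ‖ζ - z‖ / 2 ≤ ‖ζ - w‖ := by
      have h1 : ‖ζ - z‖ ≤ ‖ζ - w‖ + ‖z - w‖ := by
        calc ‖ζ - z‖ = ‖(ζ - w) - (z - w)‖ := by congr 1; ring
          _ ≤ _ := norm_sub_le _ _
      linarith
    have hw0 : 0 < ‖ζ - w‖ := by linarith
    have hK : ‖(ζ - z)⁻¹ - (ζ - w)⁻¹‖ ≤ 4 * δ / ‖ζ - z‖ ^ 2 := by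
      have hz1 : ζ - z ≠ 0 := norm_pos_iff.1 hρ
      have hw1 : ζ - w ≠ 0 := norm_pos_iff.1 hw0
      have e : (ζ - z)⁻¹ - (ζ - w)⁻¹ = (z - w) / ((ζ - z) * (ζ - w)) := by
        field_simp
        ring
      rw [e, norm_div, norm_mul]
      calc ‖z - w‖ / (‖ζ - z‖ * ‖ζ - w‖) ≤ 2 * δ / (‖ζ - z‖ * (‖ζ - z‖ / 2)) := by gcongr
        _ = _ := by field_simp; ring
    by_cases hout : (1 / 2 : ℝ) ^ n ≤ ‖ζ - z‖
    · refine le_trans ?_ le_self_add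
      gcongr
      rw [← ofReal_norm]
      apply ENNReal.ofReal_le_ofReal
      refine hK.trans ?_
      have h1 : 4 * δ / ‖ζ - z‖ ^ 2 ≤ 4 * δ / ((1 / 2 : ℝ) ^ n) ^ 2 := by gcongr
      refine h1.trans ?_
      have h2 : δ ^ (1 / 2 : ℝ) ≤ ((1 / 2 : ℝ) ^ n) ^ 2 := by
        calc δ ^ (1 / 2 : ℝ) ≤ ((1 / 2 : ℝ) ^ (4 * n)) ^ (1 / 2 : ℝ) := by gcongr
          _ = ((1 / 2 : ℝ) ^ n) ^ 2 := by
            rw [← pow_mul, ← Real.rpow_natCast, ← Real.rpow_natCast, ← Real.rpow_mul (by norm_num)]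
            congr 1
            push_cast
            ring
      have h3 : δ = δ ^ (1 / 2 : ℝ) * δ ^ (1 / 2 : ℝ) := by
        rw [← Real.rpow_add hδ]; norm_num
      have h4 : (0 : ℝ) < ((1 / 2 : ℝ) ^ n) ^ 2 := by positivity
      rw [div_le_iff₀ h4]
      calc 4 * δ = 4 * δ ^ (1 / 2 : ℝ) * δ ^ (1 / 2 : ℝ) := by rw [mul_assoc, ← h3]
        _ ≤ _ := by gcongr
    · push Not at hout
      have hmem : ζ ∈ ball z ((1 / 2 : ℝ) ^ n) := by rw [mem_ball, dist_eq_norm]; exact hout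
      refine le_trans ?_ le_add_self
      refine le_trans ?_ le_self_add
      rw [indicator_of_mem hmem]
      have hK2 : ‖(ζ - z)⁻¹ - (ζ - w)⁻¹‖ ≤ (4 * δ) ^ (s / 2) * ‖ζ - z‖ ^ (-(1 + s / 2)) := by
        refine hK.trans ?_
        have h1 : 4 * δ / ‖ζ - z‖ ≤ (4 * δ / ‖ζ - z‖) ^ (s / 2) := by
          have h2 : 4 * δ / ‖ζ - z‖ ≤ 1 := by rw [div_le_one hρ]; exact hfar
          calc 4 * δ / ‖ζ - z‖ = (4 * δ / ‖ζ - z‖) ^ (1 : ℝ) := (Real.rpow_one _).symm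
            _ ≤ _ := Real.rpow_le_rpow_of_exponent_ge (by positivity) h2 (by linarith)
        calc 4 * δ / ‖ζ - z‖ ^ 2 = (4 * δ / ‖ζ - z‖) * ‖ζ - z‖⁻¹ := by field_simp
          _ ≤ (4 * δ / ‖ζ - z‖) ^ (s / 2) * ‖ζ - z‖⁻¹ := by gcongr
          _ = _ := by
            rw [Real.div_rpow (by positivity) hρ.le, neg_add, Real.rpow_add hρ, Real.rpow_neg hρ.le,
              Real.rpow_neg hρ.le, Real.rpow_one]
            field_simp
      calc G ζ * ‖(ζ - z)⁻¹ - (ζ - w)⁻¹‖ₑ ≤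
            G ζ * ENNReal.ofReal ((4 * δ) ^ (s / 2) * ‖ζ - z‖ ^ (-(1 + s / 2))) := by
              gcongr
              rw [← ofReal_norm]
              exact ENNReal.ofReal_le_ofReal hK2
        _ = _ := by
          rw [ENNReal.ofReal_mul (by positivity)]
          ring
  · push Not at hfar
    have hmem : ζ ∈ ball z ((1 / 2 : ℝ) ^ n) := by rw [mem_ball, dist_eq_norm]; linarith
    have hmem4 : ζ ∈ ball z (4 * δ) := by rw [mem_ball, dist_eq_norm]; exact hfar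
    refine le_trans ?_ le_add_self
    rw [indicator_of_mem hmem, indicator_of_mem hmem4]
    have hinv : ∀ u : ℂ, ‖u⁻¹‖ₑ ≤ ‖u‖ₑ⁻¹ := by
      intro u
      by_cases hu : u = 0
      · simp [hu]
      · rw [enorm_inv hu]
    have hK3 : ‖(ζ - z)⁻¹‖ₑ ≤ ENNReal.ofReal ((4 * δ) ^ (s / 2)) *
        ENNReal.ofReal (‖ζ - z‖ ^ (-(1 + s / 2))) := by
      by_cases hz : ζ = z
      · simp [hz]
      · have hρ : 0 < ‖ζ - z‖ := norm_pos_iff.2 (sub_ne_zero.2 hz)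
        rw [← ENNReal.ofReal_mul (by positivity), ← ofReal_norm]
        apply ENNReal.ofReal_le_ofReal
        rw [norm_inv, neg_add, Real.rpow_add hρ, Real.rpow_neg hρ.le, Real.rpow_one]
        have h1 : 1 ≤ (4 * δ / ‖ζ - z‖) ^ (s / 2) := by
          apply Real.one_le_rpow _ (by linarith)
          rw [one_le_div hρ]; exact hfar.le
        calc ‖ζ - z‖⁻¹ = 1 * ‖ζ - z‖⁻¹ := (one_mul _).symm
          _ ≤ (4 * δ / ‖ζ - z‖) ^ (s / 2) * ‖ζ - z‖⁻¹ := by gcongr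
          _ = _ := by
            rw [Real.div_rpow (by positivity) hρ.le, Real.rpow_neg hρ.le]
            field_simp
    calc G ζ * ‖(ζ - z)⁻¹ - (ζ - w)⁻¹‖ₑ ≤ G ζ * (‖(ζ - z)⁻¹‖ₑ + ‖(ζ - w)⁻¹‖ₑ) := by
          gcongr
          exact enorm_sub_le
      _ ≤ G ζ * (ENNReal.ofReal ((4 * δ) ^ (s / 2)) *
        ENNReal.ofReal (‖ζ - z‖ ^ (-(1 + s / 2))) + ‖ζ - w‖ₑ⁻¹) := by
          gcongr
          exact hinv _
      _ = _ := by ring

theorem ptE2 {q b R : ℝ} (hq1 : 1 < q) (hq2 : q < 2) (hb : 2 - q < b) (hb1 : b < 1) (hR : 0 < R) :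
    ∃ C c : ℝ, 0 < C ∧ 0 < c ∧ ∀ G : ℂ → ℝ≥0∞, Measurable G →
      (∀ ζ, ζ ∉ ball (0 : ℂ) R → G ζ = 0) →
      ∫⁻ ζ, G ζ ^ q ≤ 1 → ∀ (z z' : ℂ) (m : ℕ) (δ : ℝ), Reg (fun ζ => G ζ ^ q) b z m → 0 < δ →
      δ ≤ (1 / 2) ^ (4 * (m + 1)) → ‖z - z'‖ ≤ δ → ∀ W0 : Set ℂ,
      (∀ r ∈ Ioo 0 δ, ∃ w ∈ W0, ‖w - z'‖ = r) →
        ∃ w ∈ W0, ∫⁻ ζ, G ζ * ‖(ζ - z)⁻¹ - (ζ - w)⁻¹‖ₑ ≤ ENNReal.ofReal (C * δ ^ c) := by
  have hq0 : 0 < q := by linarith
  obtain ⟨s, hs⟩ : ∃ s : ℝ, s = (q - 2 + b) / q := ⟨_, rfl⟩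
  have hs0 : 0 < s := by rw [hs]; exact div_pos (by linarith) hq0
  have hs1 : s < 1 := by rw [hs, div_lt_one hq0]; linarith
  obtain ⟨τ, hτ⟩ : ∃ τ : ℝ, τ = (1 / 2 : ℝ) ^ (s / 2) := ⟨_, rfl⟩
  have hτ0 : 0 < τ := by rw [hτ]; positivity
  have hτ1 : τ < 1 := by rw [hτ]; exact Real.rpow_lt_one (by norm_num) (by norm_num) (by linarith)
  have h1τ : 0 < 1 - τ := by linarith
  obtain ⟨A, hA⟩ : ∃ A : ℝ, A = (Real.pi * R ^ 2) ^ (1 - 1 / q) := ⟨_, rfl⟩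
  have hA0 : 0 < A := by
    have := Real.pi_pos
    rw [hA]; positivity
  obtain ⟨C0, hC0, hgr⟩ := gr_scaled hq1 hq2
  refine ⟨4 * A + 4 ^ (s / 2) * (16 / (1 - τ)) + C0 * 8 ^ (b / q), s / 2, by positivity,
    by positivity, ?_⟩
  intro G hG hsupp h1 z z' m δ hreg hδ hδm hzz W0 hW0
  have hδ1 : δ ≤ 1 := hδm.trans (pow_le_one₀ (by norm_num) (by norm_num))
  have h4δ : 4 * δ ≤ (1 / 2 : ℝ) ^ (4 * m + 2) := by
    have h2 : (1 / 2 : ℝ) ^ (4 * (m + 1)) = (1 / 2 : ℝ) ^ (4 * m + 2) / 4 := by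
      rw [show 4 * (m + 1) = 4 * m + 2 + 2 by ring, pow_add _ (4 * m + 2) 2]; norm_num; ring
    linarith
  obtain ⟨j0, hj0a, hj0b⟩ := exists_nat_pow_near_of_lt_one (x := 4 * δ) (y := (1 / 2 : ℝ))
    (by positivity) (h4δ.trans (pow_le_one₀ (by norm_num) (by norm_num))) (by norm_num) (by norm_num)
  have hj0 : 4 * m + 2 < j0 + 1 := by
    by_contra hcon
    push Not at hcon
    have := pow_le_pow_of_le_one (by norm_num : (0 : ℝ) ≤ 1 / 2) (by norm_num) hcon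
    linarith
  have hG1m : Measurable ((ball z (4 * δ)).indicator G) := hG.indicator measurableSet_ball
  have hpow : ∫⁻ ζ, ((ball z (4 * δ)).indicator G ζ) ^ q ≤
      ENNReal.ofReal (((8 * δ) ^ (b / q)) ^ q) := by
    calc ∫⁻ ζ, ((ball z (4 * δ)).indicator G ζ) ^ q
        = ∫⁻ ζ, (ball z (4 * δ)).indicator (fun ζ => G ζ ^ q) ζ := by
          apply lintegral_congr
          intro ζ
          by_cases h : ζ ∈ ball z (4 * δ)
          · rw [indicator_of_mem h, indicator_of_mem h]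
          · rw [indicator_of_notMem h, indicator_of_notMem h, ENNReal.zero_rpow_of_pos hq0]
      _ = ∫⁻ ζ in ball z (4 * δ), G ζ ^ q := lintegral_indicator measurableSet_ball _
      _ ≤ ∫⁻ ζ in ball z ((1 / 2 : ℝ) ^ j0), G ζ ^ q :=
          lintegral_mono_set (ball_subset_ball hj0b)
      _ ≤ ENNReal.ofReal (((1 / 2 : ℝ) ^ j0) ^ b) := hreg j0 (by omega) (by omega)
      _ ≤ _ := by
          apply ENNReal.ofReal_le_ofReal
          rw [← Real.rpow_mul (by positivity), div_mul_cancel₀ _ hq0.ne']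
          have : (1 / 2 : ℝ) ^ j0 ≤ 8 * δ := by
            rw [pow_succ] at hj0a
            linarith
          exact Real.rpow_le_rpow (by positivity) this (by linarith)
  obtain ⟨r, hr, hrw⟩ := hgr z' δ ((8 * δ) ^ (b / q)) hδ (by positivity) _ hG1m (by
    intro ζ hζ
    apply indicator_of_notMem
    intro hmem
    apply hζ
    rw [mem_ball] at hmem ⊢
    have h3 : dist z z' ≤ δ := by rw [dist_eq_norm]; exact hzz
    calc dist ζ z' ≤ dist ζ z + dist z z' := dist_triangle _ _ _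
      _ < 16 * δ := by linarith) hpow
  obtain ⟨w, hwW, hw⟩ := hW0 r hr
  refine ⟨w, hwW, ?_⟩
  have hzw : ‖z - w‖ ≤ 2 * δ := by
    calc ‖z - w‖ = ‖(z - z') - (w - z')‖ := by congr 1; ring
      _ ≤ ‖z - z'‖ + ‖w - z'‖ := norm_sub_le _ _
      _ ≤ 2 * δ := by rw [hw]; linarith [hr.2]
  have hJ := pt_J hq1 hb hb1 hG hreg hs hτ
  have htot := pt_tot hq1 hR hG hsupp h1
  rw [← hA] at htot
  have hker := pt_ker hs0 hs1 z w hδ hzw (m + 1) hδm (by omega) G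
  have hPm : Measurable fun ζ : ℂ => (ball z ((1 / 2 : ℝ) ^ (m + 1))).indicator G ζ *
        ENNReal.ofReal (‖ζ - z‖ ^ (-(1 + s / 2))) := by
    refine (hG.indicator measurableSet_ball).mul (ENNReal.measurable_ofReal.comp ?_)
    fun_prop
  calc ∫⁻ ζ, G ζ * ‖(ζ - z)⁻¹ - (ζ - w)⁻¹‖ₑ
      ≤ ∫⁻ ζ, (G ζ * ENNReal.ofReal (4 * δ ^ (1 / 2 : ℝ)) +
      (ENNReal.ofReal ((4 * δ) ^ (s / 2)) * ((ball z ((1 / 2 : ℝ) ^ (m + 1))).indicator G ζ *
        ENNReal.ofReal (‖ζ - z‖ ^ (-(1 + s / 2)))) +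
      (ball z (4 * δ)).indicator G ζ * ‖ζ - w‖ₑ⁻¹)) := lintegral_mono hker
    _ = (∫⁻ ζ, G ζ) * ENNReal.ofReal (4 * δ ^ (1 / 2 : ℝ)) +
        (ENNReal.ofReal ((4 * δ) ^ (s / 2)) * (∫⁻ ζ, (ball z ((1 / 2 : ℝ) ^ (m + 1))).indicator G ζ *
          ENNReal.ofReal (‖ζ - z‖ ^ (-(1 + s / 2)))) +
          ∫⁻ ζ, (ball z (4 * δ)).indicator G ζ * ‖ζ - w‖ₑ⁻¹) := by
        rw [lintegral_add_left (hG.mul_const _), lintegral_mul_const _ hG,
          lintegral_add_left (hPm.const_mul _), lintegral_const_mul _ hPm]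
    _ ≤ ENNReal.ofReal A * ENNReal.ofReal (4 * δ ^ (1 / 2 : ℝ)) +
        (ENNReal.ofReal ((4 * δ) ^ (s / 2)) * ENNReal.ofReal (16 / (1 - τ)) +
          ENNReal.ofReal (C0 * (8 * δ) ^ (b / q) * δ ^ (1 - 2 / q))) := by
        have := hrw w hw
        gcongr
    _ = ENNReal.ofReal (A * (4 * δ ^ (1 / 2 : ℝ)) + ((4 * δ) ^ (s / 2) * (16 / (1 - τ)) +
          C0 * (8 * δ) ^ (b / q) * δ ^ (1 - 2 / q))) := by
        rw [← ENNReal.ofReal_mul hA0.le, ← ENNReal.ofReal_mul (by positivity),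
          ← ENNReal.ofReal_add (by positivity) (by positivity),
          ← ENNReal.ofReal_add (by positivity) (by positivity)]
    _ ≤ _ := by
        apply ENNReal.ofReal_le_ofReal
        have k1 : δ ^ (1 / 2 : ℝ) ≤ δ ^ (s / 2) :=
          Real.rpow_le_rpow_of_exponent_ge hδ hδ1 (by linarith)
        have k2 : δ ^ s ≤ δ ^ (s / 2) :=
          Real.rpow_le_rpow_of_exponent_ge hδ hδ1 (by linarith)
        have k3 : (8 * δ) ^ (b / q) * δ ^ (1 - 2 / q) = 8 ^ (b / q) * δ ^ s := by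
          rw [Real.mul_rpow (by norm_num) hδ.le, mul_assoc, ← Real.rpow_add hδ]
          congr 2
          rw [hs]
          field_simp
          ring
        have k4 : (4 * δ) ^ (s / 2) = 4 ^ (s / 2) * δ ^ (s / 2) :=
          Real.mul_rpow (by norm_num) hδ.le
        rw [mul_assoc C0, k3, k4]
        calc A * (4 * δ ^ (1 / 2 : ℝ)) + (4 ^ (s / 2) * δ ^ (s / 2) * (16 / (1 - τ)) +
              C0 * (8 ^ (b / q) * δ ^ s))
            ≤ A * (4 * δ ^ (s / 2)) + (4 ^ (s / 2) * δ ^ (s / 2) * (16 / (1 - τ)) +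
              C0 * (8 ^ (b / q) * δ ^ (s / 2))) := by gcongr
          _ = _ := by ring


end Pool.Agent.Helper265.Br
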