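import Mathlib
import Pool.Agent.Helper265.BrJ

set_option autoImplicit false
open Complex Set Filter Metric Topology MeasureTheory
open scoped ENNReal

namespace Pool.Agent.Helper265.Br

theorem jensen_low {F : ℂ → ℂ} (hF : DifferentiableOn ℂ F (ball 0 1))
    (hne : ∃ ξ ∈ ball (0 : ℂ) 1, F ξ ≠ 0) :
    ∃ A : ℝ, ∀ r ∈ Ioo (1 / 2 : ℝ) 1,
      A ≤ ∫ θ in (-Real.pi)..Real.pi, Real.log ‖F ((r : ℂ) * exp (θ * I))‖ := by
  have hFa : AnalyticOnNhd ℂ F (ball 0 1) := hF.analyticOnNhd isOpen_ball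
  have h0mem : (0 : ℂ) ∈ ball (0 : ℂ) 1 := by simp
  have hnev : ¬ ∀ᶠ z in 𝓝 (0 : ℂ), F z = 0 := by
    intro h
    obtain ⟨ξ, hξ, hne⟩ := hne
    exact hne (hFa.eqOn_zero_of_preconnected_of_eventuallyEq_zero
      (convex_ball (0 : ℂ) 1).isPreconnected h0mem h hξ)
  obtain ⟨n, g, hg, hg0, hgF⟩ := (hFa 0 h0mem).exists_eventuallyEq_pow_smul_nonzero_iff.2 hnev
  simp only [sub_zero, smul_eq_mul] at hgF
  set F1 : ℂ → ℂ := fun z => if z = 0 then g 0 else F z / z ^ n with hF1
  have hF10 : F1 0 = g 0 := by simp [hF1]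
  have hF1a : AnalyticOnNhd ℂ F1 (ball 0 1) := by
    intro z hz
    by_cases hz0 : z = 0
    · subst hz0
      refine hg.congr ?_
      filter_upwards [hgF] with w hw
      by_cases hw0 : w = 0
      · simp [hF1, hw0]
      · simp only [hF1, if_neg hw0]
        rw [hw]
        field_simp
    · have h1 : AnalyticAt ℂ (fun w : ℂ => F w / w ^ n) z :=
        (hFa z hz).fun_div (analyticAt_id.pow n) (pow_ne_zero _ hz0)
      refine h1.congr ?_
      filter_upwards [isOpen_ne.mem_nhds hz0] with w hw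
      simp [hF1, if_neg hw]
  refine ⟨2 * Real.pi * Real.log ‖F1 0‖ - 2 * Real.pi * (n * Real.log 2), ?_⟩
  intro r hr
  have hr0 : 0 < r := by linarith [hr.1]
  have hsub : closedBall (0 : ℂ) r ⊆ ball 0 1 := closedBall_subset_ball hr.2
  have hsph : sphere (0 : ℂ) |r| ⊆ ball 0 1 := by
    rw [abs_of_pos hr0]; exact sphere_subset_closedBall.trans hsub
  have hj := jensen_le hr0 (hF1a.mono hsub) (by rw [hF10]; exact hg0)
  have hcm : ∀ θ : ℝ, circleMap 0 r θ = (r : ℂ) * exp (θ * I) := by
    intro θ; simp [circleMap]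
  have hi1 : IntervalIntegrable (fun θ : ℝ => Real.log ‖F1 ((r : ℂ) * exp (θ * I))‖) volume 0
      (2 * Real.pi) := by
    have := MeromorphicOn.circleIntegrable_log_norm (f := F1) (c := 0) (R := r)
      (fun z hz => (hF1a z (hsph hz)).meromorphicAt)
    unfold CircleIntegrable at this
    simpa only [hcm] using this
  have hi2 : IntervalIntegrable (fun θ : ℝ => Real.log ‖F ((r : ℂ) * exp (θ * I))‖) volume 0
      (2 * Real.pi) := by
    have := MeromorphicOn.circleIntegrable_log_norm (f := F) (c := 0) (R := r)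
      (fun z hz => (hFa z (hsph hz)).meromorphicAt)
    unfold CircleIntegrable at this
    simpa only [hcm] using this
  have hpt : ∀ θ : ℝ, Real.log ‖F1 ((r : ℂ) * exp (θ * I))‖ ≤
      Real.log ‖F ((r : ℂ) * exp (θ * I))‖ + n * Real.log 2 := by
    intro θ
    set z := (r : ℂ) * exp (θ * I) with hz
    have hzn : ‖z‖ = r := by
      rw [hz, norm_mul, Complex.norm_real, Complex.norm_exp_ofReal_mul_I, mul_one,
        Real.norm_eq_abs, abs_of_pos hr0]
    have hz0 : z ≠ 0 := by
      rw [← norm_pos_iff, hzn]; exact hr0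
    have hlog2 : 0 ≤ Real.log 2 := Real.log_nonneg (by norm_num)
    simp only [hF1, if_neg hz0, norm_div, norm_pow, hzn]
    by_cases hFz : F z = 0
    · rw [hFz]; simp; positivity
    · rw [Real.log_div (norm_ne_zero_iff.2 hFz) (pow_ne_zero _ hr0.ne'), Real.log_pow]
      have h2 : - Real.log r ≤ Real.log 2 := by
        rw [← Real.log_inv]
        apply Real.log_le_log (by positivity)
        rw [inv_le_comm₀ hr0 (by norm_num)]
        linarith [hr.1]
      have hn : (0 : ℝ) ≤ n := Nat.cast_nonneg _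
      nlinarith
  have hper : Function.Periodic (fun θ : ℝ => Real.log ‖F ((r : ℂ) * exp (θ * I))‖)
      (2 * Real.pi) := by
    intro θ
    have : exp (((θ + 2 * Real.pi : ℝ) : ℂ) * I) = exp (θ * I) := by
      push_cast
      rw [add_mul, exp_add, exp_two_pi_mul_I, mul_one]
    simp only [this]
  have hshift := hper.intervalIntegral_add_eq (-Real.pi) 0
  have e1 : -Real.pi + 2 * Real.pi = Real.pi := by ring
  rw [e1, zero_add] at hshift
  rw [hshift]
  have hle : ∫ θ in (0)..(2 * Real.pi), Real.log ‖F1 ((r : ℂ) * exp (θ * I))‖ ≤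
      ∫ θ in (0)..(2 * Real.pi), (Real.log ‖F ((r : ℂ) * exp (θ * I))‖ + n * Real.log 2) := by
    apply intervalIntegral.integral_mono_on (by positivity) hi1
      (hi2.add intervalIntegrable_const)
    intro θ _
    exact hpt θ
  rw [intervalIntegral.integral_add hi2 intervalIntegrable_const,
    intervalIntegral.integral_const] at hle
  simp only [smul_eq_mul, sub_zero] at hle
  have hpi := Real.pi_pos
  have h3 : 2 * Real.pi * Real.log ‖F1 0‖ ≤
      ∫ θ in (0)..(2 * Real.pi), Real.log ‖F1 ((r : ℂ) * exp (θ * I))‖ := by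
    have := mul_le_mul_of_nonneg_left hj (by positivity : (0:ℝ) ≤ 2 * Real.pi)
    rwa [← mul_assoc, mul_inv_cancel₀ (by positivity), one_mul] at this
  linarith


end Pool.Agent.Helper265.Br
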