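import Mathlib
import Pool.Agent.Helper265.HgJ

set_option autoImplicit false
open Complex Set Filter Metric Topology MeasureTheory
open scoped ENNReal

namespace Pool.Agent.Helper265.Br
open Pool.Agent.Helper265.Hg in

theorem rad_lim {ψ : ℂ → ℂ} {R : ℝ} (hd : DifferentiableOn ℂ ψ (ball 0 1))
    (hi : InjOn ψ (ball 0 1)) (hR : ∀ ξ ∈ ball (0 : ℂ) 1, ‖ψ ξ‖ < R) :
    ∀ᵐ θ : ℝ ∂(volume.restrict (Ioo (-Real.pi) Real.pi)), ∃ z : ℂ,
      Tendsto (fun r : ℝ => ψ ((r : ℂ) * exp (θ * I))) (𝓝[<] (1 : ℝ)) (𝓝 z) := by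
  set F : ℂ → ℝ≥0∞ := (ball (0 : ℂ) 1).indicator (fun w => ENNReal.ofReal (‖deriv ψ w‖ ^ 2)) with hF
  have hFm : Measurable F :=
    ((measurable_deriv ψ).norm.pow_const 2).ennreal_ofReal.indicator measurableSet_ball
  have harea : ∫⁻ w, F w < ⊤ := by
    rw [hF, lintegral_indicator measurableSet_ball]
    have hc := cov (O := ψ '' ball 0 1) (B := ball 0 1) (ψ := ψ) (d := deriv ψ) measurableSet_ball
      (fun w hw => (hd.differentiableAt (isOpen_ball.mem_nhds hw)).hasDerivAt) hi rfl (fun _ => 1)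
    simp only [mul_one, lintegral_const, one_mul, Measure.restrict_apply_univ] at hc
    rw [← hc]
    refine lt_of_le_of_lt (measure_mono (t := ball 0 R) ?_) measure_ball_lt_top
    rintro _ ⟨ξ, hξ, rfl⟩
    simpa using hR ξ hξ
  rw [← Complex.lintegral_comp_polarCoord_symm F] at harea
  have htgt : polarCoord.target = Ioi (0 : ℝ) ×ˢ Ioo (-Real.pi) Real.pi := rfl
  have hm : Measurable (fun p : ℝ × ℝ => ENNReal.ofReal p.1 • F (Complex.polarCoord.symm p)) := by
    have h1 : Measurable (fun p : ℝ × ℝ => Complex.polarCoord.symm p) := by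
      have : (fun p : ℝ × ℝ => Complex.polarCoord.symm p) =
          fun p : ℝ × ℝ => (p.1 : ℂ) * (Real.cos p.2 + Real.sin p.2 * Complex.I) := by
        funext p
        exact Complex.polarCoord_symm_apply p
      rw [this]
      fun_prop
    exact (measurable_fst.ennreal_ofReal).mul (hFm.comp h1)
  rw [htgt, Measure.volume_eq_prod, ← Measure.prod_restrict, lintegral_prod_symm _ hm.aemeasurable]
    at harea
  have hae := ae_lt_top (Measurable.lintegral_prod_left' (μ := volume.restrict (Ioi (0 : ℝ))) hm)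
    harea.ne
  filter_upwards [hae] with θ hθ
  have hpol : ∀ r : ℝ, Complex.polarCoord.symm (r, θ) = (r : ℂ) * exp (θ * I) := by
    intro r
    rw [Complex.polarCoord_symm_apply, Complex.exp_mul_I]
    push_cast
    rfl
  set g : ℝ → ℂ := fun r => ψ ((r : ℂ) * exp (θ * I)) with hg
  set g' : ℝ → ℂ := fun r => deriv ψ ((r : ℂ) * exp (θ * I)) * exp (θ * I) with hg'
  have hexp : ‖exp (θ * I)‖ = 1 := Complex.norm_exp_ofReal_mul_I θ
  have hmem : ∀ r : ℝ, 0 < r → r < 1 → (r : ℂ) * exp (θ * I) ∈ ball (0 : ℂ) 1 := by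
    intro r h0 h1
    rw [mem_ball_zero_iff, norm_mul, hexp, mul_one, Complex.norm_real, Real.norm_eq_abs,
      abs_of_pos h0]
    exact h1
  have hder : ∀ r : ℝ, 0 < r → r < 1 → HasDerivAt g (g' r) r := by
    intro r h0 h1
    have e1 : HasDerivAt ψ (deriv ψ ((r : ℂ) * exp (θ * I))) ((r : ℂ) * exp (θ * I)) :=
      (hd.differentiableAt (isOpen_ball.mem_nhds (hmem r h0 h1))).hasDerivAt
    have e2 : HasDerivAt (fun s : ℝ => (s : ℂ) * exp (θ * I)) (exp (θ * I)) r := by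
      simpa using (Complex.ofRealCLM.hasDerivAt (x := r)).mul_const (exp (θ * I))
    exact e1.comp r e2
  have hg'm : Measurable g' := by
    have h1 : Measurable (fun r : ℝ => (r : ℂ) * exp (θ * I)) := by fun_prop
    exact ((measurable_deriv ψ).comp h1).mul_const _
  have hnorm : ∀ r, ‖g' r‖ = ‖deriv ψ ((r : ℂ) * exp (θ * I))‖ := by
    intro r
    rw [hg', norm_mul, hexp, mul_one]
  have hfin : ∫⁻ r in Ioo (1 / 2 : ℝ) 1, ENNReal.ofReal (‖g' r‖ ^ 2) < ⊤ := by
    have h1 : ∫⁻ r in Ioo (1 / 2 : ℝ) 1, ENNReal.ofReal (‖g' r‖ ^ 2) ≤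
        ∫⁻ r in Ioo (1 / 2 : ℝ) 1, 2 * (ENNReal.ofReal r • F (Complex.polarCoord.symm (r, θ))) := by
      refine setLIntegral_mono' measurableSet_Ioo fun r hr => ?_
      have hr0 : 0 < r := by have := hr.1; linarith
      rw [hpol, hF, indicator_of_mem (hmem r hr0 hr.2), hnorm, smul_eq_mul, ← mul_assoc]
      have h2 : (1 : ℝ≥0∞) ≤ 2 * ENNReal.ofReal r := by
        have h3 : (2 : ℝ≥0∞) = ENNReal.ofReal 2 := by simp
        rw [h3, ← ENNReal.ofReal_mul (by norm_num), ← ENNReal.ofReal_one]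
        exact ENNReal.ofReal_le_ofReal (by have := hr.1; linarith)
      calc ENNReal.ofReal (‖deriv ψ ((r : ℂ) * exp (θ * I))‖ ^ 2)
          = 1 * ENNReal.ofReal (‖deriv ψ ((r : ℂ) * exp (θ * I))‖ ^ 2) := (one_mul _).symm
        _ ≤ _ := by gcongr
    refine lt_of_le_of_lt h1 ?_
    rw [lintegral_const_mul' _ _ (by norm_num)]
    refine ENNReal.mul_lt_top (by norm_num) (lt_of_le_of_lt ?_ hθ)
    refine lintegral_mono_set fun r hr => ?_
    have : 0 < r := by have := hr.1; linarith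
    exact this
  have hint : IntegrableOn g' (Ioo (1 / 2 : ℝ) 1) volume := by
    refine ⟨hg'm.aestronglyMeasurable, ?_⟩
    rw [hasFiniteIntegral_iff_enorm]
    have h1 : ∫⁻ r in Ioo (1 / 2 : ℝ) 1, ‖g' r‖ₑ ≤
        ∫⁻ r in Ioo (1 / 2 : ℝ) 1, (1 + ENNReal.ofReal (‖g' r‖ ^ 2)) := by
      refine lintegral_mono fun r => ?_
      have h4 : (1 : ℝ≥0∞) + ENNReal.ofReal (‖g' r‖ ^ 2) = ENNReal.ofReal (1 + ‖g' r‖ ^ 2) := by
        rw [ENNReal.ofReal_add (by norm_num) (by positivity), ENNReal.ofReal_one]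
      rw [← ofReal_norm, h4]
      refine ENNReal.ofReal_le_ofReal ?_
      nlinarith [sq_nonneg (‖g' r‖ - 1 / 2)]
    refine lt_of_le_of_lt h1 ?_
    rw [lintegral_add_left measurable_const]
    refine ENNReal.add_lt_top.2 ⟨?_, hfin⟩
    simp
  have hii : IntervalIntegrable g' volume (1 / 2) 1 :=
    (intervalIntegrable_iff_integrableOn_Ioo_of_le (by norm_num)).2 hint
  have hcont := intervalIntegral.continuousOn_primitive_interval' hii
    (left_mem_uIcc (a := (1 / 2 : ℝ)) (b := 1))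
  have h1 : Tendsto (fun b => ∫ x in (1 / 2 : ℝ)..b, g' x) (𝓝[<] (1 : ℝ))
      (𝓝 (∫ x in (1 / 2 : ℝ)..1, g' x)) := by
    have := hcont 1 right_mem_uIcc
    have h2 : 𝓝[<] (1 : ℝ) = 𝓝[Ioo (1 / 2 : ℝ) 1] 1 :=
      (nhdsWithin_Ioo_eq_nhdsLT (by norm_num)).symm
    rw [h2]
    refine this.mono_left (nhdsWithin_mono _ ?_)
    rw [uIcc_of_le (by norm_num)]
    exact Ioo_subset_Icc_self
  refine ⟨g (1 / 2) + ∫ x in (1 / 2 : ℝ)..1, g' x, ?_⟩
  refine (tendsto_const_nhds.add h1).congr' ?_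
  have h2 : Ioo (1 / 2 : ℝ) 1 ∈ 𝓝[<] (1 : ℝ) := Ioo_mem_nhdsLT (by norm_num)
  filter_upwards [h2] with r hr
  have h3 : ∫ x in (1 / 2 : ℝ)..r, g' x = g r - g (1 / 2) := by
    refine intervalIntegral.integral_eq_sub_of_hasDerivAt ?_ ?_
    · intro x hx
      rw [uIcc_of_le hr.1.le] at hx
      exact hder x (by have := hx.1; linarith) (lt_of_le_of_lt hx.2 hr.2)
    · refine hii.mono_set ?_
      rw [uIcc_of_le hr.1.le, uIcc_of_le (by norm_num)]
      exact Icc_subset_Icc le_rfl hr.2.le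
  rw [h3]
  ring


end Pool.Agent.Helper265.Br
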