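import Mathlib

set_option autoImplicit false
open Complex Set Filter Metric Topology MeasureTheory
open scoped ENNReal

namespace Pool.Agent.Helper265.Br

theorem fatou_div {ψ : ℂ → ℂ} {R : ℝ} {Dc : Set ℂ} (hc : ContinuousOn ψ (ball 0 1))
    (hR : ∀ ξ ∈ ball (0 : ℂ) 1, ‖ψ ξ‖ < R) (hDc : IsClosed Dc) (hne : Dc.Nonempty)
    (hψD : ∀ ξ ∈ ball (0 : ℂ) 1, ψ ξ ∉ Dc) {β : ℝ → ℂ}
    (hβ : ∀ᵐ θ : ℝ ∂(volume.restrict (Ioo (-Real.pi) Real.pi)),
      Tendsto (fun r : ℝ => ψ ((r : ℂ) * exp (θ * I))) (𝓝[<] (1 : ℝ)) (𝓝 (β θ)))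
    (hdiv : ∫⁻ θ in Ioo (-Real.pi) Real.pi,
      (-(ENNReal.log (infEDist (β θ) Dc))).toENNReal = ∞) (B : ℝ) :
    ∃ r ∈ Ioo (1 / 2 : ℝ) 1,
      B < ∫ θ in (-Real.pi)..Real.pi, Real.log (1 / infDist (ψ ((r : ℂ) * exp (θ * I))) Dc) := by
  obtain ⟨x0, hx0⟩ := hne
  have hne : Dc.Nonempty := ⟨x0, hx0⟩
  set L : ℝ := max 1 (R + ‖x0‖) with hL
  have hL1 : 1 ≤ L := le_max_left _ _
  have hlogL : 0 ≤ Real.log L := Real.log_nonneg hL1
  set r : ℕ → ℝ := fun n => 1 - 1 / ((n : ℝ) + 3) with hrdef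
  have hr : ∀ n, r n ∈ Ioo (1/2 : ℝ) 1 := by
    intro n
    have h3 : (0:ℝ) < (n:ℝ) + 3 := by positivity
    have h4 : 1 / ((n : ℝ) + 3) < 1 / 2 := by
      apply one_div_lt_one_div_of_lt (by norm_num)
      have : (0:ℝ) ≤ n := Nat.cast_nonneg n
      linarith
    have h5 : 0 < 1 / ((n : ℝ) + 3) := by positivity
    constructor
    · simp only [hrdef]; linarith
    · simp only [hrdef]; linarith
  have hrt : Tendsto r atTop (𝓝[<] 1) := by
    rw [tendsto_nhdsWithin_iff]
    refine ⟨?_, Eventually.of_forall fun n => (hr n).2⟩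
    have h1 : Tendsto (fun n : ℕ => 1 / ((n : ℝ) + 3)) atTop (𝓝 0) := by
      have := (tendsto_one_div_add_atTop_nhds_zero_nat (𝕜 := ℝ)).comp (tendsto_add_atTop_nat 2)
      refine this.congr fun n => ?_
      simp only [Function.comp]
      push_cast
      ring_nf
    have := (tendsto_const_nhds (x := (1:ℝ))).sub h1
    rw [sub_zero] at this
    exact this
  have hin : ∀ n (θ : ℝ), ((r n : ℂ) * exp (θ * I)) ∈ ball (0:ℂ) 1 := by
    intro n θ
    rw [mem_ball_zero_iff, norm_mul, Complex.norm_exp_ofReal_mul_I, mul_one, Complex.norm_real,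
      Real.norm_eq_abs, abs_of_pos (by linarith [(hr n).1])]
    exact (hr n).2
  set h : ℕ → ℝ → ℝ := fun n θ => infDist (ψ ((r n : ℂ) * exp (θ * I))) Dc with hh
  have hpos : ∀ n θ, 0 < h n θ := fun n θ => (hDc.notMem_iff_infDist_pos hne).1 (hψD _ (hin n θ))
  have hle : ∀ n θ, h n θ ≤ L := by
    intro n θ
    refine le_trans (infDist_le_dist_of_mem hx0) ?_
    rw [dist_eq_norm]
    refine le_trans (norm_sub_le _ _) ?_
    exact le_trans (by linarith [hR _ (hin n θ)]) (le_max_right _ _)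
  have hcont : ∀ n, Continuous (h n) := by
    intro n
    refine continuous_infDist_pt _ |>.comp ?_
    refine hc.comp_continuous (by fun_prop) (hin n)
  set g : ℕ → ℝ → ℝ := fun n θ => Real.log (1 / h n θ) + Real.log L with hg
  have hg0 : ∀ n θ, 0 ≤ g n θ := by
    intro n θ
    simp only [hg, one_div, Real.log_inv]
    linarith [Real.log_le_log (hpos n θ) (hle n θ)]
  have hgc : ∀ n, Continuous (g n) := by
    intro n
    simp only [hg, one_div, Real.log_inv]
    exact (((hcont n).log fun θ => (hpos n θ).ne').neg).add continuous_const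
  have hF : ∫⁻ θ in Ioo (-Real.pi) Real.pi, liminf (fun n => ENNReal.ofReal (g n θ)) atTop ≤
      liminf (fun n => ∫⁻ θ in Ioo (-Real.pi) Real.pi, ENNReal.ofReal (g n θ)) atTop :=
    lintegral_liminf_le (fun n => (hgc n).measurable.ennreal_ofReal)
  have hae : ∀ᵐ θ ∂(volume.restrict (Ioo (-Real.pi) Real.pi)),
      (-(ENNReal.log (infEDist (β θ) Dc))).toENNReal ≤
        liminf (fun n => ENNReal.ofReal (g n θ)) atTop := by
    filter_upwards [hβ] with θ hθ
    have h1 : Tendsto (fun n => h n θ) atTop (𝓝 (infDist (β θ) Dc)) :=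
      ((continuous_infDist_pt Dc).tendsto (β θ)).comp (hθ.comp hrt)
    rcases (infDist_nonneg (x := β θ) (s := Dc)).eq_or_lt' with h0 | h0
    · rw [h0] at h1
      have h2 : Tendsto (fun n => h n θ) atTop (𝓝[>] 0) :=
        tendsto_nhdsWithin_iff.2 ⟨h1, Eventually.of_forall fun n => hpos n θ⟩
      have h3 : Tendsto (fun n => g n θ) atTop atTop := by
        simp only [hg, one_div]
        refine Filter.tendsto_atTop_add_const_right _ _ ?_
        exact Real.tendsto_log_atTop.comp (tendsto_inv_nhdsGT_zero.comp h2)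
      have h4 : Tendsto (fun n => ENNReal.ofReal (g n θ)) atTop (𝓝 ⊤) :=
        ENNReal.tendsto_ofReal_atTop.comp h3
      rw [h4.liminf_eq]
      exact le_top
    · have h3 : Tendsto (fun n => g n θ) atTop (𝓝 (Real.log (1 / infDist (β θ) Dc) + Real.log L)) := by
        simp only [hg, one_div, Real.log_inv]
        exact ((h1.log h0.ne').neg).add tendsto_const_nhds
      have h4 : Tendsto (fun n => ENNReal.ofReal (g n θ)) atTop (𝓝 (ENNReal.ofReal _)) :=
        (ENNReal.continuous_ofReal.tendsto _).comp h3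
      rw [h4.liminf_eq]
      have h5 : infEDist (β θ) Dc = ENNReal.ofReal (infDist (β θ) Dc) := by
        rw [infDist, ENNReal.ofReal_toReal (infEDist_ne_top hne)]
      rw [h5, ENNReal.log_ofReal_of_pos h0, ← EReal.coe_neg, EReal.real_coe_toENNReal]
      apply ENNReal.ofReal_le_ofReal
      rw [one_div, Real.log_inv]
      linarith
  have hinf : liminf (fun n => ∫⁻ θ in Ioo (-Real.pi) Real.pi, ENNReal.ofReal (g n θ)) atTop = ∞ := by
    rw [eq_top_iff]
    refine le_trans ?_ hF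
    rw [← hdiv]
    exact lintegral_mono_ae hae
  have hev : ∀ᶠ n in atTop, ENNReal.ofReal (|B| + 2 * Real.pi * Real.log L + 1) <
      ∫⁻ θ in Ioo (-Real.pi) Real.pi, ENNReal.ofReal (g n θ) :=
    eventually_lt_of_lt_liminf (by rw [hinf]; exact ENNReal.ofReal_lt_top)
  obtain ⟨n, hn⟩ := hev.exists
  refine ⟨r n, hr n, ?_⟩
  have hpi : -Real.pi ≤ Real.pi := by linarith [Real.pi_pos]
  have hgi : IntervalIntegrable (g n) volume (-Real.pi) Real.pi := (hgc n).intervalIntegrable _ _
  have hlc : Continuous (fun θ => Real.log (1 / h n θ)) := by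
    simp only [one_div, Real.log_inv]
    exact ((hcont n).log fun θ => (hpos n θ).ne').neg
  have h6 : ∫ θ in (-Real.pi)..Real.pi, g n θ =
      (∫ θ in (-Real.pi)..Real.pi, Real.log (1 / h n θ)) + 2 * Real.pi * Real.log L := by
    simp only [hg]
    rw [intervalIntegral.integral_add (hlc.intervalIntegrable _ _) (by simp),
      intervalIntegral.integral_const, smul_eq_mul]
    ring
  have h7 : ∫⁻ θ in Ioo (-Real.pi) Real.pi, ENNReal.ofReal (g n θ) =
      ENNReal.ofReal (∫ θ in (-Real.pi)..Real.pi, g n θ) := by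
    rw [intervalIntegral.integral_of_le hpi, ofReal_integral_eq_lintegral_ofReal]
    · rw [Measure.restrict_congr_set Ioo_ae_eq_Ioc]
    · exact (intervalIntegrable_iff_integrableOn_Ioc_of_le hpi).1 hgi
    · exact Eventually.of_forall (hg0 n)
  rw [h7] at hn
  have h8 := (ENNReal.ofReal_lt_ofReal_iff_of_nonneg (by positivity)).1 hn
  have : B ≤ |B| := le_abs_self B
  change B < ∫ θ in (-Real.pi)..Real.pi, Real.log (1 / h n θ)
  linarith


end Pool.Agent.Helper265.Br
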