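import Mathlib

set_option autoImplicit false
open Complex Set Filter Metric Topology MeasureTheory
open scoped ENNReal

namespace Pool.Agent.Helper265.Br

theorem J55_mem {r : ℝ} (hr : r ∈ Ioo (1 / 2 : ℝ) 1) (θ : ℝ) :
    (r : ℂ) * exp (θ * I) ∈ ball (0 : ℂ) 1 := by
  rw [mem_ball_zero_iff, norm_mul, Complex.norm_exp_ofReal_mul_I, mul_one, Complex.norm_real,
    Real.norm_of_nonneg (by linarith [hr.1])]
  exact hr.2

/-- zeros on a circle are null -/
theorem J55_null {F : ℂ → ℂ} (hF : DifferentiableOn ℂ F (ball 0 1))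
    (hne : ∃ ξ ∈ ball (0 : ℂ) 1, F ξ ≠ 0) {r : ℝ} (hr : r ∈ Ioo (1 / 2 : ℝ) 1) :
    ∀ᵐ θ : ℝ, F ((r : ℂ) * exp (θ * I)) ≠ 0 := by
  obtain ⟨ξ, hξ, hFξ⟩ := hne
  have han : AnalyticOnNhd ℂ F (ball 0 1) := hF.analyticOnNhd isOpen_ball
  have hr0 : 0 < r := by linarith [hr.1]
  have h1 := han.preimage_zero_mem_codiscreteWithin hFξ hξ
    ⟨⟨ξ, hξ⟩, (convex_ball (0 : ℂ) 1).isPreconnected⟩
  have hsub : sphere (0 : ℂ) |r| ⊆ ball 0 1 := by
    intro z hz
    rw [mem_sphere_zero_iff_norm, abs_of_pos hr0] at hz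
    rw [mem_ball_zero_iff, hz]
    exact hr.2
  have h2 := codiscreteWithin_mono hsub h1
  have h3 := circleMap_preimage_codiscrete (c := 0) hr0.ne' h2
  rw [Filter.mem_map] at h3
  have h4 := ae_restrict_le_codiscreteWithin (μ := volume) (MeasurableSet.univ) h3
  rw [Measure.restrict_univ] at h4
  filter_upwards [h4] with θ hθ
  have h5 : F (circleMap 0 r θ) ≠ 0 := hθ
  rw [circleMap_zero] at h5
  exact h5

theorem J55_int {F : ℂ → ℂ} (hF : DifferentiableOn ℂ F (ball 0 1)) {r : ℝ}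
    (hr : r ∈ Ioo (1 / 2 : ℝ) 1) :
    IntervalIntegrable (fun θ : ℝ => Real.log ‖F ((r : ℂ) * exp (θ * I))‖) volume
      (-Real.pi) Real.pi := by
  have hr0 : 0 < r := by linarith [hr.1]
  have han : AnalyticOnNhd ℂ F (ball 0 1) := hF.analyticOnNhd isOpen_ball
  have hmer : MeromorphicOn F (sphere 0 |r|) := by
    intro z hz
    apply (han z _).meromorphicAt
    rw [mem_sphere_zero_iff_norm, abs_of_pos hr0] at hz
    rw [mem_ball_zero_iff, hz]
    exact hr.2
  have h1 := hmer.circleIntegrable_log_norm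
  unfold CircleIntegrable at h1
  have h2 : Function.Periodic (fun θ : ℝ => Real.log ‖F (circleMap 0 r θ)‖) (2 * Real.pi) := by
    intro θ
    show Real.log ‖F (circleMap 0 r (θ + 2 * Real.pi))‖ = _
    rw [periodic_circleMap 0 r θ]
  have h3 := h2.intervalIntegrable (t := 0) (by positivity) (by rw [zero_add]; exact h1)
    (-Real.pi) Real.pi
  simp only [circleMap_zero] at h3
  exact h3

theorem J55_sum (C1 c1 : ℝ) (hC1 : 0 < C1) (hc1 : 0 < c1) :
    ∑' m : ℕ, ENNReal.ofReal (C1 * Real.exp (-(c1 * m))) =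
      ENNReal.ofReal (C1 * (1 - Real.exp (-c1))⁻¹) := by
  have hq0 : 0 ≤ Real.exp (-c1) := (Real.exp_pos _).le
  have hq1 : Real.exp (-c1) < 1 := by rw [Real.exp_lt_one_iff]; linarith
  have h1 : HasSum (fun m : ℕ => C1 * Real.exp (-(c1 * m))) (C1 * (1 - Real.exp (-c1))⁻¹) := by
    have := (hasSum_geometric_of_lt_one hq0 hq1).mul_left C1
    refine this.congr_fun ?_
    intro m
    rw [← Real.exp_nat_mul]
    congr 2
    ring
  rw [← ENNReal.ofReal_tsum_of_nonneg (fun m => by positivity) h1.summable, h1.tsum_eq]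

theorem logF {ψ F : ℂ → ℂ} {Dc : Set ℂ} {C1 c1 : ℝ} (hC1 : 0 < C1) (hc1 : 0 < c1)
    (hψ : ContinuousOn ψ (ball 0 1))
    (hF : DifferentiableOn ℂ F (ball 0 1)) (hne : ∃ ξ ∈ ball (0 : ℂ) 1, F ξ ≠ 0)
    (hDc : IsClosed Dc) (hDne : Dc.Nonempty) (hψD : ∀ ξ ∈ ball (0 : ℂ) 1, ψ ξ ∉ Dc)
    (hmain : ∀ r ∈ Ioo (1 / 2 : ℝ) 1, ∃ X : ℕ → Set ℝ, (∀ m, MeasurableSet (X m)) ∧ Antitone X ∧
        (∀ m, volume (X m) ≤ ENNReal.ofReal (C1 * Real.exp (-(c1 * m)))) ∧
        ∀ (m : ℕ) (θ : ℝ), θ ∈ Ioo (-Real.pi) Real.pi → θ ∉ X m →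
          ‖F ((r : ℂ) * exp (θ * I))‖ ≤ C1 * 2 ^ m ∧
          (infDist (ψ ((r : ℂ) * exp (θ * I))) Dc ≤ (1 / 2) ^ (4 * (m + 1)) →
            ‖F ((r : ℂ) * exp (θ * I))‖ ≤
              C1 * infDist (ψ ((r : ℂ) * exp (θ * I))) Dc ^ c1)) :
    ∃ C : ℝ, ∀ r ∈ Ioo (1 / 2 : ℝ) 1,
      ∫ θ in (-Real.pi)..Real.pi, Real.log ‖F ((r : ℂ) * exp (θ * I))‖ ≤
        C - c1 * ∫ θ in (-Real.pi)..Real.pi,
          Real.log (1 / infDist (ψ ((r : ℂ) * exp (θ * I))) Dc) := by
  set K0 : ℝ := |Real.log C1| with hK0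
  set K1 : ℝ := (1 + 4 * c1) * Real.log 2 with hK1
  have hlog2 : 0 < Real.log 2 := Real.log_pos (by norm_num)
  have hK1pos : 0 < K1 := by positivity
  set A : ℝ := C1 * (1 - Real.exp (-c1))⁻¹ with hA
  have hexp1 : Real.exp (-c1) < 1 := by rw [Real.exp_lt_one_iff]; linarith
  have hA0 : 0 ≤ A := by
    have : 0 < 1 - Real.exp (-c1) := by linarith
    positivity
  refine ⟨2 * Real.pi * (K0 + K1) + K1 * A, ?_⟩
  intro r hr
  obtain ⟨X, hXm, hXa, hXv, hX⟩ := hmain r hr
  set f : ℝ → ℝ := fun θ => Real.log ‖F ((r : ℂ) * exp (θ * I))‖ with hf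
  set h : ℝ → ℝ := fun θ => infDist (ψ ((r : ℂ) * exp (θ * I))) Dc with hh
  set g : ℝ → ℝ := fun θ => Real.log (1 / h θ) with hg
  have hpi := Real.pi_pos
  have hhpos : ∀ θ, 0 < h θ := fun θ =>
    (hDc.notMem_iff_infDist_pos hDne).1 (hψD _ (J55_mem hr θ))
  have hcψ : Continuous (fun θ : ℝ => ψ ((r : ℂ) * exp (θ * I))) :=
    hψ.comp_continuous (by fun_prop) (fun θ => J55_mem hr θ)
  have hhc : Continuous h := (continuous_infDist_pt Dc).comp hcψ
  have hgc : Continuous g := by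
    apply Continuous.log
    · exact continuous_const.div hhc (fun θ => (hhpos θ).ne')
    · intro θ
      exact (div_pos one_pos (hhpos θ)).ne'
  have hfi : IntervalIntegrable f volume (-Real.pi) Real.pi := J55_int hF hr
  have hgi : IntervalIntegrable g volume (-Real.pi) Real.pi := hgc.intervalIntegrable _ _
  -- the function `u`
  set u : ℝ → ℝ := fun θ => f θ + c1 * g θ - (K0 + K1) with hu
  have hui : IntervalIntegrable u volume (-Real.pi) Real.pi :=
    (hfi.add (hgi.const_mul c1)).sub intervalIntegrable_const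
  have hval : ∫ θ in (-Real.pi)..Real.pi, u θ =
      (∫ θ in (-Real.pi)..Real.pi, f θ) + c1 * (∫ θ in (-Real.pi)..Real.pi, g θ) -
        2 * Real.pi * (K0 + K1) := by
    rw [hu, intervalIntegral.integral_sub (hfi.add (hgi.const_mul c1)) intervalIntegrable_const,
      intervalIntegral.integral_add hfi (hgi.const_mul c1), intervalIntegral.integral_const_mul,
      intervalIntegral.integral_const, smul_eq_mul]
    ring
  -- pointwise bound
  have hnull : volume (⋂ m, X m) = 0 := by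
    have h1 : ∀ m : ℕ, volume (⋂ m, X m) ≤ ENNReal.ofReal (C1 * Real.exp (-(c1 * m))) :=
      fun m => (measure_mono (iInter_subset _ m)).trans (hXv m)
    have h2 : Tendsto (fun m : ℕ => ENNReal.ofReal (C1 * Real.exp (-(c1 * m)))) atTop (𝓝 0) := by
      apply ENNReal.tendsto_atTop_zero_of_tsum_ne_top
      rw [J55_sum C1 c1 hC1 hc1]
      exact ENNReal.ofReal_ne_top
    exact le_antisymm (ge_of_tendsto' h2 h1) zero_le
  set Mf : ℝ → ℝ≥0∞ := fun θ => ∑' m : ℕ, (X m).indicator 1 θ with hMf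
  have hpt : ∀ᵐ θ ∂(volume.restrict (Ioc (-Real.pi) Real.pi)),
      ENNReal.ofReal (u θ) ≤ ENNReal.ofReal K1 * Mf θ := by
    have h1 : ∀ᵐ θ : ℝ, θ ∉ ⋂ m, X m := measure_eq_zero_iff_ae_notMem.1 hnull
    have h2 : ∀ᵐ θ : ℝ, θ ≠ Real.pi := by
      rw [ae_iff]; simp
    filter_upwards [ae_restrict_of_ae (J55_null hF hne hr), ae_restrict_of_ae h1,
      ae_restrict_of_ae h2, ae_restrict_mem measurableSet_Ioc] with θ hθ0 hθ1 hθ2 hθ3
    have hθ : θ ∈ Ioo (-Real.pi) Real.pi := ⟨hθ3.1, lt_of_le_of_ne hθ3.2 hθ2⟩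
    classical
    have hex : ∃ m, θ ∉ X m := by
      by_contra hcon
      push Not at hcon
      exact hθ1 (mem_iInter.2 hcon)
    set m := Nat.find hex with hm
    have hm1 : θ ∉ X m := Nat.find_spec hex
    have hm2 : ∀ j < m, θ ∈ X j := fun j hj => by
      have := Nat.find_min hex hj
      push Not at this
      exact this
    have hMm : (m : ℝ≥0∞) ≤ Mf θ := by
      have h3 : ∑ j ∈ Finset.range m, (X j).indicator (1 : ℝ → ℝ≥0∞) θ = m := by
        rw [Finset.sum_congr rfl (fun j hj =>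
          indicator_of_mem (hm2 j (Finset.mem_range.1 hj)) (1 : ℝ → ℝ≥0∞))]
        simp
      rw [← h3]
      exact ENNReal.sum_le_tsum _
    obtain ⟨hb1, hb2⟩ := hX m θ hθ hm1
    have hFpos : 0 < ‖F ((r : ℂ) * exp (θ * I))‖ := norm_pos_iff.2 hθ0
    have hub : u θ ≤ K1 * m := by
      have hmR : (0 : ℝ) ≤ m := Nat.cast_nonneg m
      have hlC : Real.log C1 ≤ K0 := le_abs_self _
      have hgθ : g θ = - Real.log (h θ) := by
        rw [hg]; show Real.log (1 / h θ) = _
        rw [one_div, Real.log_inv]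
      rcases le_or_gt (h θ) ((1 / 2) ^ (4 * (m + 1))) with hc | hc
      · have h4 := hb2 hc
        have h5 : f θ ≤ Real.log C1 + c1 * Real.log (h θ) := by
          calc f θ ≤ Real.log (C1 * h θ ^ c1) := Real.log_le_log hFpos h4
            _ = Real.log C1 + c1 * Real.log (h θ) := by
                rw [Real.log_mul hC1.ne' (Real.rpow_pos_of_pos (hhpos θ) _).ne',
                  Real.log_rpow (hhpos θ)]
        show f θ + c1 * g θ - (K0 + K1) ≤ K1 * m
        rw [hgθ]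
        have : 0 ≤ K1 * m := by positivity
        linarith
      · have h5 : f θ ≤ Real.log C1 + m * Real.log 2 := by
          calc f θ ≤ Real.log (C1 * 2 ^ m) := Real.log_le_log hFpos hb1
            _ = Real.log C1 + m * Real.log 2 := by
                rw [Real.log_mul hC1.ne' (by positivity), Real.log_pow]
        have h6 : g θ ≤ 4 * (m + 1) * Real.log 2 := by
          rw [hgθ]
          have h7 := Real.log_le_log (by positivity) hc.le
          rw [Real.log_pow, one_div, Real.log_inv] at h7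
          push_cast at h7
          linarith
        have h8 : c1 * g θ ≤ c1 * (4 * (m + 1) * Real.log 2) := mul_le_mul_of_nonneg_left h6 hc1.le
        show f θ + c1 * g θ - (K0 + K1) ≤ K1 * m
        have h9 : K1 * m = m * Real.log 2 + 4 * c1 * m * Real.log 2 := by rw [hK1]; ring
        have h10 : K1 = Real.log 2 + 4 * c1 * Real.log 2 := by rw [hK1]; ring
        nlinarith
    calc ENNReal.ofReal (u θ) ≤ ENNReal.ofReal (K1 * m) := ENNReal.ofReal_le_ofReal hub
      _ = ENNReal.ofReal K1 * m := by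
          rw [ENNReal.ofReal_mul hK1pos.le, ENNReal.ofReal_natCast]
      _ ≤ ENNReal.ofReal K1 * Mf θ := mul_le_mul' le_rfl hMm
  have hMint : ∫⁻ θ in Ioc (-Real.pi) Real.pi, Mf θ ≤ ENNReal.ofReal A := by
    refine (setLIntegral_le_lintegral _ _).trans ?_
    rw [hMf, lintegral_tsum (fun m => (measurable_one.indicator (hXm m)).aemeasurable)]
    rw [hA, ← J55_sum C1 c1 hC1 hc1]
    apply ENNReal.tsum_le_tsum
    intro m
    rw [lintegral_indicator_one (hXm m)]
    exact hXv m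
  have hMmeas : Measurable Mf := Measurable.tsum fun m => measurable_one.indicator (hXm m)
  have hlint : ∫⁻ θ in Ioc (-Real.pi) Real.pi, ENNReal.ofReal (u θ) ≤ ENNReal.ofReal (K1 * A) := by
    refine (lintegral_mono_ae hpt).trans ?_
    rw [lintegral_const_mul _ hMmeas, ENNReal.ofReal_mul hK1pos.le]
    exact mul_le_mul' le_rfl hMint
  have huint : ∫ θ in (-Real.pi)..Real.pi, u θ ≤ K1 * A := by
    rw [intervalIntegral.integral_of_le (by linarith)]
    have hii : Integrable u (volume.restrict (Ioc (-Real.pi) Real.pi)) :=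
      (intervalIntegrable_iff_integrableOn_Ioc_of_le (by linarith)).1 hui
    rw [integral_eq_lintegral_pos_part_sub_lintegral_neg_part hii]
    have h1 : (∫⁻ θ in Ioc (-Real.pi) Real.pi, ENNReal.ofReal (u θ)).toReal ≤ K1 * A :=
      ENNReal.toReal_le_of_le_ofReal (by positivity) hlint
    have h2 : 0 ≤ (∫⁻ θ in Ioc (-Real.pi) Real.pi, ENNReal.ofReal (-u θ)).toReal :=
      ENNReal.toReal_nonneg
    linarith
  rw [hval] at huint
  linarith


end Pool.Agent.Helper265.Br
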