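import Mathlib
import Pool.Agent.Helper265.CrB
import Pool.Agent.Helper265.CrC
import Pool.Agent.Helper265.CrD
import Pool.Agent.Helper265.CrF
import Pool.Agent.Helper265.CrG

set_option autoImplicit false
open Complex Set Filter Metric Topology MeasureTheory
open scoped ENNReal

namespace Pool.Agent.Helper265.Br

theorem vanishU {ψ k : ℂ → ℂ} {R q : ℝ} {D W0 : Set ℂ} {β : ℝ → ℂ}
    (hd : DifferentiableOn ℂ ψ (ball 0 1))
    (hcore : ∀ b : ℝ, 0 < b → b < 1 → ∃ C c : ℝ, 0 < C ∧ 0 < c ∧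
      ∀ r ∈ Ioo (1 / 2 : ℝ) 1, ∀ ρ ∈ Ioo (0 : ℝ) 1,
      ∃ Bad : Set ℝ, MeasurableSet Bad ∧ Bad ⊆ Ioo (-Real.pi) Real.pi ∧
        volume Bad ≤ ENNReal.ofReal (C * ρ ^ c) ∧
        ∀ ζ : ℂ, volume {θ : ℝ | θ ∈ Ioo (-Real.pi) Real.pi ∧ θ ∉ Bad ∧
          ‖ψ ((r : ℂ) * exp (θ * I)) - ζ‖ < ρ} ≤ ENNReal.ofReal (C * ρ ^ b))
    (hq1 : 1 < q) (hq2 : q < 2) (hR : 0 < R)
    (hψR : ∀ ξ ∈ ball (0 : ℂ) 1, ‖ψ ξ‖ < R)
    (hk : Measurable k) (hkR : ∀ ζ, ζ ∉ ball (0 : ℂ) R → k ζ = 0)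
    (hkq : ∫⁻ ζ, ‖k ζ‖ₑ ^ q ≤ 1)
    (hD : IsOpen D) (hDb : Bornology.IsBounded D) (hUD : ∀ ξ ∈ ball (0 : ℂ) 1, ψ ξ ∈ D)
    (hcirc : ∀ z', z' ∉ D → ∀ r : ℝ, 0 < r → ∃ w ∈ W0, ‖w - z'‖ = r)
    (hW0 : ∀ w ∈ W0, Integrable (fun ζ => k ζ / (ζ - w)) ∧ ∫ ζ, k ζ / (ζ - w) = 0)
    (hFd : DifferentiableOn ℂ (fun ξ => ∫ ζ, k ζ / (ζ - ψ ξ)) (ball 0 1))
    (hFi : ∀ ξ ∈ ball (0 : ℂ) 1, Integrable (fun ζ => k ζ / (ζ - ψ ξ)))
    (hβ : ∀ᵐ θ : ℝ ∂(volume.restrict (Ioo (-Real.pi) Real.pi)),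
      Tendsto (fun r : ℝ => ψ ((r : ℂ) * exp (θ * I))) (𝓝[<] (1 : ℝ)) (𝓝 (β θ)))
    (hdiv : ∫⁻ θ in Ioo (-Real.pi) Real.pi,
      (-(ENNReal.log (infEDist (β θ) Dᶜ))).toENNReal = ∞) :
    ∀ ξ ∈ ball (0 : ℂ) 1, ∫ ζ, k ζ / (ζ - ψ ξ) = 0 := by
  by_contra hcon
  push Not at hcon
  obtain ⟨b, hbdef⟩ : ∃ b : ℝ, b = (3 - q) / 2 := ⟨_, rfl⟩
  have hb2 : 2 - q < b := by rw [hbdef]; linarith
  have hb1 : b < 1 := by rw [hbdef]; linarith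
  have hb0 : 0 < b := by linarith
  have hGm : Measurable (fun ζ => ‖k ζ‖ₑ) := hk.enorm
  have hG0 : ∀ ζ, ζ ∉ ball (0 : ℂ) R → (fun ζ => ‖k ζ‖ₑ) ζ = 0 := by
    intro ζ hζ
    simp [hkR ζ hζ]
  obtain ⟨C0, c0, hC0, hc0, hex⟩ := excep hd hcore hb0 hb1
  obtain ⟨C1, hC1, hE1⟩ := ptE1 hq1 hq2 hb2 hb1 hR
  obtain ⟨C2, c2, hC2, hc2, hE2⟩ := ptE2 hq1 hq2 hb2 hb1 hR
  obtain ⟨C, hCdef⟩ : ∃ C : ℝ, C = max C0 (max C1 C2) := ⟨_, rfl⟩
  obtain ⟨c, hcdef⟩ : ∃ c : ℝ, c = min c0 c2 := ⟨_, rfl⟩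
  have hCC0 : C0 ≤ C := by rw [hCdef]; exact le_max_left _ _
  have hCC1 : C1 ≤ C := by rw [hCdef]; exact (le_max_left _ _).trans (le_max_right _ _)
  have hCC2 : C2 ≤ C := by rw [hCdef]; exact (le_max_right _ _).trans (le_max_right _ _)
  have hcc0 : c ≤ c0 := by rw [hcdef]; exact min_le_left _ _
  have hcc2 : c ≤ c2 := by rw [hcdef]; exact min_le_right _ _
  have hC : 0 < C := lt_of_lt_of_le hC0 hCC0
  have hc : 0 < c := by rw [hcdef]; exact lt_min hc0 hc2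
  have hDc : IsClosed Dᶜ := hD.isClosed_compl
  have hDne : (Dᶜ).Nonempty := by
    by_contra h
    rw [Set.not_nonempty_iff_eq_empty, Set.compl_empty_iff] at h
    rw [h] at hDb
    exact NormedSpace.unbounded_univ ℝ ℂ hDb
  have hψD : ∀ ξ ∈ ball (0 : ℂ) 1, ψ ξ ∉ Dᶜ := fun ξ hξ h => h (hUD ξ hξ)
  have hne : ∃ ξ ∈ ball (0 : ℂ) 1, (fun ξ => ∫ ζ, k ζ / (ζ - ψ ξ)) ξ ≠ 0 := hcon
  have hmain : ∀ r ∈ Ioo (1 / 2 : ℝ) 1, ∃ X : ℕ → Set ℝ, (∀ m, MeasurableSet (X m)) ∧ Antitone X ∧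
        (∀ m, volume (X m) ≤ ENNReal.ofReal (C * Real.exp (-(c * m)))) ∧
        ∀ (m : ℕ) (θ : ℝ), θ ∈ Ioo (-Real.pi) Real.pi → θ ∉ X m →
          ‖(fun ξ => ∫ ζ, k ζ / (ζ - ψ ξ)) ((r : ℂ) * exp (θ * I))‖ ≤ C * 2 ^ m ∧
          (infDist (ψ ((r : ℂ) * exp (θ * I))) Dᶜ ≤ (1 / 2) ^ (4 * (m + 1)) →
            ‖(fun ξ => ∫ ζ, k ζ / (ζ - ψ ξ)) ((r : ℂ) * exp (θ * I))‖ ≤
              C * infDist (ψ ((r : ℂ) * exp (θ * I))) Dᶜ ^ c) := by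
    intro r hr
    obtain ⟨X, hXm, hXa, hXv, hX⟩ := hex r hr (fun ζ => ‖k ζ‖ₑ ^ q) (hGm.pow_const q) hkq
    refine ⟨X, hXm, hXa, ?_, ?_⟩
    · intro m
      refine (hXv m).trans (ENNReal.ofReal_le_ofReal ?_)
      have : Real.exp (-(c0 * m)) ≤ Real.exp (-(c * m)) := by
        apply Real.exp_le_exp.2
        have : c * (m : ℝ) ≤ c0 * m := by gcongr
        linarith
      gcongr
    · intro m θ hθ hθX
      have hball : (r : ℂ) * exp (θ * I) ∈ ball (0 : ℂ) 1 := by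
        rw [mem_ball_zero_iff, norm_mul, Complex.norm_exp_ofReal_mul_I, mul_one,
          Complex.norm_real, Real.norm_of_nonneg (by linarith [hr.1])]
        exact hr.2
      have hReg : Reg (fun ζ => (fun ζ => ‖k ζ‖ₑ) ζ ^ q) b (ψ ((r : ℂ) * exp (θ * I))) m :=
        fun j hj hj1 => hX m θ hθ hθX j hj hj1
      have hFi' := hFi _ hball
      have hzD := hUD _ hball
      simp only
      generalize ψ ((r : ℂ) * exp (θ * I)) = z at hReg hFi' hzD ⊢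
      constructor
      · have h1 := hE1 _ hGm hG0 hkq z m hReg
        have h2 : ‖∫ ζ, k ζ / (ζ - z)‖ₑ ≤ ENNReal.ofReal (C1 * 2 ^ m) := by
          refine (enorm_integral_le_lintegral_enorm _).trans (le_trans ?_ h1)
          refine lintegral_mono fun ζ => ?_
          simp only
          rcases eq_or_ne (ζ - z) 0 with h0 | h0
          · rw [h0, div_zero, enorm_zero]
            exact zero_le
          · rw [div_eq_mul_inv, enorm_mul, enorm_inv h0]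
        have h3 : ‖∫ ζ, k ζ / (ζ - z)‖ ≤ C1 * 2 ^ m := by
          rw [← toReal_enorm]
          exact ENNReal.toReal_le_of_le_ofReal (by positivity) h2
        refine h3.trans ?_
        gcongr
      · intro hδ
        have hδ0 : 0 < infDist z Dᶜ := by
          rw [← hDc.notMem_iff_infDist_pos hDne]
          exact fun h => h hzD
        obtain ⟨z', hz', hzz'⟩ := hDc.exists_infDist_eq_dist hDne z
        have hzz2 : ‖z - z'‖ ≤ infDist z Dᶜ := by rw [hzz', dist_eq_norm]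
        obtain ⟨w, hw, hwi⟩ := hE2 _ hGm hG0 hkq z z' m (infDist z Dᶜ) hReg hδ0 hδ hzz2 W0
          (fun s hs => hcirc z' hz' s hs.1)
        obtain ⟨hwI, hw0⟩ := hW0 w hw
        have h1 : ∫ ζ, k ζ / (ζ - z) = ∫ ζ, (k ζ / (ζ - z) - k ζ / (ζ - w)) := by
          rw [integral_sub hFi' hwI, hw0, sub_zero]
        have h2 : ‖∫ ζ, k ζ / (ζ - z)‖ₑ ≤ ENNReal.ofReal (C2 * infDist z Dᶜ ^ c2) := by
          rw [h1]
          refine (enorm_integral_le_lintegral_enorm _).trans (le_trans ?_ hwi)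
          refine lintegral_mono fun ζ => ?_
          simp only
          rw [div_eq_mul_inv, div_eq_mul_inv, ← mul_sub, enorm_mul]
        have h3 : ‖∫ ζ, k ζ / (ζ - z)‖ ≤ C2 * infDist z Dᶜ ^ c2 := by
          rw [← toReal_enorm]
          exact ENNReal.toReal_le_of_le_ofReal (by positivity) h2
        refine h3.trans ?_
        have hδ1 : infDist z Dᶜ ≤ 1 := hδ.trans (pow_le_one₀ (by norm_num) (by norm_num))
        have h4 : infDist z Dᶜ ^ c2 ≤ infDist z Dᶜ ^ c :=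
          Real.rpow_le_rpow_of_exponent_ge hδ0 hδ1 hcc2
        gcongr
  obtain ⟨C', hC'⟩ := logF hC hc hd.continuousOn hFd hne hDc hDne hψD hmain
  obtain ⟨A, hA⟩ := jensen_low hFd hne
  obtain ⟨r, hr, hrB⟩ := fatou_div hd.continuousOn hψR hDc hDne hψD hβ hdiv ((C' - A) / c)
  have h1 := hA r hr
  have h2 := hC' r hr
  have h3 : (C' - A) / c * c = C' - A := div_mul_cancel₀ _ hc.ne'
  have h4 := mul_lt_mul_of_pos_right hrB hc
  rw [h3] at h4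
  linarith


end Pool.Agent.Helper265.Br
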