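import Mathlib

set_option autoImplicit false
open Complex Set Filter Metric Topology MeasureTheory
open scoped ENNReal

namespace Pool.Agent.Helper265.Br

theorem pompeiu0 {g : ℂ → ℂ} (hg : ContDiff ℝ 1 g) (hc : HasCompactSupport g) :
    ∫ z : ℂ, (fderiv ℝ g z 1 + I * fderiv ℝ g z I) / z = -(2 * Real.pi) * g 0 := by
  obtain ⟨R, hR, hgR⟩ : ∃ R : ℝ, 0 < R ∧ ∀ z, R ≤ ‖z‖ → z ∉ tsupport g := by
    obtain ⟨R0, hR0⟩ := hc.isBounded.subset_closedBall 0
    refine ⟨max R0 0 + 1, by positivity, fun z hz hz' => ?_⟩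
    have h1 := hR0 hz'
    rw [mem_closedBall, dist_zero_right] at h1
    have := le_max_left R0 0
    linarith
  have hgR0 : ∀ z, R ≤ ‖z‖ → g z = 0 := fun z hz => image_eq_zero_of_notMem_tsupport (hgR z hz)
  have hDR0 : ∀ z, R ≤ ‖z‖ → fderiv ℝ g z = 0 := by
    intro z hz
    by_contra hne
    exact hgR z hz (support_fderiv_subset ℝ hne)
  have hDc : Continuous (fderiv ℝ g) := hg.continuous_fderiv (by simp)
  have hDiff : ∀ z, HasFDerivAt g (fderiv ℝ g z) z := fun z =>
    (hg.differentiable (by simp) z).hasFDerivAt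
  set w : ℝ → ℂ := fun θ => exp (θ * I) with hw
  have hwc : Continuous w := by fun_prop
  have hwn : ∀ θ, ‖w θ‖ = 1 := fun θ => Complex.norm_exp_ofReal_mul_I θ
  have hw0 : ∀ θ, w θ ≠ 0 := fun θ => Complex.exp_ne_zero _
  have hwd : ∀ θ : ℝ, HasDerivAt w (I * w θ) θ := by
    intro θ
    have h1 : HasDerivAt (fun θ : ℝ => (θ : ℂ) * I) (1 * I) θ := (hasDerivAt_id θ).ofReal_comp.mul_const I
    have h2 := h1.cexp
    convert h2 using 1
    rw [hw]; ring
  have hwcs : ∀ θ : ℝ, w θ = (Real.cos θ : ℂ) + (Real.sin θ : ℂ) * I := by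
    intro θ
    rw [hw]; simp only [exp_mul_I, ofReal_cos, ofReal_sin]
  set u : ℝ × ℝ → ℂ := fun p => fderiv ℝ g (p.1 * w p.2) (w p.2) with hu
  set v : ℝ × ℝ → ℂ := fun p => fderiv ℝ g (p.1 * w p.2) (I * w p.2) with hv
  have huc : Continuous u := by
    apply Continuous.clm_apply
    · exact hDc.comp (by fun_prop)
    · fun_prop
  have hvc : Continuous v := by
    apply Continuous.clm_apply
    · exact hDc.comp (by fun_prop)
    · fun_prop
  have hkey : ∀ p : ℝ × ℝ, 0 < p.1 →
      p.1 • ((fderiv ℝ g (Complex.polarCoord.symm p) 1 + I * fderiv ℝ g (Complex.polarCoord.symm p) I) /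
        (Complex.polarCoord.symm p)) = u p + I * v p := by
    intro p hp
    have e0 : Complex.polarCoord.symm p = p.1 * w p.2 := by
      rw [Complex.polarCoord_symm_apply, hwcs]
    have hp' : (p.1 : ℂ) ≠ 0 := by exact_mod_cast hp.ne'
    rw [e0]
    set D := fderiv ℝ g (p.1 * w p.2) with hD
    have e1 : u p = Real.cos p.2 * D 1 + Real.sin p.2 * D I := by
      show D (w p.2) = _
      have : w p.2 = Real.cos p.2 • (1 : ℂ) + Real.sin p.2 • I := by
        rw [hwcs]; simp
      rw [this, map_add, map_smul, map_smul]; simp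
    have e2 : v p = - Real.sin p.2 * D 1 + Real.cos p.2 * D I := by
      show D (I * w p.2) = _
      have : I * w p.2 = (-Real.sin p.2) • (1 : ℂ) + Real.cos p.2 • I := by
        rw [hwcs]; 
        simp only [real_smul, ofReal_neg]
        ring_nf
        rw [I_sq]; ring
      rw [this, map_add, map_smul, map_smul]; simp
    have e3 : (w p.2)⁻¹ = Real.cos p.2 - Real.sin p.2 * I := by
      rw [hwcs]
      apply inv_eq_of_mul_eq_one_right
      have h1 : (Real.cos p.2 : ℂ) ^ 2 + (Real.sin p.2 : ℂ) ^ 2 = 1 := by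
        rw [← ofReal_pow, ← ofReal_pow, ← ofReal_add, Real.cos_sq_add_sin_sq, ofReal_one]
      ring_nf
      rw [I_sq]
      linear_combination h1
    rw [real_smul, e1, e2, div_eq_mul_inv, mul_inv, e3]
    field_simp
    ring_nf
    rw [I_sq]; ring
  rw [← Complex.integral_comp_polarCoord_symm]
  have hpi := Real.pi_pos
  set S : Set (ℝ × ℝ) := Ioc 0 R ×ˢ Ioo (-Real.pi) Real.pi with hS
  have hSt : polarCoord.target = Ioi (0 : ℝ) ×ˢ Ioo (-Real.pi) Real.pi := rfl
  have hSm : MeasurableSet S := measurableSet_Ioc.prod measurableSet_Ioo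
  have s1 : ∫ p in polarCoord.target, p.1 • ((fderiv ℝ g (Complex.polarCoord.symm p) 1 +
      I * fderiv ℝ g (Complex.polarCoord.symm p) I) / (Complex.polarCoord.symm p)) =
      ∫ p in polarCoord.target, (u p + I * v p) := by
    apply setIntegral_congr_fun (by rw [hSt]; exact measurableSet_Ioi.prod measurableSet_Ioo)
    intro p hp
    exact hkey p hp.1
  have hzero : ∀ p : ℝ × ℝ, R ≤ p.1 → u p = 0 ∧ v p = 0 := by
    intro p hp
    have : R ≤ ‖(p.1 : ℂ) * w p.2‖ := by
      rw [norm_mul, hwn, mul_one, norm_real, Real.norm_of_nonneg (hR.le.trans hp)]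
      exact hp
    have h := hDR0 _ this
    constructor
    · show fderiv ℝ g _ _ = 0
      rw [h]; rfl
    · show fderiv ℝ g _ _ = 0
      rw [h]; rfl
  have s2 : ∫ p in polarCoord.target, (u p + I * v p) = ∫ p in S, (u p + I * v p) := by
    rw [hSt]
    apply setIntegral_eq_of_subset_of_forall_sdiff_eq_zero (measurableSet_Ioi.prod measurableSet_Ioo)
    · exact prod_mono Ioc_subset_Ioi_self le_rfl
    · rintro p ⟨hp1, hp2⟩
      have : R ≤ p.1 := by
        by_contra hlt
        exact hp2 ⟨⟨hp1.1, (not_le.mp hlt).le⟩, hp1.2⟩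
      rw [(hzero p this).1, (hzero p this).2]; simp
  have hSK : S ⊆ Icc 0 R ×ˢ Icc (-Real.pi) Real.pi := prod_mono Ioc_subset_Icc_self Ioo_subset_Icc_self
  have hKc : IsCompact (Icc 0 R ×ˢ Icc (-Real.pi) Real.pi : Set (ℝ × ℝ)) := isCompact_Icc.prod isCompact_Icc
  have hui : IntegrableOn u S := (huc.continuousOn.integrableOn_compact hKc).mono_set hSK
  have hvi : IntegrableOn v S := (hvc.continuousOn.integrableOn_compact hKc).mono_set hSK
  have s3 : ∫ p in S, (u p + I * v p) = (∫ p in S, u p) + I * ∫ p in S, v p := by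
    rw [integral_add hui (hvi.const_mul I), integral_const_mul]
  have s4 : ∫ p in S, v p = 0 := by
    have hvi' : IntegrableOn v (Ioc 0 R ×ˢ Ioo (-Real.pi) Real.pi) (volume.prod volume) := hvi
    rw [hS, Measure.volume_eq_prod, setIntegral_prod _ hvi']
    have : ∀ ρ ∈ Ioc 0 R, ∫ θ in Ioo (-Real.pi) Real.pi, v (ρ, θ) = 0 := by
      intro ρ hρ
      rw [← integral_Ioc_eq_integral_Ioo, ← intervalIntegral.integral_of_le (by linarith)]
      have hd : ∀ θ ∈ uIcc (-Real.pi) Real.pi, HasDerivAt (fun θ : ℝ => g (ρ * w θ)) (ρ * v (ρ, θ)) θ := by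
        intro θ _
        have h1 : HasDerivAt (fun θ : ℝ => (ρ : ℂ) * w θ) (ρ * (I * w θ)) θ := (hwd θ).const_mul _
        have h2 := (hDiff (ρ * w θ)).comp_hasDerivAt θ h1
        have h5 : (ρ : ℂ) * (I * w θ) = ρ • (I * w θ) := real_smul.symm
        rw [h5, map_smul, real_smul] at h2
        exact h2
      have hvc' : Continuous fun θ : ℝ => v (ρ, θ) := hvc.comp (by fun_prop)
      have h3 := intervalIntegral.integral_eq_sub_of_hasDerivAt hd
        ((continuous_const.mul hvc').intervalIntegrable _ _)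
      rw [intervalIntegral.integral_const_mul] at h3
      have h4 : w Real.pi = w (-Real.pi) := by
        rw [hwcs, hwcs]; simp
      rw [h4, sub_self] at h3
      rcases mul_eq_zero.mp h3 with h | h
      · exact absurd (by exact_mod_cast h) hρ.1.ne'
      · exact h
    rw [setIntegral_congr_fun measurableSet_Ioc this]
    simp
  have s5 : ∫ p in S, u p = -(2 * Real.pi) * g 0 := by
    have e1 : ∫ p in S, u p = ∫ θ in Ioo (-Real.pi) Real.pi, ∫ ρ in Ioc 0 R, u (ρ, θ) := by
      have hui' : Integrable u ((volume.restrict (Ioc 0 R)).prod (volume.restrict (Ioo (-Real.pi) Real.pi))) := by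
        rw [Measure.prod_restrict]; exact hui
      rw [hS, Measure.volume_eq_prod, ← Measure.prod_restrict, integral_prod_symm _ hui']
    rw [e1]
    have : ∀ θ ∈ Ioo (-Real.pi) Real.pi, ∫ ρ in Ioc 0 R, u (ρ, θ) = - g 0 := by
      intro θ _
      rw [← intervalIntegral.integral_of_le hR.le]
      have hd : ∀ ρ ∈ uIcc 0 R, HasDerivAt (fun ρ : ℝ => g (ρ * w θ)) (u (ρ, θ)) ρ := by
        intro ρ _
        have h1 : HasDerivAt (fun ρ : ℝ => (ρ : ℂ) * w θ) (1 * w θ) ρ :=
          (hasDerivAt_id ρ).ofReal_comp.mul_const _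
        have h2 := (hDiff (ρ * w θ)).comp_hasDerivAt ρ h1
        rw [one_mul] at h2
        exact h2
      have huc' : Continuous fun ρ : ℝ => u (ρ, θ) := huc.comp (by fun_prop)
      have h3 := intervalIntegral.integral_eq_sub_of_hasDerivAt hd (huc'.intervalIntegrable _ _)
      rw [h3]
      have h5 : g ((R : ℝ) * w θ) = 0 := by
        apply hgR0
        rw [norm_mul, hwn, mul_one, norm_real, Real.norm_of_nonneg hR.le]
      rw [h5]; simp
    rw [setIntegral_congr_fun measurableSet_Ioo this]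
    rw [setIntegral_const]
    rw [measureReal_def, Real.volume_Ioo, ENNReal.toReal_ofReal (by linarith)]
    rw [real_smul]
    push_cast; ring
  rw [s1, s2, s3, s4, s5]; simp

theorem pompeiu {g : ℂ → ℂ} (hg : ContDiff ℝ 1 g) (hc : HasCompactSupport g) (ζ : ℂ) :
    ∫ z : ℂ, (fderiv ℝ g z 1 + I * fderiv ℝ g z I) / (z - ζ) = -(2 * Real.pi) * g ζ := by
  set G : ℂ → ℂ := fun z => g (z + ζ) with hG
  have hGd : ContDiff ℝ 1 G := hg.comp (contDiff_id.add contDiff_const)
  have hGc : HasCompactSupport G := hc.comp_homeomorph (Homeomorph.addRight ζ)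
  have h1 := pompeiu0 hGd hGc
  have h2 : ∀ z, fderiv ℝ G z = fderiv ℝ g (z + ζ) := fun z => fderiv_comp_add_right ζ
  rw [← integral_add_right_eq_self _ ζ]
  simp only [h2] at h1
  simp only [add_sub_cancel_right]
  rw [h1, hG]
  simp


end Pool.Agent.Helper265.Br
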