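import Mathlib

set_option autoImplicit false
open Complex Set Filter Metric Topology MeasureTheory
open scoped ENNReal

namespace Pool.Agent.Helper265.Br

theorem cutoff : ∃ C : ℝ, 0 < C ∧ ∀ (A : Set ℂ) (δ : ℝ), A.Nonempty → 0 < δ →
    ∃ χ : ℂ → ℝ, ContDiff ℝ 1 χ ∧ (∀ z, 0 ≤ χ z ∧ χ z ≤ 1) ∧
      (∀ z, infDist z A < δ → χ z = 0) ∧ (∀ z, 3 * δ ≤ infDist z A → χ z = 1) ∧
      ∀ z, ‖fderiv ℝ χ z‖ ≤ C / δ := by
  refine ⟨1, one_pos, fun A δ hA hδ => ?_⟩
  set g : ℂ → ℝ := fun z => min 1 (max 0 ((infDist z A - 3 / 2 * δ) / δ)) with hg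
  have hgc : Continuous g := by
    rw [hg]
    exact continuous_const.min (continuous_const.max
      (((continuous_infDist_pt A).sub continuous_const).div_const δ))
  have hg0 : ∀ z, 0 ≤ g z := fun z => le_min zero_le_one (le_max_left _ _)
  have hg1 : ∀ z, g z ≤ 1 := fun z => min_le_left _ _
  have hglip : ∀ z w, |g z - g w| ≤ 1 / δ * ‖z - w‖ := by
    intro z w
    have h1 : |g z - g w| ≤ |max 0 ((infDist z A - 3 / 2 * δ) / δ) -
        max 0 ((infDist w A - 3 / 2 * δ) / δ)| := by
      have := abs_min_sub_min_le_max (1:ℝ) (max 0 ((infDist z A - 3 / 2 * δ) / δ)) 1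
        (max 0 ((infDist w A - 3 / 2 * δ) / δ))
      simpa using this
    have h2 : |max 0 ((infDist z A - 3 / 2 * δ) / δ) -
        max 0 ((infDist w A - 3 / 2 * δ) / δ)| ≤
        |(infDist z A - 3 / 2 * δ) / δ - (infDist w A - 3 / 2 * δ) / δ| := by
      have := abs_max_sub_max_le_max (0:ℝ) ((infDist z A - 3 / 2 * δ) / δ) 0
        ((infDist w A - 3 / 2 * δ) / δ)
      simpa using this
    have h3 : |(infDist z A - 3 / 2 * δ) / δ - (infDist w A - 3 / 2 * δ) / δ| =
        1 / δ * |infDist z A - infDist w A| := by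
      rw [← sub_div, abs_div, abs_of_pos hδ]
      ring_nf
    have h4 : |infDist z A - infDist w A| ≤ ‖z - w‖ := by
      rw [← dist_eq_norm, ← Real.dist_eq]
      have := (lipschitz_infDist_pt A).dist_le_mul z w
      simpa using this
    calc |g z - g w| ≤ _ := h1
      _ ≤ _ := h2
      _ = _ := h3
      _ ≤ _ := mul_le_mul_of_nonneg_left h4 (by positivity)
  let φ : ContDiffBump (0 : ℂ) := ⟨δ / 4, δ / 2, by positivity, by linarith⟩
  have hφ0 : ∀ t, 0 ≤ φ.normed volume t := fun t => φ.nonneg_normed t
  have hφi : Integrable (φ.normed volume) volume := φ.integrable_normed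
  have hφ1 : ∫ t, φ.normed volume t = 1 := φ.integral_normed
  set χ : ℂ → ℝ := convolution (φ.normed volume) g (ContinuousLinearMap.lsmul ℝ ℝ) volume with hχ
  have hval : ∀ z, χ z = ∫ t, φ.normed volume t * g (z - t) := by
    intro z
    rw [hχ]
    rfl
  have hint : ∀ z, Integrable (fun t => φ.normed volume t * g (z - t)) volume := by
    intro z
    refine hφi.mul_bdd (c := 1) ?_ ?_
    · exact (hgc.comp (continuous_const.sub continuous_id)).aestronglyMeasurable
    · refine Filter.Eventually.of_forall fun t => ?_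
      rw [Real.norm_eq_abs, abs_of_nonneg (hg0 _)]
      exact hg1 _
  have hCD : ContDiff ℝ 1 χ := by
    have := φ.hasCompactSupport_normed.contDiff_convolution_left
      (ContinuousLinearMap.lsmul ℝ ℝ) (φ.contDiff_normed (μ := (volume : Measure ℂ)) (n := 1))
      (hgc.locallyIntegrable (μ := (volume : Measure ℂ)))
    exact_mod_cast this
  have hlip : ∀ z w, |χ z - χ w| ≤ 1 / δ * ‖z - w‖ := by
    intro z w
    rw [hval z, hval w, ← integral_sub (hint z) (hint w)]
    have h1 : ‖∫ t, (φ.normed volume t * g (z - t) - φ.normed volume t * g (w - t))‖ ≤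
        ∫ t, φ.normed volume t * (1 / δ * ‖z - w‖) := by
      refine norm_integral_le_of_norm_le (hφi.mul_const _) (Filter.Eventually.of_forall fun t => ?_)
      rw [← mul_sub, norm_mul, Real.norm_eq_abs, abs_of_nonneg (hφ0 t), Real.norm_eq_abs]
      refine mul_le_mul_of_nonneg_left ?_ (hφ0 t)
      have := hglip (z - t) (w - t)
      simpa using this
    rw [integral_mul_const, hφ1, one_mul] at h1
    simpa using h1
  have hnear : ∀ z y, y ∈ ball z (δ / 2) → |infDist y A - infDist z A| < δ / 2 := by
    intro z y hy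
    rw [mem_ball] at hy
    have := (lipschitz_infDist_pt A).dist_le_mul y z
    rw [Real.dist_eq] at this
    simp only [NNReal.coe_one, one_mul] at this
    linarith
  refine ⟨χ, hCD, ?_, ?_, ?_, ?_⟩
  · intro z
    rw [hval z]
    constructor
    · exact integral_nonneg fun t => mul_nonneg (hφ0 t) (hg0 _)
    · rw [← hφ1]
      refine integral_mono (hint z) hφi fun t => ?_
      exact mul_le_of_le_one_right (hφ0 t) (hg1 _)
  · intro z hz
    have hgz : ∀ y, infDist y A < 3 / 2 * δ → g y = 0 := by
      intro y hy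
      have : (infDist y A - 3 / 2 * δ) / δ ≤ 0 := div_nonpos_of_nonpos_of_nonneg (by linarith) hδ.le
      simp only [hg, max_eq_left this]
      norm_num
    have := φ.normed_convolution_eq_right (μ := (volume : Measure ℂ)) (g := g) (x₀ := z) (by
      intro y hy
      have h := hnear z y hy
      rw [abs_lt] at h
      rw [hgz y (by linarith), hgz z (by linarith)])
    rw [hχ, this, hgz z (by linarith)]
  · intro z hz
    have hgz : ∀ y, 5 / 2 * δ ≤ infDist y A → g y = 1 := by
      intro y hy
      have : 1 ≤ (infDist y A - 3 / 2 * δ) / δ := by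
        rw [le_div_iff₀ hδ]; linarith
      simp only [hg]
      rw [max_eq_right (by linarith), min_eq_left this]
    have := φ.normed_convolution_eq_right (μ := (volume : Measure ℂ)) (g := g) (x₀ := z) (by
      intro y hy
      have h := hnear z y hy
      rw [abs_lt] at h
      rw [hgz y (by linarith), hgz z (by linarith)])
    rw [hχ, this, hgz z (by linarith)]
  · intro z
    have hL : LipschitzWith (Real.toNNReal (1 / δ)) χ := by
      refine LipschitzWith.of_dist_le_mul fun z w => ?_
      rw [Real.dist_eq, dist_eq_norm, Real.coe_toNNReal _ (by positivity)]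
      exact hlip z w
    have := norm_fderiv_le_of_lipschitz ℝ hL (x₀ := z)
    rwa [Real.coe_toNNReal _ (by positivity)] at this


end Pool.Agent.Helper265.Br
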