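import Mathlib
import Pool.Agent.Helper265.CrI
import Pool.Agent.Helper265.CrJ

set_option autoImplicit false
open Complex Set Filter Metric Topology MeasureTheory
open scoped ENNReal

namespace Pool.Agent.Helper265.Br

theorem cb_local : ∫⁻ w : ℂ, (ball (0 : ℂ) 1).indicator (fun w => ‖w⁻¹‖ₑ) w < ⊤ := by
  rw [← Complex.lintegral_comp_polarCoord_symm]
  have hfin : volume (Ioo (0 : ℝ) 1 ×ˢ Ioo (-Real.pi) Real.pi) < ⊤ :=
    ((isBounded_Ioo 0 1).prod (isBounded_Ioo _ _)).measure_lt_top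
  refine lt_of_le_of_lt ?_ hfin
  have hms : MeasurableSet (Ioo (0 : ℝ) 1 ×ˢ Ioo (-Real.pi) Real.pi) :=
    measurableSet_Ioo.prod measurableSet_Ioo
  calc ∫⁻ p in polarCoord.target, ENNReal.ofReal p.1 •
        (ball (0 : ℂ) 1).indicator (fun w => ‖w⁻¹‖ₑ) (Complex.polarCoord.symm p)
      ≤ ∫⁻ p in polarCoord.target, (Ioo (0 : ℝ) 1 ×ˢ Ioo (-Real.pi) Real.pi).indicator 1 p := by
        refine setLIntegral_mono' polarCoord.open_target.measurableSet ?_
        intro p hp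
        have hp' : 0 < p.1 ∧ p.2 ∈ Ioo (-Real.pi) Real.pi := by
          rw [polarCoord_target] at hp
          exact ⟨hp.1, hp.2⟩
        have hn : ‖Complex.polarCoord.symm p‖ = p.1 := by
          rw [Complex.norm_polarCoord_symm, abs_of_pos hp'.1]
        by_cases h1 : p.1 < 1
        · have h2 : Complex.polarCoord.symm p ∈ ball (0 : ℂ) 1 := by
            rw [mem_ball_zero_iff, hn]; exact h1
          have h3 : p ∈ Ioo (0 : ℝ) 1 ×ˢ Ioo (-Real.pi) Real.pi := ⟨⟨hp'.1, h1⟩, hp'.2⟩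
          rw [indicator_of_mem h2, indicator_of_mem h3, Pi.one_apply, smul_eq_mul,
            ← ofReal_norm, norm_inv, hn, ← ENNReal.ofReal_mul hp'.1.le,
            mul_inv_cancel₀ hp'.1.ne', ENNReal.ofReal_one]
        · have h2 : Complex.polarCoord.symm p ∉ ball (0 : ℂ) 1 := by
            rw [mem_ball_zero_iff, hn]; exact h1
          rw [indicator_of_notMem h2]
          simp
    _ ≤ ∫⁻ p, (Ioo (0 : ℝ) 1 ×ˢ Ioo (-Real.pi) Real.pi).indicator 1 p :=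
        setLIntegral_le_lintegral _ _
    _ = volume (Ioo (0 : ℝ) 1 ×ˢ Ioo (-Real.pi) Real.pi) := lintegral_indicator_one hms

theorem cb_unif {h : ℂ → ℂ} (hh : Continuous h) (hc : HasCompactSupport h) :
    ∃ M : ℝ≥0∞, M < ⊤ ∧ ∀ ζ : ℂ, ∫⁻ z, ‖h z‖ₑ * ‖(z - ζ)⁻¹‖ₑ ≤ M := by
  obtain ⟨H0, hH0⟩ := hh.bounded_above_of_compact_support hc
  have hi : Integrable h := hh.integrable_of_hasCompactSupport hc
  refine ⟨ENNReal.ofReal H0 * (∫⁻ w : ℂ, (ball (0 : ℂ) 1).indicator (fun w => ‖w⁻¹‖ₑ) w) +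
    ∫⁻ z, ‖h z‖ₑ, ?_, ?_⟩
  · refine ENNReal.add_lt_top.2 ⟨ENNReal.mul_lt_top ENNReal.ofReal_lt_top cb_local, ?_⟩
    exact hi.2
  · intro ζ
    calc ∫⁻ z, ‖h z‖ₑ * ‖(z - ζ)⁻¹‖ₑ
        ≤ ∫⁻ z, (ENNReal.ofReal H0 * (ball (0 : ℂ) 1).indicator (fun w => ‖w⁻¹‖ₑ) (z - ζ) +
          ‖h z‖ₑ) := by
          refine lintegral_mono fun z => ?_
          by_cases hz : z - ζ ∈ ball (0 : ℂ) 1
          · rw [indicator_of_mem hz]
            refine le_trans ?_ le_self_add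
            gcongr
            rw [← ofReal_norm]
            exact ENNReal.ofReal_le_ofReal (hH0 z)
          · refine le_trans ?_ le_add_self
            have h1 : ‖(z - ζ)⁻¹‖ₑ ≤ 1 := by
              rw [mem_ball_zero_iff, not_lt] at hz
              rw [← ofReal_norm, norm_inv, ← ENNReal.ofReal_one]
              exact ENNReal.ofReal_le_ofReal (inv_le_one_of_one_le₀ hz)
            calc ‖h z‖ₑ * ‖(z - ζ)⁻¹‖ₑ ≤ ‖h z‖ₑ * 1 := by gcongr
              _ = ‖h z‖ₑ := mul_one _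
      _ = ENNReal.ofReal H0 * (∫⁻ w : ℂ, (ball (0 : ℂ) 1).indicator (fun w => ‖w⁻¹‖ₑ) w) +
          ∫⁻ z, ‖h z‖ₑ := by
          rw [lintegral_add_right _ hh.measurable.enorm,
            lintegral_const_mul' _ _ ENNReal.ofReal_ne_top,
            lintegral_sub_right_eq_self (fun w => (ball (0 : ℂ) 1).indicator (fun w => ‖w⁻¹‖ₑ) w) ζ]

theorem cb_fubini {k h : ℂ → ℂ} (hk : Measurable k) (hki : Integrable k) (hh : Continuous h)
    (hc : HasCompactSupport h) :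
    Integrable (Function.uncurry fun ζ z : ℂ => k ζ * (h z / (z - ζ)))
      ((volume : Measure ℂ).prod (volume : Measure ℂ)) := by
  obtain ⟨M, hM, hMb⟩ := cb_unif hh hc
  have hm : Measurable (Function.uncurry fun ζ z : ℂ => k ζ * (h z / (z - ζ))) :=
    (hk.comp measurable_fst).mul ((hh.measurable.comp measurable_snd).div
      (measurable_snd.sub measurable_fst))
  refine ⟨hm.aestronglyMeasurable, ?_⟩
  unfold HasFiniteIntegral
  rw [lintegral_prod _ hm.enorm.aemeasurable]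
  calc ∫⁻ ζ : ℂ, ∫⁻ z : ℂ, ‖Function.uncurry (fun ζ z : ℂ => k ζ * (h z / (z - ζ))) (ζ, z)‖ₑ
      ≤ ∫⁻ ζ : ℂ, ‖k ζ‖ₑ * M := by
        refine lintegral_mono fun ζ => ?_
        have h1 : ∀ z : ℂ, ‖Function.uncurry (fun ζ z : ℂ => k ζ * (h z / (z - ζ))) (ζ, z)‖ₑ =
            ‖k ζ‖ₑ * (‖h z‖ₑ * ‖(z - ζ)⁻¹‖ₑ) := by
          intro z
          simp only [Function.uncurry_apply_pair]
          rw [enorm_mul, div_eq_mul_inv, enorm_mul]
        simp only [h1]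
        rw [lintegral_const_mul' _ _ enorm_ne_top]
        gcongr
        exact hMb ζ
    _ = (∫⁻ ζ : ℂ, ‖k ζ‖ₑ) * M := lintegral_mul_const' _ _ hM.ne
    _ < ⊤ := ENNReal.mul_lt_top hki.2 hM

theorem cut_bound : ∃ C : ℝ, 0 < C ∧ ∀ (Ω : Set ℂ), IsOpen Ω → Bornology.IsBounded Ω →
    ∀ f k : ℂ → ℂ, DifferentiableOn ℂ f Ω → Measurable k → Integrable k → ∀ δ : ℝ, 0 < δ →
    ∃ χ : ℂ → ℝ, Continuous χ ∧ (∀ z, 0 ≤ χ z ∧ χ z ≤ 1) ∧
      (∀ z, infDist z Ωᶜ < δ → χ z = 0) ∧ (∀ z, 3 * δ ≤ infDist z Ωᶜ → χ z = 1) ∧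
      ‖∫ ζ, k ζ * (f ζ * χ ζ)‖ₑ ≤ ENNReal.ofReal (C / δ) *
        ∫⁻ z in {z | δ ≤ infDist z Ωᶜ ∧ infDist z Ωᶜ ≤ 3 * δ},
          ‖f z‖ₑ * ‖∫ ζ, k ζ / (ζ - z)‖ₑ := by
  obtain ⟨C0, hC0, hcut⟩ := cutoff
  refine ⟨C0, hC0, ?_⟩
  intro Ω hΩ hΩb f k hf hk hki δ hδ
  have hne : (Ωᶜ).Nonempty := by
    obtain ⟨R, hR⟩ := hΩb.subset_closedBall 0
    refine ⟨((|R| + 1 : ℝ) : ℂ), fun h => ?_⟩
    have h1 := hR h
    rw [mem_closedBall_zero_iff, Complex.norm_real, Real.norm_eq_abs] at h1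
    have h2 := le_abs_self (|R| + 1)
    have h3 := le_abs_self R
    linarith
  obtain ⟨χ, hχ, hχ01, hχ0, hχ1, hχd⟩ := hcut Ωᶜ δ hne hδ
  refine ⟨χ, hχ.continuous, hχ01, hχ0, hχ1, ?_⟩
  have hcid : Continuous fun z : ℂ => infDist z Ωᶜ := continuous_infDist_pt _
  set S : Set ℂ := {z | δ ≤ infDist z Ωᶜ} with hS
  have hScl : IsClosed S := isClosed_le continuous_const hcid
  have hSΩ : S ⊆ Ω := by
    intro z hz
    by_contra h
    have h1 : infDist z Ωᶜ = 0 := infDist_zero_of_mem h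
    have h2 : δ ≤ infDist z Ωᶜ := hz
    linarith
  have hSc : IsCompact S := Metric.isCompact_of_isClosed_isBounded hScl (hΩb.subset hSΩ)
  set g : ℂ → ℂ := fun z => f z * (χ z : ℂ) with hg
  have hg0 : ∀ z, z ∉ S → g z = 0 := by
    intro z hz
    have h1 : infDist z Ωᶜ < δ := not_le.1 hz
    rw [hg]
    simp only
    rw [hχ0 z h1, Complex.ofReal_zero, mul_zero]
  have hχc : ContDiff ℝ 1 fun z => (χ z : ℂ) := Complex.ofRealCLM.contDiff.comp hχ
  have hgs : ContDiff ℝ 1 g := by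
    rw [contDiff_iff_contDiffAt]
    intro z
    by_cases hz : z ∈ Ω
    · have h1 : ContDiffAt ℂ 1 f z := (hf.analyticOnNhd hΩ z hz).contDiffAt
      exact (h1.restrict_scalars ℝ).mul hχc.contDiffAt
    · have h1 : z ∈ Sᶜ := fun h => hz (hSΩ h)
      have h2 : g =ᶠ[𝓝 z] fun _ => 0 := by
        filter_upwards [hScl.isOpen_compl.mem_nhds h1] with y hy
        exact hg0 y hy
      exact contDiffAt_const.congr_of_eventuallyEq h2
  have hgc : HasCompactSupport g := HasCompactSupport.intro hSc hg0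
  set h : ℂ → ℂ := fun z => fderiv ℝ g z 1 + I * fderiv ℝ g z I with hh
  have hfc : Continuous (fderiv ℝ g) := hgs.continuous_fderiv (by simp)
  have hhc : Continuous h :=
    (hfc.clm_apply continuous_const).add (continuous_const.mul (hfc.clm_apply continuous_const))
  have hfd0 : ∀ z, z ∉ S → fderiv ℝ g z = 0 := by
    intro z hz
    have h2 : g =ᶠ[𝓝 z] fun _ => 0 := by
      filter_upwards [hScl.isOpen_compl.mem_nhds hz] with y hy
      exact hg0 y hy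
    rw [h2.fderiv_eq]
    simp
  have hh0 : ∀ z, z ∉ S → h z = 0 := by
    intro z hz
    rw [hh]
    simp only
    rw [hfd0 z hz]
    simp
  have hhs : HasCompactSupport h := HasCompactSupport.intro hSc hh0
  -- formula for `h` on `Ω`
  have hval : ∀ z ∈ Ω, h z = f z * (((fderiv ℝ χ z 1 : ℝ) : ℂ) + I * ((fderiv ℝ χ z I : ℝ) : ℂ)) := by
    intro z hz
    have h1 : HasFDerivAt f ((fderiv ℂ f z).restrictScalars ℝ) z :=
      ((hf.differentiableAt (hΩ.mem_nhds hz)).hasFDerivAt).restrictScalars ℝ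
    have h2 : HasFDerivAt χ (fderiv ℝ χ z) z := ((hχ.differentiable (by simp)) z).hasFDerivAt
    have h3 : HasFDerivAt (fun z => (χ z : ℂ)) (Complex.ofRealCLM.comp (fderiv ℝ χ z)) z :=
      Complex.ofRealCLM.hasFDerivAt.comp z h2
    have h4 := h1.mul h3
    have h5 : fderiv ℝ g z = f z • Complex.ofRealCLM.comp (fderiv ℝ χ z) +
        (χ z : ℂ) • (fderiv ℂ f z).restrictScalars ℝ := h4.fderiv
    have h6 : ∀ v, fderiv ℝ g z v = f z * ((fderiv ℝ χ z v : ℝ) : ℂ) + (χ z : ℂ) * fderiv ℂ f z v := by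
      intro v
      rw [h5]
      rfl
    have h7 : fderiv ℂ f z I = I * fderiv ℂ f z 1 := by
      have : (I : ℂ) = I • (1 : ℂ) := by simp
      conv_lhs => rw [this, map_smul]
      rw [smul_eq_mul]
    rw [hh]
    simp only
    rw [h6, h6, h7]
    linear_combination (χ z : ℂ) * fderiv ℂ f z 1 * Complex.I_mul_I
  set Sh : Set ℂ := {z | δ ≤ infDist z Ωᶜ ∧ infDist z Ωᶜ ≤ 3 * δ} with hSh
  have hShm : MeasurableSet Sh :=
    ((isClosed_le continuous_const hcid).inter (isClosed_le hcid continuous_const)).measurableSet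
  have hbound : ∀ z, ‖h z‖ₑ ≤ ENNReal.ofReal (2 * C0 / δ) * Sh.indicator (fun z => ‖f z‖ₑ) z := by
    intro z
    by_cases hz : z ∈ Sh
    · rw [indicator_of_mem hz, hval z (hSΩ hz.1), enorm_mul, mul_comm]
      gcongr
      rw [← ofReal_norm]
      apply ENNReal.ofReal_le_ofReal
      have h1 : ∀ v : ℂ, ‖v‖ = 1 → ‖((fderiv ℝ χ z v : ℝ) : ℂ)‖ ≤ C0 / δ := by
        intro v hv
        rw [Complex.norm_real]
        calc ‖fderiv ℝ χ z v‖ ≤ ‖fderiv ℝ χ z‖ * ‖v‖ := (fderiv ℝ χ z).le_opNorm _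
          _ = ‖fderiv ℝ χ z‖ := by rw [hv, mul_one]
          _ ≤ C0 / δ := hχd z
      calc ‖((fderiv ℝ χ z 1 : ℝ) : ℂ) + I * ((fderiv ℝ χ z I : ℝ) : ℂ)‖
          ≤ ‖((fderiv ℝ χ z 1 : ℝ) : ℂ)‖ + ‖I * ((fderiv ℝ χ z I : ℝ) : ℂ)‖ := norm_add_le _ _
        _ = ‖((fderiv ℝ χ z 1 : ℝ) : ℂ)‖ + ‖((fderiv ℝ χ z I : ℝ) : ℂ)‖ := by
            rw [norm_mul, Complex.norm_I, one_mul]
        _ ≤ C0 / δ + C0 / δ := add_le_add (h1 1 norm_one) (h1 I Complex.norm_I)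
        _ = 2 * C0 / δ := by ring
    · rw [indicator_of_notMem hz, mul_zero]
      have h1 : h z = 0 := by
        by_cases hzS : z ∈ S
        · have h2 : 3 * δ < infDist z Ωᶜ := by
            by_contra h3
            exact hz ⟨hzS, not_lt.1 h3⟩
          have h3 : χ =ᶠ[𝓝 z] fun _ => 1 := by
            have h4 : IsOpen {z | 3 * δ < infDist z Ωᶜ} := isOpen_lt continuous_const hcid
            filter_upwards [h4.mem_nhds h2] with y hy
            exact hχ1 y (le_of_lt hy)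
          have h5 : fderiv ℝ χ z = 0 := by
            rw [h3.fderiv_eq]; simp
          rw [hval z (hSΩ hzS), h5]
          simp
        · exact hh0 z hzS
      rw [h1, enorm_zero]
  -- Pompeiu
  have hpi : (0 : ℝ) < 2 * Real.pi := by have := Real.pi_pos; linarith
  have hpom : ∀ ζ, g ζ = (-(1 / (2 * Real.pi) : ℝ) : ℂ) * ∫ z : ℂ, h z / (z - ζ) := by
    intro ζ
    have h1 := pompeiu hgs hgc ζ
    have h2 : ∫ z : ℂ, h z / (z - ζ) = -(2 * Real.pi) * g ζ := h1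
    rw [h2]
    have h3 : ((Real.pi : ℝ) : ℂ) ≠ 0 := by exact_mod_cast Real.pi_ne_zero
    push_cast
    field_simp
  have hswap : ∫ ζ, k ζ * g ζ = ((1 / (2 * Real.pi) : ℝ) : ℂ) *
      ∫ z, h z * ∫ ζ, k ζ / (ζ - z) := by
    have h1 : ∀ ζ, k ζ * g ζ = (-(1 / (2 * Real.pi) : ℝ) : ℂ) *
        ∫ z : ℂ, k ζ * (h z / (z - ζ)) := by
      intro ζ
      rw [integral_const_mul, hpom ζ]
      ring
    simp only [h1]
    rw [integral_const_mul, integral_integral_swap (cb_fubini hk hki hhc hhs)]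
    have h2 : ∀ z, ∫ ζ : ℂ, k ζ * (h z / (z - ζ)) = -(h z * ∫ ζ, k ζ / (ζ - z)) := by
      intro z
      rw [← integral_const_mul, ← integral_neg]
      refine integral_congr_ae (Eventually.of_forall fun ζ => ?_)
      simp only
      rw [← neg_sub ζ z, div_neg]
      ring
    simp only [h2]
    rw [integral_neg]
    ring
  have hgoal : ∫ ζ, k ζ * (f ζ * χ ζ) = ∫ ζ, k ζ * g ζ := rfl
  rw [hgoal, hswap, enorm_mul]
  calc ‖((1 / (2 * Real.pi) : ℝ) : ℂ)‖ₑ * ‖∫ z, h z * ∫ ζ, k ζ / (ζ - z)‖ₑ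
      ≤ ENNReal.ofReal (1 / (2 * Real.pi)) * ∫⁻ z, ‖h z * ∫ ζ, k ζ / (ζ - z)‖ₑ := by
        gcongr
        · rw [← ofReal_norm, Complex.norm_real, Real.norm_of_nonneg (by positivity)]
        · exact enorm_integral_le_lintegral_enorm _
    _ ≤ ENNReal.ofReal (1 / (2 * Real.pi)) * ∫⁻ z, ENNReal.ofReal (2 * C0 / δ) *
          Sh.indicator (fun z => ‖f z‖ₑ * ‖∫ ζ, k ζ / (ζ - z)‖ₑ) z := by
        gcongr with z
        rw [enorm_mul]
        calc ‖h z‖ₑ * ‖∫ ζ, k ζ / (ζ - z)‖ₑ ≤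
              (ENNReal.ofReal (2 * C0 / δ) * Sh.indicator (fun z => ‖f z‖ₑ) z) *
                ‖∫ ζ, k ζ / (ζ - z)‖ₑ := by gcongr; exact hbound z
          _ = ENNReal.ofReal (2 * C0 / δ) *
              Sh.indicator (fun z => ‖f z‖ₑ * ‖∫ ζ, k ζ / (ζ - z)‖ₑ) z := by
            by_cases hz : z ∈ Sh
            · rw [indicator_of_mem hz, indicator_of_mem hz, mul_assoc]
            · rw [indicator_of_notMem hz, indicator_of_notMem hz, mul_zero, zero_mul]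
    _ = ENNReal.ofReal (1 / (2 * Real.pi)) * (ENNReal.ofReal (2 * C0 / δ) *
          ∫⁻ z in Sh, ‖f z‖ₑ * ‖∫ ζ, k ζ / (ζ - z)‖ₑ) := by
        rw [lintegral_const_mul' _ _ ENNReal.ofReal_ne_top, lintegral_indicator hShm]
    _ ≤ ENNReal.ofReal (C0 / δ) * ∫⁻ z in Sh, ‖f z‖ₑ * ‖∫ ζ, k ζ / (ζ - z)‖ₑ := by
        rw [← mul_assoc, ← ENNReal.ofReal_mul (by positivity)]
        gcongr
        have h1 := Real.pi_gt_three
        rw [div_mul_div_comm, one_mul, div_le_div_iff₀ (by positivity) hδ]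
        have h2 : 0 < C0 * δ := by positivity
        nlinarith


end Pool.Agent.Helper265.Br
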