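import Mathlib
import Pool.Agent.Helper265.CrA

set_option autoImplicit false
open Complex Set Filter Metric Topology MeasureTheory
open scoped ENNReal

namespace Pool.Agent.Helper265.Br

theorem hp_scale {R a : ℝ} {m : ℕ} (ha : R * (1 / 2) ^ m ≤ a) (ha2 : a < 2 * R) :
    ∃ j ≤ m, R * (1 / 2) ^ j ≤ a ∧ a < 2 * R * (1 / 2) ^ j := by
  classical
  have hex : ∃ j : ℕ, R * (1 / 2) ^ j ≤ a := ⟨m, ha⟩
  refine ⟨Nat.find hex, Nat.find_min' hex ha, Nat.find_spec hex, ?_⟩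
  rcases Nat.eq_zero_or_pos (Nat.find hex) with h | h
  · rw [h]; simpa using ha2
  · obtain ⟨i, hi⟩ : ∃ i, Nat.find hex = i + 1 := ⟨Nat.find hex - 1, by omega⟩
    have h2 := Nat.find_min hex (show i < Nat.find hex by omega)
    rw [not_le] at h2
    rw [hi, pow_succ]
    linarith

theorem hp_diff {d : ℝ} {z w ζ : ℂ} (hzw : ‖z - w‖ ≤ 4 * d) (hd : 0 < d)
    (ha : 8 * d ≤ ‖ζ - z‖) : ‖(ζ - z)⁻¹ - (ζ - w)⁻¹‖ ≤ 8 * d * (1 / ‖ζ - z‖ ^ 2) := by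
  have ha0 : 0 < ‖ζ - z‖ := by linarith
  have hb : ‖ζ - z‖ / 2 ≤ ‖ζ - w‖ := by
    have : ‖ζ - z‖ ≤ ‖ζ - w‖ + ‖z - w‖ := by
      have e : ζ - z = (ζ - w) - (z - w) := by ring
      rw [e]
      exact norm_sub_le _ _
    linarith
  have hb0 : 0 < ‖ζ - w‖ := by linarith
  have hz0 : ζ - z ≠ 0 := norm_pos_iff.1 ha0
  have hw0 : ζ - w ≠ 0 := norm_pos_iff.1 hb0
  have e : (ζ - z)⁻¹ - (ζ - w)⁻¹ = (z - w) / ((ζ - z) * (ζ - w)) := by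
    field_simp
    ring
  rw [e, norm_div, norm_mul, div_le_iff₀ (mul_pos ha0 hb0)]
  have e2 : 8 * d * (1 / ‖ζ - z‖ ^ 2) * (‖ζ - z‖ * ‖ζ - w‖) = 8 * d * ‖ζ - w‖ / ‖ζ - z‖ := by
    field_simp
  rw [e2, le_div_iff₀ ha0]
  have h1 : ‖z - w‖ * ‖ζ - z‖ ≤ 4 * d * ‖ζ - z‖ := mul_le_mul_of_nonneg_right hzw ha0.le
  have h2 : 4 * d * ‖ζ - z‖ ≤ 4 * d * (2 * ‖ζ - w‖) :=
    mul_le_mul_of_nonneg_left (by linarith) (by linarith)
  linarith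

theorem hp_pt {R d : ℝ} {m : ℕ} (hR : 1 ≤ R) (hd : d = (1 / 2) ^ m) {k : ℂ → ℂ}
    (hk : ∀ ζ, ζ ∉ ball (0 : ℂ) R → k ζ = 0) {z z' w : ℂ} (hz : z ∈ ball (0 : ℂ) R)
    (hzz : ‖z - z'‖ ≤ 3 * d) (hw : ‖w - z'‖ < d) (ζ : ℂ) :
    ‖k ζ / (ζ - z) - k ζ / (ζ - w)‖ₑ ≤
      8 * ENNReal.ofReal d * (∑ j ∈ Finset.range (m + 1), 4 ^ j *
        (ball z (2 * R * (1 / 2) ^ j)).indicator (fun ζ => ‖k ζ‖ₑ) ζ)
      + 3 * (ball z (8 * R * d)).indicator (fun ζ => ‖k ζ‖ₑ * ‖ζ - z‖ₑ⁻¹) ζ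
      + (ball z' (16 * d)).indicator (fun ζ => ‖k ζ‖ₑ) ζ * ‖ζ - w‖ₑ⁻¹ := by
  have hd0 : 0 < d := by rw [hd]; positivity
  have hzw : ‖z - w‖ ≤ 4 * d := by
    have e : z - w = (z - z') - (w - z') := by ring
    rw [e]
    refine (norm_sub_le _ _).trans ?_
    linarith
  by_cases hk0 : k ζ = 0
  · rw [hk0]; simp
  have hk0' : ‖k ζ‖ₑ ≠ 0 := by simpa using hk0
  by_cases hζz : ζ = z
  · have : (ball z (8 * R * d)).indicator (fun ζ => ‖k ζ‖ₑ * ‖ζ - z‖ₑ⁻¹) ζ = ⊤ := by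
      rw [indicator_of_mem]
      · rw [hζz] at hk0' ⊢
        simp only [sub_self, enorm_zero, ENNReal.inv_zero]
        exact ENNReal.mul_top hk0'
      · rw [hζz]; exact mem_ball_self (by positivity)
    rw [this]
    simp
  by_cases hζw : ζ = w
  · have : (ball z' (16 * d)).indicator (fun ζ => ‖k ζ‖ₑ) ζ * ‖ζ - w‖ₑ⁻¹ = ⊤ := by
      rw [indicator_of_mem]
      · rw [hζw] at hk0' ⊢
        simp only [sub_self, enorm_zero, ENNReal.inv_zero]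
        exact ENNReal.mul_top hk0'
      · rw [hζw, mem_ball, dist_eq_norm]; linarith
    rw [this]
    simp
  have ha0 : 0 < ‖ζ - z‖ := norm_pos_iff.2 (sub_ne_zero.2 hζz)
  have hb0 : 0 < ‖ζ - w‖ := norm_pos_iff.2 (sub_ne_zero.2 hζw)
  have hfac : ‖k ζ / (ζ - z) - k ζ / (ζ - w)‖ₑ = ‖k ζ‖ₑ * ‖(ζ - z)⁻¹ - (ζ - w)⁻¹‖ₑ := by
    rw [← enorm_mul]
    congr 1
    ring
  rw [hfac]
  have hζR : ζ ∈ ball (0 : ℂ) R := by
    by_contra h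
    exact hk0 (hk ζ h)
  have ha2 : ‖ζ - z‖ < 2 * R := by
    rw [mem_ball, dist_zero_right] at hζR hz
    have := norm_sub_le ζ z
    linarith
  by_cases hcase : 8 * R * d ≤ ‖ζ - z‖
  · -- far part
    have h8 : 8 * d ≤ ‖ζ - z‖ := by nlinarith
    have hdiff := hp_diff hzw hd0 h8
    have hRm : R * (1 / 2) ^ m ≤ ‖ζ - z‖ := by
      rw [← hd]
      have : 0 < R * d := by positivity
      linarith
    obtain ⟨j, hj, hj1, hj2⟩ := hp_scale hRm ha2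
    have hpj : (0:ℝ) < (1 / 2) ^ j := by positivity
    have hj3 : (1 / 2) ^ j ≤ ‖ζ - z‖ := by
      have : (1 / 2 : ℝ) ^ j ≤ R * (1 / 2) ^ j := by nlinarith
      linarith
    have hj4 : 1 / ‖ζ - z‖ ^ 2 ≤ 4 ^ j := by
      rw [div_le_iff₀ (by positivity)]
      have h1 : ((1 / 2 : ℝ) ^ j) ^ 2 ≤ ‖ζ - z‖ ^ 2 := pow_le_pow_left₀ hpj.le hj3 2
      have h2 : (4:ℝ) ^ j * ((1 / 2 : ℝ) ^ j) ^ 2 = 1 := by
        rw [← pow_mul, mul_comm j 2, pow_mul, ← mul_pow]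
        norm_num
      rw [← h2]
      exact mul_le_mul_of_nonneg_left h1 (by positivity)
    have hdiff2 : ‖(ζ - z)⁻¹ - (ζ - w)⁻¹‖ ≤ 8 * d * 4 ^ j :=
      hdiff.trans (mul_le_mul_of_nonneg_left hj4 (by positivity))
    have hdiff3 : ‖(ζ - z)⁻¹ - (ζ - w)⁻¹‖ₑ ≤ 8 * ENNReal.ofReal d * 4 ^ j := by
      rw [← ofReal_norm]
      refine (ENNReal.ofReal_le_ofReal hdiff2).trans (le_of_eq ?_)
      rw [ENNReal.ofReal_mul (by positivity), ENNReal.ofReal_mul (by norm_num),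
        ENNReal.ofReal_pow (by norm_num)]
      norm_num
    have hterm : 4 ^ j * ‖k ζ‖ₑ ≤ ∑ j ∈ Finset.range (m + 1), 4 ^ j *
        (ball z (2 * R * (1 / 2) ^ j)).indicator (fun ζ => ‖k ζ‖ₑ) ζ := by
      have h1 := Finset.single_le_sum (f := fun j : ℕ => (4:ℝ≥0∞) ^ j *
        (ball z (2 * R * (1 / 2) ^ j)).indicator (fun ζ => ‖k ζ‖ₑ) ζ)
        (s := Finset.range (m + 1)) (fun i _ => zero_le) (Finset.mem_range.2 (by omega : j < m + 1))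
      refine le_trans (le_of_eq ?_) h1
      rw [indicator_of_mem]
      rw [mem_ball, dist_eq_norm]
      exact hj2
    rw [add_assoc]
    refine le_trans ?_ le_self_add
    calc ‖k ζ‖ₑ * ‖(ζ - z)⁻¹ - (ζ - w)⁻¹‖ₑ ≤ ‖k ζ‖ₑ * (8 * ENNReal.ofReal d * 4 ^ j) := by
          gcongr
      _ = 8 * ENNReal.ofReal d * (4 ^ j * ‖k ζ‖ₑ) := by ring
      _ ≤ _ := by gcongr
  · -- near part
    have hcase' : ‖ζ - z‖ < 8 * R * d := not_le.mp hcase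
    have hmem : ζ ∈ ball z (8 * R * d) := by rw [mem_ball, dist_eq_norm]; exact hcase'
    rw [indicator_of_mem hmem]
    have hdiff : ‖(ζ - z)⁻¹ - (ζ - w)⁻¹‖ₑ ≤ ‖ζ - z‖ₑ⁻¹ + ‖ζ - w‖ₑ⁻¹ := by
      refine (enorm_sub_le).trans (le_of_eq ?_)
      rw [enorm_inv (sub_ne_zero.2 hζz), enorm_inv (sub_ne_zero.2 hζw)]
    rw [add_assoc]
    refine le_trans ?_ le_add_self
    by_cases hc2 : ζ ∈ ball z' (16 * d)
    · rw [indicator_of_mem hc2]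
      calc ‖k ζ‖ₑ * ‖(ζ - z)⁻¹ - (ζ - w)⁻¹‖ₑ ≤ ‖k ζ‖ₑ * (‖ζ - z‖ₑ⁻¹ + ‖ζ - w‖ₑ⁻¹) := by
            gcongr
        _ = 1 * (‖k ζ‖ₑ * ‖ζ - z‖ₑ⁻¹) + ‖k ζ‖ₑ * ‖ζ - w‖ₑ⁻¹ := by ring
        _ ≤ _ := by
          gcongr
          norm_num
    · rw [indicator_of_notMem hc2, zero_mul, add_zero]
      rw [mem_ball, dist_eq_norm, not_lt] at hc2
      have hb15 : 15 * d ≤ ‖ζ - w‖ := by
        have : ‖ζ - z'‖ ≤ ‖ζ - w‖ + ‖w - z'‖ := by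
          have e : ζ - z' = (ζ - w) + (w - z') := by ring
          rw [e]
          exact norm_add_le _ _
        linarith
      have hab : ‖ζ - z‖ ≤ 2 * ‖ζ - w‖ := by
        have : ‖ζ - z‖ ≤ ‖ζ - w‖ + ‖z - w‖ := by
          have e : ζ - z = (ζ - w) - (z - w) := by ring
          rw [e]
          exact norm_sub_le _ _
        linarith
      have hinv : ‖ζ - w‖ₑ⁻¹ ≤ 2 * ‖ζ - z‖ₑ⁻¹ := by
        rw [← ofReal_norm, ← ofReal_norm, ← ENNReal.ofReal_inv_of_pos hb0,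
          ← ENNReal.ofReal_inv_of_pos ha0]
        have e2 : (2:ℝ≥0∞) = ENNReal.ofReal 2 := by norm_num
        rw [e2, ← ENNReal.ofReal_mul (by norm_num)]
        apply ENNReal.ofReal_le_ofReal
        rw [inv_eq_one_div, div_le_iff₀ hb0]
        have e3 : 2 * ‖ζ - z‖⁻¹ * ‖ζ - w‖ = (2 * ‖ζ - w‖) / ‖ζ - z‖ := by
          field_simp
        rw [e3, le_div_iff₀ ha0]
        linarith
      calc ‖k ζ‖ₑ * ‖(ζ - z)⁻¹ - (ζ - w)⁻¹‖ₑ ≤ ‖k ζ‖ₑ * (‖ζ - z‖ₑ⁻¹ + 2 * ‖ζ - z‖ₑ⁻¹) := by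
            gcongr
            exact hdiff.trans (by gcongr)
        _ = 3 * (‖k ζ‖ₑ * ‖ζ - z‖ₑ⁻¹) := by ring

theorem hp_choose {s : ℝ} (hs1 : 1 < s) {C0 : ℝ} (hC0 : 0 < C0)
    (hgr : ∀ (z : ℂ) (d ε : ℝ), 0 < d → 0 < ε →
      ∀ G : ℂ → ℝ≥0∞, Measurable G → (∀ ζ, ζ ∉ ball z (16 * d) → G ζ = 0) →
      ∫⁻ ζ, G ζ ^ s ≤ ENNReal.ofReal (ε ^ s) →
      ∃ r ∈ Ioo 0 d, ∀ w : ℂ, ‖w - z‖ = r →
          ∫⁻ ζ, G ζ * ‖ζ - w‖ₑ⁻¹ ≤ ENNReal.ofReal (C0 * ε * d ^ (1 - 2 / s)))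
    {k : ℂ → ℂ} (hk : Measurable k) {Z : Set ℂ} {z z' : ℂ} {m : ℕ}
    (hzz : ‖z - z'‖ ≤ 3 * (1 / 2) ^ m)
    (hZ : ∀ r : ℝ, 0 < r → r < (1 / 2) ^ m → ∃ w ∈ Z, ‖w - z'‖ = r)
    (hfin : ∫⁻ ζ in ball z (32 * (1 / 2) ^ m), ‖k ζ‖ₑ ^ s ≠ ⊤) :
    ∃ w ∈ Z, ‖w - z'‖ < (1 / 2) ^ m ∧
      ∫⁻ ζ, (ball z' (16 * (1 / 2) ^ m)).indicator (fun ζ => ‖k ζ‖ₑ) ζ * ‖ζ - w‖ₑ⁻¹ ≤
        ENNReal.ofReal C0 * ENNReal.ofReal ((1 / 2) ^ m) *
          (4 ^ m * ∫⁻ ζ in ball z (32 * (1 / 2) ^ m), ‖k ζ‖ₑ ^ s) ^ (1 / s) := by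
  set d : ℝ := (1 / 2) ^ m with hd
  have hd0 : 0 < d := by rw [hd]; positivity
  have hs0 : 0 < s := by linarith
  set I3 := ∫⁻ ζ in ball z (32 * d), ‖k ζ‖ₑ ^ s with hI3
  set G : ℂ → ℝ≥0∞ := (ball z' (16 * d)).indicator (fun ζ => ‖k ζ‖ₑ) with hG
  have hGm : Measurable G := (hk.enorm).indicator measurableSet_ball
  have hsub : ball z' (16 * d) ⊆ ball z (32 * d) := by
    intro x hx
    rw [mem_ball, dist_eq_norm] at hx ⊢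
    have e : x - z = (x - z') - (z - z') := by ring
    rw [e]
    refine (norm_sub_le _ _).trans_lt ?_
    linarith
  have hGs : ∫⁻ ζ, G ζ ^ s ≤ I3 := by
    have e : ∀ ζ, G ζ ^ s = (ball z' (16 * d)).indicator (fun ζ => ‖k ζ‖ₑ ^ s) ζ := by
      intro ζ
      rw [hG]
      by_cases h : ζ ∈ ball z' (16 * d)
      · rw [indicator_of_mem h, indicator_of_mem h]
      · rw [indicator_of_notMem h, indicator_of_notMem h, ENNReal.zero_rpow_of_pos hs0]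
    rw [lintegral_congr e, lintegral_indicator measurableSet_ball]
    exact lintegral_mono_set hsub
  by_cases h0 : I3 = 0
  · -- G vanishes almost everywhere
    obtain ⟨w, hw, hwr⟩ := hZ (d / 2) (by positivity) (by linarith)
    refine ⟨w, hw, by rw [hwr]; linarith, ?_⟩
    have h1 : ∫⁻ ζ, G ζ ^ s = 0 := le_antisymm (hGs.trans h0.le) zero_le
    rw [lintegral_eq_zero_iff (hGm.pow_const s)] at h1
    have hmw : Measurable fun ζ : ℂ => ‖ζ - w‖ₑ⁻¹ := by fun_prop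
    have hmGw : Measurable fun ζ : ℂ => G ζ * ‖ζ - w‖ₑ⁻¹ := hGm.mul hmw
    have h2 : ∫⁻ ζ, G ζ * ‖ζ - w‖ₑ⁻¹ = 0 := by
      rw [lintegral_eq_zero_iff hmGw]
      filter_upwards [h1] with ζ hζ
      simp only [Pi.zero_apply] at hζ ⊢
      rw [ENNReal.rpow_eq_zero_iff_of_pos hs0] at hζ
      rw [hζ, zero_mul]
    rw [h2]
    exact zero_le
  · have hI : 0 < I3.toReal := ENNReal.toReal_pos h0 hfin
    have hε : 0 < I3.toReal ^ (1 / s) := Real.rpow_pos_of_pos hI _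
    have hεs : ENNReal.ofReal ((I3.toReal ^ (1 / s)) ^ s) = I3 := by
      rw [← Real.rpow_mul hI.le, one_div, inv_mul_cancel₀ hs0.ne', Real.rpow_one,
        ENNReal.ofReal_toReal hfin]
    obtain ⟨r, hr, hrw⟩ := hgr z' d (I3.toReal ^ (1 / s)) hd0 hε G hGm
      (fun ζ hζ => by rw [hG]; exact indicator_of_notMem hζ _) (by rw [hεs]; exact hGs)
    obtain ⟨w, hw, hwr⟩ := hZ r hr.1 hr.2
    refine ⟨w, hw, by rw [hwr]; exact hr.2, (hrw w hwr).trans (le_of_eq ?_)⟩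
    have e1 : (4 ^ m * I3) ^ (1 / s) = ENNReal.ofReal ((4 ^ m * I3.toReal) ^ (1 / s)) := by
      rw [← ENNReal.ofReal_rpow_of_pos (by positivity), ENNReal.ofReal_mul (by positivity),
        ENNReal.ofReal_toReal hfin, ENNReal.ofReal_pow (by norm_num)]
      norm_num
    rw [e1, ← ENNReal.ofReal_mul hC0.le, ← ENNReal.ofReal_mul (by positivity)]
    congr 1
    rw [Real.mul_rpow (by positivity) hI.le]
    have e2 : d ^ (1 - 2 / s) = d * ((4:ℝ) ^ m) ^ (1 / s) := by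
      rw [sub_eq_add_neg, Real.rpow_add hd0, Real.rpow_one]
      congr 1
      have e3 : (4:ℝ) ^ m = d ^ (-2 : ℝ) := by
        rw [Real.rpow_neg hd0.le, hd]
        have : (((1:ℝ) / 2) ^ m) ^ (2:ℝ) = (((1:ℝ) / 2) ^ m) ^ (2:ℕ) := by
          rw [← Real.rpow_natCast]; norm_num
        rw [this, ← pow_mul, mul_comm m 2, pow_mul, ← inv_pow]
        norm_num
      rw [e3, ← Real.rpow_mul hd0.le]
      congr 1
      ring
    rw [e2]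
    ring

theorem hardy_pt {s R : ℝ} (hs1 : 1 < s) (hs2 : s < 2) (hR : 1 ≤ R) :
    ∃ C : ℝ≥0∞, C ≠ ∞ ∧ ∀ k : ℂ → ℂ, Measurable k → (∀ ζ, ζ ∉ ball (0 : ℂ) R → k ζ = 0) →
      ∀ (Z : Set ℂ) (z z' : ℂ) (m : ℕ),
      (∀ w ∈ Z, Integrable (fun ζ => k ζ / (ζ - w)) ∧ ∫ ζ, k ζ / (ζ - w) = 0) →
      z ∈ ball (0 : ℂ) R → ‖z - z'‖ ≤ 3 * (1 / 2) ^ m →
      (∀ r : ℝ, 0 < r → r < (1 / 2) ^ m → ∃ w ∈ Z, ‖w - z'‖ = r) →
      2 ^ m * ‖∫ ζ, k ζ / (ζ - z)‖ₑ ≤ C * (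
        (∑ j ∈ Finset.range (m + 1), 4 ^ j * ∫⁻ ζ in ball z (2 * R * (1 / 2) ^ j), ‖k ζ‖ₑ) +
        2 ^ m * (∫⁻ ζ in ball z (8 * R * (1 / 2) ^ m), ‖k ζ‖ₑ * ‖ζ - z‖ₑ⁻¹) +
        (4 ^ m * ∫⁻ ζ in ball z (32 * (1 / 2) ^ m), ‖k ζ‖ₑ ^ s) ^ (1 / s)) := by
  obtain ⟨C0, hC0, hgr⟩ := gr_scaled hs1 hs2
  have hs0 : 0 < s := by linarith
  refine ⟨8 + ENNReal.ofReal C0, by finiteness, ?_⟩
  intro k hk hkR Z z z' m hZi hz hzz hZ
  by_cases hfin : ∫⁻ ζ in ball z (32 * (1 / 2) ^ m), ‖k ζ‖ₑ ^ s = ⊤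
  · have : (4 ^ m * ∫⁻ ζ in ball z (32 * (1 / 2) ^ m), ‖k ζ‖ₑ ^ s) ^ (1 / s) = ⊤ := by
      rw [hfin, ENNReal.mul_top (by positivity), ENNReal.top_rpow_of_pos (by positivity)]
    rw [this, add_top, ENNReal.mul_top]
    · exact le_top
    · intro h
      rw [add_eq_zero] at h
      norm_num at h
  obtain ⟨w, hw, hwd, hwI⟩ := hp_choose hs1 hC0 hgr hk hzz hZ hfin
  set d : ℝ := (1 / 2) ^ m with hd
  have hd0 : 0 < d := by rw [hd]; positivity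
  set I3 := ∫⁻ ζ in ball z (32 * d), ‖k ζ‖ₑ ^ s with hI3
  by_cases hint : Integrable (fun ζ => k ζ / (ζ - z))
  swap
  · rw [integral_undef hint]
    simp
  obtain ⟨hwi, hw0⟩ := hZi w hw
  have e1 : ∫ ζ, k ζ / (ζ - z) = ∫ ζ, (k ζ / (ζ - z) - k ζ / (ζ - w)) := by
    rw [integral_sub hint hwi, hw0, sub_zero]
  have hkm : Measurable fun ζ => ‖k ζ‖ₑ := hk.enorm
  have hm1 : ∀ r : ℝ, Measurable ((ball z r).indicator (fun ζ => ‖k ζ‖ₑ)) := fun r =>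
    hkm.indicator measurableSet_ball
  have hm2 : Measurable ((ball z (8 * R * d)).indicator (fun ζ => ‖k ζ‖ₑ * ‖ζ - z‖ₑ⁻¹)) :=
    (hkm.mul ((measurable_id.sub_const z).enorm.inv)).indicator measurableSet_ball
  have hm0 : Measurable (fun ζ => ∑ j ∈ Finset.range (m + 1), (4:ℝ≥0∞) ^ j *
        (ball z (2 * R * (1 / 2) ^ j)).indicator (fun ζ => ‖k ζ‖ₑ) ζ) :=
    Finset.measurable_sum _ fun j _ => (hm1 _).const_mul _
  have hbound : ‖∫ ζ, k ζ / (ζ - z)‖ₑ ≤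
      8 * ENNReal.ofReal d * (∑ j ∈ Finset.range (m + 1), 4 ^ j *
        ∫⁻ ζ in ball z (2 * R * (1 / 2) ^ j), ‖k ζ‖ₑ)
      + 3 * (∫⁻ ζ in ball z (8 * R * d), ‖k ζ‖ₑ * ‖ζ - z‖ₑ⁻¹)
      + ENNReal.ofReal C0 * ENNReal.ofReal d * (4 ^ m * I3) ^ (1 / s) := by
    rw [e1]
    refine (enorm_integral_le_lintegral_enorm _).trans ?_
    refine (lintegral_mono (hp_pt hR hd hkR hz hzz hwd)).trans ?_
    rw [lintegral_add_left, lintegral_add_left, lintegral_const_mul _ hm0,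
      lintegral_finsetSum _ (fun j _ => (hm1 _).const_mul _), lintegral_const_mul _ hm2,
      lintegral_indicator measurableSet_ball]
    · refine add_le_add (add_le_add (le_of_eq ?_) le_rfl) hwI
      congr 1
      refine Finset.sum_congr rfl fun j _ => ?_
      rw [lintegral_const_mul _ (hm1 _), lintegral_indicator measurableSet_ball]
    · exact hm0.const_mul _
    · exact (hm0.const_mul _).add (hm2.const_mul _)
  have h2d : (2:ℝ≥0∞) ^ m * ENNReal.ofReal d = 1 := by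
    have : (2:ℝ≥0∞) ^ m = ENNReal.ofReal (2 ^ m) := by
      rw [ENNReal.ofReal_pow (by norm_num)]; norm_num
    rw [this, ← ENNReal.ofReal_mul (by positivity), hd, ← mul_pow]
    norm_num
  set S1 := ∑ j ∈ Finset.range (m + 1), (4:ℝ≥0∞) ^ j *
        ∫⁻ ζ in ball z (2 * R * (1 / 2) ^ j), ‖k ζ‖ₑ with hS1
  set S2 := ∫⁻ ζ in ball z (8 * R * d), ‖k ζ‖ₑ * ‖ζ - z‖ₑ⁻¹ with hS2
  set S3 := (4 ^ m * I3) ^ (1 / s) with hS3
  calc 2 ^ m * ‖∫ ζ, k ζ / (ζ - z)‖ₑ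
      ≤ 2 ^ m * (8 * ENNReal.ofReal d * S1 + 3 * S2 +
          ENNReal.ofReal C0 * ENNReal.ofReal d * S3) := by gcongr
    _ = (2 ^ m * ENNReal.ofReal d) * (8 * S1) + 3 * (2 ^ m * S2) +
          (2 ^ m * ENNReal.ofReal d) * (ENNReal.ofReal C0 * S3) := by ring
    _ = 8 * S1 + 3 * (2 ^ m * S2) + ENNReal.ofReal C0 * S3 := by rw [h2d, one_mul, one_mul]
    _ ≤ (8 + ENNReal.ofReal C0) * S1 + (8 + ENNReal.ofReal C0) * (2 ^ m * S2) +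
          (8 + ENNReal.ofReal C0) * S3 := by
        gcongr
        · exact le_self_add
        · refine le_trans ?_ (le_self_add)
          norm_num
        · exact le_add_self
    _ = _ := by ring


end Pool.Agent.Helper265.Br
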