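import Mathlib

set_option autoImplicit false
open Complex Set Filter Metric Topology MeasureTheory
open scoped ENNReal

namespace Pool.Agent.Helper265.Br

theorem pairing {p q : ℝ≥0∞} [ENNReal.HolderConjugate p q] (hp : p ≠ ∞) {s : ℝ} (hs : 1 ≤ s)
    (hsq : ENNReal.ofReal s ≤ q) (f k : ℂ → ℂ) (hf : AEStronglyMeasurable f volume)
    (hk : Measurable k) (κ : ℂ → ℝ≥0∞) (hκ : Measurable κ) (hκf : ∫⁻ h, κ h ≠ ∞) :
    ∫⁻ z, ‖f z‖ₑ * (∫⁻ h, κ h * ‖k (z + h)‖ₑ ^ s) ^ (1 / s) ≤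
      (∫⁻ h, κ h) ^ (1 / s) * (eLpNorm f p volume * eLpNorm k q volume) := by
  have hs0 : 0 < s := by linarith
  set ν : Measure ℂ := volume.withDensity κ with hν
  have hfin : IsFiniteMeasure ν := isFiniteMeasure_withDensity hκf
  have huniv : ν Set.univ = ∫⁻ h, κ h := by
    rw [hν, withDensity_apply _ MeasurableSet.univ, Measure.restrict_univ]
  have hkz : ∀ z : ℂ, Measurable (fun h => k (z + h)) := fun z => hk.comp (measurable_const_add z)
  -- the inner integral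
  have hinner : ∀ z : ℂ, (∫⁻ h, κ h * ‖k (z + h)‖ₑ ^ s) = ∫⁻ h, ‖k (z + h)‖ₑ ^ s ∂ν := by
    intro z
    rw [hν, lintegral_withDensity_eq_lintegral_mul volume hκ ((hkz z).enorm.pow_const s)]
    rfl
  have hV : ∀ z : ℂ, (∫⁻ h, κ h * ‖k (z + h)‖ₑ ^ s) ^ (1 / s)
      = eLpNorm (fun h => k (z + h)) (ENNReal.ofReal s) ν := by
    intro z
    rw [eLpNorm_eq_lintegral_rpow_enorm_toReal (by simpa using hs0) ENNReal.ofReal_ne_top,
      ENNReal.toReal_ofReal hs0.le, hinner]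
  have hcmp : ∀ z : ℂ, (∫⁻ h, κ h * ‖k (z + h)‖ₑ ^ s) ^ (1 / s)
      ≤ eLpNorm (fun h => k (z + h)) q ν * (∫⁻ h, κ h) ^ (1 / s - 1 / q.toReal) := by
    intro z
    rw [hV, ← huniv]
    have := eLpNorm_le_eLpNorm_mul_rpow_measure_univ hsq (hkz z).aestronglyMeasurable (μ := ν)
    rwa [ENNReal.toReal_ofReal hs0.le] at this
  by_cases hq : q = ∞
  · have hp1 : p = 1 := by
      have h := (ENNReal.HolderConjugate.inv_add_inv_eq_one p q)
      rw [hq] at h
      simpa using h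
    subst hq
    have hb : ∀ z : ℂ, (∫⁻ h, κ h * ‖k (z + h)‖ₑ ^ s) ^ (1 / s)
        ≤ eLpNorm k ∞ volume * (∫⁻ h, κ h) ^ (1 / s) := by
      intro z
      refine (hcmp z).trans ?_
      simp only [ENNReal.toReal_top, div_zero, sub_zero]
      gcongr
      rw [eLpNorm_exponent_top]
      refine (eLpNormEssSup_mono_measure _ (withDensity_absolutelyContinuous volume κ)).trans ?_
      rw [← eLpNorm_exponent_top]
      exact (eLpNorm_comp_measurePreserving (p := ∞) hk.aestronglyMeasurable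
        (measurePreserving_add_left volume z)).le
    calc ∫⁻ z, ‖f z‖ₑ * (∫⁻ h, κ h * ‖k (z + h)‖ₑ ^ s) ^ (1 / s)
        ≤ ∫⁻ z, ‖f z‖ₑ * (eLpNorm k ∞ volume * (∫⁻ h, κ h) ^ (1 / s)) := by
          apply lintegral_mono
          intro z
          exact mul_le_mul_right (hb z) _
      _ = (∫⁻ z, ‖f z‖ₑ) * (eLpNorm k ∞ volume * (∫⁻ h, κ h) ^ (1 / s)) :=
          lintegral_mul_const'' _ hf.enorm
      _ = (∫⁻ h, κ h) ^ (1 / s) * (eLpNorm f p volume * eLpNorm k ∞ volume) := by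
          rw [hp1, eLpNorm_one_eq_lintegral_enorm]
          ring
      _ ≤ _ := le_rfl
  · -- finite exponents
    have hp1 : 1 ≤ p := ENNReal.HolderConjugate.one_le p q
    have hq1 : 1 ≤ q := by
      have : ENNReal.HolderConjugate q p := inferInstance
      exact ENNReal.HolderConjugate.one_le q p
    have hpne1 : p ≠ 1 := by
      intro h
      have h2 := (ENNReal.HolderConjugate.inv_add_inv_eq_one p q)
      rw [h] at h2
      simp at h2
      exact hq h2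
    have hplt : 1 < p := lt_of_le_of_ne hp1 (Ne.symm hpne1)
    have hpr : 1 < p.toReal := by
      have := (ENNReal.toReal_lt_toReal ENNReal.one_ne_top hp).2 hplt
      simpa using this
    have hpq : p.toReal.HolderConjugate q.toReal := ENNReal.HolderConjugate.toReal hpr
    have hp0 : p ≠ 0 := (lt_of_lt_of_le one_pos hp1).ne'
    have hq0 : q ≠ 0 := (lt_of_lt_of_le one_pos hq1).ne'
    have hq'pos : 0 < q.toReal := ENNReal.toReal_pos hq0 hq
    have hsq' : s ≤ q.toReal := by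
      have := ENNReal.toReal_mono hq hsq
      rwa [ENNReal.toReal_ofReal hs0.le] at this
    have hmeas2 : Measurable (fun zh : ℂ × ℂ => κ zh.2 * ‖k (zh.1 + zh.2)‖ₑ ^ s) :=
      (hκ.comp measurable_snd).mul
        (((hk.comp (measurable_fst.add measurable_snd)).enorm).pow_const s)
    have hVmeas : Measurable (fun z : ℂ => (∫⁻ h, κ h * ‖k (z + h)‖ₑ ^ s) ^ (1 / s)) :=
      (hmeas2.lintegral_prod_right').pow_const _
    have hH := ENNReal.lintegral_mul_le_Lp_mul_Lq volume hpq hf.enorm hVmeas.aemeasurable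
    have hN : ∫⁻ z, ((∫⁻ h, κ h * ‖k (z + h)‖ₑ ^ s) ^ (1 / s)) ^ q.toReal
        ≤ (∫⁻ h, κ h) ^ (q.toReal / s) * ∫⁻ z, ‖k z‖ₑ ^ q.toReal := by
      have h1 : ∀ z : ℂ, ((∫⁻ h, κ h * ‖k (z + h)‖ₑ ^ s) ^ (1 / s)) ^ q.toReal
          ≤ (∫⁻ h, ‖k (z + h)‖ₑ ^ q.toReal ∂ν) * (∫⁻ h, κ h) ^ (q.toReal / s - 1) := by
        intro z
        have h2 := ENNReal.rpow_le_rpow (hcmp z) hq'pos.le
        refine h2.trans ?_
        rw [ENNReal.mul_rpow_of_nonneg _ _ hq'pos.le, ← ENNReal.rpow_mul,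
          eLpNorm_eq_lintegral_rpow_enorm_toReal hq0 hq, ← ENNReal.rpow_mul]
        have e1 : 1 / q.toReal * q.toReal = 1 := by field_simp
        have e2 : (1 / s - 1 / q.toReal) * q.toReal = q.toReal / s - 1 := by field_simp
        rw [e1, e2, ENNReal.rpow_one]
      have hmeas3 : Measurable (fun zh : ℂ × ℂ => ‖k (zh.1 + zh.2)‖ₑ ^ q.toReal) :=
        ((hk.comp (measurable_fst.add measurable_snd)).enorm).pow_const _
      calc ∫⁻ z, ((∫⁻ h, κ h * ‖k (z + h)‖ₑ ^ s) ^ (1 / s)) ^ q.toReal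
          ≤ ∫⁻ z, (∫⁻ h, ‖k (z + h)‖ₑ ^ q.toReal ∂ν) * (∫⁻ h, κ h) ^ (q.toReal / s - 1) :=
            lintegral_mono h1
        _ = (∫⁻ z, ∫⁻ h, ‖k (z + h)‖ₑ ^ q.toReal ∂ν) * (∫⁻ h, κ h) ^ (q.toReal / s - 1) :=
            lintegral_mul_const _ hmeas3.lintegral_prod_right'
        _ = (∫⁻ h, (∫⁻ z, ‖k (z + h)‖ₑ ^ q.toReal) ∂ν) * (∫⁻ h, κ h) ^ (q.toReal / s - 1) := by
            rw [lintegral_lintegral_swap (f := fun z h : ℂ => ‖k (z + h)‖ₑ ^ q.toReal)
              hmeas3.aemeasurable]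
        _ = (∫⁻ _h, (∫⁻ z, ‖k z‖ₑ ^ q.toReal) ∂ν) * (∫⁻ h, κ h) ^ (q.toReal / s - 1) := by
            congr 2
            funext h
            exact lintegral_add_right_eq_self (fun z => ‖k z‖ₑ ^ q.toReal) h
        _ = ((∫⁻ z, ‖k z‖ₑ ^ q.toReal) * ∫⁻ h, κ h) * (∫⁻ h, κ h) ^ (q.toReal / s - 1) := by
            rw [lintegral_const, huniv]
        _ = (∫⁻ h, κ h) ^ (q.toReal / s) * ∫⁻ z, ‖k z‖ₑ ^ q.toReal := by
            have hge : 0 ≤ q.toReal / s - 1 := by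
              rw [sub_nonneg, le_div_iff₀ hs0]; linarith
            have e3 : (∫⁻ h, κ h) ^ (q.toReal / s)
                = (∫⁻ h, κ h) * (∫⁻ h, κ h) ^ (q.toReal / s - 1) := by
              conv_lhs => rw [show q.toReal / s = 1 + (q.toReal / s - 1) by ring]
              rw [ENNReal.rpow_add_of_nonneg _ _ zero_le_one hge, ENNReal.rpow_one]
            rw [e3]; ring
    calc ∫⁻ z, ‖f z‖ₑ * (∫⁻ h, κ h * ‖k (z + h)‖ₑ ^ s) ^ (1 / s)
        ≤ (∫⁻ z, ‖f z‖ₑ ^ p.toReal) ^ (1 / p.toReal) *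
          (∫⁻ z, ((∫⁻ h, κ h * ‖k (z + h)‖ₑ ^ s) ^ (1 / s)) ^ q.toReal) ^ (1 / q.toReal) := hH
      _ ≤ (∫⁻ z, ‖f z‖ₑ ^ p.toReal) ^ (1 / p.toReal) *
          ((∫⁻ h, κ h) ^ (q.toReal / s) * ∫⁻ z, ‖k z‖ₑ ^ q.toReal) ^ (1 / q.toReal) := by
          gcongr
      _ = (∫⁻ h, κ h) ^ (1 / s) * (eLpNorm f p volume * eLpNorm k q volume) := by
          rw [ENNReal.mul_rpow_of_nonneg _ _ (by positivity), ← ENNReal.rpow_mul,
            eLpNorm_eq_lintegral_rpow_enorm_toReal hp0 hp,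
            eLpNorm_eq_lintegral_rpow_enorm_toReal hq0 hq]
          have e4 : q.toReal / s * (1 / q.toReal) = 1 / s := by field_simp
          rw [e4]; ring


end Pool.Agent.Helper265.Br
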