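import Mathlib
import Pool.Agent.Helper265.CrM

set_option autoImplicit false
open Complex Set Filter Metric Topology MeasureTheory
open scoped ENNReal

namespace Pool.Agent.Helper265.Br

theorem tr (w F : ℂ → ℝ≥0∞) (z : ℂ) (ρ : ℝ) :
    ∫⁻ ζ in ball z ρ, w (ζ - z) * F ζ = ∫⁻ h, (ball (0:ℂ) ρ).indicator w h * F (z + h) := by
  rw [← lintegral_indicator measurableSet_ball,
    ← lintegral_add_left_eq_self ((ball z ρ).indicator fun ζ => w (ζ - z) * F ζ) z]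
  refine lintegral_congr fun h => ?_
  by_cases hh : h ∈ ball (0:ℂ) ρ
  · have h1 : z + h ∈ ball z ρ := by simpa [mem_ball, dist_eq_norm] using hh
    rw [indicator_of_mem h1, indicator_of_mem hh]
    simp
  · have h1 : z + h ∉ ball z ρ := by simpa [mem_ball, dist_eq_norm] using hh
    rw [indicator_of_notMem h1, indicator_of_notMem hh, zero_mul]

theorem volj (a : ℝ) (ha : 0 ≤ a) (j : ℕ) :
    (4:ℝ≥0∞) ^ j * volume (ball (0:ℂ) (a * (1 / 2) ^ j)) =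
      ENNReal.ofReal a ^ 2 * (NNReal.pi : ℝ≥0∞) := by
  rw [Complex.volume_ball, ENNReal.ofReal_mul ha, mul_pow]
  have h1 : (4:ℝ≥0∞) ^ j * ENNReal.ofReal ((1 / 2) ^ j) ^ 2 = 1 := by
    have h4 : (4:ℝ≥0∞) ^ j = ENNReal.ofReal (4 ^ j) := by
      rw [ENNReal.ofReal_pow (by norm_num)]; norm_num
    rw [h4, ← ENNReal.ofReal_pow (by positivity), ← ENNReal.ofReal_mul (by positivity)]
    have h5 : (4:ℝ) ^ j * ((1 / 2) ^ j) ^ 2 = 1 := by
      rw [← pow_mul, mul_comm j 2, pow_mul, ← mul_pow]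
      norm_num
    rw [h5, ENNReal.ofReal_one]
  calc (4:ℝ≥0∞) ^ j * (ENNReal.ofReal a ^ 2 * ENNReal.ofReal ((1 / 2) ^ j) ^ 2 *
      (NNReal.pi : ℝ≥0∞)) = ((4:ℝ≥0∞) ^ j * ENNReal.ofReal ((1 / 2) ^ j) ^ 2) *
        (ENNReal.ofReal a ^ 2 * (NNReal.pi : ℝ≥0∞)) := by ring
    _ = _ := by rw [h1, one_mul]

theorem kerb (ρ : ℝ) (hρ : 0 < ρ) :
    ∫⁻ h in ball (0:ℂ) ρ, ‖h‖ₑ⁻¹ ≤
      ENNReal.ofReal ρ * ∑' n : ℕ, ENNReal.ofReal (8 * (1 / 2) ^ n) * (NNReal.pi : ℝ≥0∞) := by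
  have h1 : ∀ h : ℂ, h ≠ 0 → (ball (0:ℂ) ρ).indicator (fun h => ‖h‖ₑ⁻¹) h ≤
      ∑' n : ℕ, (ball (0:ℂ) (2 * ρ * (1 / 2) ^ n)).indicator
        (fun _ => ENNReal.ofReal (2 ^ (n + 1) / ρ)) h := by
    intro h hne
    by_cases hh : h ∈ ball (0:ℂ) ρ
    · have hn : 0 < ‖h‖ := norm_pos_iff.2 hne
      have hh' : ‖h‖ < ρ := by simpa using hh
      obtain ⟨n, hn1, hn2⟩ := exists_nat_pow_near_of_lt_one (x := ‖h‖ / ρ) (y := (1 / 2 : ℝ))
        (by positivity) ((div_le_one hρ).2 hh'.le) (by norm_num) (by norm_num)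
      refine le_trans ?_ (ENNReal.le_tsum n)
      have hmem : h ∈ ball (0:ℂ) (2 * ρ * (1 / 2) ^ n) := by
        rw [mem_ball_zero_iff]
        rw [div_le_iff₀ hρ] at hn2
        have : 0 < (1 / 2 : ℝ) ^ n * ρ := by positivity
        linarith
      rw [indicator_of_mem hh, indicator_of_mem hmem, ← ofReal_norm,
        ← ENNReal.ofReal_inv_of_pos hn]
      apply ENNReal.ofReal_le_ofReal
      rw [lt_div_iff₀ hρ] at hn1
      rw [inv_eq_one_div, div_le_div_iff₀ hn hρ]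
      have h2 : (2:ℝ) ^ (n + 1) * (1 / 2) ^ (n + 1) = 1 := by
        rw [← mul_pow]; norm_num
      have h3 : (0:ℝ) < 2 ^ (n + 1) := by positivity
      nlinarith
    · rw [indicator_of_notMem hh]
      exact zero_le
  have h2 : ∫⁻ h, (ball (0:ℂ) ρ).indicator (fun h => ‖h‖ₑ⁻¹) h ≤
      ∫⁻ h, ∑' n : ℕ, (ball (0:ℂ) (2 * ρ * (1 / 2) ^ n)).indicator
        (fun _ => ENNReal.ofReal (2 ^ (n + 1) / ρ)) h := by
    apply lintegral_mono_ae
    have : ∀ᵐ h : ℂ, h ≠ 0 := by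
      rw [ae_iff]; simp
    filter_upwards [this] with h hh using h1 h hh
  rw [← lintegral_indicator measurableSet_ball]
  refine h2.trans (le_of_eq ?_)
  rw [lintegral_tsum (fun n => (measurable_const.indicator measurableSet_ball).aemeasurable),
    ← ENNReal.tsum_mul_left]
  refine tsum_congr fun n => ?_
  rw [lintegral_indicator_const measurableSet_ball, Complex.volume_ball, ← mul_assoc, ← mul_assoc]
  congr 1
  rw [← ENNReal.ofReal_pow (by positivity), ← ENNReal.ofReal_mul (by positivity),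
    ← ENNReal.ofReal_mul (by positivity)]
  congr 1
  have h3 : (2:ℝ) ^ n * (1 / 2) ^ n = 1 := by
    rw [← mul_pow]; norm_num
  have h5 : (2:ℝ) ^ (n + 1) = 2 * 2 ^ n := by rw [pow_succ]; ring
  rw [h5, div_mul_eq_mul_div, div_eq_iff hρ.ne']
  have h6 : 2 * (2:ℝ) ^ n * (2 * ρ * (1 / 2) ^ n) ^ 2 =
    8 * ρ ^ 2 * ((2:ℝ) ^ n * (1 / 2) ^ n) * (1 / 2) ^ n := by ring
  rw [h6, h3]
  ring

theorem Kfin : (∑' n : ℕ, ENNReal.ofReal (8 * (1 / 2) ^ n) * (NNReal.pi : ℝ≥0∞)) ≠ ∞ := by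
  rw [ENNReal.tsum_mul_right]
  refine ENNReal.mul_ne_top ?_ ENNReal.coe_ne_top
  have h1 : Summable fun n : ℕ => (8:ℝ) * (1 / 2) ^ n :=
    (summable_geometric_of_lt_one (by norm_num) (by norm_num)).mul_left 8
  rw [← ENNReal.ofReal_tsum_of_nonneg (fun n => by positivity) h1]
  exact ENNReal.ofReal_ne_top

theorem hsum {p q : ℝ≥0∞} [ENNReal.HolderConjugate p q] (hp : p ≠ ∞) {s R : ℝ} (hs : 1 ≤ s)
    (hsq : ENNReal.ofReal s ≤ q) (hR : 1 ≤ R) :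
    ∃ C : ℝ≥0∞, C ≠ ∞ ∧ ∀ f k : ℂ → ℂ, Measurable k →
      ∀ (T : Set ℂ) (S : ℕ → Set ℂ) (m0 : ℕ), 1 ≤ m0 → MeasurableSet T →
      (∀ m, MeasurableSet (S m)) → AEStronglyMeasurable f (volume.restrict T) →
      (∀ m, m0 ≤ m → S m ⊆ T) → (∀ z m m', z ∈ S m → z ∈ S m' → m' ≤ m + 1) →
      ∃ m, m0 ≤ m ∧ ∫⁻ z in S m, ‖f z‖ₑ * (
        (∑ j ∈ Finset.range (m + 1), 4 ^ j * ∫⁻ ζ in ball z (2 * R * (1 / 2) ^ j), ‖k ζ‖ₑ) +
        2 ^ m * (∫⁻ ζ in ball z (8 * R * (1 / 2) ^ m), ‖k ζ‖ₑ * ‖ζ - z‖ₑ⁻¹) +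
        (4 ^ m * ∫⁻ ζ in ball z (32 * (1 / 2) ^ m), ‖k ζ‖ₑ ^ s) ^ (1 / s)) ≤
      C * (eLpNorm f p (volume.restrict T) * eLpNorm k q volume) := by
  classical
  set K2 : ℝ≥0∞ := ∑' n : ℕ, ENNReal.ofReal (8 * (1 / 2) ^ n) * (NNReal.pi : ℝ≥0∞) with hK2
  set c1 : ℝ≥0∞ := ENNReal.ofReal (2 * R) ^ 2 * (NNReal.pi : ℝ≥0∞) with hc1
  set c2 : ℝ≥0∞ := ENNReal.ofReal (8 * R) * K2 with hc2
  set c3 : ℝ≥0∞ := (ENNReal.ofReal 32 ^ 2 * (NNReal.pi : ℝ≥0∞)) ^ (1 / s) with hc3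
  have hs0 : 0 < s := lt_of_lt_of_le one_pos hs
  have h32 : ENNReal.ofReal 32 ^ 2 * (NNReal.pi : ℝ≥0∞) ≠ ∞ :=
    ENNReal.mul_ne_top (ENNReal.pow_ne_top ENNReal.ofReal_ne_top) ENNReal.coe_ne_top
  have hc1' : c1 ≠ ∞ :=
    ENNReal.mul_ne_top (ENNReal.pow_ne_top ENNReal.ofReal_ne_top) ENNReal.coe_ne_top
  have hc2' : c2 ≠ ∞ := ENNReal.mul_ne_top ENNReal.ofReal_ne_top Kfin
  have hc3' : c3 ≠ ∞ := ENNReal.rpow_ne_top_of_nonneg (by positivity) h32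
  refine ⟨4 * c1 + c2 + c3, ?_, ?_⟩
  · exact ENNReal.add_ne_top.2 ⟨ENNReal.add_ne_top.2 ⟨ENNReal.mul_ne_top (by norm_num) hc1', hc2'⟩,
      hc3'⟩
  intro f k hk T S m0 hm0 hT hS hf hST hov
  have hq1 : ENNReal.ofReal 1 ≤ q := by
    rw [ENNReal.ofReal_one]
    exact ENNReal.HolderConjugate.one_le q p
  set g := T.indicator f with hg
  have hgm : AEStronglyMeasurable g volume := (aestronglyMeasurable_indicator_iff hT).2 hf
  have hgn : eLpNorm g p volume = eLpNorm f p (volume.restrict T) :=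
    eLpNorm_indicator_eq_eLpNorm_restrict hT
  rw [← hgn]
  set E := eLpNorm g p volume * eLpNorm k q volume with hE
  -- kernels
  let κ1 : ℕ → ℂ → ℝ≥0∞ := fun j =>
    (ball (0:ℂ) (2 * R * (1 / 2) ^ j)).indicator (fun _ => (4:ℝ≥0∞) ^ j)
  let κ2 : ℕ → ℂ → ℝ≥0∞ := fun m =>
    (ball (0:ℂ) (8 * R * (1 / 2) ^ m)).indicator (fun h => (2:ℝ≥0∞) ^ m * ‖h‖ₑ⁻¹)
  let κ3 : ℕ → ℂ → ℝ≥0∞ := fun m =>
    (ball (0:ℂ) (32 * (1 / 2) ^ m)).indicator (fun _ => (4:ℝ≥0∞) ^ m)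
  have m1 : ∀ j, Measurable (κ1 j) := fun j => measurable_const.indicator measurableSet_ball
  have m2 : ∀ j, Measurable (κ2 j) := fun j =>
    ((measurable_enorm.inv).const_mul _).indicator measurableSet_ball
  have m3 : ∀ j, Measurable (κ3 j) := fun j => measurable_const.indicator measurableSet_ball
  have i1 : ∀ j, ∫⁻ h, κ1 j h = c1 := by
    intro j
    show ∫⁻ h, (ball (0:ℂ) (2 * R * (1 / 2) ^ j)).indicator (fun _ => (4:ℝ≥0∞) ^ j) h = c1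
    rw [lintegral_indicator_const measurableSet_ball, volj (2 * R) (by positivity) j]
  have i2 : ∀ m, ∫⁻ h, κ2 m h ≤ c2 := by
    intro m
    show ∫⁻ h, (ball (0:ℂ) (8 * R * (1 / 2) ^ m)).indicator
      (fun h => (2:ℝ≥0∞) ^ m * ‖h‖ₑ⁻¹) h ≤ c2
    rw [lintegral_indicator measurableSet_ball,
      lintegral_const_mul' _ _ (ENNReal.pow_ne_top (by norm_num))]
    refine le_trans (mul_le_mul_right (kerb (8 * R * (1 / 2) ^ m) (by positivity)) _) ?_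
    rw [← mul_assoc]
    have h2 : (2:ℝ≥0∞) ^ m = ENNReal.ofReal (2 ^ m) := by
      rw [ENNReal.ofReal_pow (by norm_num)]; norm_num
    rw [h2, ← ENNReal.ofReal_mul (by positivity)]
    have h3 : (2:ℝ) ^ m * (8 * R * (1 / 2) ^ m) = 8 * R := by
      have : (2:ℝ) ^ m * (1 / 2) ^ m = 1 := by
        rw [← mul_pow]; norm_num
      calc (2:ℝ) ^ m * (8 * R * (1 / 2) ^ m) = ((2:ℝ) ^ m * (1 / 2) ^ m) * (8 * R) := by ring
        _ = _ := by rw [this, one_mul]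
    rw [h3]
  have i3 : ∀ m, ∫⁻ h, κ3 m h = ENNReal.ofReal 32 ^ 2 * (NNReal.pi : ℝ≥0∞) := by
    intro m
    show ∫⁻ h, (ball (0:ℂ) (32 * (1 / 2) ^ m)).indicator (fun _ => (4:ℝ≥0∞) ^ m) h = _
    rw [lintegral_indicator_const measurableSet_ball, volj 32 (by positivity) m]
  let A : ℕ → ℂ → ℝ≥0∞ := fun j z => ∫⁻ h, κ1 j h * ‖k (z + h)‖ₑ
  let B : ℕ → ℂ → ℝ≥0∞ := fun m z => ∫⁻ h, κ2 m h * ‖k (z + h)‖ₑ
  let D : ℕ → ℂ → ℝ≥0∞ := fun m z => (∫⁻ h, κ3 m h * ‖k (z + h)‖ₑ ^ s) ^ (1 / s)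
  have eA : ∀ j z, 4 ^ j * ∫⁻ ζ in ball z (2 * R * (1 / 2) ^ j), ‖k ζ‖ₑ = A j z := by
    intro j z
    show _ = ∫⁻ h, (ball (0:ℂ) (2 * R * (1 / 2) ^ j)).indicator (fun _ => (4:ℝ≥0∞) ^ j) h *
      ‖k (z + h)‖ₑ
    rw [← tr (fun _ => (4:ℝ≥0∞) ^ j) (fun ζ => ‖k ζ‖ₑ) z,
      lintegral_const_mul' _ _ (ENNReal.pow_ne_top (by norm_num))]
  have eB : ∀ m z, 2 ^ m * (∫⁻ ζ in ball z (8 * R * (1 / 2) ^ m), ‖k ζ‖ₑ * ‖ζ - z‖ₑ⁻¹) =
      B m z := by
    intro m z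
    show _ = ∫⁻ h, (ball (0:ℂ) (8 * R * (1 / 2) ^ m)).indicator
      (fun h => (2:ℝ≥0∞) ^ m * ‖h‖ₑ⁻¹) h * ‖k (z + h)‖ₑ
    rw [← tr (fun h => (2:ℝ≥0∞) ^ m * ‖h‖ₑ⁻¹) (fun ζ => ‖k ζ‖ₑ) z,
      ← lintegral_const_mul' _ _ (ENNReal.pow_ne_top (by norm_num))]
    refine lintegral_congr fun ζ => ?_
    ring
  have eD : ∀ m z, (4 ^ m * ∫⁻ ζ in ball z (32 * (1 / 2) ^ m), ‖k ζ‖ₑ ^ s) ^ (1 / s) =
      D m z := by
    intro m z
    show _ = (∫⁻ h, (ball (0:ℂ) (32 * (1 / 2) ^ m)).indicator (fun _ => (4:ℝ≥0∞) ^ m) h *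
      ‖k (z + h)‖ₑ ^ s) ^ (1 / s)
    rw [← tr (fun _ => (4:ℝ≥0∞) ^ m) (fun ζ => ‖k ζ‖ₑ ^ s) z,
      lintegral_const_mul' _ _ (ENNReal.pow_ne_top (by norm_num))]
  have hk2 : Measurable fun x : ℂ × ℂ => ‖k (x.1 + x.2)‖ₑ :=
    (hk.comp (measurable_fst.add measurable_snd)).enorm
  have mA : ∀ j, Measurable (A j) := fun j =>
    Measurable.lintegral_prod_right' (f := fun x : ℂ × ℂ => κ1 j x.2 * ‖k (x.1 + x.2)‖ₑ)
      (((m1 j).comp measurable_snd).mul hk2)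
  have mB : ∀ j, Measurable (B j) := fun j =>
    Measurable.lintegral_prod_right' (f := fun x : ℂ × ℂ => κ2 j x.2 * ‖k (x.1 + x.2)‖ₑ)
      (((m2 j).comp measurable_snd).mul hk2)
  have mD : ∀ j, Measurable (D j) := fun j =>
    (Measurable.lintegral_prod_right' (f := fun x : ℂ × ℂ => κ3 j x.2 * ‖k (x.1 + x.2)‖ₑ ^ s)
      (((m3 j).comp measurable_snd).mul (hk2.pow_const s))).pow_const _
  have bA : ∀ j, ∫⁻ z, ‖g z‖ₑ * A j z ≤ c1 * E := by
    intro j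
    have h := pairing (p := p) (q := q) hp le_rfl hq1 g k hgm hk (κ1 j) (m1 j)
      (by rw [i1 j]; exact hc1')
    simp only [div_one, ENNReal.rpow_one, i1 j] at h
    exact h
  have bB : ∀ m, ∫⁻ z, ‖g z‖ₑ * B m z ≤ c2 * E := by
    intro m
    have h := pairing (p := p) (q := q) hp le_rfl hq1 g k hgm hk (κ2 m) (m2 m)
      (ne_top_of_le_ne_top hc2' (i2 m))
    simp only [div_one, ENNReal.rpow_one] at h
    exact h.trans (mul_le_mul_left (i2 m) _)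
  have bD : ∀ m, ∫⁻ z, ‖g z‖ₑ * D m z ≤ c3 * E := by
    intro m
    have h := pairing (p := p) (q := q) hp hs hsq g k hgm hk (κ3 m) (m3 m)
      (by rw [i3 m]; exact h32)
    rw [i3 m] at h
    exact h
  have key : ∀ m, m0 ≤ m → ∫⁻ z in S m, ‖f z‖ₑ * (
        (∑ j ∈ Finset.range (m + 1), 4 ^ j * ∫⁻ ζ in ball z (2 * R * (1 / 2) ^ j), ‖k ζ‖ₑ) +
        2 ^ m * (∫⁻ ζ in ball z (8 * R * (1 / 2) ^ m), ‖k ζ‖ₑ * ‖ζ - z‖ₑ⁻¹) +
        (4 ^ m * ∫⁻ ζ in ball z (32 * (1 / 2) ^ m), ‖k ζ‖ₑ ^ s) ^ (1 / s)) =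
      (∑ j ∈ Finset.range (m + 1), ∫⁻ z in S m, ‖g z‖ₑ * A j z) +
        (∫⁻ z in S m, ‖g z‖ₑ * B m z) + ∫⁻ z in S m, ‖g z‖ₑ * D m z := by
    intro m hm
    have hgf : ∀ z ∈ S m, f z = g z := by
      intro z hz
      rw [hg, indicator_of_mem (hST m hm hz)]
    have hge : AEMeasurable (fun z => ‖g z‖ₑ) (volume.restrict (S m)) := hgm.enorm.restrict
    have hgA : ∀ j, AEMeasurable (fun z => ‖g z‖ₑ * A j z) (volume.restrict (S m)) :=
      fun j => hge.mul (mA j).aemeasurable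
    have hgB : AEMeasurable (fun z => ‖g z‖ₑ * B m z) (volume.restrict (S m)) :=
      hge.mul (mB m).aemeasurable
    have hgD : AEMeasurable (fun z => ‖g z‖ₑ * D m z) (volume.restrict (S m)) :=
      hge.mul (mD m).aemeasurable
    rw [← lintegral_finsetSum' _ (fun j _ => hgA j), ← lintegral_add_right' _ hgB,
      ← lintegral_add_right' _ hgD]
    refine setLIntegral_congr_fun (hS m) fun z hz => ?_
    simp only [eA, eB, eD]
    rw [hgf z hz, mul_add, mul_add, Finset.mul_sum]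
  have hsumle : ∑ m ∈ Finset.Ico m0 (2 * m0), (∫⁻ z in S m, ‖f z‖ₑ * (
        (∑ j ∈ Finset.range (m + 1), 4 ^ j * ∫⁻ ζ in ball z (2 * R * (1 / 2) ^ j), ‖k ζ‖ₑ) +
        2 ^ m * (∫⁻ ζ in ball z (8 * R * (1 / 2) ^ m), ‖k ζ‖ₑ * ‖ζ - z‖ₑ⁻¹) +
        (4 ^ m * ∫⁻ ζ in ball z (32 * (1 / 2) ^ m), ‖k ζ‖ₑ ^ s) ^ (1 / s))) ≤
      ∑ m ∈ Finset.Ico m0 (2 * m0), (4 * c1 + c2 + c3) * E := by
    have hcard : (Finset.Ico m0 (2 * m0)).card = m0 := by
      rw [Nat.card_Ico]; omega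
    have hmul : ∀ j, ∑ m ∈ Finset.Ico m0 (2 * m0), ∫⁻ z in S m, ‖g z‖ₑ * A j z ≤
        2 * (c1 * E) := by
      intro j
      have hme : AEMeasurable (fun z => ‖g z‖ₑ * A j z) volume :=
        hgm.enorm.mul (mA j).aemeasurable
      have h1 : ∑ m ∈ Finset.Ico m0 (2 * m0), ∫⁻ z in S m, ‖g z‖ₑ * A j z =
          ∫⁻ z, ∑ m ∈ Finset.Ico m0 (2 * m0), (S m).indicator (fun z => ‖g z‖ₑ * A j z) z := by
        rw [lintegral_finsetSum' _ (fun m _ => hme.indicator (hS m))]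
        exact Finset.sum_congr rfl fun m _ => (lintegral_indicator (hS m) _).symm
      rw [h1]
      have h2 : ∀ z, ∑ m ∈ Finset.Ico m0 (2 * m0), (S m).indicator (fun z => ‖g z‖ₑ * A j z) z ≤
          2 * (‖g z‖ₑ * A j z) := by
        intro z
        have h3 : ∑ m ∈ Finset.Ico m0 (2 * m0), (S m).indicator (fun z => ‖g z‖ₑ * A j z) z =
            ((Finset.Ico m0 (2 * m0)).filter (fun m => z ∈ S m)).card •
              (‖g z‖ₑ * A j z) := by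
          rw [← Finset.sum_const, Finset.sum_filter]
          exact Finset.sum_congr rfl fun m _ => indicator_apply _ _ _
        rw [h3, nsmul_eq_mul]
        refine mul_le_mul_left ?_ _
        have h4 : ((Finset.Ico m0 (2 * m0)).filter (fun m => z ∈ S m)).card ≤ 2 := by
          rcases ((Finset.Ico m0 (2 * m0)).filter (fun m => z ∈ S m)).eq_empty_or_nonempty with
            h5 | h5
          · rw [h5]; simp
          · set a := ((Finset.Ico m0 (2 * m0)).filter (fun m => z ∈ S m)).min' h5 with ha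
            have ha1 := Finset.min'_mem _ h5
            have h6 : ((Finset.Ico m0 (2 * m0)).filter (fun m => z ∈ S m)) ⊆ {a, a + 1} := by
              intro m hm
              have h7 := Finset.min'_le _ m hm
              rw [Finset.mem_filter] at hm ha1
              have h8 := hov z _ m ha1.2 hm.2
              rw [Finset.mem_insert, Finset.mem_singleton]
              omega
            exact (Finset.card_le_card h6).trans Finset.card_le_two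
        exact_mod_cast h4
      refine (lintegral_mono h2).trans ?_
      rw [lintegral_const_mul' _ _ (by norm_num)]
      exact mul_le_mul_right (bA j) _
    calc _ = ∑ m ∈ Finset.Ico m0 (2 * m0), ((∑ j ∈ Finset.range (m + 1),
          ∫⁻ z in S m, ‖g z‖ₑ * A j z) +
        (∫⁻ z in S m, ‖g z‖ₑ * B m z) + ∫⁻ z in S m, ‖g z‖ₑ * D m z) :=
          Finset.sum_congr rfl fun m hm => key m (Finset.mem_Ico.1 hm).1
      _ ≤ ∑ m ∈ Finset.Ico m0 (2 * m0), ((∑ j ∈ Finset.range (2 * m0),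
          ∫⁻ z in S m, ‖g z‖ₑ * A j z) + c2 * E + c3 * E) := by
          refine Finset.sum_le_sum fun m hm => ?_
          refine add_le_add (add_le_add ?_ ?_) ?_
          · refine Finset.sum_le_sum_of_subset ?_
            intro j hj
            rw [Finset.mem_range] at hj ⊢
            have := (Finset.mem_Ico.1 hm).2
            omega
          · exact (setLIntegral_le_lintegral _ _).trans (bB m)
          · exact (setLIntegral_le_lintegral _ _).trans (bD m)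
      _ = (∑ j ∈ Finset.range (2 * m0), ∑ m ∈ Finset.Ico m0 (2 * m0),
          ∫⁻ z in S m, ‖g z‖ₑ * A j z) + m0 * (c2 * E) + m0 * (c3 * E) := by
          rw [Finset.sum_add_distrib, Finset.sum_add_distrib, Finset.sum_comm,
            Finset.sum_const, Finset.sum_const, hcard, nsmul_eq_mul, nsmul_eq_mul]
      _ ≤ (∑ j ∈ Finset.range (2 * m0), 2 * (c1 * E)) + m0 * (c2 * E) + m0 * (c3 * E) := by
          refine add_le_add (add_le_add (Finset.sum_le_sum fun j _ => hmul j) le_rfl) le_rfl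
      _ = ∑ m ∈ Finset.Ico m0 (2 * m0), (4 * c1 + c2 + c3) * E := by
          rw [Finset.sum_const, Finset.sum_const, hcard, Finset.card_range, nsmul_eq_mul,
            nsmul_eq_mul]
          push_cast
          ring
  obtain ⟨m, hm, hle⟩ := ENNReal.exists_le_of_sum_le (by
    rw [Finset.nonempty_Ico]; omega) hsumle
  exact ⟨m, (Finset.mem_Ico.1 hm).1, hle⟩


end Pool.Agent.Helper265.Br
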