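import Mathlib

set_option autoImplicit false
open Complex Set Filter Metric Topology MeasureTheory
open scoped ENNReal

namespace Pool.Agent.Helper265.Br

theorem al_hb {E : Type*} [NormedAddCommGroup E] [NormedSpace ℂ E] (M : Submodule ℂ E) (x : E)
    {δ : ℝ} (hδ : 0 < δ) (h : ∀ m ∈ M, δ ≤ ‖x - m‖) :
    ∃ l : E →L[ℂ] ℂ, (∀ m ∈ M, l m = 0) ∧ l x ≠ 0 := by
  have hy : ‖(Submodule.Quotient.mk x : E ⧸ M)‖ ≠ 0 := by
    intro h0
    obtain ⟨m', hm', hlt⟩ := Submodule.Quotient.norm_mk_lt (Submodule.Quotient.mk x : E ⧸ M) hδ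
    rw [h0, zero_add] at hlt
    have h1 : x - m' ∈ M := by
      rw [← Submodule.Quotient.eq]
      exact hm'.symm
    have h2 := h _ h1
    rw [sub_sub_cancel] at h2
    linarith
  obtain ⟨g, -, hg⟩ := exists_dual_vector ℂ (Submodule.Quotient.mk x : E ⧸ M) hy
  refine ⟨g.comp M.mkQL, ?_, ?_⟩
  · intro m hm
    have : (Submodule.Quotient.mk m : E ⧸ M) = 0 := (Submodule.Quotient.mk_eq_zero M).2 hm
    simp [this]
  · have : (g.comp M.mkQL) x = (‖(Submodule.Quotient.mk x : E ⧸ M)‖ : ℂ) := by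
      simpa using hg
    rw [this]
    exact_mod_cast hy

variable {μ : Measure ℂ} [IsFiniteMeasure μ]

theorem al_incl {p : ℝ≥0∞} [Fact (1 ≤ p)] (hp : p ≤ 2) :
    ∃ T : Lp ℂ 2 μ →L[ℂ] Lp ℂ p μ, ∀ (h : ℂ → ℂ) (hh : MemLp h 2 μ),
      T (hh.toLp h) = (hh.mono_exponent hp).toLp h := by
  let T0 : Lp ℂ 2 μ →ₗ[ℂ] Lp ℂ p μ :=
    { toFun := fun g => ((Lp.memLp g).mono_exponent hp).toLp g
      map_add' := by
        intro f g
        rw [← MemLp.toLp_add]
        exact MemLp.toLp_congr _ _ (Lp.coeFn_add f g)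
      map_smul' := by
        intro c f
        rw [RingHom.id_apply, ← MemLp.toLp_const_smul]
        exact MemLp.toLp_congr _ _ (Lp.coeFn_smul c f) }
  have hb : ∀ g, ‖T0 g‖ ≤ (μ Set.univ ^ (1 / p.toReal - 1 / (2 : ℝ≥0∞).toReal)).toReal * ‖g‖ := by
    intro g
    show ‖((Lp.memLp g).mono_exponent hp).toLp g‖ ≤ _
    rw [Lp.norm_toLp, Lp.norm_def, mul_comm, ← ENNReal.toReal_mul]
    refine ENNReal.toReal_mono ?_ (eLpNorm_le_eLpNorm_mul_rpow_measure_univ hp (Lp.aestronglyMeasurable g))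
    refine ENNReal.mul_ne_top (Lp.eLpNorm_ne_top g) ?_
    refine ENNReal.rpow_ne_top_of_nonneg ?_ (measure_ne_top μ _)
    have h1 : (1 : ℝ≥0∞) ≤ p := Fact.out
    have h2 : p.toReal ≤ 2 := by
      have := ENNReal.toReal_mono (by norm_num) hp
      simpa using this
    have h3 : 1 ≤ p.toReal := by
      have := ENNReal.toReal_mono (ne_top_of_le_ne_top (by norm_num) hp) h1
      simpa using this
    have h4 : 1 / (2 : ℝ) ≤ 1 / p.toReal := one_div_le_one_div_of_le (by linarith) h2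
    simpa using h4
  refine ⟨T0.mkContinuous _ hb, fun h hh => ?_⟩
  show ((Lp.memLp (hh.toLp h)).mono_exponent hp).toLp (hh.toLp h) = _
  exact MemLp.toLp_congr _ _ hh.coeFn_toLp

theorem al_riesz {p : ℝ≥0∞} [Fact (1 ≤ p)] (hp : p ≤ 2) (l : Lp ℂ p μ →L[ℂ] ℂ) :
    ∃ k : ℂ → ℂ, Measurable k ∧ MemLp k 2 μ ∧ ∀ (h : ℂ → ℂ) (hh : MemLp h 2 μ),
      l ((hh.mono_exponent hp).toLp h) = ∫ z, k z * h z ∂μ := by
  obtain ⟨T, hT⟩ := al_incl (μ := μ) hp
  set v : Lp ℂ 2 μ := (InnerProductSpace.toDual ℂ (Lp ℂ 2 μ)).symm (l ∘L T) with hv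
  refine ⟨fun z => (starRingEnd ℂ) (v z), ?_, ?_, ?_⟩
  · exact Complex.continuous_conj.measurable.comp (Lp.stronglyMeasurable v).measurable
  · have := (Lp.memLp v).star
    exact this
  · intro h hh
    rw [← hT h hh]
    have h1 : (l ∘L T) (hh.toLp h) = inner ℂ v (hh.toLp h) := by
      rw [hv, InnerProductSpace.toDual_symm_apply]
    have h2 : l (T (hh.toLp h)) = (l ∘L T) (hh.toLp h) := rfl
    rw [h2, h1, L2.inner_def]
    refine integral_congr_ae ?_
    filter_upwards [hh.coeFn_toLp] with z hz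
    rw [hz, RCLike.inner_apply]
    exact mul_comm _ _

theorem al_bound {p : ℝ≥0∞} [Fact (1 ≤ p)] (hp : p ≤ 2) (l : Lp ℂ p μ →L[ℂ] ℂ) {k : ℂ → ℂ}
    (hk : ∀ (h : ℂ → ℂ) (hh : MemLp h 2 μ), l ((hh.mono_exponent hp).toLp h) = ∫ z, k z * h z ∂μ)
    {h : ℂ → ℂ} (hh : MemLp h 2 μ) :
    ‖∫ z, k z * h z ∂μ‖ ≤ ‖l‖ * (eLpNorm h p μ).toReal := by
  rw [← hk h hh]
  refine (l.le_opNorm _).trans ?_
  rw [Lp.norm_toLp]

theorem al_top (hp : (1 : ℝ≥0∞) ≤ 2) (l : Lp ℂ 1 μ →L[ℂ] ℂ) {k : ℂ → ℂ} (hkm : Measurable k)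
    (hk2 : MemLp k 2 μ)
    (hk : ∀ (h : ℂ → ℂ) (hh : MemLp h 2 μ), l ((hh.mono_exponent hp).toLp h) = ∫ z, k z * h z ∂μ) :
    eLpNorm k ∞ μ ≠ ∞ := by
  have hki : Integrable k μ := memLp_one_iff_integrable.1 (hk2.mono_exponent hp)
  have hae : (fun z => ‖k z‖) ≤ᵐ[μ] fun _ => ‖l‖ := by
    refine ae_le_of_forall_setIntegral_le hki.norm (integrable_const _) fun s hs _ => ?_
    set h : ℂ → ℂ := s.indicator (fun z => (starRingEnd ℂ) (k z) / (‖k z‖ : ℂ)) with hh
    have hhm : Measurable h := by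
      refine Measurable.indicator ?_ hs
      exact (Complex.continuous_conj.measurable.comp hkm).div (Complex.measurable_ofReal.comp hkm.norm)
    have hb : ∀ z, ‖h z‖ ≤ s.indicator (fun _ => (1 : ℝ)) z := by
      intro z
      by_cases hz : z ∈ s
      · rw [hh, indicator_of_mem hz, indicator_of_mem hz]
        rw [norm_div, RCLike.norm_conj, Complex.norm_real, norm_norm]
        exact div_self_le_one _
      · rw [hh, indicator_of_notMem hz, indicator_of_notMem hz, norm_zero]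
    have hb1 : ∀ z, ‖h z‖ ≤ 1 := fun z => (hb z).trans (indicator_le_self' (fun _ _ => zero_le_one) z)
    have hh2 : MemLp h 2 μ := MemLp.of_bound hhm.aestronglyMeasurable 1 (Eventually.of_forall hb1)
    have h1 := al_bound hp l hk hh2
    have e1 : ∫ z, k z * h z ∂μ = ((∫ z in s, ‖k z‖ ∂μ : ℝ) : ℂ) := by
      rw [← integral_indicator hs, ← integral_complex_ofReal]
      refine integral_congr_ae (Eventually.of_forall fun z => ?_)
      by_cases hz : z ∈ s
      · simp only [hh, indicator_of_mem hz]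
        by_cases h0 : k z = 0
        · simp [h0]
        · have hn : (‖k z‖ : ℂ) ≠ 0 := by exact_mod_cast norm_ne_zero_iff.2 h0
          rw [← mul_div_assoc, Complex.mul_conj, Complex.normSq_eq_norm_sq]
          push_cast
          field_simp
      · simp only [hh, indicator_of_notMem hz, mul_zero]
        simp
    have e2 : (eLpNorm h 1 μ).toReal ≤ μ.real s := by
      have h2 : eLpNorm h 1 μ ≤ eLpNorm (s.indicator (fun _ => (1 : ℝ))) 1 μ := by
        refine eLpNorm_mono_real ?_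
        exact hb
      have h3 : eLpNorm (s.indicator (fun _ => (1 : ℝ))) 1 μ = μ s := by
        rw [eLpNorm_indicator_const hs one_ne_zero (by norm_num)]
        simp
      rw [h3] at h2
      exact ENNReal.toReal_mono (measure_ne_top μ s) h2
    rw [e1, Complex.norm_real] at h1
    rw [integral_const, smul_eq_mul, measureReal_restrict_apply_univ, mul_comm]
    refine (le_abs_self _).trans (h1.trans ?_)
    exact mul_le_mul_of_nonneg_left e2 (norm_nonneg _)
  have := eLpNorm_le_of_ae_bound (p := ∞) hae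
  refine ne_top_of_le_ne_top ?_ this
  simp

theorem al_fin {p q : ℝ≥0∞} [Fact (1 ≤ p)] (hp : p ≤ 2) (hp1 : p ≠ 1) (hpq : p.toReal⁻¹ + q.toReal⁻¹ = 1)
    (hq : q ≠ ∞) (l : Lp ℂ p μ →L[ℂ] ℂ) {k : ℂ → ℂ} (hkm : Measurable k)
    (hk : ∀ (h : ℂ → ℂ) (hh : MemLp h 2 μ), l ((hh.mono_exponent hp).toLp h) = ∫ z, k z * h z ∂μ) :
    eLpNorm k q μ ≠ ∞ := by
  have h1p : (1 : ℝ≥0∞) ≤ p := Fact.out
  have hpt : p ≠ ∞ := ne_top_of_le_ne_top (by norm_num) hp
  set P := p.toReal with hP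
  set Q := q.toReal with hQ
  have hP2 : P ≤ 2 := by
    have := ENNReal.toReal_mono (by norm_num) hp
    simpa using this
  have hP1 : 1 < P := by
    have h2 : 1 < p := lt_of_le_of_ne h1p (Ne.symm hp1)
    have := (ENNReal.toReal_lt_toReal (by norm_num) hpt).2 h2
    simpa using this
  have hP0 : 0 < P := by linarith
  have hPi : P⁻¹ < 1 := inv_lt_one_of_one_lt₀ hP1
  have hPi2 : (2 : ℝ)⁻¹ ≤ P⁻¹ := inv_anti₀ hP0 hP2
  have hQi : Q⁻¹ = 1 - P⁻¹ := by linarith
  have hQi0 : 0 < Q⁻¹ := by linarith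
  have hQ0 : 0 < Q := inv_pos.1 hQi0
  have hQ2 : 2 ≤ Q := by
    have : Q⁻¹ ≤ 2⁻¹ := by linarith
    exact (inv_le_inv₀ hQ0 (by norm_num)).1 this
  have hmul : (Q - 1) * P = Q := by
    have h3 : P⁻¹ * (P * Q) + Q⁻¹ * (P * Q) = P * Q := by
      rw [← add_mul, hpq, one_mul]
    have h4 : P⁻¹ * (P * Q) = Q := by field_simp
    have h5 : Q⁻¹ * (P * Q) = P := by field_simp
    rw [h4, h5] at h3
    linarith
  have hq0 : q ≠ 0 := by
    intro h0
    rw [hQ, h0] at hQ0
    simp at hQ0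
  have hp0 : p ≠ 0 := by
    intro h0
    rw [h0] at h1p
    simp at h1p
  have main : ∀ n : ℕ, eLpNorm ({z | ‖k z‖ ≤ n}.indicator k) q μ ≤ ENNReal.ofReal ‖l‖ := by
    intro n
    set A : Set ℂ := {z | ‖k z‖ ≤ n} with hA
    have hAm : MeasurableSet A := hkm.norm measurableSet_Iic
    set h : ℂ → ℂ := A.indicator (fun z => (starRingEnd ℂ) (k z) * ((‖k z‖ ^ (Q - 2) : ℝ) : ℂ)) with hh
    have hhm : Measurable h := by
      refine Measurable.indicator ?_ hAm
      exact (Complex.continuous_conj.measurable.comp hkm).mul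
        (Complex.measurable_ofReal.comp (hkm.norm.pow_const _))
    have hnorm : ∀ z, ‖h z‖ = A.indicator (fun z => ‖k z‖ ^ (Q - 1)) z := by
      intro z
      by_cases hz : z ∈ A
      · rw [hh, indicator_of_mem hz, indicator_of_mem hz, norm_mul, RCLike.norm_conj, Complex.norm_real,
          Real.norm_of_nonneg (Real.rpow_nonneg (norm_nonneg _) _)]
        by_cases h0 : ‖k z‖ = 0
        · rw [h0, zero_mul, Real.zero_rpow (by linarith)]
        · have hpos : 0 < ‖k z‖ := lt_of_le_of_ne (norm_nonneg _) (Ne.symm h0)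
          have : ‖k z‖ ^ (Q - 1) = ‖k z‖ ^ (1 + (Q - 2)) := by congr 1; ring
          rw [this, Real.rpow_add hpos, Real.rpow_one]
      · rw [hh, indicator_of_notMem hz, indicator_of_notMem hz, norm_zero]
    have hb1 : ∀ z, ‖h z‖ ≤ (n : ℝ) ^ (Q - 1) := by
      intro z
      rw [hnorm]
      by_cases hz : z ∈ A
      · rw [indicator_of_mem hz]
        exact Real.rpow_le_rpow (norm_nonneg _) hz (by linarith)
      · rw [indicator_of_notMem hz]
        positivity
    have hh2 : MemLp h 2 μ := MemLp.of_bound hhm.aestronglyMeasurable _ (Eventually.of_forall hb1)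
    have h1 := al_bound hp l hk hh2
    set J : ℝ≥0∞ := ∫⁻ z in A, ENNReal.ofReal (‖k z‖ ^ Q) ∂μ with hJ
    have hJt : J ≠ ∞ := by
      have : J ≤ ∫⁻ z in A, ENNReal.ofReal ((n : ℝ) ^ Q) ∂μ := by
        refine setLIntegral_mono measurable_const fun z hz => ?_
        exact ENNReal.ofReal_le_ofReal (Real.rpow_le_rpow (norm_nonneg _) hz hQ0.le)
      refine ne_top_of_le_ne_top ?_ this
      rw [setLIntegral_const]
      exact ENNReal.mul_ne_top ENNReal.ofReal_ne_top (measure_ne_top μ _)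
    have e1 : ∫ z, k z * h z ∂μ = ((J.toReal : ℝ) : ℂ) := by
      have e2 : ∫ z, k z * h z ∂μ = ((∫ z in A, ‖k z‖ ^ Q ∂μ : ℝ) : ℂ) := by
        rw [← integral_indicator hAm, ← integral_complex_ofReal]
        refine integral_congr_ae (Eventually.of_forall fun z => ?_)
        by_cases hz : z ∈ A
        · simp only [hh, indicator_of_mem hz]
          rw [← mul_assoc, Complex.mul_conj, Complex.normSq_eq_norm_sq]
          by_cases h0 : ‖k z‖ = 0
          · rw [h0, Real.zero_rpow hQ0.ne']; simp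
          · have hpos : 0 < ‖k z‖ := lt_of_le_of_ne (norm_nonneg _) (Ne.symm h0)
            have : ‖k z‖ ^ Q = ‖k z‖ ^ 2 * ‖k z‖ ^ (Q - 2) := by
              rw [← Real.rpow_natCast, ← Real.rpow_add hpos]
              congr 1
              push_cast; ring
            rw [this]
            push_cast
            rfl
        · simp only [hh, indicator_of_notMem hz, mul_zero]
          simp
      rw [e2]
      congr 1
      rw [integral_eq_lintegral_of_nonneg_ae]
      · exact Eventually.of_forall fun z => Real.rpow_nonneg (norm_nonneg _) _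
      · exact (hkm.norm.pow_const _).aestronglyMeasurable
    have e3 : eLpNorm h p μ = J ^ (P⁻¹) := by
      rw [eLpNorm_eq_lintegral_rpow_enorm_toReal hp0 hpt, one_div, hJ, ← lintegral_indicator hAm]
      congr 1
      refine lintegral_congr fun z => ?_
      rw [← ofReal_norm, hnorm]
      by_cases hz : z ∈ A
      · rw [indicator_of_mem hz, indicator_of_mem hz, ENNReal.ofReal_rpow_of_nonneg (Real.rpow_nonneg (norm_nonneg _) _) hP0.le,
          ← Real.rpow_mul (norm_nonneg _), hmul]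
      · rw [indicator_of_notMem hz, indicator_of_notMem hz, ENNReal.ofReal_zero, ENNReal.zero_rpow_of_pos hP0]
    have e4 : eLpNorm (A.indicator k) q μ = J ^ (Q⁻¹) := by
      rw [eLpNorm_eq_lintegral_rpow_enorm_toReal hq0 hq, one_div, hJ, ← lintegral_indicator hAm]
      congr 1
      refine lintegral_congr fun z => ?_
      by_cases hz : z ∈ A
      · rw [indicator_of_mem hz, indicator_of_mem hz, ← ofReal_norm,
          ENNReal.ofReal_rpow_of_nonneg (norm_nonneg _) hQ0.le]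
      · rw [indicator_of_notMem hz, indicator_of_notMem hz, enorm_zero, ENNReal.zero_rpow_of_pos hQ0]
    rw [e1, e3, Complex.norm_real, Real.norm_of_nonneg ENNReal.toReal_nonneg, ← ENNReal.toReal_rpow] at h1
    rw [e4]
    have hJr : J = ENNReal.ofReal J.toReal := (ENNReal.ofReal_toReal hJt).symm
    rw [hJr, ENNReal.ofReal_rpow_of_nonneg ENNReal.toReal_nonneg hQi0.le]
    refine ENNReal.ofReal_le_ofReal ?_
    set x := J.toReal with hx
    have hx0 : 0 ≤ x := ENNReal.toReal_nonneg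
    rcases hx0.eq_or_lt with h0 | hpos
    · rw [← h0, Real.zero_rpow hQi0.ne']
      exact norm_nonneg _
    · have h5 : x = x ^ P⁻¹ * x ^ Q⁻¹ := by
        rw [← Real.rpow_add hpos, hpq, Real.rpow_one]
      have h6 : 0 < x ^ P⁻¹ := Real.rpow_pos_of_pos hpos _
      have h7 : x ^ P⁻¹ * x ^ Q⁻¹ ≤ x ^ P⁻¹ * ‖l‖ := by
        rw [← h5, mul_comm]
        exact h1
      exact le_of_mul_le_mul_left h7 h6
  have hlim : eLpNorm k q μ ≤ ENNReal.ofReal ‖l‖ := by
    refine Lp.eLpNorm_le_of_ae_tendsto (u := atTop) (Eventually.of_forall main) ?_ ?_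
    · intro n
      exact (hkm.indicator (hkm.norm measurableSet_Iic)).aestronglyMeasurable
    · refine Eventually.of_forall fun z => ?_
      obtain ⟨N, hN⟩ := exists_nat_ge ‖k z‖
      refine tendsto_const_nhds.congr' ?_
      filter_upwards [eventually_ge_atTop N] with n hn
      have : z ∈ {z | ‖k z‖ ≤ (n : ℝ)} := hN.trans (by exact_mod_cast hn)
      rw [indicator_of_mem this]
  exact ne_top_of_le_ne_top ENNReal.ofReal_ne_top hlim

theorem annih_low {μ : Measure ℂ} [IsFiniteMeasure μ] {p q : ℝ≥0∞} [ENNReal.HolderConjugate p q]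
    (hp : p ≤ 2) {f : ℂ → ℂ} (hf : MemLp f p μ)
    (hP : ∀ P : Polynomial ℂ, MemLp (fun z => P.eval z) 2 μ)
    {δ : ℝ≥0∞} (hδ : δ ≠ 0)
    (hdist : ∀ P : Polynomial ℂ, δ ≤ eLpNorm (fun z => f z - P.eval z) p μ) :
    ∃ k : ℂ → ℂ, Measurable k ∧ eLpNorm k q μ ≠ ∞ ∧
      (∀ P : Polynomial ℂ, ∫ z, k z * P.eval z ∂μ = 0) ∧ ∫ z, k z * f z ∂μ ≠ 0 := by
  have h1p : (1 : ℝ≥0∞) ≤ p := ENNReal.HolderConjugate.one_le p q
  have h1q : (1 : ℝ≥0∞) ≤ q := by
    have : ENNReal.HolderConjugate q p := inferInstance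
    exact ENNReal.HolderConjugate.one_le q p
  haveI : Fact (1 ≤ p) := ⟨h1p⟩
  haveI : Fact (1 ≤ q) := ⟨h1q⟩
  have hpt : p ≠ ∞ := ne_top_of_le_ne_top (by norm_num) hp
  -- the submodule of polynomials
  let L : Polynomial ℂ →ₗ[ℂ] Lp ℂ p μ :=
    { toFun := fun P => ((hP P).mono_exponent hp).toLp _
      map_add' := by
        intro P P'
        rw [← MemLp.toLp_add]
        refine MemLp.toLp_congr _ _ (Eventually.of_forall fun z => ?_)
        simp
      map_smul' := by
        intro c P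
        rw [RingHom.id_apply, ← MemLp.toLp_const_smul]
        refine MemLp.toLp_congr _ _ (Eventually.of_forall fun z => ?_)
        simp }
  have hL : ∀ P, L P = ((hP P).mono_exponent hp).toLp _ := fun P => rfl
  have hδ' : 0 < (min δ 1).toReal := by
    refine ENNReal.toReal_pos ?_ ?_
    · rw [← pos_iff_ne_zero]
      exact lt_min (pos_iff_ne_zero.2 hδ) zero_lt_one
    · exact ne_top_of_le_ne_top ENNReal.one_ne_top (min_le_right _ _)
  obtain ⟨l, hl0, hlf⟩ := al_hb (LinearMap.range L) (hf.toLp f) hδ' (by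
    rintro _ ⟨P, rfl⟩
    rw [hL, ← MemLp.toLp_sub, Lp.norm_toLp]
    refine ENNReal.toReal_mono (hf.sub ((hP P).mono_exponent hp)).2.ne ?_
    exact (min_le_left _ _).trans (hdist P))
  obtain ⟨k, hkm, hk2, hk⟩ := al_riesz hp l
  have hpq : p⁻¹ + q⁻¹ = 1 := ENNReal.HolderConjugate.inv_add_inv_eq_one p q
  have hkq : eLpNorm k q μ ≠ ∞ := by
    by_cases hp1 : p = 1
    · subst hp1
      have hq : q = ∞ := by
        rw [inv_one] at hpq
        have h3 : q⁻¹ = 0 := by
          have h4 : (1 : ℝ≥0∞) + q⁻¹ = 1 + 0 := by rw [hpq, add_zero]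
          exact (ENNReal.add_right_inj ENNReal.one_ne_top).1 h4
        exact ENNReal.inv_eq_zero.1 h3
      subst hq
      exact al_top hp l hkm hk2 hk
    · have hq : q ≠ ∞ := by
        intro hq
        rw [hq, ENNReal.inv_top, add_zero] at hpq
        exact hp1 (ENNReal.inv_eq_one.1 hpq)
      refine al_fin hp hp1 ?_ hq l hkm hk
      have hp0 : p ≠ 0 := (lt_of_lt_of_le zero_lt_one h1p).ne'
      have hq0 : q ≠ 0 := (lt_of_lt_of_le zero_lt_one h1q).ne'
      have h3 := congrArg ENNReal.toReal hpq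
      rw [ENNReal.toReal_add (ENNReal.inv_ne_top.2 hp0) (ENNReal.inv_ne_top.2 hq0), ENNReal.toReal_inv,
        ENNReal.toReal_inv, ENNReal.toReal_one] at h3
      exact h3
  have hkL : MemLp k q μ := ⟨hkm.aestronglyMeasurable, lt_top_iff_ne_top.2 hkq⟩
  haveI : ENNReal.HolderConjugate q p := inferInstance
  set Φ : Lp ℂ p μ →L[ℂ] ℂ := (ContinuousLinearMap.mul ℂ ℂ).lpPairing μ q p (hkL.toLp k) with hΦ
  have hΦe : ∀ (g : ℂ → ℂ) (hg : MemLp g p μ), Φ (hg.toLp g) = ∫ z, k z * g z ∂μ := by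
    intro g hg
    rw [hΦ, ContinuousLinearMap.lpPairing_eq_integral]
    refine integral_congr_ae ?_
    filter_upwards [hkL.coeFn_toLp, hg.coeFn_toLp] with z h1 h2
    rw [h1, h2]
    rfl
  have hlΦ : ∀ g : Lp ℂ p μ, l g = Φ g := by
    intro g
    induction g using Lp.induction hpt with
    | indicatorConst c hs hμs =>
      rename_i s
      have h2 : MemLp (s.indicator fun _ => c) 2 μ := memLp_indicator_const 2 hs c (Or.inr hμs.ne)
      have e : ((Lp.simpleFunc.indicatorConst p hs hμs.ne c : Lp.simpleFunc ℂ p μ) : Lp ℂ p μ) =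
          (h2.mono_exponent hp).toLp _ := by
        rw [Lp.simpleFunc.coe_indicatorConst]
        rfl
      rw [e, hk _ h2, hΦe]
    | add hf hg hd h1 h2 =>
      rw [map_add, map_add, h1, h2]
    | isClosed => exact isClosed_eq l.continuous Φ.continuous
  refine ⟨k, hkm, hkq, fun P => ?_, ?_⟩
  · rw [← hk _ (hP P)]
    exact hl0 _ ⟨P, rfl⟩
  · rw [← hΦe f hf, ← hlΦ]
    exact hlf


end Pool.Agent.Helper265.Br
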