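import Mathlib
import Pool.Agent.Helper265.BrM
import Pool.Agent.Helper265.CrO

set_option autoImplicit false
open Complex Set Filter Metric Topology MeasureTheory
open scoped ENNReal

namespace Pool.Agent.Helper265.Br

theorem annih_core {μ : Measure ℂ} [IsFiniteMeasure μ] {p q : ℝ≥0∞} [hpq : ENNReal.HolderConjugate p q]
    (hp : p ≠ ∞) {f : ℂ → ℂ} (hf : MemLp f p μ)
    (hP : ∀ (r : ℝ≥0∞) (P : Polynomial ℂ), MemLp (fun z => P.eval z) r μ)
    {δ : ℝ≥0∞} (hδ : δ ≠ 0)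
    (hdist : ∀ P : Polynomial ℂ, δ ≤ eLpNorm (fun z => f z - P.eval z) p μ) :
    ∃ k : ℂ → ℂ, Measurable k ∧ eLpNorm k q μ ≠ ∞ ∧
      (∀ P : Polynomial ℂ, ∫ z, k z * P.eval z ∂μ = 0) ∧ ∫ z, k z * f z ∂μ ≠ 0 := by
  rcases le_or_gt p 2 with h2 | h2
  · exact annih_low h2 hf (hP 2) hδ hdist
  · have hp2 : 2 < p.toReal := by
      have := (ENNReal.toReal_lt_toReal (by norm_num : (2 : ℝ≥0∞) ≠ ∞) hp).mpr h2
      simpa using this
    have hofp : ENNReal.ofReal p.toReal = p := ENNReal.ofReal_toReal hp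
    have hp0 : p ≠ 0 := (lt_trans (by norm_num) h2).ne'
    have hconj : p.toReal.HolderConjugate q.toReal := ENNReal.HolderConjugate.toReal (by linarith)
    have hq : q.toReal = p.toReal / (p.toReal - 1) := hconj.conjugate_eq
    have hq0 : q ≠ 0 := by
      intro h
      have h3 := hconj.symm.pos
      rw [h] at h3; simp at h3
    have hqt : q ≠ ∞ := by
      intro h
      have h3 := hconj.symm.pos
      rw [h] at h3; simp at h3
    obtain ⟨k, hk1, hk2, hk3, hk4⟩ := annih (μ := μ) (p := p.toReal) (by linarith) (f := f) (by rw [hofp]; exact hf)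
      (by rw [hofp]; exact hP p) (δ := δ ^ p.toReal) (by
        intro h
        rw [ENNReal.rpow_eq_zero_iff] at h
        rcases h with ⟨h, _⟩ | ⟨_, h⟩
        · exact hδ h
        · linarith) (by
        intro P
        have h3 := hdist P
        rw [eLpNorm_eq_lintegral_rpow_enorm_toReal hp0 hp] at h3
        have h4 := ENNReal.rpow_le_rpow h3 (by linarith : 0 ≤ p.toReal)
        rw [← ENNReal.rpow_mul, one_div, inv_mul_cancel₀ (by linarith), ENNReal.rpow_one] at h4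
        exact h4)
    refine ⟨k, hk1, ?_, hk3, hk4⟩
    rw [← lt_top_iff_ne_top, eLpNorm_lt_top_iff_lintegral_rpow_enorm_lt_top hq0 hqt, hq]
    exact lt_top_iff_ne_top.mpr hk2

theorem annih_all {Ω : Set ℂ} {R : ℝ} (hΩm : MeasurableSet Ω) (hΩ : Ω ⊆ ball (0 : ℂ) R)
    {p : ℝ≥0∞} (hp1 : 1 ≤ p) (hp : p ≠ ∞) {f : ℂ → ℂ} (hf : MemLp f p (volume.restrict Ω))
    {δ : ℝ≥0∞} (hδ : δ ≠ 0)
    (hdist : ∀ P : Polynomial ℂ, δ ≤ eLpNorm (fun z => f z - P.eval z) p (volume.restrict Ω)) :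
    ∃ (q : ℝ≥0∞) (s : ℝ) (k : ℂ → ℂ), ENNReal.HolderConjugate p q ∧ 1 < s ∧ s < 2 ∧
      ENNReal.ofReal s ≤ q ∧ Measurable k ∧ (∀ ζ, ζ ∉ Ω → k ζ = 0) ∧
      eLpNorm k q volume ≠ ∞ ∧ ∫⁻ ζ, ‖k ζ‖ₑ ^ s ≤ 1 ∧ Integrable k ∧
      (∀ P : Polynomial ℂ, ∫ z, k z * P.eval z = 0) ∧ ∫ z, k z * f z ≠ 0 := by
  have hfin : IsFiniteMeasure (volume.restrict Ω) := by
    rw [isFiniteMeasure_restrict]
    exact ((measure_mono hΩ).trans_lt measure_ball_lt_top).ne
  have hP : ∀ (r : ℝ≥0∞) (P : Polynomial ℂ), MemLp (fun z => P.eval z) r (volume.restrict Ω) := by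
    intro r P
    have hc : Continuous (fun z => P.eval z) := P.continuous
    obtain ⟨C, hC⟩ := (isCompact_closedBall (0:ℂ) R).exists_bound_of_continuousOn hc.continuousOn
    apply MemLp.of_bound hc.aestronglyMeasurable C
    exact ae_restrict_of_forall_mem hΩm (fun z hz => hC z (ball_subset_closedBall (hΩ hz)))
  have hconj : ENNReal.HolderConjugate p (ENNReal.conjExponent p) := ENNReal.HolderConjugate.conjExponent hp1
  obtain ⟨q, hqdef⟩ : ∃ q, q = ENNReal.conjExponent p := ⟨_, rfl⟩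
  rw [← hqdef] at hconj
  have hq1 : 1 < q := (ENNReal.HolderConjugate.lt_top_iff_one_lt p q).mp (lt_top_iff_ne_top.mpr hp)
  obtain ⟨k0, hk0m, hk0q, hk0P, hk0f⟩ := annih_core hp hf hP hδ hdist (q := q)
  -- the exponent s
  obtain ⟨m, hm⟩ : ∃ m, m = min q (3 / 2) := ⟨_, rfl⟩
  have h32 : (3 / 2 : ℝ≥0∞) ≠ ∞ := ENNReal.div_ne_top (by norm_num) (by norm_num)
  have hmt : m ≠ ∞ := by
    rw [hm]; exact ne_top_of_le_ne_top h32 (min_le_right _ _)
  have hm1 : 1 < m := by
    rw [hm]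
    refine lt_min hq1 ?_
    rw [ENNReal.lt_div_iff_mul_lt (by norm_num) (by norm_num)]
    norm_num
  have hm32 : m ≤ 3 / 2 := by rw [hm]; exact min_le_right _ _
  have hmq : m ≤ q := by rw [hm]; exact min_le_left _ _
  have hofm : ENNReal.ofReal m.toReal = m := ENNReal.ofReal_toReal hmt
  have hs1 : 1 < m.toReal := by
    have := (ENNReal.toReal_lt_toReal (by norm_num) hmt).mpr hm1
    simpa using this
  have hs2 : m.toReal < 2 := by
    have := (ENNReal.toReal_le_toReal hmt h32).mpr hm32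
    rw [ENNReal.toReal_div] at this
    norm_num at this
    linarith
  have hmem : MemLp k0 q (volume.restrict Ω) := ⟨hk0m.aestronglyMeasurable, lt_top_iff_ne_top.mpr hk0q⟩
  have hmemm : MemLp k0 m (volume.restrict Ω) := hmem.mono_exponent hmq
  have hm0 : m ≠ 0 := (lt_trans (by norm_num) hm1).ne'
  obtain ⟨A, hA⟩ : ∃ A, A = ∫⁻ z, ‖k0 z‖ₑ ^ m.toReal ∂(volume.restrict Ω) := ⟨_, rfl⟩
  have hAt : A ≠ ∞ := by
    rw [hA]
    exact ((eLpNorm_lt_top_iff_lintegral_rpow_enorm_lt_top hm0 hmt).mp hmemm.2).ne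
  obtain ⟨c, hcdef⟩ : ∃ c : ℝ, c = (A.toReal + 1) ^ (-(1 / m.toReal)) := ⟨_, rfl⟩
  have hA0 : 0 ≤ A.toReal := ENNReal.toReal_nonneg
  have hc0 : 0 < c := by rw [hcdef]; positivity
  have hcs : c ^ m.toReal = (A.toReal + 1)⁻¹ := by
    rw [hcdef, ← Real.rpow_mul (by positivity)]
    have : -(1 / m.toReal) * m.toReal = -1 := by
      field_simp
    rw [this, Real.rpow_neg_one]
  have hkP : ∀ g : ℂ → ℂ, ∫ z, ((c : ℂ) * Ω.indicator k0 z) * g z = c * ∫ z, k0 z * g z ∂(volume.restrict Ω) := by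
    intro g
    have e : (fun z => ((c : ℂ) * Ω.indicator k0 z) * g z) = Ω.indicator (fun z => (c : ℂ) * (k0 z * g z)) := by
      funext z
      by_cases hz : z ∈ Ω
      · rw [indicator_of_mem hz, indicator_of_mem hz]; ring
      · rw [indicator_of_notMem hz, indicator_of_notMem hz]; ring
    rw [e, integral_indicator hΩm, integral_const_mul]
  refine ⟨q, m.toReal, fun z => (c : ℂ) * Ω.indicator k0 z, hconj, hs1, hs2, by rw [hofm]; exact hmq, ?_, ?_, ?_, ?_, ?_, ?_, ?_⟩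
  · exact measurable_const.mul (hk0m.indicator hΩm)
  · intro ζ hζ
    simp only
    rw [indicator_of_notMem hζ, mul_zero]
  · have e : (fun z => (c : ℂ) * Ω.indicator k0 z) = (c : ℂ) • (Ω.indicator k0) := by
      funext z; simp
    rw [e, eLpNorm_const_smul, eLpNorm_indicator_eq_eLpNorm_restrict hΩm]
    exact ENNReal.mul_ne_top enorm_ne_top hk0q
  · have e : (fun z => ‖(c : ℂ) * Ω.indicator k0 z‖ₑ ^ m.toReal) =
        Ω.indicator (fun z => ENNReal.ofReal (c ^ m.toReal) * ‖k0 z‖ₑ ^ m.toReal) := by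
      funext z
      by_cases hz : z ∈ Ω
      · rw [indicator_of_mem hz, indicator_of_mem hz, enorm_mul, ENNReal.mul_rpow_of_nonneg _ _ (by linarith)]
        congr 1
        rw [← ENNReal.ofReal_rpow_of_pos hc0]
        congr 1
        rw [← ofReal_norm_eq_enorm, Complex.norm_real, Real.norm_eq_abs, abs_of_pos hc0]
      · rw [indicator_of_notMem hz, indicator_of_notMem hz, mul_zero, enorm_zero, ENNReal.zero_rpow_of_pos (by linarith)]
    rw [e, lintegral_indicator hΩm, lintegral_const_mul' _ _ ENNReal.ofReal_ne_top, ← hA, hcs,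
      ← ENNReal.ofReal_toReal hAt, ← ENNReal.ofReal_mul (by positivity)]
    apply ENNReal.ofReal_le_one.mpr
    rw [ENNReal.toReal_ofReal hA0, inv_mul_le_iff₀ (by positivity)]
    linarith
  · have h1 : Integrable (Ω.indicator k0) volume := by
      rw [integrable_indicator_iff hΩm]
      exact hmem.integrable hq1.le
    exact h1.const_mul _
  · intro P
    rw [hkP, hk0P, mul_zero]
  · rw [hkP]
    exact mul_ne_zero (by exact_mod_cast hc0.ne') hk0f


end Pool.Agent.Helper265.Br
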