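import Mathlib
import Pool.Agent.Helper265.CrK
import Pool.Agent.Helper265.CrL
import Pool.Agent.Helper265.CrN

set_option autoImplicit false
open Complex Set Filter Metric Topology MeasureTheory
open scoped ENNReal

namespace Pool.Agent.Helper265.Br

/-- the shells -/
def Sh (D : Set ℂ) (m : ℕ) : Set ℂ := {z | (1 / 2 : ℝ) ^ m ≤ infDist z D ∧ infDist z D ≤ 3 * (1 / 2) ^ m}

/-- the collars -/
def Tc (D : Set ℂ) (m : ℕ) : Set ℂ := {z | 0 < infDist z D ∧ infDist z D ≤ 3 * (1 / 2) ^ m}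

theorem Sh_meas (D : Set ℂ) (m : ℕ) : MeasurableSet (Sh D m) := by
  have hc : Continuous (fun z : ℂ => infDist z D) := continuous_infDist_pt D
  exact (measurableSet_le measurable_const hc.measurable).inter
    (measurableSet_le hc.measurable measurable_const)

theorem Tc_meas (D : Set ℂ) (m : ℕ) : MeasurableSet (Tc D m) := by
  have hc : Continuous (fun z : ℂ => infDist z D) := continuous_infDist_pt D
  exact (measurableSet_lt measurable_const hc.measurable).inter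
    (measurableSet_le hc.measurable measurable_const)

theorem Tc_anti (D : Set ℂ) : Antitone (Tc D) := by
  intro m n hmn z hz
  refine ⟨hz.1, hz.2.trans ?_⟩
  have := pow_le_pow_of_le_one (a := (1 / 2 : ℝ)) (by norm_num) (by norm_num) hmn
  linarith

theorem Tc_inter (D : Set ℂ) : ⋂ m, Tc D m = ∅ := by
  ext z
  simp only [mem_iInter, mem_empty_iff_false, iff_false]
  intro h
  have h0 := (h 0).1
  have h1 : Tendsto (fun m : ℕ => 3 * (1 / 2 : ℝ) ^ m) atTop (𝓝 0) := by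
    have := (tendsto_pow_atTop_nhds_zero_of_lt_one (r := (1 / 2 : ℝ)) (by norm_num)
      (by norm_num)).const_mul 3
    rwa [mul_zero] at this
  have h2 := ge_of_tendsto' h1 (fun m => (h m).2)
  linarith

theorem small {p : ℝ≥0∞} (hp1 : 1 ≤ p) (hp : p ≠ ∞) {Ω : Set ℂ} (hne : (Ωᶜ : Set ℂ).Nonempty)
    (hO : IsOpen Ω) (hb : Bornology.IsBounded Ω) {f : ℂ → ℂ} (hfp : MemLp f p (volume.restrict Ω)) :
    Tendsto (fun n => eLpNorm f p (volume.restrict (Tc Ωᶜ n))) atTop (𝓝 0) := by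
  have hsub : ∀ n, Tc Ωᶜ n ⊆ Ω := by
    intro n z hz
    have := (hO.isClosed_compl.notMem_iff_infDist_pos hne).2 hz.1
    simpa using this
  have hvol : Tendsto (volume ∘ Tc Ωᶜ) atTop (𝓝 (volume (⋂ n, Tc Ωᶜ n))) :=
    tendsto_measure_iInter_atTop (fun n => (Tc_meas _ n).nullMeasurableSet) (Tc_anti _)
      ⟨0, ((measure_mono (hsub 0)).trans_lt hb.measure_lt_top).ne⟩
  rw [Tc_inter, measure_empty] at hvol
  rw [ENNReal.tendsto_nhds_zero]
  intro ε hε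
  rcases eq_or_ne ε ∞ with h | h
  · rw [h]
    exact Eventually.of_forall (fun _ => le_top)
  have hε' : 0 < ε.toReal := ENNReal.toReal_pos hε.ne' h
  obtain ⟨δ, hδ, H⟩ := hfp.eLpNorm_indicator_le hp1 hp hε'
  have hv := (ENNReal.tendsto_nhds_zero.1 hvol) (ENNReal.ofReal δ) (ENNReal.ofReal_pos.2 hδ)
  filter_upwards [hv] with n hn
  have h1 := H (Tc Ωᶜ n) (Tc_meas _ n) ((Measure.restrict_apply_le Ω (Tc Ωᶜ n)).trans hn)
  rw [eLpNorm_indicator_eq_eLpNorm_restrict (Tc_meas _ n), Measure.restrict_restrict (Tc_meas _ n),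
    inter_eq_self_of_subset_left (hsub n), ENNReal.ofReal_toReal h] at h1
  exact h1

theorem pz {p q : ℝ≥0∞} [ENNReal.HolderConjugate p q] (hp : p ≠ ∞) {s R r0 : ℝ}
    (hs1 : 1 < s) (hs2 : s < 2) (hsq : ENNReal.ofReal s ≤ q) (hR : 1 ≤ R) (hr0 : 0 < r0)
    {Ω Z : Set ℂ} (hO : IsOpen Ω) (hΩR : Ω ⊆ ball (0 : ℂ) R)
    {k f : ℂ → ℂ} (hk : Measurable k) (hkΩ : ∀ ζ, ζ ∉ Ω → k ζ = 0)
    (hkq : eLpNorm k q volume ≠ ∞) (hki : Integrable k)
    (hf : DifferentiableOn ℂ f Ω) (hfp : MemLp f p (volume.restrict Ω))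
    (hZ : ∀ w ∈ Z, Integrable (fun ζ => k ζ / (ζ - w)) ∧ ∫ ζ, k ζ / (ζ - w) = 0)
    (hcirc : ∀ z', z' ∉ Ω → ∀ r : ℝ, 0 < r → r < r0 → ∃ w ∈ Z, ‖w - z'‖ = r) :
    ∫ ζ, k ζ * f ζ = 0 := by
  have hp1 : 1 ≤ p := ENNReal.HolderConjugate.one_le p q
  have hb : Bornology.IsBounded Ω := isBounded_ball.subset hΩR
  have hne : (Ωᶜ : Set ℂ).Nonempty := by
    refine ⟨(R : ℂ), fun h => ?_⟩
    have h1 := hΩR h
    rw [mem_ball_zero_iff, Complex.norm_real, Real.norm_eq_abs, abs_of_pos (by linarith)] at h1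
    exact lt_irrefl _ h1
  have hdpos : ∀ z, 0 < infDist z Ωᶜ → z ∈ Ω := by
    intro z hz
    have := (hO.isClosed_compl.notMem_iff_infDist_pos hne).2 hz
    simpa using this
  have hdpos' : ∀ z ∈ Ω, 0 < infDist z Ωᶜ := by
    intro z hz
    exact (hO.isClosed_compl.notMem_iff_infDist_pos hne).1 (by simpa using hz)
  -- integrability of `k f`
  have hkf : Integrable (fun ζ => k ζ * f ζ) := by
    have hkL : MemLp k q (volume.restrict Ω) :=
      MemLp.restrict Ω (⟨hk.aestronglyMeasurable, lt_top_iff_ne_top.2 hkq⟩ : MemLp k q volume)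
    have h1 : Integrable (f * k) (volume.restrict Ω) := hfp.integrable_mul hkL
    have h2 : IntegrableOn (fun ζ => k ζ * f ζ) Ω := by
      refine h1.congr (Eventually.of_forall (fun ζ => ?_))
      simp only [Pi.mul_apply]
      ring
    refine h2.integrable_of_forall_notMem_eq_zero ?_
    intro ζ hζ
    rw [hkΩ ζ hζ, zero_mul]
  obtain ⟨C2, hC2, hardy⟩ := hardy_pt hs1 hs2 hR
  obtain ⟨C1, hC1, hsm⟩ := hsum (p := p) (q := q) hp hs1.le hsq hR
  obtain ⟨C3, hC3, hcut⟩ := cut_bound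
  obtain ⟨m1, hm1⟩ := exists_pow_lt_of_lt_one hr0 (show (1 / 2 : ℝ) < 1 by norm_num)
  have hkball : ∀ ζ, ζ ∉ ball (0 : ℂ) R → k ζ = 0 := fun ζ hζ => hkΩ ζ (fun h => hζ (hΩR h))
  set K : ℝ≥0∞ := ENNReal.ofReal C3 * (C2 * C1) with hK
  have hKt : K ≠ ∞ := ENNReal.mul_ne_top ENNReal.ofReal_ne_top (ENNReal.mul_ne_top hC2 hC1)
  have key : ∀ m0 : ℕ, ∃ χ : ℂ → ℝ, Continuous χ ∧ (∀ z, 0 ≤ χ z ∧ χ z ≤ 1) ∧
      (∀ z, 3 * (1 / 2) ^ m0 ≤ infDist z Ωᶜ → χ z = 1) ∧ (max m1 1 ≤ m0 →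
      ‖∫ ζ, k ζ * (f ζ * χ ζ)‖ₑ ≤
        K * (eLpNorm f p (volume.restrict (Tc Ωᶜ m0)) * eLpNorm k q volume)) := by
    intro m0
    by_cases hm0 : max m1 1 ≤ m0
    swap
    · exact ⟨fun _ => 1, continuous_const, fun z => ⟨zero_le_one, le_rfl⟩, fun _ _ => rfl,
        fun h => absurd h hm0⟩
    have hm01 : m1 ≤ m0 := (le_max_left _ _).trans hm0
    have hm02 : 1 ≤ m0 := (le_max_right _ _).trans hm0
    obtain ⟨m, hm, hmb⟩ := hsm f k hk (Tc Ωᶜ m0) (Sh Ωᶜ) m0 hm02 (Tc_meas _ _) (Sh_meas _)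
      (hfp.1.mono_measure (Measure.restrict_mono (fun z hz => hdpos z hz.1) le_rfl))
      (by
        intro m hm z hz
        have h1 : (1 / 2 : ℝ) ^ m ≤ (1 / 2) ^ m0 :=
          pow_le_pow_of_le_one (by norm_num) (by norm_num) hm
        have h2 : (0 : ℝ) < (1 / 2) ^ m := by positivity
        exact ⟨h2.trans_le hz.1, by linarith [hz.2]⟩)
      (by
        intro z m m' hz hz'
        by_contra hc
        have hc' : m + 2 ≤ m' := by omega
        have h1 : (1 / 2 : ℝ) ^ m' ≤ (1 / 2) ^ (m + 2) :=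
          pow_le_pow_of_le_one (by norm_num) (by norm_num) hc'
        have h2 : (1 / 2 : ℝ) ^ (m + 2) = (1 / 4) * (1 / 2) ^ m := by
          rw [pow_add]; ring
        have h3 : (0 : ℝ) < (1 / 2) ^ m := by positivity
        have h4 := hz.1
        have h5 := hz'.2
        rw [h2] at h1
        linarith)
    have hδ : (0 : ℝ) < (1 / 2) ^ m := by positivity
    obtain ⟨χ, hχ1, hχ2, -, hχ4, hχ5⟩ := hcut Ω hO hb f k hf hk hki ((1 / 2) ^ m) hδ
    refine ⟨χ, hχ1, hχ2, ?_, fun _ => ?_⟩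
    · intro z hz
      refine hχ4 z (le_trans ?_ hz)
      have h1 : (1 / 2 : ℝ) ^ m ≤ (1 / 2) ^ m0 :=
        pow_le_pow_of_le_one (by norm_num) (by norm_num) hm
      linarith
    · have e1 : ENNReal.ofReal (C3 / (1 / 2) ^ m) = ENNReal.ofReal C3 * 2 ^ m := by
        have : C3 / (1 / 2) ^ m = C3 * 2 ^ m := by
          rw [one_div, inv_pow, div_inv_eq_mul]
        rw [this, ENNReal.ofReal_mul hC3.le, ENNReal.ofReal_pow (by norm_num)]
        norm_num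
      have e2 : {z | (1 / 2 : ℝ) ^ m ≤ infDist z Ωᶜ ∧ infDist z Ωᶜ ≤ 3 * (1 / 2) ^ m} = Sh Ωᶜ m := rfl
      rw [e1, e2, mul_assoc, ← lintegral_const_mul' _ _ (ENNReal.pow_ne_top ENNReal.ofNat_ne_top)] at hχ5
      have h3 : ∫⁻ z in Sh Ωᶜ m, 2 ^ m * (‖f z‖ₑ * ‖∫ ζ, k ζ / (ζ - z)‖ₑ) ≤
          ∫⁻ z in Sh Ωᶜ m, C2 * (‖f z‖ₑ * (
        (∑ j ∈ Finset.range (m + 1), 4 ^ j * ∫⁻ ζ in ball z (2 * R * (1 / 2) ^ j), ‖k ζ‖ₑ) +
        2 ^ m * (∫⁻ ζ in ball z (8 * R * (1 / 2) ^ m), ‖k ζ‖ₑ * ‖ζ - z‖ₑ⁻¹) +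
        (4 ^ m * ∫⁻ ζ in ball z (32 * (1 / 2) ^ m), ‖k ζ‖ₑ ^ s) ^ (1 / s))) := by
        refine setLIntegral_mono' (Sh_meas _ _) ?_
        intro z hz
        have hzΩ : z ∈ Ω := hdpos z (hδ.trans_le hz.1)
        obtain ⟨z', hz', hzd⟩ := hO.isClosed_compl.exists_infDist_eq_dist hne z
        have h4 := hardy k hk hkball Z z z' m hZ (hΩR hzΩ)
          (by rw [← dist_eq_norm, ← hzd]; exact hz.2)
          (fun r hr hr' => hcirc z' hz' r hr (by
            have h1 : (1 / 2 : ℝ) ^ m ≤ (1 / 2) ^ m1 :=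
              pow_le_pow_of_le_one (by norm_num) (by norm_num) (hm01.trans hm)
            linarith))
        calc 2 ^ m * (‖f z‖ₑ * ‖∫ ζ, k ζ / (ζ - z)‖ₑ) = ‖f z‖ₑ * (2 ^ m * ‖∫ ζ, k ζ / (ζ - z)‖ₑ) := by
              ring
          _ ≤ _ := mul_le_mul' le_rfl h4
          _ = _ := by ring
      rw [lintegral_const_mul' _ _ hC2] at h3
      calc _ ≤ _ := hχ5
        _ ≤ ENNReal.ofReal C3 * (C2 * (C1 * (eLpNorm f p (volume.restrict (Tc Ωᶜ m0)) *
            eLpNorm k q volume))) := mul_le_mul' le_rfl (h3.trans (mul_le_mul' le_rfl hmb))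
        _ = _ := by rw [hK]; ring
  choose χ hχ1 hχ2 hχ3 hχ4 using key
  have hlim : Tendsto (fun n => ∫ ζ, k ζ * (f ζ * χ n ζ)) atTop (𝓝 (∫ ζ, k ζ * f ζ)) := by
    refine tendsto_integral_of_dominated_convergence (fun ζ => ‖k ζ * f ζ‖) ?_ hkf.norm ?_ ?_
    · intro n
      have h1 : AEStronglyMeasurable (fun ζ => (k ζ * f ζ) * ((χ n ζ : ℝ) : ℂ)) volume :=
        hkf.1.mul (Complex.continuous_ofReal.comp (hχ1 n)).aestronglyMeasurable
      refine h1.congr (Eventually.of_forall (fun ζ => ?_))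
      simp only
      ring
    · intro n
      refine Eventually.of_forall (fun ζ => ?_)
      have e : k ζ * (f ζ * ((χ n ζ : ℝ) : ℂ)) = (k ζ * f ζ) * ((χ n ζ : ℝ) : ℂ) := by ring
      rw [e, norm_mul, Complex.norm_real, Real.norm_eq_abs, abs_of_nonneg (hχ2 n ζ).1]
      exact mul_le_of_le_one_right (norm_nonneg _) (hχ2 n ζ).2
    · refine Eventually.of_forall (fun ζ => ?_)
      by_cases hζ : ζ ∈ Ω
      · have hd := hdpos' ζ hζ
        have h1 : Tendsto (fun m : ℕ => 3 * (1 / 2 : ℝ) ^ m) atTop (𝓝 0) := by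
          have := (tendsto_pow_atTop_nhds_zero_of_lt_one (r := (1 / 2 : ℝ)) (by norm_num)
            (by norm_num)).const_mul 3
          rwa [mul_zero] at this
        have h2 := h1.eventually_lt_const hd
        refine tendsto_const_nhds.congr' ?_
        filter_upwards [h2] with n hn
        rw [hχ3 n ζ hn.le]
        simp
      · simp only [hkΩ ζ hζ, zero_mul]
        exact tendsto_const_nhds
  have hlim2 : Tendsto (fun n => K * (eLpNorm f p (volume.restrict (Tc Ωᶜ n)) * eLpNorm k q volume))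
      atTop (𝓝 0) := by
    have h1 := ENNReal.Tendsto.mul_const (small hp1 hp hne hO hb hfp) (b := eLpNorm k q volume)
      (Or.inr hkq)
    rw [zero_mul] at h1
    have h2 := ENNReal.Tendsto.const_mul h1 (a := K) (Or.inr hKt)
    rwa [mul_zero] at h2
  have hlim3 : Tendsto (fun n => ‖∫ ζ, k ζ * (f ζ * χ n ζ)‖ₑ) atTop (𝓝 ‖∫ ζ, k ζ * f ζ‖ₑ) :=
    (continuous_enorm.tendsto _).comp hlim
  have h0 : ‖∫ ζ, k ζ * f ζ‖ₑ ≤ 0 := by
    refine le_of_tendsto_of_tendsto hlim3 hlim2 ?_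
    filter_upwards [eventually_ge_atTop (max m1 1)] with n hn
    exact hχ4 n hn
  have h1 : ‖∫ ζ, k ζ * f ζ‖ₑ = 0 := le_antisymm h0 zero_le
  rwa [enorm_eq_zero] at h1


end Pool.Agent.Helper265.Br
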