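import Mathlib

set_option autoImplicit false

namespace Pool.Agent.Helper265.EPR

open Finset

variable {n : ℕ}

open Classical in
/-- adjacency indicator -/
noncomputable def A (G : SimpleGraph (Fin n)) (i j : Fin n) : ℝ := if G.Adj i j then 1 else 0

open Classical in
/-- indicator of distinct nonadjacent pairs -/
noncomputable def N (G : SimpleGraph (Fin n)) (i j : Fin n) : ℝ :=
  if i ≠ j ∧ ¬ G.Adj i j then 1 else 0

variable (G : SimpleGraph (Fin n))

lemma A_symm (i j : Fin n) : A G i j = A G j i := by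
  unfold A
  by_cases h : G.Adj i j
  · rw [if_pos h, if_pos h.symm]
  · rw [if_neg h, if_neg (fun h' => h h'.symm)]

lemma N_symm (i j : Fin n) : N G i j = N G j i := by
  unfold N
  by_cases h : i ≠ j ∧ ¬ G.Adj i j
  · rw [if_pos h, if_pos ⟨h.1.symm, fun h' => h.2 h'.symm⟩]
  · rw [if_neg h, if_neg (fun h' => h ⟨h'.1.symm, fun h'' => h'.2 h''.symm⟩)]

lemma A_nonneg (i j : Fin n) : 0 ≤ A G i j := by
  unfold A; split_ifs <;> norm_num

lemma N_nonneg (i j : Fin n) : 0 ≤ N G i j := by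
  unfold N; split_ifs <;> norm_num

lemma A_le_one (i j : Fin n) : A G i j ≤ 1 := by
  unfold A; split_ifs <;> norm_num

lemma N_le_one (i j : Fin n) : N G i j ≤ 1 := by
  unfold N; split_ifs <;> norm_num

lemma A_cases (i j : Fin n) : A G i j = 0 ∨ (A G i j = 1 ∧ G.Adj i j) := by
  unfold A; split_ifs with h
  · right; exact ⟨rfl, h⟩
  · left; rfl

lemma N_cases (i j : Fin n) : N G i j = 0 ∨ (N G i j = 1 ∧ i ≠ j ∧ ¬ G.Adj i j) := by
  unfold N; split_ifs with h
  · right; exact ⟨rfl, h⟩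
  · left; rfl

lemma A_sq (i j : Fin n) : A G i j * A G i j = A G i j := by
  rcases A_cases G i j with h | ⟨h, _⟩ <;> rw [h] <;> norm_num

/-- pseudo-randomness -/
structure PR (G : SimpleGraph (Fin n)) (δ : ℝ) : Prop where
  deg : ∀ i, |∑ j, A G i j - n / 2| ≤ δ * n
  codeg : ∀ i j, i ≠ j → |∑ w, A G i w * A G j w - n / 4| ≤ δ * n
  pat : ∀ a b c d : Fin n, a ≠ b → a ≠ c → a ≠ d → b ≠ c → b ≠ d → c ≠ d →
    (n : ℝ) / 32 ≤ ∑ v, A G v a * A G v b * (N G v c * N G v d)

/-- spread of the sums on one nonadjacent pair -/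
noncomputable def Psi (β : Fin n → Fin n → ℝ) (a b : Fin n) : ℝ :=
  ∑ w, ∑ w', N G a b * (A G a w * A G b w) * (A G a w' * A G b w') *
    |β a w + β b w - β a w' - β b w'|

noncomputable def S1 (β : Fin n → Fin n → ℝ) : ℝ :=
  ∑ i, ∑ w, ∑ w', A G i w * A G i w' * |β i w - β i w'|

lemma sum4_comm {α : Type} [Fintype α] (g : α → α → α → α → ℝ) :
    ∑ j, ∑ l, ∑ w, ∑ w', g j l w w' = ∑ w, ∑ w', ∑ j, ∑ l, g j l w w' := by
  calc ∑ j, ∑ l, ∑ w, ∑ w', g j l w w'
      = ∑ j, ∑ w, ∑ l, ∑ w', g j l w w' :=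
        Finset.sum_congr rfl fun j _ => Finset.sum_comm
    _ = ∑ w, ∑ j, ∑ l, ∑ w', g j l w w' := Finset.sum_comm
    _ = ∑ w, ∑ j, ∑ w', ∑ l, g j l w w' :=
        Finset.sum_congr rfl fun w _ => Finset.sum_congr rfl fun j _ => Finset.sum_comm
    _ = ∑ w, ∑ w', ∑ j, ∑ l, g j l w w' :=
        Finset.sum_congr rfl fun w _ => Finset.sum_comm

lemma Psi_nonneg (β : Fin n → Fin n → ℝ) (a b : Fin n) : 0 ≤ Psi G β a b := by
  unfold Psi
  refine Finset.sum_nonneg fun w _ => Finset.sum_nonneg fun w' _ => ?_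
  have h1 := N_nonneg G a b
  have h2 := A_nonneg G a w
  have h3 := A_nonneg G b w
  have h4 := A_nonneg G a w'
  have h5 := A_nonneg G b w'
  positivity

/-- the weight of a gadget -/
noncomputable def om (i j l w w' : Fin n) : ℝ :=
  (A G i w * A G i w') * (A G j w * A G j w' * N G j i) *
    (A G l w * A G l w' * (N G l i * N G l j))

lemma om_nonneg (i j l w w' : Fin n) : 0 ≤ om G i j l w w' := by
  unfold om
  have := A_nonneg G
  have := N_nonneg G
  have h1 := A_nonneg G i w
  have h2 := A_nonneg G i w'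
  have h3 := A_nonneg G j w
  have h4 := A_nonneg G j w'
  have h5 := A_nonneg G l w
  have h6 := A_nonneg G l w'
  have h7 := N_nonneg G j i
  have h8 := N_nonneg G l i
  have h9 := N_nonneg G l j
  positivity

lemma om_le_ij (i j l w w' : Fin n) :
    om G i j l w w' ≤ N G i j * (A G i w * A G j w) * (A G i w' * A G j w') := by
  unfold om
  rw [N_symm G j i]
  rcases A_cases G i w with h1 | ⟨h1, _⟩ <;> rcases A_cases G i w' with h2 | ⟨h2, _⟩ <;>
  rcases A_cases G j w with h3 | ⟨h3, _⟩ <;> rcases A_cases G j w' with h4 | ⟨h4, _⟩ <;>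
  rcases A_cases G l w with h5 | ⟨h5, _⟩ <;> rcases A_cases G l w' with h6 | ⟨h6, _⟩ <;>
  rcases N_cases G i j with h7 | ⟨h7, _⟩ <;> rcases N_cases G l i with h8 | ⟨h8, _⟩ <;>
  rcases N_cases G l j with h9 | ⟨h9, _⟩ <;>
  simp [h1, h2, h3, h4, h5, h6, h7, h8, h9]

lemma om_le_il (i j l w w' : Fin n) :
    om G i j l w w' ≤ N G i l * (A G i w * A G l w) * (A G i w' * A G l w') := by
  unfold om
  rw [N_symm G i l]
  rcases A_cases G i w with h1 | ⟨h1, _⟩ <;> rcases A_cases G i w' with h2 | ⟨h2, _⟩ <;>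
  rcases A_cases G j w with h3 | ⟨h3, _⟩ <;> rcases A_cases G j w' with h4 | ⟨h4, _⟩ <;>
  rcases A_cases G l w with h5 | ⟨h5, _⟩ <;> rcases A_cases G l w' with h6 | ⟨h6, _⟩ <;>
  rcases N_cases G j i with h7 | ⟨h7, _⟩ <;> rcases N_cases G l i with h8 | ⟨h8, _⟩ <;>
  rcases N_cases G l j with h9 | ⟨h9, _⟩ <;>
  simp [h1, h2, h3, h4, h5, h6, h7, h8, h9]

lemma om_le_jl (i j l w w' : Fin n) :
    om G i j l w w' ≤ N G j l * (A G j w * A G l w) * (A G j w' * A G l w') := by
  unfold om
  rw [N_symm G j l]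
  rcases A_cases G i w with h1 | ⟨h1, _⟩ <;> rcases A_cases G i w' with h2 | ⟨h2, _⟩ <;>
  rcases A_cases G j w with h3 | ⟨h3, _⟩ <;> rcases A_cases G j w' with h4 | ⟨h4, _⟩ <;>
  rcases A_cases G l w with h5 | ⟨h5, _⟩ <;> rcases A_cases G l w' with h6 | ⟨h6, _⟩ <;>
  rcases N_cases G j i with h7 | ⟨h7, _⟩ <;> rcases N_cases G l i with h8 | ⟨h8, _⟩ <;>
  rcases N_cases G l j with h9 | ⟨h9, _⟩ <;>
  simp [h1, h2, h3, h4, h5, h6, h7, h8, h9]

/-- lower bound for the number of gadgets -/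
lemma om_sum {δ : ℝ} (hG : PR G δ) (hn : 4 ≤ n) (i w w' : Fin n) (hw : w ≠ w')
    (h1 : G.Adj i w) (h2 : G.Adj i w') :
    ((n : ℝ) / 32) ^ 2 ≤ ∑ j, ∑ l, om G i j l w w' := by
  have hA1 : A G i w = 1 := by unfold A; rw [if_pos h1]
  have hA2 : A G i w' = 1 := by unfold A; rw [if_pos h2]
  have hn0 : (0 : ℝ) ≤ n / 32 := by positivity
  -- a fourth vertex
  obtain ⟨d, hd⟩ : ∃ d : Fin n, d ∉ ({w, w', i} : Finset (Fin n)) := by
    by_contra hcon
    push Not at hcon
    have h3 : (Finset.univ : Finset (Fin n)) ⊆ {w, w', i} := fun x _ => hcon x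
    have h4 := Finset.card_le_card h3
    have h5 := Finset.card_le_three (a := w) (b := w') (c := i)
    rw [Finset.card_univ, Fintype.card_fin] at h4
    omega
  simp only [Finset.mem_insert, Finset.mem_singleton, not_or] at hd
  have hj : (n : ℝ) / 32 ≤ ∑ j, A G j w * A G j w' * N G j i := by
    refine (hG.pat w w' i d hw h1.ne.symm (fun h => hd.1 h.symm) h2.ne.symm
      (fun h => hd.2.1 h.symm) (fun h => hd.2.2 h.symm)).trans ?_
    refine Finset.sum_le_sum fun v _ => ?_
    have a1 := A_nonneg G v w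
    have a2 := A_nonneg G v w'
    have a3 := N_nonneg G v i
    have a4 := N_le_one G v d
    have a5 : N G v i * N G v d ≤ N G v i := by nlinarith
    exact mul_le_mul_of_nonneg_left a5 (mul_nonneg a1 a2)
  have hl : ∀ j, (A G j w * A G j w' * N G j i) * ((n : ℝ) / 32) ≤ ∑ l, om G i j l w w' := by
    intro j
    have e1 : ∑ l, om G i j l w w' = (A G j w * A G j w' * N G j i) *
        ∑ l, A G l w * A G l w' * (N G l i * N G l j) := by
      rw [Finset.mul_sum]
      refine Finset.sum_congr rfl fun l _ => ?_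
      unfold om
      rw [hA1, hA2]; ring
    rw [e1]
    rcases A_cases G j w with h3 | ⟨h3, h3'⟩
    · rw [h3]; simp
    rcases A_cases G j w' with h4 | ⟨h4, h4'⟩
    · rw [h4]; simp
    rcases N_cases G j i with h5 | ⟨h5, h5', h5''⟩
    · rw [h5]; simp
    rw [h3, h4, h5]
    have := hG.pat w w' i j hw h1.ne.symm h3'.ne.symm h2.ne.symm h4'.ne.symm (fun h => h5' h.symm)
    linarith
  calc ((n : ℝ) / 32) ^ 2 = (n / 32) * (n / 32) := by ring
    _ ≤ (∑ j, A G j w * A G j w' * N G j i) * (n / 32) := mul_le_mul_of_nonneg_right hj hn0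
    _ = ∑ j, (A G j w * A G j w' * N G j i) * (n / 32) := by rw [Finset.sum_mul]
    _ ≤ ∑ j, ∑ l, om G i j l w w' := Finset.sum_le_sum fun j _ => hl j

lemma step1 {δ : ℝ} (hG : PR G δ) (hn : 4 ≤ n) (β : Fin n → Fin n → ℝ) :
    2 * ((n : ℝ) / 32) ^ 2 * S1 G β ≤ 3 * n * ∑ a, ∑ b, Psi G β a b := by
  -- lower bound
  have hlow : 2 * ((n : ℝ) / 32) ^ 2 * S1 G β ≤
      ∑ i, ∑ j, ∑ l, ∑ w, ∑ w', om G i j l w w' * (2 * |β i w - β i w'|) := by
    unfold S1
    rw [Finset.mul_sum]
    refine Finset.sum_le_sum fun i _ => ?_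
    rw [sum4_comm, Finset.mul_sum]
    refine Finset.sum_le_sum fun w _ => ?_
    rw [Finset.mul_sum]
    refine Finset.sum_le_sum fun w' _ => ?_
    have e1 : ∑ j, ∑ l, om G i j l w w' * (2 * |β i w - β i w'|) =
        (∑ j, ∑ l, om G i j l w w') * (2 * |β i w - β i w'|) := by
      rw [Finset.sum_mul]
      refine Finset.sum_congr rfl fun j _ => ?_
      rw [Finset.sum_mul]
    rw [e1]
    have hnn : 0 ≤ ∑ j, ∑ l, om G i j l w w' :=
      Finset.sum_nonneg fun j _ => Finset.sum_nonneg fun l _ => om_nonneg G i j l w w'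
    rcases A_cases G i w with h1 | ⟨h1, h1'⟩
    · rw [h1]
      have : 0 ≤ (∑ j, ∑ l, om G i j l w w') * (2 * |β i w - β i w'|) := by positivity
      simpa using this
    rcases A_cases G i w' with h2 | ⟨h2, h2'⟩
    · rw [h2]
      have : 0 ≤ (∑ j, ∑ l, om G i j l w w') * (2 * |β i w - β i w'|) := by positivity
      simpa using this
    by_cases hw : w = w'
    · subst hw; simp
    rw [h1, h2]
    have h3 := om_sum G hG hn i w w' hw h1' h2'
    have h4 : 0 ≤ |β i w - β i w'| := abs_nonneg _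
    nlinarith
  -- upper bound
  have hpt : ∀ i j l w w', om G i j l w w' * (2 * |β i w - β i w'|) ≤
      N G i j * (A G i w * A G j w) * (A G i w' * A G j w') * |β i w + β j w - β i w' - β j w'| +
      N G i l * (A G i w * A G l w) * (A G i w' * A G l w') * |β i w + β l w - β i w' - β l w'| +
      N G j l * (A G j w * A G l w) * (A G j w' * A G l w') * |β j w + β l w - β j w' - β l w'| := by
    intro i j l w w'
    have h0 := om_nonneg G i j l w w'
    have h1 := om_le_ij G i j l w w'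
    have h2 := om_le_il G i j l w w'
    have h3 := om_le_jl G i j l w w'
    have h4 : 2 * |β i w - β i w'| ≤ |β i w + β j w - β i w' - β j w'| +
        |β i w + β l w - β i w' - β l w'| + |β j w + β l w - β j w' - β l w'| := by
      have e : 2 * (β i w - β i w') = (β i w + β j w - β i w' - β j w') +
        (β i w + β l w - β i w' - β l w') - (β j w + β l w - β j w' - β l w') := by ring
      calc 2 * |β i w - β i w'| = |2 * (β i w - β i w')| := by
            rw [abs_mul]; norm_num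
        _ ≤ _ := by
            rw [e]
            refine (abs_sub _ _).trans ?_
            exact add_le_add (abs_add_le _ _) le_rfl
    calc om G i j l w w' * (2 * |β i w - β i w'|) ≤ om G i j l w w' *
        (|β i w + β j w - β i w' - β j w'| +
        |β i w + β l w - β i w' - β l w'| + |β j w + β l w - β j w' - β l w'|) :=
          mul_le_mul_of_nonneg_left h4 h0
      _ = om G i j l w w' * |β i w + β j w - β i w' - β j w'| +
          om G i j l w w' * |β i w + β l w - β i w' - β l w'| +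
          om G i j l w w' * |β j w + β l w - β j w' - β l w'| := by ring
      _ ≤ _ := by
        refine add_le_add (add_le_add ?_ ?_) ?_
        · exact mul_le_mul_of_nonneg_right h1 (abs_nonneg _)
        · exact mul_le_mul_of_nonneg_right h2 (abs_nonneg _)
        · exact mul_le_mul_of_nonneg_right h3 (abs_nonneg _)
  refine hlow.trans ?_
  calc ∑ i, ∑ j, ∑ l, ∑ w, ∑ w', om G i j l w w' * (2 * |β i w - β i w'|)
      ≤ ∑ i, ∑ j, ∑ l, (Psi G β i j + Psi G β i l + Psi G β j l) := by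
        refine Finset.sum_le_sum fun i _ => Finset.sum_le_sum fun j _ =>
          Finset.sum_le_sum fun l _ => ?_
        unfold Psi
        rw [← Finset.sum_add_distrib, ← Finset.sum_add_distrib]
        refine Finset.sum_le_sum fun w _ => ?_
        rw [← Finset.sum_add_distrib, ← Finset.sum_add_distrib]
        exact Finset.sum_le_sum fun w' _ => hpt i j l w w'
    _ = 3 * n * ∑ a, ∑ b, Psi G β a b := by
        simp only [Finset.sum_add_distrib, Finset.sum_const, Finset.card_univ, Fintype.card_fin,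
          nsmul_eq_mul, ← Finset.mul_sum]
        ring

/-- differences of all pairs of adjacent ordered pairs -/
noncomputable def T2 (β : Fin n → Fin n → ℝ) : ℝ :=
  ∑ i, ∑ w, ∑ i', ∑ w', A G i w * A G i' w' * |β i w - β i' w'|

lemma S1_nonneg (β : Fin n → Fin n → ℝ) : 0 ≤ S1 G β := by
  unfold S1
  refine Finset.sum_nonneg fun i _ => Finset.sum_nonneg fun w _ => Finset.sum_nonneg fun w' _ => ?_
  have h2 := A_nonneg G i w
  have h3 := A_nonneg G i w'
  positivity

lemma step2 {δ : ℝ} (hG : PR G δ) (hδ : δ ≤ 1 / 8) (hn : 1 ≤ n) (β : Fin n → Fin n → ℝ)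
    (hs : ∀ i j, β i j = β j i) : T2 G β ≤ 25 * n * S1 G β := by
  have hn' : (1 : ℝ) ≤ n := by exact_mod_cast hn
  have hpt : ∀ i w i' w', ((n : ℝ) / 8) * (A G i w * A G i' w' * |β i w - β i' w'|) ≤
      ∑ p, (A G i w * A G i p * |β i w - β i p|) + ∑ p, (A G p i * A G p i' * |β p i - β p i'|) +
      ∑ p, (A G i' p * A G i' w' * |β i' p - β i' w'|) +
      (if i = i' then ((n : ℝ) / 8) * (A G i w * A G i w' * |β i w - β i w'|) else 0) := by
    intro i w i' w'
    have n1 : 0 ≤ ∑ p, (A G i w * A G i p * |β i w - β i p|) :=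
      Finset.sum_nonneg fun p _ => mul_nonneg (mul_nonneg (A_nonneg G _ _) (A_nonneg G _ _)) (abs_nonneg _)
    have n2 : 0 ≤ ∑ p, (A G p i * A G p i' * |β p i - β p i'|) :=
      Finset.sum_nonneg fun p _ => mul_nonneg (mul_nonneg (A_nonneg G _ _) (A_nonneg G _ _)) (abs_nonneg _)
    have n3 : 0 ≤ ∑ p, (A G i' p * A G i' w' * |β i' p - β i' w'|) :=
      Finset.sum_nonneg fun p _ => mul_nonneg (mul_nonneg (A_nonneg G _ _) (A_nonneg G _ _)) (abs_nonneg _)
    by_cases hii : i = i'
    · subst hii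
      rw [if_pos rfl]
      linarith
    rw [if_neg hii, add_zero]
    rcases A_cases G i w with h1 | ⟨h1, h1'⟩
    · rw [h1]
      simp only [zero_mul, mul_zero, Finset.sum_const_zero]
      linarith
    rcases A_cases G i' w' with h2 | ⟨h2, h2'⟩
    · rw [h2]
      simp only [zero_mul, mul_zero, Finset.sum_const_zero]
      linarith
    have hc : (n : ℝ) / 8 ≤ ∑ p, A G i p * A G i' p := by
      have := (abs_le.1 (hG.codeg i i' hii)).1
      nlinarith
    rw [h1, h2, ← Finset.sum_add_distrib, ← Finset.sum_add_distrib]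
    calc (n : ℝ) / 8 * (1 * 1 * |β i w - β i' w'|) ≤
        (∑ p, A G i p * A G i' p) * |β i w - β i' w'| := by
          have := abs_nonneg (β i w - β i' w')
          nlinarith
      _ = ∑ p, A G i p * A G i' p * |β i w - β i' w'| := by rw [Finset.sum_mul]
      _ ≤ _ := by
        refine Finset.sum_le_sum fun p _ => ?_
        rcases A_cases G i p with h3 | ⟨h3, h3'⟩
        · rw [A_symm G p i, h3]
          have := A_nonneg G i' p
          have := abs_nonneg (β i' p - β i' w')
          simp only [zero_mul, mul_zero, zero_add]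
          positivity
        rcases A_cases G i' p with h4 | ⟨h4, h4'⟩
        · rw [A_symm G p i', h4]
          have := A_nonneg G i p
          have := abs_nonneg (β i w - β i p)
          simp only [zero_mul, mul_zero, add_zero]
          positivity
        rw [A_symm G p i, A_symm G p i', h3, h4, hs p i, hs p i']
        have e : β i w - β i' w' = (β i w - β i p) + (β i p - β i' p) + (β i' p - β i' w') := by ring
        rw [e]
        have := abs_add_three (β i w - β i p) (β i p - β i' p) (β i' p - β i' w')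
        linarith
  have hsum : ((n : ℝ) / 8) * T2 G β ≤ ∑ i, ∑ w, ∑ i', ∑ w',
      (∑ p, (A G i w * A G i p * |β i w - β i p|) + ∑ p, (A G p i * A G p i' * |β p i - β p i'|) +
      ∑ p, (A G i' p * A G i' w' * |β i' p - β i' w'|) +
      (if i = i' then ((n : ℝ) / 8) * (A G i w * A G i w' * |β i w - β i w'|) else 0)) := by
    unfold T2
    simp only [Finset.mul_sum]
    exact Finset.sum_le_sum fun i _ => Finset.sum_le_sum fun w _ => Finset.sum_le_sum fun i' _ =>
      Finset.sum_le_sum fun w' _ => hpt i w i' w'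
  have e1 : ∑ i, ∑ w, ∑ _i' : Fin n, ∑ _w' : Fin n, ∑ p, (A G i w * A G i p * |β i w - β i p|) =
      (n : ℝ) ^ 2 * S1 G β := by
    unfold S1
    simp only [Finset.sum_const, Finset.card_univ, Fintype.card_fin, nsmul_eq_mul, ← Finset.mul_sum]
    ring
  have e2 : ∑ i, ∑ _w : Fin n, ∑ i', ∑ _w' : Fin n, ∑ p, (A G p i * A G p i' * |β p i - β p i'|) =
      (n : ℝ) ^ 2 * S1 G β := by
    have : ∑ i, ∑ i', ∑ p, (A G p i * A G p i' * |β p i - β p i'|) = S1 G β := by
      unfold S1
      calc ∑ i, ∑ i', ∑ p, (A G p i * A G p i' * |β p i - β p i'|)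
          = ∑ i, ∑ p, ∑ i', (A G p i * A G p i' * |β p i - β p i'|) :=
            Finset.sum_congr rfl fun i _ => Finset.sum_comm
        _ = _ := Finset.sum_comm
    rw [← this]
    simp only [Finset.sum_const, Finset.card_univ, Fintype.card_fin, nsmul_eq_mul, ← Finset.mul_sum]
    ring
  have e3 : ∑ _i : Fin n, ∑ _w : Fin n, ∑ i', ∑ w', ∑ p, (A G i' p * A G i' w' * |β i' p - β i' w'|) =
      (n : ℝ) ^ 2 * S1 G β := by
    have : ∑ i', ∑ w', ∑ p, (A G i' p * A G i' w' * |β i' p - β i' w'|) = S1 G β := by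
      unfold S1
      exact Finset.sum_congr rfl fun i _ => Finset.sum_comm
    rw [this]
    simp only [Finset.sum_const, Finset.card_univ, Fintype.card_fin, nsmul_eq_mul]
    ring
  have e4 : ∑ i, ∑ w, ∑ i', ∑ w', (if i = i' then ((n : ℝ) / 8) *
      (A G i w * A G i w' * |β i w - β i w'|) else 0) = ((n : ℝ) / 8) * S1 G β := by
    unfold S1
    rw [Finset.mul_sum]
    refine Finset.sum_congr rfl fun i _ => ?_
    rw [Finset.mul_sum]
    refine Finset.sum_congr rfl fun w _ => ?_
    rw [Finset.sum_eq_single i]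
    · simp only [if_true, Finset.mul_sum]
    · intro b _ hb
      simp only [if_neg (Ne.symm hb), Finset.sum_const_zero]
    · intro h; exact absurd (Finset.mem_univ i) h
  simp only [Finset.sum_add_distrib] at hsum
  rw [e1, e2, e3, e4] at hsum
  have h0 := S1_nonneg G β
  have h5 : T2 G β ≤ (24 * n + 1) * S1 G β := by
    have h6 : (n : ℝ) * T2 G β ≤ (n : ℝ) * ((24 * n + 1) * S1 G β) := by nlinarith
    exact le_of_mul_le_mul_left h6 (by linarith)
  nlinarith

/-- total absolute value -/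
noncomputable def L1 (β : Fin n → Fin n → ℝ) : ℝ := ∑ i, ∑ w, A G i w * |β i w|

lemma L1_nonneg (β : Fin n → Fin n → ℝ) : 0 ≤ L1 G β := by
  unfold L1
  refine Finset.sum_nonneg fun i _ => Finset.sum_nonneg fun w _ => ?_
  have h2 := A_nonneg G i w
  positivity

lemma card_adj {δ : ℝ} (hG : PR G δ) (hδ : δ ≤ 1 / 8) :
    (n : ℝ) ^ 2 / 4 ≤ ∑ i, ∑ w, A G i w := by
  have h : ∀ i, (n : ℝ) / 4 ≤ ∑ w, A G i w := by
    intro i
    have := (abs_le.1 (hG.deg i)).1
    have hn : (0 : ℝ) ≤ n := by positivity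
    nlinarith
  calc (n : ℝ) ^ 2 / 4 = ∑ _i : Fin n, (n : ℝ) / 4 := by
        simp only [Finset.sum_const, Finset.card_univ, Fintype.card_fin, nsmul_eq_mul]; ring
    _ ≤ _ := Finset.sum_le_sum fun i _ => h i

lemma step3 {δ : ℝ} (hG : PR G δ) (hδ : δ ≤ 1 / 8) (β : Fin n → Fin n → ℝ)
    (h0 : ∑ i, ∑ w, A G i w * β i w = 0) : ((n : ℝ) ^ 2 / 4) * L1 G β ≤ T2 G β := by
  have hE := card_adj G hG hδ
  refine (mul_le_mul_of_nonneg_right hE (L1_nonneg G β)).trans ?_
  unfold L1 T2
  rw [Finset.mul_sum]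
  refine Finset.sum_le_sum fun i _ => ?_
  rw [Finset.mul_sum]
  refine Finset.sum_le_sum fun w _ => ?_
  have e1 : (∑ i, ∑ w, A G i w) * β i w = ∑ i', ∑ w', A G i' w' * (β i w - β i' w') := by
    simp only [mul_sub, Finset.sum_sub_distrib, h0, sub_zero, Finset.sum_mul]
  have hE0 : 0 ≤ ∑ i, ∑ w, A G i w :=
    Finset.sum_nonneg fun i _ => Finset.sum_nonneg fun w _ => A_nonneg G i w
  calc (∑ i, ∑ w, A G i w) * (A G i w * |β i w|)
      = A G i w * |(∑ i, ∑ w, A G i w) * β i w| := by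
        rw [abs_mul, abs_of_nonneg hE0]; ring
    _ = A G i w * |∑ i', ∑ w', A G i' w' * (β i w - β i' w')| := by rw [e1]
    _ ≤ A G i w * ∑ i', ∑ w', A G i' w' * |β i w - β i' w'| := by
        refine mul_le_mul_of_nonneg_left ?_ (A_nonneg G i w)
        refine (Finset.abs_sum_le_sum_abs _ _).trans ?_
        refine Finset.sum_le_sum fun i' _ => ?_
        refine (Finset.abs_sum_le_sum_abs _ _).trans ?_
        refine Finset.sum_le_sum fun w' _ => ?_
        rw [abs_mul, abs_of_nonneg (A_nonneg G i' w')]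
    _ = _ := by
        rw [Finset.mul_sum]
        refine Finset.sum_congr rfl fun i' _ => ?_
        rw [Finset.mul_sum]
        refine Finset.sum_congr rfl fun w' _ => ?_
        ring

/-- The `L¹` Poincare inequality. -/
theorem poincare {δ : ℝ} (hG : PR G δ) (hδ : δ ≤ 1 / 8) (hn : 4 ≤ n) (β : Fin n → Fin n → ℝ)
    (hs : ∀ i j, β i j = β j i) (h0 : ∑ i, ∑ w, A G i w * β i w = 0) :
    (n : ℝ) ^ 2 * L1 G β ≤ 153600 * ∑ a, ∑ b, Psi G β a b := by
  have s1 := step1 G hG hn β
  have s2 := step2 G hG hδ (by omega) β hs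
  have s3 := step3 G hG hδ β h0
  have hn' : (0 : ℝ) < n := by
    have : 0 < n := by omega
    exact_mod_cast this
  set Ps := ∑ a, ∑ b, Psi G β a b with hPs
  have h1 : (n : ℝ) * S1 G β ≤ 1536 * Ps := by
    have : (n : ℝ) * ((n : ℝ) * S1 G β) ≤ n * (1536 * Ps) := by nlinarith
    exact le_of_mul_le_mul_left this hn'
  nlinarith

end Pool.Agent.Helper265.EPR
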