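import Pool.Agent.Helper265.EPRa

set_option autoImplicit false

namespace Pool.Agent.Helper265.EPR

open Finset

variable {n : ℕ} (G : SimpleGraph (Fin n))

/-- number of common neighbours -/
noncomputable def C (a b : Fin n) : ℝ := ∑ w, A G a w * A G b w

/-- feasible cherry weights -/
def X : Set (Fin n → Fin n → Fin n → ℝ) :=
  {x | (∀ a b w, 0 ≤ x a b w ∧ x a b w ≤ N G a b * (A G a w * A G b w)) ∧
    ∀ a b, ∑ w, x a b w = N G a b}

/-- the uniform weights -/
noncomputable def x0 (a b w : Fin n) : ℝ := N G a b * (A G a w * A G b w) / C G a b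

/-- loads of edges -/
noncomputable def load (x : Fin n → Fin n → Fin n → ℝ) (u w : Fin n) : ℝ :=
  A G u w * (∑ b, (x u b w + x b u w) + ∑ b, (x w b u + x b w u))

lemma load_symm (x : Fin n → Fin n → Fin n → ℝ) (u w : Fin n) : load G x u w = load G x w u := by
  unfold load
  rw [A_symm G u w, add_comm]

lemma load_lin (x y : Fin n → Fin n → Fin n → ℝ) (s t : ℝ) (u w : Fin n) :
    load G (fun a b w => s * x a b w + t * y a b w) u w = s * load G x u w + t * load G y u w := by
  unfold load
  simp only [Finset.sum_add_distrib, ← Finset.mul_sum]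
  ring

lemma supp {x : Fin n → Fin n → Fin n → ℝ} (hx : x ∈ X G) (a b w : Fin n) :
    A G a w * x a b w = x a b w ∧ A G b w * x a b w = x a b w := by
  have h := hx.1 a b w
  rcases A_cases G a w with h1 | ⟨h1, _⟩
  · rw [h1] at h
    have : x a b w = 0 := by
      have := h.1; have := h.2; simp at this; linarith
    rw [this]; simp
  rcases A_cases G b w with h2 | ⟨h2, _⟩
  · rw [h2] at h
    have : x a b w = 0 := by
      have := h.1; have := h.2; simp at this; linarith
    rw [this]; simp
  rw [h1, h2]; simp

/-- pairing of a symmetric function with loads -/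
lemma pairing {x : Fin n → Fin n → Fin n → ℝ} (hx : x ∈ X G) (β : Fin n → Fin n → ℝ)
    (hs : ∀ i j, β i j = β j i) :
    ∑ u, ∑ w, β u w * load G x u w = 2 * ∑ a, ∑ b, ∑ w, x a b w * (β a w + β b w) := by
  have e1 : ∀ u w, β u w * load G x u w =
      β u w * ∑ b, (x u b w + x b u w) + β w u * ∑ b, (x w b u + x b w u) := by
    intro u w
    unfold load
    have h1 : A G u w * ∑ b, (x u b w + x b u w) = ∑ b, (x u b w + x b u w) := by
      rw [Finset.mul_sum]
      refine Finset.sum_congr rfl fun b _ => ?_
      rw [mul_add, (supp G hx u b w).1, (supp G hx b u w).2]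
    have h2 : A G u w * ∑ b, (x w b u + x b w u) = ∑ b, (x w b u + x b w u) := by
      rw [Finset.mul_sum]
      refine Finset.sum_congr rfl fun b _ => ?_
      rw [mul_add, A_symm G u w, (supp G hx w b u).1, (supp G hx b w u).2]
    rw [mul_add, h1, h2, mul_add, hs w u]
  simp only [e1, Finset.sum_add_distrib]
  have e2 : ∑ u, ∑ w, β w u * (∑ b, x w b u + ∑ b, x b w u) =
      ∑ u, ∑ w, β u w * (∑ b, x u b w + ∑ b, x b u w) := Finset.sum_comm
  rw [e2]
  have e3 : ∑ u, ∑ w, β u w * (∑ b, x u b w + ∑ b, x b u w) =
      ∑ a, ∑ b, ∑ w, x a b w * (β a w + β b w) := by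
    have e4 : ∑ u, ∑ w, β u w * ∑ b, x u b w = ∑ a, ∑ b, ∑ w, x a b w * β a w := by
      refine Finset.sum_congr rfl fun u _ => ?_
      rw [Finset.sum_comm]
      refine Finset.sum_congr rfl fun w _ => ?_
      rw [Finset.mul_sum]
      exact Finset.sum_congr rfl fun b _ => mul_comm _ _
    have e5 : ∑ u, ∑ w, β u w * ∑ b, x b u w = ∑ a, ∑ b, ∑ w, x a b w * β b w := by
      rw [Finset.sum_comm (s := (Finset.univ : Finset (Fin n))) (t := Finset.univ)
        (f := fun a b => ∑ w, x a b w * β b w)]
      refine Finset.sum_congr rfl fun u _ => ?_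
      rw [Finset.sum_comm]
      refine Finset.sum_congr rfl fun w _ => ?_
      rw [Finset.mul_sum]
      exact Finset.sum_congr rfl fun b _ => mul_comm _ _
    simp only [mul_add, Finset.sum_add_distrib]
    rw [e4, e5]
  rw [e3]; ring

lemma C_pos {δ : ℝ} (hG : PR G δ) (hδ : δ ≤ 1 / 8) (hn : 1 ≤ n) (a b : Fin n) (hab : a ≠ b) :
    0 < C G a b := by
  have := (abs_le.1 (hG.codeg a b hab)).1
  have hn : (1 : ℝ) ≤ n := by exact_mod_cast hn
  unfold C
  nlinarith

lemma x0_mem {δ : ℝ} (hG : PR G δ) (hδ : δ ≤ 1 / 8) (hn : 8 ≤ n) : x0 G ∈ X G := by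
  have hn' : (8 : ℝ) ≤ n := by exact_mod_cast hn
  constructor
  · intro a b w
    unfold x0
    rcases N_cases G a b with h | ⟨h, hab, _⟩
    · rw [h]; simp
    · have hC := C_pos G hG hδ (by omega) a b hab
      have hC1 : 1 ≤ C G a b := by
        have := (abs_le.1 (hG.codeg a b hab)).1
        unfold C
        nlinarith
      have h1 := A_nonneg G a w
      have h2 := A_nonneg G b w
      rw [h]
      constructor
      · positivity
      · exact div_le_self (by positivity) hC1
  · intro a b
    unfold x0
    rcases N_cases G a b with h | ⟨h, hab, _⟩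
    · rw [h]; simp
    · have hC := C_pos G hG hδ (by omega) a b hab
      rw [h, ← Finset.sum_div, ← Finset.mul_sum]
      change 1 * C G a b / C G a b = 1
      field_simp

lemma X_convex {x y : Fin n → Fin n → Fin n → ℝ} (hx : x ∈ X G) (hy : y ∈ X G) {s t : ℝ}
    (hs : 0 ≤ s) (ht : 0 ≤ t) (hst : s + t = 1) :
    (fun a b w => s * x a b w + t * y a b w) ∈ X G := by
  constructor
  · intro a b w
    obtain ⟨h1, h2⟩ := hx.1 a b w
    obtain ⟨h3, h4⟩ := hy.1 a b w
    constructor
    · positivity
    · calc s * x a b w + t * y a b w ≤ s * (N G a b * (A G a w * A G b w)) +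
          t * (N G a b * (A G a w * A G b w)) := by
            exact add_le_add (mul_le_mul_of_nonneg_left h2 hs) (mul_le_mul_of_nonneg_left h4 ht)
        _ = N G a b * (A G a w * A G b w) := by rw [← add_mul, hst, one_mul]
  · intro a b
    rw [Finset.sum_add_distrib, ← Finset.mul_sum, ← Finset.mul_sum, hx.2, hy.2, ← add_mul, hst,
      one_mul]

lemma X_compact : IsCompact (X G) := by
  have h1 : X G ⊆ Set.Icc (0 : Fin n → Fin n → Fin n → ℝ) (fun _ _ _ => 1) := by
    intro x hx
    constructor
    · intro a b w; exact (hx.1 a b w).1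
    · intro a b w
      refine (hx.1 a b w).2.trans ?_
      have h1 := A_nonneg G a w
      have h2 := A_nonneg G b w
      have h3 := A_le_one G a w
      have h4 := A_le_one G b w
      have h5 := N_le_one G a b
      have h6 := N_nonneg G a b
      have h7 : A G a w * A G b w ≤ 1 := mul_le_one₀ h3 h2 h4
      exact mul_le_one₀ h5 (mul_nonneg h1 h2) h7
  refine IsCompact.of_isClosed_subset isCompact_Icc ?_ h1
  have : X G = (⋂ a, ⋂ b, ⋂ w, {x : Fin n → Fin n → Fin n → ℝ | 0 ≤ x a b w ∧
      x a b w ≤ N G a b * (A G a w * A G b w)}) ∩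
      ⋂ a, ⋂ b, {x : Fin n → Fin n → Fin n → ℝ | ∑ w, x a b w = N G a b} := by
    ext x
    simp only [X, Set.mem_ofPred_eq, Set.mem_inter_iff, Set.mem_iInter]
  rw [this]
  have hc : ∀ a b w, Continuous (fun x : Fin n → Fin n → Fin n → ℝ => x a b w) := fun a b w =>
    (continuous_apply w).comp ((continuous_apply b).comp (continuous_apply a))
  refine IsClosed.inter ?_ ?_
  · refine isClosed_iInter fun a => isClosed_iInter fun b => isClosed_iInter fun w => ?_
    exact (isClosed_le continuous_const (hc a b w)).inter (isClosed_le (hc a b w) continuous_const)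
  · refine isClosed_iInter fun a => isClosed_iInter fun b => ?_
    exact isClosed_eq (continuous_finsetSum _ fun w _ => hc a b w) continuous_const

/-- the number of ordered adjacent pairs -/
noncomputable def E2 : ℝ := ∑ i, ∑ w, A G i w

/-- the common load -/
noncomputable def lam : ℝ := 4 * (∑ a, ∑ b, N G a b) / E2 G

lemma total_load {x : Fin n → Fin n → Fin n → ℝ} (hx : x ∈ X G) :
    ∑ u, ∑ w, load G x u w = 4 * ∑ a, ∑ b, N G a b := by
  have h := pairing G hx (fun _ _ => 1) (fun _ _ => rfl)
  simp only [one_mul] at h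
  rw [h]
  have : ∑ a, ∑ b, ∑ w, x a b w * (1 + 1) = 2 * ∑ a, ∑ b, N G a b := by
    simp only [← Finset.sum_mul, hx.2]
    ring
  rw [this]; ring

/-- first order optimality from the quadratic inequality -/
lemma first_order {P Q : ℝ} (hQ : 0 ≤ Q) (h : ∀ t : ℝ, 0 < t → t ≤ 1 → 0 ≤ 2 * t * P + t ^ 2 * Q) :
    0 ≤ P := by
  by_contra hP
  push Not at hP
  have hQ1 : 0 < Q + 1 := by linarith
  set t := min 1 (-P / (Q + 1)) with ht
  have ht0 : 0 < t := lt_min one_pos (div_pos (by linarith) hQ1)
  have h1 := h t ht0 (min_le_left _ _)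
  have h2 : t * (Q + 1) ≤ -P := by
    have : t ≤ -P / (Q + 1) := min_le_right _ _
    calc t * (Q + 1) ≤ (-P / (Q + 1)) * (Q + 1) := mul_le_mul_of_nonneg_right this hQ1.le
      _ = -P := by field_simp
  have h3 : 2 * P + t * Q < 0 := by nlinarith
  have h4 : 2 * t * P + t ^ 2 * Q = t * (2 * P + t * Q) := by ring
  rw [h4] at h1
  nlinarith

/-- minimiser at every pair -/
lemma exists_min_weights {δ : ℝ} (hG : PR G δ) (hδ : δ ≤ 1 / 8) (hn : 8 ≤ n)
    (β : Fin n → Fin n → ℝ) :
    ∃ y ∈ X G, ∀ a b, 2 * (n : ℝ) ^ 2 * ∑ w, y a b w * (β a w + β b w) + Psi G β a b ≤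
      2 * (n : ℝ) ^ 2 * ∑ w, x0 G a b w * (β a w + β b w) := by
  classical
  have hn' : (8 : ℝ) ≤ n := by exact_mod_cast hn
  have key : ∀ a b : Fin n, ∃ z : Fin n → ℝ,
      (∀ w, 0 ≤ z w ∧ z w ≤ N G a b * (A G a w * A G b w)) ∧ ∑ w, z w = N G a b ∧
      2 * (n : ℝ) ^ 2 * ∑ w, z w * (β a w + β b w) + Psi G β a b ≤
        2 * (n : ℝ) ^ 2 * ∑ w, x0 G a b w * (β a w + β b w) := by
    intro a b
    rcases N_cases G a b with h | ⟨h, hab, hnab⟩
    · refine ⟨fun _ => 0, ?_, ?_, ?_⟩
      · intro w; rw [h]; simp
      · rw [h]; simp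
      · unfold Psi x0
        rw [h]; simp
    have hCpos := C_pos G hG hδ (by omega) a b hab
    have hCle : C G a b ≤ n := by
      unfold C
      calc ∑ w, A G a w * A G b w ≤ ∑ _w : Fin n, (1 : ℝ) := by
            refine Finset.sum_le_sum fun w _ => ?_
            exact mul_le_one₀ (A_le_one G a w) (A_nonneg G b w) (A_le_one G b w)
        _ = n := by simp
    -- the set of common neighbours
    set W := Finset.univ.filter (fun w : Fin n => G.Adj a w ∧ G.Adj b w) with hW
    have hind : ∀ w, A G a w * A G b w = if w ∈ W then 1 else 0 := by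
      intro w
      simp only [hW, Finset.mem_filter, Finset.mem_univ, true_and]
      unfold A
      by_cases h1 : G.Adj a w <;> by_cases h2 : G.Adj b w <;> simp [h1, h2]
    have hWne : W.Nonempty := by
      by_contra hemp
      rw [Finset.not_nonempty_iff_eq_empty] at hemp
      have : C G a b = 0 := by
        unfold C
        refine Finset.sum_eq_zero fun w _ => ?_
        rw [hind, hemp]; simp
      linarith
    obtain ⟨w0, hw0, hmin⟩ := Finset.exists_min_image W (fun w => β a w + β b w) hWne
    refine ⟨fun w => if w = w0 then 1 else 0, ?_, ?_, ?_⟩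
    · intro w
      beta_reduce
      by_cases hw : w = w0
      · subst hw
        rw [if_pos rfl, h, hind, if_pos hw0]; norm_num
      · rw [if_neg hw, h, hind]
        split_ifs <;> norm_num
    · rw [h]; simp
    · have e1 : ∑ w, (if w = w0 then (1 : ℝ) else 0) * (β a w + β b w) = β a w0 + β b w0 := by
        simp
      have e2 : ∑ w, x0 G a b w * (β a w + β b w) =
          (∑ w ∈ W, (β a w + β b w)) / C G a b := by
        unfold x0
        rw [Finset.sum_div, ← Finset.sum_filter_add_sum_filter_not Finset.univ (fun w => w ∈ W)]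
        have : ∑ w ∈ Finset.univ.filter (fun w => w ∉ W),
            N G a b * (A G a w * A G b w) / C G a b * (β a w + β b w) = 0 := by
          refine Finset.sum_eq_zero fun w hw => ?_
          rw [Finset.mem_filter] at hw
          rw [hind, if_neg hw.2]; simp
        rw [this, add_zero, Finset.filter_mem_eq_inter, Finset.univ_inter]
        refine Finset.sum_congr rfl fun w hw => ?_
        rw [hind, if_pos hw, h]; ring
      have eC : C G a b = W.card := by
        unfold C
        simp only [hind]
        simp
      have e3 : Psi G β a b = ∑ w ∈ W, ∑ w' ∈ W, |β a w + β b w - β a w' - β b w'| := by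
        unfold Psi
        rw [← Finset.sum_filter_add_sum_filter_not Finset.univ (fun w => w ∈ W)]
        have : ∑ w ∈ Finset.univ.filter (fun w => w ∉ W), ∑ w',
            N G a b * (A G a w * A G b w) * (A G a w' * A G b w') *
            |β a w + β b w - β a w' - β b w'| = 0 := by
          refine Finset.sum_eq_zero fun w hw => Finset.sum_eq_zero fun w' _ => ?_
          rw [Finset.mem_filter] at hw
          rw [hind w, if_neg hw.2]; simp
        rw [this, add_zero, Finset.filter_mem_eq_inter, Finset.univ_inter]
        refine Finset.sum_congr rfl fun w hw => ?_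
        rw [← Finset.sum_filter_add_sum_filter_not Finset.univ (fun w => w ∈ W)]
        have : ∑ w' ∈ Finset.univ.filter (fun w => w ∉ W),
            N G a b * (A G a w * A G b w) * (A G a w' * A G b w') *
            |β a w + β b w - β a w' - β b w'| = 0 := by
          refine Finset.sum_eq_zero fun w' hw' => ?_
          rw [Finset.mem_filter] at hw'
          rw [hind w', if_neg hw'.2]; simp
        rw [this, add_zero, Finset.filter_mem_eq_inter, Finset.univ_inter]
        refine Finset.sum_congr rfl fun w' hw' => ?_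
        rw [hind w, hind w', if_pos hw, if_pos hw', h]; ring
      rw [e1, e2, e3]
      set m := β a w0 + β b w0 with hm
      set Sg := ∑ w ∈ W, (β a w + β b w) with hSg
      have e4 : ∑ w ∈ W, ∑ w' ∈ W, |β a w + β b w - β a w' - β b w'| ≤
          ∑ w ∈ W, ∑ w' ∈ W, ((β a w + β b w - m) + (β a w' + β b w' - m)) := by
        refine Finset.sum_le_sum fun w hw => Finset.sum_le_sum fun w' hw' => ?_
        have h1 := hmin w hw
        have h2 := hmin w' hw'
        rw [abs_le]
        constructor <;> linarith
      have e5 : ∑ w ∈ W, ∑ w' ∈ W, ((β a w + β b w - m) + (β a w' + β b w' - m)) =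
          2 * (C G a b) * (Sg - C G a b * m) := by
        have : ∑ w ∈ W, (β a w + β b w - m) = Sg - C G a b * m := by
          rw [Finset.sum_sub_distrib, Finset.sum_const, nsmul_eq_mul, eC]
        simp only [Finset.sum_add_distrib (f := fun w => β a _ + β b _ - m), Finset.sum_const, nsmul_eq_mul]
        rw [Finset.sum_add_distrib, Finset.sum_const, nsmul_eq_mul, ← Finset.mul_sum, this, ← eC]
        ring
      have e6 : 0 ≤ Sg - C G a b * m := by
        rw [eC, hSg]
        have : (W.card : ℝ) * m = ∑ _w ∈ W, m := by rw [Finset.sum_const, nsmul_eq_mul]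
        rw [this, ← Finset.sum_sub_distrib]
        refine Finset.sum_nonneg fun w hw => ?_
        have h1 := hmin w hw
        linarith
      have e7 : 2 * (n : ℝ) ^ 2 * (Sg / C G a b) = 2 * (n : ℝ) ^ 2 * m +
          2 * (n : ℝ) ^ 2 / C G a b * (Sg - C G a b * m) := by
        field_simp
        ring
      rw [e7]
      have e8 : 2 * C G a b ≤ 2 * (n : ℝ) ^ 2 / C G a b := by
        rw [le_div_iff₀ hCpos]
        nlinarith
      have e9 : 2 * (C G a b) * (Sg - C G a b * m) ≤
          2 * (n : ℝ) ^ 2 / C G a b * (Sg - C G a b * m) := mul_le_mul_of_nonneg_right e8 e6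
      linarith
  choose z hz1 hz2 hz3 using key
  exact ⟨z, ⟨fun a b w => hz1 a b w, fun a b => hz2 a b⟩, fun a b => hz3 a b⟩

/-- loads of the uniform weights are almost constant -/
lemma load_x0 {δ : ℝ} (hG : PR G δ) (hδ : δ ≤ 1 / 100000000) (hn : 100000000 ≤ n)
    (u w : Fin n) : |load G (x0 G) u w - 4 * A G u w| ≤ A G u w * (1 / 400000) := by
  have hn' : (100000000 : ℝ) ≤ n := by exact_mod_cast hn
  have key : ∀ u w : Fin n, G.Adj u w →
      |∑ b, x0 G u b w - 1| ≤ 1 / 1600000 := by
    intro u w huw
    have hA : A G u w = 1 := by unfold A; rw [if_pos huw]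
    have hN : ∀ b, N G u b * A G b w = A G w b - A G u b * A G w b - (if b = u then 1 else 0) := by
      intro b
      rw [A_symm G b w]
      by_cases hb : b = u
      · subst hb
        have h1 : N G b b = 0 := by unfold N; simp
        have h2 : A G b b = 0 := by unfold A; simp
        have h3 : A G w b = 1 := by rw [A_symm]; exact hA
        rw [h1, h2, h3]; simp
      · have : N G u b = 1 - A G u b := by
          unfold N A
          by_cases h : G.Adj u b <;> simp [h, Ne.symm hb]
        rw [this, if_neg hb]; ring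
    have hsum : ∑ b, N G u b * A G b w = ∑ b, A G w b - C G u w - 1 := by
      simp only [hN, Finset.sum_sub_distrib]
      unfold C
      simp
    have hd := abs_le.1 (hG.deg w)
    have hc := abs_le.1 (hG.codeg u w huw.ne)
    have hx : ∀ b, x0 G u b w = N G u b * A G b w / C G u b := by
      intro b; unfold x0; rw [hA]; ring
    have hCb : ∀ b, N G u b ≠ 0 → (n : ℝ) / 4 - δ * n ≤ C G u b ∧ C G u b ≤ n / 4 + δ * n := by
      intro b hb
      rcases N_cases G u b with h | ⟨h, hub, _⟩
      · exact absurd h hb
      · have := abs_le.1 (hG.codeg u b hub)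
        unfold C
        constructor <;> linarith [this.1, this.2]
    have hlo : 0 < (n : ℝ) / 4 - δ * n := by nlinarith
    have hhi : 0 < (n : ℝ) / 4 + δ * n := by nlinarith
    have hS1 : ∑ b, x0 G u b w ≤ (∑ b, N G u b * A G b w) / (n / 4 - δ * n) := by
      rw [Finset.sum_div]
      refine Finset.sum_le_sum fun b _ => ?_
      rw [hx]
      by_cases hb : N G u b = 0
      · rw [hb]; simp
      · have h1 := (hCb b hb).1
        exact div_le_div_of_nonneg_left (mul_nonneg (N_nonneg G _ _) (A_nonneg G _ _)) hlo h1
    have hS2 : (∑ b, N G u b * A G b w) / (n / 4 + δ * n) ≤ ∑ b, x0 G u b w := by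
      rw [Finset.sum_div]
      refine Finset.sum_le_sum fun b _ => ?_
      rw [hx]
      by_cases hb : N G u b = 0
      · rw [hb]; simp
      · have h1 := (hCb b hb).2
        have h2 := (hCb b hb).1
        exact div_le_div_of_nonneg_left (mul_nonneg (N_nonneg G _ _) (A_nonneg G _ _))
          (by linarith) h1
    rw [hsum] at hS1 hS2
    have hc' : |C G u w - n / 4| ≤ δ * n := hG.codeg u w huw.ne
    have hc1 := abs_le.1 hc'
    rw [abs_le]
    constructor
    · have : 1 - 1 / 1600000 ≤ (∑ b, A G w b - C G u w - 1) / (n / 4 + δ * n) := by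
        rw [le_div_iff₀ hhi]
        nlinarith [hd.1, hd.2, hc1.1, hc1.2]
      linarith
    · have : (∑ b, A G w b - C G u w - 1) / (n / 4 - δ * n) ≤ 1 + 1 / 1600000 := by
        rw [div_le_iff₀ hlo]
        nlinarith [hd.1, hd.2, hc1.1, hc1.2]
      linarith
  have hx0symm : ∀ a b w, x0 G a b w = x0 G b a w := by
    intro a b w
    unfold x0 C
    rw [N_symm G a b, mul_comm (A G a w)]
    congr 1
    exact Finset.sum_congr rfl fun w _ => mul_comm _ _
  rcases A_cases G u w with h | ⟨h, huw⟩
  · unfold load
    rw [h]; simp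
  · unfold load
    rw [h]
    have k1 := abs_le.1 (key u w huw)
    have k2 := abs_le.1 (key w u huw.symm)
    have e1 : ∑ b, (x0 G u b w + x0 G b u w) = 2 * ∑ b, x0 G u b w := by
      rw [Finset.mul_sum]
      refine Finset.sum_congr rfl fun b _ => ?_
      rw [hx0symm b u w]; ring
    have e2 : ∑ b, (x0 G w b u + x0 G b w u) = 2 * ∑ b, x0 G w b u := by
      rw [Finset.mul_sum]
      refine Finset.sum_congr rfl fun b _ => ?_
      rw [hx0symm b w u]; ring
    rw [e1, e2, abs_le]
    constructor <;> linarith [k1.1, k1.2, k2.1, k2.2]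

/-- existence of positive real weights with constant loads -/
theorem exists_real {δ : ℝ} (hG : PR G δ) (hδ : δ ≤ 1 / 100000000)
    (hn : 100000000 ≤ n) :
    ∃ x ∈ X G, (∀ a b w, N G a b * (A G a w * A G b w) = 1 → 0 < x a b w) ∧
      ∀ u w, load G x u w = lam G * A G u w := by
  have hδ8 : δ ≤ 1 / 8 := by linarith
  have hn' : (100000000 : ℝ) ≤ n := by exact_mod_cast hn
  have hx0 := x0_mem G hG hδ8 (by omega)
  set mid : (Fin n → Fin n → Fin n → ℝ) → (Fin n → Fin n → Fin n → ℝ) :=
    fun x a b w => (1 / 2) * x0 G a b w + (1 / 2) * x a b w with hmid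
  set F : (Fin n → Fin n → Fin n → ℝ) → ℝ := fun x =>
    ∑ u, ∑ w, (load G (mid x) u w - lam G * A G u w) ^ 2 with hF
  have hFc : Continuous F := by
    have hc : ∀ a b w, Continuous (fun x : Fin n → Fin n → Fin n → ℝ => mid x a b w) := fun a b w =>
      continuous_const.add (continuous_const.mul
        ((continuous_apply w).comp ((continuous_apply b).comp (continuous_apply a))))
    refine continuous_finsetSum _ fun u _ => continuous_finsetSum _ fun w _ => ?_
    refine Continuous.pow (Continuous.sub ?_ continuous_const) 2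
    unfold load
    refine continuous_const.mul (Continuous.add ?_ ?_)
    · exact continuous_finsetSum _ fun b _ => (hc _ _ _).add (hc _ _ _)
    · exact continuous_finsetSum _ fun b _ => (hc _ _ _).add (hc _ _ _)
  obtain ⟨xs, hxs, hmin⟩ := (X_compact G).exists_isMinOn ⟨x0 G, hx0⟩ hFc.continuousOn
  have hmidmem : ∀ x ∈ X G, mid x ∈ X G := fun x hx =>
    X_convex G hx0 hx (by norm_num) (by norm_num) (by norm_num)
  refine ⟨mid xs, hmidmem xs hxs, ?_, ?_⟩
  · intro a b w habw
    have h1 : 0 < x0 G a b w := by
      unfold x0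
      rw [habw]
      have hab : a ≠ b := by
        rintro rfl
        have : N G a a = 0 := by unfold N; simp
        rw [this] at habw; simp at habw
      exact div_pos one_pos (C_pos G hG hδ8 (by omega) a b hab)
    have h2 := (hxs.1 a b w).1
    change 0 < (1 / 2) * x0 G a b w + (1 / 2) * xs a b w
    linarith
  · -- optimality
    set R : Fin n → Fin n → ℝ := fun u w => load G (mid xs) u w - lam G * A G u w with hR
    have hRs : ∀ u w, R u w = R w u := by
      intro u w
      simp only [hR]
      rw [load_symm, A_symm]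
    have hRA : ∀ u w, A G u w * R u w = R u w := by
      intro u w
      simp only [hR]
      unfold load
      rcases A_cases G u w with h | ⟨h, _⟩ <;> rw [h] <;> ring
    have hE2 : 0 < E2 G := by
      have := card_adj G hG hδ8
      unfold E2
      nlinarith
    have hlamE : ∑ u, ∑ w, lam G * A G u w = 4 * ∑ a, ∑ b, N G a b := by
      simp only [← Finset.mul_sum]
      change lam G * E2 G = _
      unfold lam
      field_simp
    have hR0 : ∑ u, ∑ w, R u w = 0 := by
      simp only [hR, Finset.sum_sub_distrib]
      rw [total_load G (hmidmem xs hxs), hlamE, sub_self]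
    have hR0' : ∑ u, ∑ w, A G u w * R u w = 0 := by
      simp only [hRA]; exact hR0
    obtain ⟨y, hy, hyle⟩ := exists_min_weights G hG hδ8 (by omega) R
    -- first order condition
    have hfo : 0 ≤ ∑ u, ∑ w, R u w * (load G (mid y) u w - load G (mid xs) u w) := by
      apply first_order (Q := ∑ u, ∑ w, (load G (mid y) u w - load G (mid xs) u w) ^ 2)
      · exact Finset.sum_nonneg fun u _ => Finset.sum_nonneg fun w _ => sq_nonneg _
      · intro t ht0 ht1
        have hz : (fun a b w => (1 - t) * xs a b w + t * y a b w) ∈ X G :=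
          X_convex G hxs hy (by linarith) ht0.le (by ring)
        have h1 := hmin hz
        simp only [Set.mem_ofPred_eq] at h1
        have e1 : ∀ u w, load G (mid (fun a b w => (1 - t) * xs a b w + t * y a b w)) u w -
            lam G * A G u w = R u w + t * (load G (mid y) u w - load G (mid xs) u w) := by
          intro u w
          have : mid (fun a b w => (1 - t) * xs a b w + t * y a b w) =
              fun a b w => (1 - t) * mid xs a b w + t * mid y a b w := by
            funext a b w
            simp only [hmid]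
            ring
          rw [this, load_lin]
          simp only [hR]
          ring
        have e2 : F (fun a b w => (1 - t) * xs a b w + t * y a b w) =
            F xs + (2 * t * ∑ u, ∑ w, R u w * (load G (mid y) u w - load G (mid xs) u w) +
              t ^ 2 * ∑ u, ∑ w, (load G (mid y) u w - load G (mid xs) u w) ^ 2) := by
          simp only [hF, e1]
          simp only [Finset.mul_sum, ← Finset.sum_add_distrib]
          refine Finset.sum_congr rfl fun u _ => Finset.sum_congr rfl fun w _ => ?_
          simp only [hR]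
          ring
        rw [e2] at h1
        linarith
    have hRR : ∑ u, ∑ w, R u w * load G (mid xs) u w = ∑ u, ∑ w, R u w ^ 2 := by
      have e1 : ∀ u w, R u w * load G (mid xs) u w = R u w ^ 2 + lam G * R u w := by
        intro u w
        have : load G (mid xs) u w = R u w + lam G * A G u w := by simp only [hR]; ring
        rw [this]
        have h2 := hRA u w
        calc R u w * (R u w + lam G * A G u w) = R u w ^ 2 + lam G * (A G u w * R u w) := by ring
          _ = _ := by rw [h2]
      simp only [e1, Finset.sum_add_distrib, ← Finset.mul_sum]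
      rw [hR0]; ring
    have hle : ∑ u, ∑ w, R u w ^ 2 ≤ ∑ u, ∑ w, R u w * load G (mid y) u w := by
      rw [← hRR]
      simp only [mul_sub, Finset.sum_sub_distrib] at hfo
      linarith
    have hmidy : ∑ u, ∑ w, R u w * load G (mid y) u w =
        ∑ a, ∑ b, (∑ w, x0 G a b w * (R a w + R b w) + ∑ w, y a b w * (R a w + R b w)) := by
      rw [pairing G (hmidmem y hy) R hRs]
      simp only [hmid, ← Finset.sum_add_distrib, Finset.mul_sum]
      refine Finset.sum_congr rfl fun a _ => Finset.sum_congr rfl fun b _ =>
        Finset.sum_congr rfl fun w _ => ?_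
      ring
    have hsum : 2 * (n : ℝ) ^ 2 * ∑ a, ∑ b, ∑ w, y a b w * (R a w + R b w) +
        ∑ a, ∑ b, Psi G R a b ≤ 2 * (n : ℝ) ^ 2 * ∑ a, ∑ b, ∑ w, x0 G a b w * (R a w + R b w) := by
      simp only [Finset.mul_sum]
      rw [← Finset.sum_add_distrib]
      refine Finset.sum_le_sum fun a _ => ?_
      rw [← Finset.sum_add_distrib]
      refine Finset.sum_le_sum fun b _ => ?_
      have := hyle a b
      simp only [Finset.mul_sum] at this
      exact this
    have hx0R : 2 * ∑ a, ∑ b, ∑ w, x0 G a b w * (R a w + R b w) ≤ (1 / 400000) * L1 G R := by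
      rw [← pairing G hx0 R hRs]
      have e1 : ∑ u, ∑ w, R u w * load G (x0 G) u w =
          ∑ u, ∑ w, R u w * (load G (x0 G) u w - 4 * A G u w) := by
        have : ∀ u w, R u w * (load G (x0 G) u w - 4 * A G u w) =
          R u w * load G (x0 G) u w - 4 * (A G u w * R u w) := by intro u w; ring
        simp only [this, Finset.sum_sub_distrib, ← Finset.mul_sum]
        rw [hR0']; ring
      rw [e1]
      unfold L1
      rw [Finset.mul_sum]
      refine Finset.sum_le_sum fun u _ => ?_
      rw [Finset.mul_sum]
      refine Finset.sum_le_sum fun w _ => ?_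
      have h1 := load_x0 G hG hδ hn u w
      calc R u w * (load G (x0 G) u w - 4 * A G u w) ≤
          |R u w * (load G (x0 G) u w - 4 * A G u w)| := le_abs_self _
        _ = |R u w| * |load G (x0 G) u w - 4 * A G u w| := abs_mul _ _
        _ ≤ |R u w| * (A G u w * (1 / 400000)) := mul_le_mul_of_nonneg_left h1 (abs_nonneg _)
        _ = _ := by ring
    have hpo := poincare G hG hδ8 (by omega) R hRs hR0'
    have hL := L1_nonneg G R
    have hfin : ∑ u, ∑ w, R u w ^ 2 ≤ 0 := by
      rw [hmidy] at hle
      simp only [Finset.sum_add_distrib] at hle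
      set Y := ∑ a, ∑ b, ∑ w, y a b w * (R a w + R b w) with hY
      set Z := ∑ a, ∑ b, ∑ w, x0 G a b w * (R a w + R b w) with hZ
      set Ps := ∑ a, ∑ b, Psi G R a b with hPs
      have hnn : 0 < (n : ℝ) ^ 2 := by positivity
      have h1 : (n : ℝ) ^ 2 * (307200 * (Z + Y)) ≤ (n : ℝ) ^ 2 * (307200 * (2 * Z) - L1 G R) := by
        nlinarith
      have h2 := le_of_mul_le_mul_left h1 hnn
      nlinarith
    have hall : ∀ u w, R u w = 0 := by
      intro u w
      have h1 : ∑ u, ∑ w, R u w ^ 2 = 0 := le_antisymm hfin
        (Finset.sum_nonneg fun u _ => Finset.sum_nonneg fun w _ => sq_nonneg _)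
      have h2 := (Finset.sum_eq_zero_iff_of_nonneg (fun u _ =>
        Finset.sum_nonneg fun w _ => sq_nonneg (R u w))).1 h1 u (Finset.mem_univ u)
      have h3 := (Finset.sum_eq_zero_iff_of_nonneg (fun w _ => sq_nonneg (R u w))).1 h2 w
        (Finset.mem_univ w)
      exact pow_eq_zero_iff (two_ne_zero) |>.1 h3
    intro u w
    have := hall u w
    simp only [hR] at this
    linarith

end Pool.Agent.Helper265.EPR
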