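import Pool.Agent.Helper265.EPRb

set_option autoImplicit false

namespace Pool.Agent.Helper265.EPR

open Finset

/-- real solutions of rational linear systems can be replaced by rational ones -/
theorem rationalize {ι : Type} [Fintype ι] (x : ι → ℝ) :
    ∃ q : ι → ℚ, (∀ i, 0 < x i → 0 < q i) ∧
      ∀ (M : ι → ℚ) (b : ℚ), ∑ i, (M i : ℝ) * x i = b → ∑ i, M i * q i = b := by
  classical
  -- the rational span
  let S : Set ℝ := insert 1 (Set.range x)
  have hSfin : S.Finite := (Set.finite_range x).insert 1
  let V : Submodule ℚ ℝ := Submodule.span ℚ S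
  have hfd : FiniteDimensional ℚ V := FiniteDimensional.span_of_finite ℚ hSfin
  let bs := Module.finBasis ℚ V
  have h1 : (1 : ℝ) ∈ V := Submodule.subset_span (Set.mem_insert _ _)
  have hx : ∀ i, x i ∈ V := fun i => Submodule.subset_span (Set.mem_insert_of_mem _ ⟨i, rfl⟩)
  let c : ι → Fin (Module.finrank ℚ V) → ℚ := fun i => bs.repr ⟨x i, hx i⟩
  let e : Fin (Module.finrank ℚ V) → ℚ := bs.repr ⟨1, h1⟩
  have hxc : ∀ i, x i = ∑ j, (c i j : ℝ) * (bs j : ℝ) := by
    intro i
    have := bs.sum_repr ⟨x i, hx i⟩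
    have h2 := congrArg (fun v : V => (v : ℝ)) this
    simp only [Submodule.coe_sum, Submodule.coe_smul] at h2
    rw [← h2]
    refine Finset.sum_congr rfl fun j _ => ?_
    rw [Rat.smul_def]
  have h1c : (1 : ℝ) = ∑ j, (e j : ℝ) * (bs j : ℝ) := by
    have := bs.sum_repr ⟨1, h1⟩
    have h2 := congrArg (fun v : V => (v : ℝ)) this
    simp only [Submodule.coe_sum, Submodule.coe_smul] at h2
    rw [← h2]
    refine Finset.sum_congr rfl fun j _ => ?_
    rw [Rat.smul_def]
  -- the open set
  let U : Set (Fin (Module.finrank ℚ V) → ℝ) :=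
    {r | 0 < ∑ j, (e j : ℝ) * r j} ∩ ⋂ i : ι, {r | 0 < x i → 0 < ∑ j, (c i j : ℝ) * r j}
  have hUo : IsOpen U := by
    refine IsOpen.inter ?_ (isOpen_iInter_of_finite fun i => ?_)
    · exact isOpen_lt continuous_const
        (continuous_finsetSum _ fun j _ => continuous_const.mul (continuous_apply j))
    · by_cases hi : 0 < x i
      · have : {r : Fin (Module.finrank ℚ V) → ℝ | 0 < x i → 0 < ∑ j, (c i j : ℝ) * r j} =
            {r | 0 < ∑ j, (c i j : ℝ) * r j} := by
          ext r; simp [hi]
        rw [this]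
        exact isOpen_lt continuous_const
          (continuous_finsetSum _ fun j _ => continuous_const.mul (continuous_apply j))
      · have : {r : Fin (Module.finrank ℚ V) → ℝ | 0 < x i → 0 < ∑ j, (c i j : ℝ) * r j} =
            Set.univ := by
          ext r; simp [hi]
        rw [this]; exact isOpen_univ
  have hUne : (fun j => (bs j : ℝ)) ∈ U := by
    constructor
    · change 0 < ∑ j, (e j : ℝ) * (bs j : ℝ)
      rw [← h1c]; norm_num
    · rw [Set.mem_iInter]
      intro i hi
      change 0 < ∑ j, (c i j : ℝ) * (bs j : ℝ)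
      rw [← hxc]; exact hi
  have hdense : DenseRange (fun (r : Fin (Module.finrank ℚ V) → ℚ) (j : Fin (Module.finrank ℚ V)) =>
      (r j : ℝ)) := by
    have : DenseRange (fun q : ℚ => (q : ℝ)) := Rat.denseRange_cast
    exact DenseRange.piMap (fun _ => this)
  obtain ⟨r, hr⟩ := hdense.exists_mem_open hUo ⟨_, hUne⟩
  obtain ⟨hr1, hr2⟩ := hr
  rw [Set.mem_iInter] at hr2
  set s : ℚ := ∑ j, e j * r j with hs
  have hspos : 0 < s := by
    have : (0 : ℝ) < ((s : ℚ) : ℝ) := by
      rw [hs]; push_cast; exact hr1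
    exact_mod_cast this
  refine ⟨fun i => (∑ j, c i j * r j) / s, ?_, ?_⟩
  · intro i hi
    have h2 := hr2 i hi
    have h3 : 0 < ∑ j, c i j * r j := by
      have : (0 : ℝ) < ((∑ j, c i j * r j : ℚ) : ℝ) := by push_cast; exact h2
      exact_mod_cast this
    exact div_pos h3 hspos
  · intro M b hM
    -- coefficients
    have hco : ∀ j, ∑ i, M i * c i j = b * e j := by
      have hv : ∑ i, M i • (⟨x i, hx i⟩ : V) = b • (⟨1, h1⟩ : V) := by
        apply Subtype.ext
        simp only [Submodule.coe_sum, Submodule.coe_smul, Rat.smul_def, mul_one]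
        exact hM
      have h2 := congrArg bs.repr hv
      intro j
      have h3 := congrArg (fun f => f j) h2
      simp only [map_sum, map_smul, Finsupp.coe_finsetSum, Finset.sum_apply, Finsupp.smul_apply,
        smul_eq_mul] at h3
      exact h3
    calc ∑ i, M i * ((∑ j, c i j * r j) / s) = (∑ j, (∑ i, M i * c i j) * r j) / s := by
          rw [Finset.sum_div]
          simp only [Finset.sum_mul, Finset.sum_div, Finset.mul_sum]
          rw [Finset.sum_comm]
          refine Finset.sum_congr rfl fun j _ => Finset.sum_congr rfl fun i _ => ?_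
          ring
      _ = (∑ j, b * (e j * r j)) / s := by
          congr 1
          refine Finset.sum_congr rfl fun j _ => ?_
          rw [hco]; ring
      _ = b := by
          rw [← Finset.mul_sum, ← hs]
          field_simp

/-- clearing denominators -/
theorem integralize {ι : Type} [Fintype ι] (x : ι → ℝ) (hx : ∀ i, 0 ≤ x i) :
    ∃ (D : ℕ) (c : ι → ℕ), 0 < D ∧ (∀ i, 0 < x i → 0 < c i) ∧
      ∀ (M : ι → ℚ) (b : ℚ), ∑ i, (M i : ℝ) * x i = b → ∑ i, M i * (c i : ℚ) = D * b := by
  classical
  obtain ⟨q, hq1, hq2⟩ := rationalize x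
  have hq0 : ∀ i, 0 ≤ q i := by
    intro i
    rcases (hx i).lt_or_eq with h | h
    · exact (hq1 i h).le
    · have := hq2 (fun j => if j = i then 1 else 0) 0 (by
        rw [Finset.sum_eq_single i]
        · simp [← h]
        · intro j _ hj; simp [hj]
        · intro h; exact absurd (Finset.mem_univ i) h)
      rw [Finset.sum_eq_single i] at this
      · simp at this; rw [this]
      · intro j _ hj; simp [hj]
      · intro h; exact absurd (Finset.mem_univ i) h
  let D : ℕ := ∏ i, (q i).den
  have hD : 0 < D := Finset.prod_pos fun i _ => (q i).den_pos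
  have hc : ∀ i, ∃ c : ℕ, (c : ℚ) = D * q i := by
    intro i
    obtain ⟨m, hm⟩ : (q i).den ∣ D := Finset.dvd_prod_of_mem _ (Finset.mem_univ i)
    refine ⟨m * (q i).num.toNat, ?_⟩
    have h1 : (((q i).num.toNat : ℕ) : ℤ) = (q i).num := Int.toNat_of_nonneg (Rat.num_nonneg.2 (hq0 i))
    have h2 : (((q i).num.toNat : ℕ) : ℚ) = (q i).num := by exact_mod_cast h1
    push_cast
    rw [h2, hm]
    have h3 : (q i) * (q i).den = (q i).num := Rat.mul_den_eq_num (q i)
    push_cast
    rw [← h3]; ring
  choose c hc using hc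
  refine ⟨D, c, hD, ?_, ?_⟩
  · intro i hi
    have h1 := hq1 i hi
    have h2 : (0 : ℚ) < c i := by
      rw [hc]
      have : (0 : ℚ) < D := by exact_mod_cast hD
      positivity
    exact_mod_cast h2
  · intro M b hM
    rw [← hq2 M b hM, Finset.mul_sum]
    refine Finset.sum_congr rfl fun i _ => ?_
    rw [hc]; ring

end Pool.Agent.Helper265.EPR
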