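import Pool.Agent.Helper265.EPRc

set_option autoImplicit false

namespace Pool.Agent.Helper265.EPR

open Finset

variable {n : ℕ}

/-- incidence of cherries and edges -/
def Minc (R : Type) [CommRing R] (u w : Fin n) (i : Fin n × Fin n × Fin n) : R :=
  (if i.1 = u ∧ i.2.2 = w then 1 else 0) + (if i.2.1 = u ∧ i.2.2 = w then 1 else 0) +
  ((if i.1 = w ∧ i.2.2 = u then 1 else 0) + (if i.2.1 = w ∧ i.2.2 = u then 1 else 0))

lemma Minc_sum {R : Type} [CommRing R] (x : Fin n × Fin n × Fin n → R) (u w : Fin n) :
    ∑ i, Minc R u w i * x i =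
      ∑ b, (x (u, b, w) + x (b, u, w)) + ∑ b, (x (w, b, u) + x (b, w, u)) := by
  have h1 : ∀ u w : Fin n, ∑ i : Fin n × Fin n × Fin n, (if i.1 = u ∧ i.2.2 = w then (1 : R) else 0) * x i =
      ∑ b, x (u, b, w) := by
    intro u w
    simp [Fintype.sum_prod_type, ite_and]
  have h2 : ∀ u w : Fin n, ∑ i : Fin n × Fin n × Fin n, (if i.2.1 = u ∧ i.2.2 = w then (1 : R) else 0) * x i =
      ∑ b, x (b, u, w) := by
    intro u w
    simp [Fintype.sum_prod_type, ite_and]
  unfold Minc
  simp only [add_mul, Finset.sum_add_distrib]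
  rw [h1, h2, h1, h2]

lemma sum_sel {R : Type} [CommRing R] (f : Fin n × Fin n × Fin n → R) (a b : Fin n) :
    ∑ i : Fin n × Fin n × Fin n, (if i.1 = a ∧ i.2.1 = b then (1 : R) else 0) * f i =
      ∑ w, f (a, b, w) := by
  rw [Fintype.sum_prod_type, Finset.sum_eq_single a]
  · rw [Fintype.sum_prod_type, Finset.sum_eq_single b]
    · simp
    · intro j _ hj
      refine Finset.sum_eq_zero fun w _ => ?_
      simp [hj]
    · intro h; exact absurd (Finset.mem_univ _) h
  · intro j _ hj
    refine Finset.sum_eq_zero fun w _ => ?_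
    simp [hj]
  · intro h; exact absurd (Finset.mem_univ _) h

lemma exists_fun {k : ℕ} (cnt : Fin n → ℕ) (hk : ∑ w, cnt w = k) :
    ∃ φ : Fin k → Fin n, (∀ t, 0 < cnt (φ t)) ∧
      ∀ g : Fin n → ℕ, ∑ t, g (φ t) = ∑ w, cnt w * g w := by
  classical
  have hcard : Fintype.card (Σ w : Fin n, Fin (cnt w)) = k := by
    rw [Fintype.card_sigma]; simpa using hk
  let e : Fin k ≃ (Σ w : Fin n, Fin (cnt w)) := (Fintype.equivFinOfCardEq hcard).symm
  refine ⟨fun t => (e t).1, fun t => ?_, fun g => ?_⟩
  · exact lt_of_le_of_lt (Nat.zero_le _) (e t).2.2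
  · rw [Equiv.sum_comp e (fun s => g s.1), Fintype.sum_sigma]
    refine Finset.sum_congr rfl fun w _ => ?_
    simp

lemma sum_lt_symm (f : Fin n → Fin n → ℕ) (hf : ∀ u, f u u = 0) :
    ∑ u, ∑ v ∈ Finset.univ.filter (fun v => u < v), (f u v + f v u) = ∑ u, ∑ v, f u v := by
  have h1 : ∀ u v : Fin n, f u v = (if u < v then f u v else 0) + (if v < u then f u v else 0) := by
    intro u v
    rcases lt_trichotomy u v with h | h | h
    · simp [h, h.le]
    · subst h; simp [hf]
    · simp [h, h.le]
  have h2 : ∑ u, ∑ v, f u v =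
      ∑ u, ∑ v, (if u < v then f u v else 0) + ∑ u, ∑ v, (if v < u then f u v else 0) := by
    rw [← Finset.sum_add_distrib]
    refine Finset.sum_congr rfl fun u _ => ?_
    rw [← Finset.sum_add_distrib]
    exact Finset.sum_congr rfl fun v _ => h1 u v
  rw [h2, Finset.sum_comm (f := fun u v => if v < u then f u v else 0), ← Finset.sum_add_distrib]
  refine Finset.sum_congr rfl fun u _ => ?_
  rw [Finset.sum_filter, ← Finset.sum_add_distrib]
  refine Finset.sum_congr rfl fun v _ => ?_
  split_ifs <;> simp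

variable (G : SimpleGraph (Fin n))

/-- integer weights with constant loads -/
theorem exists_int {δ : ℝ} (hG : PR G δ) (hδ : δ ≤ 1 / 100000000) (hn : 100000000 ≤ n) :
    ∃ (D : ℕ) (c : Fin n × Fin n × Fin n → ℕ) (L : ℕ), 0 < D ∧
      (∀ a b w, ¬ (a ≠ b ∧ ¬ G.Adj a b ∧ G.Adj a w ∧ G.Adj b w) → c (a, b, w) = 0) ∧
      (∀ a b, a ≠ b → ¬ G.Adj a b → ∑ w, c (a, b, w) = D) ∧
      (∀ u w, G.Adj u w → ∑ b, (c (u, b, w) + c (b, u, w)) + ∑ b, (c (w, b, u) + c (b, w, u)) = L) := by
  classical
  obtain ⟨x, hx, hpos, hload⟩ := exists_real G hG hδ hn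
  obtain ⟨D, c, hD, hc0, hc⟩ := integralize (fun i : Fin n × Fin n × Fin n => x i.1 i.2.1 i.2.2)
    (fun i => (hx.1 _ _ _).1)
  have hM : ∀ u w, G.Adj u w → ∀ u' w', G.Adj u' w' →
      ∑ b, (c (u, b, w) + c (b, u, w)) + ∑ b, (c (w, b, u) + c (b, w, u)) =
      ∑ b, (c (u', b, w') + c (b, u', w')) + ∑ b, (c (w', b, u') + c (b, w', u')) := by
    intro u w huw u' w' huw'
    have h1 := hc (fun i => Minc ℚ u w i - Minc ℚ u' w' i) 0 (by
      have hl : ∀ u w, G.Adj u w → ∑ i : Fin n × Fin n × Fin n, ((Minc ℚ u w i : ℚ) : ℝ) * x i.1 i.2.1 i.2.2 =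
          lam G := by
        intro u w huw
        have e1 : ∀ i : Fin n × Fin n × Fin n, ((Minc ℚ u w i : ℚ) : ℝ) = Minc ℝ u w i := by
          intro i; unfold Minc; split_ifs <;> norm_num
        simp only [e1]
        rw [Minc_sum (fun i : Fin n × Fin n × Fin n => x i.1 i.2.1 i.2.2)]
        have h2 := hload u w
        unfold load at h2
        have hA : A G u w = 1 := by unfold A; rw [if_pos huw]
        rw [hA] at h2
        linarith
      push_cast
      simp only [sub_mul, Finset.sum_sub_distrib]
      rw [hl u w huw, hl u' w' huw', sub_self])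
    simp only [sub_mul, Finset.sum_sub_distrib] at h1
    rw [Minc_sum (fun i => (c i : ℚ)), Minc_sum (fun i => (c i : ℚ))] at h1
    have h2 : ∑ b, ((c (u, b, w) : ℚ) + c (b, u, w)) + ∑ b, ((c (w, b, u) : ℚ) + c (b, w, u)) =
      ∑ b, ((c (u', b, w') : ℚ) + c (b, u', w')) + ∑ b, ((c (w', b, u') : ℚ) + c (b, w', u')) := by
      linarith
    exact_mod_cast h2
  have hsel : ∀ a b w : Fin n, ∑ i : Fin n × Fin n × Fin n,
      (((if i = (a, b, w) then 1 else 0 : ℚ)) : ℝ) * x i.1 i.2.1 i.2.2 = x a b w := by
    intro a b w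
    rw [Finset.sum_eq_single (a, b, w)]
    · simp
    · intro i _ hi; simp [hi]
    · intro h; exact absurd (Finset.mem_univ _) h
  by_cases hE : ∃ u0 w0, G.Adj u0 w0
  swap
  · push Not at hE
    -- no edges: contradiction with degrees is not needed, loads are vacuous
    refine ⟨D, c, 0, hD, ?_, ?_, fun u w huw => absurd huw (hE u w)⟩
    · intro a b w hab
      have hxz : x a b w = 0 := by
        have h := hx.1 a b w
        have : N G a b * (A G a w * A G b w) = 0 := by
          unfold A; rw [if_neg (hE a w)]; ring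
        rw [this] at h
        linarith [h.1, h.2]
      have h1 := hc (fun i => if i = (a, b, w) then 1 else 0) 0 (by
        have := hsel a b w
        rw [hxz] at this
        simpa using this)
      rw [Finset.sum_eq_single (a, b, w)] at h1
      · simpa using h1
      · intro i _ hi; simp [hi]
      · intro h; exact absurd (Finset.mem_univ _) h
    · intro a b hab hnadj
      exfalso
      have h := hx.2 a b
      have hN : N G a b = 1 := by unfold N; rw [if_pos ⟨hab, hnadj⟩]
      rw [hN] at h
      have : ∑ w, x a b w = 0 := by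
        refine Finset.sum_eq_zero fun w _ => ?_
        have h := hx.1 a b w
        have : N G a b * (A G a w * A G b w) = 0 := by
          unfold A; rw [if_neg (hE a w)]; ring
        rw [this] at h
        linarith [h.1, h.2]
      rw [this] at h
      norm_num at h
  obtain ⟨u0, w0, hE0⟩ := hE
  refine ⟨D, c, ∑ b, (c (u0, b, w0) + c (b, u0, w0)) + ∑ b, (c (w0, b, u0) + c (b, w0, u0)), hD,
    ?_, ?_, fun u w huw => hM u w huw u0 w0 hE0⟩
  · intro a b w hab
    have hxz : x a b w = 0 := by
      have h := hx.1 a b w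
      have : N G a b * (A G a w * A G b w) = 0 := by
        unfold A N
        by_cases h1 : a ≠ b ∧ ¬ G.Adj a b
        · by_cases h2 : G.Adj a w
          · by_cases h3 : G.Adj b w
            · exact absurd ⟨h1.1, h1.2, h2, h3⟩ hab
            · rw [if_neg h3]; ring
          · rw [if_neg h2]; ring
        · rw [if_neg h1]; ring
      rw [this] at h
      linarith [h.1, h.2]
    have h1 := hc (fun i => if i = (a, b, w) then 1 else 0) 0 (by
      have := hsel a b w
      rw [hxz] at this
      simpa using this)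
    rw [Finset.sum_eq_single (a, b, w)] at h1
    · simpa using h1
    · intro i _ hi; simp [hi]
    · intro h; exact absurd (Finset.mem_univ _) h
  · intro a b hab hnadj
    have h := hx.2 a b
    have hN : N G a b = 1 := by unfold N; rw [if_pos ⟨hab, hnadj⟩]
    rw [hN] at h
    have h1 := hc (fun i => if i.1 = a ∧ i.2.1 = b then 1 else 0) 1 (by
      rw [← show ((1 : ℝ)) = ((1 : ℚ) : ℝ) by norm_num, ← h,
        ← sum_sel (fun i : Fin n × Fin n × Fin n => x i.1 i.2.1 i.2.2) a b]
      refine Finset.sum_congr rfl fun i _ => ?_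
      split_ifs <;> norm_num)
    rw [sum_sel (fun i => (c i : ℚ)) a b, mul_one] at h1
    exact_mod_cast h1

/-- Pseudo-random graphs are edge-path-regular. -/
theorem regular_of_PR {δ : ℝ} (hG : PR G δ) (hδ : δ ≤ 1 / 100000000) (hn : 100000000 ≤ n) :
    ∃ m k : ℕ, 1 ≤ m ∧ 1 ≤ k ∧
        ∃ P : ∀ u v : Fin n, Fin k → G.Walk u v,
          (∀ u v : Fin n, u < v → ∀ t : Fin k,
              (P u v t).IsPath ∧ (P u v t).length = G.dist u v) ∧
          (∀ e ∈ G.edgeSet,
              ∑ u : Fin n, ∑ v ∈ Finset.univ.filter (fun v => u < v), ∑ t : Fin k,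
                (P u v t).edges.count e = m) := by
  classical
  obtain ⟨D, c, L, hD, hc0, hcD, hcL⟩ := exists_int G hG hδ hn
  have hcommon : ∀ a b : Fin n, a ≠ b → ∃ w, G.Adj a w ∧ G.Adj b w := by
    intro a b hab
    by_contra hcon
    push Not at hcon
    have h1 := C_pos G hG (by linarith) (by omega) a b hab
    have h2 : C G a b = 0 := by
      unfold C
      refine Finset.sum_eq_zero fun w _ => ?_
      unfold A
      by_cases h : G.Adj a w
      · rw [if_neg (hcon w h)]; ring
      · rw [if_neg h]; ring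
    linarith
  -- choice of middle vertices
  have hφ : ∀ u v : Fin n, ∃ φ : Fin (2 * D) → Fin n, u ≠ v → ¬ G.Adj u v →
      ((∀ t, G.Adj u (φ t) ∧ G.Adj v (φ t)) ∧
      ∀ g : Fin n → ℕ, ∑ t, g (φ t) = ∑ w, (c (u, v, w) + c (v, u, w)) * g w) := by
    intro u v
    by_cases h : u ≠ v ∧ ¬ G.Adj u v
    · obtain ⟨φ, h1, h2⟩ := exists_fun (k := 2 * D) (fun w => c (u, v, w) + c (v, u, w)) (by
        rw [Finset.sum_add_distrib, hcD u v h.1 h.2, hcD v u h.1.symm (fun h' => h.2 h'.symm)]
        ring)
      refine ⟨φ, fun _ _ => ⟨fun t => ?_, h2⟩⟩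
      by_contra hcon
      have h3 := h1 t
      have h4 : c (u, v, φ t) = 0 := hc0 _ _ _ (fun h' => hcon ⟨h'.2.2.1, h'.2.2.2⟩)
      have h5 : c (v, u, φ t) = 0 := hc0 _ _ _ (fun h' => hcon ⟨h'.2.2.2, h'.2.2.1⟩)
      rw [h4, h5] at h3
      omega
    · refine ⟨fun _ => u, fun h1 h2 => absurd ⟨h1, h2⟩ h⟩
  choose φ hφ using hφ
  -- the walks
  have hwalk : ∀ u v : Fin n, ∀ t : Fin (2 * D), ∃ p : G.Walk u v, u < v →
      (p.IsPath ∧ p.length = G.dist u v ∧ (G.Adj u v → p.edges = [s(u, v)]) ∧
      (¬ G.Adj u v → p.edges = [s(u, φ u v t), s(φ u v t, v)])) := by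
    intro u v t
    by_cases huv : u = v
    · subst huv
      exact ⟨SimpleGraph.Walk.nil, fun h => absurd h (lt_irrefl _)⟩
    by_cases hadj : G.Adj u v
    · refine ⟨SimpleGraph.Walk.cons hadj SimpleGraph.Walk.nil, fun _ => ⟨?_, ?_, ?_, ?_⟩⟩
      · simp [SimpleGraph.Walk.cons_isPath_iff, huv]
      · rw [SimpleGraph.dist_eq_one_iff_adj.2 hadj]; rfl
      · intro _; rfl
      · intro h; exact absurd hadj h
    · obtain ⟨h1, h2⟩ := (hφ u v huv hadj).1 t
      refine ⟨SimpleGraph.Walk.cons h1 (SimpleGraph.Walk.cons h2.symm SimpleGraph.Walk.nil),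
        fun _ => ⟨?_, ?_, ?_, ?_⟩⟩
      · simp [SimpleGraph.Walk.cons_isPath_iff, huv, h1.ne, h2.ne.symm]
      · have h3 : G.dist u v ≤ 2 := SimpleGraph.dist_le
          (SimpleGraph.Walk.cons h1 (SimpleGraph.Walk.cons h2.symm SimpleGraph.Walk.nil))
        have hreach : G.Reachable u v := ⟨SimpleGraph.Walk.cons h1
          (SimpleGraph.Walk.cons h2.symm SimpleGraph.Walk.nil)⟩
        have h4 : G.dist u v ≠ 0 := by
          intro h0
          exact huv (hreach.dist_eq_zero_iff.1 h0)
        have h5 : G.dist u v ≠ 1 := by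
          intro h1'
          exact hadj (SimpleGraph.dist_eq_one_iff_adj.1 h1')
        have h6 : (SimpleGraph.Walk.cons h1 (SimpleGraph.Walk.cons h2.symm
          SimpleGraph.Walk.nil)).length = 2 := rfl
        rw [h6]; omega
      · intro h; exact absurd h hadj
      · intro _; rfl
  choose P hP using hwalk
  refine ⟨2 * D + L, 2 * D, by omega, by omega, P, ?_, ?_⟩
  · intro u v huv t
    exact ⟨(hP u v t huv).1, (hP u v t huv).2.1⟩
  · intro e he
    induction e using Sym2.ind with
    | _ x y =>
    rw [SimpleGraph.mem_edgeSet] at he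
    have hK : ∀ u v : Fin n, u < v → ∑ t : Fin (2 * D), (P u v t).edges.count s(x, y) =
        (if s(u, v) = s(x, y) then 2 * D else 0) +
        (∑ w, c (u, v, w) * ((if s(u, w) = s(x, y) then 1 else 0) + (if s(w, v) = s(x, y) then 1 else 0)) +
        ∑ w, c (v, u, w) * ((if s(v, w) = s(x, y) then 1 else 0) + (if s(w, u) = s(x, y) then 1 else 0))) := by
      intro u v huv
      by_cases hadj : G.Adj u v
      · have h1 : ∀ w, c (u, v, w) = 0 := fun w => hc0 _ _ _ (fun h => h.2.1 hadj)
        have h2 : ∀ w, c (v, u, w) = 0 := fun w => hc0 _ _ _ (fun h => h.2.1 hadj.symm)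
        simp only [h1, h2, zero_mul, Finset.sum_const_zero, add_zero]
        have h3 : ∀ t, (P u v t).edges.count s(x, y) = if s(u, v) = s(x, y) then 1 else 0 := by
          intro t
          rw [(hP u v t huv).2.2.1 hadj, List.count_singleton]
          simp only [beq_iff_eq]
        simp only [h3, Finset.sum_const, Finset.card_univ, Fintype.card_fin, smul_eq_mul]
        split_ifs <;> simp
      · have hne : s(u, v) ≠ s(x, y) := by
          intro h
          apply hadj
          rw [← SimpleGraph.mem_edgeSet, h, SimpleGraph.mem_edgeSet]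
          exact he
        rw [if_neg hne, zero_add]
        have h3 : ∀ t, (P u v t).edges.count s(x, y) =
            (fun w => (if s(u, w) = s(x, y) then 1 else 0) + (if s(w, v) = s(x, y) then 1 else 0)) (φ u v t) := by
          intro t
          rw [(hP u v t huv).2.2.2 hadj, List.count_cons, List.count_singleton]
          simp only [beq_iff_eq]
          ring
        simp only [h3]
        have h4 := (hφ u v huv.ne hadj).2 (fun w => (if s(u, w) = s(x, y) then 1 else 0) + (if s(w, v) = s(x, y) then 1 else 0))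
        rw [h4, ← Finset.sum_add_distrib]
        refine Finset.sum_congr rfl fun w _ => ?_
        rw [Sym2.eq_swap (a := v) (b := w), Sym2.eq_swap (a := w) (b := u)]
        ring
    have hK' : ∑ u : Fin n, ∑ v ∈ Finset.univ.filter (fun v => u < v), ∑ t : Fin (2 * D),
        (P u v t).edges.count s(x, y) =
        ∑ u : Fin n, ∑ v ∈ Finset.univ.filter (fun v => u < v),
        ((if s(u, v) = s(x, y) then 2 * D else 0) +
        (∑ w, c (u, v, w) * ((if s(u, w) = s(x, y) then 1 else 0) + (if s(w, v) = s(x, y) then 1 else 0)) +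
        ∑ w, c (v, u, w) * ((if s(v, w) = s(x, y) then 1 else 0) + (if s(w, u) = s(x, y) then 1 else 0)))) := by
      refine Finset.sum_congr rfl fun u _ => Finset.sum_congr rfl fun v hv => ?_
      rw [Finset.mem_filter] at hv
      exact hK u v hv.2
    rw [hK']
    simp only [Finset.sum_add_distrib (s := Finset.univ.filter _)]
    simp only [Finset.sum_add_distrib (s := (Finset.univ : Finset (Fin n)))
      (f := fun u => ∑ v ∈ Finset.univ.filter (fun v => u < v), (if s(u, v) = s(x, y) then 2 * D else 0))]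
    have hxy : x ≠ y := he.ne
    have hfirst : ∑ u : Fin n, ∑ v ∈ Finset.univ.filter (fun v => u < v),
        (if s(u, v) = s(x, y) then 2 * D else 0) = 2 * D := by
      have h1 : ∀ x y : Fin n, x < y → ∑ u : Fin n, ∑ v ∈ Finset.univ.filter (fun v => u < v),
          (if s(u, v) = s(x, y) then 2 * D else 0) = 2 * D := by
        intro x y hxy
        rw [Finset.sum_eq_single x]
        · rw [Finset.sum_eq_single y]
          · simp
          · intro v hv hvy
            rw [if_neg]
            intro h
            rw [Sym2.eq_iff] at h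
            rcases h with ⟨_, h⟩ | ⟨h, _⟩
            · exact hvy h
            · exact hxy.ne h
          · intro h
            exact absurd (by simp [hxy]) h
        · intro u _ hux
          refine Finset.sum_eq_zero fun v hv => ?_
          rw [Finset.mem_filter] at hv
          rw [if_neg]
          intro h
          rw [Sym2.eq_iff] at h
          rcases h with ⟨h, _⟩ | ⟨h, h'⟩
          · exact hux h
          · subst h; subst h'
            exact absurd hv.2 (not_lt.2 hxy.le)
        · intro h; exact absurd (Finset.mem_univ _) h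
      rcases lt_or_gt_of_ne hxy with h | h
      · exact h1 x y h
      · refine Eq.trans ?_ (h1 y x h)
        refine Finset.sum_congr rfl fun u _ => Finset.sum_congr rfl fun v _ => ?_
        rw [Sym2.eq_swap (a := x) (b := y)]
    have hsecond : ∑ u : Fin n, ∑ v ∈ Finset.univ.filter (fun v => u < v),
        (∑ w, c (u, v, w) * ((if s(u, w) = s(x, y) then 1 else 0) + (if s(w, v) = s(x, y) then 1 else 0)) +
        ∑ w, c (v, u, w) * ((if s(v, w) = s(x, y) then 1 else 0) + (if s(w, u) = s(x, y) then 1 else 0))) = L := by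
      rw [sum_lt_symm (fun u v => ∑ w, c (u, v, w) * ((if s(u, w) = s(x, y) then 1 else 0) +
        (if s(w, v) = s(x, y) then 1 else 0))) (fun u => Finset.sum_eq_zero fun w _ => by
          rw [hc0 u u w (fun h => h.1 rfl), zero_mul])]
      rw [← hcL x y he]
      have hsplit : ∀ a p : Fin n, (if s(a, p) = s(x, y) then 1 else 0 : ℕ) =
          (if a = x ∧ p = y then 1 else 0) + (if a = y ∧ p = x then 1 else 0) := by
        intro a p
        by_cases h1 : a = x ∧ p = y
        · obtain ⟨rfl, rfl⟩ := h1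
          simp [hxy]
        · by_cases h2 : a = y ∧ p = x
          · obtain ⟨rfl, rfl⟩ := h2
            simp [hxy, Sym2.eq_swap, Ne.symm hxy]
          · rw [if_neg h1, if_neg h2, if_neg]
            intro h
            rw [Sym2.eq_iff] at h
            tauto
      have hsplit2 : ∀ b p : Fin n, (if s(p, b) = s(x, y) then 1 else 0 : ℕ) =
          (if b = x ∧ p = y then 1 else 0) + (if b = y ∧ p = x then 1 else 0) := by
        intro b p
        rw [Sym2.eq_swap, hsplit]
      have hs3 : ∀ u v w : Fin n, ((if s(u, w) = s(x, y) then 1 else 0) +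
          (if s(w, v) = s(x, y) then 1 else 0) : ℕ) =
          ((if u = x ∧ w = y then 1 else 0) + (if u = y ∧ w = x then 1 else 0)) +
          ((if v = x ∧ w = y then 1 else 0) + (if v = y ∧ w = x then 1 else 0)) := by
        intro u v w
        rw [hsplit u w, hsplit2 v w]
      simp only [hs3]
      have e1 : ∀ x y : Fin n, ∑ a, ∑ b, ∑ p, c (a, b, p) * (if a = x ∧ p = y then 1 else 0) =
          ∑ b, c (x, b, y) := by
        intro x y
        simp [ite_and]
      have e2 : ∀ x y : Fin n, ∑ a, ∑ b, ∑ p, c (a, b, p) * (if b = x ∧ p = y then 1 else 0) =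
          ∑ a, c (a, x, y) := by
        intro x y
        simp [ite_and]
      simp only [mul_add, Finset.sum_add_distrib]
      rw [e1 x y, e1 y x, e2 x y, e2 y x]
      ring
    simp only [Finset.sum_add_distrib] at hfirst hsecond ⊢
    omega

end Pool.Agent.Helper265.EPR
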