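import Mathlib

set_option autoImplicit false

namespace Pool.Agent.Helper265.EPR

open Finset

/-- summing a function of part of the coordinates -/
lemma sum_comp_inj {E I : Type} [Fintype E] [Fintype I] [DecidableEq E] [DecidableEq I]
    (e : I → E) (he : Function.Injective e) (F : (I → Bool) → ℝ) :
    ∑ f : E → Bool, F (fun i => f (e i)) * 2 ^ Fintype.card I =
      2 ^ Fintype.card E * ∑ g : I → Bool, F g := by
  classical
  have hcardE : Fintype.card E = Fintype.card I + Fintype.card {x : E // ¬ x ∈ Set.range e} := by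
    have h1 := Fintype.card_subtype_compl (fun x : E => x ∈ Set.range e)
    have h2 : Fintype.card {x : E // x ∈ Set.range e} = Fintype.card I :=
      (Fintype.card_congr (Equiv.ofInjective e he)).symm
    have h3 : Fintype.card {x : E // x ∈ Set.range e} ≤ Fintype.card E := Fintype.card_subtype_le _
    omega
  have h1 : ∑ f : E → Bool, F (fun i => f (e i)) =
      2 ^ Fintype.card {x : E // ¬ x ∈ Set.range e} * ∑ g : I → Bool, F g := by
    rw [← Equiv.sum_comp (Equiv.piEquivPiSubtypeProd (fun x : E => x ∈ Set.range e)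
      (fun _ => Bool)).symm, Fintype.sum_prod_type]
    have h2 : ∀ (g : {x : E // x ∈ Set.range e} → Bool) (h : {x : E // ¬ x ∈ Set.range e} → Bool),
        (fun i => (Equiv.piEquivPiSubtypeProd (fun x : E => x ∈ Set.range e)
          (fun _ => Bool)).symm (g, h) (e i)) = fun i => g (Equiv.ofInjective e he i) := by
      intro g h
      funext i
      simp [Equiv.piEquivPiSubtypeProd]
    simp only [h2, Finset.sum_const, Finset.card_univ, Fintype.card_fun, Fintype.card_bool,
      nsmul_eq_mul]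
    push_cast
    rw [← Finset.mul_sum]
    congr 1
    rw [← Equiv.sum_comp (Equiv.arrowCongr (Equiv.ofInjective e he) (Equiv.refl Bool))]
    refine Finset.sum_congr rfl fun g _ => ?_
    congr 1
    funext i
    simp
  rw [← Finset.sum_mul, h1, hcardE, pow_add]
  ring

/-- product structure over disjoint blocks -/
lemma sum_blocks {E V : Type} [Fintype E] [Fintype V] [DecidableEq E] [DecidableEq V] {k : ℕ}
    (e : V × Fin k → E) (he : Function.Injective e) (Ψ : (Fin k → Bool) → ℝ) :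
    (∑ f : E → Bool, ∏ v, Ψ (fun i => f (e (v, i)))) * ((2 : ℝ) ^ k) ^ Fintype.card V =
      2 ^ Fintype.card E * (∑ b, Ψ b) ^ Fintype.card V := by
  classical
  have h1 := sum_comp_inj e he (fun g => ∏ v, Ψ (fun i => g (v, i)))
  have h2 : ∑ g : V × Fin k → Bool, ∏ v, Ψ (fun i => g (v, i)) = (∑ b, Ψ b) ^ Fintype.card V := by
    rw [← Equiv.sum_comp (Equiv.curry V (Fin k) Bool).symm]
    have h3 : (∑ b, Ψ b) ^ Fintype.card V = ∏ _v : V, ∑ b, Ψ b := by
      rw [Finset.prod_const, Finset.card_univ]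
    rw [h3, Finset.prod_univ_sum, Fintype.piFinset_univ]
    rfl
  rw [h2] at h1
  rw [← h1, ← Finset.sum_mul, Fintype.card_prod, Fintype.card_fin, ← pow_mul, mul_comm k]

/-- elementary exponential moment bound -/
lemma mgf_bound {p s : ℝ} (hp0 : 0 ≤ p) (hp1 : p ≤ 1) (hs : |s| ≤ 1) :
    p * Real.exp (s * (1 - p)) + (1 - p) * Real.exp (s * (0 - p)) ≤ Real.exp (s ^ 2) := by
  have h1 : Real.exp (s * (1 - p)) ≤ 1 + s * (1 - p) + (s * (1 - p)) ^ 2 := by
    have : |s * (1 - p)| ≤ 1 := by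
      rw [abs_mul, abs_of_nonneg (by linarith : 0 ≤ 1 - p)]
      have := abs_nonneg s
      nlinarith
    have := (abs_le.1 (Real.abs_exp_sub_one_sub_id_le this)).2
    linarith
  have h2 : Real.exp (s * (0 - p)) ≤ 1 + s * (0 - p) + (s * (0 - p)) ^ 2 := by
    have : |s * (0 - p)| ≤ 1 := by
      rw [abs_mul, zero_sub, abs_neg, abs_of_nonneg hp0]
      have := abs_nonneg s
      nlinarith
    have := (abs_le.1 (Real.abs_exp_sub_one_sub_id_le this)).2
    linarith
  have h3 : 1 + s ^ 2 ≤ Real.exp (s ^ 2) := by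
    have := Real.add_one_le_exp (s ^ 2)
    linarith
  have h4 : p * Real.exp (s * (1 - p)) + (1 - p) * Real.exp (s * (0 - p)) ≤
      p * (1 + s * (1 - p) + (s * (1 - p)) ^ 2) + (1 - p) * (1 + s * (0 - p) + (s * (0 - p)) ^ 2) :=
    add_le_add (mul_le_mul_of_nonneg_left h1 hp0) (mul_le_mul_of_nonneg_left h2 (by linarith))
  have h5 : p * (1 + s * (1 - p) + (s * (1 - p)) ^ 2) +
      (1 - p) * (1 + s * (0 - p) + (s * (0 - p)) ^ 2) = 1 + s ^ 2 * (p * (1 - p)) := by ring
  have h6 : p * (1 - p) ≤ 1 := by nlinarith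
  have h7 : s ^ 2 * (p * (1 - p)) ≤ s ^ 2 * 1 := mul_le_mul_of_nonneg_left h6 (sq_nonneg s)
  linarith

/-- exponential moment over all functions -/
lemma exp_moment {E V : Type} [Fintype E] [Fintype V] [DecidableEq E] [DecidableEq V] {k : ℕ}
    (e : V × Fin k → E) (he : Function.Injective e) (σ : Fin k → Bool) {s : ℝ} (hs : |s| ≤ 1) :
    ∑ f : E → Bool, Real.exp (s * ∑ v, ((if (fun i => f (e (v, i))) = σ then (1 : ℝ) else 0) - 1 / 2 ^ k)) ≤
      2 ^ Fintype.card E * Real.exp (s ^ 2 * Fintype.card V) := by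
  classical
  set p : ℝ := 1 / 2 ^ k with hp
  have hk : (0 : ℝ) < 2 ^ k := by positivity
  have h1 := sum_blocks e he (fun b => Real.exp (s * ((if b = σ then (1 : ℝ) else 0) - p)))
  have h2 : ∀ f : E → Bool, ∏ v, Real.exp (s * ((if (fun i => f (e (v, i))) = σ then (1 : ℝ) else 0) - p)) =
      Real.exp (s * ∑ v, ((if (fun i => f (e (v, i))) = σ then (1 : ℝ) else 0) - p)) := by
    intro f
    rw [← Real.exp_sum, Finset.mul_sum]
  simp only [h2] at h1
  have h3 : ∑ b : Fin k → Bool, Real.exp (s * ((if b = σ then (1 : ℝ) else 0) - p)) =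
      2 ^ k * (p * Real.exp (s * (1 - p)) + (1 - p) * Real.exp (s * (0 - p))) := by
    rw [← Finset.add_sum_erase Finset.univ _ (Finset.mem_univ σ)]
    rw [if_pos rfl]
    have : ∑ b ∈ Finset.univ.erase σ, Real.exp (s * ((if b = σ then (1 : ℝ) else 0) - p)) =
        (2 ^ k - 1) * Real.exp (s * (0 - p)) := by
      rw [Finset.sum_congr rfl (g := fun _ => Real.exp (s * (0 - p)))]
      · rw [Finset.sum_const, Finset.card_erase_of_mem (Finset.mem_univ σ), Finset.card_univ,
          Fintype.card_fun, Fintype.card_bool, Fintype.card_fin, nsmul_eq_mul, Nat.cast_sub Nat.one_le_two_pow]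
        push_cast
        ring
      · intro b hb
        rw [if_neg (Finset.ne_of_mem_erase hb)]
    rw [this, hp]
    field_simp
  have hp0 : 0 ≤ p := by positivity
  have hp1 : p ≤ 1 := by
    rw [hp, div_le_one hk]
    exact one_le_pow₀ (by norm_num)
  have h4 := mgf_bound hp0 hp1 hs
  rw [h3, mul_pow] at h1
  have hkk : (0 : ℝ) < ((2 : ℝ) ^ k) ^ Fintype.card V := by positivity
  have h5 : ∑ f : E → Bool, Real.exp (s * ∑ v, ((if (fun i => f (e (v, i))) = σ then (1 : ℝ) else 0) - p)) =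
      2 ^ Fintype.card E * (p * Real.exp (s * (1 - p)) + (1 - p) * Real.exp (s * (0 - p))) ^ Fintype.card V := by
    have h6 : (∑ f : E → Bool, Real.exp (s * ∑ v, ((if (fun i => f (e (v, i))) = σ then (1 : ℝ) else 0) - p))) *
        ((2 : ℝ) ^ k) ^ Fintype.card V =
      (2 ^ Fintype.card E * (p * Real.exp (s * (1 - p)) + (1 - p) * Real.exp (s * (0 - p))) ^ Fintype.card V) *
        ((2 : ℝ) ^ k) ^ Fintype.card V := by rw [h1]; ring
    exact mul_right_cancel₀ hkk.ne' h6
  rw [h5]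
  refine mul_le_mul_of_nonneg_left ?_ (by positivity)
  rw [mul_comm (s ^ 2), Real.exp_nat_mul]
  refine pow_le_pow_left₀ ?_ h4 _
  have := Real.exp_pos (s * (1 - p))
  have := Real.exp_pos (s * (0 - p))
  have : 0 ≤ 1 - p := by linarith
  positivity

/-- two-sided Chernoff bound as a count -/
theorem chernoff {E V : Type} [Fintype E] [Fintype V] [DecidableEq E] [DecidableEq V] {k : ℕ}
    (e : V × Fin k → E) (he : Function.Injective e) (σ : Fin k → Bool) {δ : ℝ} (hδ0 : 0 < δ)
    (hδ1 : δ ≤ 1) :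
    ((Finset.univ.filter (fun f : E → Bool => δ * Fintype.card V ≤
      |∑ v, ((if (fun i => f (e (v, i))) = σ then (1 : ℝ) else 0) - 1 / 2 ^ k)|)).card : ℝ) ≤
      2 * (2 ^ Fintype.card E * Real.exp (-(δ ^ 2 / 4 * Fintype.card V))) := by
  classical
  set S : (E → Bool) → ℝ := fun f => ∑ v, ((if (fun i => f (e (v, i))) = σ then (1 : ℝ) else 0) - 1 / 2 ^ k) with hS
  set Nv : ℝ := ((Fintype.card V : ℕ) : ℝ) with hNv
  have hNv0 : 0 ≤ Nv := by positivity
  have hexp : ∀ s : ℝ, |s| ≤ 1 → ∑ f : E → Bool, Real.exp (s * S f) ≤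
      2 ^ Fintype.card E * Real.exp (s ^ 2 * Nv) := fun s hs => exp_moment e he σ hs
  have hs1 : |δ / 2| ≤ 1 := by rw [abs_of_pos (by linarith)]; linarith
  have hs2 : |-(δ / 2)| ≤ 1 := by rw [abs_neg]; exact hs1
  have hmark : ∀ s : ℝ, |s| ≤ 1 → s ^ 2 = δ ^ 2 / 4 →
      ((Finset.univ.filter (fun f : E → Bool => δ ^ 2 / 2 * Nv ≤ s * S f)).card : ℝ) ≤
      2 ^ Fintype.card E * Real.exp (-(δ ^ 2 / 4 * Nv)) := by
    intro s hs hs2
    have h1 : ((Finset.univ.filter (fun f : E → Bool => δ ^ 2 / 2 * Nv ≤ s * S f)).card : ℝ) *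
        Real.exp (δ ^ 2 / 2 * Nv) ≤ ∑ f : E → Bool, Real.exp (s * S f) := by
      calc ((Finset.univ.filter (fun f : E → Bool => δ ^ 2 / 2 * Nv ≤ s * S f)).card : ℝ) *
          Real.exp (δ ^ 2 / 2 * Nv) =
          ∑ _f ∈ Finset.univ.filter (fun f : E → Bool => δ ^ 2 / 2 * Nv ≤ s * S f),
            Real.exp (δ ^ 2 / 2 * Nv) := by rw [Finset.sum_const, nsmul_eq_mul]
        _ ≤ ∑ f ∈ Finset.univ.filter (fun f : E → Bool => δ ^ 2 / 2 * Nv ≤ s * S f),
            Real.exp (s * S f) := by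
            refine Finset.sum_le_sum fun f hf => ?_
            rw [Finset.mem_filter] at hf
            exact Real.exp_le_exp.2 hf.2
        _ ≤ _ := Finset.sum_le_sum_of_subset_of_nonneg (Finset.filter_subset _ _)
            fun f _ _ => (Real.exp_pos _).le
    have h2 := h1.trans (hexp s hs)
    rw [hs2] at h2
    have h3 : Real.exp (δ ^ 2 / 4 * Nv) =
        Real.exp (-(δ ^ 2 / 4 * Nv)) * Real.exp (δ ^ 2 / 2 * Nv) := by
      rw [← Real.exp_add]; congr 1; ring
    rw [h3, ← mul_assoc] at h2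
    exact le_of_mul_le_mul_right h2 (Real.exp_pos _)
  have hsub : (Finset.univ.filter (fun f : E → Bool => δ * Nv ≤ |S f|)) ⊆
      (Finset.univ.filter (fun f : E → Bool => δ ^ 2 / 2 * Nv ≤ (δ / 2) * S f)) ∪
      (Finset.univ.filter (fun f : E → Bool => δ ^ 2 / 2 * Nv ≤ (-(δ / 2)) * S f)) := by
    intro f hf
    rw [Finset.mem_filter] at hf
    rw [Finset.mem_union, Finset.mem_filter, Finset.mem_filter]
    rcases abs_cases (S f) with ⟨h1, _⟩ | ⟨h1, _⟩
    · left
      refine ⟨Finset.mem_univ _, ?_⟩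
      have := hf.2
      rw [h1] at this
      nlinarith
    · right
      refine ⟨Finset.mem_univ _, ?_⟩
      have := hf.2
      rw [h1] at this
      nlinarith
  have h1 := Finset.card_le_card hsub
  have h2 := Finset.card_union_le (Finset.univ.filter (fun f : E → Bool => δ ^ 2 / 2 * Nv ≤ (δ / 2) * S f))
    (Finset.univ.filter (fun f : E → Bool => δ ^ 2 / 2 * Nv ≤ (-(δ / 2)) * S f))
  have h3 := hmark (δ / 2) hs1 (by ring)
  have h4 := hmark (-(δ / 2)) hs2 (by ring)
  have h5 : ((Finset.univ.filter (fun f : E → Bool => δ * Nv ≤ |S f|)).card : ℝ) ≤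
      ((Finset.univ.filter (fun f : E → Bool => δ ^ 2 / 2 * Nv ≤ (δ / 2) * S f)).card : ℝ) +
      ((Finset.univ.filter (fun f : E → Bool => δ ^ 2 / 2 * Nv ≤ (-(δ / 2)) * S f)).card : ℝ) := by
    exact_mod_cast h1.trans h2
  linarith

end Pool.Agent.Helper265.EPR
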