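import Pool.Agent.Helper265.EPRd
import Pool.Agent.Helper265.EPRe

set_option autoImplicit false

namespace Pool.Agent.Helper265.EPR

open Finset Filter

/-- the potential edges -/
abbrev Ed (n : ℕ) := {e : Sym2 (Fin n) // ¬ e.IsDiag}

lemma card_Ed (n : ℕ) : Fintype.card (Ed n) = n.choose 2 := by
  rw [Sym2.card_subtype_not_diag, Fintype.card_fin]

variable {n : ℕ}

/-- the graph of an edge indicator -/
def toG (f : Ed n → Bool) : SimpleGraph (Fin n) where
  Adj a b := ∃ h : ¬ (s(a, b)).IsDiag, f ⟨s(a, b), h⟩ = true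
  symm := ⟨by
    rintro a b ⟨h, hf⟩
    have e : s(b, a) = s(a, b) := Sym2.eq_swap
    refine ⟨by rw [e]; exact h, ?_⟩
    rw [← hf]
    congr 1
    exact Subtype.ext e⟩
  loopless := ⟨by
    rintro a ⟨h, _⟩
    exact h rfl⟩

lemma toG_adj (f : Ed n → Bool) (a b : Fin n) (h : ¬ (s(a, b)).IsDiag) :
    (toG f).Adj a b ↔ f ⟨s(a, b), h⟩ = true :=
  ⟨fun ⟨_, hf⟩ => hf, fun hf => ⟨h, hf⟩⟩

lemma toG_injective : Function.Injective (toG (n := n)) := by
  intro f g hfg
  funext e
  obtain ⟨e, he⟩ := e
  induction e using Sym2.ind with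
  | _ a b =>
  have h1 : (toG f).Adj a b ↔ (toG g).Adj a b := by rw [hfg]
  rw [toG_adj f a b he, toG_adj g a b he] at h1
  exact Bool.eq_iff_iff.2 h1

/-- vertices outside a tuple -/
abbrev Out {k : ℕ} (T : Fin k → Fin n) := {v : Fin n // ∀ i, v ≠ T i}

lemma card_Out {k : ℕ} {T : Fin k → Fin n} (hT : Function.Injective T) :
    Fintype.card (Out T) + k = n := by
  classical
  have h1 := Fintype.card_subtype_compl (fun v : Fin n => v ∈ Set.range T)
  have h2 : Fintype.card {v : Fin n // v ∈ Set.range T} = k := by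
    rw [(Fintype.card_congr (Equiv.ofInjective T hT)).symm, Fintype.card_fin]
  have h3 : Fintype.card {v : Fin n // v ∈ Set.range T} ≤ Fintype.card (Fin n) :=
    Fintype.card_subtype_le _
  have h4 : Fintype.card (Out T) = Fintype.card {v : Fin n // ¬ v ∈ Set.range T} := by
    apply Fintype.card_congr
    exact Equiv.subtypeEquivRight (fun v => by simp [Set.mem_range, eq_comm])
  rw [Fintype.card_fin] at h1 h3
  omega

/-- the block coordinates -/
def blk {k : ℕ} (T : Fin k → Fin n) (x : Out T × Fin k) : Ed n :=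
  ⟨s(x.1.1, T x.2), by
    rw [Sym2.mk_isDiag_iff]
    exact x.1.2 x.2⟩

lemma blk_injective {k : ℕ} {T : Fin k → Fin n} (hT : Function.Injective T) :
    Function.Injective (blk T) := by
  rintro ⟨v, i⟩ ⟨v', i'⟩ h
  have h1 := congrArg Subtype.val h
  simp only [blk] at h1
  rw [Sym2.eq_iff] at h1
  rcases h1 with ⟨h1, h2⟩ | ⟨h1, _⟩
  · have h3 : v = v' := Subtype.ext h1
    have h4 : i = i' := hT h2
    rw [h3, h4]
  · exact absurd h1 (v.2 i')

open Classical in
/-- bad event -/
noncomputable def Bad {k : ℕ} (σ : Fin k → Bool) (T : Fin k → Fin n) : Finset (Ed n → Bool) :=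
  Finset.univ.filter (fun f : Ed n → Bool => (1 / 200000000 : ℝ) * Fintype.card (Out T) ≤
    |∑ v : Out T, ((if (fun i => f (blk T (v, i))) = σ then (1 : ℝ) else 0) - 1 / 2 ^ k)|)

/-- rate constant -/
noncomputable def rate : ℝ := (1 / 200000000 : ℝ) ^ 2 / 4

lemma rate_pos : 0 < rate := by unfold rate; positivity

lemma card_Bad {k : ℕ} (hk : k ≤ 4) (σ : Fin k → Bool) (T : Fin k → Fin n)
    (hT : Function.Injective T) :
    ((Bad σ T).card : ℝ) ≤ 2 * (2 ^ n.choose 2 * Real.exp (-(rate * (n - 4)))) := by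
  classical
  have h1 := chernoff (blk T) (blk_injective hT) σ (δ := 1 / 200000000) (by norm_num) (by norm_num)
  have h2 := card_Out hT
  have h3 : (n : ℝ) - 4 ≤ Fintype.card (Out T) := by
    have : (n : ℝ) = Fintype.card (Out T) + k := by exact_mod_cast h2.symm
    have hk' : (k : ℝ) ≤ 4 := by exact_mod_cast hk
    linarith
  rw [card_Ed] at h1
  have h4 : ((Bad σ T).card : ℝ) ≤ 2 * (2 ^ n.choose 2 *
      Real.exp (-((1 / 200000000 : ℝ) ^ 2 / 4 * Fintype.card (Out T)))) := by
    unfold Bad
    convert h1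
  refine h4.trans ?_
  refine mul_le_mul_of_nonneg_left (mul_le_mul_of_nonneg_left ?_ (by positivity)) (by norm_num)
  apply Real.exp_le_exp.2
  unfold rate
  have : (0 : ℝ) < (1 / 200000000 : ℝ) ^ 2 / 4 := by positivity
  nlinarith

open Classical in
/-- sum over the outside vertices -/
lemma sum_Out {k : ℕ} (T : Fin k → Fin n) (F : Fin n → ℝ) (hF : ∀ i, F (T i) = 0) :
    ∑ v : Out T, F v.1 = ∑ v, F v := by
  rw [← Finset.sum_subtype (Finset.univ.filter (fun v : Fin n => ∀ i, v ≠ T i))
    (fun v => by simp) F]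
  rw [Finset.sum_filter]
  refine Finset.sum_congr rfl fun v _ => ?_
  split_ifs with h
  · rfl
  · push Not at h
    obtain ⟨i, hi⟩ := h
    rw [hi, hF]

lemma good_deg (hn : 100000000 ≤ n) (f : Ed n → Bool) (i : Fin n)
    (hf : f ∉ Bad (fun _ : Fin 1 => true) (fun _ => i)) :
    |∑ j, A (toG f) i j - n / 2| ≤ 1 / 100000000 * n := by
  classical
  have hn' : (100000000 : ℝ) ≤ n := by exact_mod_cast hn
  have hT : Function.Injective (fun _ : Fin 1 => i) := fun a b _ => Subsingleton.elim a b
  have hc := card_Out hT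
  have hc' : (Fintype.card (Out (fun _ : Fin 1 => i)) : ℝ) = n - 1 := by
    have : (n : ℝ) = Fintype.card (Out (fun _ : Fin 1 => i)) + 1 := by exact_mod_cast hc.symm
    linarith
  unfold Bad at hf
  rw [Finset.mem_filter] at hf
  push Not at hf
  have h1 := hf (Finset.mem_univ f)
  rw [Finset.sum_sub_distrib, Finset.sum_const, Finset.card_univ, nsmul_eq_mul, hc'] at h1
  have h2 : ∑ v : Out (fun _ : Fin 1 => i), (if (fun i' => f (blk (fun _ => i) (v, i'))) = (fun _ => true)
      then (1 : ℝ) else 0) = ∑ j, A (toG f) i j := by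
    rw [← sum_Out (fun _ : Fin 1 => i) (fun j => A (toG f) i j) (fun _ => by unfold A; simp)]
    refine Finset.sum_congr rfl fun v _ => ?_
    rw [A_symm]
    unfold A
    have hd : ¬ (s(v.1, i)).IsDiag := by
      rw [Sym2.mk_isDiag_iff]; exact v.2 0
    simp only [toG_adj f v.1 i hd]
    congr 1
    apply propext
    constructor
    · intro h; exact congrFun h 0
    · intro h; funext _; exact h
  rw [h2] at h1
  have h3 := abs_lt.1 h1
  rw [abs_le]
  constructor <;> linarith [h3.1, h3.2]

lemma good_codeg (hn : 100000000 ≤ n) (f : Ed n → Bool) (i j : Fin n) (hij : i ≠ j)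
    (hf : f ∉ Bad (fun _ : Fin 2 => true) ![i, j]) :
    |∑ w, A (toG f) i w * A (toG f) j w - n / 4| ≤ 1 / 100000000 * n := by
  classical
  have hn' : (100000000 : ℝ) ≤ n := by exact_mod_cast hn
  have hT : Function.Injective ![i, j] := by
    intro a b hab
    fin_cases a <;> fin_cases b <;> simp_all
  have hc := card_Out hT
  have hc' : (Fintype.card (Out ![i, j]) : ℝ) = n - 2 := by
    have : (n : ℝ) = Fintype.card (Out ![i, j]) + 2 := by exact_mod_cast hc.symm
    linarith
  unfold Bad at hf
  rw [Finset.mem_filter] at hf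
  push Not at hf
  have h1 := hf (Finset.mem_univ f)
  rw [Finset.sum_sub_distrib, Finset.sum_const, Finset.card_univ, nsmul_eq_mul, hc'] at h1
  have h2 : ∑ v : Out ![i, j], (if (fun i' => f (blk ![i, j] (v, i'))) = (fun _ => true)
      then (1 : ℝ) else 0) = ∑ w, A (toG f) i w * A (toG f) j w := by
    rw [← sum_Out ![i, j] (fun w => A (toG f) i w * A (toG f) j w) (fun t => by
      unfold A; fin_cases t <;> simp)]
    refine Finset.sum_congr rfl fun v _ => ?_
    rw [A_symm _ i, A_symm _ j]
    unfold A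
    have hd : ¬ (s(v.1, i)).IsDiag := by
      rw [Sym2.mk_isDiag_iff]; exact v.2 0
    have hd' : ¬ (s(v.1, j)).IsDiag := by
      rw [Sym2.mk_isDiag_iff]; exact v.2 1
    simp only [toG_adj f v.1 i hd, toG_adj f v.1 j hd']
    have h5 : ((fun i' => f (blk ![i, j] (v, i'))) = (fun _ => true)) ↔
        (f ⟨s(v.1, i), hd⟩ = true ∧ f ⟨s(v.1, j), hd'⟩ = true) := by
      constructor
      · intro h; exact ⟨congrFun h 0, congrFun h 1⟩
      · rintro ⟨ha, hb⟩
        funext t
        fin_cases t
        · exact ha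
        · exact hb
    by_cases ha : f ⟨s(v.1, i), hd⟩ = true <;> by_cases hb : f ⟨s(v.1, j), hd'⟩ = true
    · rw [if_pos (h5.2 ⟨ha, hb⟩), if_pos ha, if_pos hb]; norm_num
    · rw [if_neg (fun h => hb (h5.1 h).2), if_neg hb]; norm_num
    · rw [if_neg (fun h => ha (h5.1 h).1), if_neg ha]; norm_num
    · rw [if_neg (fun h => ha (h5.1 h).1), if_neg ha]; norm_num
  rw [h2] at h1
  have h3 := abs_lt.1 h1
  rw [abs_le]
  norm_num at h3
  constructor <;> linarith [h3.1, h3.2]

lemma good_pat (hn : 100000000 ≤ n) (f : Ed n → Bool) (a b c d : Fin n)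
    (hT : Function.Injective ![a, b, c, d])
    (hf : f ∉ Bad ![true, true, false, false] ![a, b, c, d]) :
    (n : ℝ) / 32 ≤ ∑ v, A (toG f) v a * A (toG f) v b * (N (toG f) v c * N (toG f) v d) := by
  classical
  have hn' : (100000000 : ℝ) ≤ n := by exact_mod_cast hn
  have hc := card_Out hT
  have hc' : (Fintype.card (Out ![a, b, c, d]) : ℝ) = n - 4 := by
    have : (n : ℝ) = Fintype.card (Out ![a, b, c, d]) + 4 := by exact_mod_cast hc.symm
    linarith
  unfold Bad at hf
  rw [Finset.mem_filter] at hf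
  push Not at hf
  have h1 := hf (Finset.mem_univ f)
  rw [Finset.sum_sub_distrib, Finset.sum_const, Finset.card_univ, nsmul_eq_mul, hc'] at h1
  have h2 : ∑ v : Out ![a, b, c, d], (if (fun i' => f (blk ![a, b, c, d] (v, i'))) =
      ![true, true, false, false] then (1 : ℝ) else 0) =
      ∑ v, A (toG f) v a * A (toG f) v b * (N (toG f) v c * N (toG f) v d) := by
    rw [← sum_Out ![a, b, c, d]
      (fun v => A (toG f) v a * A (toG f) v b * (N (toG f) v c * N (toG f) v d)) (fun t => by
      unfold A N; fin_cases t <;> simp)]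
    refine Finset.sum_congr rfl fun v _ => ?_
    unfold A N
    have va : v.1 ≠ a := v.2 0
    have vb : v.1 ≠ b := v.2 1
    have vc : v.1 ≠ c := v.2 2
    have vd : v.1 ≠ d := v.2 3
    have ha : ¬ (s(v.1, a)).IsDiag := by rw [Sym2.mk_isDiag_iff]; exact va
    have hb : ¬ (s(v.1, b)).IsDiag := by rw [Sym2.mk_isDiag_iff]; exact vb
    have hc : ¬ (s(v.1, c)).IsDiag := by rw [Sym2.mk_isDiag_iff]; exact vc
    have hd : ¬ (s(v.1, d)).IsDiag := by rw [Sym2.mk_isDiag_iff]; exact vd
    simp only [toG_adj f v.1 a ha, toG_adj f v.1 b hb, toG_adj f v.1 c hc, toG_adj f v.1 d hd]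
    have h5 : ((fun i' => f (blk ![a, b, c, d] (v, i'))) = ![true, true, false, false]) ↔
        (f ⟨s(v.1, a), ha⟩ = true ∧ f ⟨s(v.1, b), hb⟩ = true ∧ f ⟨s(v.1, c), hc⟩ = false ∧
          f ⟨s(v.1, d), hd⟩ = false) := by
      constructor
      · intro h; exact ⟨congrFun h 0, congrFun h 1, congrFun h 2, congrFun h 3⟩
      · rintro ⟨h1, h2, h3, h4⟩
        funext t
        fin_cases t
        · exact h1
        · exact h2
        · exact h3
        · exact h4
    simp only [h5]
    cases f ⟨s(v.1, a), ha⟩ <;> cases f ⟨s(v.1, b), hb⟩ <;> cases f ⟨s(v.1, c), hc⟩ <;>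
      cases f ⟨s(v.1, d), hd⟩ <;> simp [vc, vd]
  rw [h2] at h1
  have h3 := abs_lt.1 h1
  norm_num at h3
  linarith [h3.1, h3.2]

open Classical in
/-- all bad events -/
noncomputable def AllBad (n : ℕ) : Finset (Ed n → Bool) :=
  (Finset.univ.filter (fun T : Fin 1 → Fin n => Function.Injective T)).biUnion (Bad (fun _ => true)) ∪
  ((Finset.univ.filter (fun T : Fin 2 → Fin n => Function.Injective T)).biUnion (Bad (fun _ => true)) ∪
  (Finset.univ.filter (fun T : Fin 4 → Fin n => Function.Injective T)).biUnion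
    (Bad ![true, true, false, false]))

lemma PR_of_good (hn : 100000000 ≤ n) (f : Ed n → Bool) (hf : f ∉ AllBad n) :
    PR (toG f) (1 / 100000000) := by
  classical
  unfold AllBad at hf
  rw [Finset.mem_union, Finset.mem_union, not_or, not_or] at hf
  obtain ⟨h1, h2, h3⟩ := hf
  simp only [Finset.mem_biUnion, Finset.mem_filter, Finset.mem_univ, true_and, not_exists, not_and] at h1 h2 h3
  refine ⟨?_, ?_, ?_⟩
  · intro i
    exact good_deg hn f i (h1 (fun _ => i) (fun a b _ => Subsingleton.elim a b))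
  · intro i j hij
    refine good_codeg hn f i j hij (h2 ![i, j] ?_)
    intro a b hab
    fin_cases a <;> fin_cases b <;> simp_all
  · intro a b c d hab hac had hbc hbd hcd
    have hT : Function.Injective ![a, b, c, d] := by
      intro x y hxy
      fin_cases x <;> fin_cases y <;> simp_all
    exact good_pat hn f a b c d hT (h3 _ hT)

lemma card_AllBad (hn : 1 ≤ n) : ((AllBad n).card : ℝ) ≤
    6 * (n : ℝ) ^ 4 * (2 ^ n.choose 2 * Real.exp (-(rate * (n - 4)))) := by
  classical
  set B : ℝ := 2 ^ n.choose 2 * Real.exp (-(rate * (n - 4))) with hB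
  have hB0 : 0 ≤ B := by positivity
  have hn' : (1 : ℝ) ≤ n := by exact_mod_cast hn
  have key : ∀ (k : ℕ) (hk : k ≤ 4) (σ : Fin k → Bool),
      (((Finset.univ.filter (fun T : Fin k → Fin n => Function.Injective T)).biUnion (Bad σ)).card : ℝ) ≤
        (n : ℝ) ^ 4 * (2 * B) := by
    intro k hk σ
    have h1 : (((Finset.univ.filter (fun T : Fin k → Fin n => Function.Injective T)).biUnion
        (Bad σ)).card : ℝ) ≤ ∑ T ∈ Finset.univ.filter (fun T : Fin k → Fin n => Function.Injective T),
        ((Bad σ T).card : ℝ) := by exact_mod_cast Finset.card_biUnion_le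
    refine h1.trans ?_
    have h2 : ∑ T ∈ Finset.univ.filter (fun T : Fin k → Fin n => Function.Injective T),
        ((Bad σ T).card : ℝ) ≤ ∑ _T ∈ Finset.univ.filter (fun T : Fin k → Fin n => Function.Injective T),
        2 * B := by
      refine Finset.sum_le_sum fun T hT => ?_
      rw [Finset.mem_filter] at hT
      exact card_Bad hk σ T hT.2
    refine h2.trans ?_
    rw [Finset.sum_const, nsmul_eq_mul]
    refine mul_le_mul_of_nonneg_right ?_ (by linarith)
    have h3 : ((Finset.univ.filter (fun T : Fin k → Fin n => Function.Injective T)).card : ℝ) ≤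
        (n : ℝ) ^ k := by
      have : (Finset.univ.filter (fun T : Fin k → Fin n => Function.Injective T)).card ≤ n ^ k := by
        refine (Finset.card_filter_le _ _).trans ?_
        rw [Finset.card_univ, Fintype.card_fun, Fintype.card_fin, Fintype.card_fin]
      exact_mod_cast this
    exact h3.trans (pow_le_pow_right₀ hn' hk)
  have h1 := key 1 (by norm_num) (fun _ => true)
  have h2 := key 2 (by norm_num) (fun _ => true)
  have h3 := key 4 (by norm_num) ![true, true, false, false]
  have h4 : ((AllBad n).card : ℝ) ≤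
      (((Finset.univ.filter (fun T : Fin 1 → Fin n => Function.Injective T)).biUnion (Bad (fun _ => true))).card : ℝ) +
      ((((Finset.univ.filter (fun T : Fin 2 → Fin n => Function.Injective T)).biUnion (Bad (fun _ => true))).card : ℝ) +
      (((Finset.univ.filter (fun T : Fin 4 → Fin n => Function.Injective T)).biUnion
        (Bad ![true, true, false, false])).card : ℝ)) := by
    unfold AllBad
    have := (Finset.card_union_le ((Finset.univ.filter (fun T : Fin 1 → Fin n => Function.Injective T)).biUnion (Bad (fun _ => true)))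
      ((Finset.univ.filter (fun T : Fin 2 → Fin n => Function.Injective T)).biUnion (Bad (fun _ => true)) ∪
      (Finset.univ.filter (fun T : Fin 4 → Fin n => Function.Injective T)).biUnion
      (Bad ![true, true, false, false]))).trans (add_le_add le_rfl (Finset.card_union_le _ _))
    exact_mod_cast this
  nlinarith

/-- from a property of pseudo-random graphs to almost all graphs -/
theorem almost_all (Q : ∀ n : ℕ, SimpleGraph (Fin n) → Prop)
    (hQ : ∀ (n : ℕ) (G : SimpleGraph (Fin n)), 100000000 ≤ n → PR G (1 / 100000000) → Q n G) :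
    Tendsto (fun n : ℕ => (Nat.card {G : SimpleGraph (Fin n) // Q n G} : ℝ) / (2 : ℝ) ^ (n.choose 2))
      atTop (nhds 1) := by
  classical
  have hcardfun : ∀ n : ℕ, Fintype.card (Ed n → Bool) = 2 ^ n.choose 2 := by
    intro n
    rw [Fintype.card_fun, Fintype.card_bool, card_Ed]
  have hup : ∀ n : ℕ, (Nat.card {G : SimpleGraph (Fin n) // Q n G} : ℝ) / (2 : ℝ) ^ (n.choose 2) ≤ 1 := by
    intro n
    rw [div_le_one (by positivity)]
    have h1 : Nat.card {G : SimpleGraph (Fin n) // Q n G} ≤ Nat.card (Ed n → Bool) := by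
      apply Nat.card_le_card_of_injective
        (fun G : {G : SimpleGraph (Fin n) // Q n G} => fun e : Ed n => decide (e.1 ∈ G.1.edgeSet))
      intro G H hGH
      apply Subtype.ext
      ext a b
      by_cases hab : a = b
      · subst hab; simp
      have hd : ¬ (s(a, b)).IsDiag := by rw [Sym2.mk_isDiag_iff]; exact hab
      have h2 := congrFun hGH ⟨s(a, b), hd⟩
      simp only [decide_eq_decide] at h2
      rw [SimpleGraph.mem_edgeSet, SimpleGraph.mem_edgeSet] at h2
      exact h2
    rw [Nat.card_eq_fintype_card (α := Ed n → Bool), hcardfun] at h1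
    exact_mod_cast h1
  have hlow : ∀ n : ℕ, 100000000 ≤ n → 1 - 6 * (n : ℝ) ^ 4 * Real.exp (-(rate * (n - 4))) ≤
      (Nat.card {G : SimpleGraph (Fin n) // Q n G} : ℝ) / (2 : ℝ) ^ (n.choose 2) := by
    intro n hn
    rw [le_div_iff₀ (by positivity)]
    have h1 : Fintype.card {f : Ed n → Bool // f ∉ AllBad n} ≤ Nat.card {G : SimpleGraph (Fin n) // Q n G} := by
      rw [← Nat.card_eq_fintype_card]
      apply Nat.card_le_card_of_injective
        (fun f : {f : Ed n → Bool // f ∉ AllBad n} =>
          (⟨toG f.1, hQ n _ hn (PR_of_good hn f.1 f.2)⟩ : {G : SimpleGraph (Fin n) // Q n G}))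
      intro f g hfg
      apply Subtype.ext
      apply toG_injective
      exact congrArg Subtype.val hfg
    have h2 : Fintype.card {f : Ed n → Bool // f ∉ AllBad n} + (AllBad n).card = 2 ^ n.choose 2 := by
      rw [← hcardfun n, Fintype.card_subtype_compl, Fintype.card_coe]
      have : (AllBad n).card ≤ Fintype.card (Ed n → Bool) := Finset.card_le_univ _
      omega
    have h3 := card_AllBad (n := n) (by omega)
    have h4 : (Fintype.card {f : Ed n → Bool // f ∉ AllBad n} : ℝ) + (AllBad n).card = 2 ^ n.choose 2 := by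
      exact_mod_cast h2
    have h5 : (Fintype.card {f : Ed n → Bool // f ∉ AllBad n} : ℝ) ≤
        Nat.card {G : SimpleGraph (Fin n) // Q n G} := by exact_mod_cast h1
    nlinarith
  have hlim : Tendsto (fun n : ℕ => 1 - 6 * (n : ℝ) ^ 4 * Real.exp (-(rate * (n - 4)))) atTop (nhds 1) := by
    have hr := rate_pos
    have h1 : Tendsto (fun x : ℝ => x ^ 4 * Real.exp (-x)) atTop (nhds 0) :=
      Real.tendsto_pow_mul_exp_neg_atTop_nhds_zero 4
    have h2 : Tendsto (fun n : ℕ => rate * (n : ℝ)) atTop atTop :=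
      tendsto_natCast_atTop_atTop.const_mul_atTop hr
    have h3 := (h1.comp h2).const_mul (6 * Real.exp (rate * 4) / rate ^ 4)
    have h4 : (fun n : ℕ => 6 * (n : ℝ) ^ 4 * Real.exp (-(rate * (n - 4)))) =
        fun n : ℕ => (6 * Real.exp (rate * 4) / rate ^ 4) *
          ((fun x : ℝ => x ^ 4 * Real.exp (-x)) ∘ fun n : ℕ => rate * (n : ℝ)) n := by
      funext n
      simp only [Function.comp]
      have : Real.exp (-(rate * (n - 4))) = Real.exp (rate * 4) * Real.exp (-(rate * n)) := by
        rw [← Real.exp_add]; congr 1; ring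
      rw [this]
      field_simp
    have h5 : Tendsto (fun n : ℕ => 6 * (n : ℝ) ^ 4 * Real.exp (-(rate * (n - 4)))) atTop (nhds 0) := by
      rw [h4]
      simpa using h3
    simpa using h5.const_sub 1
  refine tendsto_of_tendsto_of_tendsto_of_le_of_le' hlim tendsto_const_nhds ?_ ?_
  · filter_upwards [eventually_ge_atTop 100000000] with n hn
    exact hlow n hn
  · exact Eventually.of_forall hup

end Pool.Agent.Helper265.EPR
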