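import Mathlib

set_option autoImplicit false
open Complex Set Filter Metric Topology MeasureTheory
open scoped ENNReal

namespace Pool.Agent.Helper265.Hg

theorem coeff_id {f h : ℂ → ℂ} (hf : AnalyticAt ℂ f 0) (hh : AnalyticAt ℂ h 0) (h0 : h 0 = 0)
    (m : ℕ) (ζ : ℂ) :
    iteratedDeriv m (fun w => f (ζ * h w)) 0 =
      ∑ k ∈ Finset.range (m + 1), (iteratedDeriv k f 0 / (k.factorial : ℂ)) * ζ ^ k *
        iteratedDeriv m (fun w => h w ^ k) 0 := by
  obtain ⟨F, hF, hfF⟩ := hf.exists_eq_sum_add_pow_mul (m + 1)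
  have hFh : AnalyticAt ℂ (fun w => F (ζ * h w)) 0 := by
    have : AnalyticAt ℂ F (ζ * h 0) := by rw [h0, mul_zero]; exact hF
    exact AnalyticAt.fun_comp this (by fun_prop)
  have hR : AnalyticAt ℂ (fun w => (ζ * h w) ^ (m + 1) * F (ζ * h w)) 0 :=
    ((analyticAt_const.mul hh).pow _).mul hFh
  have hterm : ∀ k, AnalyticAt ℂ (fun w => (iteratedDeriv k f 0 / (k.factorial : ℂ)) * ζ ^ k * h w ^ k) 0 := by
    intro k
    fun_prop
  have hS : AnalyticAt ℂ (fun w => ∑ k ∈ Finset.range (m + 1),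
      (iteratedDeriv k f 0 / (k.factorial : ℂ)) * ζ ^ k * h w ^ k) 0 :=
    Finset.analyticAt_fun_sum _ fun k _ => hterm k
  have heq : (fun w => f (ζ * h w)) = fun w => (∑ k ∈ Finset.range (m + 1),
      (iteratedDeriv k f 0 / (k.factorial : ℂ)) * ζ ^ k * h w ^ k) +
        (ζ * h w) ^ (m + 1) * F (ζ * h w) := by
    funext w
    rw [hfF (ζ * h w)]
    congr 1
    apply Finset.sum_congr rfl
    intro k _
    rw [smul_eq_mul, mul_pow]
    ring
  have hR0 : iteratedDeriv m (fun w => (ζ * h w) ^ (m + 1) * F (ζ * h w)) 0 = 0 := by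
    have hord : ((m + 1 : ℕ) : ℕ∞) ≤ analyticOrderAt (fun w => (ζ * h w) ^ (m + 1) * F (ζ * h w)) 0 := by
      have h1 : (1 : ℕ) ≤ analyticOrderAt h 0 := by
        rw [natCast_le_analyticOrderAt_iff_iteratedDeriv_eq_zero hh]
        intro i hi
        interval_cases i
        simp [h0]
      obtain ⟨g, hg, hgh⟩ := (natCast_le_analyticOrderAt hh).1 h1
      rw [natCast_le_analyticOrderAt hR]
      refine ⟨fun w => (ζ * g w) ^ (m + 1) * F (ζ * h w), ((analyticAt_const.mul hg).pow _).mul hFh, ?_⟩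
      filter_upwards [hgh] with w hw
      simp only [sub_zero, pow_one, smul_eq_mul] at hw ⊢
      have : (ζ * h w) ^ (m + 1) = w ^ (m + 1) * (ζ * g w) ^ (m + 1) := by
        rw [hw]; ring
      rw [this]; ring
    exact (natCast_le_analyticOrderAt_iff_iteratedDeriv_eq_zero hR).1 hord m (Nat.lt_succ_self m)
  rw [heq, iteratedDeriv_fun_add hS.contDiffAt hR.contDiffAt, hR0, add_zero,
    iteratedDeriv_fun_sum (fun k _ => (hterm k).contDiffAt)]
  apply Finset.sum_congr rfl
  intro k _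
  rw [iteratedDeriv_const_mul_field]


end Pool.Agent.Helper265.Hg
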