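import Mathlib

set_option autoImplicit false
open Complex Set Filter Metric Topology MeasureTheory
open scoped ENNReal

namespace Pool.Agent.Helper265.Hg

/-- bounded open sets which are strictly star shaped about `0` -/
structure Good (G : Set ℂ) : Prop where
  op : IsOpen G
  sub : G ⊆ ball 0 1
  core : ball (0 : ℂ) (1 / 8) ⊆ G
  star : ∀ z ∈ closure G, ∀ c : ℝ, 0 ≤ c → c < 1 → (c : ℂ) * z ∈ G

noncomputable def rad (n : ℕ) : ℝ := 1 - 1 / ((n : ℝ) + 2)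

/-- uniform polynomial approximation of dilated functions -/
def Approx (G : Set ℂ) (n : ℕ) (C : ℝ) : Prop :=
  ∀ f : ℂ → ℂ, DifferentiableOn ℂ f G → ∀ A : ℝ, 0 ≤ A →
    (∫⁻ z in G, ‖f z‖ₑ) ≤ ENNReal.ofReal A →
    ∃ P : Polynomial ℂ, (∀ z ∈ G, ‖f ((rad n : ℂ) * z) - P.eval z‖ ≤ A / ((n : ℝ) + 1)) ∧
      ∀ z ∈ ball (0 : ℂ) 1, ‖P.eval z‖ ≤ C * A

end Pool.Agent.Helper265.Hg
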