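import Mathlib
import Pool.Agent.Helper265.HgDefs

set_option autoImplicit false
open Complex Set Filter Metric Topology MeasureTheory
open scoped ENNReal

namespace Pool.Agent.Helper265.Hg







theorem j1981_vol (c : Circle) (δ : ℝ) (hδ : 0 < δ) :
    volume {z : ℂ | |((c : ℂ) * z).re| < 1 / 2 ∧ |((c : ℂ) * z).im| < δ} ≤ ENNReal.ofReal (2 * δ) := by
  have h1 : {z : ℂ | |((c : ℂ) * z).re| < 1 / 2 ∧ |((c : ℂ) * z).im| < δ} =
      (rotation c) ⁻¹' {w : ℂ | |w.re| < 1 / 2 ∧ |w.im| < δ} := by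
    ext z
    simp [rotation_apply]
  have h2 : {w : ℂ | |w.re| < 1 / 2 ∧ |w.im| < δ} =
      Complex.measurableEquivRealProd ⁻¹' ((Set.Ioo (-(1 / 2)) (1 / 2)) ×ˢ (Set.Ioo (-δ) δ)) := by
    ext w
    simp [Complex.measurableEquivRealProd, abs_lt]
  rw [h1, (LinearIsometryEquiv.measurePreserving (rotation c)).measure_preimage_emb
    (rotation c).toHomeomorph.measurableEmbedding, h2,
    Complex.volume_preserving_equiv_real_prod.measure_preimage_equiv,
    Measure.volume_eq_prod, Measure.prod_prod, Real.volume_Ioo, Real.volume_Ioo,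
    ← ENNReal.ofReal_mul (by norm_num)]
  apply ENNReal.ofReal_le_ofReal
  linarith

theorem spike {G : Set ℂ} (hG : Good G) {u : ℂ} (hu : ‖u‖ = 1) {ε : ℝ} (hε : 0 < ε) :
    ∃ G' : Set ℂ, Good G' ∧ G ⊆ G' ∧ (∀ t : ℝ, 0 ≤ t → t < 1 / 2 → (t : ℂ) * u ∈ G') ∧
      volume (G' \ G) ≤ ENNReal.ofReal ε := by
  obtain ⟨δ, hδ, hδ4, hδε⟩ : ∃ δ : ℝ, 0 < δ ∧ δ ≤ 1 / 4 ∧ 2 * δ ≤ ε :=
    ⟨min (1 / 4) (ε / 2), lt_min (by norm_num) (by linarith), min_le_left _ _, by
      have := min_le_right (1 / 4 : ℝ) (ε / 2); linarith⟩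
  obtain ⟨v, hv⟩ : ∃ v : ℂ, v = (starRingEnd ℂ) u := ⟨_, rfl⟩
  have hvn : ‖v‖ = 1 := by rw [hv, RCLike.norm_conj, hu]
  have hvu : v * u = 1 := by
    rw [hv, mul_comm, Complex.mul_conj, Complex.normSq_eq_norm_sq, hu]; simp
  obtain ⟨E, hE⟩ : ∃ E : Set ℂ, E = {z : ℂ | |(v * z).re| < 1 / 2 ∧ |(v * z).im| < δ} := ⟨_, rfl⟩
  have hvol : volume E ≤ ENNReal.ofReal (2 * δ) := by
    have := j1981_vol ⟨v, mem_sphere_zero_iff_norm.2 hvn⟩ δ hδ
    rw [hE]
    exact this
  have hcre : Continuous (fun z : ℂ => |(v * z).re|) :=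
    (Complex.continuous_re.comp (continuous_const.mul continuous_id)).abs
  have hcim : Continuous (fun z : ℂ => |(v * z).im|) :=
    (Complex.continuous_im.comp (continuous_const.mul continuous_id)).abs
  have hEo : IsOpen E := by
    rw [hE]
    exact (isOpen_lt hcre continuous_const).inter (isOpen_lt hcim continuous_const)
  have hEcl : closure E ⊆ {z : ℂ | |(v * z).re| ≤ 1 / 2 ∧ |(v * z).im| ≤ δ} := by
    apply closure_minimal
    · rw [hE]; intro z hz; exact ⟨hz.1.le, hz.2.le⟩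
    · exact (isClosed_le hcre continuous_const).inter (isClosed_le hcim continuous_const)
  refine ⟨G ∪ E, ⟨hG.op.union hEo, ?_, hG.core.trans Set.subset_union_left, ?_⟩,
    Set.subset_union_left, ?_, ?_⟩
  · apply Set.union_subset hG.sub
    intro z hz
    rw [hE] at hz
    rw [mem_ball_zero_iff]
    have h1 : ‖z‖ = ‖v * z‖ := by rw [norm_mul, hvn, one_mul]
    have h2 : ‖v * z‖ ^ 2 = (v * z).re ^ 2 + (v * z).im ^ 2 := by
      rw [← Complex.normSq_eq_norm_sq, Complex.normSq_apply]; ring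
    have h3 : (v * z).re ^ 2 ≤ (1 / 2) ^ 2 := by
      rw [← sq_abs]; exact pow_le_pow_left₀ (abs_nonneg _) hz.1.le 2
    have h4 : (v * z).im ^ 2 ≤ (1 / 4) ^ 2 := by
      rw [← sq_abs]; exact pow_le_pow_left₀ (abs_nonneg _) (hz.2.le.trans hδ4) 2
    rw [h1]
    by_contra hcon
    push Not at hcon
    nlinarith
  · intro z hz c hc0 hc1
    rw [closure_union] at hz
    rcases hz with hz | hz
    · exact Or.inl (hG.star z hz c hc0 hc1)
    · right
      obtain ⟨h1, h2⟩ := hEcl hz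
      rw [hE]
      have e1 : v * ((c : ℂ) * z) = (c : ℂ) * (v * z) := by ring
      refine ⟨?_, ?_⟩
      · rw [e1, Complex.re_ofReal_mul, abs_mul, abs_of_nonneg hc0]
        nlinarith [abs_nonneg (v * z).re]
      · rw [e1, Complex.im_ofReal_mul, abs_mul, abs_of_nonneg hc0]
        nlinarith [abs_nonneg (v * z).im]
  · intro t ht0 ht1
    right
    rw [hE]
    have e1 : v * ((t : ℂ) * u) = (t : ℂ) := by
      calc v * ((t : ℂ) * u) = (t : ℂ) * (v * u) := by ring
        _ = t := by rw [hvu, mul_one]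
    refine ⟨?_, ?_⟩
    · rw [e1, Complex.ofReal_re, abs_of_nonneg ht0]; exact ht1
    · rw [e1, Complex.ofReal_im, abs_zero]; exact hδ
  · have hsub : (G ∪ E) \ G ⊆ E := by
      rintro z ⟨h1 | h1, h2⟩
      · exact absurd h1 h2
      · exact h1
    exact (measure_mono hsub).trans (hvol.trans (ENNReal.ofReal_le_ofReal hδε))


end Pool.Agent.Helper265.Hg
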