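import Mathlib
import Pool.Agent.Helper405.Riemann

set_option autoImplicit false
open Complex Set Filter Metric Topology Function

namespace Pool.Agent.Helper265.Osg

open Pool.Agent.Helper405.Riemann

/-- Square root property: zero free continuous functions have continuous square roots. -/
def SR (U : Set ℂ) : Prop :=
  ∀ g : ℂ → ℂ, ContinuousOn g U → (∀ z ∈ U, g z ≠ 0) →
    ∃ h : ℂ → ℂ, ContinuousOn h U ∧ ∀ z ∈ U, h z ^ 2 = g z

theorem sqrt_hasDerivAt' {h k : ℂ → ℂ} {z k' : ℂ} (hc : ContinuousAt h z) (hk : HasDerivAt k k' z)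
    (he : ∀ᶠ x in 𝓝 z, h x ^ 2 = k x) (hz : h z ≠ 0) : HasDerivAt h (k' / (2 * h z)) z := by
  have he0 : h z ^ 2 = k z := he.self_of_nhds
  rw [hasDerivAt_iff_tendsto_slope] at hk ⊢
  have h1 : Tendsto (fun x => h x + h z) (𝓝[≠] z) (𝓝 (2 * h z)) := by
    have : Tendsto (fun x => h x + h z) (𝓝 z) (𝓝 (h z + h z)) := hc.tendsto.add tendsto_const_nhds
    rw [← two_mul] at this
    exact this.mono_left nhdsWithin_le_nhds
  have hne : (2 * h z) ≠ 0 := mul_ne_zero two_ne_zero hz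
  have h2 := hk.div h1 hne
  refine h2.congr' ?_
  have h3 : ∀ᶠ x in 𝓝[≠] z, h x + h z ≠ 0 := h1.eventually_ne hne
  filter_upwards [h3, self_mem_nhdsWithin, nhdsWithin_le_nhds he] with x hx hxz hex
  have hxz' : x - z ≠ 0 := sub_ne_zero.2 hxz
  simp only [slope_def_field, Pi.div_apply]
  rw [← hex, ← he0]
  field_simp
  ring

theorem improve' {U : Set ℂ} (hU : IsOpen U) (hUc : SR U) {a : ℂ} (ha : a ∈ U)
    {φ : ℂ → ℂ} (hφ : Comp U a φ) {c : ℂ} (hc : ‖c‖ < 1) (hcU : ∀ z ∈ U, φ z ≠ c) :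
    ∃ ψ, Comp U a ψ ∧ ‖deriv φ a‖ < ‖deriv ψ a‖ := by
  obtain ⟨h1, h2, h3, h4, h5⟩ := hφ
  have hlt : ∀ z ∈ U, ‖φ z‖ < 1 := fun z hz => by simpa using h2 hz
  obtain ⟨k1, k2, k3, k4, k5⟩ := comp_bl hU hc h1 h2 h3 h4
  have k2' : ∀ z ∈ U, ‖bl c (φ z)‖ < 1 := fun z hz => by simpa using k2 hz
  have k0 : ∀ z ∈ U, bl c (φ z) ≠ 0 := by
    intro z hz h
    exact hcU z hz (bl_eq_zero hc (hlt z hz) h)
  obtain ⟨h, hhc, hh⟩ := hUc (fun z => bl c (φ z)) k1.continuousOn k0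
  have hne : ∀ z ∈ U, h z ≠ 0 := by
    intro z hz h0
    have := hh z hz
    rw [h0] at this
    exact k0 z hz (by rw [← this]; simp)
  have hder : ∀ z ∈ U, HasDerivAt h (deriv (fun z => bl c (φ z)) z / (2 * h z)) z := by
    intro z hz
    exact sqrt_hasDerivAt' (hhc.continuousAt (hU.mem_nhds hz))
      (k1.differentiableAt (hU.mem_nhds hz)).hasDerivAt
      (by filter_upwards [hU.mem_nhds hz] with x hx using hh x hx) (hne z hz)
  have hnorm : ∀ z ∈ U, ‖h z‖ ^ 2 = ‖bl c (φ z)‖ := fun z hz => by rw [← norm_pow, hh z hz]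
  have hlt' : ∀ z ∈ U, ‖h z‖ < 1 := by
    intro z hz
    have e1 := hnorm z hz
    have e2 := k2' z hz
    by_contra hcon
    push Not at hcon
    nlinarith [norm_nonneg (h z)]
  have hda : ‖h a‖ < 1 := hlt' a ha
  obtain ⟨m1, m2, m3, m4, m5⟩ := comp_bl (φ := h) hU hda
    (fun z hz => (hder z hz).differentiableAt.differentiableWithinAt)
    (fun z hz => by simpa using hlt' z hz)
    (fun z hz w hw hzw => by
      apply k3 hz hw
      show bl c (φ z) = bl c (φ w)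
      rw [← hh z hz, ← hh w hw, hzw])
    (fun z hz => by
      rw [(hder z hz).deriv]
      exact div_ne_zero (k4 z hz) (mul_ne_zero two_ne_zero (hne z hz)))
  refine ⟨fun z => bl (h a) (h z), ⟨m1, m2, m3, m4, bl_self _⟩, ?_⟩
  rw [(m5 a ha).deriv, (hder a ha).deriv, (k5 a ha).deriv, h5]
  have ec : ‖h a‖ ^ 2 = ‖c‖ := by
    rw [hnorm a ha, h5, bl_zero, norm_neg]
  have hc0 : c ≠ 0 := by
    intro h0
    exact hcU a ha (by rw [h5, h0])
  have ht0 : 0 < ‖h a‖ := norm_pos_iff.2 (hne a ha)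
  set t := ‖h a‖ with ht
  have e1 : ‖(1 : ℂ) - (starRingEnd ℂ) (h a) * h a‖ = 1 - t ^ 2 := by
    have : (1 : ℂ) - (starRingEnd ℂ) (h a) * h a = ((1 - t ^ 2 : ℝ) : ℂ) := by
      rw [mul_comm, Complex.mul_conj, Complex.normSq_eq_norm_sq]
      push_cast
      rfl
    rw [this, Complex.norm_real, Real.norm_of_nonneg]
    nlinarith
  have e2 : ‖(1 : ℂ) - (starRingEnd ℂ) c * c‖ = 1 - t ^ 4 := by
    have : (1 : ℂ) - (starRingEnd ℂ) c * c = ((1 - t ^ 4 : ℝ) : ℂ) := by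
      rw [mul_comm, Complex.mul_conj, Complex.normSq_eq_norm_sq, ← ec]
      push_cast
      ring
    rw [this, Complex.norm_real, Real.norm_of_nonneg]
    have : t ^ 2 < 1 := by nlinarith
    nlinarith [sq_nonneg t]
  have hφ0 : 0 < ‖deriv φ a‖ := norm_pos_iff.2 (h4 a ha)
  rw [norm_mul, norm_div, norm_pow, norm_div, norm_mul, norm_div, norm_pow, e1, norm_mul, e2]
  have e3 : ‖(1 : ℂ) - (starRingEnd ℂ) c * 0‖ = 1 := by simp
  have e4 : ‖(2 : ℂ)‖ = 2 := by simp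
  rw [e3, e4]
  have ht1 : 0 < 1 - t ^ 2 := by nlinarith
  have e5 : (1 - t ^ 2) / (1 - t ^ 2) ^ 2 * ((1 - t ^ 4) / 1 ^ 2 * ‖deriv φ a‖ / (2 * t))
      = ‖deriv φ a‖ * ((1 + t ^ 2) / (2 * t)) := by
    field_simp
    ring
  rw [e5]
  have e6 : 1 < (1 + t ^ 2) / (2 * t) := by
    rw [lt_div_iff₀ (by positivity)]
    nlinarith [sq_nonneg (1 - t)]
  nlinarith

/-- Riemann mapping theorem for domains inside the unit disc with the square root property. -/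
theorem riemannSR {U : Set ℂ} (hU : IsOpen U) (hUc : SR U) (hUp : IsPreconnected U)
    (hsub : U ⊆ ball 0 1) (h0 : (0 : ℂ) ∈ U) :
    ∃ φ : ℂ → ℂ, DifferentiableOn ℂ φ U ∧ BijOn φ U (ball 0 1) ∧ (∀ z ∈ U, deriv φ z ≠ 0) ∧
      φ 0 = 0 := by
  have hk : Comp U 0 (fun z => z) := by
    refine ⟨differentiableOn_id, fun z hz => hsub hz, fun z _ w _ h => h, fun z _ => ?_, rfl⟩
    simp
  set S : Set ℝ := {x | ∃ φ, Comp U 0 φ ∧ ‖deriv φ 0‖ = x} with hS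
  have hSne : S.Nonempty := ⟨_, _, hk, rfl⟩
  obtain ⟨R, hR, hRU⟩ := Metric.isOpen_iff.1 hU 0 h0
  have hSb : BddAbove S := by
    refine ⟨1 / R, ?_⟩
    rintro x ⟨φ, hφ, rfl⟩
    apply Complex.norm_deriv_le_div_of_mapsTo_ball (hφ.1.mono hRU) _ hR
    intro z hz
    rw [hφ.2.2.2.2]
    exact ball_subset_closedBall (hφ.2.1 (hRU hz))
  obtain ⟨u, hu1, hu2, hu3⟩ := exists_seq_tendsto_sSup hSne hSb
  choose F hF hFu using hu3
  have hMpos : 0 < sSup S := by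
    refine lt_of_lt_of_le ?_ (le_csSup hSb ⟨_, hk, rfl⟩)
    exact norm_pos_iff.2 (by simp)
  obtain ⟨f, hf, hfM⟩ := limit_comp hU hUp h0 hF hMpos (by simpa only [hFu] using hu2)
  refine ⟨f, hf.1, ⟨hf.2.1, hf.2.2.1, ?_⟩, hf.2.2.2.1, hf.2.2.2.2⟩
  intro c hc
  by_contra hcon
  obtain ⟨ψ, hψ, hlt'⟩ := improve' hU hUc h0 hf (by simpa using hc) (c := c)
    (fun z hz h => hcon ⟨z, hz, h⟩)
  have : ‖deriv ψ 0‖ ≤ sSup S := le_csSup hSb ⟨ψ, hψ, rfl⟩
  linarith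

/-- A pair of mutually inverse conformal maps between `U` and the disc, fixing `0`. -/
structure RM (U : Set ℂ) (g φ : ℂ → ℂ) : Prop where
  dg : DifferentiableOn ℂ g (ball 0 1)
  mg : MapsTo g (ball 0 1) U
  g0 : g 0 = 0
  dφ : DifferentiableOn ℂ φ U
  mφ : MapsTo φ U (ball 0 1)
  gφ : ∀ z ∈ U, g (φ z) = z
  φg : ∀ z ∈ ball (0 : ℂ) 1, φ (g z) = z

theorem RM.φ0 {U : Set ℂ} {g φ : ℂ → ℂ} (h : RM U g φ) : φ 0 = 0 := by
  have := h.φg 0 (by simp)
  rwa [h.g0] at this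

theorem RM.inj {U : Set ℂ} {g φ : ℂ → ℂ} (h : RM U g φ) : InjOn g (ball 0 1) := by
  intro z hz w hw hzw
  rw [← h.φg z hz, ← h.φg w hw, hzw]

theorem exists_RM {U : Set ℂ} (hU : IsOpen U) (hUc : SR U) (hUp : IsPreconnected U)
    (hsub : U ⊆ ball 0 1) (h0 : (0 : ℂ) ∈ U) : ∃ g φ : ℂ → ℂ, RM U g φ := by
  obtain ⟨φ, h1, h2, h3, h4⟩ := riemannSR hU hUc hUp hsub h0
  have hleft : ∀ z ∈ U, Function.invFunOn φ U (φ z) = z := fun z hz =>
    h2.injOn.leftInvOn_invFunOn hz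
  have hright : ∀ z ∈ ball (0 : ℂ) 1, φ (Function.invFunOn φ U z) = z := by
    intro z hz
    obtain ⟨w, hw, rfl⟩ := h2.surjOn hz
    rw [hleft w hw]
  have hder : ∀ w ∈ U, HasStrictDerivAt (Function.invFunOn φ U) (deriv φ w)⁻¹ (φ w) := by
    intro w hw
    have hs : HasStrictDerivAt φ (deriv φ w) w :=
      ((h1.analyticAt (hU.mem_nhds hw)).hasStrictDerivAt)
    apply hs.to_local_left_inverse (h3 w hw)
    filter_upwards [hU.mem_nhds hw] with x hx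
    exact hleft x hx
  refine ⟨Function.invFunOn φ U, φ, ?_, ?_, ?_, h1, h2.mapsTo, hleft, hright⟩
  · intro z hz
    obtain ⟨w, hw, rfl⟩ := h2.surjOn hz
    exact (hder w hw).hasDerivAt.differentiableAt.differentiableWithinAt
  · intro z hz
    obtain ⟨w, hw, rfl⟩ := h2.surjOn hz
    rw [hleft w hw]; exact hw
  · have := hleft 0 h0
    rwa [h4] at this

end Pool.Agent.Helper265.Osg
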