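import Mathlib
import Pool.Agent.Helper265.OsgRMT

set_option autoImplicit false
open Complex Set Filter Metric Topology Function

namespace Pool.Agent.Helper265.Osg

theorem SR_of_simply {U : Set ℂ} (hU : IsOpen U) (hUc : IsSimplyConnected U) : SR U := by
  intro g hg hg0
  obtain ⟨f, hf, hf2⟩ := exists_continuousOn_pow_eq hUc hU hg
    (by rintro ⟨z, hz, h0⟩; exact hg0 z hz h0) two_ne_zero
  exact ⟨f, hf, fun z _ => hf2 z⟩

theorem SR_star {U : Set ℂ} {x : ℂ} (hU : IsOpen U) (hs : StarConvex ℝ x U) (hne : U.Nonempty) :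
    SR U := by
  apply SR_of_simply hU
  have := hs.contractibleSpace hne
  show SimplyConnectedSpace U
  infer_instance

theorem SR_log {V K : Set ℂ} (hK : IsOpen K) (hKc : Convex ℝ K) (hne : K.Nonempty)
    (hV : V ⊆ slitPlane) (h1 : ∀ u ∈ V, log u ∈ K) (h2 : ∀ ζ ∈ K, exp ζ ∈ V) : SR V := by
  intro g hg hg0
  have hKs : IsSimplyConnected K := by
    have := hKc.contractibleSpace hne
    show SimplyConnectedSpace K
    infer_instance
  obtain ⟨f, hf, hf2⟩ := exists_continuousOn_pow_eq hKs hK (g := fun ζ => g (exp ζ))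
    (hg.comp continuous_exp.continuousOn h2)
    (by rintro ⟨z, hz, h0⟩; exact hg0 _ (h2 z hz) h0) two_ne_zero
  refine ⟨fun u => f (log u), ?_, fun u hu => ?_⟩
  · apply hf.comp _ h1
    intro u hu
    exact (continuousAt_clog (hV hu)).continuousWithinAt
  · show f (log u) ^ 2 = g u
    rw [hf2, exp_log (slitPlane_ne_zero (hV hu))]

theorem SR_empty : SR ∅ := fun _ _ _ => ⟨fun _ => 0, continuousOn_empty _, fun _ h => absurd h (by simp)⟩

theorem SR_union {U V : Set ℂ} (hU : IsOpen U) (hV : IsOpen V) (h1 : SR U) (h2 : SR V)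
    (hc : IsPreconnected (U ∩ V)) : SR (U ∪ V) := by
  classical
  intro g hg hg0
  obtain ⟨f1, hf1, e1⟩ := h1 g (hg.mono subset_union_left) (fun z hz => hg0 z (Or.inl hz))
  obtain ⟨f2, hf2, e2⟩ := h2 g (hg.mono subset_union_right) (fun z hz => hg0 z (Or.inr hz))
  have hn1 : ∀ z ∈ U, f1 z ≠ 0 := fun z hz h => hg0 z (Or.inl hz) (by rw [← e1 z hz, h]; simp)
  have hn2 : ∀ z ∈ V, f2 z ≠ 0 := fun z hz h => hg0 z (Or.inr hz) (by rw [← e2 z hz, h]; simp)
  -- find the sign
  obtain ⟨c, hc1, hc2⟩ : ∃ c : ℂ, c ^ 2 = 1 ∧ ∀ z ∈ U ∩ V, f1 z = c * f2 z := by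
    have hsq : EqOn (f1 ^ 2) (f2 ^ 2) (U ∩ V) := by
      intro z hz
      simp only [Pi.pow_apply]
      rw [e1 z hz.1, e2 z hz.2]
    rcases hc.eq_or_eq_neg_of_sq_eq (hf1.mono inter_subset_left) (hf2.mono inter_subset_right) hsq
      (fun {z} hz => hn2 z hz.2) with h | h
    · exact ⟨1, by simp, fun z hz => by rw [h hz, one_mul]⟩
    · exact ⟨-1, by simp, fun z hz => by rw [h hz]; simp⟩
  refine ⟨fun z => if z ∈ U then f1 z else c * f2 z, ?_, ?_⟩
  · intro z hz
    rcases hz with hz | hz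
    · apply ContinuousAt.continuousWithinAt
      have : ContinuousAt f1 z := hf1.continuousAt (hU.mem_nhds hz)
      refine this.congr ?_
      filter_upwards [hU.mem_nhds hz] with x hx
      rw [if_pos hx]
    · apply ContinuousAt.continuousWithinAt
      have : ContinuousAt (fun x => c * f2 x) z := (hf2.continuousAt (hV.mem_nhds hz)).const_mul c
      refine this.congr ?_
      filter_upwards [hV.mem_nhds hz] with x hx
      by_cases hxU : x ∈ U
      · rw [if_pos hxU, hc2 x ⟨hxU, hx⟩]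
      · rw [if_neg hxU]
  · intro z hz
    by_cases hzU : z ∈ U
    · simp only [if_pos hzU]; exact e1 z hzU
    · simp only [if_neg hzU]
      have hzV : z ∈ V := hz.resolve_left hzU
      rw [mul_pow, hc1, one_mul, e2 z hzV]

theorem SR_finset {ι : Type*} (A : Set ℂ) (P : ι → Set ℂ) (hA : IsOpen A) (hP : ∀ i, IsOpen (P i))
    (hAS : SR A) (hPS : ∀ i, SR (P i)) (hd : ∀ i j, i ≠ j → Disjoint (P i) (P j))
    (hc : ∀ i, IsPreconnected (A ∩ P i)) (S : Finset ι) :
    IsOpen (A ∪ ⋃ i ∈ S, P i) ∧ SR (A ∪ ⋃ i ∈ S, P i) := by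
  classical
  induction S using Finset.induction_on with
  | empty => simpa using ⟨hA, hAS⟩
  | insert i S hi ih =>
    have heq : A ∪ ⋃ j ∈ insert i S, P j = (A ∪ ⋃ j ∈ S, P j) ∪ P i := by
      rw [Finset.set_biUnion_insert]
      rw [union_comm (P i), union_assoc]
    rw [heq]
    refine ⟨ih.1.union (hP i), SR_union ih.1 (hP i) ih.2 (hPS i) ?_⟩
    have h2 : (A ∪ ⋃ j ∈ S, P j) ∩ P i = A ∩ P i := by
      ext z
      constructor
      · rintro ⟨h | h, hz⟩
        · exact ⟨h, hz⟩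
        · rw [mem_iUnion₂] at h
          obtain ⟨j, hj, hzj⟩ := h
          exact absurd hz (Set.disjoint_left.1 (hd j i (by rintro rfl; exact hi hj)) hzj)
      · rintro ⟨h, hz⟩
        exact ⟨Or.inl h, hz⟩
    rw [h2]
    exact hc i

end Pool.Agent.Helper265.Osg
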