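import Mathlib
import Pool.Agent.Helper265.OsgSR

set_option autoImplicit false
open Complex Set Filter Metric Topology MeasureTheory
open scoped ENNReal

namespace Pool.Agent.Helper265.Hg

open Pool.Agent.Helper265.Osg

/-- the disc can be mapped conformally into a thin neighbourhood of `[0, 1]` -/
theorem exists_h {η : ℝ} (hη : 0 < η) : ∃ (h : ℂ → ℂ) (τ : ℂ), DifferentiableOn ℂ h (ball 0 1) ∧
    h 0 = 0 ∧ ‖τ‖ < 1 ∧ h τ = 1 ∧ ∀ w ∈ ball (0 : ℂ) 1, ∃ t : ℝ, 0 ≤ t ∧ t ≤ 1 ∧ ‖h w - t‖ < η := by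
  set δ : ℝ := min η (1 / 2) with hδ
  have hδ0 : 0 < δ := lt_min hη (by norm_num)
  have hδ1 : δ ≤ 1 / 2 := min_le_right _ _
  have hδη : δ ≤ η := min_le_left _ _
  set U : Set ℂ := {c : ℂ | ∃ t : ℝ, 0 ≤ t ∧ t ≤ 1 ∧ ‖2 * c - t‖ < δ} with hU
  have hUo : IsOpen U := by
    have : U = ⋃ t ∈ Icc (0 : ℝ) 1, {c : ℂ | ‖2 * c - t‖ < δ} := by
      ext c
      simp [hU, and_assoc]
    rw [this]
    refine isOpen_biUnion fun t _ => ?_
    exact isOpen_lt (by fun_prop) continuous_const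
  have hconv : Convex ℝ U := by
    rintro x ⟨t, ht0, ht1, hx⟩ y ⟨s, hs0, hs1, hy⟩ a b ha hb hab
    refine ⟨a * t + b * s, by positivity, by nlinarith, ?_⟩
    have e : (2 : ℂ) * (a • x + b • y) - ((a * t + b * s : ℝ) : ℂ)
        = (a : ℂ) * (2 * x - t) + (b : ℂ) * (2 * y - s) := by
      simp only [real_smul]
      push_cast
      ring
    rw [e]
    have h1 : ‖(a : ℂ) * (2 * x - t)‖ ≤ a * ‖2 * x - (t : ℂ)‖ := by
      rw [norm_mul, norm_real, Real.norm_of_nonneg ha]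
    have h2 : ‖(b : ℂ) * (2 * y - s)‖ ≤ b * ‖2 * y - (s : ℂ)‖ := by
      rw [norm_mul, norm_real, Real.norm_of_nonneg hb]
    have h3 := norm_add_le ((a : ℂ) * (2 * x - t)) ((b : ℂ) * (2 * y - s))
    rcases eq_or_lt_of_le ha with ha' | ha'
    · have hb1 : b = 1 := by linarith
      subst hb1
      rw [← ha'] at h1 h3 ⊢
      linarith
    · nlinarith
  have h0 : (0 : ℂ) ∈ U := ⟨0, le_rfl, by norm_num, by simpa using hδ0⟩
  have hhalf : (1 / 2 : ℂ) ∈ U := ⟨1, by norm_num, le_rfl, by simpa using hδ0⟩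
  have hsub : U ⊆ ball 0 1 := by
    rintro c ⟨t, ht0, ht1, hc⟩
    rw [mem_ball_zero_iff]
    have h1 : ‖(2 : ℂ) * c‖ ≤ ‖2 * c - (t : ℂ)‖ + ‖(t : ℂ)‖ := by
      simpa using norm_add_le (2 * c - (t : ℂ)) (t : ℂ)
    rw [norm_mul, norm_real, Real.norm_of_nonneg ht0] at h1
    have : ‖(2 : ℂ)‖ = 2 := by simp
    rw [this] at h1
    linarith
  obtain ⟨g, φ, hRM⟩ := exists_RM hUo
    (SR_star hUo (hconv.starConvex h0) ⟨0, h0⟩) hconv.isPreconnected hsub h0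
  refine ⟨fun w => 2 * g w, φ (1 / 2), ?_, ?_, ?_, ?_, ?_⟩
  · exact hRM.dg.const_mul 2
  · simp [hRM.g0]
  · simpa using hRM.mφ hhalf
  · show 2 * g (φ (1 / 2)) = 1
    rw [hRM.gφ _ hhalf]
    norm_num
  · intro w hw
    obtain ⟨t, ht0, ht1, hc⟩ := hRM.mg hw
    exact ⟨t, ht0, ht1, lt_of_lt_of_le hc hδη⟩

end Pool.Agent.Helper265.Hg
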