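import Mathlib
import Pool.Agent.Helper265.HgDefs
import Pool.Agent.Helper265.HgC
import Pool.Agent.Helper265.HgH

set_option autoImplicit false
open Complex Set Filter Metric Topology MeasureTheory
open scoped ENNReal

namespace Pool.Agent.Helper265.Hg











/-- the target -/
theorem star_op {G : Set ℂ} (hG : Good G) {r : ℝ} (hr0 : 0 < r) (hr1 : r < 1) :
    ∃ K ⊆ G, IsCompact K ∧ ∀ ε : ℝ, 0 < ε → ∃ C : ℝ, 0 ≤ C ∧ ∀ f : ℂ → ℂ, DifferentiableOn ℂ f G →
      ∀ M : ℝ, (∀ z ∈ K, ‖f z‖ ≤ M) →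
      ∃ P : Polynomial ℂ, (∀ z ∈ G, ‖f ((r : ℂ) * z) - P.eval z‖ ≤ ε * M) ∧
        ∀ z ∈ ball (0 : ℂ) 1, ‖P.eval z‖ ≤ C * M := by

  -- Step 1
  have hLb : ∀ z ∈ closure G, ‖z‖ ≤ 1 := by
    intro z hz
    have h1 : closure G ⊆ closedBall (0 : ℂ) 1 :=
      (closure_mono hG.sub).trans closure_ball_subset_closedBall
    simpa using h1 hz
  have hLc : IsCompact (closure G) := by
    apply Metric.isCompact_of_isClosed_isBounded isClosed_closure
    exact (isBounded_closedBall (x := (0 : ℂ)) (r := 1)).subset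
      (fun z hz => by simpa using hLb z hz)
  set Q : Set ℂ := (fun p : ℂ × ℝ => ((r * p.2 : ℝ) : ℂ) * p.1) '' (closure G ×ˢ Icc (0 : ℝ) 1)
    with hQ
  have hQc : IsCompact Q := by
    apply (hLc.prod isCompact_Icc).image
    fun_prop
  have hQG : Q ⊆ G := by
    rintro _ ⟨⟨z, t⟩, ⟨hz, ht⟩, rfl⟩
    have ht0 : 0 ≤ t := ht.1
    have ht1 : t ≤ 1 := ht.2
    exact hG.star z hz (r * t) (by positivity) (by nlinarith)
  obtain ⟨δ, hδ, hδG⟩ := hQc.exists_cthickening_subset_open hG.op hQG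
  have hcoreK : closedBall (0 : ℂ) (1 / 16) ⊆ G :=
    (closedBall_subset_ball (by norm_num)).trans hG.core
  have hKG : cthickening δ Q ∪ closedBall (0 : ℂ) (1 / 16) ⊆ G := union_subset hδG hcoreK
  have hkey : ∀ z ∈ closure G, ∀ t : ℝ, 0 ≤ t → t ≤ 1 → ∀ c : ℂ, ‖c - t‖ < δ →
      ((r : ℂ) * z) * c ∈ cthickening δ Q := by
    intro z hz t ht0 ht1 c hc
    refine mem_cthickening_of_dist_le (((r : ℂ) * z) * c) (((r * t : ℝ) : ℂ) * z) δ Q
      ⟨(z, t), ⟨hz, ht0, ht1⟩, rfl⟩ ?_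
    rw [dist_eq_norm]
    have e : ((r : ℂ) * z) * c - ((r * t : ℝ) : ℂ) * z = (r : ℂ) * z * (c - t) := by
      push_cast; ring
    rw [e, norm_mul, norm_mul, Complex.norm_real, Real.norm_eq_abs, abs_of_pos hr0]
    have h1 := hLb z hz
    have h2 : r * ‖z‖ ≤ 1 := by
      have := norm_nonneg z
      nlinarith
    have h3 := norm_nonneg (c - t)
    nlinarith
  refine ⟨cthickening δ Q ∪ closedBall (0 : ℂ) (1 / 16), hKG,
    hQc.cthickening.union (isCompact_closedBall _ _), ?_⟩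
  intro ε hε
  -- Step 2
  obtain ⟨h, τ, hdiff, h0, hτ, hτ1, hval⟩ := exists_h hδ
  obtain ⟨s, hs1, hs2⟩ := exists_between hτ
  have hs0 : 0 < s := lt_of_le_of_lt (norm_nonneg τ) hs1
  set q : ℝ := ‖τ‖ / s with hq
  have hq0 : 0 ≤ q := by positivity
  have hq1 : q < 1 := by rw [hq, div_lt_one hs0]; exact hs1
  obtain ⟨N, hN⟩ : ∃ N : ℕ, q ^ N < ε * (1 - q) :=
    exists_pow_lt_of_lt_one (mul_pos hε (by linarith)) hq1
  have hN' : q ^ N * (1 - q)⁻¹ ≤ ε := by
    rw [← div_eq_mul_inv, div_le_iff₀ (by linarith)]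
    exact hN.le
  refine ⟨∑ m ∈ Finset.range N, ∑ k ∈ Finset.range (m + 1),
    ‖((m.factorial : ℂ))⁻¹ * τ ^ m * iteratedDeriv m (fun w => h w ^ k) 0‖ * 16 ^ k,
    Finset.sum_nonneg (fun m _ => Finset.sum_nonneg (fun k _ => by positivity)), ?_⟩
  intro f hf M hM
  have hM0 : 0 ≤ M := by
    have : (0 : ℂ) ∈ cthickening δ Q ∪ closedBall (0 : ℂ) (1 / 16) := by
      right; simp
    exact (norm_nonneg _).trans (hM 0 this)
  have hG0 : (0 : ℂ) ∈ G := hG.core (by simp)
  have hfan : AnalyticAt ℂ f 0 := hf.analyticAt (hG.op.mem_nhds hG0)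
  have hhan : AnalyticAt ℂ h 0 := hdiff.analyticAt (ball_mem_nhds 0 one_pos)
  -- the functions F_z
  have hmem : ∀ z ∈ closure G, ∀ w ∈ ball (0 : ℂ) 1,
      ((r : ℂ) * z) * h w ∈ cthickening δ Q ∪ closedBall (0 : ℂ) (1 / 16) := by
    intro z hz w hw
    obtain ⟨t, ht0, ht1, ht⟩ := hval w hw
    exact Or.inl (hkey z hz t ht0 ht1 (h w) ht)
  have hFd : ∀ z ∈ closure G, DifferentiableOn ℂ (fun w => f (((r : ℂ) * z) * h w)) (ball 0 1) := by
    intro z hz
    have h1 : DifferentiableOn ℂ (fun w => ((r : ℂ) * z) * h w) (ball 0 1) :=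
      hdiff.const_mul _
    exact hf.comp h1 (fun w hw => hKG (hmem z hz w hw))
  have hFb : ∀ z ∈ closure G, ∀ w ∈ ball (0 : ℂ) 1, ‖f (((r : ℂ) * z) * h w)‖ ≤ M :=
    fun z hz w hw => hM _ (hmem z hz w hw)
  -- Step 3
  have hcoef : ∀ z ∈ closure G, ∀ m : ℕ,
      ‖((m.factorial : ℂ))⁻¹ • (τ - 0) ^ m • iteratedDeriv m (fun w => f (((r : ℂ) * z) * h w)) 0‖ ≤
        M * q ^ m := by
    intro z hz m
    have hcl : closedBall (0 : ℂ) s ⊆ ball 0 1 := closedBall_subset_ball hs2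
    have h1 := norm_iteratedDeriv_le_of_forall_mem_sphere_norm_le (c := 0) (R := s) (C := M)
      (f := fun w => f (((r : ℂ) * z) * h w)) m hs0
      (((hFd z hz).mono hcl).diffContOnCl_ball (fun x hx => hx))
      (fun w hw => hFb z hz w (hcl (sphere_subset_closedBall hw)))
    have hmf : (0 : ℝ) < (m.factorial : ℝ) := by exact_mod_cast Nat.factorial_pos m
    rw [sub_zero, smul_eq_mul, smul_eq_mul, norm_mul, norm_mul, norm_inv, norm_pow,
      Complex.norm_natCast]
    calc ((m.factorial : ℝ))⁻¹ * (‖τ‖ ^ m *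
          ‖iteratedDeriv m (fun w => f (((r : ℂ) * z) * h w)) 0‖)
        ≤ ((m.factorial : ℝ))⁻¹ * (‖τ‖ ^ m * (m.factorial * M / s ^ m)) := by
          gcongr
      _ = M * q ^ m := by
          rw [hq, div_pow]
          field_simp
  have happ : ∀ z ∈ closure G,
      ‖f ((r : ℂ) * z) - ∑ m ∈ Finset.range N, ((m.factorial : ℂ))⁻¹ • (τ - 0) ^ m •
        iteratedDeriv m (fun w => f (((r : ℂ) * z) * h w)) 0‖ ≤ ε * M := by
    intro z hz
    have hτb : τ ∈ ball (0 : ℂ) 1 := by simpa using hτ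
    have hsum := hasSum_taylorSeries_on_ball (hFd z hz) hτb
    simp only [hτ1, mul_one] at hsum
    have hs' := (hasSum_nat_add_iff' N).2 hsum
    rw [← hs'.tsum_eq]
    have hgeo : HasSum (fun m : ℕ => M * q ^ (m + N)) (M * (q ^ N * (1 - q)⁻¹)) := by
      have := (hasSum_geometric_of_lt_one hq0 hq1).mul_left (M * q ^ N)
      have e1 : (fun m : ℕ => M * q ^ (m + N)) = fun i => M * q ^ N * q ^ i := by
        ext m; rw [pow_add]; ring
      have e2 : M * (q ^ N * (1 - q)⁻¹) = M * q ^ N * (1 - q)⁻¹ := by ring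
      rw [e1, e2]
      exact this
    have := tsum_of_norm_bounded hgeo (fun m => hcoef z hz (m + N))
    refine this.trans ?_
    rw [mul_comm ε M]
    exact mul_le_mul_of_nonneg_left hN' hM0
  -- Step 4, 5
  refine ⟨∑ m ∈ Finset.range N, ∑ k ∈ Finset.range (m + 1),
    Polynomial.C (((m.factorial : ℂ))⁻¹ * τ ^ m * (iteratedDeriv k f 0 / (k.factorial : ℂ)) *
      (r : ℂ) ^ k * iteratedDeriv m (fun w => h w ^ k) 0) * Polynomial.X ^ k, ?_, ?_⟩
  · intro z hz
    have hz' : z ∈ closure G := subset_closure hz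
    convert happ z hz' using 3
    rw [Polynomial.eval_finsetSum]
    apply Finset.sum_congr rfl
    intro m _
    rw [Polynomial.eval_finsetSum, coeff_id hfan hhan h0, sub_zero, smul_eq_mul, smul_eq_mul,
      Finset.mul_sum, Finset.mul_sum]
    apply Finset.sum_congr rfl
    intro k _
    simp only [Polynomial.eval_mul, Polynomial.eval_C, Polynomial.eval_pow, Polynomial.eval_X]
    rw [mul_pow]
    ring
  · intro z hz
    have hz1 : ‖z‖ ≤ 1 := by
      have : ‖z‖ < 1 := by simpa using hz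
      exact this.le
    have hak : ∀ k : ℕ, ‖iteratedDeriv k f 0 / (k.factorial : ℂ)‖ ≤ M * 16 ^ k := by
      intro k
      have hkf : (0 : ℝ) < (k.factorial : ℝ) := by exact_mod_cast Nat.factorial_pos k
      have h1 := norm_iteratedDeriv_le_of_forall_mem_sphere_norm_le (c := 0) (R := 1 / 16) (C := M)
        (f := f) k (by norm_num)
        ((hf.mono hcoreK).diffContOnCl_ball (fun x hx => hx))
        (fun w hw => hM w (Or.inr (sphere_subset_closedBall hw)))
      rw [norm_div, Complex.norm_natCast, div_le_iff₀ hkf]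
      refine h1.trans (le_of_eq ?_)
      rw [one_div, inv_pow, div_inv_eq_mul]
      ring
    rw [Polynomial.eval_finsetSum, Finset.sum_mul]
    refine (norm_sum_le _ _).trans (Finset.sum_le_sum ?_)
    intro m _
    rw [Polynomial.eval_finsetSum, Finset.sum_mul]
    refine (norm_sum_le _ _).trans (Finset.sum_le_sum ?_)
    intro k _
    simp only [Polynomial.eval_mul, Polynomial.eval_C, Polynomial.eval_pow, Polynomial.eval_X]
    have e : ((m.factorial : ℂ))⁻¹ * τ ^ m * (iteratedDeriv k f 0 / (k.factorial : ℂ)) *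
      (r : ℂ) ^ k * iteratedDeriv m (fun w => h w ^ k) 0 * z ^ k =
      (((m.factorial : ℂ))⁻¹ * τ ^ m * iteratedDeriv m (fun w => h w ^ k) 0) *
        (iteratedDeriv k f 0 / (k.factorial : ℂ)) * ((r : ℂ) * z) ^ k := by
      rw [mul_pow]; ring
    rw [e, norm_mul, norm_mul]
    have h3 : ‖((r : ℂ) * z) ^ k‖ ≤ 1 := by
      rw [norm_pow, norm_mul, Complex.norm_real, Real.norm_eq_abs, abs_of_pos hr0]
      apply pow_le_one₀ (by positivity)
      have := norm_nonneg z
      nlinarith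
    calc ‖((m.factorial : ℂ))⁻¹ * τ ^ m * iteratedDeriv m (fun w => h w ^ k) 0‖ *
          ‖iteratedDeriv k f 0 / (k.factorial : ℂ)‖ * ‖((r : ℂ) * z) ^ k‖
        ≤ ‖((m.factorial : ℂ))⁻¹ * τ ^ m * iteratedDeriv m (fun w => h w ^ k) 0‖ *
          (M * 16 ^ k) * 1 := by
          gcongr
          exact hak k
      _ = _ := by ring


end Pool.Agent.Helper265.Hg
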