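import Mathlib
import Pool.Agent.Helper265.HgDefs

set_option autoImplicit false
open Complex Set Filter Metric Topology MeasureTheory
open scoped ENNReal

namespace Pool.Agent.Helper265.Hg







theorem good0 : Good (ball (0 : ℂ) (1 / 8)) where
  op := isOpen_ball
  sub := ball_subset_ball (by norm_num)
  core := subset_refl _
  star := by
    intro z hz c hc0 hc1
    have h1 := closure_ball_subset_closedBall hz
    rw [mem_closedBall_zero_iff] at h1
    rw [mem_ball_zero_iff, norm_mul, Complex.norm_real, Real.norm_of_nonneg hc0]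
    nlinarith [norm_nonneg z]

theorem construction (hA : ∀ G, Good G → ∀ n, ∃ C, 0 ≤ C ∧ Approx G n C)
    (hS : ∀ G, Good G → ∀ u : ℂ, ‖u‖ = 1 → ∀ ε : ℝ, 0 < ε → ∃ G', Good G' ∧ G ⊆ G' ∧
      (∀ t : ℝ, 0 ≤ t → t < 1 / 2 → (t : ℂ) * u ∈ G') ∧ volume (G' \ G) ≤ ENNReal.ofReal ε) :
    ∃ (G : ℕ → Set ℂ) (C : ℕ → ℝ), (∀ n, Good (G n)) ∧ (∀ n, G n ⊆ G (n + 1)) ∧ (∀ n, 0 ≤ C n) ∧
      (∀ n, Approx (G n) n (C n)) ∧
      (∀ n, volume ((⋃ m, G m) \ G n) ≤ ENNReal.ofReal (1 / (((n : ℝ) + 2) * (1 + C n) ^ n))) ∧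
      ball 0 (1 / 2) ⊆ closure (⋃ m, G m) ∧ volume (⋃ m, G m) < volume (ball (0 : ℂ) (1 / 2)) := by
  choose! c hc0 hcA using hA
  choose! S hSg hSs hSr hSv using hS
  obtain ⟨β, hβ⟩ : ∃ β : Set ℂ → ℕ → ℝ, β = fun (G : Set ℂ) (n : ℕ) => 1 / (((n : ℝ) + 2) * (1 + c G n) ^ n) :=
    ⟨_, rfl⟩
  have hβpos : ∀ G, Good G → ∀ n, 0 < β G n := by
    intro G hG n
    rw [hβ]
    have := hc0 G hG n
    positivity
  have hne : Nonempty (sphere (0 : ℂ) 1) := ⟨⟨1, by simp⟩⟩
  let u : ℕ → ℂ := fun n => (TopologicalSpace.denseSeq (sphere (0 : ℂ) 1) n : ℂ)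
  have hu1 : ∀ n, ‖u n‖ = 1 := by
    intro n
    have := (TopologicalSpace.denseSeq (sphere (0 : ℂ) 1) n).2
    rwa [mem_sphere_zero_iff_norm] at this
  have hud : ∀ v : ℂ, ‖v‖ = 1 → ∀ ε : ℝ, 0 < ε → ∃ n, ‖v - u n‖ < ε := by
    intro v hv ε hε
    have hd := TopologicalSpace.denseRange_denseSeq (sphere (0 : ℂ) 1)
    obtain ⟨n, hn⟩ := hd.exists_dist_lt ⟨v, by rw [mem_sphere_zero_iff_norm]; exact hv⟩ hε
    refine ⟨n, ?_⟩
    rw [Subtype.dist_eq, dist_eq_norm] at hn
    exact hn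
  -- the recursion
  let st : ℕ → Set ℂ × ℝ := fun n => Nat.rec (ball (0 : ℂ) (1 / 8),
    min (1 / 8) (β (ball (0 : ℂ) (1 / 8)) 0))
    (fun n p => (S p.1 (u n) (p.2 / 2), min (p.2 / 2) (β (S p.1 (u n) (p.2 / 2)) (n + 1)))) n
  have st0 : st 0 = (ball (0 : ℂ) (1 / 8), min (1 / 8) (β (ball (0 : ℂ) (1 / 8)) 0)) := rfl
  have stS : ∀ n, st (n + 1) = (S (st n).1 (u n) ((st n).2 / 2),
    min ((st n).2 / 2) (β (S (st n).1 (u n) ((st n).2 / 2)) (n + 1))) := fun n => rfl
  have hgood : ∀ n, Good (st n).1 ∧ 0 < (st n).2 := by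
    intro n
    induction n with
    | zero =>
      rw [st0]
      exact ⟨good0, lt_min (by norm_num) (hβpos _ good0 _)⟩
    | succ n ih =>
      rw [stS]
      have hg := hSg (st n).1 ih.1 (u n) (hu1 n) ((st n).2 / 2) (half_pos ih.2)
      exact ⟨hg, lt_min (half_pos ih.2) (hβpos _ hg _)⟩
  have hsub : ∀ n, (st n).1 ⊆ (st (n + 1)).1 := by
    intro n
    rw [stS]
    exact hSs (st n).1 (hgood n).1 (u n) (hu1 n) ((st n).2 / 2) (half_pos (hgood n).2)
  have hray : ∀ n, ∀ t : ℝ, 0 ≤ t → t < 1 / 2 → (t : ℂ) * u n ∈ (st (n + 1)).1 := by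
    intro n
    rw [stS]
    exact hSr (st n).1 (hgood n).1 (u n) (hu1 n) ((st n).2 / 2) (half_pos (hgood n).2)
  have hvol : ∀ n, volume ((st (n + 1)).1 \ (st n).1) ≤ ENNReal.ofReal ((st n).2 / 2) := by
    intro n
    rw [stS]
    exact hSv (st n).1 (hgood n).1 (u n) (hu1 n) ((st n).2 / 2) (half_pos (hgood n).2)
  have hbhalf : ∀ n, (st (n + 1)).2 ≤ (st n).2 / 2 := by
    intro n
    rw [stS]
    exact min_le_left _ _
  have hbβ : ∀ n, (st n).2 ≤ β (st n).1 n := by
    intro n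
    cases n with
    | zero => rw [st0]; exact min_le_right _ _
    | succ n => rw [stS]; exact min_le_right _ _
  have hb : ∀ n j, (st (n + j)).2 ≤ (st n).2 / 2 ^ j := by
    intro n j
    induction j with
    | zero => simp
    | succ j ih =>
      have h1 := hbhalf (n + j)
      rw [← add_assoc]
      calc (st (n + j + 1)).2 ≤ (st (n + j)).2 / 2 := h1
        _ ≤ (st n).2 / 2 ^ j / 2 := by linarith
        _ = (st n).2 / 2 ^ (j + 1) := by rw [pow_succ, div_div]
  have hmono : Monotone (fun n => (st n).1) := monotone_nat_of_le_succ hsub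
  have htail : ∀ n, volume ((⋃ m, (st m).1) \ (st n).1) ≤ ENNReal.ofReal (st n).2 := by
    intro n
    have hcov : (⋃ m, (st m).1) \ (st n).1 ⊆ ⋃ j, ((st (n + j + 1)).1 \ (st (n + j)).1) := by
      classical
      rintro z ⟨hz1, hz2⟩
      rw [mem_iUnion] at hz1
      have hmin := Nat.find_spec hz1
      have hmin' : ∀ m, m < Nat.find hz1 → z ∉ (st m).1 := fun m hm => Nat.find_min hz1 hm
      obtain ⟨m, hm⟩ : ∃ m, m = Nat.find hz1 := ⟨_, rfl⟩
      rw [← hm] at hmin hmin'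
      have hnm : n < m := by
        by_contra hcon
        push Not at hcon
        exact hz2 (hmono hcon hmin)
      rw [mem_iUnion]
      refine ⟨m - n - 1, ?_, ?_⟩
      · have : n + (m - n - 1) + 1 = m := by omega
        rw [this]; exact hmin
      · apply hmin'
        omega
    calc volume ((⋃ m, (st m).1) \ (st n).1)
        ≤ volume (⋃ j, ((st (n + j + 1)).1 \ (st (n + j)).1)) := measure_mono hcov
      _ ≤ ∑' j, volume ((st (n + j + 1)).1 \ (st (n + j)).1) := measure_iUnion_le _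
      _ ≤ ∑' j : ℕ, ENNReal.ofReal ((st n).2 / 2 / 2 ^ j) := by
          apply ENNReal.tsum_le_tsum
          intro j
          refine (hvol (n + j)).trans (ENNReal.ofReal_le_ofReal ?_)
          have := hb n j
          calc (st (n + j)).2 / 2 ≤ (st n).2 / 2 ^ j / 2 := by linarith
            _ = (st n).2 / 2 / 2 ^ j := by rw [div_right_comm]
      _ = ENNReal.ofReal (∑' j : ℕ, (st n).2 / 2 / 2 ^ j) := by
          rw [ENNReal.ofReal_tsum_of_nonneg]
          · intro j
            have := (hgood n).2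
            positivity
          · exact (hasSum_geometric_two' (st n).2).summable
      _ = ENNReal.ofReal (st n).2 := by rw [tsum_geometric_two']
  refine ⟨fun n => (st n).1, fun n => c (st n).1 n, fun n => (hgood n).1, hsub,
    fun n => hc0 _ (hgood n).1 n, fun n => hcA _ (hgood n).1 n, ?_, ?_, ?_⟩
  · intro n
    refine (htail n).trans (ENNReal.ofReal_le_ofReal ?_)
    have := hbβ n
    rw [hβ] at this
    exact this
  · -- closure
    intro z hz
    rw [mem_ball_zero_iff] at hz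
    rw [Metric.mem_closure_iff]
    intro ε hε
    by_cases hz0 : z = 0
    · refine ⟨0, ?_, by rw [hz0, dist_self]; exact hε⟩
      rw [mem_iUnion]
      refine ⟨0, ?_⟩
      show (0 : ℂ) ∈ ball (0 : ℂ) (1 / 8)
      exact mem_ball_self (by norm_num)
    · have hzpos : 0 < ‖z‖ := norm_pos_iff.2 hz0
      have hv : ‖z / ((‖z‖ : ℝ) : ℂ)‖ = 1 := by
        rw [norm_div, Complex.norm_real, norm_norm, div_self hzpos.ne']
      obtain ⟨n, hn⟩ := hud _ hv ε hε
      refine ⟨((‖z‖ : ℝ) : ℂ) * u n, ?_, ?_⟩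
      · rw [mem_iUnion]
        exact ⟨n + 1, hray n ‖z‖ (norm_nonneg z) hz⟩
      · rw [dist_eq_norm]
        have e : z - ((‖z‖ : ℝ) : ℂ) * u n = ((‖z‖ : ℝ) : ℂ) * (z / ((‖z‖ : ℝ) : ℂ) - u n) := by
          have : ((‖z‖ : ℝ) : ℂ) ≠ 0 := by exact_mod_cast hzpos.ne'
          field_simp
        rw [e, norm_mul, Complex.norm_real, norm_norm]
        nlinarith [norm_nonneg (z / ((‖z‖ : ℝ) : ℂ) - u n)]
  · -- volume
    have h0 : (st 0).2 ≤ 1 / 8 := by rw [st0]; exact min_le_left _ _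
    have h1 : volume (⋃ m, (st m).1) ≤ volume (ball (0 : ℂ) (1 / 8)) + ENNReal.ofReal (1 / 8) := by
      have hcov : (⋃ m, (st m).1) ⊆ (st 0).1 ∪ ((⋃ m, (st m).1) \ (st 0).1) := by
        intro z hz
        by_cases h : z ∈ (st 0).1
        · exact Or.inl h
        · exact Or.inr ⟨hz, h⟩
      refine (measure_mono hcov).trans ((measure_union_le _ _).trans ?_)
      apply add_le_add le_rfl
      exact (htail 0).trans (ENNReal.ofReal_le_ofReal h0)
    refine lt_of_le_of_lt h1 ?_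
    rw [Complex.volume_ball, Complex.volume_ball]
    have hpi : (NNReal.pi : ENNReal) = ENNReal.ofReal Real.pi := by
      rw [ENNReal.ofReal, Real.toNNReal_of_nonneg Real.pi_pos.le]
      rfl
    rw [hpi, ← ENNReal.ofReal_pow (by norm_num), ← ENNReal.ofReal_pow (by norm_num),
      ← ENNReal.ofReal_mul (by norm_num), ← ENNReal.ofReal_mul (by norm_num),
      ← ENNReal.ofReal_add (by positivity) (by norm_num),
      ENNReal.ofReal_lt_ofReal_iff (by positivity)]
    have := Real.pi_gt_three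
    norm_num
    linarith


end Pool.Agent.Helper265.Hg
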