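import Mathlib
import Pool.Agent.Helper509.Polar
import Pool.Agent.Helper265.HgDefs

set_option autoImplicit false
open Complex Set Filter Metric Topology MeasureTheory
open scoped ENNReal

namespace Pool.Agent.Helper265.Hg

theorem circ_ge {f : ℂ → ℂ} {c : ℂ} {r : ℝ} (hr : 0 < r) (hf : DiffContOnCl ℂ f (ball c r)) :
    ENNReal.ofReal (2 * Real.pi) * ‖f c‖ₑ ≤
      ∫⁻ θ in Ioo (-Real.pi) Real.pi, ‖f (circleMap c r θ)‖ₑ := by
  have hpi := Real.pi_pos
  have h1 : Real.circleAverage f c r = f c := by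
    apply DiffContOnCl.circleAverage
    rwa [abs_of_pos hr]
  have h2 : ∫ θ in (0 : ℝ)..2 * Real.pi, f (circleMap c r θ) = (2 * Real.pi) • f c := by
    rw [← h1, Real.circleAverage_def, smul_smul, mul_inv_cancel₀ (by positivity), one_smul]
  have hper : Function.Periodic (fun t : ℝ => f (circleMap c r t)) (2 * Real.pi) := by
    intro t
    show f (circleMap c r (t + 2 * Real.pi)) = _
    rw [periodic_circleMap c r t]
  have h3 := hper.intervalIntegral_add_eq (-Real.pi) 0
  rw [zero_add, show -Real.pi + 2 * Real.pi = Real.pi by ring, h2,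
    intervalIntegral.integral_of_le (by linarith), integral_Ioc_eq_integral_Ioo] at h3
  calc ENNReal.ofReal (2 * Real.pi) * ‖f c‖ₑ = ‖(2 * Real.pi) • f c‖ₑ := by
        rw [enorm_smul, Real.enorm_of_nonneg (by positivity)]
    _ = ‖∫ θ in Ioo (-Real.pi) Real.pi, f (circleMap c r θ)‖ₑ := by rw [h3]
    _ ≤ _ := enorm_integral_le_lintegral_enorm _

theorem mv_ball {f : ℂ → ℂ} {c : ℂ} {d : ℝ} (hd : 0 < d) (hf : DifferentiableOn ℂ f (ball c d)) :
    ENNReal.ofReal (Real.pi * d ^ 2) * ‖f c‖ₑ ≤ ∫⁻ z in ball c d, ‖f z‖ₑ := by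
  have hpi := Real.pi_pos
  rw [Pool.Agent.Helper509.Polar.lintegral_ball, Measure.volume_eq_prod, setLIntegral_prod]
  · calc ENNReal.ofReal (Real.pi * d ^ 2) * ‖f c‖ₑ
        = ∫⁻ r in Ioo (0 : ℝ) d, ENNReal.ofReal r * (ENNReal.ofReal (2 * Real.pi) * ‖f c‖ₑ) := by
          rw [lintegral_mul_const' _ _ (by finiteness)]
          have : ∫⁻ r in Ioo (0 : ℝ) d, ENNReal.ofReal r = ENNReal.ofReal (d ^ 2 / 2) := by
            rw [restrict_Ioo_eq_restrict_Ioc, ← ofReal_integral_eq_lintegral_ofReal]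
            · rw [← intervalIntegral.integral_of_le hd.le, integral_id]
              congr 1
              ring
            · exact (Continuous.integrableOn_Icc (by fun_prop)).mono_set Ioc_subset_Icc_self
            · filter_upwards [ae_restrict_mem measurableSet_Ioc] with x hx
              exact hx.1.le
          rw [this, ← mul_assoc, ← ENNReal.ofReal_mul (by positivity)]
          congr 2
          ring
      _ ≤ _ := by
          apply setLIntegral_mono' measurableSet_Ioo
          intro r hr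
          rw [lintegral_const_mul' _ _ ENNReal.ofReal_ne_top]
          gcongr
          apply circ_ge hr.1
          exact (hf.mono (closedBall_subset_ball hr.2)).diffContOnCl_ball subset_rfl
  · have hmaps : ∀ p ∈ Ioo (0:ℝ) d ×ˢ Ioo (-Real.pi) Real.pi, circleMap c p.1 p.2 ∈ ball c d := by
      rintro ⟨r, θ⟩ ⟨hr, -⟩
      simp only [mem_Ioo] at hr
      rw [mem_ball, dist_eq_norm]
      simp only [circleMap, add_sub_cancel_left]
      rw [norm_mul, norm_exp_ofReal_mul_I, mul_one, norm_real, Real.norm_of_nonneg hr.1.le]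
      exact hr.2
    have hcm : Continuous (fun p : ℝ × ℝ => circleMap c p.1 p.2) := by
      unfold circleMap; fun_prop
    have hcont : ContinuousOn (fun p : ℝ × ℝ => f (circleMap c p.1 p.2))
        (Ioo (0:ℝ) d ×ˢ Ioo (-Real.pi) Real.pi) :=
      hf.continuousOn.comp hcm.continuousOn hmaps
    have h2 : AEMeasurable (fun p : ℝ × ℝ => f (circleMap c p.1 p.2))
        ((volume : Measure (ℝ × ℝ)).restrict (Ioo (0:ℝ) d ×ˢ Ioo (-Real.pi) Real.pi)) :=
      hcont.aemeasurable (measurableSet_Ioo.prod measurableSet_Ioo)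
    exact (measurable_fst.ennreal_ofReal.aemeasurable).mul h2.enorm

theorem sup_bound {G K : Set ℂ} (hG : IsOpen G) (hK : IsCompact K) (hKG : K ⊆ G) :
    ∃ C : ℝ, 0 ≤ C ∧ ∀ f : ℂ → ℂ, DifferentiableOn ℂ f G → ∀ A : ℝ, 0 ≤ A →
      (∫⁻ z in G, ‖f z‖ₑ) ≤ ENNReal.ofReal A → ∀ z ∈ K, ‖f z‖ ≤ C * A := by
  obtain ⟨d, hd, hdG⟩ := hK.exists_thickening_subset_open hG hKG
  have hpi := Real.pi_pos
  refine ⟨(Real.pi * d ^ 2)⁻¹, by positivity, fun f hf A hA hfA z hz => ?_⟩
  have hball : ball z d ⊆ G := fun w hw => hdG (mem_thickening_iff.2 ⟨z, hz, hw⟩)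
  have h1 := mv_ball hd (hf.mono hball)
  have h2 : ∫⁻ w in ball z d, ‖f w‖ₑ ≤ ∫⁻ w in G, ‖f w‖ₑ := lintegral_mono_set hball
  have h3 := (h1.trans h2).trans hfA
  rw [← ofReal_norm, ← ENNReal.ofReal_mul (by positivity), ENNReal.ofReal_le_ofReal_iff hA] at h3
  rw [inv_mul_eq_div, le_div_iff₀ (by positivity)]
  linarith

end Pool.Agent.Helper265.Hg
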