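import Mathlib
import Pool.Agent.Helper265.HgMV
import Pool.Agent.Helper265.HgD
import Pool.Agent.Helper265.HgE
import Pool.Agent.Helper265.HgF

set_option autoImplicit false
open Complex Set Filter Metric Topology MeasureTheory
open scoped ENNReal

namespace Pool.Agent.Helper265.Hg

theorem rad_pos (n : ℕ) : 0 < rad n := by
  unfold rad
  rw [sub_pos, div_lt_one (by positivity)]
  linarith [(Nat.cast_nonneg n : (0 : ℝ) ≤ n)]

theorem rad_lt (n : ℕ) : rad n < 1 := by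
  unfold rad
  have : (0 : ℝ) < 1 / ((n : ℝ) + 2) := by positivity
  linarith

theorem exists_approx (G : Set ℂ) (hG : Good G) (n : ℕ) : ∃ C, 0 ≤ C ∧ Approx G n C := by
  obtain ⟨K, hKG, hK, hop⟩ := star_op hG (rad_pos n) (rad_lt n)
  obtain ⟨S, hS0, hS⟩ := sup_bound hG.op hK hKG
  obtain ⟨C, hC0, hC⟩ := hop (1 / (((n : ℝ) + 1) * (S + 1))) (by positivity)
  refine ⟨C * S, by positivity, fun f hf A hA hfA => ?_⟩
  obtain ⟨P, hP1, hP2⟩ := hC f hf (S * A) (hS f hf A hA hfA)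
  refine ⟨P, fun z hz => (hP1 z hz).trans ?_, fun z hz => (hP2 z hz).trans (le_of_eq (by ring))⟩
  rw [div_mul_eq_mul_div, one_mul, div_le_div_iff₀ (by positivity) (by positivity)]
  have : S * A ≤ A * (S + 1) := by nlinarith
  calc S * A * ((n : ℝ) + 1) ≤ A * (S + 1) * ((n : ℝ) + 1) := by gcongr
    _ = A * (((n : ℝ) + 1) * (S + 1)) := by ring

theorem data : ∃ (G : ℕ → Set ℂ) (C : ℕ → ℝ), (∀ n, Good (G n)) ∧ (∀ n, G n ⊆ G (n + 1)) ∧ (∀ n, 0 ≤ C n) ∧
      (∀ n, Approx (G n) n (C n)) ∧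
      (∀ n, volume ((⋃ m, G m) \ G n) ≤ ENNReal.ofReal (1 / (((n : ℝ) + 2) * (1 + C n) ^ n))) ∧
      ball 0 (1 / 2) ⊆ closure (⋃ m, G m) ∧ volume (⋃ m, G m) < volume (ball (0 : ℂ) (1 / 2)) :=
  construction exists_approx (fun _ hG _ hu _ hε => spike hG hu hε)

end Pool.Agent.Helper265.Hg
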