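import Mathlib
import Pool.Agent.Helper265.HgDefs
import Pool.Agent.Helper265.HgB

set_option autoImplicit false
open Complex Set Filter Metric Topology MeasureTheory
open scoped ENNReal

namespace Pool.Agent.Helper265.Hg









lemma enn_add_pow {p : ℝ} (hp : 1 ≤ p) (a b : ℝ≥0∞) :
    (a + b) ^ p ≤ 2 ^ (p - 1) * (a ^ p + b ^ p) :=
  ENNReal.rpow_add_le_mul_rpow_add_rpow a b hp

/-- splitting estimate for one `n` -/
lemma split_est {O G : Set ℂ} (hO : IsOpen O) (hG : IsOpen G) (hGO : G ⊆ O) (hOb : O ⊆ ball 0 1)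
    {p : ℝ} (hp : 1 ≤ p) (f g P : ℂ → ℂ) (a b : ℝ)
    (h1 : ∀ z ∈ G, ‖g z - P z‖ ≤ a) (h2 : ∀ z ∈ ball (0 : ℂ) 1, ‖P z‖ ≤ b) :
    ∫⁻ z in O, ‖f z - P z‖ₑ ^ p ≤ 2 ^ (p - 1) * ((∫⁻ z in O, ‖g z - f z‖ₑ ^ p) +
      ENNReal.ofReal a ^ p * volume O + (∫⁻ z in O \ G, ‖f z‖ₑ ^ p) +
      ENNReal.ofReal b ^ p * volume (O \ G)) := by
  have hp0 : 0 ≤ p := by linarith
  have hc : (2 : ℝ≥0∞) ^ (p - 1) ≠ ⊤ := ENNReal.rpow_ne_top_of_nonneg (by linarith) (by norm_num)
  rw [← lintegral_inter_add_diff (fun z => ‖f z - P z‖ₑ ^ p) O hG.measurableSet,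
    Set.inter_eq_self_of_subset_right hGO]
  have e1 : ∫⁻ z in G, ‖f z - P z‖ₑ ^ p ≤ 2 ^ (p - 1) * ((∫⁻ z in O, ‖g z - f z‖ₑ ^ p) +
      ENNReal.ofReal a ^ p * volume O) := by
    calc ∫⁻ z in G, ‖f z - P z‖ₑ ^ p ≤
        ∫⁻ z in G, 2 ^ (p - 1) * (‖g z - f z‖ₑ ^ p + ENNReal.ofReal a ^ p) := by
          apply setLIntegral_mono' hG.measurableSet
          intro z hz
          refine le_trans ?_ (enn_add_pow hp _ _)
          apply ENNReal.rpow_le_rpow _ hp0
          calc ‖f z - P z‖ₑ = ‖-(g z - f z) + (g z - P z)‖ₑ := by congr 1; ring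
            _ ≤ ‖-(g z - f z)‖ₑ + ‖g z - P z‖ₑ := enorm_add_le _ _
            _ ≤ ‖g z - f z‖ₑ + ENNReal.ofReal a := by
                rw [enorm_neg]
                apply add_le_add le_rfl
                rw [← ofReal_norm]
                exact ENNReal.ofReal_le_ofReal (h1 z hz)
      _ = 2 ^ (p - 1) * ((∫⁻ z in G, ‖g z - f z‖ₑ ^ p) + ENNReal.ofReal a ^ p * volume G) := by
          rw [lintegral_const_mul' _ _ hc, lintegral_add_right _ measurable_const,
            setLIntegral_const]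
      _ ≤ _ := by
          gcongr
  have e2 : ∫⁻ z in O \ G, ‖f z - P z‖ₑ ^ p ≤ 2 ^ (p - 1) * ((∫⁻ z in O \ G, ‖f z‖ₑ ^ p) +
      ENNReal.ofReal b ^ p * volume (O \ G)) := by
    calc ∫⁻ z in O \ G, ‖f z - P z‖ₑ ^ p ≤
        ∫⁻ z in O \ G, 2 ^ (p - 1) * (‖f z‖ₑ ^ p + ENNReal.ofReal b ^ p) := by
          apply setLIntegral_mono' (hO.measurableSet.diff hG.measurableSet)
          intro z hz
          refine le_trans ?_ (enn_add_pow hp _ _)
          apply ENNReal.rpow_le_rpow _ hp0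
          calc ‖f z - P z‖ₑ ≤ ‖f z‖ₑ + ‖P z‖ₑ := enorm_sub_le
            _ ≤ ‖f z‖ₑ + ENNReal.ofReal b := by
                apply add_le_add le_rfl
                rw [← ofReal_norm]
                exact ENNReal.ofReal_le_ofReal (h2 z (hOb hz.1))
      _ = _ := by
          rw [lintegral_const_mul' _ _ hc, lintegral_add_right _ measurable_const,
            setLIntegral_const]
  calc _ ≤ 2 ^ (p - 1) * ((∫⁻ z in O, ‖g z - f z‖ₑ ^ p) +
      ENNReal.ofReal a ^ p * volume O) + 2 ^ (p - 1) * ((∫⁻ z in O \ G, ‖f z‖ₑ ^ p) +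
      ENNReal.ofReal b ^ p * volume (O \ G)) := add_le_add e1 e2
    _ = _ := by ring

/-- the target -/
theorem density {G : ℕ → Set ℂ} {C : ℕ → ℝ} (h1 : ∀ n, Good (G n)) (h2 : ∀ n, G n ⊆ G (n + 1))
    (h3 : ∀ n, 0 ≤ C n) (h4 : ∀ n, Approx (G n) n (C n))
    (h5 : ∀ n, volume ((⋃ m, G m) \ G n) ≤ ENNReal.ofReal (1 / (((n : ℝ) + 2) * (1 + C n) ^ n)))
    {p : ℝ} (hp : 1 ≤ p) {f : ℂ → ℂ} (hf : DifferentiableOn ℂ f (⋃ m, G m))
    (hfin : ∫⁻ z in ⋃ m, G m, ‖f z‖ₑ ^ p ≠ ∞) {ε : ℝ≥0∞} (hε : 0 < ε) :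
    ∃ P : Polynomial ℂ, ∫⁻ z in ⋃ m, G m, ‖f z - P.eval z‖ₑ ^ p < ε := by
  set O : Set ℂ := ⋃ m, G m with hOdef
  have hp0 : 0 < p := by linarith
  have hO : IsOpen O := isOpen_iUnion fun m => (h1 m).op
  have hOb : O ⊆ ball 0 1 := iUnion_subset fun m => (h1 m).sub
  have hGO : ∀ n, G n ⊆ O := fun n => subset_iUnion G n
  have hvO : volume O ≠ ⊤ := ((measure_mono hOb).trans_lt measure_ball_lt_top).ne
  have hstar : ∀ z ∈ O, ∀ c : ℝ, 0 < c → c ≤ 1 → (c : ℂ) * z ∈ O := by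
    intro z hz c hc0 hc1
    obtain ⟨m, hm⟩ := mem_iUnion.1 hz
    rcases hc1.lt_or_eq with hc | hc
    · exact hGO m ((h1 m).star z (subset_closure hm) c hc0.le hc)
    · rw [hc]; simpa using hz
  -- integrability of f
  have hf1 : ∫⁻ z in O, ‖f z‖ₑ ≠ ⊤ := by
    have hle : ∫⁻ z in O, ‖f z‖ₑ ≤ ∫⁻ z in O, (1 + ‖f z‖ₑ ^ p) := by
      apply lintegral_mono
      intro z
      simp only
      by_cases hx : ‖f z‖ₑ ≤ 1
      · exact hx.trans le_self_add
      · push Not at hx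
        calc ‖f z‖ₑ = ‖f z‖ₑ ^ (1 : ℝ) := (ENNReal.rpow_one _).symm
          _ ≤ ‖f z‖ₑ ^ p := ENNReal.rpow_le_rpow_of_exponent_le hx.le hp
          _ ≤ _ := le_add_self
    rw [lintegral_add_left measurable_const, setLIntegral_const, one_mul] at hle
    exact (hle.trans_lt (ENNReal.add_lt_top.2 ⟨hvO.lt_top, hfin.lt_top⟩)).ne
  set A : ℝ := (∫⁻ z in O, ‖f z‖ₑ).toReal with hA
  have hA0 : 0 ≤ A := ENNReal.toReal_nonneg
  have hAeq : ENNReal.ofReal A = ∫⁻ z in O, ‖f z‖ₑ := ENNReal.ofReal_toReal hf1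
  have hP : ∀ n, ∃ P : Polynomial ℂ,
      (∀ z ∈ G n, ‖f ((rad n : ℂ) * z) - P.eval z‖ ≤ A / ((n : ℝ) + 1)) ∧
      ∀ z ∈ ball (0 : ℂ) 1, ‖P.eval z‖ ≤ C n * A := by
    intro n
    apply h4 n f (hf.mono (hGO n)) A hA0
    rw [hAeq]
    exact lintegral_mono_set (hGO n)
  choose P hP1 hP2 using hP
  have hr0 : ∀ n, 0 < rad n := by
    intro n
    unfold rad
    have h : (1 : ℝ) / ((n : ℝ) + 2) < 1 := by
      rw [div_lt_one (by positivity)]
      have : (0 : ℝ) ≤ n := Nat.cast_nonneg n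
      linarith
    linarith
  have hr1 : ∀ n, rad n < 1 := by
    intro n
    unfold rad
    have : (0 : ℝ) < 1 / ((n : ℝ) + 2) := by positivity
    linarith
  have hinv : Tendsto (fun n : ℕ => 1 / ((n : ℝ) + 2)) atTop (𝓝 0) := by
    have := (tendsto_const_div_atTop_nhds_zero_nat (1 : ℝ)).comp (tendsto_add_atTop_nat 2)
    refine this.congr fun n => ?_
    simp
  have hr : Tendsto rad atTop (𝓝 1) := by
    have := hinv.const_sub 1
    rw [sub_zero] at this
    exact this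
  have hD : Tendsto (fun n => ∫⁻ z in O, ‖f ((rad n : ℂ) * z) - f z‖ₑ ^ p) atTop (𝓝 0) := by
    have := dil_tendsto hO hstar (v := fun _ => 1) aemeasurable_const (by simp) (by simp) hp
      hf.continuousOn (by simpa using hfin) rad hr0 hr1 hr
    simpa using this
  -- the volume of the remainder
  have hvol : Tendsto (fun n => volume (O \ G n)) atTop (𝓝 0) := by
    have hlim : Tendsto (fun n : ℕ => ENNReal.ofReal (1 / ((n : ℝ) + 2))) atTop (𝓝 0) := by
      have := ENNReal.tendsto_ofReal hinv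
      rwa [ENNReal.ofReal_zero] at this
    apply tendsto_of_tendsto_of_tendsto_of_le_of_le tendsto_const_nhds hlim (fun _ => bot_le)
    intro n
    refine (h5 n).trans (ENNReal.ofReal_le_ofReal ?_)
    have hC1 : 1 ≤ (1 + C n) ^ n := one_le_pow₀ (by linarith [h3 n])
    have hn : (0 : ℝ) < (n : ℝ) + 2 := by positivity
    apply one_div_le_one_div_of_le hn
    nlinarith
  have hL2 : Tendsto (fun n : ℕ => ENNReal.ofReal (A / ((n : ℝ) + 1)) ^ p * volume O) atTop (𝓝 0) := by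
    have h6 : Tendsto (fun n : ℕ => A / ((n : ℝ) + 1)) atTop (𝓝 0) := by
      have := (tendsto_const_div_atTop_nhds_zero_nat A).comp (tendsto_add_atTop_nat 1)
      refine this.congr fun n => ?_
      simp
    have h7 := ENNReal.tendsto_ofReal h6
    rw [ENNReal.ofReal_zero] at h7
    have h8 := ((ENNReal.continuous_rpow_const (y := p)).tendsto 0).comp h7
    rw [ENNReal.zero_rpow_of_pos hp0] at h8
    have h9 := ENNReal.Tendsto.mul_const (b := volume O) h8 (Or.inr hvO)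
    rw [zero_mul] at h9
    exact h9
  have hL3 : Tendsto (fun n => ∫⁻ z in O \ G n, ‖f z‖ₑ ^ p) atTop (𝓝 0) := by
    have h6 : Tendsto ((volume.restrict O) ∘ fun n => O \ G n) atTop (𝓝 0) := by
      refine hvol.congr fun n => ?_
      simp only [Function.comp]
      rw [Measure.restrict_apply (hO.measurableSet.diff (h1 n).op.measurableSet),
        Set.inter_eq_self_of_subset_left diff_subset]
    have h7 := tendsto_setLIntegral_zero (μ := volume.restrict O) (f := fun z => ‖f z‖ₑ ^ p) hfin h6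
    refine h7.congr fun n => ?_
    rw [Measure.restrict_restrict (hO.measurableSet.diff (h1 n).op.measurableSet),
      Set.inter_eq_self_of_subset_left diff_subset]
  have hL4 : Tendsto (fun n => ENNReal.ofReal (C n * A) ^ p * volume (O \ G n)) atTop (𝓝 0) := by
    have hlim : Tendsto (fun n : ℕ => ENNReal.ofReal (A ^ p * (1 / ((n : ℝ) + 2)))) atTop (𝓝 0) := by
      have := ENNReal.tendsto_ofReal (hinv.const_mul (A ^ p))
      rwa [mul_zero, ENNReal.ofReal_zero] at this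
    apply tendsto_of_tendsto_of_tendsto_of_le_of_le' tendsto_const_nhds hlim
      (Eventually.of_forall fun _ => bot_le)
    filter_upwards [Filter.eventually_ge_atTop ⌈p⌉₊] with n hn
    have hpn : p ≤ n := (Nat.le_ceil p).trans (by exact_mod_cast hn)
    have hCn := h3 n
    have hC1 : (1 : ℝ) ≤ 1 + C n := by linarith
    have h6 : (C n * A) ^ p ≤ A ^ p * (1 + C n) ^ n := by
      rw [Real.mul_rpow hCn hA0, mul_comm]
      apply mul_le_mul_of_nonneg_left _ (Real.rpow_nonneg hA0 _)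
      calc C n ^ p ≤ (1 + C n) ^ p := Real.rpow_le_rpow hCn (by linarith) hp0.le
        _ ≤ (1 + C n) ^ (n : ℝ) := Real.rpow_le_rpow_of_exponent_le hC1 hpn
        _ = _ := Real.rpow_natCast _ _
    calc ENNReal.ofReal (C n * A) ^ p * volume (O \ G n)
        ≤ ENNReal.ofReal (A ^ p * (1 + C n) ^ n) *
          ENNReal.ofReal (1 / (((n : ℝ) + 2) * (1 + C n) ^ n)) := by
          rw [ENNReal.ofReal_rpow_of_nonneg (by positivity) hp0.le]
          exact mul_le_mul' (ENNReal.ofReal_le_ofReal h6) (h5 n)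
      _ = ENNReal.ofReal (A ^ p * (1 / ((n : ℝ) + 2))) := by
          rw [← ENNReal.ofReal_mul (by positivity)]
          congr 1
          have : (1 + C n) ^ n ≠ 0 := by positivity
          field_simp
  have hsum : Tendsto (fun n => 2 ^ (p - 1) * ((∫⁻ z in O, ‖f ((rad n : ℂ) * z) - f z‖ₑ ^ p) +
      ENNReal.ofReal (A / ((n : ℝ) + 1)) ^ p * volume O + (∫⁻ z in O \ G n, ‖f z‖ₑ ^ p) +
      ENNReal.ofReal (C n * A) ^ p * volume (O \ G n))) atTop (𝓝 0) := by
    have h6 := ((hD.add hL2).add hL3).add hL4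
    simp only [add_zero] at h6
    have h7 := ENNReal.Tendsto.const_mul (a := (2 : ℝ≥0∞) ^ (p - 1)) h6
      (Or.inr (ENNReal.rpow_ne_top_of_nonneg (by linarith) (by norm_num)))
    rwa [mul_zero] at h7
  obtain ⟨n, hn⟩ := (hsum.eventually (gt_mem_nhds hε)).exists
  refine ⟨P n, lt_of_le_of_lt ?_ hn⟩
  exact split_est hO (h1 n).op (hGO n) hOb hp f (fun z => f ((rad n : ℂ) * z))
    (fun z => (P n).eval z) _ _ (hP1 n) (hP2 n)


end Pool.Agent.Helper265.Hg
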