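import Mathlib
import Pool.Agent.Helper265.HgMV

set_option autoImplicit false
open Complex Set Filter Metric Topology MeasureTheory
open scoped ENNReal

namespace Pool.Agent.Helper265.Hg



/-- classes of analytic functions on `Ω` in `L^p(μ)` -/
def Lpa (Ω : Set ℂ) (μ : Measure ℂ) (p : ℝ≥0∞) : Set (Lp ℂ p μ) :=
  {F | ∃ f : ℂ → ℂ, DifferentiableOn ℂ f Ω ∧ (F : ℂ → ℂ) =ᵐ[μ] f}

/-- comparison of the measures -/
theorem smul_restrict_le {Ω G : Set ℂ} (hG : IsOpen G) (hGO : G ⊆ Ω) {w : ℂ → ℝ≥0∞} {c : ℝ≥0∞}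
    (hc : ∀ z ∈ G, c ≤ w z) : c • (volume.restrict G) ≤ (volume.restrict Ω).withDensity w := by
  rw [Measure.le_iff]
  intro s hs
  rw [withDensity_apply _ hs, Measure.restrict_restrict hs, Measure.smul_apply,
    Measure.restrict_apply hs, smul_eq_mul]
  calc c * volume (s ∩ G) = ∫⁻ _ in s ∩ G, c := by rw [setLIntegral_const]
    _ ≤ ∫⁻ z in s ∩ G, w z := by
        apply setLIntegral_mono_ae' (hs.inter hG.measurableSet)
        exact Filter.Eventually.of_forall fun z hz => hc z hz.2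
    _ ≤ ∫⁻ z in s ∩ Ω, w z := lintegral_mono_set (inter_subset_inter_right s hGO)

/-- the bound on compact sets -/
theorem sup_le_norm {Ω K : Set ℂ} (hO : IsOpen Ω) (hK : IsCompact K) (hKO : K ⊆ Ω)
    {w : ℂ → ℝ≥0∞}
    (hlow : ∀ K ⊆ Ω, IsCompact K → ∃ c : ℝ≥0∞, 0 < c ∧ ∀ z ∈ K, c ≤ w z)
    (p : ℝ≥0∞) (h1p : 1 ≤ p) (hp : p ≠ ∞) :
    ∃ C : ℝ, 0 ≤ C ∧ ∀ h : ℂ → ℂ, DifferentiableOn ℂ h Ω →
      eLpNorm h p ((volume.restrict Ω).withDensity w) ≠ ∞ → ∀ z ∈ K,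
      ‖h z‖ ≤ C * (eLpNorm h p ((volume.restrict Ω).withDensity w)).toReal := by
  obtain ⟨K', hK'c, hK1, hK2⟩ := exists_compact_between hK hO hKO
  set G := interior K' with hG
  have hGo : IsOpen G := isOpen_interior
  have hGK' : G ⊆ K' := interior_subset
  have hGO : G ⊆ Ω := hGK'.trans hK2
  obtain ⟨C, hC0, hC⟩ := sup_bound hGo hK hK1
  obtain ⟨c', hc'0, hc'⟩ := hlow K' hK2 hK'c
  set c : ℝ≥0∞ := min c' 1 with hc
  have hc0 : c ≠ 0 := (lt_min hc'0 zero_lt_one).ne'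
  have hct : c ≠ ∞ := ((min_le_right _ _).trans_lt ENNReal.one_lt_top).ne
  have hcw : ∀ z ∈ G, c ≤ w z := fun z hz => (min_le_left _ _).trans (hc' z (hGK' hz))
  have hle := smul_restrict_le hGo hGO hcw
  have hvG : volume G ≠ ∞ := ((measure_mono hGK').trans_lt hK'c.measure_lt_top).ne
  have hpr : 1 ≤ p.toReal := by
    have := ENNReal.toReal_mono hp h1p
    simpa using this
  have hp0 : p ≠ 0 := (zero_lt_one.trans_le h1p).ne'
  set D : ℝ≥0∞ := (c ^ (1 / p.toReal))⁻¹ * (volume G) ^ (1 / (1 : ℝ≥0∞).toReal - 1 / p.toReal) with hD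
  have hexp : 0 ≤ 1 / (1 : ℝ≥0∞).toReal - 1 / p.toReal := by
    rw [ENNReal.toReal_one, div_one, sub_nonneg, div_le_one (by linarith)]
    exact hpr
  have hDt : D ≠ ∞ := by
    apply ENNReal.mul_ne_top
    · apply ENNReal.inv_ne_top.2
      exact (ENNReal.rpow_pos (pos_iff_ne_zero.2 hc0) hct).ne'
    · exact ENNReal.rpow_ne_top_of_nonneg hexp hvG
  refine ⟨C * D.toReal, by positivity, ?_⟩
  intro h hh hfin z hz
  have hmeas : AEStronglyMeasurable h (volume.restrict G) :=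
    (hh.continuousOn.mono hGO).aestronglyMeasurable hGo.measurableSet
  have e1 : eLpNorm h p (volume.restrict G) ≤
      (c ^ (1 / p.toReal))⁻¹ * eLpNorm h p ((volume.restrict Ω).withDensity w) := by
    have h1 := eLpNorm_mono_measure h (p := p) hle
    rw [eLpNorm_smul_measure_of_ne_top hp, smul_eq_mul, ENNReal.toReal_div, ENNReal.toReal_one] at h1
    have hne0 : c ^ (1 / p.toReal) ≠ 0 := (ENNReal.rpow_pos (pos_iff_ne_zero.2 hc0) hct).ne'
    have hnet : c ^ (1 / p.toReal) ≠ ∞ := ENNReal.rpow_ne_top_of_nonneg (by positivity) hct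
    rw [← ENNReal.div_eq_inv_mul, ENNReal.le_div_iff_mul_le (Or.inl hne0) (Or.inl hnet), mul_comm]
    exact h1
  have e2 : ∫⁻ z in G, ‖h z‖ₑ ≤ ENNReal.ofReal (D.toReal *
      (eLpNorm h p ((volume.restrict Ω).withDensity w)).toReal) := by
    rw [ENNReal.ofReal_mul ENNReal.toReal_nonneg, ENNReal.ofReal_toReal hDt,
      ENNReal.ofReal_toReal hfin]
    have h1 := eLpNorm_le_eLpNorm_mul_rpow_measure_univ h1p hmeas
    rw [eLpNorm_one_eq_lintegral_enorm, Measure.restrict_apply_univ] at h1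
    refine h1.trans ?_
    calc eLpNorm h p (volume.restrict G) * (volume G) ^ (1 / (1 : ℝ≥0∞).toReal - 1 / p.toReal)
        ≤ ((c ^ (1 / p.toReal))⁻¹ * eLpNorm h p ((volume.restrict Ω).withDensity w)) *
          (volume G) ^ (1 / (1 : ℝ≥0∞).toReal - 1 / p.toReal) := by gcongr
      _ = _ := by rw [hD]; ring
  have e3 := hC h (hh.mono hGO) _ (by positivity) e2 z hz
  calc ‖h z‖ ≤ _ := e3
    _ = _ := by ring

/-- the target -/
theorem isClosed_Lpa {Ω : Set ℂ} (hO : IsOpen Ω) {w : ℂ → ℝ≥0∞}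
    (hw : AEMeasurable w (volume.restrict Ω)) (hfin : ∀ z ∈ Ω, w z ≠ ∞)
    (hlow : ∀ K ⊆ Ω, IsCompact K → ∃ c : ℝ≥0∞, 0 < c ∧ ∀ z ∈ K, c ≤ w z)
    (p : ℝ≥0∞) [Fact (1 ≤ p)] (hp : p ≠ ∞) :
    IsClosed (Lpa Ω ((volume.restrict Ω).withDensity w) p) := by
  set μ := (volume.restrict Ω).withDensity w with hμ
  have h1p : 1 ≤ p := Fact.out
  apply isClosed_of_closure_subset
  intro F hF
  rw [mem_closure_iff_seq_limit] at hF
  obtain ⟨Fn, hFn, hlim⟩ := hF
  choose f hfd hfe using hFn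
  have hdiff : ∀ m n, (fun z => f m z - f n z) =ᵐ[μ] ((Fn m - Fn n : Lp ℂ p μ) : ℂ → ℂ) := by
    intro m n
    filter_upwards [hfe m, hfe n, Lp.coeFn_sub (Fn m) (Fn n)] with z h1 h2 h3
    rw [h3, Pi.sub_apply, h1, h2]
  have hel : ∀ m n, eLpNorm (fun z => f m z - f n z) p μ = eLpNorm (Fn m - Fn n : Lp ℂ p μ) p μ :=
    fun m n => eLpNorm_congr_ae (hdiff m n)
  have hnorm : ∀ m n, (eLpNorm (fun z => f m z - f n z) p μ).toReal = dist (Fn m) (Fn n) := by
    intro m n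
    rw [hel, dist_eq_norm, Lp.norm_def]
  have hbd : ∀ K, K ⊆ Ω → IsCompact K → ∃ C : ℝ, 0 ≤ C ∧ ∀ m n, ∀ z ∈ K,
      dist (f m z) (f n z) ≤ C * dist (Fn m) (Fn n) := by
    intro K hK hKc
    obtain ⟨C, hC0, hC⟩ := sup_le_norm hO hKc hK hlow p h1p hp
    refine ⟨C, hC0, fun m n z hz => ?_⟩
    have := hC (fun z => f m z - f n z) ((hfd m).sub (hfd n)) (by
      rw [← hμ, hel]
      exact Lp.eLpNorm_ne_top _) z hz
    rw [← hμ, hnorm] at this
    rw [dist_eq_norm]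
    exact this
  have hcau : CauchySeq Fn := hlim.cauchySeq
  have hunif : ∀ K, K ⊆ Ω → IsCompact K → UniformCauchySeqOn f atTop K := by
    intro K hK hKc
    obtain ⟨C, hC0, hC⟩ := hbd K hK hKc
    rw [Metric.uniformCauchySeqOn_iff]
    intro ε hε
    obtain ⟨N, hN⟩ := Metric.cauchySeq_iff.1 hcau (ε / (C + 1)) (by positivity)
    refine ⟨N, fun m hm n hn z hz => ?_⟩
    have h1 := hC m n z hz
    have h2 := hN m hm n hn
    have h3 : (C + 1) * dist (Fn m) (Fn n) < ε := by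
      rw [lt_div_iff₀ (by positivity)] at h2
      linarith
    have h4 : 0 ≤ dist (Fn m) (Fn n) := dist_nonneg
    linarith
  have hpt : ∀ z ∈ Ω, ∃ y, Tendsto (fun n => f n z) atTop (𝓝 y) := by
    intro z hz
    apply cauchySeq_tendsto_of_complete
    have h1 := hunif {z} (singleton_subset_iff.2 hz) isCompact_singleton
    rw [Metric.uniformCauchySeqOn_iff] at h1
    rw [Metric.cauchySeq_iff]
    intro ε hε
    obtain ⟨N, hN⟩ := h1 ε hε
    exact ⟨N, fun m hm n hn => hN m hm n hn z rfl⟩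
  choose! g hg using hpt
  have hloc : TendstoLocallyUniformlyOn f g atTop Ω := by
    rw [tendstoLocallyUniformlyOn_iff_forall_isCompact hO]
    intro K hK hKc
    exact (hunif K hK hKc).tendstoUniformlyOn_of_tendsto fun z hz => hg z (hK hz)
  have hgd : DifferentiableOn ℂ g Ω :=
    hloc.differentiableOn (Filter.Eventually.of_forall hfd) hO
  obtain ⟨ns, hns, hae⟩ := (tendstoInMeasure_of_tendsto_Lp hlim).exists_seq_tendsto_ae
  refine ⟨g, hgd, ?_⟩
  have hall : ∀ᵐ z ∂μ, ∀ n, (Fn n : ℂ → ℂ) z = f n z := ae_all_iff.2 hfe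
  have hmem : ∀ᵐ z ∂μ, z ∈ Ω :=
    (withDensity_absolutelyContinuous (volume.restrict Ω) w).ae_le (ae_restrict_mem hO.measurableSet)
  filter_upwards [hall, hmem, hae] with z h1 h2 h3
  have h4 : Tendsto (fun i => f (ns i) z) atTop (𝓝 (g z)) := (hg z h2).comp hns.tendsto_atTop
  have h5 : (fun i => (Fn (ns i) : ℂ → ℂ) z) = fun i => f (ns i) z := by
    funext i; exact h1 _
  rw [h5] at h3
  exact tendsto_nhds_unique h3 h4


end Pool.Agent.Helper265.Hg
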