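import Mathlib

set_option autoImplicit false
open Complex Set Filter Metric Topology MeasureTheory
open scoped ENNReal

namespace Pool.Agent.Helper265.Br

theorem telescope (F : ℕ → ℂ) (N : ℕ) (hF : ∀ j ≤ N, F j ≠ 0) :
    F 0 * ∏ j ∈ Finset.range N, (F (j + 1) / F j) = F N := by
  induction N with
  | zero => simp
  | succ n ih =>
    rw [Finset.prod_range_succ, ← mul_assoc, ih (fun j hj => hF j (by omega))]
    have := hF n (by omega)
    field_simp

theorem log_star {E : Type*} [NormedAddCommGroup E] [NormedSpace ℝ E] {f : E → ℂ} {K : Set E}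
    (hK : IsCompact K) (hs : StarConvex ℝ 0 K) (hf : ContinuousOn f K) (h0 : ∀ z ∈ K, f z ≠ 0) :
    ∃ g : E → ℂ, ContinuousOn g K ∧ ∀ z ∈ K, exp (g z) = f z := by
  rcases K.eq_empty_or_nonempty with hE | hne
  · subst hE
    exact ⟨fun _ => 0, continuousOn_const, fun z hz => absurd hz (by simp)⟩
  obtain ⟨z1, hz1, hmin⟩ := hK.exists_isMinOn hne hf.norm
  set m : ℝ := ‖f z1‖ with hm
  have hm0 : 0 < m := norm_pos_iff.2 (h0 z1 hz1)
  have hmle : ∀ z ∈ K, m ≤ ‖f z‖ := fun z hz => hmin hz
  have huc := Metric.uniformContinuousOn_iff.1 (hK.uniformContinuousOn_of_continuous hf) m hm0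
  obtain ⟨δ, hδ, hδf⟩ := huc
  obtain ⟨B, hB⟩ := hK.isBounded.exists_norm_le
  obtain ⟨N, hN⟩ := exists_nat_gt (max 1 (B / δ))
  have hN1 : (1 : ℝ) < N := (le_max_left _ _).trans_lt hN
  have hN0 : (0 : ℝ) < N := by linarith
  have hNB : B / δ < N := (le_max_right _ _).trans_lt hN
  have hmem : ∀ z ∈ K, ∀ j : ℕ, j ≤ N → ((j : ℝ) / N) • z ∈ K := by
    intro z hz j hj
    have hj' : (j : ℝ) ≤ N := by exact_mod_cast hj
    exact hs.smul_mem hz (by positivity) ((div_le_one hN0).2 hj')
  have hq : ∀ z ∈ K, ∀ j : ℕ, j < N →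
      f ((((j + 1 : ℕ) : ℝ) / N) • z) / f (((j : ℝ) / N) • z) ∈ slitPlane := by
    intro z hz j hj
    have h1 := hmem z hz j hj.le
    have h2 := hmem z hz (j + 1) hj
    have hd : dist ((((j + 1 : ℕ) : ℝ) / N) • z) (((j : ℝ) / N) • z) < δ := by
      rw [dist_eq_norm, ← sub_smul]
      have e1 : (((j + 1 : ℕ) : ℝ) / N - (j : ℝ) / N) = 1 / N := by
        push_cast
        ring
      rw [e1, norm_smul, Real.norm_of_nonneg (by positivity)]
      have h3 := hB z hz
      rw [div_lt_iff₀ hδ] at hNB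
      calc 1 / (N : ℝ) * ‖z‖ ≤ 1 / N * B := by gcongr
        _ = B / N := by ring
        _ < δ := by rw [div_lt_iff₀ hN0]; linarith
    have h4 := hδf _ h2 _ h1 hd
    rw [dist_eq_norm] at h4
    have h5 : f (((j : ℝ) / N) • z) ≠ 0 := h0 _ h1
    have h6 : f ((((j + 1 : ℕ) : ℝ) / N) • z) / f (((j : ℝ) / N) • z) =
        1 + (f ((((j + 1 : ℕ) : ℝ) / N) • z) - f (((j : ℝ) / N) • z)) / f (((j : ℝ) / N) • z) := by
      field_simp
      ring
    rw [h6]
    apply Complex.mem_slitPlane_of_norm_lt_one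
    rw [norm_div, div_lt_one (norm_pos_iff.2 h5)]
    exact h4.trans_le (hmle _ h1)
  refine ⟨fun z => log (f 0) + ∑ j ∈ Finset.range N,
    log (f ((((j + 1 : ℕ) : ℝ) / N) • z) / f (((j : ℝ) / N) • z)), ?_, ?_⟩
  · apply ContinuousOn.add continuousOn_const
    apply continuousOn_finsetSum
    intro j hj
    have hj' : j < N := Finset.mem_range.1 hj
    apply ContinuousOn.clog
    · apply ContinuousOn.div
      · exact hf.comp (continuous_const_smul _).continuousOn (fun z hz => hmem z hz (j + 1) hj')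
      · exact hf.comp (continuous_const_smul _).continuousOn (fun z hz => hmem z hz j hj'.le)
      · intro z hz
        exact h0 _ (hmem z hz j hj'.le)
    · intro z hz
      exact hq z hz j hj'
  · intro z hz
    have hf0 : f 0 ≠ 0 := by
      have := hmem z hz 0 (Nat.zero_le _)
      simp only [Nat.cast_zero, zero_div, zero_smul] at this
      exact h0 _ this
    rw [exp_add, exp_log hf0, exp_sum]
    have h1 : ∏ j ∈ Finset.range N,
        exp (log (f ((((j + 1 : ℕ) : ℝ) / N) • z) / f (((j : ℝ) / N) • z))) =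
        ∏ j ∈ Finset.range N, (f ((((j + 1 : ℕ) : ℝ) / N) • z) / f (((j : ℝ) / N) • z)) := by
      refine Finset.prod_congr rfl fun j hj => ?_
      apply exp_log
      exact slitPlane_ne_zero (hq z hz j (Finset.mem_range.1 hj))
    rw [h1]
    have h2 := telescope (fun j : ℕ => f (((j : ℝ) / N) • z)) N
      (fun j hj => h0 _ (hmem z hz j hj))
    simp only [Nat.cast_zero, zero_div, zero_smul] at h2
    rw [h2, div_self hN0.ne', one_smul]


end Pool.Agent.Helper265.Br
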