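import Mathlib
import Pool.Agent.Helper265.JcA

set_option autoImplicit false
open Complex Set Filter Metric Topology MeasureTheory
open scoped ENNReal

namespace Pool.Agent.Helper265.Br

theorem slit_aux {a z : ℂ} {r : ℝ} (hr : 0 < r) (ha : ‖a‖ < r) (hz : ‖z‖ = r) :
    1 - a / z ∈ slitPlane := by
  left
  have h1 : ‖a / z‖ < 1 := by
    rw [norm_div, hz, div_lt_one hr]
    exact ha
  have h2 : (a / z).re ≤ ‖a / z‖ := re_le_norm _
  simp only [sub_re, one_re]
  linarith

theorem zpow_aux {w : ℂ} (hw : w ≠ 0) (a b : ℂ) (m n : ℤ) :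
    (w - a) ^ m * (w - b) ^ n = w ^ (m + n) * (1 - a / w) ^ m * (1 - b / w) ^ n := by
  have e2 : ∀ c : ℂ, w - c = w * (1 - c / w) := by
    intro c
    field_simp
  rw [e2 a, e2 b, mul_zpow, mul_zpow, zpow_add₀ hw]
  ring

theorem deg0 {H : ℂ → ℂ} {r : ℝ} {a b : ℂ} {m n : ℤ} (hr : 0 < r) (ha : ‖a‖ < r) (hb : ‖b‖ < r)
    (hH : ContinuousOn H (closedBall 0 r)) (h0 : ∀ z ∈ closedBall (0 : ℂ) r, H z ≠ 0)
    (hc : ∀ z : ℂ, ‖z‖ = r → H z = (z - a) ^ m * (z - b) ^ n) : m + n = 0 := by
  have hs : StarConvex ℝ 0 (closedBall (0 : ℂ) r) :=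
    (convex_closedBall 0 r).starConvex (mem_closedBall_self hr.le)
  obtain ⟨G, hG, hGe⟩ := log_star (isCompact_closedBall (0 : ℂ) r) hs hH h0
  set z : ℝ → ℂ := fun t => r * exp (t * I) with hz
  have hzn : ∀ t, ‖z t‖ = r := by
    intro t
    simp only [hz, norm_mul, norm_exp_ofReal_mul_I, mul_one, norm_real, Real.norm_eq_abs,
      abs_of_pos hr]
  have hz0 : ∀ t, z t ≠ 0 := fun t h => by
    have := hzn t
    rw [h, norm_zero] at this
    exact hr.ne this
  have hzc : Continuous z := by
    simp only [hz]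
    fun_prop
  have hzm : ∀ t, z t ∈ closedBall (0 : ℂ) r := by
    intro t
    rw [mem_closedBall_zero_iff, hzn]
  set F : ℝ → ℂ := fun t => ((m + n : ℤ) : ℂ) * ((Real.log r : ℂ) + t * I) +
    m * log (1 - a / z t) + n * log (1 - b / z t) with hF
  have hFc : Continuous F := by
    have h1 : Continuous fun t => log (1 - a / z t) := by
      refine continuous_iff_continuousAt.2 fun t => ContinuousAt.clog ?_ (slit_aux hr ha (hzn t))
      exact continuousAt_const.sub (continuousAt_const.div hzc.continuousAt (hz0 t))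
    have h2 : Continuous fun t => log (1 - b / z t) := by
      refine continuous_iff_continuousAt.2 fun t => ContinuousAt.clog ?_ (slit_aux hr hb (hzn t))
      exact continuousAt_const.sub (continuousAt_const.div hzc.continuousAt (hz0 t))
    simp only [hF]
    fun_prop
  have hGc : Continuous fun t => G (z t) := hG.comp_continuous hzc hzm
  have hexp : ∀ t, exp (F t) = exp (G (z t)) := by
    intro t
    have e0 : exp ((Real.log r : ℂ) + t * I) = z t := by
      rw [exp_add, ← ofReal_exp, Real.exp_log hr]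
    have e1 : ∀ {c : ℂ}, ‖c‖ < r → exp (log (1 - c / z t)) = 1 - c / z t := fun {c} hc' =>
      exp_log (slitPlane_ne_zero (slit_aux hr hc' (hzn t)))
    have e2 : ∀ c : ℂ, z t - c = z t * (1 - c / z t) := by
      intro c
      have := hz0 t
      field_simp
    rw [hGe _ (hzm t), hc _ (hzn t)]
    simp only [hF]
    have e3 := zpow_aux (hz0 t) a b m n
    rw [e3, exp_add, exp_add, exp_int_mul, exp_int_mul, exp_int_mul, e0, e1 ha, e1 hb]
  have hk : ∀ t, ∃ k : ℤ, F t = G (z t) + k * (2 * Real.pi * I) := fun t =>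
    exp_eq_exp_iff_exists_int.1 (hexp t)
  choose k hk using hk
  have hpi : (2 * Real.pi * I : ℂ) ≠ 0 := by
    simp [Real.pi_ne_zero, I_ne_zero]
  have hkc : Continuous k := by
    rw [Int.isClosedEmbedding_coe_real.isInducing.continuous_iff]
    have h1 : ((fun x : ℤ => (x : ℝ)) ∘ k) = fun t => ((F t - G (z t)) / (2 * Real.pi * I)).re := by
      funext t
      rw [hk t, add_sub_cancel_left, mul_div_cancel_right₀ _ hpi]
      simp
    show Continuous ((fun x : ℤ => (x : ℝ)) ∘ k)
    rw [h1]
    exact continuous_re.comp ((hFc.sub hGc).div_const _)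
  have hkk : k (2 * Real.pi) = k 0 :=
    PreconnectedSpace.constant inferInstance hkc
  have hper : z (2 * Real.pi) = z 0 := by
    simp only [hz]
    push_cast
    rw [exp_two_pi_mul_I]
    simp
  have h1 := hk (2 * Real.pi)
  have h2 := hk 0
  rw [hkk, hper, ← h2] at h1
  simp only [hF, hper] at h1
  have h3 : ((m + n : ℤ) : ℂ) * (2 * Real.pi * I) = 0 := by
    push_cast at h1 ⊢
    linear_combination h1
  rcases mul_eq_zero.1 h3 with h | h
  · exact_mod_cast h
  · exact absurd h hpi


end Pool.Agent.Helper265.Br
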