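import Mathlib
import Pool.Agent.Helper265.JcB

set_option autoImplicit false
open Complex Set Filter Metric Topology MeasureTheory
open scoped ENNReal

namespace Pool.Agent.Helper265.Br

theorem aux_tietze {K : Set ℂ} (hK : IsClosed K) {g : ℂ → ℂ} (hg : ContinuousOn g K) :
    ∃ g1 : ℂ → ℂ, Continuous g1 ∧ ∀ z ∈ K, g1 z = g z := by
  obtain ⟨G, hG⟩ := ContinuousMap.exists_restrict_eq hK (⟨K.domRestrict g, hg.domRestrict⟩ : C(K, ℂ))
  refine ⟨G, G.continuous, fun z hz => ?_⟩
  have := DFunLike.congr_fun hG ⟨z, hz⟩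
  simpa using this

theorem aux_frontier {K : Set ℂ} (hK : IsClosed K) (a : ℂ) :
    frontier (connectedComponentIn Kᶜ a) ⊆ K := by
  intro x hx
  by_contra hxK
  have hopen : IsOpen (connectedComponentIn Kᶜ x) := hK.isOpen_compl.connectedComponentIn
  have hopa : IsOpen (connectedComponentIn Kᶜ a) := hK.isOpen_compl.connectedComponentIn
  have hxm : x ∈ connectedComponentIn Kᶜ x := mem_connectedComponentIn hxK
  obtain ⟨y, hy1, hy2⟩ := mem_closure_iff.1 hx.1 _ hopen hxm
  have e1 := connectedComponentIn_eq hy1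
  have e2 := connectedComponentIn_eq hy2
  have hxa : x ∈ connectedComponentIn Kᶜ a := by
    rw [e2, ← e1]
    exact hxm
  rw [hopa.frontier_eq] at hx
  exact hx.2 hxa

theorem aux_glue {V : Set ℂ} (hV : IsOpen V) {f1 f2 : ℂ → ℂ} (h1 : ContinuousOn f1 (closure V))
    (h2 : ContinuousOn f2 Vᶜ) (h12 : ∀ z ∈ frontier V, f1 z = f2 z) (n1 : ∀ z ∈ V, f1 z ≠ 0)
    (n2 : ∀ z, z ∉ V → f2 z ≠ 0) {r : ℝ} {a b : ℂ} {m n : ℤ} (hr : 0 < r) (ha : ‖a‖ < r)
    (hb : ‖b‖ < r) (hVr : V ⊆ ball 0 r)
    (hc : ∀ z : ℂ, z ∉ V → f2 z = (z - a) ^ m * (z - b) ^ n) : m + n = 0 := by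
  classical
  have hcont : Continuous fun z => if z ∈ V then f1 z else f2 z := by
    refine continuous_if (p := fun z => z ∈ V) h12 h1 ?_
    have : closure {x | x ∉ V} = Vᶜ := hV.isClosed_compl.closure_eq
    rw [this]
    exact h2
  refine deg0 (H := fun z => if z ∈ V then f1 z else f2 z) hr ha hb hcont.continuousOn ?_ ?_
  · intro z _
    by_cases hz : z ∈ V
    · simp only [hz, if_true]
      exact n1 z hz
    · simp only [hz, if_false]
      exact n2 z hz
  · intro z hz
    have hzV : z ∉ V := by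
      intro h
      have := hVr h
      rw [mem_ball_zero_iff] at this
      linarith
    simp only [hzV, if_false]
    exact hc z hzV

theorem eilen1 {K : Set ℂ} (hK : IsCompact K) {a : ℂ} (ha : a ∉ K)
    (hba : Bornology.IsBounded (connectedComponentIn Kᶜ a)) {m : ℤ} {g : ℂ → ℂ}
    (hg : ContinuousOn g K) (he : ∀ z ∈ K, exp (g z) = (z - a) ^ m) : m = 0 := by
  obtain ⟨g1, hg1, hgg⟩ := aux_tietze hK.isClosed hg
  have hopa : IsOpen (connectedComponentIn Kᶜ a) := hK.isClosed.isOpen_compl.connectedComponentIn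
  have haV : a ∈ connectedComponentIn Kᶜ a := mem_connectedComponentIn ha
  obtain ⟨r, hr, hVr⟩ := hba.subset_ball_lt 0 0
  have har : ‖a‖ < r := by simpa using hVr haV
  have hne : ∀ z, z ∉ connectedComponentIn Kᶜ a → z - a ≠ 0 := by
    intro z hz h
    rw [sub_eq_zero] at h
    rw [h] at hz
    exact hz haV
  have := aux_glue (f1 := fun z => exp (g1 z)) (f2 := fun z => (z - a) ^ m) (n := 0) (m := m)
    (a := a) (b := a) hopa (hg1.cexp.continuousOn)
    (ContinuousOn.zpow₀ (by fun_prop) m fun z hz => Or.inl (hne z hz))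
    (fun z hz => by
      have hzK := aux_frontier hK.isClosed a hz
      simp only [hgg z hzK, he z hzK]) (fun z _ => exp_ne_zero _)
    (fun z hz => zpow_ne_zero _ (hne z hz)) hr har har hVr (fun z _ => by simp)
  simpa using this

theorem eilen2 {K : Set ℂ} (hK : IsCompact K) {a b : ℂ} (ha : a ∉ K) (hb : b ∉ K)
    (hba : Bornology.IsBounded (connectedComponentIn Kᶜ a))
    (hbb : Bornology.IsBounded (connectedComponentIn Kᶜ b))
    (hab : b ∉ connectedComponentIn Kᶜ a) {m n : ℤ} {g : ℂ → ℂ}
    (hg : ContinuousOn g K) (he : ∀ z ∈ K, exp (g z) = (z - a) ^ m * (z - b) ^ n) :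
    m = 0 ∧ n = 0 := by
  obtain ⟨g1, hg1, hgg⟩ := aux_tietze hK.isClosed hg
  have hopa : IsOpen (connectedComponentIn Kᶜ a) := hK.isClosed.isOpen_compl.connectedComponentIn
  have hopb : IsOpen (connectedComponentIn Kᶜ b) := hK.isClosed.isOpen_compl.connectedComponentIn
  have haV : a ∈ connectedComponentIn Kᶜ a := mem_connectedComponentIn ha
  have hbV : b ∈ connectedComponentIn Kᶜ b := mem_connectedComponentIn hb
  have haVb : a ∉ connectedComponentIn Kᶜ b := by
    intro h
    have := connectedComponentIn_eq h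
    rw [this] at hbV
    exact hab hbV
  obtain ⟨r, hr, hVr⟩ := (hba.union hbb).subset_ball_lt 0 0
  have har : ‖a‖ < r := by simpa using hVr (Or.inl haV)
  have hbr : ‖b‖ < r := by simpa using hVr (Or.inr hbV)
  have hnea : ∀ z, z ∉ connectedComponentIn Kᶜ a → z - a ≠ 0 := by
    intro z hz h
    rw [sub_eq_zero] at h
    rw [h] at hz
    exact hz haV
  have hneb : ∀ z, z ∉ connectedComponentIn Kᶜ b → z - b ≠ 0 := by
    intro z hz h
    rw [sub_eq_zero] at h
    rw [h] at hz
    exact hz hbV
  have hneaK : ∀ z ∈ K, z - a ≠ 0 := by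
    intro z hz h
    rw [sub_eq_zero] at h
    rw [h] at hz
    exact ha hz
  -- first map
  have h1 : m + n = 0 := by
    refine aux_glue (V := connectedComponentIn Kᶜ a ∪ connectedComponentIn Kᶜ b)
      (f1 := fun z => exp (g1 z)) (f2 := fun z => (z - a) ^ m * (z - b) ^ n)
      (hopa.union hopb) (hg1.cexp.continuousOn) ?_ ?_ (fun z _ => exp_ne_zero _) ?_ hr har hbr hVr
      (fun z _ => rfl)
    · refine ContinuousOn.mul (ContinuousOn.zpow₀ (by fun_prop) m fun z hz => Or.inl ?_)
        (ContinuousOn.zpow₀ (by fun_prop) n fun z hz => Or.inl ?_)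
      · exact hnea z fun h => hz (Or.inl h)
      · exact hneb z fun h => hz (Or.inr h)
    · intro z hz
      have hzK : z ∈ K := by
        rcases frontier_union_subset _ _ hz with h | h
        · exact aux_frontier hK.isClosed a h.1
        · exact aux_frontier hK.isClosed b h.2
      simp only [hgg z hzK, he z hzK]
    · intro z hz
      exact mul_ne_zero (zpow_ne_zero _ (hnea z fun h => hz (Or.inl h)))
        (zpow_ne_zero _ (hneb z fun h => hz (Or.inr h)))
  -- second map
  have hcl : ∀ z ∈ closure (connectedComponentIn Kᶜ b), z - a ≠ 0 := by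
    intro z hz
    by_cases h : z ∈ connectedComponentIn Kᶜ b
    · intro h'
      rw [sub_eq_zero] at h'
      rw [h'] at h
      exact haVb h
    · have : z ∈ frontier (connectedComponentIn Kᶜ b) := by
        rw [hopb.frontier_eq]
        exact ⟨hz, h⟩
      exact hneaK z (aux_frontier hK.isClosed b this)
  have h2 : (0 : ℤ) + n = 0 := by
    refine aux_glue (V := connectedComponentIn Kᶜ b) (a := a) (b := b) (m := 0) (n := n)
      (f1 := fun z => exp (g1 z) / (z - a) ^ m) (f2 := fun z => (z - b) ^ n)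
      hopb ?_ ?_ ?_ (fun z hz => ?_) ?_ hr har hbr (fun z hz => hVr (Or.inr hz))
      (fun z _ => by simp)
    · refine ContinuousOn.div (hg1.cexp.continuousOn)
        (ContinuousOn.zpow₀ (by fun_prop) m fun z hz => Or.inl (hcl z hz))
        (fun z hz => zpow_ne_zero _ (hcl z hz))
    · exact ContinuousOn.zpow₀ (by fun_prop) n fun z hz => Or.inl (hneb z hz)
    · intro z hz
      have hzK := aux_frontier hK.isClosed b hz
      have hne := zpow_ne_zero m (hneaK z hzK)
      simp only [hgg z hzK, he z hzK]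
      field_simp
    · exact div_ne_zero (exp_ne_zero _) (zpow_ne_zero _ (hcl z (subset_closure hz)))
    · intro z hz
      exact zpow_ne_zero _ (hneb z hz)
  constructor <;> omega


end Pool.Agent.Helper265.Br
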