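import Mathlib

set_option autoImplicit false
open Complex Set Filter Metric Topology MeasureTheory
open scoped ENNReal

namespace Pool.Agent.Helper265.Br

/-- exteriors of discs are connected -/
theorem ext_conn {R : ℝ} (hR : 0 < R) : IsPreconnected {z : ℂ | R < ‖z‖} := by
  have h1 : {z : ℂ | R < ‖z‖} = exp '' {ζ : ℂ | Real.log R < ζ.re} := by
    ext z
    constructor
    · intro (hz : R < ‖z‖)
      have hz0 : z ≠ 0 := by
        rintro rfl
        rw [norm_zero] at hz
        linarith
      refine ⟨Complex.log z, ?_, Complex.exp_log hz0⟩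
      show Real.log R < (Complex.log z).re
      rw [Complex.log_re]
      exact Real.log_lt_log hR hz
    · rintro ⟨ζ, hζ, rfl⟩
      show R < ‖exp ζ‖
      rw [Complex.norm_exp]
      exact (Real.log_lt_iff_lt_exp hR).1 hζ
  rw [h1]
  exact ((convex_halfSpace_re_gt _).isPreconnected).image _ Complex.continuous_exp.continuousOn


end Pool.Agent.Helper265.Br
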