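import Mathlib
import Pool.Agent.Helper265.JcA
import Pool.Agent.Helper265.JcC
import Pool.Agent.Helper265.JcZ

set_option autoImplicit false
open Complex Set Filter Metric Topology MeasureTheory
open scoped ENNReal

namespace Pool.Agent.Helper265.Br

theorem unb_eq {K : Set ℂ} (hK : IsCompact K) {a b : ℂ} (ha : a ∉ K) (hb : b ∉ K)
    (hua : ¬ Bornology.IsBounded (connectedComponentIn Kᶜ a))
    (hub : ¬ Bornology.IsBounded (connectedComponentIn Kᶜ b)) :
    connectedComponentIn Kᶜ a = connectedComponentIn Kᶜ b := by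
  obtain ⟨R, hR, hKR⟩ := hK.isBounded.subset_closedBall_lt 0 0
  have hX : {z : ℂ | R < ‖z‖} ⊆ Kᶜ := by
    intro z hz hzK
    have := hKR hzK
    rw [mem_closedBall_zero_iff] at this
    exact absurd hz (not_lt.2 this)
  have key : ∀ c : ℂ, ¬ Bornology.IsBounded (connectedComponentIn Kᶜ c) →
      {z : ℂ | R < ‖z‖} ⊆ connectedComponentIn Kᶜ c := by
    intro c hc
    have h1 : ∃ w ∈ connectedComponentIn Kᶜ c, R < ‖w‖ := by
      by_contra hcon
      push Not at hcon
      apply hc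
      refine (isBounded_closedBall (x := (0 : ℂ)) (r := R)).subset ?_
      intro w hw
      rw [mem_closedBall_zero_iff]
      exact hcon w hw
    obtain ⟨w, hw, hwR⟩ := h1
    rw [connectedComponentIn_eq hw]
    exact (ext_conn hR).subset_connectedComponentIn hwR hX
  have hw : ((R + 1 : ℝ) : ℂ) ∈ {z : ℂ | R < ‖z‖} := by
    show R < ‖((R + 1 : ℝ) : ℂ)‖
    rw [Complex.norm_real, Real.norm_eq_abs, abs_of_pos (by linarith)]
    linarith
  rw [connectedComponentIn_eq (key a hua hw), connectedComponentIn_eq (key b hub hw)]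

theorem unb_ex {K : Set ℂ} (hK : IsCompact K) :
    ∃ a, a ∉ K ∧ ¬ Bornology.IsBounded (connectedComponentIn Kᶜ a) := by
  obtain ⟨R, hR, hKR⟩ := hK.isBounded.subset_closedBall_lt 0 0
  have hX : {z : ℂ | R < ‖z‖} ⊆ Kᶜ := by
    intro z hz hzK
    have := hKR hzK
    rw [mem_closedBall_zero_iff] at this
    exact absurd hz (not_lt.2 this)
  have hw : ((R + 1 : ℝ) : ℂ) ∈ {z : ℂ | R < ‖z‖} := by
    show R < ‖((R + 1 : ℝ) : ℂ)‖
    rw [Complex.norm_real, Real.norm_eq_abs, abs_of_pos (by linarith)]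
    linarith
  refine ⟨((R + 1 : ℝ) : ℂ), hX hw, ?_⟩
  intro hb
  have hsub := (ext_conn hR).subset_connectedComponentIn hw hX
  obtain ⟨M, hM⟩ := (hb.subset hsub).exists_norm_le
  have h1 := hM ((max R M + 1 : ℝ) : ℂ) (by
    show R < ‖((max R M + 1 : ℝ) : ℂ)‖
    have h2 := le_max_left R M
    rw [Complex.norm_real, Real.norm_eq_abs, abs_of_pos (by linarith)]
    linarith)
  have h2 := le_max_left R M
  have h3 := le_max_right R M
  rw [Complex.norm_real, Real.norm_eq_abs, abs_of_pos (by linarith)] at h1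
  linarith

theorem inv_cont {γ : ℝ → ℂ} {c : ℝ} (hγ : ContinuousOn γ (Icc 0 c))
    (hi : InjOn γ (Icc 0 c)) : ContinuousOn (Function.invFunOn γ (Icc 0 c)) (γ '' Icc 0 c) := by
  have hσ : ∀ t ∈ Icc 0 c, Function.invFunOn γ (Icc 0 c) (γ t) = t := fun t ht =>
    hi.leftInvOn_invFunOn ht
  rw [continuousOn_iff_isClosed]
  intro t ht
  refine ⟨γ '' (Icc 0 c ∩ t), ?_, ?_⟩
  · exact ((isCompact_Icc.inter_right ht).image_of_continuousOn
      (hγ.mono inter_subset_left)).isClosed
  · ext z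
    constructor
    · rintro ⟨h1, s, hs, rfl⟩
      rw [mem_preimage, hσ s hs] at h1
      exact ⟨⟨s, ⟨hs, h1⟩, rfl⟩, s, hs, rfl⟩
    · rintro ⟨⟨s, ⟨hs, hst⟩, rfl⟩, h2⟩
      refine ⟨?_, h2⟩
      rw [mem_preimage, hσ s hs]
      exact hst

theorem arc_conn {γ : ℝ → ℂ} {c : ℝ} (hc : 0 ≤ c) (hγ : ContinuousOn γ (Icc 0 c))
    (hi : InjOn γ (Icc 0 c)) : IsConnected (γ '' Icc 0 c)ᶜ := by
  have hK : IsCompact (γ '' Icc 0 c) := isCompact_Icc.image_of_continuousOn hγ
  have hunb : ∀ a, a ∉ γ '' Icc 0 c →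
      ¬ Bornology.IsBounded (connectedComponentIn (γ '' Icc 0 c)ᶜ a) := by
    intro a ha hb
    obtain ⟨g0, hg0, hg0'⟩ := log_star (E := ℝ) (f := fun t => γ t - a) (K := Icc 0 c)
      isCompact_Icc ((convex_Icc 0 c).starConvex ⟨le_rfl, hc⟩)
      (hγ.sub continuousOn_const) (by
        intro t ht h0
        apply ha
        refine ⟨t, ht, ?_⟩
        exact sub_eq_zero.1 h0)
    have h1 := eilen1 hK ha hb (m := 1) (g := fun z => g0 (Function.invFunOn γ (Icc 0 c) z)) (by
      apply hg0.comp (inv_cont hγ hi)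
      intro z hz
      exact Function.invFunOn_mem hz) (by
      intro z hz
      rw [hg0' _ (Function.invFunOn_mem hz), Function.invFunOn_eq hz, zpow_one])
    exact one_ne_zero h1
  obtain ⟨a, ha, hua⟩ := unb_ex hK
  have e : (γ '' Icc 0 c)ᶜ = connectedComponentIn (γ '' Icc 0 c)ᶜ a := by
    apply Subset.antisymm
    · intro b hb
      rw [unb_eq hK ha hb hua (hunb b hb)]
      exact mem_connectedComponentIn hb
    · exact connectedComponentIn_subset _ _
  rw [e]
  exact isConnected_connectedComponentIn_iff.2 ha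


end Pool.Agent.Helper265.Br
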