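import Mathlib
import Pool.Agent.Helper265.JcA
import Pool.Agent.Helper265.JcC

set_option autoImplicit false
open Complex Set Filter Metric Topology MeasureTheory
open scoped ENNReal

namespace Pool.Agent.Helper265.Br

theorem jordan_one {γ : Circle → ℂ} (hγ : Continuous γ) (hi : Function.Injective γ) {a b : ℂ}
    (ha : a ∉ range γ) (hb : b ∉ range γ)
    (hba : Bornology.IsBounded (connectedComponentIn (range γ)ᶜ a))
    (hbb : Bornology.IsBounded (connectedComponentIn (range γ)ᶜ b)) :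
    b ∈ connectedComponentIn (range γ)ᶜ a := by
  by_contra hab
  have hpi : 0 < 2 * Real.pi := by positivity
  set K : Set ℂ := range γ with hKdef
  have hK : IsCompact K := isCompact_range hγ
  set p : ℝ → ℂ := fun t => γ (Circle.exp t) with hp
  have hpc : Continuous p := hγ.comp Circle.exp.continuous
  set J : Set ℝ := Icc 0 (2 * Real.pi) with hJ
  have h0J : (0 : ℝ) ∈ J := ⟨le_rfl, hpi.le⟩
  have h1J : 2 * Real.pi ∈ J := ⟨hpi.le, le_rfl⟩
  have hper : p (2 * Real.pi) = p 0 := by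
    simp only [hp]
    rw [Circle.exp_two_pi, Circle.exp_zero]
  have hstar : StarConvex ℝ 0 J := (convex_Icc _ _).starConvex h0J
  have hpK : ∀ t, p t ∈ K := fun t => ⟨_, rfl⟩
  obtain ⟨g1, hg1c, hg1⟩ := log_star (f := fun t => p t - a) isCompact_Icc hstar
    ((hpc.sub continuous_const).continuousOn) (fun t _ h0 => ha (by
      rw [sub_eq_zero] at h0
      rw [← h0]; exact hpK t))
  obtain ⟨g2, hg2c, hg2⟩ := log_star (f := fun t => p t - b) isCompact_Icc hstar
    ((hpc.sub continuous_const).continuousOn) (fun t _ h0 => hb (by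
      rw [sub_eq_zero] at h0
      rw [← h0]; exact hpK t))
  obtain ⟨n1, hn1⟩ : ∃ n1 : ℤ, g1 (2 * Real.pi) = g1 0 + n1 * (2 * Real.pi * I) := by
    rw [← Complex.exp_eq_exp_iff_exists_int, hg1 _ h1J, hg1 _ h0J, hper]
  obtain ⟨n2, hn2⟩ : ∃ n2 : ℤ, g2 (2 * Real.pi) = g2 0 + n2 * (2 * Real.pi * I) := by
    rw [← Complex.exp_eq_exp_iff_exists_int, hg2 _ h1J, hg2 _ h0J, hper]
  obtain ⟨m, n, hmn, hmn0⟩ : ∃ m n : ℤ, ¬ (m = 0 ∧ n = 0) ∧ m * n1 + n * n2 = 0 := by
    by_cases h : n1 = 0 ∧ n2 = 0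
    · exact ⟨1, 0, by simp, by rw [h.1, h.2]; ring⟩
    · refine ⟨n2, -n1, ?_, by ring⟩
      rintro ⟨h2, h3⟩
      exact h ⟨by omega, h2⟩
  set g0 : ℝ → ℂ := fun t => m * g1 t + n * g2 t with hg0
  have hg0c : ContinuousOn g0 J := (continuousOn_const.mul hg1c).add (continuousOn_const.mul hg2c)
  have hg0per : g0 (2 * Real.pi) = g0 0 := by
    simp only [hg0]
    rw [hn1, hn2]
    have : ((m * n1 + n * n2 : ℤ) : ℂ) = 0 := by rw [hmn0]; simp
    push_cast at this
    linear_combination (2 * Real.pi * I) * this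
  have hfac : ∀ s ∈ J, ∀ t ∈ J, p s = p t → g0 s = g0 t := by
    intro s hs t ht hst
    have h1 := hi hst
    obtain ⟨k, hk⟩ := Circle.exp_eq_exp.1 h1
    have hs1 := hs.1
    have hs2 := hs.2
    have ht1 := ht.1
    have ht2 := ht.2
    have hk1 : (k : ℝ) ≤ 1 := by
      by_contra h2
      push Not at h2
      nlinarith
    have hk2 : (-1 : ℝ) ≤ k := by
      by_contra h2
      push Not at h2
      nlinarith
    have hk1' : k ≤ 1 := by exact_mod_cast hk1
    have hk2' : -1 ≤ k := by exact_mod_cast hk2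
    have hk3 : k = -1 ∨ k = 0 ∨ k = 1 := by omega
    rcases hk3 with rfl | rfl | rfl
    · push_cast at hk
      have e1 : t = 2 * Real.pi := by linarith
      have e2 : s = 0 := by linarith
      rw [e1, e2, hg0per]
    · push_cast at hk
      have e1 : s = t := by linarith
      rw [e1]
    · push_cast at hk
      have e1 : t = 0 := by linarith
      have e2 : s = 2 * Real.pi := by linarith
      rw [e1, e2, hg0per]
  have hsurj : ∀ z ∈ K, ∃ t, t ∈ J ∧ p t = z := by
    rintro z ⟨c, rfl⟩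
    obtain ⟨t, ht, hte⟩ := Circle.periodic_exp.exists_mem_Ico₀ hpi (Complex.arg (c : ℂ))
    refine ⟨t, ⟨ht.1, ht.2.le⟩, ?_⟩
    simp only [hp]
    rw [← hte, Circle.exp_arg]
  classical
  set g : ℂ → ℂ := fun z => if h : ∃ t, t ∈ J ∧ p t = z then g0 h.choose else 0 with hg
  have hgp : ∀ t ∈ J, g (p t) = g0 t := by
    intro t ht
    have h : ∃ s, s ∈ J ∧ p s = p t := ⟨t, ht, rfl⟩
    simp only [hg]
    rw [dif_pos h]
    exact hfac _ h.choose_spec.1 _ ht h.choose_spec.2
  have hgc : ContinuousOn g K := by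
    rw [continuousOn_iff_isClosed]
    intro F hF
    refine ⟨p '' (J ∩ g0 ⁻¹' F), ?_, ?_⟩
    · apply IsCompact.isClosed
      apply IsCompact.image _ hpc
      exact isCompact_Icc.of_isClosed_subset (hg0c.preimage_isClosed_of_isClosed isClosed_Icc hF)
        inter_subset_left
    · ext z
      constructor
      · rintro ⟨hzF, hzK⟩
        obtain ⟨t, ht, rfl⟩ := hsurj z hzK
        refine ⟨⟨t, ⟨ht, ?_⟩, rfl⟩, hzK⟩
        change g (p t) ∈ F at hzF
        rw [hgp t ht] at hzF
        exact hzF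
      · rintro ⟨⟨t, ⟨ht, htF⟩, rfl⟩, hzK⟩
        refine ⟨?_, hzK⟩
        change g (p t) ∈ F
        rw [hgp t ht]
        exact htF
  refine hmn (eilen2 hK ha hb hba hbb hab hgc ?_)
  intro z hz
  obtain ⟨t, ht, rfl⟩ := hsurj z hz
  rw [hgp t ht]
  simp only [hg0]
  rw [Complex.exp_add, Complex.exp_int_mul, Complex.exp_int_mul, hg1 t ht, hg2 t ht]


end Pool.Agent.Helper265.Br
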