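import Mathlib
import Pool.Agent.Helper265.JcD
import Pool.Agent.Helper265.JcE

set_option autoImplicit false
open Complex Set Filter Metric Topology MeasureTheory
open scoped ENNReal

namespace Pool.Agent.Helper265.Br

theorem jordan_facts {D : Set ℂ} {γ : Circle → ℂ} (hγ : Continuous γ)
    (hi : Function.Injective γ) (hDo : IsOpen D) (hDc : IsConnected D)
    (hDb : Bornology.IsBounded D) (hfr : frontier D = range γ) :
    IsConnected (closure D)ᶜ ∧ ¬ Bornology.IsBounded (closure D)ᶜ ∧
      Dᶜ ⊆ closure ((closure D)ᶜ) := by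
  have hJc : IsCompact (range γ) := isCompact_range hγ
  have hfr' : range γ = closure D \ D := by rw [← hfr, hDo.frontier_eq]
  have hDJ : D ⊆ (range γ)ᶜ := by
    intro z hz hzJ
    rw [hfr'] at hzJ
    exact hzJ.2 hz
  set E : Set ℂ := (closure D)ᶜ with hE
  have hEo : IsOpen E := isClosed_closure.isOpen_compl
  have hEJ : E ⊆ (range γ)ᶜ := by
    intro z hz hzJ
    rw [hfr'] at hzJ
    exact hz hzJ.1
  have hDE : Disjoint D E := by
    rw [Set.disjoint_left]
    intro z hz hzE
    exact hzE (subset_closure hz)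
  have hcov : (range γ)ᶜ ⊆ D ∪ E := by
    intro z hz
    by_cases hzD : z ∈ D
    · exact Or.inl hzD
    · right
      intro hzc
      apply hz
      rw [hfr']
      exact ⟨hzc, hzD⟩
  obtain ⟨a, ha⟩ := hDc.nonempty
  have hcomp : ∀ z ∈ D, connectedComponentIn (range γ)ᶜ z = D := by
    intro z hz
    apply Subset.antisymm
    · apply IsPreconnected.subset_left_of_subset_union hDo hEo hDE
        ((connectedComponentIn_subset _ _).trans hcov)
        ⟨z, mem_connectedComponentIn (hDJ hz), hz⟩ isPreconnected_connectedComponentIn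
    · exact hDc.isPreconnected.subset_connectedComponentIn hz hDJ
  have hunb : ∀ z ∈ E, ¬ Bornology.IsBounded (connectedComponentIn (range γ)ᶜ z) := by
    intro z hz hb
    have h1 := jordan_one hγ hi (hDJ ha) (hEJ hz) (by rw [hcomp a ha]; exact hDb) hb
    rw [hcomp a ha] at h1
    exact hz (subset_closure h1)
  obtain ⟨e, heJ, heu⟩ := unb_ex hJc
  have heE : e ∈ E := by
    rcases hcov heJ with h | h
    · exfalso
      rw [hcomp e h] at heu
      exact heu hDb
    · exact h
  have hEeq : E = connectedComponentIn (range γ)ᶜ e := by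
    apply Subset.antisymm
    · intro z hz
      have h1 := unb_eq hJc heJ (hEJ hz) heu (hunb z hz)
      rw [h1]
      exact mem_connectedComponentIn (hEJ hz)
    · apply IsPreconnected.subset_right_of_subset_union hDo hEo hDE
        ((connectedComponentIn_subset _ _).trans hcov)
        ⟨e, mem_connectedComponentIn heJ, heE⟩ isPreconnected_connectedComponentIn
  refine ⟨⟨⟨e, heE⟩, ?_⟩, ?_, ?_⟩
  · rw [hEeq]; exact isPreconnected_connectedComponentIn
  · rw [hEeq]; exact heu
  · intro p hp
    by_cases hpc : p ∈ closure D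
    swap
    · exact subset_closure hpc
    have hpJ : p ∈ range γ := by rw [hfr']; exact ⟨hpc, hp⟩
    obtain ⟨t₀, rfl⟩ := hpJ
    by_contra hcl
    have hBo : IsOpen (closure E)ᶜ := isClosed_closure.isOpen_compl
    have hcont : Continuous (fun θ : ℝ => γ (t₀ * Circle.exp θ)) :=
      hγ.comp (continuous_const.mul Circle.exp.continuous)
    have hpre : (fun θ : ℝ => γ (t₀ * Circle.exp θ)) ⁻¹' (closure E)ᶜ ∈ 𝓝 (0:ℝ) := by
      apply hcont.continuousAt.preimage_mem_nhds
      apply hBo.mem_nhds
      show γ (t₀ * Circle.exp 0) ∈ (closure E)ᶜ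
      rw [Circle.exp_zero, mul_one]; exact hcl
    obtain ⟨ε, hε, hball⟩ := Metric.mem_nhds_iff.1 hpre
    set δ := min ε 1 with hδ
    have hδ0 : 0 < δ := lt_min hε one_pos
    have hδ1 : δ ≤ 1 := min_le_right _ _
    have hδε : δ ≤ ε := min_le_left _ _
    have hpi : 3 < Real.pi := Real.pi_gt_three
    have hA : ∀ θ : ℝ, |θ| < δ → γ (t₀ * Circle.exp θ) ∈ (closure E)ᶜ := by
      intro θ hθ
      apply hball
      rw [Metric.mem_ball, Real.dist_eq, sub_zero]
      exact hθ.trans_le hδε
    let γ' : ℝ → ℂ := fun s => γ (t₀ * Circle.exp (s + δ))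
    have hγ' : ContinuousOn γ' (Icc 0 (2 * Real.pi - 2 * δ)) :=
      (hcont.comp (continuous_id.add continuous_const)).continuousOn
    have hi' : InjOn γ' (Icc 0 (2 * Real.pi - 2 * δ)) := by
      intro s hs s' hs' hss
      have h1 := mul_left_cancel (hi hss)
      rw [Circle.exp_eq_exp] at h1
      obtain ⟨m, hm⟩ := h1
      have hm0 : m = 0 := by
        by_contra hne
        have h2 : (1:ℝ) ≤ |(m:ℝ)| := by
          have : (1:ℤ) ≤ |m| := Int.one_le_abs hne
          exact_mod_cast this
        have h3 : |s - s'| = |(m:ℝ)| * (2 * Real.pi) := by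
          have : s - s' = m * (2 * Real.pi) := by linarith
          rw [this, abs_mul, abs_of_pos (by positivity : (0:ℝ) < 2 * Real.pi)]
        have h4 : |s - s'| ≤ 2 * Real.pi - 2 * δ := by
          rw [abs_le]; constructor <;> linarith [hs.1, hs.2, hs'.1, hs'.2]
        nlinarith
      rw [hm0] at hm
      simp at hm
      exact hm
    have hconn := arc_conn (c := 2 * Real.pi - 2 * δ) (by linarith) hγ' hi'
    have hLJ : γ' '' Icc 0 (2 * Real.pi - 2 * δ) ⊆ range γ := by
      rintro _ ⟨s, -, rfl⟩; exact ⟨_, rfl⟩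
    have hsub : (γ' '' Icc 0 (2 * Real.pi - 2 * δ))ᶜ ⊆ E ∪ (closure E)ᶜ := by
      intro z hz
      by_cases hzJ : z ∈ range γ
      · right
        obtain ⟨t, rfl⟩ := hzJ
        set θ : ℝ := Complex.arg ((t₀⁻¹ * t : Circle) : ℂ) with hθ
        have ht : t = t₀ * Circle.exp θ := by
          rw [hθ, Circle.exp_arg]
          rw [mul_inv_cancel_left]
        have hθ1 : -Real.pi < θ := Complex.neg_pi_lt_arg _
        have hθ2 : θ ≤ Real.pi := Complex.arg_le_pi _
        by_cases habs : |θ| < δ
        · rw [ht]; exact hA θ habs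
        · exfalso
          apply hz
          push Not at habs
          rcases le_or_gt 0 θ with h0 | h0
          · rw [abs_of_nonneg h0] at habs
            refine ⟨θ - δ, ⟨by linarith, by linarith⟩, ?_⟩
            show γ (t₀ * Circle.exp (θ - δ + δ)) = γ t
            rw [sub_add_cancel, ← ht]
          · rw [abs_of_neg h0] at habs
            refine ⟨θ + 2 * Real.pi - δ, ⟨by linarith, by linarith⟩, ?_⟩
            show γ (t₀ * Circle.exp (θ + 2 * Real.pi - δ + δ)) = γ t
            rw [sub_add_cancel, Circle.exp_add, Circle.exp_two_pi, mul_one, ← ht]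
      · rcases hcov hzJ with h | h
        · right
          intro hzE
          exact (Set.disjoint_left.1 (hDE.closure_right hDo)) h hzE
        · exact Or.inl h
    have hdis : Disjoint E (closure E)ᶜ := by
      rw [Set.disjoint_left]
      intro z hz hz2
      exact hz2 (subset_closure hz)
    have hfin : (γ' '' Icc 0 (2 * Real.pi - 2 * δ))ᶜ ⊆ E :=
      IsPreconnected.subset_left_of_subset_union hEo hBo hdis hsub
        ⟨e, fun h => heJ (hLJ h), heE⟩ hconn.isPreconnected
    have := hfin (fun h => hDJ ha (hLJ h))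
    exact this (subset_closure ha)


end Pool.Agent.Helper265.Br
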