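import Mathlib

set_option autoImplicit false
open Complex Set Filter Metric Topology MeasureTheory

namespace Pool.Agent.Helper265.Osg

/-- the power series with coefficients `a` -/
noncomputable def ev (a : ℕ → ℂ) (z : ℂ) : ℂ := ∑' n, a n * z ^ n

/-- coefficient sequences of injective functions, analytic beyond the closed disc -/
structure Nice (a : ℕ → ℂ) : Prop where
  zero : a 0 = 0
  one : a 1 ≠ 0
  sum : ∃ R : ℝ, 1 < R ∧ Summable (fun n => ‖a n‖ * R ^ n)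
  inj : InjOn (ev a) (ball 0 1)

noncomputable def D1 (a : ℕ → ℂ) : ℝ := ∑' n : ℕ, (n : ℝ) * ‖a n‖

noncomputable def SS (a : ℕ → ℂ) : ℝ := ∑' n : ℕ, (n : ℝ) * ‖a n‖ ^ 2

noncomputable def low (a : ℕ → ℂ) (δ : ℝ) : ℝ :=
  ∑' n : ℕ, (n : ℝ) * ‖a n‖ ^ 2 * Real.exp (-(2 * n * δ))

/-- one step of the construction -/
def StepProp (η C : ℝ) : Prop :=
  ∀ a : ℕ → ℂ, Nice a → ∀ δ : ℝ, 0 < δ → ∀ ε : ℝ, 0 < ε → ∃ (a' : ℕ → ℂ) (δ' : ℝ),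
    Nice a' ∧ 0 < δ' ∧ δ' ≤ ε ∧ δ' * D1 a' ≤ ε ∧
    (∑' n, ‖a' n - a n‖) ≤ C * (δ * D1 a) ∧
    ev a' '' ball 0 1 ⊆ ev a '' ball 0 1 ∧
    Real.exp (-(δ + ε)) * ‖a 1‖ ≤ ‖a' 1‖ ∧
    SS a - (6 * η * SS a + ε) ≤ SS a' ∧
    low a' δ' ≤ low a δ + (6 * η * SS a + ε)

end Pool.Agent.Helper265.Osg
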