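import Mathlib
import Pool.Agent.Helper265.OsgDefs
import Pool.Agent.Helper509.Polar

set_option autoImplicit false
open Complex Set Filter Metric Topology MeasureTheory

namespace Pool.Agent.Helper265.Osg

theorem det_restrict (c : ℂ) :
    |((ContinuousLinearMap.toSpanSingleton ℂ c).restrictScalars ℝ).det| = ‖c‖ ^ 2 := by
  simp [ContinuousLinearMap.det, LinearMap.det_restrictScalars, Algebra.norm_complex_eq,
    Complex.normSq_eq_norm_sq]

/-- area formula, equality for injective holomorphic maps -/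
theorem vol_image_eq {φ : ℂ → ℂ} {U S : Set ℂ} (hU : IsOpen U) (hφ : DifferentiableOn ℂ φ U)
    (hS : MeasurableSet S) (hSU : S ⊆ U) (hi : InjOn φ S) :
    volume (φ '' S) = ∫⁻ z in S, ENNReal.ofReal (‖deriv φ z‖ ^ 2) := by
  have h := lintegral_abs_det_fderiv_eq_addHaar_image (f := φ) volume hS
    (f' := fun x => (ContinuousLinearMap.toSpanSingleton ℂ (deriv φ x)).restrictScalars ℝ)
    (fun x hx => (((hφ.differentiableAt (hU.mem_nhds (hSU hx))).hasDerivAt).hasFDerivAt.restrictScalars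
      ℝ).hasFDerivWithinAt) hi
  simpa only [det_restrict] using h.symm

theorem parseval_poly (a : ℕ → ℂ) (r : ℝ) (N : ℕ) :
    (2 * Real.pi)⁻¹ * ∫ t in (0 : ℝ)..(2 * Real.pi), ‖∑ n ∈ Finset.range N, a n * (circleMap 0 r t) ^ n‖ ^ 2 =
      ∑ n ∈ Finset.range N, ‖a n * r ^ n‖ ^ 2 := by
  classical
  set p : Polynomial ℂ := ∑ n ∈ Finset.range N, Polynomial.monomial n (a n * r ^ n) with hp
  have hc : ∀ i, p.coeff i = if i < N then a i * r ^ i else 0 := by
    intro i
    rw [hp, Polynomial.finsetSum_coeff]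
    simp only [Polynomial.coeff_monomial]
    rw [Finset.sum_ite_eq' (Finset.range N) i (fun n => a n * (r : ℂ) ^ n)]
    simp
  have h := Polynomial.sum_sq_norm_coeff_eq_circleAverage p
  have h1 : ∑ i ∈ p.support, ‖p.coeff i‖ ^ 2 = ∑ n ∈ Finset.range N, ‖a n * r ^ n‖ ^ 2 := by
    have : ∑ i ∈ p.support, ‖p.coeff i‖ ^ 2 = ∑ i ∈ Finset.range N, ‖p.coeff i‖ ^ 2 := by
      refine Finset.sum_subset ?_ ?_
      · intro i hi
        rw [Polynomial.mem_support_iff, hc] at hi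
        by_contra h'
        rw [Finset.mem_range] at h'
        simp [h'] at hi
      · intro i _ hi
        rw [Polynomial.notMem_support_iff] at hi
        simp [hi]
    rw [this]
    refine Finset.sum_congr rfl fun i hi => ?_
    rw [hc, if_pos (Finset.mem_range.1 hi)]
  rw [← h1, h, Real.circleAverage, smul_eq_mul]
  congr 1
  refine intervalIntegral.integral_congr fun t _ => ?_
  congr 2
  rw [hp, Polynomial.eval_finsetSum]
  refine Finset.sum_congr rfl fun n _ => ?_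
  simp only [Polynomial.eval_monomial, circleMap, zero_add, ofReal_one, one_mul, mul_pow]
  ring

theorem ev_circ_cont {c : ℕ → ℂ} {r : ℝ} (hr : 0 ≤ r) (hs : Summable (fun n => ‖c n‖ * r ^ n)) :
    Continuous (fun t : ℝ => ev c (circleMap 0 r t)) := by
  unfold ev
  apply continuous_tsum (u := fun n => ‖c n‖ * r ^ n)
  · intro n
    exact continuous_const.mul ((continuous_circleMap 0 r).pow n)
  · exact hs
  · intro n t
    rw [norm_mul, norm_pow, norm_circleMap_zero, abs_of_nonneg hr]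

theorem circ_hasSum {c : ℕ → ℂ} {r : ℝ} (hr : 0 ≤ r) (hs : Summable (fun n => ‖c n‖ * r ^ n)) :
    HasSum (fun n => ‖c n‖ ^ 2 * r ^ (2 * n))
      ((2 * Real.pi)⁻¹ * ∫ t in (0 : ℝ)..(2 * Real.pi), ‖ev c (circleMap 0 r t)‖ ^ 2) := by
  have hsum : ∀ z : ℂ, ‖z‖ = r → Summable fun n => c n * z ^ n := fun z hz => by
    refine Summable.of_norm_bounded hs fun n => ?_
    rw [norm_mul, norm_pow, hz]
  have hn : ∀ t : ℝ, ‖circleMap 0 r t‖ = r := fun t => by
    rw [norm_circleMap_zero, abs_of_nonneg hr]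
  have hT : Tendsto (fun N : ℕ => (2 * Real.pi)⁻¹ * ∫ t in (0 : ℝ)..(2 * Real.pi),
      ‖∑ n ∈ Finset.range N, c n * (circleMap 0 r t) ^ n‖ ^ 2) atTop
      (𝓝 ((2 * Real.pi)⁻¹ * ∫ t in (0 : ℝ)..(2 * Real.pi), ‖ev c (circleMap 0 r t)‖ ^ 2)) := by
    refine Tendsto.const_mul _ ?_
    refine intervalIntegral.tendsto_integral_filter_of_dominated_convergence
      (fun _ => (∑' n, ‖c n‖ * r ^ n) ^ 2) ?_ ?_ ?_ ?_
    · refine Eventually.of_forall fun N => ?_
      apply Continuous.aestronglyMeasurable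
      have := continuous_circleMap 0 r
      fun_prop
    · refine Eventually.of_forall fun N => Eventually.of_forall fun t _ => ?_
      rw [Real.norm_of_nonneg (by positivity)]
      refine pow_le_pow_left₀ (norm_nonneg _) ?_ 2
      refine (norm_sum_le _ _).trans ?_
      have : ∀ n, ‖c n * (circleMap 0 r t) ^ n‖ = ‖c n‖ * r ^ n := fun n => by
        rw [norm_mul, norm_pow, hn]
      simp only [this]
      exact hs.sum_le_tsum _ (fun n _ => by positivity)
    · exact intervalIntegrable_const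
    · refine Eventually.of_forall fun t _ => ?_
      exact ((hsum _ (hn t)).hasSum.tendsto_sum_nat.norm).pow 2
  simp only [parseval_poly] at hT
  have hs2 : Summable fun n => ‖c n‖ ^ 2 * r ^ (2 * n) := by
    have h2 : Summable fun n => (‖c n‖ * r ^ n) ^ 2 := by
      obtain ⟨C, hC⟩ := hs.tendsto_atTop_zero.bddAbove_range
      refine Summable.of_nonneg_of_le (fun n => by positivity) (fun n => ?_) (hs.mul_left C)
      rw [sq]
      exact mul_le_mul_of_nonneg_right (hC ⟨n, rfl⟩) (by positivity)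
    refine h2.congr fun n => ?_
    rw [mul_pow, ← pow_mul, mul_comm n 2]
  have e : ∀ n, ‖c n * (r : ℂ) ^ n‖ ^ 2 = ‖c n‖ ^ 2 * r ^ (2 * n) := fun n => by
    rw [norm_mul, norm_pow, Complex.norm_real, Real.norm_of_nonneg hr, mul_pow, ← pow_mul,
      mul_comm n 2]
  simp only [e] at hT
  have h3 := hs2.hasSum.tendsto_sum_nat
  rw [tendsto_nhds_unique hT h3]
  exact hs2.hasSum

theorem circ_lintegral {c : ℕ → ℂ} {r : ℝ} (hr : 0 ≤ r) (hs : Summable (fun n => ‖c n‖ * r ^ n)) :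
    ∫⁻ θ in Ioo (-Real.pi) Real.pi, ENNReal.ofReal (‖ev c (circleMap 0 r θ)‖ ^ 2) =
      ∑' n, ENNReal.ofReal (2 * Real.pi * (‖c n‖ ^ 2 * r ^ (2 * n))) := by
  have hpi := Real.pi_pos
  have hcont : Continuous (fun t : ℝ => ‖ev c (circleMap 0 r t)‖ ^ 2) :=
    (ev_circ_cont hr hs).norm.pow 2
  have h1 := circ_hasSum hr hs
  have hper : Function.Periodic (fun t : ℝ => ‖ev c (circleMap 0 r t)‖ ^ 2) (2 * Real.pi) := by
    intro t
    show ‖ev c (circleMap 0 r (t + 2 * Real.pi))‖ ^ 2 = _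
    rw [periodic_circleMap 0 r t]
  have h2 := hper.intervalIntegral_add_eq (-Real.pi) 0
  rw [zero_add, show -Real.pi + 2 * Real.pi = Real.pi by ring] at h2
  rw [← ENNReal.ofReal_tsum_of_nonneg (fun n => by positivity) (h1.summable.mul_left _), tsum_mul_left,
    h1.tsum_eq, ← h2, mul_inv_cancel_left₀ (by positivity), intervalIntegral.integral_of_le (by linarith),
    integral_Ioc_eq_integral_Ioo, ofReal_integral_eq_lintegral_ofReal]
  · exact (hcont.integrableOn_Icc (a := -Real.pi) (b := Real.pi)).mono_set Ioo_subset_Icc_self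
  · exact Eventually.of_forall fun t => by positivity

theorem ofReal_pow_lintegral (n : ℕ) {ρ : ℝ} (hρ : 0 ≤ ρ) :
    ∫⁻ r in Ioo (0 : ℝ) ρ, ENNReal.ofReal (r ^ (2 * n + 1)) = ENNReal.ofReal (ρ ^ (2 * n + 2) / (2 * n + 2)) := by
  rw [restrict_Ioo_eq_restrict_Ioc, ← ofReal_integral_eq_lintegral_ofReal]
  · rw [← intervalIntegral.integral_of_le hρ, integral_pow]
    congr 1
    push_cast
    ring
  · exact (Continuous.integrableOn_Icc (by fun_prop)).mono_set Ioc_subset_Icc_self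
  · filter_upwards [ae_restrict_mem measurableSet_Ioc] with x hx
    have := hx.1.le
    positivity

theorem ev_sq_lintegral {c : ℕ → ℂ} (hs : ∀ r : ℝ, 0 ≤ r → r < 1 → Summable (fun n => ‖c n‖ * r ^ n))
    {ρ : ℝ} (hρ : 0 ≤ ρ) (hρ1 : ρ ≤ 1) {f : ℂ → ℂ} (hf : ContinuousOn f (ball 0 1))
    (hfe : ∀ z ∈ ball (0 : ℂ) 1, f z = ev c z) :
    ∫⁻ z in ball (0 : ℂ) ρ, ENNReal.ofReal (‖f z‖ ^ 2) =
      ∑' n : ℕ, ENNReal.ofReal (Real.pi * (‖c n‖ ^ 2 * ρ ^ (2 * n + 2) / (n + 1))) := by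
  have hpi := Real.pi_pos
  rw [Pool.Agent.Helper509.Polar.lintegral_ball, Measure.volume_eq_prod, setLIntegral_prod]
  · have h1 : ∀ r ∈ Ioo (0 : ℝ) ρ, ∫⁻ θ in Ioo (-Real.pi) Real.pi,
        ENNReal.ofReal r * ENNReal.ofReal (‖f (circleMap 0 r θ)‖ ^ 2) =
        ∑' n : ℕ, ENNReal.ofReal (2 * Real.pi * ‖c n‖ ^ 2) * ENNReal.ofReal (r ^ (2 * n + 1)) := by
      intro r hr
      rw [lintegral_const_mul' _ _ ENNReal.ofReal_ne_top]
      have h2 : ∀ θ : ℝ, f (circleMap 0 r θ) = ev c (circleMap 0 r θ) := by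
        intro θ
        apply hfe
        rw [mem_ball_zero_iff, norm_circleMap_zero, abs_of_pos hr.1]
        linarith [hr.2]
      simp only [h2]
      rw [circ_lintegral hr.1.le (hs r hr.1.le (by linarith [hr.2])), ← ENNReal.tsum_mul_left]
      congr 1
      ext n
      rw [← ENNReal.ofReal_mul hr.1.le, ← ENNReal.ofReal_mul (by positivity)]
      congr 1
      ring
    rw [setLIntegral_congr_fun measurableSet_Ioo h1, lintegral_tsum]
    · congr 1
      ext n
      rw [lintegral_const_mul' _ _ ENNReal.ofReal_ne_top, ofReal_pow_lintegral n hρ,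
        ← ENNReal.ofReal_mul (by positivity)]
      congr 1
      field_simp
    · intro n
      apply Measurable.aemeasurable
      apply Measurable.const_mul
      exact (Measurable.ennreal_ofReal (by fun_prop))
  · have hmaps : ∀ p ∈ Ioo (0:ℝ) ρ ×ˢ Ioo (-Real.pi) Real.pi, circleMap 0 p.1 p.2 ∈ ball (0:ℂ) 1 := by
      rintro ⟨r, θ⟩ ⟨hr, -⟩
      simp only [mem_Ioo] at hr
      rw [mem_ball, dist_zero_right, norm_circleMap_zero, abs_of_pos hr.1]; linarith [hr.2]
    have hcm : Continuous (fun p : ℝ × ℝ => circleMap 0 p.1 p.2) := by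
      unfold circleMap; fun_prop
    have hcont : ContinuousOn (fun p : ℝ × ℝ => ‖f (circleMap 0 p.1 p.2)‖ ^ 2)
        (Ioo (0:ℝ) ρ ×ˢ Ioo (-Real.pi) Real.pi) :=
      (hf.comp hcm.continuousOn hmaps).norm.pow 2
    have h2 : AEMeasurable (fun p : ℝ × ℝ => ‖f (circleMap 0 p.1 p.2)‖ ^ 2)
        ((volume : Measure (ℝ × ℝ)).restrict (Ioo (0:ℝ) ρ ×ˢ Ioo (-Real.pi) Real.pi)) :=
      hcont.aemeasurable (measurableSet_Ioo.prod measurableSet_Ioo)
    exact (measurable_fst.ennreal_ofReal.aemeasurable).mul h2.ennreal_ofReal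

/-- `Σ ‖a n‖ r^n < ∞` for all `r < 1` -/
def RC (a : ℕ → ℂ) : Prop := ∀ r : ℝ, 0 ≤ r → r < 1 → Summable (fun n => ‖a n‖ * r ^ n)

theorem summable_n {a : ℕ → ℂ} {r r' : ℝ} (h0 : 0 ≤ r) (h1 : r < r') (ha : Summable (fun n => ‖a n‖ * r' ^ n)) :
    Summable (fun n : ℕ => ‖a n‖ * (n * r ^ (n - 1))) := by
  have hr' : 0 < r' := lt_of_le_of_lt h0 h1
  -- compare with q = r / r'
  obtain ⟨q, hq0, hq1, hq⟩ : ∃ q : ℝ, 0 < q ∧ q < 1 ∧ r ≤ q * r' := by
    refine ⟨(r + r') / (2 * r'), by positivity, ?_, ?_⟩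
    · rw [div_lt_one (by positivity)]; linarith
    · have : (r + r') / (2 * r') * r' = (r + r') / 2 := by field_simp
      rw [this]; linarith
  have ht := tendsto_self_mul_const_pow_of_lt_one hq0.le hq1
  obtain ⟨K, hK⟩ := ht.bddAbove_range
  refine Summable.of_nonneg_of_le (fun n => by positivity) (fun n => ?_) (ha.mul_left (K / (q * r')))
  rcases n with _ | n
  · simp only [Nat.cast_zero, zero_mul, mul_zero, pow_zero, mul_one]
    have : 0 ≤ K := by
      have := hK ⟨0, rfl⟩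
      simpa using this
    positivity
  · have hKn := hK ⟨n + 1, rfl⟩
    simp only at hKn
    have h2 : r ^ (n + 1 - 1) ≤ (q * r') ^ n := by
      simp only [Nat.add_sub_cancel]
      gcongr
    have h3 : ((n + 1 : ℕ) : ℝ) * r ^ (n + 1 - 1) ≤ K / (q * r') * r' ^ (n + 1) := by
      calc ((n + 1 : ℕ) : ℝ) * r ^ (n + 1 - 1) ≤ ((n + 1 : ℕ) : ℝ) * (q * r') ^ n := by gcongr
        _ = (((n + 1 : ℕ) : ℝ) * q ^ (n + 1)) / (q * r') * r' ^ (n + 1) := by
            field_simp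
            ring
        _ ≤ K / (q * r') * r' ^ (n + 1) := by gcongr
    calc ‖a (n + 1)‖ * (((n + 1 : ℕ) : ℝ) * r ^ (n + 1 - 1)) ≤ ‖a (n + 1)‖ * (K / (q * r') * r' ^ (n + 1)) := by
          gcongr
      _ = K / (q * r') * (‖a (n + 1)‖ * r' ^ (n + 1)) := by ring

theorem ev_hasDerivAt {a : ℕ → ℂ} {R : ℝ} (ha : ∀ r : ℝ, 0 ≤ r → r < R → Summable (fun n => ‖a n‖ * r ^ n))
    {z : ℂ} (hz : ‖z‖ < R) :
    HasDerivAt (ev a) (∑' n : ℕ, a n * (n * z ^ (n - 1))) z := by
  obtain ⟨r, hr1, hr2⟩ := exists_between hz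
  obtain ⟨r', hr1', hr2'⟩ := exists_between hr2
  have hr0 : 0 ≤ r := le_trans (norm_nonneg _) hr1.le
  unfold ev
  refine hasDerivAt_tsum_of_isPreconnected (u := fun n : ℕ => ‖a n‖ * (n * r ^ (n - 1)))
    (summable_n hr0 hr1' (ha r' (by linarith) hr2')) (t := ball (0 : ℂ) r) isOpen_ball
    (convex_ball _ _).isPreconnected (g := fun n z => a n * z ^ n)
    (g' := fun n z => a n * (n * z ^ (n - 1))) ?_ ?_ (y₀ := 0) ?_ ?_ ?_
  · intro n y _
    exact (hasDerivAt_pow n y).const_mul (a n)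
  · intro n y hy
    rw [mem_ball_zero_iff] at hy
    rw [norm_mul, norm_mul, norm_pow, Complex.norm_natCast]
    gcongr
  · apply mem_ball_self; linarith [norm_nonneg z]
  · apply summable_of_ne_finset_zero (s := {0})
    intro n hn
    rw [zero_pow (by simpa using hn), mul_zero]
  · simpa using hr1

/-- coefficients of the derivative -/
def dc (a : ℕ → ℂ) (n : ℕ) : ℂ := (n + 1) * a (n + 1)

theorem ev_deriv {a : ℕ → ℂ} {R : ℝ} (ha : ∀ r : ℝ, 0 ≤ r → r < R → Summable (fun n => ‖a n‖ * r ^ n))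
    {z : ℂ} (hz : ‖z‖ < R) : deriv (ev a) z = ev (dc a) z := by
  rw [(ev_hasDerivAt ha hz).deriv]
  obtain ⟨r', hr1', hr2'⟩ := exists_between hz
  have hs : Summable (fun n : ℕ => a n * (n * z ^ (n - 1))) := by
    refine Summable.of_norm_bounded (summable_n (norm_nonneg z) hr1' (ha r' (le_trans (norm_nonneg _) hr1'.le) hr2')) fun n => ?_
    rw [norm_mul, norm_mul, norm_pow, Complex.norm_natCast]
  rw [hs.tsum_eq_zero_add]
  simp only [Nat.cast_zero, zero_mul, mul_zero, zero_add, ev, dc]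
  congr 1
  ext n
  rw [Nat.add_sub_cancel]
  push_cast
  ring

theorem RC_dc {a : ℕ → ℂ} (ha : RC a) : RC (dc a) := by
  intro r h0 h1
  obtain ⟨r', hr1', hr2'⟩ := exists_between h1
  have := summable_n h0 hr1' (ha r' (le_trans h0 hr1'.le) hr2')
  have h2 := (summable_nat_add_iff 1).2 this
  refine h2.congr fun n => ?_
  have : ‖((n : ℂ) + 1)‖ = (n : ℝ) + 1 := by
    rw [show ((n : ℂ) + 1) = ((n + 1 : ℕ) : ℂ) by push_cast; rfl, Complex.norm_natCast]; push_cast; rfl
  simp only [dc, norm_mul, this, Nat.add_sub_cancel]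
  push_cast
  ring

theorem ev_diff {a : ℕ → ℂ} (ha : RC a) : DifferentiableOn ℂ (ev a) (ball 0 1) := by
  intro z hz
  exact (ev_hasDerivAt ha (by simpa using hz)).differentiableAt.differentiableWithinAt

/-- the area integral -/
theorem area_int {a : ℕ → ℂ} (ha : RC a) {ρ : ℝ} (h0 : 0 ≤ ρ) (h1 : ρ ≤ 1) :
    ∫⁻ z in ball (0 : ℂ) ρ, ENNReal.ofReal (‖deriv (ev a) z‖ ^ 2) =
      ∑' n : ℕ, ENNReal.ofReal (Real.pi * (n * ‖a n‖ ^ 2 * ρ ^ (2 * n))) := by
  rw [ev_sq_lintegral (c := dc a) (RC_dc ha) h0 h1]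
  · symm
    rw [tsum_eq_zero_add' ENNReal.summable]
    simp only [Nat.cast_zero, zero_mul, mul_zero, ENNReal.ofReal_zero, zero_add]
    congr 1
    ext n
    congr 2
    have : ‖((n : ℂ) + 1)‖ = (n : ℝ) + 1 := by
      rw [show ((n : ℂ) + 1) = ((n + 1 : ℕ) : ℂ) by push_cast; rfl, Complex.norm_natCast]; push_cast; rfl
    simp only [dc, norm_mul, this]
    push_cast
    field_simp
    ring
  · exact ((ev_diff ha).deriv isOpen_ball).continuousOn
  · intro z hz
    exact ev_deriv (R := 1) ha (by simpa using hz)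

/-- the area of the image of a disc -/
theorem area_formula {a : ℕ → ℂ} (ha : RC a) (hi : InjOn (ev a) (ball 0 1)) {ρ : ℝ} (h0 : 0 ≤ ρ) (h1 : ρ ≤ 1) :
    volume (ev a '' ball (0 : ℂ) ρ) =
      ∑' n : ℕ, ENNReal.ofReal (Real.pi * (n * ‖a n‖ ^ 2 * ρ ^ (2 * n))) := by
  have hsub : ball (0 : ℂ) ρ ⊆ ball 0 1 := ball_subset_ball h1
  rw [vol_image_eq isOpen_ball (ev_diff ha) measurableSet_ball hsub (hi.mono hsub), area_int ha h0 h1]

end Pool.Agent.Helper265.Osg
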