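import Mathlib
import Pool.Agent.Helper265.OsgDefs
import Pool.Agent.Helper265.OsgArea

/-! Assembly of the construction; written by helper264 (job 844) from my proof sketch. -/

set_option autoImplicit false
open Complex Set Filter Metric Topology MeasureTheory

namespace Pool.Agent.Helper265.Osg

/-- area formula (to be used as a hypothesis; proved elsewhere): for injective `ev a` on the ball it computes the
area of `ev a '' ball 0 ρ`. -/
def AreaFormula : Prop :=
  ∀ a : ℕ → ℂ, (∀ r : ℝ, 0 ≤ r → r < 1 → Summable (fun n => ‖a n‖ * r ^ n)) →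
    InjOn (ev a) (ball 0 1) → ∀ ρ : ℝ, 0 ≤ ρ → ρ ≤ 1 →
      volume (ev a '' ball (0 : ℂ) ρ) = ∑' n : ℕ, ENNReal.ofReal (Real.pi * (n * ‖a n‖ ^ 2 * ρ ^ (2 * n)))

/-- Hurwitz, local form. -/
theorem hurwitz_asm {ι : Type*} {l : Filter ι} [l.NeBot] {V : Set ℂ} (hV : IsOpen V)
    {F : ι → ℂ → ℂ} {f : ℂ → ℂ}
    (hd : ∀ i, DifferentiableOn ℂ (F i) V) (hlim : TendstoLocallyUniformlyOn F f l V)
    (hne : ∀ i, ∀ z ∈ V, F i z ≠ 0) {a : ℂ} (ha : a ∈ V) (h0 : f a = 0) :
    ∀ᶠ z in 𝓝 a, f z = 0 := by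
  have hfd : DifferentiableOn ℂ f V := hlim.differentiableOn (Eventually.of_forall hd) hV
  have hfa : AnalyticAt ℂ f a := hfd.analyticAt (hV.mem_nhds ha)
  rcases hfa.eventually_eq_zero_or_eventually_ne_zero with h | h
  · exact h
  exfalso
  rw [eventually_nhdsWithin_iff, Metric.eventually_nhds_iff_ball] at h
  obtain ⟨r1, hr1, h1⟩ := h
  obtain ⟨r2, hr2, h2⟩ := Metric.isOpen_iff.1 hV a ha
  set r : ℝ := min r1 r2 / 2 with hr
  have hrp : 0 < r := by positivity
  have hr1' : r < r1 := by have := min_le_left r1 r2; have : 0 < min r1 r2 := by positivity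
                           linarith
  have hr2' : r < r2 := by have := min_le_right r1 r2; have : 0 < min r1 r2 := by positivity
                           linarith
  have hcb : closedBall a r ⊆ V := (closedBall_subset_ball hr2').trans h2
  have hsph : IsCompact (sphere a r) := isCompact_sphere a r
  have hne' : (sphere a r).Nonempty := NormedSpace.sphere_nonempty.2 hrp.le
  have hcont : ContinuousOn (fun z => ‖f z‖) (sphere a r) :=
    (hfd.continuousOn.mono (sphere_subset_closedBall.trans hcb)).norm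
  obtain ⟨w, hw, hwmin⟩ := hsph.exists_isMinOn hne' hcont
  have hδ : 0 < ‖f w‖ := by
    rw [norm_pos_iff]
    apply h1 w
    · have : dist w a = r := hw
      rw [mem_ball, this]; exact hr1'
    · intro hwa
      have : dist w a = r := hw
      rw [hwa, dist_self] at this
      linarith
  set δ := ‖f w‖ with hδdef
  have hunif : TendstoUniformlyOn F f l (closedBall a r) :=
    (tendstoLocallyUniformlyOn_iff_forall_isCompact hV).1 hlim _ hcb (isCompact_closedBall a r)
  have hev := (Metric.tendstoUniformlyOn_iff.1 hunif) (δ / 2) (by positivity)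
  obtain ⟨i, hi⟩ := hev.exists
  have hsphb : ∀ z ∈ sphere a r, δ / 2 ≤ ‖F i z‖ := by
    intro z hz
    have h3 := hi z (sphere_subset_closedBall hz)
    have h4 : δ ≤ ‖f z‖ := hwmin hz
    rw [dist_eq_norm] at h3
    have h5 : ‖f z‖ - ‖F i z‖ ≤ ‖f z - F i z‖ := norm_sub_norm_le _ _
    linarith
  have hctr : ‖F i a‖ < δ / 2 := by
    have h3 := hi a (mem_closedBall_self hrp.le)
    rw [dist_eq_norm, h0, zero_sub, norm_neg] at h3
    exact h3
  have hdc : DiffContOnCl ℂ (fun z => (F i z)⁻¹) (ball a r) := by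
    apply DifferentiableOn.diffContOnCl
    rw [closure_ball a hrp.ne']
    exact ((hd i).mono hcb).inv (fun z hz => hne i z (hcb hz))
  have hmax := Complex.norm_le_of_forall_mem_frontier_norm_le (C := 2 / δ) isBounded_ball hdc
    (by
      intro z hz
      rw [frontier_ball a hrp.ne'] at hz
      rw [norm_inv]
      have h3 := hsphb z hz
      rw [inv_le_comm₀ (by linarith) (by positivity)]
      rw [inv_div]
      exact h3) (subset_closure (mem_ball_self hrp))
  rw [norm_inv] at hmax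
  have hpos : 0 < ‖F i a‖ := norm_pos_iff.2 (hne i a ha)
  rw [inv_le_comm₀ hpos (by positivity), inv_div] at hmax
  linarith


/-! ### basic facts on `ev` -/

theorem ev_summable {a : ℕ → ℂ} (ha : Summable (fun n => ‖a n‖)) {z : ℂ} (hz : ‖z‖ ≤ 1) :
    Summable (fun n => a n * z ^ n) := by
  apply Summable.of_norm
  refine Summable.of_nonneg_of_le (fun _ => norm_nonneg _) (fun n => ?_) ha
  rw [norm_mul, norm_pow]
  exact mul_le_of_le_one_right (norm_nonneg _) (pow_le_one₀ (norm_nonneg _) hz)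

theorem ev_sub_le {a b : ℕ → ℂ} (ha : Summable (fun n => ‖a n‖)) (hb : Summable (fun n => ‖b n‖))
    {z : ℂ} (hz : ‖z‖ ≤ 1) : ‖ev a z - ev b z‖ ≤ ∑' n, ‖a n - b n‖ := by
  unfold ev
  rw [← (ev_summable ha hz).tsum_sub (ev_summable hb hz)]
  have hs : Summable (fun n => ‖a n - b n‖) :=
    Summable.of_nonneg_of_le (fun _ => norm_nonneg _) (fun n => norm_sub_le _ _) (ha.add hb)
  apply tsum_of_norm_bounded hs.hasSum
  intro n
  rw [← sub_mul, norm_mul, norm_pow]
  exact mul_le_of_le_one_right (norm_nonneg _) (pow_le_one₀ (norm_nonneg _) hz)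

theorem ev_continuousOn {a : ℕ → ℂ} (ha : Summable (fun n => ‖a n‖)) :
    ContinuousOn (ev a) (closedBall 0 1) := by
  apply continuousOn_tsum (fun n => by fun_prop) ha
  intro n z hz
  rw [mem_closedBall_zero_iff] at hz
  rw [norm_mul, norm_pow]
  exact mul_le_of_le_one_right (norm_nonneg _) (pow_le_one₀ (norm_nonneg _) hz)

theorem ev_differentiableOn {a : ℕ → ℂ} (ha : Summable (fun n => ‖a n‖)) :
    DifferentiableOn ℂ (ev a) (ball 0 1) := by
  apply differentiableOn_tsum_of_summable_norm ha (fun n => by fun_prop) isOpen_ball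
  intro n z hz
  rw [mem_ball_zero_iff] at hz
  rw [norm_mul, norm_pow]
  exact mul_le_of_le_one_right (norm_nonneg _) (pow_le_one₀ (norm_nonneg _) hz.le)

theorem ev_zero (a : ℕ → ℂ) : ev a 0 = a 0 := by
  unfold ev
  rw [tsum_eq_single 0]
  · simp
  · intro n hn
    simp [hn]

theorem ev_nonconst {a : ℕ → ℂ} (ha : Summable (fun n => ‖a n‖)) (h1 : a 1 ≠ 0) (w : ℂ)
    (h : ∀ z ∈ ball (0 : ℂ) 1, ev a z = w) : False := by
  have hs : Summable (fun n => ‖a (n + 1)‖) := (summable_nat_add_iff 1).mpr ha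
  have key : ∀ z ∈ ball (0 : ℂ) 1, ev a z = a 0 + z * ev (fun n => a (n + 1)) z := by
    intro z hz
    rw [mem_ball_zero_iff] at hz
    unfold ev
    rw [(ev_summable ha hz.le).tsum_eq_zero_add, ← tsum_mul_left]
    congr 1
    · simp
    · congr 1
      funext n
      rw [pow_succ]
      ring
  have h00 : a 0 = w := by
    have := h 0 (by simp)
    rwa [ev_zero] at this
  have hz : ∀ z ∈ ball (0 : ℂ) 1, z ≠ 0 → ev (fun n => a (n + 1)) z = 0 := by
    intro z hz hz0
    have e1 := key z hz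
    rw [h z hz, h00] at e1
    have e2 : z * ev (fun n => a (n + 1)) z = 0 := by linear_combination -e1
    exact (mul_eq_zero.mp e2).resolve_left hz0
  have hc : ContinuousAt (ev fun n => a (n + 1)) 0 :=
    (ev_continuousOn hs).continuousAt (closedBall_mem_nhds 0 one_pos)
  have h2 : Tendsto (ev fun n => a (n + 1)) (𝓝[≠] 0) (𝓝 (a 1)) := by
    have := hc.tendsto
    rw [ev_zero] at this
    exact this.mono_left nhdsWithin_le_nhds
  have h3 : Tendsto (ev fun n => a (n + 1)) (𝓝[≠] 0) (𝓝 0) := by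
    apply tendsto_const_nhds.congr'
    have hb : ball (0 : ℂ) 1 ∈ 𝓝 (0 : ℂ) := ball_mem_nhds 0 one_pos
    filter_upwards [self_mem_nhdsWithin, mem_nhdsWithin_of_mem_nhds hb] with z hz1 hz2
    exact (hz z hz2 hz1).symm
  exact h1 (tendsto_nhds_unique h2 h3)

/-! ### facts on nice sequences -/

theorem nice_nsum {a : ℕ → ℂ} (ha : Nice a) : Summable (fun n : ℕ => (n : ℝ) * ‖a n‖) := by
  obtain ⟨R, hR, hs⟩ := ha.sum
  have h1 := tendsto_pow_const_div_const_pow_of_one_lt 1 hR
  obtain ⟨M, hM⟩ := h1.bddAbove_range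
  have hM' : ∀ n : ℕ, (n : ℝ) ≤ M * R ^ n := by
    intro n
    have h2 : (n : ℝ) ^ 1 / R ^ n ≤ M := hM ⟨n, rfl⟩
    rw [pow_one, div_le_iff₀ (by positivity)] at h2
    exact h2
  refine Summable.of_nonneg_of_le (fun n => by positivity) (fun n => ?_) (hs.mul_left M)
  calc (n : ℝ) * ‖a n‖ ≤ M * R ^ n * ‖a n‖ := mul_le_mul_of_nonneg_right (hM' n) (norm_nonneg _)
    _ = _ := by ring

theorem nice_sum {a : ℕ → ℂ} (ha : Nice a) : Summable (fun n : ℕ => ‖a n‖) := by
  obtain ⟨R, hR, hs⟩ := ha.sum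
  refine Summable.of_nonneg_of_le (fun n => norm_nonneg _) (fun n => ?_) hs
  exact le_mul_of_one_le_right (norm_nonneg _) (one_le_pow₀ hR.le)

theorem nice_sqsum {a : ℕ → ℂ} (ha : Nice a) : Summable (fun n : ℕ => (n : ℝ) * ‖a n‖ ^ 2) := by
  have h1 := nice_sum ha
  refine Summable.of_nonneg_of_le (fun n => by positivity) (fun n => ?_)
    ((nice_nsum ha).mul_right (∑' n, ‖a n‖))
  have h2 : ‖a n‖ ≤ ∑' n, ‖a n‖ := h1.le_tsum n (fun _ _ => norm_nonneg _)
  calc (n : ℝ) * ‖a n‖ ^ 2 = ((n : ℝ) * ‖a n‖) * ‖a n‖ := by ring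
    _ ≤ _ := mul_le_mul_of_nonneg_left h2 (by positivity)

theorem nice_lowsum {a : ℕ → ℂ} (ha : Nice a) {δ : ℝ} (hδ : 0 < δ) :
    Summable (fun n : ℕ => (n : ℝ) * ‖a n‖ ^ 2 * Real.exp (-(2 * n * δ))) := by
  refine Summable.of_nonneg_of_le (fun n => by positivity) (fun n => ?_) (nice_sqsum ha)
  apply mul_le_of_le_one_right (by positivity)
  rw [Real.exp_le_one_iff]
  have : 0 ≤ 2 * (n : ℝ) * δ := by positivity
  linarith

theorem summable_pow_of {a : ℕ → ℂ} (ha : Summable (fun n : ℕ => ‖a n‖)) (r : ℝ) (h0 : 0 ≤ r)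
    (h1 : r < 1) : Summable (fun n => ‖a n‖ * r ^ n) := by
  refine Summable.of_nonneg_of_le (fun n => by positivity) (fun n => ?_) ha
  exact mul_le_of_le_one_right (norm_nonneg _) (pow_le_one₀ h0 h1.le)

theorem nice_area (harea : AreaFormula) {a : ℕ → ℂ} (ha : Nice a) :
    volume (ev a '' ball (0 : ℂ) 1) = ENNReal.ofReal (Real.pi * SS a) := by
  rw [harea a (summable_pow_of (nice_sum ha)) ha.inj 1 zero_le_one le_rfl]
  unfold SS
  rw [← tsum_mul_left, ENNReal.ofReal_tsum_of_nonneg]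
  · congr 1
    funext n
    rw [one_pow, mul_one]
  · intro n
    have := Real.pi_pos
    positivity
  · exact (nice_sqsum ha).mul_left _

theorem nice_isOpen {a : ℕ → ℂ} (ha : Nice a) : IsOpen (ev a '' ball (0 : ℂ) 1) := by
  have hd := ev_differentiableOn (nice_sum ha)
  have han : AnalyticOnNhd ℂ (ev a) (ball 0 1) := hd.analyticOnNhd isOpen_ball
  rcases han.is_constant_or_isOpen (convex_ball 0 1).isPreconnected with ⟨w, hw⟩ | h
  · exact (ev_nonconst (nice_sum ha) ha.one w hw).elim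
  · exact h _ subset_rfl isOpen_ball

/-! ### the limit -/

theorem lp_norm (f : lp (fun _ : ℕ => ℂ) 1) : ‖f‖ = ∑' n, ‖f n‖ := by
  have := lp.norm_eq_tsum_rpow (p := 1) (by norm_num) f
  simpa using this

theorem lp_summable (f : lp (fun _ : ℕ => ℂ) 1) : Summable (fun n => ‖f n‖) := by
  have := (memℓp_gen_iff (p := 1) (by norm_num)).mp (lp.memℓp f)
  simpa using this

theorem limit_part (harea : AreaFormula) (b : ℕ → ℕ → ℂ) (δ : ℕ → ℝ)
    (H1 : ∀ k, Nice (b k))
    (H3 : ∀ k, (∑' n, ‖b (k + 1) n - b k n‖) ≤ (1 / 2) ^ k)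
    (H4 : ∀ k, ev (b (k + 1)) '' ball 0 1 ⊆ ev (b k) '' ball 0 1)
    (H5 : ∀ k, Real.exp (-3) ≤ ‖b k 1‖)
    (H6 : ∀ k, 0.99 ≤ SS (b k))
    (H7 : ∀ k, low (b k) (δ k) ≤ 0.03)
    (H8 : Tendsto δ atTop (𝓝 0)) (H9 : ∀ k, 0 < δ k) :
    ∃ a : ℕ → ℂ, Summable (fun n => ‖a n‖) ∧ a 0 = 0 ∧ a 1 = 1 ∧
      Set.InjOn (fun z : ℂ => ∑' n, a n * z ^ n) (Metric.ball (0 : ℂ) 1) ∧
      0 < MeasureTheory.volume
        ((fun z : ℂ => ∑' n, a n * z ^ n) '' Metric.sphere (0 : ℂ) 1) := by
  have hπ := Real.pi_pos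
  have hmem : ∀ k, Memℓp (b k) (1 : ENNReal) := by
    intro k
    rw [memℓp_gen_iff (by norm_num)]
    simpa using nice_sum (H1 k)
  let B : ℕ → lp (fun _ : ℕ => ℂ) 1 := fun k => ⟨b k, hmem k⟩
  have hB : ∀ k n, (B k) n = b k n := fun k n => rfl
  have hdist : ∀ k, dist (B k) (B (k + 1)) ≤ 1 * (1 / 2) ^ k := by
    intro k
    rw [dist_comm, dist_eq_norm, lp_norm, one_mul]
    exact H3 k
  have hcau : CauchySeq B := cauchySeq_of_le_geometric (1 / 2) 1 (by norm_num) hdist
  obtain ⟨A, hA⟩ := cauchySeq_tendsto_of_complete hcau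
  have hnorm : Tendsto (fun k => ‖A - B k‖) atTop (𝓝 0) := by
    have := (tendsto_iff_norm_sub_tendsto_zero.mp hA)
    simpa [norm_sub_rev] using this
  have hAs := lp_summable A
  have hcoord : ∀ n, Tendsto (fun k => b k n) atTop (𝓝 (A n)) := by
    intro n
    rw [tendsto_iff_norm_sub_tendsto_zero]
    refine squeeze_zero (fun _ => norm_nonneg _) (fun k => ?_) hnorm
    rw [norm_sub_rev]
    exact lp.norm_apply_le_norm (p := 1) (by norm_num) (A - B k) n
  have hev : ∀ k, ∀ z : ℂ, ‖z‖ ≤ 1 → ‖ev A z - ev (b k) z‖ ≤ ‖A - B k‖ := by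
    intro k z hz
    rw [lp_norm]
    exact ev_sub_le hAs (nice_sum (H1 k)) hz
  -- coefficients
  have hA0 : A 0 = 0 := by
    apply tendsto_nhds_unique (hcoord 0)
    apply tendsto_const_nhds.congr
    intro k
    exact (H1 k).zero.symm
  have hA1 : Real.exp (-3) ≤ ‖A 1‖ := ge_of_tendsto ((hcoord 1).norm) (Eventually.of_forall H5)
  have hA1' : A 1 ≠ 0 := by
    rw [← norm_pos_iff]
    exact lt_of_lt_of_le (Real.exp_pos _) hA1
  -- uniform convergence
  have hunif : TendstoUniformlyOn (fun k => ev (b k)) (ev A) atTop (closedBall 0 1) := by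
    rw [Metric.tendstoUniformlyOn_iff]
    intro ε hε
    filter_upwards [(Metric.tendsto_nhds.1 hnorm) ε hε] with k hk z hz
    rw [dist_eq_norm]
    refine (hev k z (by simpa using hz)).trans_lt ?_
    rw [Real.dist_eq, sub_zero, abs_of_nonneg (norm_nonneg _)] at hk
    exact hk
  have hdA : DifferentiableOn ℂ (ev A) (ball 0 1) := ev_differentiableOn hAs
  -- injectivity
  have hinj : InjOn (ev A) (ball 0 1) := by
    intro z hz w hw hzw
    by_contra hne
    have hV : IsOpen (ball (0 : ℂ) 1 \ {w}) := isOpen_ball.sdiff isClosed_singleton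
    have hu2 : TendstoUniformlyOn (fun k x => ev (b k) x - ev (b k) w) (fun x => ev A x - ev A w)
        atTop (ball (0 : ℂ) 1 \ {w}) := by
      rw [Metric.tendstoUniformlyOn_iff]
      intro ε hε
      filter_upwards [(Metric.tendsto_nhds.1 hnorm) (ε / 2) (by positivity)] with k hk x hx
      rw [Real.dist_eq, sub_zero, abs_of_nonneg (norm_nonneg _)] at hk
      have e1 := hev k x (by simpa using (mem_ball_zero_iff.mp hx.1).le)
      have e2 := hev k w (by simpa using (mem_ball_zero_iff.mp hw).le)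
      rw [dist_eq_norm]
      calc ‖(ev A x - ev A w) - (ev (b k) x - ev (b k) w)‖
          = ‖(ev A x - ev (b k) x) - (ev A w - ev (b k) w)‖ := by congr 1; ring
        _ ≤ ‖ev A x - ev (b k) x‖ + ‖ev A w - ev (b k) w‖ := norm_sub_le _ _
        _ < ε := by linarith
    have hz' : z ∈ ball (0 : ℂ) 1 \ {w} := ⟨hz, hne⟩
    have hevz := hurwitz_asm (l := (atTop : Filter ℕ)) hV (F := fun k x => ev (b k) x - ev (b k) w)
      (f := fun x => ev A x - ev A w)
      (fun k => ((ev_differentiableOn (nice_sum (H1 k))).mono sdiff_subset).sub_const _)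
      hu2.tendstoLocallyUniformlyOn
      (fun k x hx h0 => hx.2 ((H1 k).inj hx.1 hw (by linear_combination h0))) hz'
      (by simp [hzw])
    have hana : AnalyticOnNhd ℂ (fun x => ev A x - ev A w) (ball 0 1) :=
      (hdA.sub_const _).analyticOnNhd isOpen_ball
    have heq := hana.eqOn_zero_of_preconnected_of_eventuallyEq_zero
      (convex_ball 0 1).isPreconnected hz hevz
    refine ev_nonconst hAs hA1' (ev A w) (fun x hx => ?_)
    have := heq hx
    simp only [Pi.zero_apply] at this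
    linear_combination this
  -- small image of the open disc
  have hsmall : volume (ev A '' ball (0 : ℂ) 1) ≤ ENNReal.ofReal (Real.pi * 0.03) := by
    rw [harea A (summable_pow_of hAs) hinj 1 zero_le_one le_rfl]
    apply ENNReal.tsum_le_of_sum_range_le
    intro N
    rw [← ENNReal.ofReal_sum_of_nonneg (fun n _ => by positivity)]
    apply ENNReal.ofReal_le_ofReal
    rw [← Finset.mul_sum]
    apply mul_le_mul_of_nonneg_left _ hπ.le
    have ht : Tendsto (fun k => ∑ n ∈ Finset.range N,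
        (n : ℝ) * ‖b k n‖ ^ 2 * Real.exp (-(2 * n * δ k))) atTop
        (𝓝 (∑ n ∈ Finset.range N, (n : ℝ) * ‖A n‖ ^ 2 * 1 ^ (2 * n))) := by
      apply tendsto_finsetSum
      intro n _
      have e1 : Tendsto (fun k => Real.exp (-(2 * n * δ k))) atTop (𝓝 (1 ^ (2 * n))) := by
        have e2 : Tendsto (fun k => -(2 * (n : ℝ) * δ k)) atTop (𝓝 (-(2 * (n : ℝ) * 0))) :=
          (H8.const_mul _).neg
        have e3 := (Real.continuous_exp.tendsto _).comp e2
        rw [mul_zero, neg_zero, Real.exp_zero] at e3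
        rw [one_pow]
        exact e3
      exact ((((hcoord n).norm.pow 2).const_mul _).mul e1)
    apply le_of_tendsto ht
    apply Eventually.of_forall
    intro k
    refine le_trans ?_ (H7 k)
    exact (nice_lowsum (H1 k) (H9 k)).sum_le_tsum _ (fun n _ => by positivity)
  -- big image of the closed disc
  have hanti : Antitone (fun k => ev (b k) '' ball (0 : ℂ) 1) := antitone_nat_of_succ_le H4
  have hE : ENNReal.ofReal (Real.pi * 0.99) ≤ volume (⋂ k, ev (b k) '' ball (0 : ℂ) 1) := by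
    rw [hanti.measure_iInter (fun k => (nice_isOpen (H1 k)).measurableSet.nullMeasurableSet)
      ⟨0, by rw [nice_area harea (H1 0)]; exact ENNReal.ofReal_ne_top⟩]
    apply le_iInf
    intro k
    rw [nice_area harea (H1 k)]
    apply ENNReal.ofReal_le_ofReal
    exact mul_le_mul_of_nonneg_left (H6 k) hπ.le
  have hsub : (⋂ k, ev (b k) '' ball (0 : ℂ) 1) ⊆ ev A '' closedBall 0 1 := by
    intro v hv
    rw [mem_iInter] at hv
    choose z hz hzv using hv
    have hcl : IsClosed (ev A '' closedBall 0 1) :=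
      ((isCompact_closedBall (0 : ℂ) 1).image_of_continuousOn (ev_continuousOn hAs)).isClosed
    have ht : Tendsto (fun k => ev A (z k)) atTop (𝓝 v) := by
      rw [tendsto_iff_norm_sub_tendsto_zero]
      refine squeeze_zero (fun _ => norm_nonneg _) (fun k => ?_) hnorm
      conv_lhs => rw [← hzv k]
      exact hev k (z k) (mem_ball_zero_iff.mp (hz k)).le
    exact hcl.mem_of_tendsto ht (Eventually.of_forall fun k =>
      ⟨z k, ball_subset_closedBall (hz k), rfl⟩)
  have hsph : volume (ev A '' sphere (0 : ℂ) 1) ≠ 0 := by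
    intro h0
    have h1 : ENNReal.ofReal (Real.pi * 0.99) ≤ ENNReal.ofReal (Real.pi * 0.03) := by
      calc ENNReal.ofReal (Real.pi * 0.99) ≤ volume (ev A '' closedBall 0 1) :=
            hE.trans (measure_mono hsub)
        _ = volume (ev A '' ball 0 1 ∪ ev A '' sphere 0 1) := by
            rw [← image_union, ball_union_sphere]
        _ ≤ volume (ev A '' ball 0 1) + volume (ev A '' sphere 0 1) := measure_union_le _ _
        _ ≤ _ := by rw [h0, add_zero]; exact hsmall
    rw [ENNReal.ofReal_le_ofReal_iff (by positivity)] at h1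
    nlinarith
  -- normalisation
  have hfun : ∀ z : ℂ, (∑' n, ((A 1)⁻¹ * A n) * z ^ n) = (A 1)⁻¹ * ev A z := by
    intro z
    unfold ev
    rw [← tsum_mul_left]
    congr 1
    funext n
    ring
  refine ⟨fun n => (A 1)⁻¹ * A n, ?_, by simp [hA0], inv_mul_cancel₀ hA1', ?_, ?_⟩
  · simp only [norm_mul]
    exact hAs.mul_left _
  · intro z hz w hw hzw
    simp only [hfun] at hzw
    exact hinj hz hw (mul_left_cancel₀ (inv_ne_zero hA1') hzw)
  · simp only [hfun]
    rw [pos_iff_ne_zero]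
    intro h0
    apply hsph
    have h1 : ev A '' sphere (0 : ℂ) 1 =
        (fun w => A 1 * w) '' ((fun z => (A 1)⁻¹ * ev A z) '' sphere 0 1) := by
      rw [image_image]
      apply image_congr
      intro z _
      rw [← mul_assoc, mul_inv_cancel₀ hA1', one_mul]
    rw [h1]
    apply addHaar_image_eq_zero_of_differentiableOn_of_addHaar_eq_zero volume _ h0
    have : Differentiable ℝ (fun w : ℂ => A 1 * w) := by
      apply Differentiable.const_mul differentiable_id
    exact this.differentiableOn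

/-! ### the sequence -/

theorem start_nice : Nice (Pi.single 1 1 : ℕ → ℂ) := by
  have hev : ∀ z : ℂ, ev (Pi.single 1 1 : ℕ → ℂ) z = z := by
    intro z
    unfold ev
    rw [tsum_eq_single 1]
    · simp
    · intro n hn
      simp [hn]
  refine ⟨by simp, by simp, ⟨2, by norm_num, ?_⟩, ?_⟩
  · apply summable_of_ne_finset_zero (s := {1})
    intro n hn
    simp only [Finset.mem_singleton] at hn
    simp [hn]
  · intro z _ w _ h
    rwa [hev, hev] at h

theorem start_SS : SS (Pi.single 1 1 : ℕ → ℂ) = 1 := by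
  unfold SS
  rw [tsum_eq_single 1]
  · simp
  · intro n hn
    simp [hn]

theorem start_low : low (Pi.single 1 1 : ℕ → ℂ) 2 ≤ 0.02 := by
  unfold low
  rw [tsum_eq_single 1]
  · have h1 : Real.exp 4 = Real.exp 1 ^ 4 := by rw [← Real.exp_nat_mul]; norm_num
    have h2 := Real.exp_one_gt_d9
    have h3 : (50 : ℝ) ≤ Real.exp 4 := by
      rw [h1]
      calc (50 : ℝ) ≤ 2.7 ^ 4 := by norm_num
        _ ≤ Real.exp 1 ^ 4 := pow_le_pow_left₀ (by norm_num) (by linarith) 4
    simp only [Nat.cast_one, Pi.single_eq_same, norm_one, one_pow, mul_one, one_mul]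
    have h4 : Real.exp (-(2 * 2)) = (Real.exp 4)⁻¹ := by
      rw [← Real.exp_neg]; norm_num
    rw [h4]
    calc (Real.exp 4)⁻¹ ≤ (50 : ℝ)⁻¹ := inv_anti₀ (by norm_num) h3
      _ = 0.02 := by norm_num
  · intro n hn
    simp [hn]

theorem construct (harea : AreaFormula)
    (hstep : ∀ η : ℝ, 0 < η → η ≤ 1 / 8 → ∃ C : ℝ, 0 ≤ C ∧ StepProp η C) :
    ∃ (b : ℕ → ℕ → ℂ) (δ : ℕ → ℝ), (∀ k, Nice (b k)) ∧
    (∀ k, (∑' n, ‖b (k + 1) n - b k n‖) ≤ (1 / 2) ^ k) ∧
    (∀ k, ev (b (k + 1)) '' ball 0 1 ⊆ ev (b k) '' ball 0 1) ∧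
    (∀ k, Real.exp (-3) ≤ ‖b k 1‖) ∧
    (∀ k, 0.99 ≤ SS (b k)) ∧
    (∀ k, low (b k) (δ k) ≤ 0.03) ∧
    Tendsto δ atTop (𝓝 0) ∧ (∀ k, 0 < δ k) := by
  have hhalf : ∀ k : ℕ, (0 : ℝ) < (1 / 2) ^ k := fun k => by positivity
  have hhalf1 : ∀ k : ℕ, ((1 : ℝ) / 2) ^ k ≤ 1 := fun k => pow_le_one₀ (by norm_num) (by norm_num)
  have hη : ∀ k : ℕ, ∃ C : ℝ, 0 ≤ C ∧ StepProp ((1 / 2) ^ k / 1000) C := by
    intro k
    apply hstep
    · have := hhalf k; positivity
    · have := hhalf1 k; linarith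
  choose C hC0 hC using hη
  let ε : ℕ → ℝ := fun k => min ((1 / 2) ^ k / 1000) ((1 / 2) ^ k / (1 + C (k + 1)))
  have hε : ∀ k, 0 < ε k := by
    intro k
    have h1 := hhalf k
    have h2 := hC0 (k + 1)
    exact lt_min (by positivity) (by positivity)
  have hε1 : ∀ k, ε k ≤ (1 / 2) ^ k / 1000 := fun k => min_le_left _ _
  have hε2 : ∀ k, C (k + 1) * ε k ≤ (1 / 2) ^ k := by
    intro k
    have h1 := hhalf k
    have h2 := hC0 (k + 1)
    have h3 : ε k ≤ (1 / 2) ^ k / (1 + C (k + 1)) := min_le_right _ _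
    rw [le_div_iff₀ (by positivity)] at h3
    have := hε k
    nlinarith
  -- states
  let State : Type := {p : (ℕ → ℂ) × ℝ // Nice p.1 ∧ 0 < p.2}
  have hnext : ∀ (k : ℕ) (s : State), ∃ t : State,
      t.1.2 ≤ ε (k + 1) ∧ t.1.2 * D1 t.1.1 ≤ ε (k + 1) ∧
      (∑' n, ‖t.1.1 n - s.1.1 n‖) ≤ C (k + 1) * (s.1.2 * D1 s.1.1) ∧
      ev t.1.1 '' ball 0 1 ⊆ ev s.1.1 '' ball 0 1 ∧
      Real.exp (-(s.1.2 + ε (k + 1))) * ‖s.1.1 1‖ ≤ ‖t.1.1 1‖ ∧
      SS s.1.1 - (6 * ((1 / 2) ^ (k + 1) / 1000) * SS s.1.1 + ε (k + 1)) ≤ SS t.1.1 ∧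
      low t.1.1 t.1.2 ≤ low s.1.1 s.1.2 + (6 * ((1 / 2) ^ (k + 1) / 1000) * SS s.1.1 + ε (k + 1)) := by
    intro k s
    obtain ⟨a', δ', h1, h2, h3, h4, h5, h6, h7, h8, h9⟩ :=
      hC (k + 1) s.1.1 s.2.1 s.1.2 s.2.2 (ε (k + 1)) (hε (k + 1))
    exact ⟨⟨(a', δ'), h1, h2⟩, h3, h4, h5, h6, h7, h8, h9⟩
  choose nxt hnxt using hnext
  let st : ℕ → State := fun k => Nat.rec ⟨(Pi.single 1 1, 2), start_nice, by norm_num⟩
    (fun k s => nxt k s) k
  have hst0 : st 0 = ⟨(Pi.single 1 1, 2), start_nice, by norm_num⟩ := rfl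
  have hsts : ∀ k, st (k + 1) = nxt k (st k) := fun k => rfl
  have hP := fun k => hnxt k (st k)
  simp only [← hsts] at hP
  have hSS1 : ∀ k, SS (st k).1.1 ≤ 1 := by
    have hmono : ∀ k, volume (ev (st k).1.1 '' ball 0 1) ≤ volume (ev (st 0).1.1 '' ball 0 1) := by
      intro k
      induction k with
      | zero => exact le_rfl
      | succ k ih => exact (measure_mono (hP k).2.2.2.1).trans ih
    intro k
    have h1 := hmono k
    rw [nice_area harea (st k).2.1, nice_area harea (st 0).2.1] at h1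
    have h2 : SS (st 0).1.1 = 1 := start_SS
    rw [h2, mul_one, ENNReal.ofReal_le_ofReal_iff Real.pi_pos.le] at h1
    have := Real.pi_pos
    nlinarith
  have hSSg : ∀ k, 1 - 7 / 1000 * (1 - (1 / 2) ^ k) ≤ SS (st k).1.1 := by
    intro k
    induction k with
    | zero =>
      have h2 : SS (st 0).1.1 = 1 := start_SS
      rw [h2]; norm_num
    | succ k ih =>
      have h1 := (hP k).2.2.2.2.2.1
      have h2 := hSS1 k
      have h3 := hε1 (k + 1)
      have h4 := hhalf k
      have h5 : 6 * ((1 / 2 : ℝ) ^ (k + 1) / 1000) * SS (st k).1.1 ≤ 6 * ((1 / 2) ^ (k + 1) / 1000) :=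
        mul_le_of_le_one_right (by positivity) h2
      rw [pow_succ] at h1 h3 h5 ⊢
      linarith
  have hlow : ∀ k, low (st k).1.1 (st k).1.2 ≤ 0.02 + 7 / 1000 * (1 - (1 / 2) ^ k) := by
    intro k
    induction k with
    | zero =>
      have h2 : low (st 0).1.1 (st 0).1.2 ≤ 0.02 := start_low
      refine h2.trans ?_
      norm_num
    | succ k ih =>
      have h1 := (hP k).2.2.2.2.2.2
      have h2 := hSS1 k
      have h3 := hε1 (k + 1)
      have h4 := hhalf k
      have h5 : 6 * ((1 / 2 : ℝ) ^ (k + 1) / 1000) * SS (st k).1.1 ≤ 6 * ((1 / 2) ^ (k + 1) / 1000) :=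
        mul_le_of_le_one_right (by positivity) h2
      rw [pow_succ] at h1 h3 h5 ⊢
      linarith
  have hone : ∀ k, Real.exp (-(2 + 3 / 1000 * (1 - (1 / 2) ^ (k + 1)))) ≤ ‖(st (k + 1)).1.1 1‖ := by
    intro k
    induction k with
    | zero =>
      refine le_trans ?_ (hP 0).2.2.2.2.1
      have h1 : ‖(st 0).1.1 1‖ = 1 := by
        show ‖(Pi.single 1 1 : ℕ → ℂ) 1‖ = 1
        simp
      have h2 : (st 0).1.2 = 2 := rfl
      rw [h1, h2, mul_one]
      apply Real.exp_le_exp.mpr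
      have h3 := hε1 (0 + 1)
      norm_num at h3 ⊢
      linarith
    | succ k ih =>
      refine le_trans ?_ (hP (k + 1)).2.2.2.2.1
      have h1 : (st (k + 1)).1.2 ≤ ε (k + 1) := (hP k).1
      have h2 := hε1 (k + 1)
      have h3 := hε1 (k + 1 + 1)
      have h4 := hhalf k
      calc Real.exp (-(2 + 3 / 1000 * (1 - (1 / 2) ^ (k + 1 + 1))))
          ≤ Real.exp (-((st (k + 1)).1.2 + ε (k + 1 + 1)) +
              -(2 + 3 / 1000 * (1 - (1 / 2) ^ (k + 1)))) := by
            apply Real.exp_le_exp.mpr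
            rw [pow_succ _ (k + 1)] at h3 ⊢
            linarith
        _ = Real.exp (-((st (k + 1)).1.2 + ε (k + 1 + 1))) *
              Real.exp (-(2 + 3 / 1000 * (1 - (1 / 2) ^ (k + 1)))) := Real.exp_add _ _
        _ ≤ _ := mul_le_mul_of_nonneg_left ih (Real.exp_pos _).le
  refine ⟨fun k => (st (k + 1)).1.1, fun k => (st (k + 1)).1.2, fun k => (st (k + 1)).2.1,
    ?_, ?_, ?_, ?_, ?_, ?_, fun k => (st (k + 1)).2.2⟩
  · intro k
    refine ((hP (k + 1)).2.2.1).trans ?_
    have h1 := (hP k).2.1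
    have h2 := hε2 (k + 1)
    have h3 := hhalf k
    calc C (k + 1 + 1) * ((st (k + 1)).1.2 * D1 (st (k + 1)).1.1) ≤ C (k + 1 + 1) * ε (k + 1) :=
          mul_le_mul_of_nonneg_left h1 (hC0 _)
      _ ≤ (1 / 2) ^ (k + 1) := h2
      _ ≤ (1 / 2) ^ k := by rw [pow_succ]; linarith
  · intro k
    exact (hP (k + 1)).2.2.2.1
  · intro k
    refine le_trans ?_ (hone k)
    apply Real.exp_le_exp.mpr
    have := hhalf (k + 1)
    linarith
  · intro k
    refine le_trans ?_ (hSSg (k + 1))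
    have := hhalf (k + 1)
    norm_num
    linarith
  · intro k
    refine le_trans (hlow (k + 1)) ?_
    have := hhalf (k + 1)
    norm_num
    linarith
  · have h1 : Tendsto (fun k : ℕ => ((1 : ℝ) / 2) ^ k) atTop (𝓝 0) :=
      tendsto_pow_atTop_nhds_zero_of_lt_one (by norm_num) (by norm_num)
    refine squeeze_zero (fun k => (st (k + 1)).2.2.le) (fun k => ?_) h1
    have h2 : (st (k + 1)).1.2 ≤ ε (k + 1) := (hP k).1
    have h3 := hε1 (k + 1)
    have h4 := hhalf k
    rw [pow_succ] at h3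
    linarith

theorem assembly (harea : AreaFormula)
    (hstep : ∀ η : ℝ, 0 < η → η ≤ 1 / 8 → ∃ C : ℝ, 0 ≤ C ∧ StepProp η C) :
    ∃ a : ℕ → ℂ, Summable (fun n => ‖a n‖) ∧ a 0 = 0 ∧ a 1 = 1 ∧
      Set.InjOn (fun z : ℂ => ∑' n, a n * z ^ n) (Metric.ball (0 : ℂ) 1) ∧
      0 < MeasureTheory.volume
        ((fun z : ℂ => ∑' n, a n * z ^ n) '' Metric.sphere (0 : ℂ) 1) := by
  obtain ⟨b, δ, h1, h2, h3, h4, h5, h6, h7, h8⟩ := construct harea hstep
  exact limit_part harea b δ h1 h2 h3 h4 h5 h6 h7 h8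

theorem areaFormula : AreaFormula := fun _ ha hi _ h0 h1 => area_formula ha hi h0 h1

end Pool.Agent.Helper265.Osg
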