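import Mathlib
import Pool.Agent.Helper265.OsgDefs

set_option autoImplicit false
open Complex Set Filter Metric Topology

namespace Pool.Agent.Helper265.Osg

/-- expansions of the powers `exp (s P(w))` -/
structure PowData (b : ℕ) (P : ℂ → ℂ) (p : ℝ) (H : ℝ → ℕ → ℂ) : Prop where
  P0 : P 0 = p
  hp : -(b : ℝ) ≤ p
  hp' : p ≤ 0
  sum : ∀ s : ℝ, 0 < s → ∀ w ∈ ball (0 : ℂ) 1, HasSum (fun j => H s j * w ^ j) (exp (s * P w))
  le_one : ∀ s : ℝ, 0 < s → ∀ j, ‖H s j‖ ≤ 1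
  summ : ∀ s : ℝ, 0 < s → Summable (fun j : ℕ => (j : ℝ) * ‖H s j‖ ^ 2)
  energy : ∀ s : ℝ, 0 < s → ∑' j : ℕ, (j : ℝ) * ‖H s j‖ ^ 2 ≤ 16 * s ^ 2 * b

/-- coefficients of `exp (s (log r + P (r w)))` -/
noncomputable def hc (H : ℝ → ℕ → ℂ) (r s : ℝ) (j : ℕ) : ℂ :=
  ((Real.exp (s * Real.log r) * r ^ j : ℝ) : ℂ) * H s j

section hc
variable {b : ℕ} {P : ℂ → ℂ} {p : ℝ} {H : ℝ → ℕ → ℂ} {r s : ℝ}

theorem exp_log_le (hr0 : 0 < r) (hr1 : r < 1) (hs : 0 < s) : Real.exp (s * Real.log r) ≤ 1 := by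
  rw [Real.exp_le_one_iff]
  have := Real.log_nonpos hr0.le hr1.le
  nlinarith

theorem hc_norm (hr0 : 0 < r) (j : ℕ) :
    ‖hc H r s j‖ = Real.exp (s * Real.log r) * r ^ j * ‖H s j‖ := by
  rw [hc, norm_mul, Complex.norm_real, Real.norm_of_nonneg (by positivity)]

theorem hc_le' (hr0 : 0 < r) (hr1 : r < 1) (hs : 0 < s) (j : ℕ) : ‖hc H r s j‖ ≤ r ^ j * ‖H s j‖ := by
  rw [hc_norm hr0]
  have := exp_log_le hr0 hr1 hs
  have h2 : 0 ≤ r ^ j * ‖H s j‖ := by positivity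
  nlinarith

theorem hc_le (h : PowData b P p H) (hr0 : 0 < r) (hr1 : r < 1) (hs : 0 < s) (j : ℕ) :
    ‖hc H r s j‖ ≤ r ^ j := by
  refine (hc_le' hr0 hr1 hs j).trans ?_
  have := h.le_one s hs j
  have h2 : 0 ≤ r ^ j := by positivity
  nlinarith

theorem hc_hasSum (h : PowData b P p H) (hr0 : 0 < r) (hr1 : r < 1) (hs : 0 < s) {w : ℂ} (hw : ‖w‖ ≤ 1) :
    HasSum (fun j => hc H r s j * w ^ j) (exp (s * (Real.log r + P (r * w)))) := by
  have h1 : (r : ℂ) * w ∈ ball (0 : ℂ) 1 := by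
    rw [mem_ball_zero_iff, norm_mul, Complex.norm_real, Real.norm_of_nonneg hr0.le]
    nlinarith [norm_nonneg w]
  have h2 := (h.sum s hs _ h1).mul_left ((Real.exp (s * Real.log r) : ℝ) : ℂ)
  have e : exp (s * (Real.log r + P (r * w))) = ((Real.exp (s * Real.log r) : ℝ) : ℂ) * exp (s * P (r * w)) := by
    rw [mul_add, exp_add]; push_cast; rfl
  rw [e]
  refine h2.congr_fun ?_ |> fun x => x
  intro j
  simp only [hc, mul_pow]
  push_cast
  ring

theorem hc_zero (h : PowData b P p H) (hr0 : 0 < r) (hr1 : r < 1) (hs : 0 < s) :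
    hc H r s 0 = exp (s * (Real.log r + p)) := by
  have h1 := hc_hasSum h hr0 hr1 hs (w := 0) (by simp)
  have h2 : HasSum (fun j => hc H r s j * (0 : ℂ) ^ j) (hc H r s 0 * (0 : ℂ) ^ 0) := by
    apply hasSum_single
    intro j hj
    rw [zero_pow hj, mul_zero]
  have h3 := h1.unique h2
  rw [pow_zero, mul_one, mul_zero, h.P0] at h3
  exact h3.symm

theorem hc_zero_sub (h : PowData b P p H) (hr0 : 0 < r) (hr1 : r < 1) (hs : 0 < s) :
    ‖hc H r s 0 - 1‖ ≤ s * (b - Real.log r) := by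
  have hlog := Real.log_nonpos hr0.le hr1.le
  rw [hc_zero h hr0 hr1 hs]
  have e : exp (s * (Real.log r + p)) - 1 = ((Real.exp (s * (Real.log r + p)) - 1 : ℝ) : ℂ) := by
    push_cast; rfl
  rw [e, Complex.norm_real, Real.norm_eq_abs, abs_le]
  have h1 := Real.add_one_le_exp (s * (Real.log r + p))
  have h2 : Real.exp (s * (Real.log r + p)) ≤ 1 := by
    rw [Real.exp_le_one_iff]
    have := h.hp'
    nlinarith
  have := h.hp
  have h3 : 0 ≤ s * (b - Real.log r) := by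
    have : (0 : ℝ) ≤ b := Nat.cast_nonneg b
    apply mul_nonneg hs.le; linarith
  constructor
  · nlinarith
  · linarith

theorem hc_tail (h : PowData b P p H) (hr0 : 0 < r) (hr1 : r < 1) (hs : 0 < s) {Λ : ℝ}
    (hΛ : -Real.log (1 - r) ≤ Λ * b) :
    Summable (fun j => ‖hc H r s (j + 1)‖) ∧ ∑' j, ‖hc H r s (j + 1)‖ ≤ s * (b * ((16 + Λ) / 2)) := by
  have hlog : HasSum (fun n : ℕ => r ^ (n + 1) / (n + 1)) (-Real.log (1 - r)) :=
    Real.hasSum_pow_div_log_of_abs_lt_one (by rw [abs_of_pos hr0]; exact hr1)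
  have h1 : Summable (fun j : ℕ => ((j + 1 : ℕ) : ℝ) * ‖H s (j + 1)‖ ^ 2) :=
    (summable_nat_add_iff (f := fun j : ℕ => (j : ℝ) * ‖H s j‖ ^ 2) 1).2 (h.summ s hs)
  have h2 : ∑' j : ℕ, ((j + 1 : ℕ) : ℝ) * ‖H s (j + 1)‖ ^ 2 ≤ 16 * s ^ 2 * b := by
    have := (h.summ s hs).tsum_eq_zero_add
    simp only [Nat.cast_zero, zero_mul, zero_add] at this
    rw [← this]; exact h.energy s hs
  have hsum : Summable (fun j : ℕ => (((j + 1 : ℕ) : ℝ) * ‖H s (j + 1)‖ ^ 2 * (1 / s) + s * (r ^ (j + 1) / (j + 1))) / 2) :=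
    ((h1.mul_right _).add (hlog.summable.mul_left _)).div_const 2
  have hle : ∀ j : ℕ, ‖hc H r s (j + 1)‖ ≤ (((j + 1 : ℕ) : ℝ) * ‖H s (j + 1)‖ ^ 2 * (1 / s) + s * (r ^ (j + 1) / (j + 1))) / 2 := by
    intro j
    refine (hc_le' hr0 hr1 hs (j + 1)).trans ?_
    have hj : (0 : ℝ) < (j : ℝ) + 1 := by positivity
    set x := ‖H s (j + 1)‖ with hx
    have hx0 : 0 ≤ x := norm_nonneg _
    set y := r ^ (j + 1) with hy
    have hy0 : 0 < y := by positivity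
    have hy1 : y ≤ 1 := pow_le_one₀ hr0.le hr1.le
    push_cast
    have e : (((j : ℝ) + 1) * x ^ 2 * (1 / s) + s * (y / (j + 1))) / 2 - y * x =
        ((((j : ℝ) + 1) * x - s * y) ^ 2 + s ^ 2 * (y - y ^ 2)) / (2 * s * (j + 1)) := by
      field_simp
      ring
    have h3 : 0 ≤ ((((j : ℝ) + 1) * x - s * y) ^ 2 + s ^ 2 * (y - y ^ 2)) / (2 * s * (j + 1)) := by
      have : 0 ≤ y - y ^ 2 := by nlinarith
      positivity
    linarith
  have hS : Summable (fun j => ‖hc H r s (j + 1)‖) := Summable.of_nonneg_of_le (fun _ => norm_nonneg _) hle hsum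
  refine ⟨hS, (hS.tsum_le_tsum hle hsum).trans ?_⟩
  rw [tsum_div_const, (h1.mul_right _).tsum_add (hlog.summable.mul_left _), tsum_mul_right, tsum_mul_left,
    hlog.tsum_eq]
  have h4 : (∑' j : ℕ, ((j + 1 : ℕ) : ℝ) * ‖H s (j + 1)‖ ^ 2) * (1 / s) ≤ 16 * s ^ 2 * b * (1 / s) := by
    gcongr
  have h5 : 16 * s ^ 2 * b * (1 / s) = 16 * s * b := by field_simp
  have h6 : s * (-Real.log (1 - r)) ≤ s * (Λ * b) := by gcongr
  nlinarith

theorem hc_moment (h : PowData b P p H) (hb : 1 ≤ b) (hr0 : 0 < r) (hr1 : r < 1) (hs : 0 < s) :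
    Summable (fun j : ℕ => (j : ℝ) * ‖hc H r s j‖) ∧
      ∑' j : ℕ, (j : ℝ) * ‖hc H r s j‖ ≤ s * (9 * Real.sqrt b / (1 - r)) := by
  have hb1 : (1 : ℝ) ≤ b := by exact_mod_cast hb
  have hnr : ‖r‖ < 1 := by rw [Real.norm_of_nonneg hr0.le]; exact hr1
  have hgeo : Summable (fun n : ℕ => (n : ℝ) * r ^ n) := by
    simpa using summable_pow_mul_geometric_of_norm_lt_one 1 hnr
  have hgeos : ∑' n : ℕ, (n : ℝ) * r ^ n = r / (1 - r) ^ 2 := tsum_coe_mul_geometric_of_norm_lt_one hnr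
  set q := Real.sqrt b with hq
  have hq0 : 0 < q := Real.sqrt_pos.2 (by linarith)
  have hqq : q * q = b := Real.mul_self_sqrt (by linarith)
  have h1r : 0 < 1 - r := by linarith
  set lam : ℝ := 1 / (s * q * (1 - r)) with hlam
  have hlam0 : 0 < lam := by positivity
  have hsum : Summable (fun j : ℕ => (((j : ℝ) * ‖H s j‖ ^ 2) * lam + ((j : ℝ) * r ^ j) * (1 / lam)) / 2) :=
    (((h.summ s hs).mul_right _).add (hgeo.mul_right _)).div_const 2
  have hle : ∀ j : ℕ, (j : ℝ) * ‖hc H r s j‖ ≤ (((j : ℝ) * ‖H s j‖ ^ 2) * lam + ((j : ℝ) * r ^ j) * (1 / lam)) / 2 := by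
    intro j
    have h0 : (j : ℝ) * ‖hc H r s j‖ ≤ (j : ℝ) * (r ^ j * ‖H s j‖) := by
      gcongr
      exact hc_le' hr0 hr1 hs j
    refine h0.trans ?_
    set x := ‖H s j‖ with hx
    have hx0 : 0 ≤ x := norm_nonneg _
    set y := r ^ j with hy
    have hy0 : 0 < y := by positivity
    have hy1 : y ≤ 1 := pow_le_one₀ hr0.le hr1.le
    have e : (((j : ℝ) * x ^ 2) * lam + ((j : ℝ) * y) * (1 / lam)) / 2 - (j : ℝ) * (y * x) =
        (j : ℝ) * ((lam * x - y) ^ 2 + (y - y ^ 2)) / (2 * lam) := by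
      field_simp
      ring
    have h3 : 0 ≤ (j : ℝ) * ((lam * x - y) ^ 2 + (y - y ^ 2)) / (2 * lam) := by
      have : 0 ≤ y - y ^ 2 := by nlinarith
      positivity
    linarith
  have hS : Summable (fun j : ℕ => (j : ℝ) * ‖hc H r s j‖) :=
    Summable.of_nonneg_of_le (fun _ => by positivity) hle hsum
  refine ⟨hS, (hS.tsum_le_tsum hle hsum).trans ?_⟩
  rw [tsum_div_const, ((h.summ s hs).mul_right _).tsum_add (hgeo.mul_right _), tsum_mul_right, tsum_mul_right,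
    hgeos]
  have h4 : (∑' j : ℕ, (j : ℝ) * ‖H s j‖ ^ 2) * lam ≤ 16 * s ^ 2 * b * lam := by
    gcongr
    exact h.energy s hs
  have h5 : 16 * s ^ 2 * b * lam = 16 * s * q / (1 - r) := by
    rw [hlam, ← hqq]; field_simp
  have h6 : r / (1 - r) ^ 2 * (1 / lam) ≤ s * q / (1 - r) := by
    have : r / (1 - r) ^ 2 * (1 / lam) = r * (s * q / (1 - r)) := by
      rw [hlam]; field_simp
    rw [this]
    have h7 : 0 < s * q / (1 - r) := by positivity
    nlinarith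
  have h8 : s * (9 * q / (1 - r)) = 9 * (s * q / (1 - r)) := by ring
  have h9 : 16 * s * q / (1 - r) = 16 * (s * q / (1 - r)) := by ring
  have h7 : 0 < s * q / (1 - r) := by positivity
  rw [h8]
  rw [h5, h9] at h4
  linarith

end hc

end Pool.Agent.Helper265.Osg
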