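import Mathlib
import Pool.Agent.Helper265.OsgDefs
import Pool.Agent.Helper265.OsgArea
import Pool.Agent.Helper265.OsgComp

set_option autoImplicit false
open Complex Set Filter Metric Topology

namespace Pool.Agent.Helper265.Osg

/-- sum over a fibre -/
noncomputable def fib (g : ℕ × ℕ → ℕ) (c : ℕ × ℕ → ℂ) (j : ℕ) : ℂ := ∑' p : ↑(g ⁻¹' {j}), c p

theorem fib_weight {g : ℕ × ℕ → ℕ} {c : ℕ × ℕ → ℂ} (hc : Summable (fun p => ‖c p‖)) {w : ℕ → ℝ}
    (hw : ∀ j, 0 ≤ w j) (hcw : Summable (fun p => ‖c p‖ * w (g p))) :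
    Summable (fun j => ‖fib g c j‖ * w j) ∧ ∑' j, ‖fib g c j‖ * w j ≤ ∑' p, ‖c p‖ * w (g p) := by
  have h1 := hcw.hasSum.tsum_fiberwise g
  have hle : ∀ j, ‖fib g c j‖ * w j ≤ ∑' p : ↑(g ⁻¹' {j}), ‖c p‖ * w (g p) := by
    intro j
    have e : ∀ p : ↑(g ⁻¹' {j}), ‖c p‖ * w (g p) = ‖c p‖ * w j := by
      intro p
      have : g p = j := p.2
      rw [this]
    simp only [e]
    rw [tsum_mul_right]
    refine mul_le_mul_of_nonneg_right ?_ (hw j)
    exact norm_tsum_le_tsum_norm (hc.subtype _)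
  have hS : Summable (fun j => ‖fib g c j‖ * w j) :=
    Summable.of_nonneg_of_le (fun j => mul_nonneg (norm_nonneg _) (hw j)) hle h1.summable
  refine ⟨hS, ?_⟩
  rw [← h1.tsum_eq]
  exact hS.tsum_le_tsum hle h1.summable

theorem fib_eval {g : ℕ × ℕ → ℕ} {c : ℕ × ℕ → ℂ} {z : ℂ} (hcz : Summable (fun p => c p * z ^ (g p))) :
    HasSum (fun j => fib g c j * z ^ j) (∑' p, c p * z ^ (g p)) := by
  have h1 := hcz.hasSum.tsum_fiberwise g
  have e2 : (fun j => fib g c j * z ^ j) = fun j => ∑' p : ↑(g ⁻¹' {j}), c p * z ^ (g p) := by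
    funext j
    have e : ∀ p : ↑(g ⁻¹' {j}), c p * z ^ (g p) = c p * z ^ j := by
      intro p
      have : g p = j := p.2
      rw [this]
    simp only [e]
    rw [tsum_mul_right]
    rfl
  rw [e2]
  exact h1

theorem exists_R' {R r : ℝ} (hR : 1 < R) (hr0 : 0 < r) (hr1 : r < 1) (m : ℕ) :
    ∃ R' : ℝ, 1 < R' ∧ R' ≤ R ∧ r * R' ^ m < 1 := by
  have h1 : ContinuousAt (fun x : ℝ => r * x ^ m) 1 := by fun_prop
  have h2 : ∀ᶠ x in 𝓝 (1 : ℝ), r * x ^ m < 1 := by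
    apply h1.eventually_lt continuousAt_const
    simpa using hr1
  have h3 : ∀ᶠ x in 𝓝[>] (1 : ℝ), r * x ^ m < 1 := h2.filter_mono nhdsWithin_le_nhds
  have h4 : ∀ᶠ x in 𝓝[>] (1 : ℝ), x ∈ Ioc 1 R := Ioc_mem_nhdsGT hR
  obtain ⟨x, hx1, hx2⟩ := (h3.and h4).exists
  exact ⟨x, hx2.1, hx2.2, hx1⟩

section comp
variable {b : ℕ} {P : ℂ → ℂ} {p : ℝ} {H : ℝ → ℕ → ℂ} {r : ℝ} {a : ℕ → ℂ} {m : ℕ} {u : ℂ}

/-- double coefficients -/
noncomputable def cc (a : ℕ → ℂ) (H : ℝ → ℕ → ℂ) (r : ℝ) (m : ℕ) (u : ℂ) (q : ℕ × ℕ) : ℂ :=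
  a q.1 * (hc H r ((q.1 : ℝ) / m) q.2 * u ^ q.2)

/-- degrees -/
def gg (m : ℕ) (q : ℕ × ℕ) : ℕ := q.1 + m * q.2

/-- the inner function -/
noncomputable def phi (P : ℂ → ℂ) (r : ℝ) (m : ℕ) (u : ℂ) (z : ℂ) : ℂ :=
  z * exp ((Real.log r + P (r * (u * z ^ m))) / m)

theorem cc_norm_le (ha : a 0 = 0) (h : PowData b P p H) (hr0 : 0 < r) (hr1 : r < 1) (hm : 1 ≤ m)
    (hu : ‖u‖ = 1) (q : ℕ × ℕ) : ‖cc a H r m u q‖ ≤ ‖a q.1‖ * r ^ q.2 := by
  rw [cc, norm_mul, norm_mul, norm_pow, hu, one_pow, mul_one]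
  rcases Nat.eq_zero_or_pos q.1 with h0 | h0
  · rw [h0, ha, norm_zero, zero_mul, zero_mul]
  · gcongr
    apply hc_le h hr0 hr1
    have h1 : (0 : ℝ) < q.1 := by exact_mod_cast h0
    have h2 : (0 : ℝ) < m := by exact_mod_cast hm
    positivity

theorem cc_summable {R' : ℝ} (ha : a 0 = 0) (h : PowData b P p H) (hr0 : 0 < r) (hr1 : r < 1) (hm : 1 ≤ m)
    (hu : ‖u‖ = 1) (hR' : 0 ≤ R') (haR : Summable (fun n => ‖a n‖ * R' ^ n)) (hrR : r * R' ^ m < 1) :
    Summable (fun q => ‖cc a H r m u q‖ * R' ^ (gg m q)) := by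
  have h1 : Summable (fun i : ℕ => (r * R' ^ m) ^ i) :=
    summable_geometric_of_lt_one (by positivity) hrR
  have h2 := haR.mul_of_nonneg h1 (fun n => by positivity) (fun n => by positivity)
  refine Summable.of_nonneg_of_le (fun q => by positivity) (fun q => ?_) h2
  calc ‖cc a H r m u q‖ * R' ^ (gg m q) ≤ (‖a q.1‖ * r ^ q.2) * R' ^ (gg m q) := by
        gcongr; exact cc_norm_le ha h hr0 hr1 hm hu q
    _ = ‖a q.1‖ * R' ^ q.1 * (r * R' ^ m) ^ q.2 := by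
        rw [gg, pow_add, pow_mul, mul_pow]; ring

theorem phi_pow (hm : 1 ≤ m) (z : ℂ) : phi P r m u z ^ m = z ^ m * exp (Real.log r + P (r * (u * z ^ m))) := by
  have hm0 : (m : ℂ) ≠ 0 := by exact_mod_cast (by omega : m ≠ 0)
  rw [phi, mul_pow, ← exp_nat_mul, mul_div_cancel₀ _ hm0]

theorem comp_eval (ha : Nice a) (h : PowData b P p H) (hr0 : 0 < r) (hr1 : r < 1) (hm : 1 ≤ m)
    (hu : ‖u‖ = 1) {z : ℂ} (hz : z ∈ ball (0 : ℂ) 1) :
    ev (fib (gg m) (cc a H r m u)) z = ev a (phi P r m u z) := by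
  have hz1 : ‖z‖ < 1 := by simpa using hz
  obtain ⟨R, hR, haR⟩ := ha.sum
  have ha1 : Summable (fun n => ‖a n‖ * ‖z‖ ^ n) := by
    refine Summable.of_nonneg_of_le (fun n => by positivity) (fun n => ?_) haR
    gcongr
    linarith
  have hrz : r * ‖z‖ ^ m < 1 := by
    have : ‖z‖ ^ m ≤ 1 := pow_le_one₀ (norm_nonneg _) hz1.le
    nlinarith
  have hs := cc_summable ha.zero h hr0 hr1 hm hu (norm_nonneg z) ha1 hrz
  have hs' : Summable (fun q => cc a H r m u q * z ^ (gg m q)) := by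
    refine Summable.of_norm_bounded hs fun q => ?_
    rw [norm_mul, norm_pow]
  rw [ev, (fib_eval hs').tsum_eq, hs'.tsum_prod, ev]
  congr 1
  ext n
  have hm0 : (m : ℂ) ≠ 0 := by exact_mod_cast (by omega : m ≠ 0)
  rcases Nat.eq_zero_or_pos n with h0 | h0
  · subst h0
    simp [cc, ha.zero]
  · have hn1 : (0 : ℝ) < n := by exact_mod_cast h0
    have hm2 : (0 : ℝ) < m := by exact_mod_cast hm
    have hw : ‖u * z ^ m‖ ≤ 1 := by
      rw [norm_mul, hu, one_mul, norm_pow]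
      exact pow_le_one₀ (norm_nonneg _) hz1.le
    have h2 := hc_hasSum h hr0 hr1 (s := (n : ℝ) / m) (by positivity) hw
    have h3 := (h2.mul_left (a n * z ^ n)).tsum_eq
    have e1 : ∀ i, a n * z ^ n * (hc H r ((n : ℝ) / m) i * (u * z ^ m) ^ i) =
        cc a H r m u (n, i) * z ^ (gg m (n, i)) := by
      intro i
      simp only [cc, gg]
      rw [pow_add, pow_mul, mul_pow]
      ring
    simp only [e1] at h3
    rw [h3, phi, mul_pow, ← exp_nat_mul, mul_assoc]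
    congr 3
    push_cast
    field_simp

theorem comp_zero (ha : Nice a) (hm : 1 ≤ m) : fib (gg m) (cc a H r m u) 0 = 0 := by
  unfold fib
  have : ∀ q : ↑((gg m) ⁻¹' {0}), cc a H r m u q = 0 := by
    rintro ⟨⟨n, i⟩, hq⟩
    have h1 : n + m * i = 0 := hq
    have h2 : n = 0 := by omega
    simp [cc, h2, ha.zero]
  simp only [this, tsum_zero]

theorem comp_one (ha : Nice a) (h : PowData b P p H) (hr0 : 0 < r) (hr1 : r < 1) (hm : 2 ≤ m) :
    fib (gg m) (cc a H r m u) 1 = a 1 * exp ((Real.log r + p) / m) := by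
  unfold fib
  have hmem : ((1, 0) : ℕ × ℕ) ∈ (gg m) ⁻¹' {1} := by simp [gg]
  rw [tsum_eq_single (⟨(1, 0), hmem⟩ : ↑((gg m) ⁻¹' {1}))]
  · have hm2 : (0 : ℝ) < m := by exact_mod_cast (by omega : 0 < m)
    simp only [cc, pow_zero, mul_one]
    rw [hc_zero h hr0 hr1 (by positivity)]
    congr 2
    push_cast
    ring
  · rintro ⟨⟨n, i⟩, hq⟩ hne
    have h1 : n + m * i = 1 := hq
    rcases Nat.eq_zero_or_pos i with h0 | h0
    · subst h0
      exfalso
      apply hne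
      have : n = 1 := by simpa using h1
      subst this
      rfl
    · have : 2 ≤ m * i := le_trans hm (Nat.le_mul_of_pos_right m h0)
      omega

/-- the unperturbed coefficients as double coefficients -/
def dd (a : ℕ → ℂ) (q : ℕ × ℕ) : ℂ := if q.2 = 0 then a q.1 else 0

theorem fib_dd (a : ℕ → ℂ) (m : ℕ) (j : ℕ) : fib (gg m) (dd a) j = a j := by
  unfold fib
  have hmem : ((j, 0) : ℕ × ℕ) ∈ (gg m) ⁻¹' {j} := by simp [gg]
  rw [tsum_eq_single (⟨(j, 0), hmem⟩ : ↑((gg m) ⁻¹' {j}))]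
  · simp [dd]
  · rintro ⟨⟨n, i⟩, hq⟩ hne
    have h1 : n + m * i = j := hq
    rcases Nat.eq_zero_or_pos i with h0 | h0
    · subst h0
      exfalso
      apply hne
      have : n = j := by simpa using h1
      subst this
      rfl
    · simp only [dd]
      rw [if_neg (by omega)]

theorem dd_summable (ha : Summable (fun n => ‖a n‖)) : Summable (fun q => ‖dd a q‖) := by
  have h1 : Summable (fun i : ℕ => if i = 0 then (1 : ℝ) else 0) :=
    summable_of_ne_finset_zero (s := {0}) (fun i hi => by simpa using hi)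
  have h2 := ha.mul_of_nonneg h1 (fun n => norm_nonneg _) (fun n => by
    show (0 : ℝ) ≤ if n = 0 then (1 : ℝ) else 0
    split_ifs <;> norm_num)
  refine h2.congr fun q => ?_
  simp only [dd]
  split_ifs <;> simp

theorem nice_sum1 (ha : Nice a) : Summable (fun n => ‖a n‖) := by
  obtain ⟨R, hR, haR⟩ := ha.sum
  refine Summable.of_nonneg_of_le (fun n => norm_nonneg _) (fun n => ?_) haR
  have : 1 ≤ R ^ n := one_le_pow₀ hR.le
  nlinarith [norm_nonneg (a n)]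

theorem nat_le_pow {R : ℝ} (hR : 1 < R) (k : ℕ) : ∃ K : ℝ, 0 ≤ K ∧ ∀ n : ℕ, (n : ℝ) ^ k ≤ K * R ^ n := by
  have h1 : Summable (fun n : ℕ => (n : ℝ) ^ k * (R⁻¹) ^ n) := by
    apply summable_pow_mul_geometric_of_norm_lt_one
    rw [Real.norm_of_nonneg (by positivity)]
    exact inv_lt_one_of_one_lt₀ hR
  obtain ⟨K, hK⟩ := h1.tendsto_atTop_zero.bddAbove_range
  refine ⟨max K 0, le_max_right _ _, fun n => ?_⟩
  have h2 : (n : ℝ) ^ k * (R⁻¹) ^ n ≤ max K 0 := le_trans (hK ⟨n, rfl⟩) (le_max_left _ _)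
  have h3 : (0 : ℝ) < R ^ n := by positivity
  rw [inv_pow, ← div_eq_mul_inv, div_le_iff₀ h3] at h2
  exact h2

theorem nice_sumk (ha : Nice a) (k : ℕ) : Summable (fun n : ℕ => (n : ℝ) ^ k * ‖a n‖) := by
  obtain ⟨R, hR, haR⟩ := ha.sum
  obtain ⟨K, hK0, hK⟩ := nat_le_pow hR k
  refine Summable.of_nonneg_of_le (fun n => by positivity) (fun n => ?_) (haR.mul_left K)
  have := hK n
  have h2 := norm_nonneg (a n)
  nlinarith

end comp

end Pool.Agent.Helper265.Osg
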