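import Mathlib
import Pool.Agent.Helper265.OsgComp2

set_option autoImplicit false
open Complex Set Filter Metric Topology

namespace Pool.Agent.Helper265.Osg

variable {b : ℕ} {P : ℂ → ℂ} {p : ℝ} {H : ℝ → ℕ → ℂ} {r : ℝ} {a : ℕ → ℂ} {m : ℕ} {u : ℂ} {Λ : ℝ}

theorem cc_summable1 (ha : Nice a) (h : PowData b P p H) (hr0 : 0 < r) (hr1 : r < 1) (hm : 1 ≤ m)
    (hu : ‖u‖ = 1) : Summable (fun q => ‖cc a H r m u q‖) := by
  have h1 := cc_summable (R' := 1) ha.zero h hr0 hr1 hm hu zero_le_one (by simpa using nice_sum1 ha) (by simpa using hr1)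
  simpa using h1

theorem comp_sum (ha : Nice a) (h : PowData b P p H) (hr0 : 0 < r) (hr1 : r < 1) (hm : 1 ≤ m)
    (hu : ‖u‖ = 1) :
    ∃ R' : ℝ, 1 < R' ∧ Summable (fun q => ‖cc a H r m u q‖ * R' ^ (gg m q)) ∧
      Summable (fun j => ‖fib (gg m) (cc a H r m u) j‖ * R' ^ j) := by
  obtain ⟨R, hR, haR⟩ := ha.sum
  obtain ⟨R', h1, h2, h3⟩ := exists_R' hR hr0 hr1 m
  have haR' : Summable (fun n => ‖a n‖ * R' ^ n) := by
    refine Summable.of_nonneg_of_le (fun n => by positivity) (fun n => ?_) haR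
    gcongr
  have h4 := cc_summable ha.zero h hr0 hr1 hm hu (by linarith) haR' h3
  exact ⟨R', h1, h4, (fib_weight (cc_summable1 ha h hr0 hr1 hm hu) (w := fun j => R' ^ j)
    (fun j => by positivity) h4).1⟩

theorem hc_summable (h : PowData b P p H) (hr0 : 0 < r) (hr1 : r < 1) {s : ℝ} (hs : 0 < s)
    (hΛ : -Real.log (1 - r) ≤ Λ * b) : Summable (fun i => ‖hc H r s i‖) :=
  (summable_nat_add_iff (f := fun i => ‖hc H r s i‖) 1).1 (hc_tail h hr0 hr1 hs hΛ).1

theorem comp_diff (ha : Nice a) (h : PowData b P p H) (hr0 : 0 < r) (hr1 : r < 1) (hm : 1 ≤ m)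
    (hu : ‖u‖ = 1) (hΛ : -Real.log (1 - r) ≤ Λ * b) :
    ∑' j, ‖fib (gg m) (cc a H r m u) j - a j‖ ≤ D1 a * ((b - Real.log r + b * ((16 + Λ) / 2)) / m) := by
  have hm2 : (0 : ℝ) < m := by exact_mod_cast hm
  have hcs := cc_summable1 ha h hr0 hr1 hm hu
  have hds := dd_summable (nice_sum1 ha)
  have hes : Summable (fun q => ‖cc a H r m u q - dd a q‖) :=
    Summable.of_nonneg_of_le (fun q => norm_nonneg _) (fun q => norm_sub_le _ _) (hcs.add hds)
  have hfib : ∀ j, fib (gg m) (cc a H r m u) j - a j = fib (gg m) (fun q => cc a H r m u q - dd a q) j := by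
    intro j
    rw [← fib_dd a m j]
    unfold fib
    exact ((hcs.of_norm.subtype (gg m ⁻¹' {j})).tsum_sub (hds.of_norm.subtype (gg m ⁻¹' {j}))).symm
  have h1 := fib_weight (g := gg m) hes (w := fun _ => 1) (fun _ => zero_le_one) (by simpa using hes)
  simp only [mul_one] at h1
  simp only [hfib]
  refine h1.2.trans ?_
  rw [hes.tsum_prod]
  have hlog := Real.log_nonpos hr0.le hr1.le
  have hle : ∀ n : ℕ, ∑' i, ‖cc a H r m u (n, i) - dd a (n, i)‖ ≤
      (n : ℝ) * ‖a n‖ * ((b - Real.log r + b * ((16 + Λ) / 2)) / m) := by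
    intro n
    rcases Nat.eq_zero_or_pos n with h0 | h0
    · subst h0
      have : ∀ i, ‖cc a H r m u (0, i) - dd a (0, i)‖ = 0 := by
        intro i
        simp only [cc, dd, ha.zero]
        split_ifs <;> simp
      simp [this]
    · have hn1 : (0 : ℝ) < n := by exact_mod_cast h0
      have hs : 0 < (n : ℝ) / m := by positivity
      have hfs : Summable (fun i => ‖cc a H r m u (n, i) - dd a (n, i)‖) :=
        hes.prod_factor n
      rw [hfs.tsum_eq_zero_add]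
      have e0 : ‖cc a H r m u (n, 0) - dd a (n, 0)‖ = ‖a n‖ * ‖hc H r ((n : ℝ) / m) 0 - 1‖ := by
        rw [← norm_mul]
        simp only [cc, dd, pow_zero, if_true, mul_one]
        congr 1
        ring
      have e1 : ∀ i, ‖cc a H r m u (n, i + 1) - dd a (n, i + 1)‖ = ‖a n‖ * ‖hc H r ((n : ℝ) / m) (i + 1)‖ := by
        intro i
        simp only [cc, dd]
        rw [if_neg (by omega), sub_zero, norm_mul, norm_mul, norm_pow, hu, one_pow, mul_one]
      rw [e0]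
      simp only [e1]
      rw [tsum_mul_left, ← mul_add]
      have k1 := hc_zero_sub h hr0 hr1 hs
      have k2 := (hc_tail h hr0 hr1 hs hΛ).2
      calc ‖a n‖ * (‖hc H r ((n : ℝ) / m) 0 - 1‖ + ∑' i, ‖hc H r ((n : ℝ) / m) (i + 1)‖)
          ≤ ‖a n‖ * ((n : ℝ) / m * (b - Real.log r) + (n : ℝ) / m * (b * ((16 + Λ) / 2))) := by gcongr
        _ = (n : ℝ) * ‖a n‖ * ((b - Real.log r + b * ((16 + Λ) / 2)) / m) := by
            field_simp
  have hD1 : Summable (fun n : ℕ => (n : ℝ) * ‖a n‖) := by simpa using nice_sumk ha 1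
  refine (hes.prod.tsum_le_tsum hle (hD1.mul_right _)).trans ?_
  rw [tsum_mul_right, D1]

theorem comp_D1 (ha : Nice a) (h : PowData b P p H) (hb : 1 ≤ b) (hr0 : 0 < r) (hr1 : r < 1) (hm : 1 ≤ m)
    (hu : ‖u‖ = 1) (hΛ : -Real.log (1 - r) ≤ Λ * b) :
    D1 (fib (gg m) (cc a H r m u)) ≤ D1 a + b * ((16 + Λ) / 2) / m * (∑' n : ℕ, (n : ℝ) ^ 2 * ‖a n‖) +
      9 * Real.sqrt b / (1 - r) * D1 a := by
  have hm2 : (0 : ℝ) < m := by exact_mod_cast hm
  have hcs := cc_summable1 ha h hr0 hr1 hm hu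
  obtain ⟨R', hR', hcR, -⟩ := comp_sum ha h hr0 hr1 hm hu
  obtain ⟨K, hK0, hK⟩ := nat_le_pow hR' 1
  have hcg : Summable (fun q => ‖cc a H r m u q‖ * ((gg m q : ℕ) : ℝ)) := by
    refine Summable.of_nonneg_of_le (fun q => by positivity) (fun q => ?_) (hcR.mul_left K)
    have h1 := hK (gg m q)
    rw [pow_one] at h1
    have h2 := norm_nonneg (cc a H r m u q)
    nlinarith
  have h1 := fib_weight (g := gg m) hcs (w := fun j => (j : ℝ)) (fun _ => Nat.cast_nonneg _) hcg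
  have e0 : D1 (fib (gg m) (cc a H r m u)) = ∑' j, ‖fib (gg m) (cc a H r m u) j‖ * (j : ℝ) := by
    unfold D1
    congr 1
    ext j
    ring
  rw [e0]
  refine h1.2.trans ?_
  rw [hcg.tsum_prod]
  have h1r : 0 < 1 - r := by linarith
  have hle : ∀ n : ℕ, ∑' i, ‖cc a H r m u (n, i)‖ * ((gg m (n, i) : ℕ) : ℝ) ≤
      (n : ℝ) * ‖a n‖ + b * ((16 + Λ) / 2) / m * ((n : ℝ) ^ 2 * ‖a n‖) +
        9 * Real.sqrt b / (1 - r) * ((n : ℝ) * ‖a n‖) := by
    intro n
    rcases Nat.eq_zero_or_pos n with h0 | h0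
    · subst h0
      have : ∀ i, ‖cc a H r m u (0, i)‖ * ((gg m (0, i) : ℕ) : ℝ) = 0 := by
        intro i
        simp only [cc, ha.zero]
        simp
      simp [this]
    · have hn1 : (0 : ℝ) < n := by exact_mod_cast h0
      have hs : 0 < (n : ℝ) / m := by positivity
      have k0 := hc_summable h hr0 hr1 hs hΛ
      have k1 := hc_le h hr0 hr1 hs 0
      rw [pow_zero] at k1
      have k2 := (hc_tail h hr0 hr1 hs hΛ).2
      have k3 := hc_moment h hb hr0 hr1 hs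
      have e1 : ∀ i, ‖cc a H r m u (n, i)‖ * ((gg m (n, i) : ℕ) : ℝ) =
          ‖a n‖ * (n * ‖hc H r ((n : ℝ) / m) i‖ + m * ((i : ℝ) * ‖hc H r ((n : ℝ) / m) i‖)) := by
        intro i
        simp only [cc, gg]
        rw [norm_mul, norm_mul, norm_pow, hu, one_pow, mul_one]
        push_cast
        ring
      simp only [e1]
      rw [tsum_mul_left, (k0.mul_left _).tsum_add (k3.1.mul_left _), tsum_mul_left, tsum_mul_left]
      have k4 : ∑' i, ‖hc H r ((n : ℝ) / m) i‖ ≤ 1 + (n : ℝ) / m * (b * ((16 + Λ) / 2)) := by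
        rw [k0.tsum_eq_zero_add]
        linarith
      calc ‖a n‖ * (n * ∑' i, ‖hc H r ((n : ℝ) / m) i‖ + m * ∑' i : ℕ, (i : ℝ) * ‖hc H r ((n : ℝ) / m) i‖)
          ≤ ‖a n‖ * (n * (1 + (n : ℝ) / m * (b * ((16 + Λ) / 2))) + m * ((n : ℝ) / m * (9 * Real.sqrt b / (1 - r)))) := by
            gcongr
            exact k3.2
        _ = (n : ℝ) * ‖a n‖ + b * ((16 + Λ) / 2) / m * ((n : ℝ) ^ 2 * ‖a n‖) +
        9 * Real.sqrt b / (1 - r) * ((n : ℝ) * ‖a n‖) := by
            field_simp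
  have hD1 : Summable (fun n : ℕ => (n : ℝ) * ‖a n‖) := by simpa using nice_sumk ha 1
  have hD2 : Summable (fun n : ℕ => (n : ℝ) ^ 2 * ‖a n‖) := nice_sumk ha 2
  refine (hcg.prod.tsum_le_tsum hle ((hD1.add (hD2.mul_left _)).add (hD1.mul_left _))).trans ?_
  rw [(hD1.add (hD2.mul_left _)).tsum_add (hD1.mul_left _), hD1.tsum_add (hD2.mul_left _), tsum_mul_left,
    tsum_mul_left, D1]

end Pool.Agent.Helper265.Osg
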