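import Mathlib
import Pool.Agent.Helper405.Riemann
import Pool.Agent.Helper265.OsgRMT

set_option autoImplicit false
open Complex Set Filter Metric Topology Function

namespace Pool.Agent.Helper265.Osg

open Pool.Agent.Helper405.Riemann

/-- Schwarz lemma for self maps of the disc. -/
theorem schwarz {f : ℂ → ℂ} (hf : DifferentiableOn ℂ f (ball 0 1))
    (hm : MapsTo f (ball 0 1) (ball 0 1)) (h0 : f 0 = 0) {z : ℂ} (hz : z ∈ ball (0 : ℂ) 1) :
    ‖f z‖ ≤ ‖z‖ := by
  have h1 : MapsTo f (ball 0 1) (closedBall (f 0) 1) := by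
    rw [h0]; exact hm.mono_right ball_subset_closedBall
  have := Complex.dist_le_div_mul_dist_of_mapsTo_ball hf h1 hz
  rw [h0] at this
  simpa [dist_eq_norm] using this

variable {Y : Type*}

open Classical in
/-- modulus of the inverse Riemann map at `c`, extended by `1` -/
noncomputable def val (U : Y → Set ℂ) (φ : Y → ℂ → ℂ) (c : ℂ) (y : Y) : ℝ :=
  if c ∈ U y then ‖φ y c‖ else 1

theorem val_mem {U : Y → Set ℂ} {g φ : Y → ℂ → ℂ} (hRM : ∀ y, RM (U y) (g y) (φ y)) (c : ℂ) (y : Y) :
    val U φ c y ∈ Icc (0 : ℝ) 1 := by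
  unfold val
  split_ifs with h
  · have := (hRM y).mφ h
    rw [mem_ball_zero_iff] at this
    exact ⟨norm_nonneg _, this.le⟩
  · exact ⟨zero_le_one, le_refl _⟩

/-- Continuity of the modulus of the Riemann maps of a continuous family of domains. -/
theorem tendsto_val {U : Y → Set ℂ} {g φ : Y → ℂ → ℂ} (hopen : ∀ y, IsOpen (U y))
    (hsub : ∀ y, U y ⊆ ball 0 1) (h0 : ∀ y, (0 : ℂ) ∈ U y)
    (hRM : ∀ y, RM (U y) (g y) (φ y)) (l : Filter Y) (y : Y)
    (H1 : ∀ u ∈ U y, ∀ᶠ p in 𝓝 u ×ˢ l, p.1 ∈ U p.2)
    (H2 : ∀ p ∈ frontier (U y), ∀ ε > 0, ∀ᶠ y' in l, ∃ p' : ℂ, p' ∉ U y' ∧ dist p' p < ε) (c : ℂ) :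
    Tendsto (val U φ c) l (𝓝 (val U φ c y)) := by
  rw [tendsto_iff_ultrafilter]
  intro G hG
  -- the limit exists
  obtain ⟨lam, hlam, hlim⟩ : ∃ lam ∈ Icc (0 : ℝ) 1, Tendsto (val U φ c) G (𝓝 lam) := by
    have hmem : (Ultrafilter.map (val U φ c) G : Filter ℝ) ≤ 𝓟 (Icc (0 : ℝ) 1) := by
      rw [le_principal_iff]
      show (val U φ c) ⁻¹' (Icc (0 : ℝ) 1) ∈ (G : Filter Y)
      exact Filter.univ_mem' (fun y' => val_mem hRM c y')
    obtain ⟨x, hx, hx'⟩ := isCompact_Icc.ultrafilter_le_nhds _ hmem
    exact ⟨x, hx, hx'⟩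
  suffices h : lam = val U φ c y by rwa [h] at hlim
  apply le_antisymm
  · -- upper bound for the limit
    by_cases hc : c ∈ U y
    · have hv : val U φ c y = ‖φ y c‖ := if_pos hc
      rw [hv]
      have hz0 : ‖φ y c‖ < 1 := by simpa using (hRM y).mφ hc
      set z0 := φ y c with hz0def
      have key : ∀ ρ : ℝ, ‖z0‖ < ρ → ρ < 1 → lam ≤ ‖z0‖ / ρ := by
        intro ρ h1 h2
        have hρ : 0 < ρ := lt_of_le_of_lt (norm_nonneg _) h1
        have hKsub : g y '' (closedBall 0 ρ) ⊆ U y := by
          rintro _ ⟨z, hz, rfl⟩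
          apply (hRM y).mg
          exact closedBall_subset_ball h2 hz
        have hK : IsCompact (g y '' (closedBall 0 ρ)) :=
          (isCompact_closedBall _ _).image_of_continuousOn
            ((hRM y).dg.continuousOn.mono (closedBall_subset_ball h2))
        have hev : ∀ᶠ y' in l, ∀ u ∈ g y '' (closedBall 0 ρ), u ∈ U y' := by
          have h3 : ∀ x ∈ g y '' (closedBall 0 ρ), ∀ᶠ p in 𝓝 x ×ˢ l, (fun p : ℂ × Y => p.1 ∈ U p.2) p :=
            fun x hx => H1 x (hKsub hx)
          have h4 : ∀ᶠ p in 𝓝ˢ (g y '' (closedBall 0 ρ)) ×ˢ l, (fun p : ℂ × Y => p.1 ∈ U p.2) p := by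
            rw [hK.nhdsSet_prod_eq_biSup]
            rw [Filter.eventually_iSup]
            intro x
            rw [Filter.eventually_iSup]
            intro hx
            exact h3 x hx
          obtain ⟨pa, hpa, pb, hpb, hab⟩ := Filter.eventually_prod_iff.1 h4
          filter_upwards [hpb] with y' hy' u hu
          exact hab (hpa.self_of_nhdsSet u hu) hy'
        apply le_of_tendsto hlim
        filter_upwards [hG hev] with y' hy'
        have hcy : c ∈ U y' := by
          apply hy'
          refine ⟨z0, by simpa using h1.le, (hRM y).gφ c hc⟩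
        have hv' : val U φ c y' = ‖φ y' c‖ := if_pos hcy
        rw [hv']
        set F : ℂ → ℂ := fun ζ => φ y' (g y ((ρ : ℂ) * ζ)) with hF
        have hρζ : ∀ ζ ∈ ball (0 : ℂ) 1, (ρ : ℂ) * ζ ∈ ball (0 : ℂ) ρ := by
          intro ζ hζ
          rw [mem_ball_zero_iff] at hζ ⊢
          rw [norm_mul, Complex.norm_real, Real.norm_of_nonneg hρ.le]
          nlinarith
        have hgin : ∀ ζ ∈ ball (0 : ℂ) 1, g y ((ρ : ℂ) * ζ) ∈ U y' := by
          intro ζ hζ
          exact hy' _ ⟨_, ball_subset_closedBall (hρζ ζ hζ), rfl⟩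
        have hFd : DifferentiableOn ℂ F (ball 0 1) := by
          have e1 : DifferentiableOn ℂ (fun ζ : ℂ => g y ((ρ : ℂ) * ζ)) (ball 0 1) := by
            apply (hRM y).dg.comp (by fun_prop)
            intro ζ hζ
            exact ball_subset_ball h2.le (hρζ ζ hζ)
          exact (hRM y').dφ.comp e1 hgin
        have hFm : MapsTo F (ball 0 1) (ball 0 1) := fun ζ hζ => (hRM y').mφ (hgin ζ hζ)
        have hF0 : F 0 = 0 := by
          simp only [hF, mul_zero, (hRM y).g0, (hRM y').φ0]
        have hz1 : z0 / ρ ∈ ball (0 : ℂ) 1 := by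
          rw [mem_ball_zero_iff, norm_div, Complex.norm_real, Real.norm_of_nonneg hρ.le, div_lt_one hρ]
          exact h1
        have := schwarz hFd hFm hF0 hz1
        have e2 : F (z0 / ρ) = φ y' c := by
          simp only [hF]
          rw [mul_div_cancel₀ _ (by exact_mod_cast hρ.ne'), hz0def, (hRM y).gφ c hc]
        rw [e2, norm_div, Complex.norm_real, Real.norm_of_nonneg hρ.le] at this
        exact this
      -- let ρ → 1
      have hlim2 : Tendsto (fun ρ : ℝ => ‖z0‖ / ρ) (𝓝[<] 1) (𝓝 (‖z0‖ / 1)) := by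
        apply Tendsto.div tendsto_const_nhds (tendsto_id.mono_left nhdsWithin_le_nhds) one_ne_zero
      rw [div_one] at hlim2
      apply ge_of_tendsto hlim2
      filter_upwards [Ioo_mem_nhdsLT hz0] with ρ hρ
      exact key ρ hρ.1 hρ.2
    · have hv : val U φ c y = 1 := if_neg hc
      rw [hv]; exact hlam.2
  · -- lower bound
    rcases eq_or_lt_of_le hlam.2 with h | hlt
    · rw [h]; exact (val_mem hRM c y).2
    -- eventually c ∈ U y'
    have hcev : ∀ᶠ y' in (G : Filter Y), c ∈ U y' := by
      filter_upwards [hlim.eventually_lt_const hlt] with y' hy'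
      by_contra hcon
      have : val U φ c y' = 1 := if_neg hcon
      linarith
    have hball : IsPreconnected (ball (0 : ℂ) 1) := (convex_ball _ _).isPreconnected
    -- limit of the points φ y' c
    obtain ⟨z1, hz1, hz1lim⟩ : ∃ z1 ∈ closedBall (0 : ℂ) 1, Tendsto (fun y' => φ y' c) G (𝓝 z1) := by
      have hmem : (Ultrafilter.map (fun y' => φ y' c) G : Filter ℂ) ≤ 𝓟 (closedBall (0 : ℂ) 1) := by
        rw [le_principal_iff]
        show (fun y' => φ y' c) ⁻¹' (closedBall (0 : ℂ) 1) ∈ (G : Filter Y)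
        filter_upwards [hcev] with y' hy'
        exact ball_subset_closedBall ((hRM y').mφ hy')
      obtain ⟨x, hx, hx'⟩ := (isCompact_closedBall (0 : ℂ) 1).ultrafilter_le_nhds _ hmem
      exact ⟨x, hx, hx'⟩
    have hz1n : ‖z1‖ = lam := by
      have h1 : Tendsto (fun y' => ‖φ y' c‖) G (𝓝 ‖z1‖) := hz1lim.norm
      have h2 : Tendsto (fun y' => ‖φ y' c‖) G (𝓝 lam) := by
        refine hlim.congr' ?_
        filter_upwards [hcev] with y' hy'
        exact if_pos hy'
      exact tendsto_nhds_unique h1 h2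
    have hz1b : z1 ∈ ball (0 : ℂ) 1 := by rw [mem_ball_zero_iff, hz1n]; exact hlt
    -- limit of g
    have hpt : ∀ z ∈ ball (0 : ℂ) 1, ∃ w : ℂ, Tendsto (fun y' => g y' z) G (𝓝 w) := by
      intro z hz
      have hmem : (Ultrafilter.map (fun y' => g y' z) G : Filter ℂ) ≤ 𝓟 (closedBall (0 : ℂ) 1) := by
        rw [le_principal_iff]
        show (fun y' => g y' z) ⁻¹' (closedBall (0 : ℂ) 1) ∈ (G : Filter Y)
        apply Filter.univ_mem'
        intro y'
        exact ball_subset_closedBall (hsub y' ((hRM y').mg hz))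
      obtain ⟨x, _, hx'⟩ := (isCompact_closedBall (0 : ℂ) 1).ultrafilter_le_nhds _ hmem
      exact ⟨x, hx'⟩
    choose! f hf using hpt
    have htlu : TendstoLocallyUniformlyOn g f (G : Filter Y) (ball 0 1) :=
      tlu_of_pointwise isOpen_ball (M := 1) (fun y' => (hRM y').dg)
        (fun y' z hz => by
          have := hsub y' ((hRM y').mg hz)
          rw [mem_ball_zero_iff] at this
          exact this.le) hf
    have hfd : DifferentiableOn ℂ f (ball 0 1) :=
      htlu.differentiableOn (Eventually.of_forall fun y' => (hRM y').dg) isOpen_ball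
    have hf0 : f 0 = 0 := by
      have h1 := hf 0 (by simp)
      have h2 : Tendsto (fun y' => g y' 0) (G : Filter Y) (𝓝 0) := by
        have : (fun y' => g y' 0) = fun _ => (0 : ℂ) := by
          funext y'; exact (hRM y').g0
        rw [this]; exact tendsto_const_nhds
      exact tendsto_nhds_unique h1 h2
    have hana : AnalyticOnNhd ℂ f (ball 0 1) := hfd.analyticOnNhd isOpen_ball
    have hfc : f z1 = c := by
      have h1 : Tendsto (fun y' => g y' (φ y' c)) G (𝓝 (f z1)) := by
        apply htlu.tendsto_comp (hfd.continuousOn z1 hz1b) hz1b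
        rw [isOpen_ball.nhdsWithin_eq hz1b]
        exact hz1lim
      have h2 : Tendsto (fun y' => g y' (φ y' c)) G (𝓝 c) := by
        refine tendsto_const_nhds.congr' ?_
        filter_upwards [hcev] with y' hy'
        exact ((hRM y').gφ c hy').symm
      exact tendsto_nhds_unique h1 h2
    -- the image of f avoids the frontier
    have havoid : ∀ z ∈ ball (0 : ℂ) 1, f z ∉ frontier (U y) := by
      intro z hz hfr
      set p := f z with hp
      have hpU : p ∉ U y := by
        intro h
        rw [(hopen y).frontier_eq] at hfr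
        exact hfr.2 h
      have hne : ∀ y', ((U y')ᶜ).Nonempty := by
        intro y'
        refine ⟨1, fun h => ?_⟩
        have := hsub y' h
        simp at this
      have hnear : ∀ y', ∃ p' : ℂ, p' ∉ U y' ∧ infDist p ((U y')ᶜ) = dist p p' := by
        intro y'
        obtain ⟨p', h1, h2⟩ := (hopen y').isClosed_compl.exists_infDist_eq_dist (hne y') p
        exact ⟨p', h1, h2⟩
      choose p' hp'1 hp'2 using hnear
      have hp'lim : Tendsto p' (G : Filter Y) (𝓝 p) := by
        rw [Metric.tendsto_nhds]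
        intro ε hε
        filter_upwards [hG (H2 p hfr ε hε)] with y' hy'
        obtain ⟨q, hq1, hq2⟩ := hy'
        rw [dist_comm, ← hp'2 y']
        refine lt_of_le_of_lt (infDist_le_dist_of_mem (show q ∈ (U y')ᶜ from hq1)) ?_
        rwa [dist_comm]
      -- bounded family
      have htlu' : TendstoLocallyUniformlyOn (fun y' x => g y' x - p' y') (fun x => f x - p)
          (G : Filter Y) (ball 0 1) := by
        have hc' : TendstoLocallyUniformlyOn (fun y' (_ : ℂ) => p' y') (fun _ => p) (G : Filter Y)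
            (ball 0 1) := by
          rw [Metric.tendstoLocallyUniformlyOn_iff]
          intro ε hε x _
          refine ⟨univ, univ_mem, ?_⟩
          filter_upwards [(Metric.tendsto_nhds.1 hp'lim) ε hε] with y' hy' w _
          rwa [dist_comm]
        exact htlu.sub hc'
      have hev := hurwitz (l := (G : Filter Y)) isOpen_ball (F := fun y' x => g y' x - p' y')
        (f := fun x => f x - p) (fun y' => (hRM y').dg.sub_const _) htlu'
        (fun y' x hx h => hp'1 y' (by
          have : g y' x = p' y' := by linear_combination h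
          rw [← this]; exact (hRM y').mg hx)) hz (by simp [hp])
      have hana' : AnalyticOnNhd ℂ (fun x => f x - p) (ball 0 1) := hana.sub analyticOnNhd_const
      have heq := hana'.eqOn_zero_of_preconnected_of_eventuallyEq_zero hball hz hev
      have h1 := heq (show (0 : ℂ) ∈ ball (0 : ℂ) 1 by simp)
      simp only [hf0, Pi.zero_apply] at h1
      have : p = 0 := by linear_combination -h1
      exact hpU (by rw [this]; exact h0 y)
    have hfmaps : MapsTo f (ball 0 1) (U y) := by
      have himg : IsPreconnected (f '' ball 0 1) := hball.image f hfd.continuousOn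
      have hsub' : f '' ball 0 1 ⊆ U y ∪ (closure (U y))ᶜ := by
        rintro _ ⟨z, hz, rfl⟩
        by_contra hcon
        rw [mem_union, not_or, notMem_compl_iff] at hcon
        apply havoid z hz
        rw [(hopen y).frontier_eq]
        exact ⟨hcon.2, hcon.1⟩
      have h1 : (f '' ball 0 1 ∩ U y).Nonempty := ⟨0, ⟨0, by simp, hf0⟩, h0 y⟩
      have h2 := himg.subset_left_of_subset_union (hopen y) isClosed_closure.isOpen_compl
        (disjoint_compl_right_iff_subset.2 subset_closure) hsub' h1
      intro z hz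
      exact h2 ⟨z, hz, rfl⟩
    have hcU : c ∈ U y := by rw [← hfc]; exact hfmaps hz1b
    have hv : val U φ c y = ‖φ y c‖ := if_pos hcU
    rw [hv, ← hz1n, ← hfc]
    have hcomp : DifferentiableOn ℂ (fun z => φ y (f z)) (ball 0 1) := (hRM y).dφ.comp hfd hfmaps
    exact schwarz hcomp (fun z hz => (hRM y).mφ (hfmaps hz)) (by simp only [hf0, (hRM y).φ0]) hz1b

end Pool.Agent.Helper265.Osg
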