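import Mathlib
import Pool.Agent.Helper265.OsgArea

/-! Energy bound; written by helper256 (job 897) from my proof sketch. -/

set_option autoImplicit false
open Complex Set Filter Metric Topology MeasureTheory

namespace Pool.Agent.Helper265.Osg

theorem pb_log {Φ : ℂ → ℂ} {b : ℕ} (diff : DifferentiableOn ℂ Φ (ball 0 1))
    (zero : Φ 0 = 0) (der : ∃ κ : ℝ, 0 < κ ∧ deriv Φ 0 = κ)
    (lower : ∀ w ∈ ball (0 : ℂ) 1, Real.exp (-(b : ℝ)) * ‖w‖ ≤ ‖Φ w‖)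
    (upper : ∀ w ∈ ball (0 : ℂ) 1, ‖Φ w‖ ≤ ‖w‖) :
    ∃ P : ℂ → ℂ, DifferentiableOn ℂ P (ball 0 1) ∧ (∀ w ∈ ball (0 : ℂ) 1, Φ w = w * exp (P w)) ∧
      (∃ p : ℝ, P 0 = p ∧ -(b : ℝ) ≤ p ∧ p ≤ 0) ∧ (∀ w ∈ ball (0 : ℂ) 1, (P w).re ≤ 0) := by
  obtain ⟨κ, hκ, hκ'⟩ := der
  have hmem : ball (0 : ℂ) 1 ∈ 𝓝 (0 : ℂ) := ball_mem_nhds 0 one_pos
  set Q : ℂ → ℂ := dslope Φ 0 with hQ
  have hQd : DifferentiableOn ℂ Q (ball 0 1) := (differentiableOn_dslope hmem).2 diff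
  have hQ0 : Q 0 = κ := by rw [hQ, dslope_same, hκ']
  have hQw : ∀ w : ℂ, Φ w = w * Q w := by
    intro w
    have := sub_smul_dslope Φ 0 w
    simp only [sub_zero, zero, smul_eq_mul] at this
    exact this.symm
  have hlow' : ∀ w ∈ ball (0 : ℂ) 1, w ≠ 0 → Real.exp (-(b : ℝ)) ≤ ‖Q w‖ ∧ ‖Q w‖ ≤ 1 := by
    intro w hw hw0
    have hn : 0 < ‖w‖ := norm_pos_iff.2 hw0
    have h1 := lower w hw
    have h2 := upper w hw
    rw [hQw w, norm_mul] at h1 h2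
    constructor
    · nlinarith
    · nlinarith
  have hcont : ContinuousAt (fun w => ‖Q w‖) 0 :=
    ((hQd.differentiableAt hmem).continuousAt).norm
  have hev : ∀ᶠ w in 𝓝[≠] (0 : ℂ), Real.exp (-(b : ℝ)) ≤ ‖Q w‖ ∧ ‖Q w‖ ≤ 1 := by
    filter_upwards [self_mem_nhdsWithin, mem_nhdsWithin_of_mem_nhds hmem] with w hw hw'
    exact hlow' w hw' hw
  have htend : Tendsto (fun w => ‖Q w‖) (𝓝[≠] (0 : ℂ)) (𝓝 ‖Q 0‖) := hcont.tendsto.mono_left nhdsWithin_le_nhds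
  have hb0 : Real.exp (-(b : ℝ)) ≤ ‖Q 0‖ ∧ ‖Q 0‖ ≤ 1 :=
    ⟨ge_of_tendsto htend (hev.mono fun _ h => h.1), le_of_tendsto htend (hev.mono fun _ h => h.2)⟩
  have hbd : ∀ w ∈ ball (0 : ℂ) 1, Real.exp (-(b : ℝ)) ≤ ‖Q w‖ ∧ ‖Q w‖ ≤ 1 := by
    intro w hw
    by_cases h : w = 0
    · rw [h]; exact hb0
    · exact hlow' w hw h
  have hne : ∀ w ∈ ball (0 : ℂ) 1, Q w ≠ 0 := by
    intro w hw h
    have := (hbd w hw).1
    rw [h, norm_zero] at this
    exact absurd this (not_le.2 (Real.exp_pos _))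
  have hdQ : DifferentiableOn ℂ (fun w => deriv Q w / Q w) (ball 0 1) :=
    (hQd.deriv isOpen_ball).div hQd hne
  obtain ⟨P, hP0, hP⟩ := hdQ.isExactOn_ball.with_val_at 0 ((Real.log κ : ℝ) : ℂ)
  have hPd : DifferentiableOn ℂ P (ball 0 1) := fun w hw =>
    (hP w hw).differentiableAt.differentiableWithinAt
  have hconst : ∀ w ∈ ball (0 : ℂ) 1, Q w * exp (-P w) = 1 := by
    have hder : ∀ w ∈ ball (0 : ℂ) 1, HasDerivAt (fun w => Q w * exp (-P w)) 0 w := by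
      intro w hw
      have h1 : HasDerivAt Q (deriv Q w) w := (hQd.differentiableAt (isOpen_ball.mem_nhds hw)).hasDerivAt
      have h2 := h1.mul ((hP w hw).neg.cexp)
      have h3 := hne w hw
      have h4 : deriv Q w * exp (-P w) + Q w * (exp (-P w) * -(deriv Q w / Q w)) = 0 := by
        field_simp
        ring
      rw [← h4]
      exact h2
    intro w hw
    have hc := (convex_ball (0 : ℂ) 1).is_const_of_fderivWithin_eq_zero (𝕜 := ℂ)
      (f := fun w => Q w * exp (-P w))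
      (fun z hz => (hder z hz).differentiableAt.differentiableWithinAt)
      (fun z hz => by
        rw [fderivWithin_of_isOpen isOpen_ball hz]
        ext
        simp [(hder z hz).hasFDerivAt.fderiv]) hw (mem_ball_self one_pos)
    rw [hc, hQ0, hP0, ← ofReal_neg, ← ofReal_exp, Real.exp_neg, Real.exp_log hκ, ← ofReal_mul,
      mul_inv_cancel₀ hκ.ne', ofReal_one]
  have hQe : ∀ w ∈ ball (0 : ℂ) 1, Q w = exp (P w) := by
    intro w hw
    have := hconst w hw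
    rw [exp_neg] at this
    field_simp at this
    exact this
  have hQκ : ‖Q 0‖ = κ := by rw [hQ0, norm_real, Real.norm_of_nonneg hκ.le]
  refine ⟨P, hPd, ?_, ⟨Real.log κ, hP0, ?_, ?_⟩, ?_⟩
  · intro w hw
    rw [hQw w, hQe w hw]
  · rw [Real.le_log_iff_exp_le hκ, ← hQκ]; exact hb0.1
  · apply Real.log_nonpos hκ.le; rw [← hQκ]; exact hb0.2
  · intro w hw
    have := (hbd w hw).2
    rw [hQe w hw, norm_exp] at this
    exact Real.exp_le_one_iff.1 this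

theorem pb_coef {G : ℂ → ℂ} (hG : DifferentiableOn ℂ G (ball 0 1)) (hG1 : ∀ w ∈ ball (0 : ℂ) 1, ‖G w‖ ≤ 1) :
    ∃ H : ℕ → ℂ, (∀ w ∈ ball (0 : ℂ) 1, HasSum (fun j => H j * w ^ j) (G w)) ∧ (∀ j, ‖H j‖ ≤ 1) := by
  refine ⟨fun j => ((j.factorial : ℂ))⁻¹ * iteratedDeriv j G 0, ?_, ?_⟩
  · intro w hw
    have h := Complex.hasSum_taylorSeries_on_ball hG hw
    have e : (fun j : ℕ => ((j.factorial : ℂ))⁻¹ * iteratedDeriv j G 0 * w ^ j) =
        fun n : ℕ => ((n.factorial : ℂ))⁻¹ • (w - 0) ^ n • iteratedDeriv n G 0 := by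
      funext j
      simp only [smul_eq_mul, sub_zero]
      ring
    show HasSum (fun j : ℕ => ((j.factorial : ℂ))⁻¹ * iteratedDeriv j G 0 * w ^ j) (G w)
    rw [e]
    exact h
  · intro j
    have hr : ∀ r : ℝ, 0 < r → r < 1 → ‖((j.factorial : ℂ))⁻¹ * iteratedDeriv j G 0‖ ≤ 1 / r ^ j := by
      intro r h0 h1
      have hd : DiffContOnCl ℂ G (ball 0 r) := by
        exact hG.diffContOnCl_ball (closedBall_subset_ball h1)
      have := norm_iteratedDeriv_le_of_forall_mem_sphere_norm_le (C := 1) j h0 hd (fun z hz => hG1 z (by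
        rw [mem_sphere, dist_zero_right] at hz
        rw [mem_ball, dist_zero_right, hz]; exact h1))
      rw [norm_mul, norm_inv, Complex.norm_natCast]
      have hf : (0 : ℝ) < j.factorial := by positivity
      calc ((j.factorial : ℝ))⁻¹ * ‖iteratedDeriv j G 0‖ ≤ ((j.factorial : ℝ))⁻¹ * (j.factorial * 1 / r ^ j) := by gcongr
        _ = 1 / r ^ j := by field_simp
    have ht : Tendsto (fun r : ℝ => 1 / r ^ j) (𝓝[<] 1) (𝓝 (1 / 1 ^ j)) := by
      apply Tendsto.mono_left _ nhdsWithin_le_nhds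
      apply ContinuousAt.tendsto
      apply ContinuousAt.div continuousAt_const (by fun_prop) (by norm_num)
    rw [one_pow, div_one] at ht
    refine ge_of_tendsto ht ?_
    have : Ioo (0 : ℝ) 1 ∈ 𝓝[<] (1 : ℝ) := Ioo_mem_nhdsLT one_pos
    filter_upwards [this] with r hr'
    exact hr r hr'.1 hr'.2

theorem pb_logint {ρ : ℝ} (h0 : 0 < ρ) (h1 : ρ < 1) :
    ∫⁻ z in ball (0 : ℂ) 1 \ ball 0 ρ, ENNReal.ofReal (1 / ‖z‖ ^ 2) =
      ENNReal.ofReal (2 * Real.pi * Real.log (1 / ρ)) := by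
  have hpi := Real.pi_pos
  have e1 : ∫⁻ z in ball (0 : ℂ) 1 \ ball 0 ρ, ENNReal.ofReal (1 / ‖z‖ ^ 2) =
      ∫⁻ z in ball (0 : ℂ) 1, (ball (0 : ℂ) ρ)ᶜ.indicator (fun z => ENNReal.ofReal (1 / ‖z‖ ^ 2)) z := by
    rw [lintegral_indicator measurableSet_ball.compl, Measure.restrict_restrict measurableSet_ball.compl,
      sdiff_eq, inter_comm]
  rw [e1, Pool.Agent.Helper509.Polar.lintegral_ball, Measure.volume_eq_prod, setLIntegral_prod]
  · have h2 : ∀ r ∈ Ioo (0 : ℝ) 1, ∫⁻ θ in Ioo (-Real.pi) Real.pi,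
        ENNReal.ofReal r * (ball (0 : ℂ) ρ)ᶜ.indicator (fun z => ENNReal.ofReal (1 / ‖z‖ ^ 2)) (circleMap 0 r θ) =
        (Ico ρ 1).indicator (fun r => ENNReal.ofReal (2 * Real.pi) * ENNReal.ofReal (1 / r)) r := by
      intro r hr
      by_cases hρ : ρ ≤ r
      · have : ∀ θ : ℝ, (ball (0 : ℂ) ρ)ᶜ.indicator (fun z => ENNReal.ofReal (1 / ‖z‖ ^ 2)) (circleMap 0 r θ) =
            ENNReal.ofReal (1 / r ^ 2) := by
          intro θ
          rw [indicator_of_mem, norm_circleMap_zero, abs_of_pos hr.1]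
          rw [mem_compl_iff, mem_ball_zero_iff, norm_circleMap_zero, abs_of_pos hr.1, not_lt]
          exact hρ
        simp only [this]
        rw [setLIntegral_const, Real.volume_Ioo, indicator_of_mem (show r ∈ Ico ρ 1 from ⟨hρ, hr.2⟩),
          ← ENNReal.ofReal_mul hr.1.le, ← ENNReal.ofReal_mul (by have := hr.1; positivity),
          ← ENNReal.ofReal_mul (by positivity)]
        congr 1
        have := hr.1
        field_simp
        ring
      · have : ∀ θ : ℝ, (ball (0 : ℂ) ρ)ᶜ.indicator (fun z => ENNReal.ofReal (1 / ‖z‖ ^ 2)) (circleMap 0 r θ) = 0 := by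
          intro θ
          rw [indicator_of_notMem]
          rw [mem_compl_iff, mem_ball_zero_iff, norm_circleMap_zero, abs_of_pos hr.1, not_not]
          exact not_le.1 hρ
        simp only [this, mul_zero]
        rw [lintegral_zero, indicator_of_notMem]
        intro h
        exact hρ h.1
    rw [setLIntegral_congr_fun measurableSet_Ioo h2, lintegral_indicator measurableSet_Ico,
      Measure.restrict_restrict measurableSet_Ico]
    have e3 : Ico ρ 1 ∩ Ioo 0 1 = Ico ρ 1 := by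
      ext x
      simp only [mem_inter_iff, mem_Ico, mem_Ioo]
      constructor
      · exact fun h => h.1
      · exact fun h => ⟨h, lt_of_lt_of_le h0 h.1, h.2⟩
    rw [e3, lintegral_const_mul' _ _ ENNReal.ofReal_ne_top,
      ENNReal.ofReal_mul (p := 2 * Real.pi) (q := Real.log (1 / ρ)) (by positivity)]
    congr 1
    rw [restrict_Ico_eq_restrict_Ioc, ← ofReal_integral_eq_lintegral_ofReal]
    · rw [← intervalIntegral.integral_of_le h1.le]
      congr 1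
      simp only [one_div]
      rw [integral_inv_of_pos h0 one_pos, one_div]
    · have hc : ContinuousOn (fun x : ℝ => 1 / x) (Icc ρ 1) := by
        apply ContinuousOn.div continuousOn_const continuousOn_id
        intro x hx
        exact (lt_of_lt_of_le h0 hx.1).ne'
      exact (hc.integrableOn_Icc).mono_set Ioc_subset_Icc_self
    · filter_upwards [ae_restrict_mem measurableSet_Ioc] with x hx
      have : 0 < x := lt_trans h0 hx.1
      positivity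
  · apply Measurable.aemeasurable
    apply Measurable.mul (measurable_fst.ennreal_ofReal)
    apply Measurable.comp (g := (ball (0 : ℂ) ρ)ᶜ.indicator (fun z => ENNReal.ofReal (1 / ‖z‖ ^ 2)))
    · apply Measurable.indicator _ measurableSet_ball.compl
      fun_prop
    · have : Continuous (fun p : ℝ × ℝ => circleMap 0 p.1 p.2) := by
        unfold circleMap; fun_prop
      exact this.measurable

theorem pb_cov {Φ : ℂ → ℂ} {b : ℕ} (diff : DifferentiableOn ℂ Φ (ball 0 1))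
    (inj : InjOn Φ (ball 0 1))
    (lower : ∀ w ∈ ball (0 : ℂ) 1, Real.exp (-(b : ℝ)) * ‖w‖ ≤ ‖Φ w‖)
    (upper : ∀ w ∈ ball (0 : ℂ) 1, ‖Φ w‖ ≤ ‖w‖) :
    ∫⁻ z in ball (0 : ℂ) 1 \ ball 0 (1 / 2), ENNReal.ofReal (‖deriv Φ z‖ ^ 2 * (1 / ‖Φ z‖ ^ 2)) ≤
      ENNReal.ofReal (2 * Real.pi * (b + Real.log 2)) := by
  have hS : MeasurableSet (ball (0 : ℂ) 1 \ ball 0 (1 / 2)) := measurableSet_ball.diff measurableSet_ball
  have h := lintegral_image_eq_lintegral_abs_det_fderiv_mul (f := Φ) volume hS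
    (f' := fun x => (ContinuousLinearMap.toSpanSingleton ℂ (deriv Φ x)).restrictScalars ℝ)
    (fun x hx => (((diff.differentiableAt (isOpen_ball.mem_nhds hx.1)).hasDerivAt).hasFDerivAt.restrictScalars
      ℝ).hasFDerivWithinAt) (inj.mono sdiff_subset) (fun v => ENNReal.ofReal (1 / ‖v‖ ^ 2))
  simp only [det_restrict] at h
  have e : ∫⁻ z in ball (0 : ℂ) 1 \ ball 0 (1 / 2), ENNReal.ofReal (‖deriv Φ z‖ ^ 2 * (1 / ‖Φ z‖ ^ 2)) =
      ∫⁻ z in ball (0 : ℂ) 1 \ ball 0 (1 / 2), ENNReal.ofReal (‖deriv Φ z‖ ^ 2) * ENNReal.ofReal (1 / ‖Φ z‖ ^ 2) := by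
    congr 1
    ext z
    rw [ENNReal.ofReal_mul (by positivity)]
  rw [e, ← h]
  have hb : 0 < Real.exp (-(b : ℝ)) / 2 := by positivity
  have hb1 : Real.exp (-(b : ℝ)) / 2 < 1 := by
    have : Real.exp (-(b : ℝ)) ≤ 1 := Real.exp_le_one_iff.2 (by simp)
    linarith
  have hl := pb_logint hb hb1
  have e2 : Real.log (1 / (Real.exp (-(b : ℝ)) / 2)) = b + Real.log 2 := by
    rw [Real.exp_neg, show (1 : ℝ) / ((Real.exp (b : ℝ))⁻¹ / 2) = Real.exp b * 2 by field_simp,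
      Real.log_mul (Real.exp_pos _).ne' (by norm_num), Real.log_exp]
  rw [e2] at hl
  rw [← hl]
  apply lintegral_mono_set
  rintro v ⟨w, hw, rfl⟩
  have h1 := hw.1
  have h2 := hw.2
  have h3 := lower w h1
  have h4 := upper w h1
  rw [mem_ball_zero_iff] at h1
  rw [mem_ball_zero_iff, not_lt] at h2
  constructor
  · rw [mem_ball_zero_iff]; linarith
  · rw [mem_ball_zero_iff, not_lt]
    have := Real.exp_pos (-(b : ℝ))
    nlinarith

theorem pb_ann {Φ P : ℂ → ℂ} {b : ℕ} (diff : DifferentiableOn ℂ Φ (ball 0 1))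
    (inj : InjOn Φ (ball 0 1))
    (lower : ∀ w ∈ ball (0 : ℂ) 1, Real.exp (-(b : ℝ)) * ‖w‖ ≤ ‖Φ w‖)
    (upper : ∀ w ∈ ball (0 : ℂ) 1, ‖Φ w‖ ≤ ‖w‖)
    (hP : DifferentiableOn ℂ P (ball 0 1)) (hΦ : ∀ w ∈ ball (0 : ℂ) 1, Φ w = w * exp (P w))
    (hre : ∀ w ∈ ball (0 : ℂ) 1, (P w).re ≤ 0) {s : ℝ} (hs : 0 < s) {F : ℂ → ℂ}
    (hF : ∀ w ∈ ball (0 : ℂ) 1, F w = exp (s * P w)) :
    ∫⁻ z in ball (0 : ℂ) 1 \ ball 0 (1 / 2), ENNReal.ofReal (‖deriv F z‖ ^ 2) ≤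
      ENNReal.ofReal (4 * Real.pi * s ^ 2 * (b + 2 * Real.log 2)) := by
  have hpi := Real.pi_pos
  have hS : MeasurableSet (ball (0 : ℂ) 1 \ ball 0 (1 / 2)) := measurableSet_ball.diff measurableSet_ball
  have key : ∀ z ∈ ball (0 : ℂ) 1 \ ball 0 (1 / 2), ENNReal.ofReal (‖deriv F z‖ ^ 2) ≤
      ENNReal.ofReal (2 * s ^ 2) * ENNReal.ofReal (‖deriv Φ z‖ ^ 2 * (1 / ‖Φ z‖ ^ 2)) +
      ENNReal.ofReal (2 * s ^ 2) * ENNReal.ofReal (1 / ‖z‖ ^ 2) := by
    intro z hz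
    have hz1 := hz.1
    have hz2 := hz.2
    rw [mem_ball_zero_iff, not_lt] at hz2
    have hzn : 0 < ‖z‖ := by linarith
    have hz0 : z ≠ 0 := norm_pos_iff.1 hzn
    have hdP : HasDerivAt P (deriv P z) z := (hP.differentiableAt (isOpen_ball.mem_nhds hz1)).hasDerivAt
    have hdF : deriv F z = exp (s * P z) * (s * deriv P z) := by
      have h1 : HasDerivAt (fun w => exp (s * P w)) (exp (s * P z) * (s * deriv P z)) z :=
        (hdP.const_mul (s : ℂ)).cexp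
      have h2 : F =ᶠ[𝓝 z] fun w => exp (s * P w) := by
        filter_upwards [isOpen_ball.mem_nhds hz1] with w hw
        exact hF w hw
      rw [h2.deriv_eq]
      exact h1.deriv
    have hdΦ : deriv Φ z = exp (P z) + z * (exp (P z) * deriv P z) := by
      have h1 : HasDerivAt (fun w => w * exp (P w)) (1 * exp (P z) + z * (exp (P z) * deriv P z)) z :=
        (hasDerivAt_id z).mul hdP.cexp
      have h2 : Φ =ᶠ[𝓝 z] fun w => w * exp (P w) := by
        filter_upwards [isOpen_ball.mem_nhds hz1] with w hw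
        exact hΦ w hw
      rw [h2.deriv_eq, h1.deriv, one_mul]
    have hPd : deriv P z = deriv Φ z / Φ z - 1 / z := by
      rw [hdΦ, hΦ z hz1]
      have := exp_ne_zero (P z)
      field_simp
      ring
    have hn1 : ‖exp (s * P z)‖ ≤ 1 := by
      rw [norm_exp, Real.exp_le_one_iff]
      have : ((s : ℂ) * P z).re = s * (P z).re := by simp
      rw [this]
      exact mul_nonpos_of_nonneg_of_nonpos hs.le (hre z hz1)
    have hn2 : ‖deriv F z‖ ≤ s * ‖deriv P z‖ := by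
      rw [hdF, norm_mul, norm_mul, norm_real, Real.norm_of_nonneg hs.le]
      have : 0 ≤ s * ‖deriv P z‖ := by positivity
      nlinarith [norm_nonneg (exp (s * P z))]
    have hn3 : ‖deriv P z‖ ≤ ‖deriv Φ z‖ / ‖Φ z‖ + 1 / ‖z‖ := by
      rw [hPd]
      refine (norm_sub_le _ _).trans ?_
      rw [norm_div, norm_div, norm_one]
    rw [← ENNReal.ofReal_mul (by positivity), ← ENNReal.ofReal_mul (by positivity),
      ← ENNReal.ofReal_add (by positivity) (by positivity)]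
    apply ENNReal.ofReal_le_ofReal
    calc ‖deriv F z‖ ^ 2 ≤ (s * (‖deriv Φ z‖ / ‖Φ z‖ + 1 / ‖z‖)) ^ 2 := by
          apply pow_le_pow_left₀ (norm_nonneg _)
          exact hn2.trans (by gcongr)
      _ = s ^ 2 * (‖deriv Φ z‖ / ‖Φ z‖ + 1 / ‖z‖) ^ 2 := by ring
      _ ≤ s ^ 2 * (2 * (‖deriv Φ z‖ / ‖Φ z‖) ^ 2 + 2 * (1 / ‖z‖) ^ 2) := by
          gcongr
          nlinarith [sq_nonneg (‖deriv Φ z‖ / ‖Φ z‖ - 1 / ‖z‖)]
      _ = 2 * s ^ 2 * (‖deriv Φ z‖ ^ 2 * (1 / ‖Φ z‖ ^ 2)) + 2 * s ^ 2 * (1 / ‖z‖ ^ 2) := by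
          rw [div_pow, div_pow]; ring
  calc ∫⁻ z in ball (0 : ℂ) 1 \ ball 0 (1 / 2), ENNReal.ofReal (‖deriv F z‖ ^ 2)
      ≤ ∫⁻ z in ball (0 : ℂ) 1 \ ball 0 (1 / 2),
        (ENNReal.ofReal (2 * s ^ 2) * ENNReal.ofReal (‖deriv Φ z‖ ^ 2 * (1 / ‖Φ z‖ ^ 2)) +
          ENNReal.ofReal (2 * s ^ 2) * ENNReal.ofReal (1 / ‖z‖ ^ 2)) :=
        setLIntegral_mono' hS key
    _ = ENNReal.ofReal (2 * s ^ 2) * (∫⁻ z in ball (0 : ℂ) 1 \ ball 0 (1 / 2),
          ENNReal.ofReal (‖deriv Φ z‖ ^ 2 * (1 / ‖Φ z‖ ^ 2))) +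
        ENNReal.ofReal (2 * s ^ 2) * ∫⁻ z in ball (0 : ℂ) 1 \ ball 0 (1 / 2), ENNReal.ofReal (1 / ‖z‖ ^ 2) := by
        rw [lintegral_add_right, lintegral_const_mul' _ _ ENNReal.ofReal_ne_top,
          lintegral_const_mul' _ _ ENNReal.ofReal_ne_top]
        fun_prop
    _ ≤ ENNReal.ofReal (2 * s ^ 2) * ENNReal.ofReal (2 * Real.pi * (b + Real.log 2)) +
        ENNReal.ofReal (2 * s ^ 2) * ENNReal.ofReal (2 * Real.pi * Real.log 2) := by
        have := pb_logint (ρ := 1 / 2) (by norm_num) (by norm_num)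
        rw [show (1 : ℝ) / (1 / 2) = 2 by norm_num] at this
        rw [this]
        gcongr
        exact pb_cov diff inj lower upper
    _ = ENNReal.ofReal (4 * Real.pi * s ^ 2 * (b + 2 * Real.log 2)) := by
        have hl : 0 ≤ Real.log 2 := Real.log_nonneg (by norm_num)
        rw [← ENNReal.ofReal_mul (by positivity), ← ENNReal.ofReal_mul (by positivity),
          ← ENNReal.ofReal_add (by positivity) (by positivity)]
        congr 1
        ring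

theorem pb_energy {H : ℕ → ℂ} (hH : ∀ j, ‖H j‖ ≤ 1) {K : ℝ} (hK : 0 ≤ K)
    (hA : ∫⁻ z in ball (0 : ℂ) 1 \ ball 0 (1 / 2), ENNReal.ofReal (‖deriv (ev H) z‖ ^ 2) ≤ ENNReal.ofReal K) :
    Summable (fun j : ℕ => (j : ℝ) * ‖H j‖ ^ 2) ∧ Real.pi * ∑' j : ℕ, (j : ℝ) * ‖H j‖ ^ 2 ≤ 4 / 3 * K := by
  have hpi := Real.pi_pos
  have hRC : RC H := by
    intro r h0 h1
    refine Summable.of_nonneg_of_le (fun n => by positivity) (fun n => ?_) (summable_geometric_of_lt_one h0 h1)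
    calc ‖H n‖ * r ^ n ≤ 1 * r ^ n := by gcongr; exact hH n
      _ = r ^ n := one_mul _
  have hT := area_int hRC (ρ := 1) (by norm_num) le_rfl
  have hT' := area_int hRC (ρ := 1 / 2) (by norm_num) (by norm_num)
  simp only [one_pow, mul_one] at hT
  have hs4 : Summable (fun n : ℕ => Real.pi * (n * ‖H n‖ ^ 2 * (1 / 2 : ℝ) ^ (2 * n))) := by
    have h1 : Summable (fun n : ℕ => (n : ℝ) * (1 / 4 : ℝ) ^ n) := by
      have := summable_pow_mul_geometric_of_norm_lt_one (R := ℝ) 1 (r := (1 / 4 : ℝ)) (by norm_num)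
      simpa using this
    refine Summable.mul_left _ ?_
    refine Summable.of_nonneg_of_le (fun n => by positivity) (fun n => ?_) h1
    have e : (1 / 2 : ℝ) ^ (2 * n) = (1 / 4) ^ n := by
      rw [pow_mul]; norm_num
    rw [e]
    have h2 : ‖H n‖ ^ 2 ≤ 1 := pow_le_one₀ (norm_nonneg _) (hH n)
    calc (n : ℝ) * ‖H n‖ ^ 2 * (1 / 4) ^ n ≤ n * 1 * (1 / 4) ^ n := by gcongr
      _ = _ := by ring
  have hT'fin : ∑' n : ℕ, ENNReal.ofReal (Real.pi * (n * ‖H n‖ ^ 2 * (1 / 2 : ℝ) ^ (2 * n))) ≠ ⊤ := by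
    rw [← ENNReal.ofReal_tsum_of_nonneg (fun n => by positivity) hs4]
    exact ENNReal.ofReal_ne_top
  have hsplit := lintegral_inter_add_sdiff (μ := volume) (fun z => ENNReal.ofReal (‖deriv (ev H) z‖ ^ 2))
    (ball (0 : ℂ) 1) (measurableSet_ball (x := (0 : ℂ)) (ε := 1 / 2))
  have hinter : ball (0 : ℂ) 1 ∩ ball 0 (1 / 2) = ball 0 (1 / 2) := by
    apply inter_eq_right.2
    exact ball_subset_ball (by norm_num)
  rw [hinter, hT, hT'] at hsplit
  have hTfin : ∑' n : ℕ, ENNReal.ofReal (Real.pi * (n * ‖H n‖ ^ 2)) ≠ ⊤ := by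
    rw [← hsplit]
    exact ENNReal.add_ne_top.2 ⟨hT'fin, ne_top_of_le_ne_top ENNReal.ofReal_ne_top hA⟩
  have hsum1 : Summable (fun n : ℕ => Real.pi * ((n : ℝ) * ‖H n‖ ^ 2)) := by
    have := ENNReal.summable_toReal hTfin
    refine this.congr fun n => ?_
    rw [ENNReal.toReal_ofReal (by positivity)]
  have hsum : Summable (fun n : ℕ => (n : ℝ) * ‖H n‖ ^ 2) := by
    have := hsum1.mul_left (Real.pi⁻¹)
    refine this.congr fun n => ?_
    field_simp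
  refine ⟨hsum, ?_⟩
  set S : ℝ := ∑' n : ℕ, (n : ℝ) * ‖H n‖ ^ 2 with hS
  have hle : ∑' n : ℕ, ENNReal.ofReal (Real.pi * (n * ‖H n‖ ^ 2 * (1 / 2 : ℝ) ^ (2 * n))) ≤
      ENNReal.ofReal (Real.pi * S / 4) := by
    have : ENNReal.ofReal (Real.pi * S / 4) = ∑' n : ℕ, ENNReal.ofReal (Real.pi * (n * ‖H n‖ ^ 2) / 4) := by
      rw [← ENNReal.ofReal_tsum_of_nonneg (fun n => by positivity) (hsum1.div_const 4), tsum_div_const, tsum_mul_left]
    rw [this]
    refine ENNReal.tsum_le_tsum fun n => ENNReal.ofReal_le_ofReal ?_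
    rcases n with _ | n
    · simp
    · have e : (1 / 2 : ℝ) ^ (2 * (n + 1)) ≤ 1 / 4 := by
        rw [pow_mul, show ((1 : ℝ) / 2) ^ 2 = 1 / 4 by norm_num, pow_succ]
        have : (1 / 4 : ℝ) ^ n ≤ 1 := pow_le_one₀ (by norm_num) (by norm_num)
        linarith
      calc Real.pi * (((n + 1 : ℕ) : ℝ) * ‖H (n + 1)‖ ^ 2 * (1 / 2) ^ (2 * (n + 1)))
          ≤ Real.pi * (((n + 1 : ℕ) : ℝ) * ‖H (n + 1)‖ ^ 2 * (1 / 4)) := by gcongr
        _ = _ := by ring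
  have hTe : ∑' n : ℕ, ENNReal.ofReal (Real.pi * (n * ‖H n‖ ^ 2)) = ENNReal.ofReal (Real.pi * S) := by
    rw [← ENNReal.ofReal_tsum_of_nonneg (fun n => by positivity) hsum1, tsum_mul_left]
  have hS0 : 0 ≤ S := tsum_nonneg fun n => by positivity
  have hfin : ENNReal.ofReal (Real.pi * S) ≤ ENNReal.ofReal (Real.pi * S / 4 + K) := by
    rw [← hTe, ← hsplit, ENNReal.ofReal_add (by positivity) hK]
    exact add_le_add hle hA
  rw [ENNReal.ofReal_le_ofReal_iff (by positivity)] at hfin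
  linarith

/-- Energy bound for the powers `(Φ(w)/w)^s = exp (s P(w))` of a univalent self-map of the disc. -/
theorem power_bound {Φ : ℂ → ℂ} {b : ℕ} (hb : 1 ≤ b) (diff : DifferentiableOn ℂ Φ (ball 0 1))
    (inj : InjOn Φ (ball 0 1)) (zero : Φ 0 = 0) (der : ∃ κ : ℝ, 0 < κ ∧ deriv Φ 0 = κ)
    (lower : ∀ w ∈ ball (0 : ℂ) 1, Real.exp (-(b : ℝ)) * ‖w‖ ≤ ‖Φ w‖)
    (upper : ∀ w ∈ ball (0 : ℂ) 1, ‖Φ w‖ ≤ ‖w‖) :
    ∃ P : ℂ → ℂ, DifferentiableOn ℂ P (ball 0 1) ∧ (∀ w ∈ ball (0 : ℂ) 1, Φ w = w * exp (P w)) ∧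
      (∃ p : ℝ, P 0 = p ∧ -(b : ℝ) ≤ p ∧ p ≤ 0) ∧ (∀ w ∈ ball (0 : ℂ) 1, (P w).re ≤ 0) ∧
      ∀ s : ℝ, 0 < s → ∃ H : ℕ → ℂ,
        (∀ w ∈ ball (0 : ℂ) 1, HasSum (fun j => H j * w ^ j) (exp (s * P w))) ∧ (∀ j, ‖H j‖ ≤ 1) ∧
        Summable (fun j : ℕ => (j : ℝ) * ‖H j‖ ^ 2) ∧ ∑' j : ℕ, (j : ℝ) * ‖H j‖ ^ 2 ≤ 16 * s ^ 2 * b := by
  obtain ⟨P, hPd, hΦ, hP0, hre⟩ := pb_log diff zero der lower upper
  refine ⟨P, hPd, hΦ, hP0, hre, ?_⟩
  intro s hs
  have hpi := Real.pi_pos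
  have hGd : DifferentiableOn ℂ (fun w => exp (s * P w)) (ball 0 1) := (hPd.const_mul (s : ℂ)).cexp
  have hG1 : ∀ w ∈ ball (0 : ℂ) 1, ‖exp (s * P w)‖ ≤ 1 := by
    intro w hw
    rw [norm_exp, Real.exp_le_one_iff]
    have : ((s : ℂ) * P w).re = s * (P w).re := by simp
    rw [this]
    exact mul_nonpos_of_nonneg_of_nonpos hs.le (hre w hw)
  obtain ⟨H, hH, hH1⟩ := pb_coef hGd hG1
  have hev : ∀ w ∈ ball (0 : ℂ) 1, ev H w = exp (s * P w) := fun w hw => (hH w hw).tsum_eq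
  have hl0 : 0 ≤ Real.log 2 := Real.log_nonneg (by norm_num)
  have hl1 : Real.log 2 ≤ 1 := by have := Real.log_two_lt_d9; linarith
  have hA := pb_ann diff inj lower upper hPd hΦ hre hs hev
  obtain ⟨h1, h2⟩ := pb_energy hH1 (by positivity) hA
  refine ⟨H, hH, hH1, h1, ?_⟩
  have hb' : (1 : ℝ) ≤ b := by exact_mod_cast hb
  have h3 : Real.pi * ∑' j : ℕ, (j : ℝ) * ‖H j‖ ^ 2 ≤ Real.pi * (16 * s ^ 2 * b) := by
    refine h2.trans ?_
    have : 4 / 3 * (4 * Real.pi * s ^ 2 * (b + 2 * Real.log 2)) ≤ 4 / 3 * (4 * Real.pi * s ^ 2 * (b + 2 * b)) := by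
      gcongr
      linarith
    refine this.trans (le_of_eq ?_)
    ring
  exact le_of_mul_le_mul_left h3 hpi

end Pool.Agent.Helper265.Osg
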