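import Mathlib
import Pool.Agent.Helper265.OsgSR

set_option autoImplicit false
open Complex Set Filter Metric Topology Function

namespace Pool.Agent.Helper265.Osg

/-- corridor sector -/
def sect (η : ℝ) : Set ℂ := {u | u.re < -(Real.cos η) * ‖u‖}

def core0 (η : ℝ) (b : ℕ) : Set ℂ := ball 0 (Real.exp (-(b : ℝ))) ∪ (sect η ∩ ball 0 1)

def room (η : ℝ) (i : ℕ) : Set ℂ :=
  {u | Real.exp (-((i : ℝ) + 1)) < ‖u‖ ∧ ‖u‖ < Real.exp (-(i : ℝ)) ∧ -(Real.cos η) * ‖u‖ < u.re}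

def door (i : ℕ) (σ : ℝ) : Set ℂ :=
  {u | 0 < u.im ∧ Real.exp (-((i : ℝ) + 1 / 2) - σ / 4) < ‖u‖ ∧
    ‖u‖ < Real.exp (-((i : ℝ) + 1 / 2) + σ / 4)}

def piece (η : ℝ) (i : ℕ) (σ : ℝ) : Set ℂ := {u | 0 < σ ∧ (u ∈ room η i ∨ u ∈ door i σ)}

def dom (η : ℝ) (b : ℕ) (s : Fin b → ℝ) : Set ℂ := core0 η b ∪ ⋃ i : Fin b, piece η i (s i)

/-- the cube -/
def cube (b : ℕ) : Set (Fin b → ℝ) := {s | ∀ i, 0 ≤ s i ∧ s i ≤ 1}

section cosines

variable {η : ℝ}

theorem cos_lt_neg (h0 : 0 < η) (h1 : η ≤ 1 / 8) {θ : ℝ} (h : |θ - Real.pi| < η) :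
    Real.cos θ < -Real.cos η := by
  have e : Real.cos θ = -Real.cos |θ - Real.pi| := by
    rw [Real.cos_abs, Real.cos_sub_pi, neg_neg]
  rw [e, neg_lt_neg_iff]
  exact Real.cos_lt_cos_of_nonneg_of_le_pi (abs_nonneg _) (by linarith [Real.pi_gt_three]) h

theorem neg_lt_cos (h0 : 0 < η) (h1 : η ≤ 1 / 8) {θ : ℝ} (h : |θ| < Real.pi - η) :
    -Real.cos η < Real.cos θ := by
  have e : -Real.cos η = Real.cos (Real.pi - η) := by rw [Real.cos_pi_sub]
  rw [e, ← Real.cos_abs θ]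
  exact Real.cos_lt_cos_of_nonneg_of_le_pi (abs_nonneg _) (by linarith [Real.pi_gt_three]) h

theorem abs_lt_of_cos (h0 : 0 < η) (h1 : η ≤ 1 / 8) {θ : ℝ} (hθ : |θ| ≤ Real.pi)
    (h : -Real.cos η < Real.cos θ) : |θ| < Real.pi - η := by
  by_contra hcon
  push Not at hcon
  have e : -Real.cos η = Real.cos (Real.pi - η) := by rw [Real.cos_pi_sub]
  rw [e, ← Real.cos_abs θ] at h
  have := Real.cos_le_cos_of_nonneg_of_le_pi (by linarith [Real.pi_gt_three]) hθ hcon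
  linarith

theorem lt_abs_of_cos (h0 : 0 < η) (h1 : η ≤ 1 / 8) {θ : ℝ}
    (h : Real.cos θ < -Real.cos η) : Real.pi - η < |θ| := by
  by_contra hcon
  push Not at hcon
  have e : -Real.cos η = Real.cos (Real.pi - η) := by rw [Real.cos_pi_sub]
  rw [e, ← Real.cos_abs θ] at h
  have := Real.cos_le_cos_of_nonneg_of_le_pi (abs_nonneg θ) (by linarith [Real.pi_gt_three]) hcon
  linarith

theorem cos_eta_pos (h0 : 0 < η) (h1 : η ≤ 1 / 8) : 0 < Real.cos η :=
  Real.cos_pos_of_mem_Ioo ⟨by linarith [Real.pi_gt_three], by linarith [Real.pi_gt_three]⟩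

theorem cos_eta_lt (h0 : 0 < η) (h1 : η ≤ 1 / 8) : Real.cos η < 1 := by
  have := Real.cos_lt_cos_of_nonneg_of_le_pi (le_refl 0) (by linarith [Real.pi_gt_three]) h0
  rwa [Real.cos_zero] at this

end cosines

theorem re_exp' (ζ : ℂ) : (exp ζ).re = ‖exp ζ‖ * Real.cos ζ.im := by
  rw [Complex.norm_exp, Complex.exp_re]

theorem im_exp' (ζ : ℂ) : (exp ζ).im = ‖exp ζ‖ * Real.sin ζ.im := by
  rw [Complex.norm_exp, Complex.exp_im]

theorem exp_mem_room {η : ℝ} {i : ℕ} {ζ : ℂ} (h1 : -((i : ℝ) + 1) < ζ.re) (h2 : ζ.re < -(i : ℝ))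
    (h3 : -Real.cos η < Real.cos ζ.im) : exp ζ ∈ room η i := by
  refine ⟨?_, ?_, ?_⟩
  · rw [Complex.norm_exp]; exact Real.exp_lt_exp.2 h1
  · rw [Complex.norm_exp]; exact Real.exp_lt_exp.2 h2
  · rw [re_exp', mul_comm]
    exact mul_lt_mul_of_pos_left h3 (by rw [Complex.norm_exp]; positivity)

theorem exp_mem_door {i : ℕ} {σ : ℝ} {ζ : ℂ} (h1 : |ζ.re + ((i : ℝ) + 1 / 2)| < σ / 4)
    (h3 : 0 < Real.sin ζ.im) : exp ζ ∈ door i σ := by
  rw [abs_lt] at h1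
  refine ⟨?_, ?_, ?_⟩
  · rw [im_exp']
    exact mul_pos (by rw [Complex.norm_exp]; positivity) h3
  · rw [Complex.norm_exp]; exact Real.exp_lt_exp.2 (by linarith)
  · rw [Complex.norm_exp]; exact Real.exp_lt_exp.2 (by linarith)

theorem exp_mem_sect {η : ℝ} {ζ : ℂ} (h : Real.cos ζ.im < -Real.cos η) : exp ζ ∈ sect η := by
  show (exp ζ).re < _
  rw [re_exp', mul_comm _ ‖exp ζ‖]
  exact mul_lt_mul_of_pos_left h (by rw [Complex.norm_exp]; positivity)

theorem isOpen_sect (η : ℝ) : IsOpen (sect η) :=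
  isOpen_lt Complex.continuous_re (by fun_prop)

theorem isOpen_core0 (η : ℝ) (b : ℕ) : IsOpen (core0 η b) :=
  isOpen_ball.union ((isOpen_sect η).inter isOpen_ball)

theorem isOpen_room (η : ℝ) (i : ℕ) : IsOpen (room η i) := by
  have e : room η i = {u : ℂ | Real.exp (-((i : ℝ) + 1)) < ‖u‖} ∩ ({u : ℂ | ‖u‖ < Real.exp (-(i : ℝ))} ∩
    {u : ℂ | -(Real.cos η) * ‖u‖ < u.re}) := rfl
  rw [e]
  exact (isOpen_lt continuous_const continuous_norm).inter
    ((isOpen_lt continuous_norm continuous_const).inter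
      (isOpen_lt (continuous_const.mul continuous_norm) Complex.continuous_re))

theorem isOpen_door (i : ℕ) (σ : ℝ) : IsOpen (door i σ) := by
  have e : door i σ = {u : ℂ | 0 < u.im} ∩ ({u : ℂ | Real.exp (-((i : ℝ) + 1 / 2) - σ / 4) < ‖u‖} ∩
    {u : ℂ | ‖u‖ < Real.exp (-((i : ℝ) + 1 / 2) + σ / 4)}) := rfl
  rw [e]
  exact (isOpen_lt continuous_const Complex.continuous_im).inter
    ((isOpen_lt continuous_const continuous_norm).inter (isOpen_lt continuous_norm continuous_const))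

theorem piece_pos {η : ℝ} {i : ℕ} {σ : ℝ} (h : 0 < σ) : piece η i σ = room η i ∪ door i σ := by
  ext u
  simp only [piece, mem_ofPred_eq, mem_union, h, true_and]

theorem piece_nonpos {η : ℝ} {i : ℕ} {σ : ℝ} (h : ¬ 0 < σ) : piece η i σ = ∅ := by
  ext u
  simp only [piece, mem_ofPred_eq, h, false_and, mem_empty_iff_false]

theorem isOpen_piece (η : ℝ) (i : ℕ) (σ : ℝ) : IsOpen (piece η i σ) := by
  by_cases h : 0 < σ
  · rw [piece_pos h]; exact (isOpen_room η i).union (isOpen_door i σ)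
  · rw [piece_nonpos h]; exact isOpen_empty

theorem isOpen_dom (η : ℝ) (b : ℕ) (s : Fin b → ℝ) : IsOpen (dom η b s) :=
  (isOpen_core0 η b).union (isOpen_iUnion fun i => isOpen_piece η i (s i))

theorem zero_mem_dom (η : ℝ) (b : ℕ) (s : Fin b → ℝ) : (0 : ℂ) ∈ dom η b s :=
  Or.inl (Or.inl (by simp [Real.exp_pos]))

/-- layer of a piece -/
theorem piece_layer {η : ℝ} {i : ℕ} {σ : ℝ} (hσ : σ ≤ 1) {u : ℂ} (hu : u ∈ piece η i σ) :
    Real.exp (-((i : ℝ) + 1)) < ‖u‖ ∧ ‖u‖ < Real.exp (-(i : ℝ)) := by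
  obtain ⟨_, h | h⟩ := hu
  · exact ⟨h.1, h.2.1⟩
  · refine ⟨lt_of_lt_of_le (Real.exp_lt_exp.2 ?_) h.2.1.le, lt_of_le_of_lt h.2.2.le (Real.exp_lt_exp.2 ?_)⟩ <;>
      linarith

theorem piece_disjoint {η : ℝ} {i j : ℕ} (hij : i ≠ j) {σ τ : ℝ} (hσ : σ ≤ 1) (hτ : τ ≤ 1) :
    Disjoint (piece η i σ) (piece η j τ) := by
  rw [Set.disjoint_left]
  intro u h1 h2
  have a1 := piece_layer hσ h1
  have a2 := piece_layer hτ h2
  rcases lt_or_gt_of_ne hij with h | h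
  · have : (i : ℝ) + 1 ≤ j := by exact_mod_cast h
    have := Real.exp_le_exp.2 (by linarith : -(j : ℝ) ≤ -((i : ℝ) + 1))
    linarith
  · have : (j : ℝ) + 1 ≤ i := by exact_mod_cast h
    have := Real.exp_le_exp.2 (by linarith : -(i : ℝ) ≤ -((j : ℝ) + 1))
    linarith

theorem dom_sub_ball {η : ℝ} {b : ℕ} (s : Fin b → ℝ) (hs : s ∈ cube b) : dom η b s ⊆ ball 0 1 := by
  rintro u ((h | h) | h)
  · rw [mem_ball_zero_iff] at h ⊢
    refine lt_of_lt_of_le h (Real.exp_le_one_iff.2 ?_)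
    have : (0 : ℝ) ≤ b := Nat.cast_nonneg b
    linarith
  · exact h.2
  · rw [mem_iUnion] at h
    obtain ⟨i, hi⟩ := h
    have := (piece_layer (hs i).2 hi).2
    rw [mem_ball_zero_iff]
    refine lt_of_lt_of_le this (Real.exp_le_one_iff.2 ?_)
    have : (0 : ℝ) ≤ (i : ℕ) := Nat.cast_nonneg _
    linarith

theorem room_slit {η : ℝ} (h0 : 0 < η) (h1 : η ≤ 1 / 8) {i : ℕ} {u : ℂ} (hu : u ∈ room η i) :
    u ∈ slitPlane := by
  rw [Complex.mem_slitPlane_iff]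
  by_contra hcon
  push Not at hcon
  obtain ⟨hre, him⟩ := hcon
  have hn : 0 < ‖u‖ := lt_trans (Real.exp_pos _) hu.1
  have e : ‖u‖ = -u.re := by
    have : u = (u.re : ℂ) := by apply Complex.ext <;> simp [him]
    rw [this, Complex.norm_real, Complex.ofReal_re, Real.norm_of_nonpos hre]
  have h3 := hu.2.2
  have h4 := cos_eta_lt h0 h1
  nlinarith

theorem door_slit {i : ℕ} {σ : ℝ} {u : ℂ} (hu : u ∈ door i σ) : u ∈ slitPlane := by
  rw [Complex.mem_slitPlane_iff]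
  right
  exact hu.1.ne'

theorem log_room {η : ℝ} (h0 : 0 < η) (h1 : η ≤ 1 / 8) {i : ℕ} {u : ℂ} (hu : u ∈ room η i) :
    -((i : ℝ) + 1) < (log u).re ∧ (log u).re < -(i : ℝ) ∧ |(log u).im| < Real.pi - η := by
  have hn : 0 < ‖u‖ := lt_trans (Real.exp_pos _) hu.1
  rw [Complex.log_re, Complex.log_im]
  refine ⟨?_, ?_, ?_⟩
  · rw [Real.lt_log_iff_exp_lt hn]; exact hu.1
  · rw [Real.log_lt_iff_lt_exp hn]; exact hu.2.1
  · apply abs_lt_of_cos h0 h1 (Complex.abs_arg_le_pi u)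
    have h3 := hu.2.2
    have : u.re = ‖u‖ * Real.cos (arg u) := (Complex.norm_mul_cos_arg u).symm
    rw [this, mul_comm] at h3
    exact lt_of_mul_lt_mul_left h3 hn.le

theorem log_door {i : ℕ} {σ : ℝ} {u : ℂ} (hu : u ∈ door i σ) :
    |(log u).re + ((i : ℝ) + 1 / 2)| < σ / 4 ∧ 0 < (log u).im ∧ (log u).im < Real.pi := by
  have hn : 0 < ‖u‖ := lt_trans (Real.exp_pos _) hu.2.1
  rw [Complex.log_re, Complex.log_im]
  have a1 := (Real.lt_log_iff_exp_lt hn).2 hu.2.1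
  have a2 := (Real.log_lt_iff_lt_exp hn).2 hu.2.2
  refine ⟨?_, ?_, ?_⟩
  · rw [abs_lt]; constructor <;> linarith
  · have h1 := Complex.arg_nonneg_iff.2 hu.1.le
    rcases h1.lt_or_eq with h | h
    · exact h
    · exfalso
      have := (Complex.arg_eq_zero_iff.1 h.symm).2
      linarith [hu.1]
  · rcases (Complex.arg_le_pi u).lt_or_eq with h | h
    · exact h
    · exfalso
      have := (Complex.arg_eq_pi_iff.1 h).2
      linarith [hu.1]

theorem convex_rect (a b c d : ℝ) : Convex ℝ {ζ : ℂ | a < ζ.re ∧ ζ.re < b ∧ c < ζ.im ∧ ζ.im < d} := by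
  have h1 : {ζ : ℂ | a < ζ.re ∧ ζ.re < b ∧ c < ζ.im ∧ ζ.im < d} =
      ({ζ : ℂ | a < ζ.re} ∩ {ζ : ℂ | ζ.re < b}) ∩ ({ζ : ℂ | c < ζ.im} ∩ {ζ : ℂ | ζ.im < d}) := by
    ext ζ; simp only [mem_ofPred_eq, mem_inter_iff]; tauto
  rw [h1]
  exact ((convex_halfSpace_re_gt a).inter (convex_halfSpace_re_lt b)).inter
    ((convex_halfSpace_im_gt c).inter (convex_halfSpace_im_lt d))

theorem isOpen_rect (a b c d : ℝ) : IsOpen {ζ : ℂ | a < ζ.re ∧ ζ.re < b ∧ c < ζ.im ∧ ζ.im < d} := by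
  apply IsOpen.inter (isOpen_lt continuous_const Complex.continuous_re)
  apply IsOpen.inter (isOpen_lt Complex.continuous_re continuous_const)
  exact IsOpen.inter (isOpen_lt continuous_const Complex.continuous_im)
    (isOpen_lt Complex.continuous_im continuous_const)

/-- images of rectangles under exp are preconnected -/
theorem precon_log {V : Set ℂ} {a b c d : ℝ}
    (h1 : ∀ u ∈ V, u ≠ 0 ∧ log u ∈ {ζ : ℂ | a < ζ.re ∧ ζ.re < b ∧ c < ζ.im ∧ ζ.im < d})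
    (h2 : ∀ ζ ∈ {ζ : ℂ | a < ζ.re ∧ ζ.re < b ∧ c < ζ.im ∧ ζ.im < d}, exp ζ ∈ V) : IsPreconnected V := by
  have : V = exp '' {ζ : ℂ | a < ζ.re ∧ ζ.re < b ∧ c < ζ.im ∧ ζ.im < d} := by
    ext u
    constructor
    · intro hu
      exact ⟨log u, (h1 u hu).2, exp_log (h1 u hu).1⟩
    · rintro ⟨ζ, hζ, rfl⟩
      exact h2 ζ hζ
  rw [this]
  exact (convex_rect a b c d).isPreconnected.image _ continuous_exp.continuousOn

theorem sin_pos' {θ : ℝ} (h0 : 0 < θ) (h1 : θ < Real.pi) : 0 < Real.sin θ :=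
  Real.sin_pos_of_pos_of_lt_pi h0 h1

theorem SR_room {η : ℝ} (h0 : 0 < η) (h1 : η ≤ 1 / 8) (i : ℕ) : SR (room η i) := by
  have hpi := Real.pi_gt_three
  refine SR_log (isOpen_rect (-((i : ℝ) + 1)) (-(i : ℝ)) (-(Real.pi - η)) (Real.pi - η))
    (convex_rect _ _ _ _) ⟨⟨-((i : ℝ) + 1 / 2), 0⟩, ?_⟩ (fun u hu => room_slit h0 h1 hu) ?_ ?_
  · refine ⟨?_, ?_, ?_, ?_⟩ <;> simp only <;> linarith
  · intro u hu
    obtain ⟨a1, a2, a3⟩ := log_room h0 h1 hu
    rw [abs_lt] at a3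
    exact ⟨a1, a2, a3.1, a3.2⟩
  · rintro ζ ⟨a1, a2, a3, a4⟩
    exact exp_mem_room a1 a2 (neg_lt_cos h0 h1 (abs_lt.2 ⟨a3, a4⟩))

theorem precon_room {η : ℝ} (h0 : 0 < η) (h1 : η ≤ 1 / 8) (i : ℕ) : IsPreconnected (room η i) := by
  apply precon_log (a := -((i : ℝ) + 1)) (b := -(i : ℝ)) (c := -(Real.pi - η)) (d := Real.pi - η)
  · intro u hu
    obtain ⟨a1, a2, a3⟩ := log_room h0 h1 hu
    rw [abs_lt] at a3
    exact ⟨slitPlane_ne_zero (room_slit h0 h1 hu), a1, a2, a3.1, a3.2⟩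
  · rintro ζ ⟨a1, a2, a3, a4⟩
    exact exp_mem_room a1 a2 (neg_lt_cos h0 h1 (abs_lt.2 ⟨a3, a4⟩))

theorem SR_door (i : ℕ) {σ : ℝ} (hσ : 0 < σ) : SR (door i σ) := by
  have hpi := Real.pi_gt_three
  refine SR_log (isOpen_rect (-((i : ℝ) + 1 / 2) - σ / 4) (-((i : ℝ) + 1 / 2) + σ / 4) 0 Real.pi)
    (convex_rect _ _ _ _) ⟨⟨-((i : ℝ) + 1 / 2), 1⟩, ?_⟩ (fun u hu => door_slit hu) ?_ ?_
  · refine ⟨?_, ?_, ?_, ?_⟩ <;> simp only <;> linarith
  · intro u hu
    obtain ⟨a1, a2, a3⟩ := log_door hu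
    rw [abs_lt] at a1
    exact ⟨by linarith, by linarith, a2, a3⟩
  · rintro ζ ⟨a1, a2, a3, a4⟩
    exact exp_mem_door (abs_lt.2 ⟨by linarith, by linarith⟩) (sin_pos' a3 a4)

theorem precon_door (i : ℕ) (σ : ℝ) : IsPreconnected (door i σ) := by
  apply precon_log (a := -((i : ℝ) + 1 / 2) - σ / 4) (b := -((i : ℝ) + 1 / 2) + σ / 4) (c := 0)
    (d := Real.pi)
  · intro u hu
    obtain ⟨a1, a2, a3⟩ := log_door hu
    rw [abs_lt] at a1
    exact ⟨slitPlane_ne_zero (door_slit hu), by linarith, by linarith, a2, a3⟩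
  · rintro ζ ⟨a1, a2, a3, a4⟩
    exact exp_mem_door (abs_lt.2 ⟨by linarith, by linarith⟩) (sin_pos' a3 a4)

theorem precon_room_door {η : ℝ} (h0 : 0 < η) (h1 : η ≤ 1 / 8) (i : ℕ) {σ : ℝ} (hσ : σ ≤ 1) :
    IsPreconnected (room η i ∩ door i σ) := by
  apply precon_log (a := -((i : ℝ) + 1 / 2) - σ / 4) (b := -((i : ℝ) + 1 / 2) + σ / 4) (c := 0)
    (d := Real.pi - η)
  · rintro u ⟨hr, hd⟩
    obtain ⟨a1, a2, a3⟩ := log_door hd
    obtain ⟨b1, b2, b3⟩ := log_room h0 h1 hr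
    rw [abs_lt] at a1 b3
    exact ⟨slitPlane_ne_zero (door_slit hd), by linarith, by linarith, a2, b3.2⟩
  · rintro ζ ⟨a1, a2, a3, a4⟩
    have hpi := Real.pi_gt_three
    exact ⟨exp_mem_room (by linarith) (by linarith) (neg_lt_cos h0 h1 (abs_lt.2 ⟨by linarith, a4⟩)),
      exp_mem_door (abs_lt.2 ⟨by linarith, by linarith⟩) (sin_pos' a3 (by linarith))⟩

/-- in a layer below `b`, `core0` is the sector -/
theorem core0_layer {η : ℝ} {b i : ℕ} (hib : i < b) {u : ℂ} (h : Real.exp (-((i : ℝ) + 1)) < ‖u‖) :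
    u ∈ core0 η b ↔ u ∈ sect η ∧ ‖u‖ < 1 := by
  have hb : (i : ℝ) + 1 ≤ b := by exact_mod_cast hib
  constructor
  · rintro (h1 | h1)
    · exfalso
      rw [mem_ball_zero_iff] at h1
      have := Real.exp_le_exp.2 (by linarith : -(b : ℝ) ≤ -((i : ℝ) + 1))
      linarith
    · exact ⟨h1.1, by simpa using h1.2⟩
  · rintro ⟨h1, h2⟩
    exact Or.inr ⟨h1, by simpa using h2⟩

theorem precon_core0_piece {η : ℝ} (h0 : 0 < η) (h1 : η ≤ 1 / 8) {b i : ℕ} (hib : i < b) {σ : ℝ}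
    (hσ : σ ≤ 1) : IsPreconnected (core0 η b ∩ piece η i σ) := by
  by_cases hσ0 : 0 < σ
  swap
  · rw [piece_nonpos hσ0, inter_empty]; exact isPreconnected_empty
  have hpi := Real.pi_gt_three
  apply precon_log (a := -((i : ℝ) + 1 / 2) - σ / 4) (b := -((i : ℝ) + 1 / 2) + σ / 4)
    (c := Real.pi - η) (d := Real.pi)
  · rintro u ⟨hc, hp⟩
    have hl := piece_layer hσ hp
    rw [core0_layer hib hl.1] at hc
    obtain ⟨_, hr | hd⟩ := hp
    · exfalso
      have a1 : u.re < -(Real.cos η) * ‖u‖ := hc.1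
      linarith [hr.2.2]
    · obtain ⟨a1, a2, a3⟩ := log_door hd
      rw [abs_lt] at a1
      refine ⟨slitPlane_ne_zero (door_slit hd), by linarith, by linarith, ?_, a3⟩
      have hn : 0 < ‖u‖ := lt_trans (Real.exp_pos _) hl.1
      have a4 : u.re < -(Real.cos η) * ‖u‖ := hc.1
      have a5 : u.re = ‖u‖ * Real.cos (arg u) := (Complex.norm_mul_cos_arg u).symm
      rw [a5, mul_comm _ ‖u‖] at a4
      have a6 := lt_of_mul_lt_mul_left a4 hn.le
      have a7 := lt_abs_of_cos h0 h1 a6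
      rw [Complex.log_im] at a2 ⊢
      rwa [abs_of_pos a2] at a7
  · rintro ζ ⟨a1, a2, a3, a4⟩
    have hn : Real.exp (-((i : ℝ) + 1)) < ‖exp ζ‖ := by
      rw [Complex.norm_exp]; exact Real.exp_lt_exp.2 (by linarith)
    refine ⟨(core0_layer hib hn).2 ⟨exp_mem_sect (cos_lt_neg h0 h1 (abs_lt.2 ⟨by linarith, by linarith⟩)), ?_⟩,
      hσ0, Or.inr (exp_mem_door (abs_lt.2 ⟨by linarith, by linarith⟩) (sin_pos' (by linarith) a4))⟩
    rw [Complex.norm_exp, Real.exp_lt_one_iff]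
    have : (0 : ℝ) ≤ i := Nat.cast_nonneg i
    linarith

theorem nonempty_core0_piece {η : ℝ} (h0 : 0 < η) (h1 : η ≤ 1 / 8) {b i : ℕ} (hib : i < b) {σ : ℝ}
    (hσ : σ ≤ 1) (hσ0 : 0 < σ) : (core0 η b ∩ piece η i σ).Nonempty := by
  have hpi := Real.pi_gt_three
  set ζ : ℂ := ⟨-((i : ℝ) + 1 / 2), Real.pi - η / 2⟩ with hζ
  have hn : Real.exp (-((i : ℝ) + 1)) < ‖exp ζ‖ := by
    rw [Complex.norm_exp]; exact Real.exp_lt_exp.2 (by simp only [hζ]; linarith)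
  refine ⟨exp ζ, (core0_layer hib hn).2 ⟨exp_mem_sect (cos_lt_neg h0 h1 (abs_lt.2 ⟨?_, ?_⟩)), ?_⟩,
      hσ0, Or.inr (exp_mem_door (abs_lt.2 ⟨?_, ?_⟩) (sin_pos' ?_ ?_))⟩
  · simp only [hζ]; linarith
  · simp only [hζ]; linarith
  · rw [Complex.norm_exp, Real.exp_lt_one_iff]
    have : (0 : ℝ) ≤ i := Nat.cast_nonneg i
    simp only [hζ]; linarith
  · simp only [hζ]; linarith
  · simp only [hζ]; linarith
  · simp only [hζ]; linarith
  · simp only [hζ]; linarith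

theorem star_core0 {η : ℝ} {b : ℕ} : StarConvex ℝ (0 : ℂ) (core0 η b) := by
  rw [starConvex_zero_iff]
  intro u hu t ht0 ht1
  rcases hu with h | h
  · left
    rw [mem_ball_zero_iff] at h ⊢
    rw [norm_smul, Real.norm_of_nonneg ht0]
    nlinarith [norm_nonneg u]
  · rcases ht0.eq_or_lt with h0 | h0
    · left
      rw [← h0]; simp [Real.exp_pos]
    · right
      refine ⟨?_, ?_⟩
      · show (t • u).re < -(Real.cos η) * ‖t • u‖
        have h1 : u.re < -(Real.cos η) * ‖u‖ := h.1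
        rw [norm_smul, Real.norm_of_nonneg ht0, Complex.real_smul, Complex.re_ofReal_mul]
        nlinarith
      · have h2 := h.2
        rw [mem_ball_zero_iff] at h2 ⊢
        rw [norm_smul, Real.norm_of_nonneg ht0]
        nlinarith [norm_nonneg u]

theorem SR_piece {η : ℝ} (h0 : 0 < η) (h1 : η ≤ 1 / 8) (i : ℕ) {σ : ℝ} (hσ : σ ≤ 1) :
    SR (piece η i σ) := by
  by_cases hσ0 : 0 < σ
  · rw [piece_pos hσ0]
    exact SR_union (isOpen_room η i) (isOpen_door i σ) (SR_room h0 h1 i) (SR_door i hσ0)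
      (precon_room_door h0 h1 i hσ)
  · rw [piece_nonpos hσ0]; exact SR_empty

theorem SR_dom {η : ℝ} (h0 : 0 < η) (h1 : η ≤ 1 / 8) {b : ℕ} (s : Fin b → ℝ) (hs : s ∈ cube b) :
    SR (dom η b s) := by
  have h := SR_finset (core0 η b) (fun i : Fin b => piece η i (s i)) (isOpen_core0 η b)
    (fun i => isOpen_piece η i (s i)) (SR_star (isOpen_core0 η b) star_core0
      ⟨0, Or.inl (by simp [Real.exp_pos])⟩)
    (fun i => SR_piece h0 h1 i (hs i).2)
    (fun i j hij => piece_disjoint (fun h => hij (Fin.ext h)) (hs i).2 (hs j).2)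
    (fun i => precon_core0_piece h0 h1 i.2 (hs i).2) Finset.univ
  have := h.2
  simp only [Finset.mem_univ, iUnion_true] at this
  exact this

theorem precon_dom {η : ℝ} (h0 : 0 < η) (h1 : η ≤ 1 / 8) {b : ℕ} (s : Fin b → ℝ) (hs : s ∈ cube b) :
    IsPreconnected (dom η b s) := by
  classical
  have hc : IsPreconnected (core0 η b) := by
    have := star_core0 (η := η) (b := b)
    exact (this.isPathConnected (Or.inl (by simp [Real.exp_pos]))).isConnected.isPreconnected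
  have key : ∀ S : Finset (Fin b), IsPreconnected (core0 η b ∪ ⋃ i ∈ S, piece η i (s i)) := by
    intro S
    induction S using Finset.induction_on with
    | empty => simpa using hc
    | insert i S hi ih =>
      have heq : core0 η b ∪ ⋃ j ∈ insert i S, piece η j (s j) =
          (core0 η b ∪ ⋃ j ∈ S, piece η j (s j)) ∪ piece η i (s i) := by
        rw [Finset.set_biUnion_insert]
        rw [union_comm (piece η i (s i)), union_assoc]
      rw [heq]
      by_cases hσ0 : 0 < s i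
      · obtain ⟨x, hx1, hx2⟩ := nonempty_core0_piece h0 h1 i.2 (hs i).2 hσ0
        apply ih.union x (Or.inl hx1) hx2
        rw [piece_pos hσ0]
        have hpi := Real.pi_gt_three
        set ζ : ℂ := ⟨-(((i : ℕ) : ℝ) + 1 / 2), 1⟩ with hζ
        refine (precon_room h0 h1 i).union (exp ζ) ?_ ?_ (precon_door i (s i))
        · apply exp_mem_room
          · simp only [hζ]; linarith
          · simp only [hζ]; linarith
          · exact neg_lt_cos h0 h1 (abs_lt.2 ⟨by simp only [hζ]; linarith, by simp only [hζ]; linarith⟩)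
        · exact exp_mem_door (abs_lt.2 ⟨by simp only [hζ]; linarith, by simp only [hζ]; linarith⟩)
            (sin_pos' (by simp only [hζ]; linarith) (by simp only [hζ]; linarith))
      · rw [piece_nonpos hσ0, union_empty]; exact ih
  have := key Finset.univ
  simp only [Finset.mem_univ, iUnion_true] at this
  exact this

end Pool.Agent.Helper265.Osg
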