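import Mathlib
import Pool.Agent.Helper265.OsgGeom
import Pool.Agent.Helper265.OsgCont

set_option autoImplicit false
open Complex Set Filter Metric Topology Function

namespace Pool.Agent.Helper265.Osg

open Pool.Agent.Helper405.Riemann

theorem isOpen_graph (η : ℝ) (b : ℕ) : IsOpen {p : ℂ × (Fin b → ℝ) | p.1 ∈ dom η b p.2} := by
  have e : {p : ℂ × (Fin b → ℝ) | p.1 ∈ dom η b p.2} = (Prod.fst ⁻¹' (core0 η b)) ∪
      ⋃ i : Fin b, ({p : ℂ × (Fin b → ℝ) | 0 < p.2 i} ∩ (Prod.fst ⁻¹' (room η i) ∪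
        ({p : ℂ × (Fin b → ℝ) | 0 < p.1.im} ∩
          ({p : ℂ × (Fin b → ℝ) | Real.exp (-(((i : ℕ) : ℝ) + 1 / 2) - p.2 i / 4) < ‖p.1‖} ∩
           {p : ℂ × (Fin b → ℝ) | ‖p.1‖ < Real.exp (-(((i : ℕ) : ℝ) + 1 / 2) + p.2 i / 4)})))) := by
    ext p
    simp only [dom, piece, door, mem_ofPred_eq, mem_union, mem_iUnion, mem_preimage, mem_inter_iff]
  rw [e]
  refine ((isOpen_core0 η b).preimage continuous_fst).union (isOpen_iUnion fun i => ?_)
  refine (isOpen_lt continuous_const ((continuous_apply i).comp continuous_snd)).inter ?_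
  refine ((isOpen_room η i).preimage continuous_fst).union ?_
  refine (isOpen_lt continuous_const (Complex.continuous_im.comp continuous_fst)).inter ?_
  refine (isOpen_lt ?_ ?_).inter (isOpen_lt ?_ ?_) <;> fun_prop

theorem mem_door_iff {i : ℕ} {σ : ℝ} {u : ℂ} (hu : 0 < ‖u‖) :
    u ∈ door i σ ↔ 0 < u.im ∧ |Real.log ‖u‖ + ((i : ℝ) + 1 / 2)| < σ / 4 := by
  unfold door
  simp only [mem_ofPred_eq]
  rw [← Real.lt_log_iff_exp_lt hu, ← Real.log_lt_iff_lt_exp hu, abs_lt]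
  constructor
  · rintro ⟨a, b, c⟩; exact ⟨a, by linarith, by linarith⟩
  · rintro ⟨a, b, c⟩; exact ⟨a, by linarith, by linarith⟩

theorem not_mem_dom_of_ray {η : ℝ} {b : ℕ} {s : Fin b → ℝ} {w : ℂ} (h1 : w.re = -(Real.cos η) * ‖w‖)
    (h2 : Real.exp (-(b : ℝ)) ≤ ‖w‖) (h3 : ∀ i : Fin b, w ∉ door i (s i)) : w ∉ dom η b s := by
  rintro ((h | h) | h)
  · rw [mem_ball_zero_iff] at h; linarith
  · have : w.re < -(Real.cos η) * ‖w‖ := h.1
    linarith
  · rw [mem_iUnion] at h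
    obtain ⟨i, _, h | h⟩ := h
    · have := h.2.2
      linarith
    · exact h3 i h

theorem H2dom {η : ℝ} {b : ℕ} {s : Fin b → ℝ}
    (hs : s ∈ cube b) {p : ℂ} (hp : p ∈ frontier (dom η b s)) {ε : ℝ} (hε : 0 < ε) :
    ∃ τ > 0, ∀ s' ∈ cube b, (∀ i, s' i < s i + 4 * τ) → ∃ p' : ℂ, p' ∉ dom η b s' ∧ dist p' p < ε := by
  rw [(isOpen_dom η b s).frontier_eq] at hp
  obtain ⟨hpc, hpU⟩ := hp
  have hpp : dist p p < ε := by rw [dist_self]; exact hε
  by_cases hn : 1 ≤ ‖p‖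
  · refine ⟨1, one_pos, fun s' hs' _ => ⟨p, fun h => ?_, hpp⟩⟩
    have := dom_sub_ball s' hs' h
    rw [mem_ball_zero_iff] at this
    linarith
  push Not at hn
  have hnc : p ∉ core0 η b := fun h => hpU (Or.inl h)
  have hnb : Real.exp (-(b : ℝ)) ≤ ‖p‖ := by
    by_contra h
    push Not at h
    exact hnc (Or.inl (by simpa using h))
  have hn0 : 0 < ‖p‖ := lt_of_lt_of_le (Real.exp_pos _) hnb
  have hre : -(Real.cos η) * ‖p‖ ≤ p.re := by
    by_contra h
    push Not at h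
    exact hnc (Or.inr ⟨h, by simpa using hn⟩)
  rcases hre.lt_or_eq with hre | hre
  · -- strictly inside the closed sector of the rooms
    refine ⟨1, one_pos, fun s' hs' _ => ⟨p, fun h => ?_, hpp⟩⟩
    rcases h with h | h
    · exact hnc h
    rw [mem_iUnion] at h
    obtain ⟨i, hi⟩ := h
    have hl := piece_layer (hs' i).2 hi
    have hroom : p ∈ room η i := ⟨hl.1, hl.2, hre⟩
    by_cases hσ : 0 < s i
    · exact hpU (Or.inr (mem_iUnion.2 ⟨i, hσ, Or.inl hroom⟩))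
    · rw [_root_.mem_closure_iff] at hpc
      obtain ⟨w, hw1, hw2⟩ := hpc (room η i) (isOpen_room η i) hroom
      rcases hw2 with h | h
      · rw [core0_layer i.2 hw1.1] at h
        have h3 : w.re < -(Real.cos η) * ‖w‖ := h.1
        linarith [hw1.2.2]
      · rw [mem_iUnion] at h
        obtain ⟨j, hj⟩ := h
        by_cases hij : i = j
        · subst hij
          exact hσ hj.1
        · have h4 := piece_disjoint (η := η) (i := i) (j := j) (fun h => hij (Fin.ext h)) (le_refl (1 : ℝ)) (hs j).2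
          exact (Set.disjoint_left.1 h4) ⟨one_pos, Or.inl hw1⟩ hj
  · by_cases him : p.im ≤ 0
    · refine ⟨1, one_pos, fun s' hs' _ => ⟨p, ?_, hpp⟩⟩
      exact not_mem_dom_of_ray hre.symm hnb (fun i h => by linarith [h.1])
    push Not at him
    by_cases hex : ∃ i : Fin b, |Real.log ‖p‖ + (((i : ℕ) : ℝ) + 1 / 2)| < 3 / 8
    swap
    · push Not at hex
      refine ⟨1, one_pos, fun s' hs' _ => ⟨p, ?_, hpp⟩⟩
      refine not_mem_dom_of_ray hre.symm hnb (fun i h => ?_)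
      rw [mem_door_iff hn0] at h
      have h1 := hex i
      have h2 := (hs' i).2
      linarith [h.2]
    obtain ⟨i, hi⟩ := hex
    set L := Real.log ‖p‖ with hL
    have hpe : ‖p‖ = Real.exp L := (Real.exp_log hn0).symm
    have hsi : s i / 4 ≤ |L + (((i : ℕ) : ℝ) + 1 / 2)| := by
      by_contra h
      push Not at h
      have h5 : 0 < s i := by
        have := abs_nonneg (L + (((i : ℕ) : ℝ) + 1 / 2))
        linarith
      exact hpU (Or.inr (mem_iUnion.2 ⟨i, h5, Or.inr ((mem_door_iff hn0).2 ⟨him, h⟩)⟩))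
    -- direction
    obtain ⟨e, he1, he2⟩ : ∃ e : ℝ, |e| = 1 ∧ e * (L + (((i : ℕ) : ℝ) + 1 / 2)) = |L + (((i : ℕ) : ℝ) + 1 / 2)| := by
      rcases le_or_gt 0 (L + (((i : ℕ) : ℝ) + 1 / 2)) with h | h
      · exact ⟨1, by simp, by rw [abs_of_nonneg h, one_mul]⟩
      · exact ⟨-1, by simp, by rw [abs_of_neg h]; ring⟩
    have hee : e * e = 1 := by
      have := abs_mul_abs_self e
      rw [he1] at this
      linarith
    have hlim : Tendsto (fun τ : ℝ => ((Real.exp (e * τ) : ℝ) : ℂ) * p) (𝓝 0) (𝓝 p) := by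
      have h1 : Continuous (fun τ : ℝ => ((Real.exp (e * τ) : ℝ) : ℂ) * p) := by fun_prop
      have h2 := h1.tendsto 0
      simpa using h2
    have hev : ∀ᶠ τ in 𝓝 (0 : ℝ), dist (((Real.exp (e * τ) : ℝ) : ℂ) * p) p < ε := (Metric.tendsto_nhds.1 hlim) ε hε
    obtain ⟨δ, hδ, hδ'⟩ := Metric.eventually_nhds_iff.1 hev
    set τ := min (δ / 2) (1 / 16) with hτ
    have hτ0 : 0 < τ := by positivity
    have hτ1 : τ ≤ 1 / 16 := min_le_right _ _
    have hτδ : τ < δ := lt_of_le_of_lt (min_le_left _ _) (by linarith)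
    refine ⟨τ, hτ0, fun s' hs' hlt => ⟨((Real.exp (e * τ) : ℝ) : ℂ) * p, ?_, hδ' (by
      rw [dist_zero_right, Real.norm_of_nonneg hτ0.le]; exact hτδ)⟩⟩
    set p' := ((Real.exp (e * τ) : ℝ) : ℂ) * p with hp'
    have hp'n : ‖p'‖ = Real.exp (e * τ) * ‖p‖ := by
      rw [hp', norm_mul, Complex.norm_real, Real.norm_of_nonneg (Real.exp_pos _).le]
    have hp'0 : 0 < ‖p'‖ := by rw [hp'n]; positivity
    have hlog : Real.log ‖p'‖ = e * τ + L := by
      rw [hp'n, Real.log_mul (Real.exp_pos _).ne' hn0.ne', Real.log_exp]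
    have habs : |Real.log ‖p'‖ + (((i : ℕ) : ℝ) + 1 / 2)| = |L + (((i : ℕ) : ℝ) + 1 / 2)| + τ := by
      have h6 : Real.log ‖p'‖ + (((i : ℕ) : ℝ) + 1 / 2) = e * (|L + (((i : ℕ) : ℝ) + 1 / 2)| + τ) := by
        rw [hlog, ← he2]
        linear_combination (-(L + (((i : ℕ) : ℝ) + 1 / 2))) * hee
      rw [h6, abs_mul, he1, one_mul, abs_of_nonneg]
      positivity
    have hlt2 : |Real.log ‖p'‖ + (((i : ℕ) : ℝ) + 1 / 2)| < 1 / 2 := by rw [habs]; linarith
    have hib : ((i : ℕ) : ℝ) + 1 ≤ b := by exact_mod_cast i.2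
    apply not_mem_dom_of_ray
    · rw [hp'n, hp', Complex.re_ofReal_mul, ← hre]; ring
    · rw [← Real.exp_log hp'0]
      apply Real.exp_le_exp.2
      have := (abs_lt.1 hlt2).1
      linarith
    · intro j hj
      rw [mem_door_iff hp'0] at hj
      by_cases hij : i = j
      · subst hij
        have h7 := hlt i
        have h8 := hj.2
        rw [habs] at h8
        linarith
      · have h9 := hj.2
        have h10 := (hs' j).2
        have h11 : (1 : ℝ) ≤ |((i : ℕ) : ℝ) - ((j : ℕ) : ℝ)| := by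
          have : ((i : ℕ) : ℤ) - ((j : ℕ) : ℤ) ≠ 0 := by
            intro h
            apply hij
            apply Fin.ext
            omega
          have := Int.one_le_abs this
          exact_mod_cast this
        have h12 : ((i : ℕ) : ℝ) - ((j : ℕ) : ℝ) = (Real.log ‖p'‖ + (((i : ℕ) : ℝ) + 1 / 2)) -
          (Real.log ‖p'‖ + (((j : ℕ) : ℝ) + 1 / 2)) := by ring
        rw [h12] at h11
        have h13 := abs_sub (Real.log ‖p'‖ + (((i : ℕ) : ℝ) + 1 / 2)) (Real.log ‖p'‖ + (((j : ℕ) : ℝ) + 1 / 2))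
        linarith

/-- clamping to the cube -/
noncomputable def cl {b : ℕ} (s : Fin b → ℝ) : Fin b → ℝ := fun i => max 0 (min 1 (s i))

theorem cl_mem {b : ℕ} (s : Fin b → ℝ) : cl s ∈ cube b :=
  fun _ => ⟨le_max_left _ _, max_le zero_le_one (min_le_left _ _)⟩

theorem cl_cont {b : ℕ} : Continuous (cl (b := b)) := by
  unfold cl
  fun_prop

theorem cl_eq {b : ℕ} {s : Fin b → ℝ} (hs : s ∈ cube b) : cl s = s := by
  funext i
  simp only [cl]
  rw [min_eq_right (hs i).2, max_eq_right (hs i).1]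

/-- center of room `i` -/
noncomputable def ctr (i : ℕ) : ℂ := ((Real.exp (-((i : ℝ) + 1 / 2)) : ℝ) : ℂ)

theorem ctr_eq (i : ℕ) : ctr i = exp ⟨-((i : ℝ) + 1 / 2), 0⟩ := by
  have : (⟨-((i : ℝ) + 1 / 2), 0⟩ : ℂ) = ((-((i : ℝ) + 1 / 2) : ℝ) : ℂ) := by
    apply Complex.ext <;> simp
  rw [this, ctr, Complex.ofReal_exp]

theorem ctr_room {η : ℝ} (h0 : 0 < η) (h1 : η ≤ 1 / 8) (i : ℕ) : ctr i ∈ room η i := by
  rw [ctr_eq]
  apply exp_mem_room
  · simp only; linarith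
  · simp only; linarith
  · simp only [Real.cos_zero]
    linarith [cos_eta_pos h0 h1]

theorem ctr_not_mem {η : ℝ} (h0 : 0 < η) (h1 : η ≤ 1 / 8) {b : ℕ} {s : Fin b → ℝ} (hs : s ∈ cube b)
    {i : Fin b} (hi : s i = 0) : ctr i ∉ dom η b s := by
  have hr := ctr_room h0 h1 (i : ℕ)
  rintro (h | h)
  · rw [core0_layer i.2 hr.1] at h
    have h3 : (ctr i).re < -(Real.cos η) * ‖ctr i‖ := h.1
    linarith [hr.2.2]
  · rw [mem_iUnion] at h
    obtain ⟨j, hj⟩ := h
    by_cases hij : i = j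
    · subst hij
      rw [hi] at hj
      exact lt_irrefl _ hj.1
    · have h4 := piece_disjoint (η := η) (i := i) (j := j) (fun h => hij (Fin.ext h)) (le_refl (1 : ℝ)) (hs j).2
      exact (Set.disjoint_left.1 h4) ⟨one_pos, Or.inl hr⟩ hj

/-! Harnack chains -/

theorem pick_step {c w : ℂ} (hc : ‖c‖ < 1) (hw : ‖w‖ < 1) (h : ‖bl c w‖ ≤ 1 / 2) :
    (1 - ‖c‖) / 3 ≤ 1 - ‖w‖ := by
  have hne := bl_den_ne hc hw
  rw [bl, norm_div, div_le_iff₀ (norm_pos_iff.2 hne)] at h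
  have h2 : ‖w - c‖ ^ 2 ≤ (1 / 2 * ‖1 - (starRingEnd ℂ) c * w‖) ^ 2 :=
    pow_le_pow_left₀ (norm_nonneg _) h 2
  rw [mul_pow] at h2
  have e1 : ‖w - c‖ ^ 2 = ‖w‖ ^ 2 + ‖c‖ ^ 2 - 2 * (w * (starRingEnd ℂ) c).re := by
    rw [← Complex.normSq_eq_norm_sq, ← Complex.normSq_eq_norm_sq, ← Complex.normSq_eq_norm_sq,
      Complex.normSq_sub]
  have e2 : ‖1 - (starRingEnd ℂ) c * w‖ ^ 2 = 1 + ‖w‖ ^ 2 * ‖c‖ ^ 2 - 2 * (w * (starRingEnd ℂ) c).re := by
    rw [← Complex.normSq_eq_norm_sq, ← Complex.normSq_eq_norm_sq, ← Complex.normSq_eq_norm_sq,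
      Complex.normSq_sub]
    simp [Complex.normSq_mul, Complex.normSq_conj, mul_comm]
  rw [e1, e2] at h2
  have h3 : (w * (starRingEnd ℂ) c).re ≤ ‖w‖ * ‖c‖ := by
    have := Complex.re_le_norm (w * (starRingEnd ℂ) c)
    rwa [norm_mul, RCLike.norm_conj] at this
  set x := ‖c‖ with hx
  set y := ‖w‖ with hy
  have hx0 : 0 ≤ x := norm_nonneg _
  have hy0 : 0 ≤ y := norm_nonneg _
  have hxy : 0 < 1 - x * y := by nlinarith
  have h4 : (2 * (y - x)) ^ 2 ≤ (1 - x * y) ^ 2 := by nlinarith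
  have h5 : 2 * (y - x) ≤ 1 - x * y := by
    by_contra hcon
    push Not at hcon
    nlinarith
  nlinarith

theorem harnack_step {F : ℂ → ℂ} {c u : ℂ} {r : ℝ} (hr : 0 < r)
    (hF : DifferentiableOn ℂ F (ball c (2 * r))) (hm : MapsTo F (ball c (2 * r)) (ball 0 1))
    (hu : dist u c ≤ r) : (1 - ‖F c‖) / 3 ≤ 1 - ‖F u‖ := by
  have hcb : c ∈ ball c (2 * r) := by simp [hr]
  have hub : u ∈ ball c (2 * r) := by rw [mem_ball]; linarith
  have hc : ‖F c‖ < 1 := by simpa using hm hcb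
  have hw : ‖F u‖ < 1 := by simpa using hm hub
  apply pick_step hc hw
  have hG : DifferentiableOn ℂ (fun z => bl (F c) (F z)) (ball c (2 * r)) := by
    intro z hz
    have hz' : ‖F z‖ < 1 := by simpa using hm hz
    have h1 := (bl_hasDerivAt hc hz').differentiableAt
    have h2 : DifferentiableAt ℂ F z := (hF.differentiableAt (isOpen_ball.mem_nhds hz))
    exact (h1.comp z h2).differentiableWithinAt
  have hGm : MapsTo (fun z => bl (F c) (F z)) (ball c (2 * r)) (closedBall (bl (F c) (F c)) 1) := by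
    intro z hz
    have hz' : ‖F z‖ < 1 := by simpa using hm hz
    rw [bl_self, mem_closedBall_zero_iff]
    exact (bl_norm_lt hc hz').le
  have := Complex.dist_le_div_mul_dist_of_mapsTo_ball hG hGm hub
  simp only [bl_self, dist_zero_right] at this
  calc ‖bl (F c) (F u)‖ ≤ 1 / (2 * r) * dist u c := this
    _ ≤ 1 / (2 * r) * r := by gcongr
    _ = 1 / 2 := by field_simp

theorem harnack_chain {V : Set ℂ} {F : ℂ → ℂ} {z0 z1 : ℂ} {r : ℝ} (hr : 0 < r)
    (hF : DifferentiableOn ℂ F V) (hm : MapsTo F V (ball 0 1))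
    (hseg : ∀ θ ∈ Icc (0 : ℝ) 1, ball (z0 + (θ : ℂ) * (z1 - z0)) (2 * r) ⊆ V) {n : ℕ} (hn : 0 < n)
    (hlen : ‖z1 - z0‖ ≤ n * r) : (1 - ‖F z0‖) / 3 ^ n ≤ 1 - ‖F z1‖ := by
  have hn' : (0 : ℝ) < n := by exact_mod_cast hn
  have key : ∀ k : ℕ, k ≤ n → (1 - ‖F z0‖) / 3 ^ k ≤ 1 - ‖F (z0 + (((k : ℝ) / n : ℝ) : ℂ) * (z1 - z0))‖ := by
    intro k
    induction k with
    | zero => intro _; simp
    | succ k ih =>
      intro hk
      have h1 := ih (by omega)
      set a := z0 + (((k : ℝ) / n : ℝ) : ℂ) * (z1 - z0) with ha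
      set a' := z0 + ((((k + 1 : ℕ) : ℝ) / n : ℝ) : ℂ) * (z1 - z0) with ha'
      have hmem : ((k : ℝ) / n) ∈ Icc (0 : ℝ) 1 := by
        constructor
        · positivity
        · rw [div_le_one hn']; exact_mod_cast (by omega : k ≤ n)
      have hsub := hseg _ hmem
      have hd : dist a' a ≤ r := by
        rw [dist_eq_norm, ha, ha']
        have : z0 + ((((k + 1 : ℕ) : ℝ) / n : ℝ) : ℂ) * (z1 - z0) - (z0 + (((k : ℝ) / n : ℝ) : ℂ) * (z1 - z0))
          = ((1 / n : ℝ) : ℂ) * (z1 - z0) := by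
          push_cast
          ring
        rw [this, norm_mul, Complex.norm_real, Real.norm_of_nonneg (by positivity)]
        rw [div_mul_eq_mul_div, one_mul, div_le_iff₀ hn']
        linarith
      have h2 := harnack_step hr (hF.mono hsub) (hm.mono_left hsub) hd
      rw [pow_succ, ← div_div]
      linarith
  have := key n le_rfl
  rw [div_self hn'.ne'] at this
  simpa using this

end Pool.Agent.Helper265.Osg
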