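import Mathlib
import Pool.Agent.Helper265.OsgGeomB
import Pool.Agent.Helper475.Miranda

set_option autoImplicit false
open Complex Set Filter Metric Topology Function

namespace Pool.Agent.Helper265.Osg

/-- good part of the disc -/
def good (η : ℝ) (b : ℕ) : Set ℂ :=
  {v | v ≠ 0 ∧ ∃ i : ℕ, i < b ∧ |Real.log ‖v‖ + ((i : ℝ) + 1 / 2)| ≤ 1 / 2 - η ∧
    -Real.cos (2 * η) * ‖v‖ ≤ v.re}

structure Level (η C L : ℝ) (b : ℕ) (Φ : ℂ → ℂ) (t : ℝ) : Prop where
  diff : DifferentiableOn ℂ Φ (ball 0 1)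
  inj : InjOn Φ (ball 0 1)
  zero : Φ 0 = 0
  der : ∃ κ : ℝ, 0 < κ ∧ deriv Φ 0 = κ
  lower : ∀ w ∈ ball (0 : ℂ) 1, Real.exp (-(b : ℝ)) * ‖w‖ ≤ ‖Φ w‖
  upper : ∀ w ∈ ball (0 : ℂ) 1, ‖Φ w‖ ≤ ‖w‖
  surj : ∀ v : ℂ, ‖v‖ < Real.exp (-(b : ℝ)) → ∃ w ∈ ball (0 : ℂ) 1, Φ w = v
  tpos : 0 < t
  tlow : Real.exp (-(L * b)) ≤ t
  tup : 4 * C * t ≤ 1
  good_mem : ∀ v ∈ good η b, ∃ w ∈ ball (0 : ℂ) 1, Φ w = v ∧ t / C ≤ 1 - ‖w‖ ∧ 1 - ‖w‖ ≤ C * t

theorem phi_bound {U : Set ℂ} {g φ : ℂ → ℂ} (h : RM U g φ) {b : ℕ}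
    (hb : ball (0 : ℂ) (Real.exp (-(b : ℝ))) ⊆ U) {u : ℂ} (hu : ‖u‖ < Real.exp (-(b : ℝ))) :
    Real.exp (-(b : ℝ)) * ‖φ u‖ ≤ ‖u‖ := by
  have h1 : MapsTo φ (ball 0 (Real.exp (-(b : ℝ)))) (closedBall (φ 0) 1) := by
    rw [h.φ0]; intro z hz; exact ball_subset_closedBall (h.mφ (hb hz))
  have := Complex.dist_le_div_mul_dist_of_mapsTo_ball (h.dφ.mono hb) h1 (z := u)
    (by simpa using hu)
  rw [h.φ0, dist_zero_right, dist_zero_right] at this
  calc Real.exp (-(b : ℝ)) * ‖φ u‖ ≤ Real.exp (-(b : ℝ)) * (1 / Real.exp (-(b : ℝ)) * ‖u‖) := by gcongr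
    _ = ‖u‖ := by field_simp

theorem seg_re (z0 z1 : ℂ) (θ : ℝ) : (z0 + (θ : ℂ) * (z1 - z0)).re = z0.re + θ * (z1.re - z0.re) := by
  simp [Complex.add_re, Complex.mul_re, Complex.sub_re, Complex.sub_im]

theorem seg_im (z0 z1 : ℂ) (θ : ℝ) : (z0 + (θ : ℂ) * (z1 - z0)).im = z0.im + θ * (z1.im - z0.im) := by
  simp [Complex.add_im, Complex.mul_im, Complex.sub_re, Complex.sub_im]

theorem ball_coord {c ζ : ℂ} {r : ℝ} (h : ζ ∈ ball c r) : |ζ.re - c.re| < r ∧ |ζ.im - c.im| < r := by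
  rw [mem_ball, dist_eq_norm] at h
  constructor
  · have := Complex.abs_re_le_norm (ζ - c)
    rw [Complex.sub_re] at this
    linarith
  · have := Complex.abs_im_le_norm (ζ - c)
    rw [Complex.sub_im] at this
    linarith

theorem core_mem {η : ℝ} (h0 : 0 < η) (h1 : η ≤ 1 / 8) {b : ℕ} {s : Fin b → ℝ} {ζ : ℂ}
    (hre : ζ.re < 0) (him : |ζ.im - Real.pi| < η) : exp ζ ∈ dom η b s := by
  left; right
  refine ⟨exp_mem_sect (cos_lt_neg h0 h1 him), ?_⟩
  rw [mem_ball_zero_iff, Complex.norm_exp, Real.exp_lt_one_iff]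
  exact hre

theorem cross_mem {η : ℝ} (h0 : 0 < η) (h1 : η ≤ 1 / 8) {b : ℕ} {s : Fin b → ℝ} {i : Fin b}
    (hi : s i = 1) {ζ : ℂ} (hre : |ζ.re + (((i : ℕ) : ℝ) + 1 / 2)| < η)
    (him : -η < ζ.im) (him2 : ζ.im < Real.pi + η) : exp ζ ∈ dom η b s := by
  have hpi := Real.pi_gt_three
  have hi0 : (0 : ℝ) ≤ (i : ℕ) := Nat.cast_nonneg _
  rw [abs_lt] at hre
  by_cases hs : 0 < Real.sin ζ.im
  · right
    rw [mem_iUnion]
    refine ⟨i, by rw [hi]; exact one_pos, Or.inr (exp_mem_door (abs_lt.2 ⟨?_, ?_⟩) hs)⟩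
    · rw [hi]; linarith
    · rw [hi]; linarith
  · rcases le_or_gt ζ.im 0 with h | h
    · right
      rw [mem_iUnion]
      refine ⟨i, by rw [hi]; exact one_pos, Or.inl (exp_mem_room (by linarith) (by linarith)
        (neg_lt_cos h0 h1 (abs_lt.2 ⟨by linarith, by linarith⟩)))⟩
    · have h2 : Real.pi ≤ ζ.im := by
        by_contra hcon
        push Not at hcon
        exact hs (sin_pos' h hcon)
      apply core_mem h0 h1 (by linarith)
      rw [abs_lt]; constructor <;> linarith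

theorem room_mem {η : ℝ} (h0 : 0 < η) (h1 : η ≤ 1 / 8) {b : ℕ} {s : Fin b → ℝ} {i : Fin b}
    (hi : 0 < s i) {ζ : ℂ} (hre : |ζ.re + (((i : ℕ) : ℝ) + 1 / 2)| < 1 / 2)
    (him : |ζ.im| < Real.pi - η) : exp ζ ∈ dom η b s := by
  rw [abs_lt] at hre
  right
  rw [mem_iUnion]
  exact ⟨i, hi, Or.inl (exp_mem_room (by linarith) (by linarith) (neg_lt_cos h0 h1 him))⟩

section chain

variable {η : ℝ} {b : ℕ} {s : Fin b → ℝ} {g φ : ℂ → ℂ}

theorem F_diff (h : RM (dom η b s) g φ) :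
    DifferentiableOn ℂ (fun ζ => φ (exp ζ)) {ζ | exp ζ ∈ dom η b s} :=
  h.dφ.comp differentiable_exp.differentiableOn (fun _ hζ => hζ)

theorem F_maps (h : RM (dom η b s) g φ) :
    MapsTo (fun ζ => φ (exp ζ)) {ζ | exp ζ ∈ dom η b s} (ball 0 1) :=
  fun _ hζ => h.mφ hζ

/-- comparison inside a room -/
theorem room_compare (h0 : 0 < η) (h1 : η ≤ 1 / 8) (h : RM (dom η b s) g φ) {i : Fin b}
    (hi : 0 < s i) {z0 z1 : ℂ}
    (hz0 : |z0.re + (((i : ℕ) : ℝ) + 1 / 2)| ≤ 1 / 2 - η ∧ |z0.im| ≤ Real.pi - 2 * η)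
    (hz1 : |z1.re + (((i : ℕ) : ℝ) + 1 / 2)| ≤ 1 / 2 - η ∧ |z1.im| ≤ Real.pi - 2 * η)
    {n : ℕ} (hn : 0 < n) (hnη : 8 ≤ n * (η / 2)) :
    (1 - ‖φ (exp z0)‖) / 3 ^ n ≤ 1 - ‖φ (exp z1)‖ := by
  apply harnack_chain (r := η / 2) (by positivity) (F_diff h) (F_maps h) _ hn
  · have e : ‖z1 - z0‖ ≤ |(z1 - z0).re| + |(z1 - z0).im| := Complex.norm_le_abs_re_add_abs_im _
    rw [Complex.sub_re, Complex.sub_im] at e
    rw [abs_le, abs_le] at hz0 hz1
    have e1 : |z1.re - z0.re| ≤ 1 := by rw [abs_le]; constructor <;> linarith [hz0.1.1, hz0.1.2, hz1.1.1, hz1.1.2]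
    have e2 : |z1.im - z0.im| ≤ 2 * Real.pi := by
      rw [abs_le]; constructor <;> linarith [hz0.2.1, hz0.2.2, hz1.2.1, hz1.2.2]
    have := Real.pi_lt_d2
    linarith
  · intro θ hθ ζ hζ
    obtain ⟨a1, a2⟩ := ball_coord hζ
    rw [seg_re] at a1
    rw [seg_im] at a2
    rw [abs_le, abs_le] at hz0 hz1
    rw [abs_lt] at a1 a2
    obtain ⟨⟨b1, b2⟩, b3, b4⟩ := hz0
    obtain ⟨⟨c1, c2⟩, c3, c4⟩ := hz1
    obtain ⟨t1, t2⟩ := hθ
    have k1 := mul_nonneg t1 (by linarith : 0 ≤ z1.re + (((i : ℕ) : ℝ) + 1 / 2) + (1 / 2 - η))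
    have k2 := mul_nonneg t1 (by linarith : 0 ≤ (1 / 2 - η) - (z1.re + (((i : ℕ) : ℝ) + 1 / 2)))
    have k3 := mul_nonneg (by linarith : 0 ≤ 1 - θ) (by linarith : 0 ≤ z0.re + (((i : ℕ) : ℝ) + 1 / 2) + (1 / 2 - η))
    have k4 := mul_nonneg (by linarith : 0 ≤ 1 - θ) (by linarith : 0 ≤ (1 / 2 - η) - (z0.re + (((i : ℕ) : ℝ) + 1 / 2)))
    have k5 := mul_nonneg t1 (by linarith : 0 ≤ z1.im + (Real.pi - 2 * η))
    have k6 := mul_nonneg t1 (by linarith : 0 ≤ (Real.pi - 2 * η) - z1.im)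
    have k7 := mul_nonneg (by linarith : 0 ≤ 1 - θ) (by linarith : 0 ≤ z0.im + (Real.pi - 2 * η))
    have k8 := mul_nonneg (by linarith : 0 ≤ 1 - θ) (by linarith : 0 ≤ (Real.pi - 2 * η) - z0.im)
    apply room_mem h0 h1 hi
    · rw [abs_lt]; constructor <;> nlinarith
    · rw [abs_lt]; constructor <;> nlinarith

/-- lower bound at the centre of a room with open door -/
theorem open_bound (h0 : 0 < η) (h1 : η ≤ 1 / 8) (h : RM (dom η b s) g φ) {i : Fin b}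
    (hi : s i = 1) {n m : ℕ} (hn : 0 < n) (hnη : 8 ≤ n * (η / 2)) (hm : 0 < m)
    (hmη : (b : ℝ) + 1 ≤ m * (η / 2)) :
    1 / 2 / 3 ^ (m + n) ≤ 1 - ‖φ (ctr i)‖ := by
  have hpi := Real.pi_gt_three
  have hib : ((i : ℕ) : ℝ) + 1 ≤ b := by exact_mod_cast i.2
  have hi0 : (0 : ℝ) ≤ (i : ℕ) := Nat.cast_nonneg _
  set z0 : ℂ := ⟨-((b : ℝ) + 1), Real.pi⟩ with hz0
  set z1 : ℂ := ⟨-(((i : ℕ) : ℝ) + 1 / 2), Real.pi⟩ with hz1
  set z2 : ℂ := ⟨-(((i : ℕ) : ℝ) + 1 / 2), 0⟩ with hz2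
  have hb0 : ball (0 : ℂ) (Real.exp (-(b : ℝ))) ⊆ dom η b s := fun u hu => Or.inl (Or.inl hu)
  have s0 : 1 / 2 ≤ 1 - ‖φ (exp z0)‖ := by
    have hn0 : ‖exp z0‖ = Real.exp (-((b : ℝ) + 1)) := by rw [Complex.norm_exp]
    have hlt : ‖exp z0‖ < Real.exp (-(b : ℝ)) := by
      rw [hn0]; exact Real.exp_lt_exp.2 (by linarith)
    have h2 := phi_bound h hb0 hlt
    rw [hn0] at h2
    have h3 : Real.exp (-((b : ℝ) + 1)) = Real.exp (-(b : ℝ)) * Real.exp (-1) := by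
      rw [← Real.exp_add]; congr 1; ring
    rw [h3] at h2
    have h4 := le_of_mul_le_mul_left h2 (Real.exp_pos _)
    have h5 : Real.exp (-1) ≤ 1 / 2 := by
      rw [Real.exp_neg, inv_eq_one_div]
      apply one_div_le_one_div_of_le (by norm_num)
      have := Real.add_one_le_exp (1 : ℝ)
      linarith
    linarith
  have s1 : (1 - ‖φ (exp z0)‖) / 3 ^ m ≤ 1 - ‖φ (exp z1)‖ := by
    apply harnack_chain (r := η / 2) (by positivity) (F_diff h) (F_maps h) _ hm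
    · have : z1 - z0 = (((b : ℝ) + 1 - (((i : ℕ) : ℝ) + 1 / 2) : ℝ) : ℂ) := by
        apply Complex.ext
        · simp only [hz0, hz1, Complex.sub_re, Complex.ofReal_re]; ring
        · simp only [hz0, hz1, Complex.sub_im, Complex.ofReal_im]; ring
      rw [this, Complex.norm_real, Real.norm_of_nonneg (by linarith)]
      linarith
    · intro θ hθ ζ hζ
      obtain ⟨a1, a2⟩ := ball_coord hζ
      rw [seg_re] at a1
      rw [seg_im] at a2
      simp only [hz0, hz1] at a1 a2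
      obtain ⟨t1, t2⟩ := hθ
      have k1 := mul_nonneg (by linarith : 0 ≤ 1 - θ) (by linarith : 0 ≤ (b : ℝ) + 1 - (((i : ℕ) : ℝ) + 1 / 2))
      apply core_mem h0 h1
      · rw [abs_lt] at a1
        nlinarith
      · have : Real.pi + θ * (Real.pi - Real.pi) = Real.pi := by ring
        rw [this] at a2
        linarith
  have s2 : (1 - ‖φ (exp z1)‖) / 3 ^ n ≤ 1 - ‖φ (exp z2)‖ := by
    apply harnack_chain (r := η / 2) (by positivity) (F_diff h) (F_maps h) _ hn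
    · have : z2 - z1 = ((-Real.pi : ℝ) : ℂ) * I := by
        apply Complex.ext
        · simp [hz2, hz1]
        · simp [hz2, hz1]
      rw [this, norm_mul, Complex.norm_real, Complex.norm_I, mul_one, norm_neg, Real.norm_of_nonneg Real.pi_pos.le]
      have := Real.pi_lt_d2
      linarith
    · intro θ hθ ζ hζ
      obtain ⟨a1, a2⟩ := ball_coord hζ
      rw [seg_re] at a1
      rw [seg_im] at a2
      simp only [hz1, hz2] at a1 a2
      obtain ⟨t1, t2⟩ := hθ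
      rw [abs_lt] at a1 a2
      apply cross_mem h0 h1 hi
      · rw [abs_lt]; constructor <;> nlinarith
      · nlinarith
      · nlinarith
  rw [ctr_eq]
  have h6 : (1 / 2 : ℝ) / 3 ^ (m + n) ≤ (1 - ‖φ (exp z0)‖) / 3 ^ m / 3 ^ n := by
    have h6' : (1 - ‖φ (exp z0)‖) / 3 ^ m / 3 ^ n = (1 - ‖φ (exp z0)‖) / 3 ^ (m + n) := by
      rw [div_div, ← pow_add]
    rw [h6']
    gcongr
  have h7 : (1 - ‖φ (exp z0)‖) / 3 ^ m / 3 ^ n ≤ (1 - ‖φ (exp z1)‖) / 3 ^ n := by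
    gcongr
  linarith

end chain

theorem deriv_g_ne {U : Set ℂ} {g φ : ℂ → ℂ} (hU : IsOpen U) (h0 : (0 : ℂ) ∈ U) (h : RM U g φ) :
    deriv g 0 ≠ 0 := by
  have h1 : HasDerivAt g (deriv g 0) 0 :=
    (h.dg.differentiableAt (isOpen_ball.mem_nhds (by simp))).hasDerivAt
  have h2 : HasDerivAt φ (deriv φ 0) (g 0) := by
    rw [h.g0]
    exact (h.dφ.differentiableAt (hU.mem_nhds h0)).hasDerivAt
  have h3 := h2.comp (0 : ℂ) h1
  have h4 : HasDerivAt (fun z : ℂ => z) 1 (0 : ℂ) := hasDerivAt_id 0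
  have h5 : (φ ∘ g) =ᶠ[𝓝 0] (fun z : ℂ => z) := by
    filter_upwards [isOpen_ball.mem_nhds (show (0 : ℂ) ∈ ball (0 : ℂ) 1 by simp)] with z hz
    exact h.φg z hz
  have h6 := (h3.congr_of_eventuallyEq h5.symm).unique h4
  intro hcon
  rw [hcon, mul_zero] at h6
  exact zero_ne_one h6

theorem exists_level {η : ℝ} (h0 : 0 < η) (h1 : η ≤ 1 / 8) :
    ∃ C : ℝ, 1 ≤ C ∧ ∃ L : ℝ, 0 ≤ L ∧ ∀ b : ℕ, 1 ≤ b → ∃ (Φ : ℂ → ℂ) (t : ℝ), Level η C L b Φ t := by
  have hpi := Real.pi_gt_three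
  obtain ⟨n, hn⟩ := exists_nat_gt (16 / η)
  have hn0 : 0 < n := by
    have : (0 : ℝ) < n := lt_trans (by positivity) hn
    exact_mod_cast this
  have hnη : 8 ≤ n * (η / 2) := by
    rw [div_lt_iff₀ h0] at hn
    linarith
  set C : ℝ := 3 ^ n with hC
  have hC1 : 1 ≤ C := one_le_pow₀ (by norm_num)
  set L : ℝ := Real.log (8 * C) + (n + n : ℝ) * Real.log 3 with hL
  have hlog3 : 0 ≤ Real.log 3 := Real.log_nonneg (by norm_num)
  have hlog8 : 0 ≤ Real.log (8 * C) := Real.log_nonneg (by linarith)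
  refine ⟨C, hC1, L, by positivity, fun b hb => ?_⟩
  have hb1 : (1 : ℝ) ≤ b := by exact_mod_cast hb
  set m : ℕ := n * b with hm
  have hm0 : 0 < m := Nat.mul_pos hn0 hb
  have hmη : (b : ℝ) + 1 ≤ m * (η / 2) := by
    rw [hm]; push_cast
    nlinarith
  set t0 : ℝ := 1 / 2 / 3 ^ (m + n) with ht0
  have ht0p : 0 < t0 := by positivity
  have ht01 : t0 ≤ 1 / 2 := by
    rw [ht0]
    apply div_le_self (by norm_num)
    exact one_le_pow₀ (by norm_num)
  set t : ℝ := t0 / (4 * C) with ht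
  have htp : 0 < t := by positivity
  have htle : t ≤ t0 := by
    rw [ht]; apply div_le_self ht0p.le; linarith
  -- the family
  have hdom : ∀ s : Fin b → ℝ, ∃ g φ : ℂ → ℂ, RM (dom η b (cl s)) g φ := fun s =>
    exists_RM (isOpen_dom _ _ _) (SR_dom h0 h1 _ (cl_mem s)) (precon_dom h0 h1 _ (cl_mem s))
      (dom_sub_ball _ (cl_mem s)) (zero_mem_dom _ _ _)
  choose g φ hRM using hdom
  have hcont : ∀ c : ℂ, Continuous (val (fun s : Fin b → ℝ => dom η b (cl s)) φ c) := by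
    intro c
    rw [continuous_iff_continuousAt]
    intro s
    apply tendsto_val (U := fun s : Fin b → ℝ => dom η b (cl s)) (g := g) (φ := φ) (fun s => isOpen_dom _ _ _)
      (fun s => dom_sub_ball _ (cl_mem s)) (fun s => zero_mem_dom _ _ _) hRM
    · intro u hu
      rw [← nhds_prod_eq]
      have h2 : Continuous (fun p : ℂ × (Fin b → ℝ) => (p.1, cl p.2)) :=
        continuous_fst.prodMk (cl_cont.comp continuous_snd)
      have h3 : IsOpen ((fun p : ℂ × (Fin b → ℝ) => (p.1, cl p.2)) ⁻¹' {p : ℂ × (Fin b → ℝ) | p.1 ∈ dom η b p.2}) :=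
        (isOpen_graph η b).preimage h2
      exact h3.mem_nhds hu
    · intro p hp ε hε
      obtain ⟨τ, hτ, hτ'⟩ := H2dom (cl_mem s) hp hε
      have h2 : ∀ᶠ s' in 𝓝 s, ∀ i, cl s' i < cl s i + 4 * τ := by
        rw [eventually_all]
        intro i
        have h3 : Continuous (fun s' : Fin b → ℝ => cl s' i) := (continuous_apply i).comp cl_cont
        exact h3.continuousAt.eventually_lt continuousAt_const (by linarith)
      filter_upwards [h2] with s' hs'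
      exact hτ' _ (cl_mem s') hs'
  -- Miranda
  obtain ⟨s, hs, hsF⟩ := Pool.Agent.Helper475.Miranda.poincare_miranda b
    (fun s i => (1 - t) - val (fun s : Fin b → ℝ => dom η b (cl s)) φ (ctr i) s)
    (by
      apply Continuous.continuousOn
      apply continuous_pi
      intro i
      exact continuous_const.sub (hcont _))
    (by
      intro s hs i hi
      have hv : val (fun s : Fin b → ℝ => dom η b (cl s)) φ (ctr i) s = 1 := by
        apply if_neg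
        show ctr (i : ℕ) ∉ dom η b (cl s)
        rw [cl_eq hs]
        exact ctr_not_mem h0 h1 hs hi
      simp only [hv]
      linarith)
    (by
      intro s hs i hi
      have hmem : ctr (i : ℕ) ∈ dom η b (cl s) := by
        rw [cl_eq hs, ctr_eq]
        apply room_mem h0 h1 (i := i) (by rw [hi]; exact one_pos)
        · simp
        · simp; linarith
      have hv : val (fun s : Fin b → ℝ => dom η b (cl s)) φ (ctr i) s = ‖φ s (ctr i)‖ := if_pos hmem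
      simp only [hv]
      have h2 := open_bound h0 h1 (hRM s) (i := i) (by rw [cl_eq hs]; exact hi) hn0 hnη hm0 hmη
      linarith)
  have hval : ∀ i : Fin b, val (fun s : Fin b → ℝ => dom η b (cl s)) φ (ctr i) s = 1 - t := by
    intro i
    have := congrFun hsF i
    simp only [Pi.zero_apply] at this
    linarith
  have hcl : cl s = s := cl_eq hs
  have hin : ∀ i : Fin b, ctr (i : ℕ) ∈ dom η b s := by
    intro i
    by_contra hcon
    have hv : val (fun s : Fin b → ℝ => dom η b (cl s)) φ (ctr i) s = 1 := by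
      apply if_neg
      show ctr (i : ℕ) ∉ dom η b (cl s)
      rw [hcl]; exact hcon
    rw [hval i] at hv
    linarith
  have hpos : ∀ i : Fin b, 0 < s i := by
    intro i
    rcases (hs i).1.lt_or_eq with h | h
    · exact h
    · exact absurd (hin i) (ctr_not_mem h0 h1 hs h.symm)
  have hphi : ∀ i : Fin b, ‖φ s (ctr i)‖ = 1 - t := by
    intro i
    rw [← hval i]
    symm
    apply if_pos
    show ctr (i : ℕ) ∈ dom η b (cl s)
    rw [hcl]; exact hin i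
  have hR := hRM s
  rw [hcl] at hR
  -- rotate
  have hd0 := deriv_g_ne (isOpen_dom η b s) (zero_mem_dom η b s) hR
  have hb0 : ball (0 : ℂ) (Real.exp (-(b : ℝ))) ⊆ dom η b s := fun u hu => Or.inl (Or.inl hu)
  set ρ : ℂ := (starRingEnd ℂ) (deriv (g s) 0) / ‖deriv (g s) 0‖ with hρ
  have hnd : ‖deriv (g s) 0‖ ≠ 0 := norm_ne_zero_iff.2 hd0
  have hρn : ‖ρ‖ = 1 := by
    rw [hρ, norm_div, RCLike.norm_conj, Complex.norm_real, norm_norm, div_self hnd]
  have hρ0 : ρ ≠ 0 := by rw [← norm_ne_zero_iff, hρn]; exact one_ne_zero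
  have hrot : ∀ w : ℂ, w ∈ ball (0 : ℂ) 1 → ρ * w ∈ ball (0 : ℂ) 1 := by
    intro w hw
    rw [mem_ball_zero_iff] at hw ⊢
    rwa [norm_mul, hρn, one_mul]
  have hgd : DifferentiableOn ℂ (fun w => g s (ρ * w)) (ball 0 1) :=
    hR.dg.comp (by fun_prop) hrot
  have hlow : ∀ w ∈ ball (0 : ℂ) 1, Real.exp (-(b : ℝ)) * ‖w‖ ≤ ‖g s w‖ := by
    intro w hw
    rcases lt_or_ge ‖g s w‖ (Real.exp (-(b : ℝ))) with h | h
    · have := phi_bound hR hb0 h
      rwa [hR.φg w hw] at this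
    · rw [mem_ball_zero_iff] at hw
      have := Real.exp_pos (-(b : ℝ))
      nlinarith [norm_nonneg w]
  have hup : ∀ w ∈ ball (0 : ℂ) 1, ‖g s w‖ ≤ ‖w‖ := by
    intro w hw
    exact schwarz hR.dg (fun z hz => dom_sub_ball s hs (hR.mg hz)) hR.g0 hw
  refine ⟨fun w => g s (ρ * w), t, ⟨hgd, ?_, by simp [hR.g0], ?_, ?_, ?_, ?_, htp, ?_, ?_, ?_⟩⟩
  · intro z hz w hw hzw
    exact mul_left_cancel₀ hρ0 (hR.inj (hrot z hz) (hrot w hw) hzw)
  · refine ⟨‖deriv (g s) 0‖, norm_pos_iff.2 hd0, ?_⟩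
    have h2 : HasDerivAt (g s) (deriv (g s) 0) (ρ * 0) := by
      rw [mul_zero]
      exact (hR.dg.differentiableAt (isOpen_ball.mem_nhds (by simp))).hasDerivAt
    have h3 : HasDerivAt (fun w : ℂ => ρ * w) ρ 0 := by
      simpa using (hasDerivAt_id (0 : ℂ)).const_mul ρ
    have h4 := h2.comp (0 : ℂ) h3
    have h5 : deriv (fun w => g s (ρ * w)) 0 = deriv (g s) 0 * ρ := h4.deriv
    rw [h5, hρ, mul_div_assoc', Complex.mul_conj, Complex.normSq_eq_norm_sq]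
    rw [div_eq_iff (by exact_mod_cast hnd)]
    push_cast
    ring
  · intro w hw
    have := hlow _ (hrot w hw)
    rwa [norm_mul, hρn, one_mul] at this
  · intro w hw
    have := hup _ (hrot w hw)
    rwa [norm_mul, hρn, one_mul] at this
  · intro v hv
    have hvd : v ∈ dom η b s := hb0 (by simpa using hv)
    refine ⟨φ s v / ρ, ?_, ?_⟩
    · have := hR.mφ hvd
      rw [mem_ball_zero_iff] at this ⊢
      rwa [norm_div, hρn, div_one]
    · show g s (ρ * (φ s v / ρ)) = v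
      rw [mul_div_cancel₀ _ hρ0, hR.gφ v hvd]
  · -- lower bound for t
    have e1 : t = Real.exp (-(Real.log (8 * C) + ((m : ℝ) + n) * Real.log 3)) := by
      rw [neg_add, Real.exp_add, Real.exp_neg, Real.exp_log (by positivity)]
      have : Real.exp (-(((m : ℝ) + n) * Real.log 3)) = 1 / 3 ^ (m + n) := by
        rw [Real.exp_neg, ← Nat.cast_add, Real.exp_nat_mul, Real.exp_log (by norm_num), one_div]
      rw [this, ht, ht0]
      field_simp
      ring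
    rw [e1]
    apply Real.exp_le_exp.2
    rw [neg_le_neg_iff, hL, hm]
    push_cast
    have k1 := mul_nonneg hlog8 (by linarith : (0 : ℝ) ≤ b - 1)
    have k2 : 0 ≤ (n : ℝ) * Real.log 3 * (b - 1) := by
      have : (0 : ℝ) ≤ b - 1 := by linarith
      positivity
    nlinarith
  · rw [ht]
    have : 4 * C * (t0 / (4 * C)) = t0 := by field_simp
    rw [this]; linarith
  · rintro v ⟨hv0, i, hib, hv1, hv2⟩
    have hvn : 0 < ‖v‖ := norm_pos_iff.2 hv0
    have harg : |arg v| ≤ Real.pi - 2 * η := by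
      by_contra hcon
      push Not at hcon
      have h2 : Real.cos |arg v| < Real.cos (Real.pi - 2 * η) :=
        Real.cos_lt_cos_of_nonneg_of_le_pi (by linarith) (Complex.abs_arg_le_pi v) hcon
      rw [Real.cos_abs, Real.cos_pi_sub] at h2
      have h3 : v.re = ‖v‖ * Real.cos (arg v) := (Complex.norm_mul_cos_arg v).symm
      rw [h3] at hv2
      nlinarith
    have hz0 : |(log v).re + ((((⟨i, hib⟩ : Fin b) : ℕ) : ℝ) + 1 / 2)| ≤ 1 / 2 - η ∧
        |(log v).im| ≤ Real.pi - 2 * η := by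
      rw [Complex.log_re, Complex.log_im]; exact ⟨hv1, harg⟩
    have hz1 : |((⟨-((i : ℝ) + 1 / 2), 0⟩ : ℂ)).re + ((((⟨i, hib⟩ : Fin b) : ℕ) : ℝ) + 1 / 2)| ≤ 1 / 2 - η ∧
        |((⟨-((i : ℝ) + 1 / 2), 0⟩ : ℂ)).im| ≤ Real.pi - 2 * η := by
      constructor
      · simp; linarith
      · simp; linarith
    have c1 := room_compare h0 h1 hR (hpos ⟨i, hib⟩) hz0 hz1 hn0 hnη
    have c2 := room_compare h0 h1 hR (hpos ⟨i, hib⟩) hz1 hz0 hn0 hnη
    rw [← ctr_eq, exp_log hv0] at c1 c2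
    have hph := hphi ⟨i, hib⟩
    simp only at hph
    rw [hph] at c1 c2
    have hvd : v ∈ dom η b s := by
      rw [← exp_log hv0]
      apply room_mem h0 h1 (hpos ⟨i, hib⟩)
      · linarith [hz0.1]
      · linarith [hz0.2]
    refine ⟨φ s v / ρ, ?_, ?_, ?_, ?_⟩
    · have := hR.mφ hvd
      rw [mem_ball_zero_iff] at this ⊢
      rwa [norm_div, hρn, div_one]
    · show g s (ρ * (φ s v / ρ)) = v
      rw [mul_div_cancel₀ _ hρ0, hR.gφ v hvd]
    · rw [norm_div, hρn, div_one]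
      have : 1 - (1 - t) = t := by ring
      rw [this] at c2
      exact c2
    · rw [norm_div, hρn, div_one]
      have : 1 - (1 - t) = t := by ring
      rw [this, div_le_iff₀ (by positivity)] at c1
      linarith

end Pool.Agent.Helper265.Osg
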