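import Mathlib
import Pool.Agent.Helper265.OsgArea
import Pool.Agent.Helper265.OsgLevel

/-! Averaging over rotations; written by helper768 (job 898) from my proof sketch. -/

set_option autoImplicit false
open Complex Set Filter Metric Topology MeasureTheory

namespace Pool.Agent.Helper265.Osg

/-- points whose rotated `m`-th power is in the bad part -/
def badset (η : ℝ) (b m : ℕ) (u : ℂ) : Set ℂ :=
  {z | ‖z‖ < 1 ∧ Real.exp (-(b : ℝ)) / 2 ≤ ‖z‖ ^ m ∧ u * z ^ m ∉ good η b}

end Pool.Agent.Helper265.Osg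

section

open Complex Set Filter Metric Topology MeasureTheory

namespace Pool.Agent.Helper265.Osg

theorem nice_bdd {a : ℕ → ℂ} (ha : Nice a) : ∃ (q C : ℝ), 0 < q ∧ q < 1 ∧ 0 ≤ C ∧
    ∀ n, ‖a n‖ ≤ C * q ^ n := by
  obtain ⟨R, hR, hs⟩ := ha.sum
  have hR0 : 0 < R := by linarith
  refine ⟨R⁻¹, ∑' n, ‖a n‖ * R ^ n, inv_pos.2 hR0, inv_lt_one_of_one_lt₀ hR,
    tsum_nonneg fun n => by positivity, fun n => ?_⟩
  have h1 : ‖a n‖ * R ^ n ≤ ∑' n, ‖a n‖ * R ^ n := hs.le_tsum n fun m _ => by positivity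
  rw [inv_pow, ← div_eq_mul_inv, le_div_iff₀ (by positivity)]
  exact h1

theorem nice_rc {a : ℕ → ℂ} (ha : Nice a) : RC a := by
  obtain ⟨R, hR, hs⟩ := ha.sum
  intro r h0 h1
  refine Summable.of_nonneg_of_le (fun n => by positivity) (fun n => ?_) hs
  gcongr
  linarith

theorem nice_sq {a : ℕ → ℂ} (ha : Nice a) : Summable fun n : ℕ => (n : ℝ) ^ 2 * ‖a n‖ ^ 2 := by
  obtain ⟨q, C, hq0, hq1, hC, h⟩ := nice_bdd ha
  have h1 : Summable fun n : ℕ => (n : ℝ) ^ 2 * (q ^ 2) ^ n :=
    summable_pow_mul_geometric_of_norm_lt_one 2 (by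
      rw [Real.norm_of_nonneg (by positivity)]; nlinarith)
  refine Summable.of_nonneg_of_le (fun n => by positivity) (fun n => ?_) (h1.mul_left (C ^ 2))
  calc (n : ℝ) ^ 2 * ‖a n‖ ^ 2 ≤ (n : ℝ) ^ 2 * (C * q ^ n) ^ 2 := by
        gcongr; exact h n
    _ = C ^ 2 * ((n : ℝ) ^ 2 * (q ^ 2) ^ n) := by rw [mul_pow, ← pow_mul, ← pow_mul]; ring_nf

theorem nice_sq1 {a : ℕ → ℂ} (ha : Nice a) : Summable fun n : ℕ => (n : ℝ) * ‖a n‖ ^ 2 := by
  refine Summable.of_nonneg_of_le (fun n => by positivity) (fun n => ?_) (nice_sq ha)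
  gcongr
  rcases Nat.eq_zero_or_pos n with rfl | hn
  · simp
  · have : (1 : ℝ) ≤ n := by exact_mod_cast hn
    nlinarith

/-- the elementary inequality for one coefficient -/
theorem T_bound {c η : ℝ} (hc : 0 ≤ c) (h0 : 0 < η) (h1 : η ≤ 1) (b : ℕ) :
    ∑ i ∈ Finset.range b, ((Real.exp (-(c * i)) - Real.exp (-(c * (i + η)))) +
      (Real.exp (-(c * (i + 1 - η))) - Real.exp (-(c * (i + 1))))) +
      (Real.exp (-(c * b)) - Real.exp (-(c * (b + Real.log 2)))) ≤ 2 * η + 2 * c := by
  have hW : (1 - Real.exp (-(c * η))) + (Real.exp (-(c * (1 - η))) - Real.exp (-c)) ≤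
      (2 * η + c) * (1 - Real.exp (-c)) := by
    have e1 : 1 - Real.exp (-(c * η)) ≤ c * η := by
      have := Real.add_one_le_exp (-(c * η))
      linarith
    have e2 : Real.exp (-(c * (1 - η))) ≤ (1 - η) * Real.exp (-c) + η := by
      have := convexOn_exp.2 (Set.mem_univ (-c)) (Set.mem_univ 0) (by linarith : 0 ≤ 1 - η) h0.le
        (by ring)
      simp only [smul_eq_mul, mul_zero, add_zero, Real.exp_zero, mul_one] at this
      have e : -(c * (1 - η)) = (1 - η) * -c := by ring
      rw [e]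
      exact this
    have e3 : c * η ≤ (η + c) * (1 - Real.exp (-c)) := by
      have h2 : Real.exp (-c) * (1 + c) ≤ 1 := by
        rw [Real.exp_neg, inv_mul_le_iff₀ (Real.exp_pos _), mul_one, add_comm]
        exact Real.add_one_le_exp c
      have h3 : 0 < Real.exp (-c) := Real.exp_pos _
      have h4 : Real.exp (-c) ≤ 1 := by rw [Real.exp_le_one_iff]; linarith
      -- (η + c)(1 - E) ≥ cη where E(1+c) ≤ 1
      have h5 : c ≤ (1 + c) * (1 - Real.exp (-c)) := by nlinarith
      have h6 : η * c ≤ η * ((1 + c) * (1 - Real.exp (-c))) := by gcongr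
      have h7 : η * ((1 + c) * (1 - Real.exp (-c))) ≤ (η + c) * (1 - Real.exp (-c)) := by
        have : 0 ≤ 1 - Real.exp (-c) := by linarith
        nlinarith [mul_nonneg (mul_nonneg hc this) (by linarith : 0 ≤ 1 - η)]
      linarith
    nlinarith
  have hlast : Real.exp (-(c * b)) - Real.exp (-(c * (b + Real.log 2))) ≤ c := by
    have e1 : Real.exp (-(c * (b + Real.log 2))) = Real.exp (-(c * b)) * Real.exp (-(c * Real.log 2)) := by
      rw [← Real.exp_add]; congr 1; ring
    have e2 : Real.exp (-(c * b)) ≤ 1 := by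
      rw [Real.exp_le_one_iff]; have : 0 ≤ c * b := by positivity
      linarith
    have e3 : 1 - Real.exp (-(c * Real.log 2)) ≤ c * Real.log 2 := by
      have := Real.add_one_le_exp (-(c * Real.log 2))
      linarith
    have e4 : c * Real.log 2 ≤ c := by
      have := Real.log_two_lt_d9
      nlinarith
    have e5 : 0 < Real.exp (-(c * b)) := Real.exp_pos _
    have e6 : Real.exp (-(c * Real.log 2)) ≤ 1 := by
      rw [Real.exp_le_one_iff]
      have : 0 ≤ c * Real.log 2 := mul_nonneg hc (Real.log_nonneg (by norm_num))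
      linarith
    rw [e1]
    nlinarith
  have hterm : ∀ i : ℕ, ((Real.exp (-(c * i)) - Real.exp (-(c * (i + η)))) +
      (Real.exp (-(c * (i + 1 - η))) - Real.exp (-(c * (i + 1))))) ≤
      (2 * η + c) * (Real.exp (-(c * i)) - Real.exp (-(c * ((i + 1 : ℕ) : ℝ)))) := by
    intro i
    have e1 : Real.exp (-(c * (i + η))) = Real.exp (-(c * i)) * Real.exp (-(c * η)) := by
      rw [← Real.exp_add]; congr 1; ring
    have e2 : Real.exp (-(c * (i + 1 - η))) = Real.exp (-(c * i)) * Real.exp (-(c * (1 - η))) := by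
      rw [← Real.exp_add]; congr 1; ring
    have e3 : Real.exp (-(c * (i + 1))) = Real.exp (-(c * i)) * Real.exp (-c) := by
      rw [← Real.exp_add]; congr 1; ring
    have e4 : ((i + 1 : ℕ) : ℝ) = (i : ℝ) + 1 := by push_cast; rfl
    rw [e4, e1, e2, e3]
    have e5 : 0 < Real.exp (-(c * i)) := Real.exp_pos _
    nlinarith [mul_le_mul_of_nonneg_left hW e5.le]
  have hsum := Finset.sum_le_sum fun i (_ : i ∈ Finset.range b) => hterm i
  rw [← Finset.mul_sum, Finset.sum_range_sub' (fun i : ℕ => Real.exp (-(c * i)))] at hsum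
  simp only [Nat.cast_zero, mul_zero, neg_zero, Real.exp_zero] at hsum
  have e7 : (2 * η + c) * (1 - Real.exp (-(c * b))) ≤ 2 * η + c := by
    have : 0 < Real.exp (-(c * b)) := Real.exp_pos _
    nlinarith
  linarith

/-- the angular estimate -/
theorem angle_bound {η : ℝ} (h0 : 0 < η) (v : ℂ) :
    volume {θ : ℝ | θ ∈ Ioc 0 (2 * Real.pi) ∧
      (Complex.exp (-(θ * I)) * v).re < -Real.cos (2 * η) * ‖v‖} ≤ ENNReal.ofReal (12 * η) := by
  have hπ := Real.pi_pos
  set α := Complex.arg v with hα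
  have hα1 := Complex.neg_pi_lt_arg v
  have hα2 := Complex.arg_le_pi v
  have hsub : {θ : ℝ | θ ∈ Ioc 0 (2 * Real.pi) ∧
      (Complex.exp (-(θ * I)) * v).re < -Real.cos (2 * η) * ‖v‖} ⊆
      (ball (α - Real.pi) (2 * η) ∪ ball (α + Real.pi) (2 * η)) ∪ ball (α + 3 * Real.pi) (2 * η) := by
    rintro θ ⟨hθ, hre⟩
    have e1 : (Complex.exp (-(θ * I)) * v).re = ‖v‖ * Real.cos (α - θ) := by
      have e2 : v = ‖v‖ * Complex.exp (α * I) := (Complex.norm_mul_exp_arg_mul_I v).symm
      have e3 : Complex.exp (-(θ * I)) * v = ‖v‖ * Complex.exp ((α - θ : ℝ) * I) := by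
        conv_lhs => rw [e2]
        rw [mul_left_comm, ← Complex.exp_add]
        congr 2
        push_cast
        ring
      rw [e3, Complex.re_ofReal_mul, Complex.exp_ofReal_mul_I_re]
    rw [e1] at hre
    have hv : 0 < ‖v‖ := by
      by_contra hcon
      have : ‖v‖ = 0 := le_antisymm (not_lt.1 hcon) (norm_nonneg _)
      rw [this] at hre
      simp at hre
    have hcos : Real.cos (α - θ) < -Real.cos (2 * η) := by
      by_contra hcon
      push Not at hcon
      nlinarith
    have key : ∀ y : ℝ, |y| ≤ Real.pi → Real.cos (2 * η) < Real.cos y → |y| < 2 * η := by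
      intro y hy hc
      by_contra hcon
      push Not at hcon
      have := Real.cos_le_cos_of_nonneg_of_le_pi (by linarith : 0 ≤ 2 * η) hy hcon
      rw [Real.cos_abs] at this
      linarith
    simp only [mem_union, mem_ball, Real.dist_eq]
    rcases le_total (α - θ) (-(2 * Real.pi)) with h1 | h1
    · right
      have := key (α - θ + 3 * Real.pi) (by rw [abs_le]; constructor <;> linarith [hθ.2]) (by
        have e : α - θ + 3 * Real.pi = (α - θ + Real.pi) + 2 * Real.pi := by ring
        rw [e, Real.cos_add_two_pi, Real.cos_add_pi]; linarith)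
      rw [← abs_neg]
      convert this using 2
      ring
    · rcases le_total (α - θ) 0 with h2 | h2
      · left; right
        have := key (α - θ + Real.pi) (by rw [abs_le]; constructor <;> linarith [hθ.2]) (by
          rw [Real.cos_add_pi]; linarith)
        rw [← abs_neg]
        convert this using 2
        ring
      · left; left
        have := key (α - θ - Real.pi) (by rw [abs_le]; constructor <;> linarith [hθ.1]) (by
          rw [Real.cos_sub_pi]; linarith)
        rw [← abs_neg]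
        convert this using 2
        ring
  refine (measure_mono hsub).trans ((measure_union_le _ _).trans ?_)
  refine (add_le_add_left (measure_union_le _ _) _).trans ?_
  rw [Real.volume_ball, Real.volume_ball, Real.volume_ball, ← ENNReal.ofReal_add (by linarith) (by linarith),
    ← ENNReal.ofReal_add (by linarith) (by linarith)]
  apply ENNReal.ofReal_le_ofReal
  linarith

/-- annulus `{exp (-x₂/m) ≤ ‖z‖ < exp (-x₁/m)}` -/
def ann (m : ℕ) (x₁ x₂ : ℝ) : Set ℂ :=
  ball 0 (Real.exp (-(x₁ / m))) \ ball 0 (Real.exp (-(x₂ / m)))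

theorem mem_ann {m : ℕ} (hm : 1 ≤ m) {x₁ x₂ : ℝ} {z : ℂ} (hz : z ≠ 0)
    (h1 : x₁ < -(m * Real.log ‖z‖)) (h2 : -(m * Real.log ‖z‖) ≤ x₂) : z ∈ ann m x₁ x₂ := by
  have hz0 : 0 < ‖z‖ := norm_pos_iff.2 hz
  have hm0 : (0 : ℝ) < m := by exact_mod_cast hm
  refine ⟨?_, ?_⟩
  · rw [mem_ball_zero_iff, ← Real.log_lt_iff_lt_exp hz0, lt_neg, div_lt_iff₀ hm0]
    linarith
  · rw [mem_ball_zero_iff, not_lt, ← Real.le_log_iff_exp_le hz0, neg_le, le_div_iff₀ hm0]
    linarith

/-- the radii that are always counted as bad -/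
def badR (η : ℝ) (b m : ℕ) : Set ℂ :=
  (⋃ i ∈ Finset.range b, (ann m i (i + η) ∪ ann m (i + 1 - η) (i + 1))) ∪ ann m b (b + Real.log 2)

theorem bad_cases {η : ℝ} {b m : ℕ} (hm : 1 ≤ m) {z : ℂ} {u : ℂ}
    (hu : ‖u‖ = 1) (hz : z ∈ badset η b m u) :
    z ∈ badR η b m ∨ (u * z ^ m).re < -Real.cos (2 * η) * ‖z ^ m‖ := by
  obtain ⟨hz1, hz2, hz3⟩ := hz
  have hm0 : (0 : ℝ) < m := by exact_mod_cast hm
  have hz0 : z ≠ 0 := by
    rintro rfl
    rw [norm_zero, zero_pow (by omega)] at hz2
    have := Real.exp_pos (-(b : ℝ))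
    linarith
  have hzn : 0 < ‖z‖ := norm_pos_iff.2 hz0
  set x := -(m * Real.log ‖z‖) with hx
  have hx0 : 0 < x := by
    have := Real.log_neg hzn hz1
    rw [hx]
    nlinarith
  have hxb : x ≤ b + Real.log 2 := by
    have h1 := Real.log_le_log (by have := Real.exp_pos (-(b : ℝ)); positivity) hz2
    rw [Real.log_pow, Real.log_div (Real.exp_pos _).ne' two_ne_zero, Real.log_exp] at h1
    rw [hx]; linarith
  have hlog : Real.log ‖u * z ^ m‖ = -x := by
    rw [norm_mul, hu, one_mul, norm_pow, Real.log_pow, hx]; ring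
  -- the index
  obtain ⟨i, hi1, hi2⟩ : ∃ i : ℕ, (i : ℝ) < x ∧ x ≤ i + 1 := by
    have hc : 0 < ⌈x⌉₊ := Nat.ceil_pos.2 hx0
    refine ⟨⌈x⌉₊ - 1, ?_, ?_⟩
    · have := Nat.lt_ceil.1 (show ⌈x⌉₊ - 1 < ⌈x⌉₊ by omega)
      exact this
    · have h1 := Nat.le_ceil x
      have h2 : ((⌈x⌉₊ - 1 : ℕ) : ℝ) + 1 = (⌈x⌉₊ : ℝ) := by
        exact_mod_cast (by omega : ⌈x⌉₊ - 1 + 1 = ⌈x⌉₊)
      rw [h2]; exact h1
  by_cases hib : i < b
  · by_cases hg : |x - ((i : ℝ) + 1 / 2)| ≤ 1 / 2 - η
    · right
      by_contra hcon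
      push Not at hcon
      apply hz3
      refine ⟨?_, i, hib, ?_, ?_⟩
      · apply mul_ne_zero
        · rw [← norm_pos_iff, hu]; norm_num
        · exact pow_ne_zero _ hz0
      · rw [hlog, ← abs_neg]
        convert hg using 2
        ring
      · rw [norm_mul, hu, one_mul]; exact hcon
    · left
      left
      simp only [mem_iUnion, Finset.mem_range]
      refine ⟨i, hib, ?_⟩
      rw [abs_le, not_and_or, not_le, not_le] at hg
      rcases hg with hg | hg
      · left
        exact mem_ann hm hz0 hi1 (by linarith)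
      · right
        exact mem_ann hm hz0 (by linarith) hi2
  · left
    right
    have : (b : ℝ) ≤ i := by exact_mod_cast not_lt.1 hib
    exact mem_ann hm hz0 (by linarith) hxb

end Pool.Agent.Helper265.Osg
end

section

open Complex Set Filter Metric Topology MeasureTheory

namespace Pool.Agent.Helper265.Osg

theorem good_meas (η : ℝ) (b : ℕ) : MeasurableSet (good η b) := by
  have h1 : good η b = {v : ℂ | v ≠ 0} ∩ ⋃ i : ℕ, {v : ℂ | i < b ∧
      |Real.log ‖v‖ + ((i : ℝ) + 1 / 2)| ≤ 1 / 2 - η ∧ -Real.cos (2 * η) * ‖v‖ ≤ v.re} := by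
    ext v
    simp only [good, mem_setOf_eq, mem_inter_iff, mem_iUnion]
  rw [h1]
  refine MeasurableSet.inter (measurableSet_singleton (0 : ℂ)).compl
    (MeasurableSet.iUnion fun i => ?_)
  by_cases hi : i < b
  · have h2 : {v : ℂ | i < b ∧ |Real.log ‖v‖ + ((i : ℝ) + 1 / 2)| ≤ 1 / 2 - η ∧
        -Real.cos (2 * η) * ‖v‖ ≤ v.re} =
        {v : ℂ | |Real.log ‖v‖ + ((i : ℝ) + 1 / 2)| ≤ 1 / 2 - η} ∩
        {v : ℂ | -Real.cos (2 * η) * ‖v‖ ≤ v.re} := by
      ext v; simp [hi]
    rw [h2]
    refine MeasurableSet.inter (measurableSet_le ?_ measurable_const) (measurableSet_le ?_ ?_)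
    · have : Measurable fun v : ℂ => Real.log ‖v‖ + ((i : ℝ) + 1 / 2) :=
        (Real.measurable_log.comp measurable_norm).add_const _
      exact this.abs
    · exact measurable_norm.const_mul _
    · exact Complex.measurable_re
  · have h2 : {v : ℂ | i < b ∧ |Real.log ‖v‖ + ((i : ℝ) + 1 / 2)| ≤ 1 / 2 - η ∧
        -Real.cos (2 * η) * ‖v‖ ≤ v.re} = ∅ := by
      ext v; simp [hi]
    rw [h2]
    exact MeasurableSet.empty

/-- the joint bad set -/
def EE (η : ℝ) (b m : ℕ) : Set (ℝ × ℂ) :=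
  {p | p.2 ∈ badset η b m (Complex.exp (-(p.1 * I)))}

theorem EE_meas (η : ℝ) (b m : ℕ) : MeasurableSet (EE η b m) := by
  have h1 : EE η b m = {p : ℝ × ℂ | ‖p.2‖ < 1} ∩ ({p : ℝ × ℂ | Real.exp (-(b : ℝ)) / 2 ≤ ‖p.2‖ ^ m} ∩
      (fun p : ℝ × ℂ => Complex.exp (-(p.1 * I)) * p.2 ^ m) ⁻¹' (good η b)ᶜ) := by
    ext p
    rfl
  rw [h1]
  refine MeasurableSet.inter ?_ (MeasurableSet.inter ?_ ?_)
  · exact measurableSet_lt measurable_snd.norm measurable_const
  · exact measurableSet_le measurable_const (measurable_snd.norm.pow_const m)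
  · have : Continuous fun p : ℝ × ℂ => Complex.exp (-(p.1 * I)) * p.2 ^ m := by fun_prop
    exact this.measurable (good_meas η b).compl

theorem exists_rotation {η : ℝ} (h0 : 0 < η) (h1 : η ≤ 1 / 8) {a : ℕ → ℂ} (ha : Nice a) {b m : ℕ}
    (hb : 1 ≤ b) (hm : 1 ≤ m) : ∃ u : ℂ, ‖u‖ = 1 ∧
      volume (ev a '' badset η b m u) ≤
        ENNReal.ofReal (Real.pi * (6 * η * SS a + 4 / m * ∑' n : ℕ, (n : ℝ) ^ 2 * ‖a n‖ ^ 2)) := by
  have hπ := Real.pi_pos
  have hRC := nice_rc ha
  have hm0 : (0 : ℝ) < m := by exact_mod_cast hm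
  have hs1 := nice_sq1 ha
  have hs2 := nice_sq ha
  set D : ℝ := ∑' n : ℕ, (n : ℝ) ^ 2 * ‖a n‖ ^ 2 with hD
  have hD0 : 0 ≤ D := tsum_nonneg fun n => by positivity
  have hSS0 : 0 ≤ SS a := tsum_nonneg fun n => by positivity
  set w : ℂ → ENNReal := fun z => ENNReal.ofReal (‖deriv (ev a) z‖ ^ 2) with hw
  have hwm : Measurable w := ((measurable_deriv (ev a)).norm.pow_const 2).ennreal_ofReal
  set μ : Measure ℂ := volume.withDensity w with hμ
  set ν : Measure ℂ := μ.restrict (ball 0 1) with hν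
  set g : ℕ → ℝ := fun n => Real.pi * (n * ‖a n‖ ^ 2) with hg
  have hg0 : ∀ n, 0 ≤ g n := fun n => by simp only [hg]; positivity
  have hgs : Summable g := hs1.mul_left _
  set MM : ℝ → ℝ := fun x => ∑' n, g n * Real.exp (-((2 * n / m) * x)) with hMM
  have hexp1 : ∀ (n : ℕ) (x : ℝ), 0 ≤ x → Real.exp (-((2 * n / m) * x)) ≤ 1 := by
    intro n x hx
    rw [Real.exp_le_one_iff]
    have : 0 ≤ (2 * n / m) * x := by positivity
    linarith
  have hsum : ∀ x, 0 ≤ x → Summable fun n : ℕ => g n * Real.exp (-((2 * n / m) * x)) := by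
    intro x hx
    refine Summable.of_nonneg_of_le (fun n => mul_nonneg (hg0 n) (Real.exp_pos _).le) (fun n => ?_) hgs
    exact mul_le_of_le_one_right (hg0 n) (hexp1 n x hx)
  have hball : ∀ x, 0 ≤ x → μ (ball 0 (Real.exp (-(x / m)))) = ENNReal.ofReal (MM x) := by
    intro x hx
    have hρ1 : Real.exp (-(x / m)) ≤ 1 := by
      rw [Real.exp_le_one_iff]
      have : 0 ≤ x / m := by positivity
      linarith
    rw [hμ, withDensity_apply _ measurableSet_ball]
    rw [area_int hRC (Real.exp_pos _).le hρ1, hMM,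
      ENNReal.ofReal_tsum_of_nonneg (fun n => mul_nonneg (hg0 n) (Real.exp_pos _).le) (hsum x hx)]
    refine tsum_congr fun n => ?_
    congr 1
    rw [← Real.exp_nat_mul, hg]
    have : ((2 * n : ℕ) : ℝ) * -(x / m) = -((2 * n / m) * x) := by push_cast; ring
    rw [this]
    ring
  have hMMdiff : ∀ x₁ x₂, 0 ≤ x₁ → x₁ ≤ x₂ → MM x₁ - MM x₂ =
      ∑' n, g n * (Real.exp (-((2 * n / m) * x₁)) - Real.exp (-((2 * n / m) * x₂))) := by
    intro x₁ x₂ hx1 hx2
    rw [hMM]
    rw [← (hsum x₁ hx1).tsum_sub (hsum x₂ (hx1.trans hx2))]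
    exact tsum_congr fun n => by ring
  have hMMmono : ∀ x₁ x₂, 0 ≤ x₁ → x₁ ≤ x₂ → 0 ≤ MM x₁ - MM x₂ := by
    intro x₁ x₂ hx1 hx2
    rw [hMMdiff x₁ x₂ hx1 hx2]
    refine tsum_nonneg fun n => mul_nonneg (hg0 n) ?_
    rw [sub_nonneg, Real.exp_le_exp, neg_le_neg_iff]
    gcongr
  have hann : ∀ x₁ x₂, 0 ≤ x₁ → x₁ ≤ x₂ → ν (ann m x₁ x₂) ≤ ENNReal.ofReal (MM x₁ - MM x₂) := by
    intro x₁ x₂ hx1 hx2
    refine (Measure.restrict_apply_le _ _).trans ?_
    unfold ann
    rw [measure_diff (ball_subset_ball (by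
      rw [Real.exp_le_exp, neg_le_neg_iff]; gcongr)) measurableSet_ball.nullMeasurableSet (by
      rw [hball x₂ (hx1.trans hx2)]; exact ENNReal.ofReal_ne_top), hball x₁ hx1,
      hball x₂ (hx1.trans hx2), ENNReal.ofReal_sub _ (by
        rw [hMM]
        exact tsum_nonneg fun n => mul_nonneg (hg0 n) (Real.exp_pos _).le)]
  have hunivν : ν univ = ENNReal.ofReal (Real.pi * SS a) := by
    rw [hν, Measure.restrict_apply_univ]
    have := hball 0 le_rfl
    simp only [zero_div, neg_zero, Real.exp_zero] at this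
    rw [this]
    congr 1
    rw [hMM, SS, ← tsum_mul_left]
    refine tsum_congr fun n => ?_
    simp [hg]
  -- the bad annuli
  have hbadR : ν (badR η b m) ≤ ENNReal.ofReal (Real.pi * (2 * η * SS a + 4 / m * D)) := by
    have hη1 : η ≤ 1 := by linarith
    have e1 : ν (badR η b m) ≤ (∑ i ∈ Finset.range b,
        (ENNReal.ofReal (MM i - MM (i + η)) + ENNReal.ofReal (MM (i + 1 - η) - MM (i + 1)))) +
        ENNReal.ofReal (MM b - MM (b + Real.log 2)) := by
      unfold badR
      refine (measure_union_le _ _).trans (add_le_add ?_ ?_)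
      · refine (measure_biUnion_finset_le _ _).trans (Finset.sum_le_sum fun i _ => ?_)
        refine (measure_union_le _ _).trans (add_le_add ?_ ?_)
        · exact hann _ _ (by positivity) (by linarith)
        · refine hann _ _ ?_ (by linarith)
          have : (0 : ℝ) ≤ i := by positivity
          linarith
      · exact hann _ _ (by positivity) (by
          have := Real.log_nonneg (by norm_num : (1 : ℝ) ≤ 2)
          linarith)
    refine e1.trans ?_
    have hp1 : ∀ i : ℕ, 0 ≤ MM i - MM (i + η) := fun i => hMMmono _ _ (by positivity) (by linarith)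
    have hp2 : ∀ i : ℕ, 0 ≤ MM (i + 1 - η) - MM (i + 1) := fun i => hMMmono _ _ (by
      have : (0 : ℝ) ≤ i := by positivity
      linarith) (by linarith)
    have hl2 : 0 ≤ Real.log 2 := Real.log_nonneg (by norm_num)
    have hp3 : 0 ≤ MM b - MM (b + Real.log 2) := hMMmono _ _ (by positivity) (by linarith)
    have e2 : (∑ i ∈ Finset.range b,
        (ENNReal.ofReal (MM i - MM (i + η)) + ENNReal.ofReal (MM (i + 1 - η) - MM (i + 1)))) +
        ENNReal.ofReal (MM b - MM (b + Real.log 2)) =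
        ENNReal.ofReal ((∑ i ∈ Finset.range b, ((MM i - MM (i + η)) + (MM (i + 1 - η) - MM (i + 1)))) +
          (MM b - MM (b + Real.log 2))) := by
      rw [ENNReal.ofReal_add (Finset.sum_nonneg fun i _ => add_nonneg (hp1 i) (hp2 i)) hp3,
        ENNReal.ofReal_sum_of_nonneg (fun i _ => add_nonneg (hp1 i) (hp2 i))]
      congr 1
      refine Finset.sum_congr rfl fun i _ => ?_
      rw [ENNReal.ofReal_add (hp1 i) (hp2 i)]
    rw [e2]
    apply ENNReal.ofReal_le_ofReal
    -- real computation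
    have sdiff : ∀ x₁ x₂, 0 ≤ x₁ → 0 ≤ x₂ → Summable fun n : ℕ =>
        g n * (Real.exp (-((2 * n / m) * x₁)) - Real.exp (-((2 * n / m) * x₂))) := by
      intro x₁ x₂ hx1 hx2
      refine ((hsum x₁ hx1).sub (hsum x₂ hx2)).congr fun n => by ring
    have hi0 : ∀ i : ℕ, (0 : ℝ) ≤ i + 1 - η := fun i => by
      have : (0 : ℝ) ≤ i := by positivity
      linarith
    have s1 : ∀ i : ℕ, Summable fun n : ℕ =>
        g n * (Real.exp (-((2 * n / m) * i)) - Real.exp (-((2 * n / m) * (i + η)))) :=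
      fun i => sdiff _ _ (by positivity) (by positivity)
    have s2 : ∀ i : ℕ, Summable fun n : ℕ =>
        g n * (Real.exp (-((2 * n / m) * (i + 1 - η))) - Real.exp (-((2 * n / m) * (i + 1)))) :=
      fun i => sdiff _ _ (hi0 i) (by positivity)
    have s3 : Summable fun n : ℕ =>
        g n * (Real.exp (-((2 * n / m) * b)) - Real.exp (-((2 * n / m) * (b + Real.log 2)))) :=
      sdiff _ _ (by positivity) (by positivity)
    have e3 : (∑ i ∈ Finset.range b, ((MM i - MM (i + η)) + (MM (i + 1 - η) - MM (i + 1)))) +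
          (MM b - MM (b + Real.log 2)) =
        ∑' n : ℕ, ((∑ i ∈ Finset.range b,
          (g n * (Real.exp (-((2 * n / m) * i)) - Real.exp (-((2 * n / m) * (i + η)))) +
          g n * (Real.exp (-((2 * n / m) * (i + 1 - η))) - Real.exp (-((2 * n / m) * (i + 1)))))) +
          g n * (Real.exp (-((2 * n / m) * b)) - Real.exp (-((2 * n / m) * (b + Real.log 2))))) := by
      rw [Summable.tsum_add (summable_sum fun i _ => (s1 i).add (s2 i)) s3,
        Summable.tsum_finsetSum (fun i _ => (s1 i).add (s2 i))]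
      congr 1
      · refine Finset.sum_congr rfl fun i _ => ?_
        rw [(s1 i).tsum_add (s2 i), hMMdiff _ _ (by positivity) (by linarith),
          hMMdiff _ _ (hi0 i) (by linarith)]
      · rw [hMMdiff _ _ (by positivity) (by linarith)]
    rw [e3]
    have e4 : Real.pi * (2 * η * SS a + 4 / m * D) =
        ∑' n : ℕ, g n * (2 * η + 2 * (2 * n / m)) := by
      rw [SS, hD, mul_add]
      have t1 : Summable fun n : ℕ => Real.pi * (2 * η * ((n : ℝ) * ‖a n‖ ^ 2)) :=
        (hs1.mul_left _).mul_left _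
      have t2 : Summable fun n : ℕ => Real.pi * (4 / m * ((n : ℝ) ^ 2 * ‖a n‖ ^ 2)) :=
        (hs2.mul_left _).mul_left _
      rw [← tsum_mul_left, ← tsum_mul_left, ← tsum_mul_left, ← tsum_mul_left, ← t1.tsum_add t2]
      refine tsum_congr fun n => ?_
      simp only [hg]
      ring
    rw [e4]
    have t3 : Summable fun n : ℕ => g n * (2 * η + 2 * (2 * n / m)) := by
      have t1 : Summable fun n : ℕ => Real.pi * (2 * η * ((n : ℝ) * ‖a n‖ ^ 2)) :=
        (hs1.mul_left _).mul_left _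
      have t2 : Summable fun n : ℕ => Real.pi * (4 / m * ((n : ℝ) ^ 2 * ‖a n‖ ^ 2)) :=
        (hs2.mul_left _).mul_left _
      refine (t1.add t2).congr fun n => ?_
      simp only [hg]
      ring
    refine Summable.tsum_le_tsum (fun n => ?_) ((summable_sum fun i _ => (s1 i).add (s2 i)).add s3) t3
    have hT := T_bound (c := 2 * n / m) (by positivity) h0 hη1 b
    have := mul_le_mul_of_nonneg_left hT (hg0 n)
    refine le_trans (le_of_eq ?_) this
    rw [mul_add (g n) (∑ i ∈ Finset.range b, _), Finset.mul_sum]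
    congr 1
    refine Finset.sum_congr rfl fun i _ => ?_
    ring
  -- Tonelli
  have hE := EE_meas η b m
  have hsec : ∀ θ : ℝ, (Prod.mk θ ⁻¹' (EE η b m)) = badset η b m (Complex.exp (-(θ * I))) := by
    intro θ; rfl
  have hTon : ∫⁻ θ in Ioc 0 (2 * Real.pi), ν (badset η b m (Complex.exp (-(θ * I)))) ≤
      ENNReal.ofReal (12 * η) * ENNReal.ofReal (Real.pi * SS a) +
      ENNReal.ofReal (2 * Real.pi) * ENNReal.ofReal (Real.pi * (2 * η * SS a + 4 / m * D)) := by
    have e1 : ∫⁻ θ in Ioc 0 (2 * Real.pi), ν (badset η b m (Complex.exp (-(θ * I)))) =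
        ((volume.restrict (Ioc 0 (2 * Real.pi))).prod ν) (EE η b m) := by
      rw [Measure.prod_apply hE]
      rfl
    rw [e1, Measure.prod_apply_symm hE]
    have e2 : ∀ z : ℂ, (volume.restrict (Ioc 0 (2 * Real.pi))) ((fun θ : ℝ => (θ, z)) ⁻¹' (EE η b m)) ≤
        ENNReal.ofReal (12 * η) + (badR η b m).indicator (fun _ => ENNReal.ofReal (2 * Real.pi)) z := by
      intro z
      by_cases hz : z ∈ badR η b m
      · rw [indicator_of_mem hz]
        refine le_trans (measure_mono (subset_univ _)) ?_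
        rw [Measure.restrict_apply_univ, Real.volume_Ioc, sub_zero]
        exact le_add_self
      · rw [indicator_of_notMem hz, add_zero]
        rw [Measure.restrict_apply (measurable_prodMk_right hE)]
        refine le_trans (measure_mono ?_) (angle_bound h0 (z ^ m))
        rintro θ ⟨hθ1, hθ2⟩
        refine ⟨hθ2, ?_⟩
        have hu : ‖Complex.exp (-(θ * I))‖ = 1 := by
          have : -((θ : ℂ) * I) = ((-θ : ℝ) : ℂ) * I := by push_cast; ring
          rw [this, Complex.norm_exp_ofReal_mul_I]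
        rcases bad_cases hm hu hθ1 with h | h
        · exact absurd h hz
        · exact h
    have hbadm : MeasurableSet (badR η b m) := by
      unfold badR ann
      refine MeasurableSet.union (Finset.measurableSet_biUnion _ fun i _ => ?_) ?_
      · exact (measurableSet_ball.diff measurableSet_ball).union
          (measurableSet_ball.diff measurableSet_ball)
      · exact measurableSet_ball.diff measurableSet_ball
    refine (lintegral_mono e2).trans ?_
    rw [lintegral_add_left measurable_const, lintegral_const, lintegral_indicator_const hbadm, hunivν]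
    gcongr
  -- choose the angle
  have hIoc0 : (volume : Measure ℝ) (Ioc 0 (2 * Real.pi)) ≠ 0 := by
    rw [Real.volume_Ioc, sub_zero]
    simp [hπ]
  have hIoc1 : (volume : Measure ℝ) (Ioc 0 (2 * Real.pi)) ≠ ⊤ := by
    rw [Real.volume_Ioc, sub_zero]
    exact ENNReal.ofReal_ne_top
  have hmeasν : Measurable fun θ : ℝ => ν (badset η b m (Complex.exp (-(θ * I)))) :=
    measurable_measure_prodMk_left hE
  obtain ⟨θ, -, hθ⟩ := exists_le_setLAverage hIoc0 hIoc1 hmeasν.aemeasurable
  refine ⟨Complex.exp (-(θ * I)), ?_, ?_⟩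
  · have : -((θ : ℂ) * I) = ((-θ : ℝ) : ℂ) * I := by push_cast; ring
    rw [this, Complex.norm_exp_ofReal_mul_I]
  · have hBm : MeasurableSet (badset η b m (Complex.exp (-(θ * I)))) := by
      rw [← hsec]
      exact measurable_prodMk_left hE
    have hBsub : badset η b m (Complex.exp (-(θ * I))) ⊆ ball 0 1 := by
      intro z hz
      rw [mem_ball_zero_iff]
      exact hz.1
    rw [vol_image_eq isOpen_ball (ev_diff hRC) hBm hBsub (ha.inj.mono hBsub)]
    have e1 : ∫⁻ z in badset η b m (Complex.exp (-(θ * I))), ENNReal.ofReal (‖deriv (ev a) z‖ ^ 2) =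
        ν (badset η b m (Complex.exp (-(θ * I)))) := by
      rw [hν, Measure.restrict_apply hBm, inter_eq_left.2 hBsub, hμ, withDensity_apply _ hBm]
    rw [e1]
    refine hθ.trans ?_
    rw [setLAverage_eq, Real.volume_Ioc, sub_zero]
    refine ENNReal.div_le_of_le_mul (hTon.trans ?_)
    rw [← ENNReal.ofReal_mul (by positivity), ← ENNReal.ofReal_mul (by positivity),
      ← ENNReal.ofReal_add (by positivity) (by positivity), ← ENNReal.ofReal_mul (by positivity)]
    apply ENNReal.ofReal_le_ofReal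
    have hπ3 := Real.pi_gt_three
    have hp : 0 ≤ Real.pi * (η * SS a) := by positivity
    nlinarith [mul_nonneg hp (by linarith : 0 ≤ Real.pi - 3)]

end Pool.Agent.Helper265.Osg
end
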