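import Mathlib
import Pool.Agent.Helper265.OsgLevel
import Pool.Agent.Helper265.OsgRot
import Pool.Agent.Helper265.OsgComp3
import Pool.Agent.Helper265.OsgEnergy

set_option autoImplicit false
open Complex Set Filter Metric Topology MeasureTheory

namespace Pool.Agent.Helper265.Osg

section geo
variable {η C L : ℝ} {b : ℕ} {Φ P : ℂ → ℂ} {t : ℝ} {m : ℕ} {u : ℂ} {r : ℝ}

theorem arg_mem (hr0 : 0 < r) (hr1 : r < 1) (hu : ‖u‖ = 1) {z : ℂ} (hz : z ∈ ball (0 : ℂ) 1) :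
    (r : ℂ) * (u * z ^ m) ∈ ball (0 : ℂ) 1 := by
  rw [mem_ball_zero_iff] at hz ⊢
  rw [norm_mul, norm_mul, norm_pow, hu, one_mul, Complex.norm_real, Real.norm_of_nonneg hr0.le]
  have : ‖z‖ ^ m ≤ 1 := pow_le_one₀ (norm_nonneg _) hz.le
  nlinarith [norm_nonneg z]

theorem phi_key (hP : ∀ w ∈ ball (0 : ℂ) 1, Φ w = w * exp (P w)) (hr0 : 0 < r) (hr1 : r < 1) (hm : 1 ≤ m)
    (hu : ‖u‖ = 1) {z : ℂ} (hz : z ∈ ball (0 : ℂ) 1) :
    u * phi P r m u z ^ m = Φ (r * (u * z ^ m)) := by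
  rw [phi_pow hm, hP _ (arg_mem hr0 hr1 hu hz), exp_add]
  have : exp ((Real.log r : ℝ) : ℂ) = r := by
    rw [← Complex.ofReal_exp, Real.exp_log hr0]
  rw [this]
  ring

theorem phi_maps (hL : Level η C L b Φ t) (hP : ∀ w ∈ ball (0 : ℂ) 1, Φ w = w * exp (P w))
    (hr0 : 0 < r) (hr1 : r < 1) (hm : 1 ≤ m) (hu : ‖u‖ = 1) {z : ℂ} (hz : z ∈ ball (0 : ℂ) 1) :
    phi P r m u z ∈ ball (0 : ℂ) 1 := by
  have h1 := phi_key hP hr0 hr1 hm hu hz
  have h2 := arg_mem (m := m) hr0 hr1 hu hz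
  have h3 := hL.upper _ h2
  rw [← h1, norm_mul, norm_pow, hu, one_mul] at h3
  rw [mem_ball_zero_iff] at h2 ⊢
  by_contra hcon
  push Not at hcon
  have : 1 ≤ ‖phi P r m u z‖ ^ m := one_le_pow₀ hcon
  linarith

theorem phi_inj (hL : Level η C L b Φ t) (hP : ∀ w ∈ ball (0 : ℂ) 1, Φ w = w * exp (P w))
    (hr0 : 0 < r) (hr1 : r < 1) (hm : 1 ≤ m) (hu : ‖u‖ = 1) : InjOn (phi P r m u) (ball 0 1) := by
  intro z hz w hw hzw
  have h1 := phi_key hP hr0 hr1 hm hu hz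
  have h2 := phi_key hP hr0 hr1 hm hu hw
  rw [hzw, h2] at h1
  have h3 := hL.inj (arg_mem hr0 hr1 hu hw) (arg_mem hr0 hr1 hu hz) h1
  have hu0 : u ≠ 0 := by rw [← norm_ne_zero_iff, hu]; exact one_ne_zero
  have hr0' : (r : ℂ) ≠ 0 := by exact_mod_cast hr0.ne'
  have h4 := mul_left_cancel₀ hu0 (mul_left_cancel₀ hr0' h3)
  unfold phi at hzw
  rw [← h4] at hzw
  exact mul_right_cancel₀ (exp_ne_zero _) hzw

theorem phi_zero (hm : 1 ≤ m) : phi P r m u 0 = 0 := by simp [phi]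

theorem phi_cover (hL : Level η C L b Φ t) (hC : 1 ≤ C) (hP : ∀ w ∈ ball (0 : ℂ) 1, Φ w = w * exp (P w))
    (hr : r = 1 - t / (2 * C)) (hm : 1 ≤ m) (hu : ‖u‖ = 1) :
    ball (0 : ℂ) 1 ⊆ phi P r m u '' ball 0 1 ∪ badset η b m u := by
  have ht := hL.tpos
  have htup := hL.tup
  have hC0 : 0 < C := by linarith
  have ht1 : t / (2 * C) ≤ 1 / 8 := by
    rw [div_le_iff₀ (by positivity)]; nlinarith
  have ht2 : 0 < t / (2 * C) := by positivity
  have hr0 : 0 < r := by rw [hr]; linarith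
  have hr1 : r < 1 := by rw [hr]; linarith
  have hu0 : u ≠ 0 := by rw [← norm_ne_zero_iff, hu]; exact one_ne_zero
  have hr0' : (r : ℂ) ≠ 0 := by exact_mod_cast hr0.ne'
  intro z hz
  by_cases hbad : z ∈ badset η b m u
  · exact Or.inr hbad
  left
  rcases eq_or_ne z 0 with hz0 | hz0
  · exact ⟨0, by simp, by rw [hz0, phi_zero hm]⟩
  have hz1 : ‖z‖ < 1 := by simpa using hz
  have hn : ‖u * z ^ m‖ = ‖z‖ ^ m := by rw [norm_mul, norm_pow, hu, one_mul]
  -- find w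
  obtain ⟨w, hw, hΦw, hwr⟩ : ∃ w ∈ ball (0 : ℂ) 1, Φ w = u * z ^ m ∧ ‖w‖ < r := by
    have hb' : ¬ (‖z‖ < 1 ∧ Real.exp (-(b : ℝ)) / 2 ≤ ‖z‖ ^ m ∧ u * z ^ m ∉ good η b) := hbad
    by_cases h1 : Real.exp (-(b : ℝ)) / 2 ≤ ‖z‖ ^ m
    · have h2 : u * z ^ m ∈ good η b := by
        by_contra hcon
        exact hb' ⟨hz1, h1, hcon⟩
      obtain ⟨w, hw, hw1, hw2, hw3⟩ := hL.good_mem _ h2
      refine ⟨w, hw, hw1, ?_⟩
      have : t / (2 * C) = t / C / 2 := by field_simp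
      have h3 : 0 < t / C := by positivity
      rw [hr, this]
      linarith
    · push Not at h1
      have hexp := Real.exp_pos (-(b : ℝ))
      obtain ⟨w, hw, hw1⟩ := hL.surj (u * z ^ m) (by rw [hn]; linarith)
      refine ⟨w, hw, hw1, ?_⟩
      have h2 := hL.lower w hw
      rw [hw1, hn] at h2
      have h3 : ‖w‖ < 1 / 2 := by
        by_contra hcon
        push Not at hcon
        nlinarith
      rw [hr]; linarith
  obtain ⟨ζ, hζ⟩ := IsAlgClosed.exists_pow_nat_eq (w / (r * u)) (n := m) (by omega)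
  have hζ1 : ‖ζ‖ < 1 := by
    have h1 : ‖ζ‖ ^ m < 1 := by
      rw [← norm_pow, hζ, norm_div, norm_mul, hu, mul_one, Complex.norm_real, Real.norm_of_nonneg hr0.le,
        div_lt_one hr0]
      exact hwr
    by_contra hcon
    push Not at hcon
    have := one_le_pow₀ hcon (n := m)
    linarith
  have hζb : ζ ∈ ball (0 : ℂ) 1 := by simpa using hζ1
  have h1 := phi_key hP hr0 hr1 hm hu hζb
  have h2 : (r : ℂ) * (u * ζ ^ m) = w := by
    rw [hζ]; field_simp
  rw [h2, hΦw] at h1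
  have h3 : phi P r m u ζ ^ m = z ^ m := mul_left_cancel₀ hu0 h1
  -- root of unity
  set ω : ℂ := phi P r m u ζ / z with hω
  have hωm : ω ^ m = 1 := by
    rw [hω, div_pow, h3, div_self (pow_ne_zero _ hz0)]
  have hω0 : ω ≠ 0 := by
    intro hcon
    rw [hcon, zero_pow (by omega)] at hωm
    exact zero_ne_one hωm
  have hωn : ‖ω‖ = 1 := by
    have := congrArg norm hωm
    rw [norm_pow, norm_one] at this
    exact (pow_eq_one_iff_of_nonneg (norm_nonneg _) (by omega)).1 this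
  refine ⟨ζ / ω, ?_, ?_⟩
  · rw [mem_ball_zero_iff, norm_div, hωn, div_one]; exact hζ1
  · have e1 : phi P r m u (ζ / ω) = phi P r m u ζ / ω := by
      unfold phi
      rw [div_pow, hωm, div_one]
      ring
    rw [e1, hω]
    have h4 : phi P r m u ζ ≠ 0 := by
      intro hcon
      rw [hcon, zero_pow (by omega)] at h3
      exact pow_ne_zero _ hz0 h3.symm
    field_simp

theorem phi_inner (hL : Level η C L b Φ t) (hC : 1 ≤ C) (hP : ∀ w ∈ ball (0 : ℂ) 1, Φ w = w * exp (P w))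
    (hr0 : 0 < r) (hr1 : r < 1) (hm : 1 ≤ m) (hu : ‖u‖ = 1) {δ δ' : ℝ} (hδ' : 0 < δ')
    (hδ'e : r * Real.exp (-δ') ^ m ≤ 1 - 2 * C * t) (hδb : δ * m ≤ b) :
    phi P r m u '' ball 0 (Real.exp (-δ')) ⊆ ball (0 : ℂ) (Real.exp (-δ)) ∪ badset η b m u := by
  have ht := hL.tpos
  have hC0 : 0 < C := by linarith
  rintro _ ⟨ζ, hζ, rfl⟩
  have hζ1 : ‖ζ‖ < Real.exp (-δ') := by simpa using hζ
  have hζb : ζ ∈ ball (0 : ℂ) 1 := by
    rw [mem_ball_zero_iff]
    refine lt_trans hζ1 ?_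
    rw [Real.exp_lt_one_iff]; linarith
  have hφb := phi_maps hL hP hr0 hr1 hm hu hζb
  by_cases h1 : ‖phi P r m u ζ‖ < Real.exp (-δ)
  · left; simpa using h1
  right
  push Not at h1
  refine ⟨by simpa using hφb, ?_, ?_⟩
  · have h2 : Real.exp (-δ) ^ m ≤ ‖phi P r m u ζ‖ ^ m := by gcongr
    have h3 : Real.exp (-(b : ℝ)) ≤ Real.exp (-δ) ^ m := by
      rw [← Real.exp_nat_mul]
      apply Real.exp_le_exp.2
      linarith
    have := Real.exp_pos (-(b : ℝ))
    linarith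
  · intro hgood
    obtain ⟨w, hw, hw1, hw2, hw3⟩ := hL.good_mem _ hgood
    rw [phi_key hP hr0 hr1 hm hu hζb] at hw1
    have h2 := hL.inj hw (arg_mem hr0 hr1 hu hζb) hw1
    have h3 : ‖w‖ ≤ r * Real.exp (-δ') ^ m := by
      rw [h2, norm_mul, norm_mul, norm_pow, hu, one_mul, Complex.norm_real, Real.norm_of_nonneg hr0.le]
      gcongr
    have : 0 < C * t := by positivity
    linarith

end geo

section areas
variable {a : ℕ → ℂ}

theorem nice_vol (ha : Nice a) : volume (ev a '' ball (0 : ℂ) 1) = ENNReal.ofReal (Real.pi * SS a) := by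
  have h1 := area_formula (nice_rc ha) ha.inj zero_le_one le_rfl
  rw [h1, SS, ← tsum_mul_left, ENNReal.ofReal_tsum_of_nonneg]
  · simp
  · intro n; have := Real.pi_pos; positivity
  · exact (nice_sq1 ha).mul_left _

theorem low_summable (ha : Nice a) {δ : ℝ} (hδ : 0 < δ) :
    Summable (fun n : ℕ => (n : ℝ) * ‖a n‖ ^ 2 * Real.exp (-(2 * n * δ))) := by
  refine Summable.of_nonneg_of_le (fun n => by positivity) (fun n => ?_) (nice_sq1 ha)
  apply mul_le_of_le_one_right (by positivity)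
  rw [Real.exp_le_one_iff]
  have : 0 ≤ 2 * (n : ℝ) * δ := by positivity
  linarith

theorem nice_vol_low (ha : Nice a) {δ : ℝ} (hδ : 0 < δ) :
    volume (ev a '' ball (0 : ℂ) (Real.exp (-δ))) = ENNReal.ofReal (Real.pi * low a δ) := by
  have h1 := area_formula (nice_rc ha) ha.inj (Real.exp_pos (-δ)).le (Real.exp_le_one_iff.2 (by linarith))
  rw [h1, low, ← tsum_mul_left, ENNReal.ofReal_tsum_of_nonneg]
  · congr 1
    ext n
    congr 3
    rw [← Real.exp_nat_mul]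
    congr 1
    push_cast
    ring
  · intro n; have := Real.pi_pos; positivity
  · exact (low_summable ha hδ).mul_left _

theorem SS_nonneg (a : ℕ → ℂ) : 0 ≤ SS a := tsum_nonneg fun n => by positivity

theorem low_nonneg (a : ℕ → ℂ) (δ : ℝ) : 0 ≤ low a δ := tsum_nonneg fun n => by positivity

theorem ofReal_le_add {x y z : ℝ} (hx : 0 ≤ x) (hy : 0 ≤ y) (hz : 0 ≤ z)
    (h : ENNReal.ofReal (Real.pi * x) ≤ ENNReal.ofReal (Real.pi * y) + ENNReal.ofReal (Real.pi * z)) : x ≤ y + z := by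
  have hpi := Real.pi_pos
  rw [← ENNReal.ofReal_add (by positivity) (by positivity), ← mul_add,
    ENNReal.ofReal_le_ofReal_iff (by positivity)] at h
  exact le_of_mul_le_mul_left h hpi

end areas

end Pool.Agent.Helper265.Osg
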