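import Mathlib
import Pool.Agent.Helper265.OsgGeo

set_option autoImplicit false
open Complex Set Filter Metric Topology MeasureTheory

namespace Pool.Agent.Helper265.Osg

theorem exists_powData {η C L : ℝ} {b : ℕ} {Φ : ℂ → ℂ} {t : ℝ} (hb : 1 ≤ b) (hL : Level η C L b Φ t) :
    ∃ (P : ℂ → ℂ) (p : ℝ) (H : ℝ → ℕ → ℂ), PowData b P p H ∧
      ∀ w ∈ ball (0 : ℂ) 1, Φ w = w * exp (P w) := by
  obtain ⟨P, hPd, hP, ⟨p, hp0, hp1, hp2⟩, hre, hs⟩ :=
    power_bound hb hL.diff hL.inj hL.zero hL.der hL.lower hL.upper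
  have hs' : ∀ s : ℝ, ∃ H : ℕ → ℂ, 0 < s → ((∀ w ∈ ball (0 : ℂ) 1, HasSum (fun j => H j * w ^ j) (exp (s * P w))) ∧
      (∀ j, ‖H j‖ ≤ 1) ∧ Summable (fun j : ℕ => (j : ℝ) * ‖H j‖ ^ 2) ∧
      ∑' j : ℕ, (j : ℝ) * ‖H j‖ ^ 2 ≤ 16 * s ^ 2 * b) := by
    intro s
    by_cases h : 0 < s
    · obtain ⟨H, hH⟩ := hs s h
      exact ⟨H, fun _ => hH⟩
    · exact ⟨fun _ => 0, fun h' => absurd h' h⟩
  choose H hH using hs'
  exact ⟨P, p, H, ⟨hp0, hp1, hp2, fun s h => (hH s h).1, fun s h => (hH s h).2.1, fun s h => (hH s h).2.2.1,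
    fun s h => (hH s h).2.2.2⟩, hP⟩

theorem step {η : ℝ} (h0 : 0 < η) (h1 : η ≤ 1 / 8) : ∃ C : ℝ, 0 ≤ C ∧ StepProp η C := by
  obtain ⟨C, hC, L, hL0, hlev⟩ := exists_level h0 h1
  have hC0 : 0 < C := by linarith
  set Λ : ℝ := L + Real.log (2 * C) with hΛ
  have hlogC : 0 ≤ Real.log (2 * C) := Real.log_nonneg (by linarith)
  have hΛ0 : 0 ≤ Λ := by positivity
  refine ⟨20 + Λ, by positivity, ?_⟩
  intro a ha δ hδ ε hε
  have hD1 : Summable (fun n : ℕ => (n : ℝ) * ‖a n‖) := by simpa using nice_sumk ha 1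
  have hD1n : 0 ≤ D1 a := tsum_nonneg fun n => by positivity
  set D2 : ℝ := ∑' n : ℕ, (n : ℝ) ^ 2 * ‖a n‖ with hD2
  have hD2n : 0 ≤ D2 := tsum_nonneg fun n => by positivity
  set D3 : ℝ := ∑' n : ℕ, (n : ℝ) ^ 2 * ‖a n‖ ^ 2 with hD3
  have hD3n : 0 ≤ D3 := tsum_nonneg fun n => by positivity
  -- choice of m
  obtain ⟨m, hm2, hmδ, hmε, hmD3, hmA⟩ : ∃ m : ℕ, 2 ≤ m ∧ 1 ≤ δ * m ∧ 2 / (m : ℝ) ≤ ε ∧ 4 / (m : ℝ) * D3 ≤ ε ∧
      (D1 a + δ * (16 + Λ) * D2) * (1 / (m : ℝ)) + 72 * C ^ 2 * D1 a * Real.sqrt (2 * δ * (1 / (m : ℝ))) ≤ ε := by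
    have t0 : Tendsto (fun m : ℕ => 1 / (m : ℝ)) atTop (𝓝 0) := tendsto_one_div_atTop_nhds_zero_nat
    have e1 : ∀ᶠ m : ℕ in atTop, 2 ≤ m := eventually_ge_atTop 2
    have e2 : ∀ᶠ m : ℕ in atTop, 1 ≤ δ * m :=
      (tendsto_natCast_atTop_atTop.const_mul_atTop hδ).eventually_ge_atTop 1
    have e3 : ∀ᶠ m : ℕ in atTop, 2 * (1 / (m : ℝ)) < ε := by
      have := t0.const_mul 2
      rw [mul_zero] at this
      exact this.eventually (gt_mem_nhds hε)
    have e4 : ∀ᶠ m : ℕ in atTop, (4 * D3) * (1 / (m : ℝ)) < ε := by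
      have := t0.const_mul (4 * D3)
      rw [mul_zero] at this
      exact this.eventually (gt_mem_nhds hε)
    have e5 : ∀ᶠ m : ℕ in atTop, (D1 a + δ * (16 + Λ) * D2) * (1 / (m : ℝ)) +
        72 * C ^ 2 * D1 a * Real.sqrt (2 * δ * (1 / (m : ℝ))) < ε := by
      have k1 := t0.const_mul (D1 a + δ * (16 + Λ) * D2)
      have k2 : Tendsto (fun m : ℕ => Real.sqrt (2 * δ * (1 / (m : ℝ)))) atTop (𝓝 (Real.sqrt (2 * δ * 0))) :=
        (Real.continuous_sqrt.tendsto _).comp (t0.const_mul (2 * δ))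
      have k3 := k1.add (k2.const_mul (72 * C ^ 2 * D1 a))
      simp only [mul_zero, Real.sqrt_zero, add_zero] at k3
      exact k3.eventually (gt_mem_nhds hε)
    obtain ⟨m, ⟨⟨⟨⟨a1, a2⟩, a3⟩, a4⟩, a5⟩⟩ := ((((e1.and e2).and e3).and e4).and e5).exists
    refine ⟨m, a1, a2, ?_, ?_, a5.le⟩
    · have : 2 / (m : ℝ) = 2 * (1 / (m : ℝ)) := by ring
      rw [this]; exact a3.le
    · have : 4 / (m : ℝ) * D3 = (4 * D3) * (1 / (m : ℝ)) := by ring
      rw [this]; exact a4.le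
  have hm1 : 1 ≤ m := by omega
  have hm0 : (0 : ℝ) < m := by exact_mod_cast hm1
  set b : ℕ := ⌈δ * m⌉₊ with hbdef
  have hb1 : δ * m ≤ b := Nat.le_ceil _
  have hb2 : (b : ℝ) < δ * m + 1 := Nat.ceil_lt_add_one (by positivity)
  have hb : 1 ≤ b := by
    have : (1 : ℝ) ≤ b := by linarith
    exact_mod_cast this
  have hbr : (1 : ℝ) ≤ b := by linarith
  have hb3 : (b : ℝ) ≤ 2 * δ * m := by linarith
  obtain ⟨Φ, t, hL⟩ := hlev b hb
  obtain ⟨P, p, H, hpow, hP⟩ := exists_powData hb hL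
  have ht := hL.tpos
  have htup := hL.tup
  set r : ℝ := 1 - t / (2 * C) with hr
  have ht1 : t / (2 * C) ≤ 1 / 8 := by
    rw [div_le_iff₀ (by positivity)]; nlinarith
  have ht2 : 0 < t / (2 * C) := by positivity
  have hr0 : 0 < r := by rw [hr]; linarith
  have hr1 : r < 1 := by rw [hr]; linarith
  have hr12 : 1 / 2 ≤ r := by rw [hr]; linarith
  have h1r : 1 - r = t / (2 * C) := by rw [hr]; ring
  have hlogr : -1 ≤ Real.log r := by
    have := Real.one_sub_inv_le_log_of_pos hr0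
    have h2 : r⁻¹ ≤ 2 := by
      rw [inv_le_comm₀ hr0 (by norm_num)]; linarith
    linarith
  have hlogr0 : Real.log r ≤ 0 := Real.log_nonpos hr0.le hr1.le
  have hΛb : -Real.log (1 - r) ≤ Λ * b := by
    rw [h1r, Real.log_div ht.ne' (by positivity)]
    have h2 : -(L * b) ≤ Real.log t := by
      rw [← Real.log_exp (-(L * b))]
      exact Real.log_le_log (Real.exp_pos _) hL.tlow
    have h3 : Real.log (2 * C) ≤ Real.log (2 * C) * b := by nlinarith
    rw [hΛ]; linarith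
  -- rotation
  obtain ⟨u, hu, hubad⟩ := exists_rotation h0 h1 ha (b := b) (m := m) hb hm1
  have hSS := SS_nonneg a
  have hubad' : volume (ev a '' badset η b m u) ≤ ENNReal.ofReal (Real.pi * (6 * η * SS a + ε)) := by
    refine hubad.trans (ENNReal.ofReal_le_ofReal ?_)
    have := Real.pi_pos
    gcongr
  -- δ'
  have h2Ct : 0 < 2 * C * t := by positivity
  have hq0 : 1 / 2 ≤ 1 - 2 * C * t := by linarith
  have hrq : 1 - 2 * C * t < r := by
    rw [hr]
    have : t / (2 * C) < 2 * C * t := by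
      rw [div_lt_iff₀ (by positivity)]
      nlinarith
    linarith
  set δ' : ℝ := Real.log (r / (1 - 2 * C * t)) / m with hδ'
  have hquot : 1 < r / (1 - 2 * C * t) := by rw [one_lt_div (by linarith)]; exact hrq
  have hδ'0 : 0 < δ' := div_pos (Real.log_pos hquot) hm0
  have hδ'le : δ' ≤ 4 * C * t / m := by
    rw [hδ']
    gcongr
    have k1 := Real.log_le_sub_one_of_pos (show 0 < r / (1 - 2 * C * t) by linarith)
    have k2 : r / (1 - 2 * C * t) - 1 ≤ 4 * C * t := by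
      rw [div_sub_one (by linarith), div_le_iff₀ (by linarith)]
      nlinarith
    linarith
  have hδ'e : r * Real.exp (-δ') ^ m = 1 - 2 * C * t := by
    rw [← Real.exp_nat_mul, hδ']
    have : (m : ℝ) * -(Real.log (r / (1 - 2 * C * t)) / m) = -Real.log (r / (1 - 2 * C * t)) := by
      field_simp
    rw [this, Real.exp_neg, Real.exp_log (by linarith)]
    have : 1 - 2 * C * t ≠ 0 := by linarith
    field_simp
  -- new coefficients
  set a' : ℕ → ℂ := fib (gg m) (cc a H r m u) with ha'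
  have hev : ∀ z ∈ ball (0 : ℂ) 1, ev a' z = ev a (phi P r m u z) := fun z hz =>
    comp_eval ha hpow hr0 hr1 hm1 hu hz
  have hmaps : ∀ z ∈ ball (0 : ℂ) 1, phi P r m u z ∈ ball (0 : ℂ) 1 := fun z hz =>
    phi_maps hL hP hr0 hr1 hm1 hu hz
  have himg : ∀ S ⊆ ball (0 : ℂ) 1, ev a' '' S = ev a '' (phi P r m u '' S) := by
    intro S hS
    rw [image_image]
    exact image_congr fun z hz => hev z (hS hz)
  have ha'1 : a' 1 = a 1 * exp ((Real.log r + p) / m) := comp_one ha hpow hr0 hr1 hm2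
  have hnice : Nice a' := by
    refine ⟨comp_zero ha hm1, ?_, ?_, ?_⟩
    · rw [ha'1]
      exact mul_ne_zero ha.one (exp_ne_zero _)
    · obtain ⟨R', k1, -, k2⟩ := comp_sum ha hpow hr0 hr1 hm1 hu
      exact ⟨R', k1, k2⟩
    · intro z hz w hw hzw
      rw [hev z hz, hev w hw] at hzw
      exact phi_inj hL hP hr0 hr1 hm1 hu hz hw (ha.inj (hmaps z hz) (hmaps w hw) hzw)
  refine ⟨a', δ', hnice, hδ'0, ?_, ?_, ?_, ?_, ?_, ?_, ?_⟩
  · refine hδ'le.trans ?_
    have : 4 * C * t / m ≤ 2 / m := by gcongr; linarith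
    linarith
  · -- δ' * D1 a' ≤ ε
    have k1 := comp_D1 ha hpow hb hr0 hr1 hm1 hu hΛb
    rw [← ha', ← hD2, h1r] at k1
    have k2 : 0 ≤ D1 a' := tsum_nonneg fun n => by positivity
    have k3 : δ' * D1 a' ≤ 4 * C * t / m * (D1 a + b * ((16 + Λ) / 2) / m * D2 +
        9 * Real.sqrt b / (t / (2 * C)) * D1 a) := by
      gcongr
    refine k3.trans (le_trans ?_ hmA)
    have k4 : Real.sqrt b / m ≤ Real.sqrt (2 * δ * (1 / (m : ℝ))) := by
      rw [div_le_iff₀ hm0]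
      apply Real.sqrt_le_iff.2
      constructor
      · positivity
      · rw [mul_pow, Real.sq_sqrt (by positivity)]
        have : 2 * δ * (1 / (m : ℝ)) * (m : ℝ) ^ 2 = 2 * δ * m := by field_simp
        rw [this]; exact hb3
    have k5 : 4 * C * t / m * (D1 a + b * ((16 + Λ) / 2) / m * D2 +
        9 * Real.sqrt b / (t / (2 * C)) * D1 a) =
        (4 * C * t) * (D1 a + (b / m) * ((16 + Λ) / 2) * D2) * (1 / m) + 72 * C ^ 2 * D1 a * (Real.sqrt b / m) := by
      field_simp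
      ring
    rw [k5]
    have k6 : (b : ℝ) / m ≤ 2 * δ := by
      rw [div_le_iff₀ hm0]; exact hb3
    have k7 : (4 * C * t) * (D1 a + (b / m) * ((16 + Λ) / 2) * D2) ≤ D1 a + δ * (16 + Λ) * D2 := by
      have k8 : D1 a + (b / m) * ((16 + Λ) / 2) * D2 ≤ D1 a + (2 * δ) * ((16 + Λ) / 2) * D2 := by
        gcongr
      have k9 : 0 ≤ D1 a + (b / m) * ((16 + Λ) / 2) * D2 := by positivity
      have k10 : (4 * C * t) * (D1 a + (b / m) * ((16 + Λ) / 2) * D2) ≤
          1 * (D1 a + (b / m) * ((16 + Λ) / 2) * D2) := by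
        gcongr
      linarith
    gcongr
  · -- ℓ¹ distance
    have k1 := comp_diff ha hpow hr0 hr1 hm1 hu hΛb
    rw [← ha'] at k1
    refine k1.trans ?_
    have k2 : ((b : ℝ) - Real.log r + b * ((16 + Λ) / 2)) / m ≤ (20 + Λ) * δ := by
      rw [div_le_iff₀ hm0]
      have k3 : (b : ℝ) - Real.log r + b * ((16 + Λ) / 2) ≤ b * ((20 + Λ) / 2) := by nlinarith
      have k4 : (b : ℝ) * ((20 + Λ) / 2) ≤ (2 * δ * m) * ((20 + Λ) / 2) := by gcongr
      linarith
    calc D1 a * (((b : ℝ) - Real.log r + b * ((16 + Λ) / 2)) / m) ≤ D1 a * ((20 + Λ) * δ) := by gcongr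
      _ = (20 + Λ) * (δ * D1 a) := by ring
  · rw [himg _ subset_rfl]
    apply image_mono
    rintro _ ⟨z, hz, rfl⟩
    exact hmaps z hz
  · rw [ha'1, norm_mul, mul_comm]
    gcongr
    have e1 : exp ((Real.log r + p) / m) = ((Real.exp ((Real.log r + p) / m) : ℝ) : ℂ) := by
      push_cast; rfl
    rw [e1, Complex.norm_real, Real.norm_of_nonneg (Real.exp_pos _).le]
    apply Real.exp_le_exp.2
    rw [le_div_iff₀ hm0]
    have k1 := hpow.hp
    have k2 : 2 ≤ ε * m := by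
      rw [div_le_iff₀ hm0] at hmε
      exact hmε
    nlinarith
  · -- SS
    have hcov := phi_cover hL hC hP hr hm1 hu
    have k1 : volume (ev a '' ball (0 : ℂ) 1) ≤ volume (ev a' '' ball (0 : ℂ) 1) + volume (ev a '' badset η b m u) := by
      rw [himg _ subset_rfl]
      refine le_trans (measure_mono ?_) (measure_union_le _ _)
      rw [← image_union]
      exact image_mono hcov
    rw [nice_vol ha, nice_vol hnice] at k1
    have k2 := ofReal_le_add hSS (SS_nonneg a') (by positivity : 0 ≤ 6 * η * SS a + ε)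
      (k1.trans (by gcongr))
    linarith
  · -- low
    have hinn := phi_inner hL hC hP hr0 hr1 hm1 hu hδ'0 hδ'e.le hb1
    have hsub : ball (0 : ℂ) (Real.exp (-δ')) ⊆ ball 0 1 :=
      ball_subset_ball (Real.exp_le_one_iff.2 (by linarith))
    have k1 : volume (ev a' '' ball (0 : ℂ) (Real.exp (-δ'))) ≤
        volume (ev a '' ball (0 : ℂ) (Real.exp (-δ))) + volume (ev a '' badset η b m u) := by
      rw [himg _ hsub]
      refine le_trans (measure_mono ?_) (measure_union_le _ _)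
      rw [← image_union]
      exact image_mono hinn
    rw [nice_vol_low ha hδ, nice_vol_low hnice hδ'0] at k1
    exact ofReal_le_add (low_nonneg _ _) (low_nonneg _ _) (by positivity : 0 ≤ 6 * η * SS a + ε)
      (k1.trans (by gcongr))

end Pool.Agent.Helper265.Osg
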